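import Pool.Agent.H3NY.X.PathW

namespace Pool.Agent.H356R3.NS
end Pool.Agent.H356R3.NS
namespace Pool.Agent.H356R3.NS.H3
end Pool.Agent.H356R3.NS.H3
namespace Pool.Agent.H356R3.NS.X
end Pool.Agent.H356R3.NS.X
namespace Pool.Agent.H3NS
end Pool.Agent.H3NS
namespace H459R3.NS
end H459R3.NS

set_option autoImplicit false
set_option maxHeartbeats 4000000
set_option synthInstance.maxHeartbeats 400000

/-!
The coefficients of `(u·∇)u + ∇P`.
-/

open MeasureTheory Set Filter Topology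
open scoped ENNReal NNReal ContDiff

namespace Pool.Agent.H356R3.NS.X

open Pool.Agent.H3NS
open H459R3.NS (fr ee SP IsSol cube)

/-- `(u·∇)u + ∇P` -/
noncomputable def adv (u : R3 → R3) (P : R3 → ℝ) : R3 → R3 := fun x i =>
  ∑ j, u x j * pd j (fun y => u y i) x + pd i P x

section
variable {ν : ℝ} {u : ℝ → R3 → R3} {P : ℝ → R3 → ℝ}

lemma sp_of {v : R3 → R3} (h : ContDiff ℝ ∞ v) (hp : Pe v) (i : Fin 3) : SP (fun y => v y i) :=
  ⟨contDiff_pi.1 h i, fun j x => congrFun (hp x j) i⟩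

/-- the equation for the Fourier coefficients -/
lemma adv_deriv {t η : ℝ} (hη : 0 < η)
    (hu : ContDiffOn ℝ ∞ (fun z : ℝ × R3 => u z.1 z.2) (Ioo (t - η) (t + η) ×ˢ univ))
    (hpu : Pe (u t)) (hP : ContDiff ℝ ∞ (P t)) (hpP : Pe (P t))
    (hm : ∀ x i, deriv (fun s => u s x i) t + ∑ j, u t x j * pd j (fun y => u t y i) x
      = ν * ∑ j, pd j (pd j fun y => u t y i) x - pd i (P t) x) (k : K) (i : Fin 3) :
    HasDerivAt (fun s => fc (u s) k i)
      (-((4 * Real.pi ^ 2 * ν * Pool.Agent.H356R3.NS.sq k : ℝ) : ℂ) * fc (u t) k i - fc (adv (u t) (P t)) k i) t := by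
  have ht : t ∈ Ioo (t - η) (t + η) := ⟨by linarith, by linarith⟩
  have hut : ContDiff ℝ ∞ (u t) := by
    have h1 : ContDiffOn ℝ ∞ (fun x : R3 => ((t, x) : ℝ × R3)) univ := by fun_prop
    have h2 := ContDiffOn.comp (g := fun z : ℝ × R3 => u z.1 z.2) hu h1 (fun x _ => ⟨ht, mem_univ _⟩)
    exact contDiffOn_univ.1 h2
  have hsp : ∀ i, SP (fun y => u t y i) := fun i => sp_of hut hpu i
  have hf : ContDiffOn ℝ 1 (fun z : ℝ × R3 => (fun (s : ℝ) (y : R3) => u (t - η + s) y i) z.1 z.2)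
      (Ioo 0 (2 * η) ×ˢ univ) := by
    have h1 : ContDiffOn ℝ ∞ (fun z : ℝ × R3 => ((t - η + z.1, z.2) : ℝ × R3)) (Ioo 0 (2 * η) ×ˢ univ) := by fun_prop
    have h2 := ContDiffOn.comp (g := fun z : ℝ × R3 => u z.1 z.2) hu h1
      (fun z hz => ⟨⟨by linarith [hz.1.1], by linarith [hz.1.2]⟩, mem_univ _⟩)
    exact (contDiffOn_pi.1 h2 i).of_le (by norm_cast)
  have h1 := fr_hasDerivAt (f := fun (s : ℝ) (y : R3) => u (t - η + s) y i) hf (t := η) ⟨hη, by linarith⟩ k
  have e0 : t - η + η = t := by ring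
  have e1 : H459R3.NS.dt (fun (s : ℝ) (y : R3) => u (t - η + s) y i) η
      = fun x => ν * H459R3.NS.lap (fun y => u t y i) x - adv (u t) (P t) x i := by
    funext x
    have h2 : deriv (fun s => u (t - η + s) x i) η = deriv (fun s => u s x i) t := by
      have h3 := deriv_comp_const_add (fun s => u s x i) (t - η) η
      rw [e0] at h3
      exact h3
    show deriv (fun s => u (t - η + s) x i) η = _
    rw [h2]
    have h3 := hm x i
    unfold adv
    show deriv (fun s => u s x i) t = ν * ∑ j, pd j (pd j fun y => u t y i) x - _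
    linarith
  have s1 : SP (fun x => ν * H459R3.NS.lap (fun y => u t y i) x) :=
    ⟨contDiff_const.mul (hsp i).lap.smooth, fun j x => by simp only [(hsp i).lap.per j x]⟩
  have s2 : SP (fun x => adv (u t) (P t) x i) :=
    H459R3.NS.SP.add (H459R3.NS.SP.sum fun j _ => (hsp j).mul ((hsp i).pd j))
      (H459R3.NS.SP.pd (f := P t) ⟨hP, fun j x => hpP x j⟩ i)
  rw [e1, fr_sub s1 s2, fr_smul, fr_lap (hsp i)] at h1
  have h2 : HasDerivAt (fun s => fc (u s) k i) ((ν : ℂ) * (-((4 * Real.pi ^ 2 * Pool.Agent.H356R3.NS.sq k : ℝ) : ℂ) *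
      fr (fun y => u t y i) k) - fr (fun x => adv (u t) (P t) x i) k) t := by
    have h3 := HasDerivAt.comp_sub_const (x := t) (a := t - η)
      (f := fun s => fr (fun y => u (t - η + s) y i) k) (by rw [sub_sub_cancel]; exact h1)
    refine h3.congr_of_eventuallyEq (Filter.Eventually.of_forall fun s => ?_)
    simp only
    rw [add_sub_cancel, fc_fr]
  refine h2.congr_deriv ?_
  rw [fc_fr, fc_fr]
  push_cast
  ring

end

section
variable {c : ℝ} {χ : ℝ → ℝ} {u : Fam}

lemma RegP.der (h : RegP c χ u) {t : ℝ} (ht : 0 < t) (h1 : χ t = 1) (k : K) (i : Fin 3) :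
    HasDerivAt (fun s => u k s i) (-((c * sq k : ℝ) : ℂ) * u k t i + Bt u k t i) t := by
  obtain ⟨δ, hδ⟩ : ∃ δ, δ = t / 2 := ⟨_, rfl⟩
  have hδ0 : 0 < δ := by rw [hδ]; positivity
  have hδt : δ < t := by rw [hδ]; linarith
  have h2 := (h δ hδ0).der i k (t - δ) (by linarith)
  have h3 := HasDerivAt.comp_sub_const (x := t) (a := δ) h2
  have h4 : HasDerivAt (fun s => u k s i) (dX c (fun t => χ (δ + t)) (shf δ u) i k (t - δ)) t := by
    refine h3.congr_of_eventuallyEq ?_
    filter_upwards [lt_mem_nhds hδt] with s hs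
    show u k s i = u k (δ + max (s - δ) 0) i
    rw [max_eq_left (by linarith), add_sub_cancel]
  refine h4.congr_deriv ?_
  have e1 : ∀ l, shf δ u l (t - δ) = u l t := fun l => by
    show u l (δ + max (t - δ) 0) = _
    rw [max_eq_left (by linarith), add_sub_cancel]
  have e2 : χ (δ + (t - δ)) = 1 := by rw [add_sub_cancel]; exact h1
  unfold dX Bt Bf cvv cv at'
  simp only [e1, e2, Complex.ofReal_one, one_mul]

lemma fld_deriv (h : RegP c χ u) (hsn : ∀ t, 0 < t → SN (at' u t)) (hsy : SymF u) (hz : ∀ t, u 0 t = 0) (m : E3)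
    {t : ℝ} (ht : 0 < t) (h1 : χ t = 1) {k : K} (hk : k ≠ 0) (i : Fin 3) :
    HasDerivAt (fun s => fc (fld m u s) k i)
      ((-((c * sq k : ℝ) : ℂ) * u k t i + Bt u k t i) * ex k (-(t • m))
        - u k t i * ((2 * Real.pi * Complex.I * ∑ j, (k j : ℂ) * (m j : ℂ)) * ex k (-(t • m)))) t := by
  have h2 := (h.der ht h1 k i).mul (ex_deriv k (-m) t)
  have e0 : ∀ s : ℝ, s • (-m) = -(s • m) := fun s => smul_neg _ _
  have e1 : ∑ j, (k j : ℂ) * (((-m) j : ℝ) : ℂ) = -∑ j, (k j : ℂ) * (m j : ℂ) := by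
    rw [← Finset.sum_neg_distrib]
    refine Finset.sum_congr rfl fun j _ => ?_
    rw [Pi.neg_apply]
    push_cast
    ring
  rw [e1] at h2
  have h3 : (fun s => fc (fld m u s) k i) =ᶠ[𝓝 t] (fun s => u k s i) * fun s : ℝ => ex k (s • (-m)) := by
    filter_upwards [lt_mem_nhds ht] with s hs
    rw [fc_fld (hsn s hs) (hsy s) (hz s) m]
    unfold cof
    rw [if_neg hk, Pi.mul_apply, e0]
  refine (h2.congr_of_eventuallyEq h3).congr_deriv ?_
  rw [e0]
  ring

/-- the coefficients of `(u·∇)u + ∇P` on the Fourier side -/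
lemma adv_le {ν : ℝ} (h : RegP (4 * Real.pi ^ 2 * ν) χ u) (hsn : ∀ t, 0 < t → SN (at' u t)) (hsy : SymF u)
    (hz : ∀ t, u 0 t = 0) (m : E3) {t : ℝ} (ht : 0 < t) (h1 : χ t = 1) (k : K) :
    ‖fc (adv (fld m u t) (prs m u t)) k‖ₑ ≤ ‖Bt u k t‖ₑ + ENNReal.ofReal (2 * Real.pi * (3 * ‖m‖) * nk k) * ‖u k t‖ₑ := by
  have hpi := Real.pi_pos
  have hsm := h.smooth m
  have hsp := h.smooth_p m
  have hslice : ContDiff ℝ ∞ (prs m u t) := by
    have h1 : ContDiffOn ℝ ∞ (fun x : R3 => ((t, x) : ℝ × R3)) univ := by fun_prop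
    have h2 := ContDiffOn.comp (g := fun z : ℝ × R3 => prs m u z.1 z.2) hsp h1 (fun x _ => ⟨ht, mem_univ _⟩)
    exact contDiffOn_univ.1 h2
  have hd : ∀ i, HasDerivAt (fun s => fc (fld m u s) k i)
      (-((4 * Real.pi ^ 2 * ν * Pool.Agent.H356R3.NS.sq k : ℝ) : ℂ) * fc (fld m u t) k i
        - fc (adv (fld m u t) (prs m u t)) k i) t := fun i =>
    adv_deriv (η := t) ht (hsm.mono (prod_mono (fun s hs => show 0 < s by linarith [hs.1]) subset_rfl))
      (fld_per m u t) hslice (prs_per m u t) (fun x i => h.mom m ht h1 x i) k i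
  have key : ‖fc (adv (fld m u t) (prs m u t)) k‖ ≤ ‖Bt u k t‖ + 2 * Real.pi * (3 * ‖m‖) * nk k * ‖u k t‖ := by
    have hnk := nk_nonneg k
    rw [pi_norm_le_iff_of_nonneg (by positivity)]
    intro i
    by_cases hk : k = 0
    · subst hk
      have h2 : HasDerivAt (fun s => fc (fld m u s) 0 i) 0 t := by
        refine (hasDerivAt_const t (m i : ℂ)).congr_of_eventuallyEq ?_
        filter_upwards [lt_mem_nhds ht] with s hs
        rw [fc_fld_zero (hsn s hs) (hsy s) (hz s) m]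
      have h3 := (hd i).unique h2
      have h4 : Pool.Agent.H356R3.NS.sq (0 : K) = 0 := by simp [Pool.Agent.H356R3.NS.sq]
      rw [h4] at h3
      have h5 : fc (adv (fld m u t) (prs m u t)) 0 i = 0 := by
        simpa using h3
      rw [h5, norm_zero]
      positivity
    · have h3 := (hd i).unique (fld_deriv h hsn hsy hz m ht h1 hk i)
      have e1 : fc (fld m u t) k i = u k t i * ex k (-(t • m)) := by
        rw [fc_fld (hsn t ht) (hsy t) (hz t) m]
        unfold cof
        rw [if_neg hk]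
      rw [e1] at h3
      have h4 : fc (adv (fld m u t) (prs m u t)) k i = -(Bt u k t i * ex k (-(t • m)))
          + u k t i * ((2 * Real.pi * Complex.I * ∑ j, (k j : ℂ) * (m j : ℂ)) * ex k (-(t • m))) := by
        linear_combination -h3
      rw [h4]
      refine (norm_add_le _ _).trans (add_le_add ?_ ?_)
      · rw [norm_neg, norm_mul, norm_ex, mul_one]
        exact norm_le_pi_norm _ i
      · rw [norm_mul, norm_mul, norm_ex, mul_one, norm_mul, norm_mul, norm_mul, Complex.norm_I, mul_one,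
          Complex.norm_real, Real.norm_of_nonneg hpi.le, Complex.norm_ofNat]
        have h5 := sum_km k m
        have h6 := norm_le_pi_norm (u k t) i
        calc ‖u k t i‖ * (2 * Real.pi * ‖∑ j, (k j : ℂ) * (m j : ℂ)‖)
            ≤ ‖u k t‖ * (2 * Real.pi * (3 * ‖m‖ * nk k)) := by gcongr
          _ = _ := by ring
  rw [← ofReal_norm, ← ofReal_norm, ← ofReal_norm, ← ENNReal.ofReal_mul (by have := nk_nonneg k; positivity),
    ← ENNReal.ofReal_add (norm_nonneg _) (by have := nk_nonneg k; positivity)]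
  exact ENNReal.ofReal_le_ofReal key

end

end Pool.Agent.H356R3.NS.X
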