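import Pool.Agent.H3NY.X.FixX

namespace Pool.Agent.H356R3.NS
end Pool.Agent.H356R3.NS
namespace Pool.Agent.H356R3.NS.H3
end Pool.Agent.H356R3.NS.H3
namespace Pool.Agent.H356R3.NS.X
end Pool.Agent.H356R3.NS.X
namespace Pool.Agent.H3NS
end Pool.Agent.H3NS
namespace H459R3.NS
end H459R3.NS

set_option maxHeartbeats 4000000
set_option synthInstance.maxHeartbeats 400000

open MeasureTheory Set Filter Topology
open scoped ENNReal NNReal

namespace Pool.Agent.H356R3.NS.X

open Pool.Agent.H356R3.NS.H3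

variable {q cc η : K}

/-- Time cut-offs with a plateau. -/
structure CutH (χ : ℝ → ℝ) (h : ℝ) : Prop extends CutT χ where
  hpos : 0 < h
  one : ∀ t, t ≤ h → χ t = 1

/-- Solutions on the Fourier side of the equation with a cut-off in front of the nonlinearity. -/
structure SolX (χ : ℝ → ℝ) (c a : ℝ) (V : K → C3) (u : Fam) : Prop where
  cf : CF u
  z : ∀ t, u 0 t = 0
  sym : SymF u
  dom : ∃ b : K → ℝ, Summable (fun k => om a k * b k) ∧ ∀ k t, ‖u k t‖ ≤ b k
  l2 : LN (fun t => NW (Wa a) (at' u t)) ≠ ⊤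
  eq : ∀ k t, u k t = Real.exp (-(c * sq k * max t 0)) • V k + Duh c (Bx χ u) k t

end Pool.Agent.H356R3.NS.X
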