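import Pool.Agent.H3NY.X.Step5

namespace Pool.Agent.H356R3.NS
end Pool.Agent.H356R3.NS
namespace Pool.Agent.H356R3.NS.H3
end Pool.Agent.H356R3.NS.H3
namespace Pool.Agent.H356R3.NS.X
end Pool.Agent.H356R3.NS.X
namespace Pool.Agent.H3NS
end Pool.Agent.H3NS
namespace H459R3.NS
end H459R3.NS

set_option autoImplicit false
set_option maxHeartbeats 4000000
set_option synthInstance.maxHeartbeats 400000

open MeasureTheory Set Filter Topology
open scoped ENNReal NNReal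

namespace Pool.Agent.H356R3.NS.X

open Pool.Agent.H356R3.NS.H3

variable {q cc η : K}

/-- the norm in `L^p((0,1); ℓ¹)` -/
noncomputable def LP (p : ℝ) (x : Fam) : ℝ≥0∞ :=
  (∫⁻ t in Ioc 0 1, NW (Wa 0) (at' x t) ^ p) ^ (1 / p)

lemma LP_add {p : ℝ} (hp : 1 ≤ p) {x y : Fam} (hx : CF x) (hy : CF y) : LP p (x + y) ≤ LP p x + LP p y := by
  unfold LP
  refine le_trans ?_ (ENNReal.lintegral_Lp_add_le (μ := volume.restrict (Ioc (0 : ℝ) 1))
    (NW_meas (Wa 0) hx).aemeasurable (NW_meas (Wa 0) hy).aemeasurable hp)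
  apply ENNReal.rpow_le_rpow _ (by positivity)
  exact lintegral_mono fun t => ENNReal.rpow_le_rpow (NW_add_le _ _ _) (by linarith)

lemma Lp_mono_exp {p q' : ℝ} (hp : 0 < p) (hpq : p ≤ q') {φ : ℝ → ℝ≥0∞} (hφ : Measurable φ) :
    (∫⁻ t in Ioc (0 : ℝ) 1, φ t ^ p) ^ (1 / p) ≤ (∫⁻ t in Ioc (0 : ℝ) 1, φ t ^ q') ^ (1 / q') := by
  have h := eLpNorm'_le_eLpNorm'_mul_rpow_measure_univ (μ := volume.restrict (Ioc (0 : ℝ) 1)) (f := φ) hp hpq
    hφ.aestronglyMeasurable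
  simpa [eLpNorm'] using h

lemma LP_mono {p p' : ℝ} (hp : 0 < p) (hpp : p ≤ p') {x : Fam} (hx : CF x) : LP p x ≤ LP p' x :=
  Lp_mono_exp hp hpp (NW_meas _ hx)

lemma LP_le_LN {p : ℝ} (hp : 0 < p) (hp2 : p ≤ 2) {x : Fam} (hx : CF x) :
    LP p x ≤ LN (fun t => NW (Wa 0) (at' x t)) := by
  refine (Lp_mono_exp hp hp2 (NW_meas (Wa 0) hx)).trans ?_
  unfold LN
  exact ENNReal.rpow_le_rpow (lintegral_mono_set Ioc_subset_Ioi_self) (by norm_num)

lemma Wm_le_Wa (k : K) : Wm 0 k ≤ Wa 0 k := by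
  unfold Wm Wa
  apply ENNReal.ofReal_le_ofReal
  by_cases hk : k = 0
  · subst hk
    rw [nk_zero, div_zero]
    exact (om_pos _ _).le
  · exact div_le_self (om_pos _ _).le (one_le_nk hk)

/-- heat flow -/
noncomputable def Ht (c : ℝ) (W : K → C3) : Fam := fun k t => Real.exp (-(c * sq k * max t 0)) • W k

lemma SolX.dom' {χ : ℝ → ℝ} {c a : ℝ} (ha : 0 < a) {V : K → C3} {u : Fam} (h : SolX χ c a V u) : Dom u := by
  obtain ⟨b, hb, hb'⟩ := h.dom
  have hb0 : ∀ k, 0 ≤ b k := fun k => (norm_nonneg _).trans (hb' k 0)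
  refine ⟨b, hb.of_nonneg_of_le hb0 fun k => ?_, hb'⟩
  calc b k = 1 * b k := (one_mul _).symm
    _ ≤ _ := mul_le_mul_of_nonneg_right (one_le_om ha.le k) (hb0 k)

lemma CF.sub' {x y : Fam} (hx : CF x) (hy : CF y) : CF (x - y) := fun k => (hx k).sub (hy k)

end Pool.Agent.H356R3.NS.X
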