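import Pool.Agent.H3NY.R.Late
import Pool.Agent.H3NY.R.Reg
import Pool.Agent.H3NY.X.KeyW

namespace Pool.Agent.H356R3.NS
end Pool.Agent.H356R3.NS
namespace Pool.Agent.H356R3.NS.H3
end Pool.Agent.H356R3.NS.H3
namespace Pool.Agent.H356R3.NS.X
end Pool.Agent.H356R3.NS.X
namespace Pool.Agent.H3NS
end Pool.Agent.H3NS
namespace H459R3.NS
end H459R3.NS

set_option autoImplicit false
set_option maxHeartbeats 4000000
set_option synthInstance.maxHeartbeats 400000

open MeasureTheory Set Filter Topology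
open scoped ENNReal NNReal

namespace Pool.Agent.H356R3.NS.X

/-- polynomial weights -/
noncomputable def ws (s : ℕ) (k : K) : ℝ≥0∞ := ENNReal.ofReal (nk k ^ s)

lemma W1_ws (s : ℕ) : W1 (ws s) = ws (s + 1) := by
  funext k
  unfold W1 ws
  rw [← ENNReal.ofReal_mul (pow_nonneg (nk_nonneg k) s), pow_succ]

lemma ws_zero : ws 0 = Wa 0 := by
  funext k
  unfold ws Wa om
  simp

lemma nk_add (k l : K) : nk (k + l) ≤ nk k + nk l := by
  have h := norm_add_le (WithLp.toLp 2 (fun i => (k i : ℝ)) : EuclideanSpace ℝ (Fin 3))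
    (WithLp.toLp 2 (fun i => (l i : ℝ)))
  have e : ∀ m : K, ‖(WithLp.toLp 2 (fun i => (m i : ℝ)) : EuclideanSpace ℝ (Fin 3))‖ = nk m := by
    intro m
    rw [EuclideanSpace.norm_eq]
    unfold nk sq
    congr 1
    refine Finset.sum_congr rfl fun i _ => ?_
    simp
  rw [e, e] at h
  have e2 : (WithLp.toLp 2 (fun i => (k i : ℝ)) : EuclideanSpace ℝ (Fin 3)) + WithLp.toLp 2 (fun i => (l i : ℝ))
      = WithLp.toLp 2 (fun i => ((k + l) i : ℝ)) := by
    rw [← WithLp.toLp_add]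
    congr 1
    funext i
    simp
  rw [e2, e] at h
  exact h

lemma NW_Bf_ws (s : ℕ) (x : K → C3) :
    NW (ws s) (Bf x x) ≤ ENNReal.ofReal (C0 * 2 ^ (s + 1)) * (NW (Wa 0) x * NW (ws (s + 1)) x) := by
  have hC := C0_pos
  have h1 : ∀ k, ws s k * ‖Bf x x k‖ₑ ≤ ENNReal.ofReal (C0 * 2 ^ s) *
      ∑' l, ((ws (s + 1) l * ‖x l‖ₑ) * ‖x (k - l)‖ₑ + ‖x l‖ₑ * (ws (s + 1) (k - l) * ‖x (k - l)‖ₑ)) := by
    intro k
    calc ws s k * ‖Bf x x k‖ₑ
        ≤ ws s k * (ENNReal.ofReal (C0 * nk k) * ∑' l, ‖x l‖ₑ * ‖x (k - l)‖ₑ) :=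
          mul_le_mul' le_rfl (enorm_Bf_le x x k)
      _ = ENNReal.ofReal C0 * (ENNReal.ofReal (nk k ^ (s + 1)) * ∑' l, ‖x l‖ₑ * ‖x (k - l)‖ₑ) := by
          unfold ws
          rw [ENNReal.ofReal_mul hC.le, pow_succ, ENNReal.ofReal_mul (pow_nonneg (nk_nonneg k) s)]
          ring
      _ ≤ ENNReal.ofReal C0 * (ENNReal.ofReal (2 ^ s) *
          ∑' l, ((ws (s + 1) l * ‖x l‖ₑ) * ‖x (k - l)‖ₑ + ‖x l‖ₑ * (ws (s + 1) (k - l) * ‖x (k - l)‖ₑ))) := by
          apply mul_le_mul' le_rfl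
          rw [← ENNReal.tsum_mul_left, ← ENNReal.tsum_mul_left]
          refine ENNReal.tsum_le_tsum fun l => ?_
          have h2 : nk k ^ (s + 1) ≤ 2 ^ s * (nk l ^ (s + 1) + nk (k - l) ^ (s + 1)) := by
            have h3 : nk k ≤ nk l + nk (k - l) := by
              have := nk_add l (k - l)
              rwa [add_sub_cancel] at this
            refine (pow_le_pow_left₀ (nk_nonneg k) h3 (s + 1)).trans ?_
            exact add_pow_le (nk_nonneg _) (nk_nonneg _) (s + 1)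
          calc ENNReal.ofReal (nk k ^ (s + 1)) * (‖x l‖ₑ * ‖x (k - l)‖ₑ)
              ≤ ENNReal.ofReal (2 ^ s * (nk l ^ (s + 1) + nk (k - l) ^ (s + 1))) * (‖x l‖ₑ * ‖x (k - l)‖ₑ) :=
                mul_le_mul' (ENNReal.ofReal_le_ofReal h2) le_rfl
            _ = _ := by
                unfold ws
                rw [ENNReal.ofReal_mul (by positivity),
                  ENNReal.ofReal_add (pow_nonneg (nk_nonneg _) _) (pow_nonneg (nk_nonneg _) _)]
                ring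
      _ = _ := by
          rw [← mul_assoc, ← ENNReal.ofReal_mul hC.le]
  calc NW (ws s) (Bf x x) ≤ ∑' k, ENNReal.ofReal (C0 * 2 ^ s) *
      ∑' l, ((ws (s + 1) l * ‖x l‖ₑ) * ‖x (k - l)‖ₑ + ‖x l‖ₑ * (ws (s + 1) (k - l) * ‖x (k - l)‖ₑ)) :=
        ENNReal.tsum_le_tsum h1
    _ = ENNReal.ofReal (C0 * 2 ^ s) * ∑' l, ∑' k,
      ((ws (s + 1) l * ‖x l‖ₑ) * ‖x (k - l)‖ₑ + ‖x l‖ₑ * (ws (s + 1) (k - l) * ‖x (k - l)‖ₑ)) := by
        rw [ENNReal.tsum_mul_left, ENNReal.tsum_comm]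
    _ = ENNReal.ofReal (C0 * 2 ^ s) * (NW (ws (s + 1)) x * NW (Wa 0) x + NW (Wa 0) x * NW (ws (s + 1)) x) := by
        congr 1
        rw [NW_Wa_zero]
        unfold NW
        rw [← ENNReal.tsum_mul_right, ← ENNReal.tsum_mul_right, ← ENNReal.tsum_add]
        refine tsum_congr fun l => ?_
        rw [ENNReal.tsum_add, ENNReal.tsum_mul_left, ENNReal.tsum_mul_left]
        congr 2
        · exact (Equiv.subRight l).tsum_eq fun k => ‖x k‖ₑ
        · exact (Equiv.subRight l).tsum_eq fun k => ws (s + 1) k * ‖x k‖ₑ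
    _ = _ := by
        rw [mul_comm (NW (ws (s + 1)) x), ← two_mul, ← mul_assoc, pow_succ]
        congr 1
        rw [← mul_assoc, ENNReal.ofReal_mul (p := C0 * 2 ^ s) (by positivity), ENNReal.ofReal_ofNat]

/-- Duhamel's formula -/
def Eqn (c : ℝ) (V : K → C3) (G u : Fam) : Prop :=
  ∀ k t, u k t = Real.exp (-(c * sq k * max t 0)) • V k + Duh c G k t

/-- time shift -/
def shf (t0 : ℝ) (u : Fam) : Fam := fun k t => u k (t0 + max t 0)

lemma shf_cf {t0 : ℝ} {u : Fam} (hu : CF u) : CF (shf t0 u) := fun k => by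
  have := hu k
  unfold shf
  fun_prop

lemma at'_shf {t0 t : ℝ} (u : Fam) (ht : 0 ≤ t) : at' (shf t0 u) t = at' u (t0 + t) := by
  funext k
  simp only [at', shf]
  rw [max_eq_left ht]

lemma Eqn.shift {c : ℝ} {V : K → C3} {G u : Fam} (hG : CF G) (h : Eqn c V G u) {t0 : ℝ} (h0 : 0 ≤ t0) :
    Eqn c (at' u t0) (shf t0 G) (shf t0 u) := by
  intro k t
  have hm : 0 ≤ max t 0 := le_max_right _ _
  have e1 := h k (t0 + max t 0)
  have e0 := h k t0
  rw [Duh_eq, max_eq_left (by linarith : 0 ≤ t0 + max t 0)] at e1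
  rw [Duh_eq, max_eq_left h0] at e0
  have hc := cont_inner hG c k
  have hadd : ∫ s in (0 : ℝ)..(t0 + max t 0), Real.exp (c * sq k * s) • G k s
      = (∫ s in (0 : ℝ)..t0, Real.exp (c * sq k * s) • G k s)
        + ∫ s in t0..(t0 + max t 0), Real.exp (c * sq k * s) • G k s :=
    (intervalIntegral.integral_add_adjacent_intervals (hc.intervalIntegrable _ _)
      (hc.intervalIntegrable _ _)).symm
  have e2 : Duh c (shf t0 G) k t = Real.exp (-(c * sq k * (t0 + max t 0))) •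
      ∫ s in t0..(t0 + max t 0), Real.exp (c * sq k * s) • G k s := by
    unfold Duh
    have e3 : ∫ s in (0 : ℝ)..(max t 0), Real.exp (-(c * sq k * (max t 0 - s))) • shf t0 G k s
        = ∫ s in (0 : ℝ)..(max t 0), Real.exp (-(c * sq k * ((t0 + max t 0) - (t0 + s)))) • G k (t0 + s) := by
      refine intervalIntegral.integral_congr fun s hs => ?_
      rw [uIcc_of_le hm] at hs
      simp only [shf]
      rw [max_eq_left hs.1]
      congr 3
      ring
    rw [e3, intervalIntegral.integral_comp_add_left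
      (fun s => Real.exp (-(c * sq k * ((t0 + max t 0) - s))) • G k s) t0, add_zero,
      ← intervalIntegral.integral_smul]
    refine intervalIntegral.integral_congr fun s _ => ?_
    simp only [smul_smul, ← Real.exp_add]
    congr 2
    ring
  show u k (t0 + max t 0) = Real.exp (-(c * sq k * max t 0)) • u k t0 + _
  rw [e2, e1, e0, hadd]
  simp only [smul_add, smul_smul, ← Real.exp_add]
  have e3 : -(c * sq k * max t 0) + -(c * sq k * t0) = -(c * sq k * (t0 + max t 0)) := by ring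
  rw [e3, add_assoc]

lemma LN_shift (φ : ℝ → ℝ≥0∞) (t0 : ℝ) :
    LN (fun t => φ (t0 + t)) = (∫⁻ t in Ioi t0, φ t ^ (2 : ℝ)) ^ (1 / 2 : ℝ) := by
  unfold LN
  congr 1
  rw [← lintegral_indicator measurableSet_Ioi, ← lintegral_indicator measurableSet_Ioi]
  rw [← lintegral_add_left_eq_self (fun t => (Ioi t0).indicator (fun t => φ t ^ (2 : ℝ)) t) t0]
  refine lintegral_congr fun t => ?_
  by_cases h : 0 < t
  · rw [indicator_of_mem (show t ∈ Ioi (0 : ℝ) from h), indicator_of_mem (show t0 + t ∈ Ioi t0 from by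
      simp only [mem_Ioi]; linarith)]
  · rw [indicator_of_notMem (show t ∉ Ioi (0 : ℝ) from h), indicator_of_notMem (show t0 + t ∉ Ioi t0 from by
      simp only [mem_Ioi]; linarith)]

lemma LN_indicator (φ : ℝ → ℝ≥0∞) {δ : ℝ} (hδ : 0 ≤ δ) :
    LN (fun t => (Ioi δ).indicator φ t) = (∫⁻ t in Ioi δ, φ t ^ (2 : ℝ)) ^ (1 / 2 : ℝ) := by
  unfold LN
  congr 1
  rw [← lintegral_indicator measurableSet_Ioi, ← lintegral_indicator measurableSet_Ioi]
  refine lintegral_congr fun t => ?_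
  by_cases h : δ < t
  · rw [indicator_of_mem (show t ∈ Ioi δ from h), indicator_of_mem (show t ∈ Ioi (0 : ℝ) from by
      simp only [mem_Ioi]; linarith)]
    show ((Ioi δ).indicator φ t) ^ (2 : ℝ) = _
    rw [indicator_of_mem (show t ∈ Ioi δ from h)]
  · rw [indicator_of_notMem (show t ∉ Ioi δ from h)]
    by_cases h0 : 0 < t
    · rw [indicator_of_mem (show t ∈ Ioi (0 : ℝ) from h0)]
      show ((Ioi δ).indicator φ t) ^ (2 : ℝ) = _
      rw [indicator_of_notMem (show t ∉ Ioi δ from h)]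
      simp
    · rw [indicator_of_notMem (show t ∉ Ioi (0 : ℝ) from h0)]

/-- A good time. -/
lemma pick {φ : ℝ → ℝ≥0∞} {a b M : ℝ} (hab : a < b) (hM : 0 ≤ M)
    (h : (∫⁻ t in Ioi a, φ t ^ (2 : ℝ)) ^ (1 / 2 : ℝ) ≤ ENNReal.ofReal M) :
    ∃ t ∈ Ioo a b, φ t ≤ ENNReal.ofReal ((M + 1) / Real.sqrt (b - a)) := by
  by_contra hcon
  push Not at hcon
  have hba : 0 < b - a := by linarith
  have hs := Real.sqrt_pos.2 hba
  have h1 : ENNReal.ofReal (M + 1) ≤ (∫⁻ t in Ioi a, φ t ^ (2 : ℝ)) ^ (1 / 2 : ℝ) := by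
    have h2 : ENNReal.ofReal ((M + 1) ^ 2) ≤ ∫⁻ t in Ioi a, φ t ^ (2 : ℝ) := by
      calc ENNReal.ofReal ((M + 1) ^ 2)
          = ∫⁻ t in Ioo a b, ENNReal.ofReal (((M + 1) / Real.sqrt (b - a)) ^ 2) := by
            rw [setLIntegral_const, Real.volume_Ioo, ← ENNReal.ofReal_mul (by positivity)]
            congr 1
            rw [div_pow, Real.sq_sqrt hba.le]
            field_simp
        _ ≤ ∫⁻ t in Ioo a b, φ t ^ (2 : ℝ) := by
            refine setLIntegral_mono' measurableSet_Ioo fun t ht => ?_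
            rw [ENNReal.ofReal_pow (by positivity), ← ENNReal.rpow_two]
            exact ENNReal.rpow_le_rpow (hcon t ht).le (by norm_num)
        _ ≤ _ := lintegral_mono_set fun t ht => ht.1
    calc ENNReal.ofReal (M + 1) = (ENNReal.ofReal ((M + 1) ^ 2)) ^ (1 / 2 : ℝ) := by
          rw [ENNReal.ofReal_rpow_of_nonneg (by positivity) (by norm_num), ← Real.sqrt_eq_rpow,
            Real.sqrt_sq (by positivity)]
      _ ≤ _ := ENNReal.rpow_le_rpow h2 (by norm_num)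
  have h3 := h1.trans h
  rw [ENNReal.ofReal_le_ofReal_iff hM] at h3
  linarith

lemma NW_ws_le {a : ℝ} (ha : 0 < a) (s : ℕ) : ∃ C : ℝ, 0 ≤ C ∧ ∀ x : K → C3,
    NW (ws s) x ≤ ENNReal.ofReal C * NW (Wa a) x := by
  obtain ⟨C, hC, h⟩ := pw_le_om ha s
  refine ⟨C, hC, fun x => ?_⟩
  unfold NW
  rw [← ENNReal.tsum_mul_left]
  refine ENNReal.tsum_le_tsum fun k => ?_
  rw [← mul_assoc]
  apply mul_le_mul' _ le_rfl
  unfold ws Wa
  rw [← ENNReal.ofReal_mul hC]
  apply ENNReal.ofReal_le_ofReal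
  exact (pow_le_pow_left₀ (nk_nonneg k) (nk_le_pw k) s).trans (h k)

end Pool.Agent.H356R3.NS.X
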