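import Pool.Agent.H3NY.R.Core
import Pool.Agent.H3NY.S.Core4
import Pool.Agent.H3NY.S.Cost
import Pool.Agent.H3NY.X.NearX

namespace Pool.Agent.H356R3.NS
end Pool.Agent.H356R3.NS
namespace Pool.Agent.H356R3.NS.H3
end Pool.Agent.H356R3.NS.H3
namespace Pool.Agent.H356R3.NS.X
end Pool.Agent.H356R3.NS.X
namespace Pool.Agent.H3NS
end Pool.Agent.H3NS
namespace H459R3.NS
end H459R3.NS

set_option autoImplicit false
set_option maxHeartbeats 4000000
set_option synthInstance.maxHeartbeats 400000

open MeasureTheory Set Filter Topology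
open scoped ENNReal NNReal

namespace Pool.Agent.H356R3.NS.X

open Pool.Agent.H3NS

lemma critNorm_anti {r r' : ℝ} (hr : 1 ≤ r) (hrr : r ≤ r') (a : K → C3) : critNorm r' a ≤ critNorm r a := by
  have hr0 : 0 < r := by linarith
  have hr0' : 0 < r' := by linarith
  unfold critNorm
  have h1 : ∀ x : ℝ≥0∞, x ^ r' = (x ^ r) ^ (r' / r) := by
    intro x
    rw [← ENNReal.rpow_mul]
    congr 1
    field_simp
  have h2 : 1 ≤ r' / r := by rw [one_le_div hr0]; exact hrr
  have h3 := tsum_rpow_le h2 (fun j => (shellSum a j / 2 ^ j) ^ r)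
  simp only [← h1] at h3
  refine (ENNReal.rpow_le_rpow h3 (by positivity)).trans (le_of_eq ?_)
  rw [← ENNReal.rpow_mul]
  congr 1
  field_simp

lemma critNorm_of_crit {r : ℝ} (hr : 0 < r) {a : K → C3} {ε : ℝ} (hε : 0 ≤ ε)
    (h : crit r a ≤ ENNReal.ofReal (ε ^ r)) : critNorm r a ≤ ENNReal.ofReal ε := by
  rw [critNorm_eq]
  refine (ENNReal.rpow_le_rpow h (by positivity)).trans (le_of_eq ?_)
  rw [ENNReal.ofReal_rpow_of_nonneg (by positivity) (by positivity), ← Real.rpow_mul hε,
    mul_one_div_cancel hr.ne', Real.rpow_one]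

lemma crit_ne_top_iff {r : ℝ} (hr : 0 < r) (a : K → C3) : critNorm r a ≠ ⊤ → crit r a ≠ ⊤ := by
  rw [critNorm_eq]
  intro h h'
  apply h
  rw [h', ENNReal.top_rpow_of_pos (by positivity)]

lemma critNorm_sub' {r : ℝ} (hr : 1 ≤ r) (a b : K → C3) : critNorm r (a - b) ≤ critNorm r a + critNorm r b := by
  have h1 := critNorm_add hr a (fun k => -b k)
  have h2 : critNorm r (fun k => -b k) = critNorm r b := by
    apply le_antisymm
    · exact critNorm_mono (by linarith) fun k _ => by simp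
    · exact critNorm_mono (by linarith) fun k _ => by simp
  rw [h2] at h1
  have e : (fun k => a k + -b k) = a - b := by
    funext k
    simp [sub_eq_add_neg]
  rwa [e] at h1

lemma critNorm_add' {r : ℝ} (hr : 1 ≤ r) (a b : K → C3) : critNorm r (a + b) ≤ critNorm r a + critNorm r b :=
  critNorm_add hr a b

/-- A state of the construction. -/
structure StX (χ : ℝ → ℝ) (c : ℝ) where
  V : K → C3
  u : Fam
  a : ℝ
  ha : 0 < a
  sol : SolX χ c a V u
  fin : (Function.support V).Finite
  z : V 0 = 0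
  div : ∀ k, dt k (V k) = 0
  sym : Sym V

/-- truncation to a cube of frequencies -/
noncomputable def tru (M : ℕ) (b : K → C3) : K → C3 := fun k => if k ∈ bx M then b k else 0

lemma tru_fin (M : ℕ) (b : K → C3) : (Function.support (tru M b)).Finite := by
  refine (bx M).finite_toSet.subset fun k hk => ?_
  by_contra h
  exact hk (if_neg h)

lemma tru_zero (M : ℕ) {b : K → C3} (h : b 0 = 0) : tru M b 0 = 0 := by
  unfold tru
  split_ifs <;> simp [h]

lemma tru_div (M : ℕ) {b : K → C3} (h : ∀ k, dt k (b k) = 0) (k : K) : dt k (tru M b k) = 0 := by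
  unfold tru
  split_ifs
  · exact h k
  · simp [dt]

lemma bx_neg' {M : ℕ} (k : K) : -k ∈ bx M ↔ k ∈ bx M := by
  rw [mem_bx, mem_bx]
  simp

lemma tru_sym (M : ℕ) {b : K → C3} (h : Sym b) : Sym (tru M b) := by
  intro k i
  unfold tru
  by_cases hk : k ∈ bx M
  · rw [if_pos hk, if_pos ((bx_neg' k).2 hk)]
    exact h k i
  · rw [if_neg hk, if_neg (fun h' => hk ((bx_neg' k).1 h'))]
    simp

/-- truncations converge in the critical norm -/
lemma tru_tail {r : ℝ} (hr : 0 < r) {b : K → C3} (h : critNorm r b ≠ ⊤) {ε : ℝ} (hε : 0 < ε) :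
    ∃ M : ℕ, critNorm r (b - tru M b) ≤ ENNReal.ofReal ε := by
  obtain ⟨J, hJ⟩ := crit_tail hr (crit_ne_top_iff hr b h) (δ := ENNReal.ofReal (ε ^ r)) (by
    rw [ENNReal.ofReal_pos]; positivity)
  refine ⟨2 ^ J, critNorm_of_crit hr hε.le (hJ _ (fun k => ?_) fun k hk => ?_).le⟩
  · simp only [Pi.sub_apply, tru]
    split_ifs
    · right; simp
    · left; simp
  · simp only [Pi.sub_apply, tru]
    rw [if_pos, sub_self]
    rw [mem_bx]
    intro i
    have h1 : |(k i : ℝ)| ≤ nk k := abs_le_nk k i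
    have h2 : nk k ≤ 2 ^ J := by
      unfold nk
      rw [Real.sqrt_le_left (by positivity)]
      calc sq k ≤ 4 ^ J := hk.le
        _ = _ := by rw [← pow_mul, mul_comm, pow_mul]; norm_num
    have h3 := h1.trans h2
    rw [← Int.cast_abs] at h3
    exact_mod_cast h3

lemma Ht_crit {c r : ℝ} (hc : 0 ≤ c) (hr : 1 ≤ r) (V : K → C3) (t : ℝ) :
    critNorm r (at' (Ht c V) t) ≤ critNorm r V := by
  refine critNorm_mono (by linarith) fun k _ => ?_
  show ‖Real.exp (-(c * sq k * max t 0)) • V k‖ₑ ≤ _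
  rw [enorm_smul, Real.enorm_of_nonneg (Real.exp_pos _).le]
  calc _ ≤ 1 * ‖V k‖ₑ := by
        apply mul_le_mul' _ le_rfl
        rw [ENNReal.ofReal_le_one, Real.exp_le_one_iff]
        have := sq_nonneg' k
        have h2 : 0 ≤ max t 0 := le_max_right _ _
        have : 0 ≤ c * sq k * max t 0 := by positivity
        linarith
    _ = _ := one_mul _

end Pool.Agent.H356R3.NS.X
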