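import Pool.Agent.H3NY.X.Appr
import Pool.Agent.H3NY.X.Decay
import Pool.Agent.H3NY.X.StX

namespace Pool.Agent.H356R3.NS
end Pool.Agent.H356R3.NS
namespace Pool.Agent.H356R3.NS.H3
end Pool.Agent.H356R3.NS.H3
namespace Pool.Agent.H356R3.NS.X
end Pool.Agent.H356R3.NS.X
namespace Pool.Agent.H3NS
end Pool.Agent.H3NS
namespace H459R3.NS
end H459R3.NS

set_option autoImplicit false
set_option maxHeartbeats 4000000
set_option synthInstance.maxHeartbeats 400000

/-!
Approximation of a global solution by solutions with trigonometric polynomials as data.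
-/

open MeasureTheory Set Filter Topology
open scoped ENNReal NNReal ContDiff

namespace Pool.Agent.H356R3.NS.X

open Pool.Agent.H3NS

lemma bx_mono {M N : ℕ} (h : M ≤ N) : bx M ⊆ bx N := by
  intro k hk
  rw [mem_bx] at hk ⊢
  exact fun i => (hk i).trans (by exact_mod_cast h)

lemma bx_tendsto : Tendsto bx atTop atTop := by
  refine tendsto_atTop_finset_of_monotone (fun M N h => bx_mono h) fun k => ?_
  refine ⟨∑ i, (k i).natAbs, ?_⟩
  rw [mem_bx]
  intro i
  have h1 : (k i).natAbs ≤ ∑ i, (k i).natAbs :=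
    Finset.single_le_sum (f := fun i => (k i).natAbs) (fun _ _ => Nat.zero_le _) (Finset.mem_univ i)
  calc |k i| = ((k i).natAbs : ℤ) := (Int.natCast_natAbs _).symm
    _ ≤ _ := by exact_mod_cast h1

lemma NW_tail_eq (w : K → ℝ≥0∞) (x : K → C3) (M : ℕ) :
    NW w (x - tru M x) = ∑' k : {k // k ∉ bx M}, w k * ‖x k‖ₑ := by
  unfold NW
  refine Eq.trans ?_ (tsum_subtype {k | k ∉ bx M} fun k => w k * ‖x k‖ₑ).symm
  refine tsum_congr fun k => ?_
  by_cases hk : k ∈ bx M
  · rw [indicator_of_notMem (by simpa using hk)]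
    simp [tru, hk]
  · rw [indicator_of_mem (by simpa using hk)]
    simp [tru, hk]

lemma NW_tail {w : K → ℝ≥0∞} {x : K → C3} (h : NW w x ≠ ⊤) :
    Tendsto (fun M => NW w (x - tru M x)) atTop (𝓝 0) := by
  have h1 := (ENNReal.tendsto_tsum_compl_atTop_zero h).comp bx_tendsto
  refine h1.congr fun M => ?_
  rw [NW_tail_eq]
  rfl

lemma NW_tail_le (w : K → ℝ≥0∞) (x : K → C3) (M : ℕ) : NW w (x - tru M x) ≤ NW w x := by
  unfold NW
  refine ENNReal.tsum_le_tsum fun k => mul_le_mul' le_rfl ?_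
  simp only [Pi.sub_apply, tru]
  split_ifs
  · simp
  · simp

lemma NW_tru_le (w : K → ℝ≥0∞) (x : K → C3) (M : ℕ) : NW w (tru M x) ≤ NW w x := by
  unfold NW
  refine ENNReal.tsum_le_tsum fun k => mul_le_mul' le_rfl ?_
  simp only [tru]
  split_ifs
  · exact le_rfl
  · simp

/-- truncation of families -/
noncomputable def trF (M : ℕ) (y : Fam) : Fam := fun k t => if k ∈ bx M then y k t else 0

lemma at'_trF (M : ℕ) (y : Fam) (t : ℝ) : at' (trF M y) t = tru M (at' y t) := rfl

lemma trF_cf (M : ℕ) {y : Fam} (h : CF y) : CF (trF M y) := by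
  intro k
  unfold trF
  by_cases hk : k ∈ bx M
  · simp only [if_pos hk]; exact h k
  · simp only [if_neg hk]; exact continuous_const

lemma Duh_trF (c : ℝ) (M : ℕ) (G : Fam) (k : K) (t : ℝ) :
    Duh c (trF M G) k t = if k ∈ bx M then Duh c G k t else 0 := by
  unfold Duh trF
  by_cases hk : k ∈ bx M
  · simp only [if_pos hk]
  · simp only [if_neg hk, smul_zero, intervalIntegral.integral_zero]

lemma Bf_supp {M : ℕ} {x : K → C3} (hx : ∀ k, k ∉ bx M → x k = 0) {k : K} (hk : k ∉ bx (2 * M)) : Bf x x k = 0 := by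
  have hcv : ∀ j m, cv x x k j m = 0 := by
    intro j m
    unfold cv
    rw [show (fun l => x l j * x (k - l) m) = fun _ => 0 from funext fun l => ?_, tsum_zero]
    by_cases h1 : l ∈ bx M
    · have h2 : k - l ∉ bx M := by
        intro h2
        apply hk
        rw [mem_bx] at h1 h2 ⊢
        intro i
        have h3 : k i = l i + (k - l) i := by simp
        rw [h3]
        refine (abs_add_le _ _).trans ?_
        push_cast
        linarith [h1 i, h2 i]
      rw [hx _ h2]; simp
    · rw [hx _ h1]; simp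
  funext i
  unfold Bf
  simp [hcv]

lemma Bf_diff {x y : K → C3} (hx : SN x) (hy : SN y) : Bf x x - Bf y y = Bf (x - y) x + Bf y (x - y) := by
  rw [Bf_sub_left hx hy hx, Bf_sub_right hy hx hy]
  abel

section
variable {c : ℝ} {y : Fam}

/-- what is needed about the global solution -/
structure GS0 (c : ℝ) (y : Fam) : Prop where
  hc : 0 < c
  lb : LB y
  cf : CF y
  cfB : CF (Bt y)
  z : ∀ t, y 0 t = 0
  eqn : Eqn c (at' y 0) (Bt y) y
  l2 : LN (fun t => NW (Wa 0) (at' y t)) ≠ ⊤
  sym : SymF y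
  dv : ∀ k t, dt k (y k t) = 0

lemma GS0.sq_ne_top (h : GS0 c y) : ∫⁻ t in Ioi 0, NW (Wa 0) (at' y t) * NW (Wa 0) (at' y t) ≠ ⊤ := by
  have h1 := h.l2
  unfold LN at h1
  intro h2
  apply h1
  have h3 : ∫⁻ t in Ioi 0, NW (Wa 0) (at' y t) ^ (2 : ℝ) = ⊤ := by
    rw [← h2]
    refine lintegral_congr fun t => ?_
    rw [ENNReal.rpow_two, pow_two]
  rw [h3, ENNReal.top_rpow_of_pos (by norm_num)]

lemma NW_ne_top_of_sn {x : K → C3} (h : SN x) : NW (Wa 0) x ≠ ⊤ := by
  rw [NW_eq_An h]
  exact ENNReal.ofReal_ne_top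

lemma Wm_le_Wa0 (x : K → C3) : NW (Wm 0) x ≤ NW (Wa 0) x := by
  refine NW_mono (fun k => ?_) x
  unfold Wm Wa
  apply ENNReal.ofReal_le_ofReal
  by_cases hk : k = 0
  · subst hk
    rw [nk_zero, div_zero]
    exact (om_pos _ _).le
  · exact div_le_self (om_pos _ _).le (one_le_nk hk)

/-- the size of the residual -/
noncomputable def E1 (y : Fam) (M : ℕ) : ℝ≥0∞ :=
  NW (Wm 0) (at' y 0 - tru M (at' y 0))
    + (∫⁻ t in Ioi 0, NW (Wm 0) (at' (Bt y) t - tru M (at' (Bt y) t)))
    + (∫⁻ t in Ioi 0, NW (Wm 0) (at' (Bt (trF M y)) t - at' (Bt y) t))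
    + LN (fun t => NW (Wa 0) (at' (y - trF M y) t))

lemma Bt_trF_cf (h : GS0 c y) (M : ℕ) (hd : Dom (trF M y)) : CF (Bt (trF M y)) := Bt_cont (trF_cf M h.cf) hd

lemma GS0.crit_bound (h : GS0 c y) : ∃ C : ℝ, 0 ≤ C ∧ ∀ t, NW (Wm 0) (at' y t) ≤ ENNReal.ofReal C := by
  have hC := C0_pos
  have h0 : NW (Wm 0) (at' y 0) ≠ ⊤ := ne_top_of_le_ne_top (NW_ne_top_of_sn (h.lb.sn 0)) (Wm_le_Wa0 _)
  obtain ⟨C, hCe⟩ : ∃ C, C = (NW (Wm 0) (at' y 0)).toReal
      + C0 * (∫⁻ t in Ioi 0, NW (Wa 0) (at' y t) * NW (Wa 0) (at' y t)).toReal := ⟨_, rfl⟩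
  refine ⟨C, by rw [hCe]; positivity, fun t => ?_⟩
  rw [hCe, ENNReal.ofReal_add ENNReal.toReal_nonneg (by positivity), ENNReal.ofReal_toReal h0,
    ENNReal.ofReal_mul hC.le, ENNReal.ofReal_toReal h.sq_ne_top]
  rcases le_total t 0 with ht | ht
  · have : at' y t = at' y 0 := by
      funext k
      show y k t = y k 0
      rw [h.eqn k t, h.eqn k 0, max_eq_right ht, max_self]
      congr 1
      rw [Duh_eq, Duh_eq, max_eq_right ht, max_self]
    rw [this]
    exact le_self_add
  · have e : at' y t = at' (Ht c (at' y 0)) t + at' (Duh c (Bt y)) t := by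
      funext k; exact h.eqn k t
    rw [e]
    refine (NW_add_le _ _ _).trans (add_le_add (Ht_le h.hc _ _ t) ?_)
    refine (NW_Duh_le h.hc.le _ h.cfB ht).trans ?_
    rw [← lintegral_const_mul' _ _ ENNReal.ofReal_ne_top]
    refine (lintegral_mono_set Ioc_subset_Ioi_self).trans (lintegral_mono fun s => ?_)
    exact NW_Bf_le le_rfl _ _

lemma GS0.trW (h : GS0 c y) (a : ℝ) (M : ℕ) : WDom a (trF M y) := by
  obtain ⟨C, hC, hb⟩ := h.crit_bound
  refine ⟨fun k => if k ∈ bx M then C * nk k else 0, ?_, fun k t => ?_⟩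
  · refine summable_of_ne_finset_zero (s := bx M) fun k hk => ?_
    simp only [if_neg hk, mul_zero]
  · unfold trF
    by_cases hk : k ∈ bx M
    · have := norm_le_of_NWm (a := 0) hC (x := at' y t) (h.z t) (hb t) k
      simp only [if_pos hk]
      simpa [at'] using this
    · simp [if_neg hk]

lemma E1_tendsto (h : GS0 c y) : Tendsto (E1 y) atTop (𝓝 0) := by
  have hC := C0_pos
  have hm : Measurable fun t => NW (Wa 0) (at' y t) := NW_meas _ h.cf
  have hBt : ∀ t, NW (Wm 0) (at' (Bt y) t) ≤ ENNReal.ofReal C0 * (NW (Wa 0) (at' y t) * NW (Wa 0) (at' y t)) :=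
    fun t => NW_Bf_le le_rfl _ _
  -- first
  have t1 : Tendsto (fun M => NW (Wm 0) (at' y 0 - tru M (at' y 0))) atTop (𝓝 0) :=
    NW_tail (ne_top_of_le_ne_top (NW_ne_top_of_sn (h.lb.sn 0)) (Wm_le_Wa0 _))
  -- second
  have t2 : Tendsto (fun M => ∫⁻ t in Ioi 0, NW (Wm 0) (at' (Bt y) t - tru M (at' (Bt y) t))) atTop (𝓝 0) := by
    have h1 := tendsto_lintegral_of_dominated_convergence (μ := volume.restrict (Ioi (0 : ℝ)))
      (F := fun M t => NW (Wm 0) (at' (Bt y) t - tru M (at' (Bt y) t))) (f := fun _ => 0)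
      (fun t => ENNReal.ofReal C0 * (NW (Wa 0) (at' y t) * NW (Wa 0) (at' y t)))
      (fun M => NW_meas _ (F := Bt y - trF M (Bt y)) (CF.sub' h.cfB (trF_cf M h.cfB)))
      (fun M => Filter.Eventually.of_forall fun t => (NW_tail_le _ _ M).trans (hBt t))
      (by
        rw [lintegral_const_mul' _ _ ENNReal.ofReal_ne_top]
        exact ENNReal.mul_ne_top ENNReal.ofReal_ne_top h.sq_ne_top)
      (Filter.Eventually.of_forall fun t => NW_tail (ne_top_of_le_ne_top
        (ENNReal.mul_ne_top ENNReal.ofReal_ne_top (ENNReal.mul_ne_top (NW_ne_top_of_sn (h.lb.sn t))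
          (NW_ne_top_of_sn (h.lb.sn t)))) (hBt t)))
    simpa using h1
  -- third
  have hdiff : ∀ M t, NW (Wm 0) (at' (Bt (trF M y)) t - at' (Bt y) t) ≤
      ENNReal.ofReal C0 * (NW (Wa 0) (at' y t - tru M (at' y t)) * NW (Wa 0) (at' y t)
        + NW (Wa 0) (at' y t) * NW (Wa 0) (at' y t - tru M (at' y t))) := by
    intro M t
    have hsn : SN (tru M (at' y t)) := by
      refine Summable.of_nonneg_of_le (fun _ => norm_nonneg _) (fun k => ?_) (h.lb.sn t)
      unfold tru
      split_ifs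
      · exact le_rfl
      · rw [norm_zero]; exact norm_nonneg _
    have e : at' (Bt (trF M y)) t - at' (Bt y) t
        = Bf (tru M (at' y t) - at' y t) (tru M (at' y t)) + Bf (at' y t) (tru M (at' y t) - at' y t) := by
      rw [← Bf_diff hsn (h.lb.sn t)]
      rfl
    have e2 : NW (Wa 0) (tru M (at' y t) - at' y t) = NW (Wa 0) (at' y t - tru M (at' y t)) := by
      unfold NW
      refine tsum_congr fun k => ?_
      rw [Pi.sub_apply, Pi.sub_apply, ← enorm_neg, neg_sub]
    rw [e]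
    refine (NW_add_le _ _ _).trans ((add_le_add (NW_Bf_le le_rfl _ _) (NW_Bf_le le_rfl _ _)).trans ?_)
    rw [← mul_add, e2]
    exact mul_le_mul' le_rfl (add_le_add (mul_le_mul' le_rfl (NW_tru_le _ _ M)) le_rfl)
  have t3 : Tendsto (fun M => ∫⁻ t in Ioi 0, NW (Wm 0) (at' (Bt (trF M y)) t - at' (Bt y) t)) atTop (𝓝 0) := by
    have h1 := tendsto_lintegral_of_dominated_convergence (μ := volume.restrict (Ioi (0 : ℝ)))
      (F := fun M t => NW (Wm 0) (at' (Bt (trF M y)) t - at' (Bt y) t)) (f := fun _ => 0)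
      (fun t => ENNReal.ofReal (2 * C0) * (NW (Wa 0) (at' y t) * NW (Wa 0) (at' y t)))
      (fun M => NW_meas _ (F := Bt (trF M y) - Bt y) (CF.sub' (Bt_trF_cf h M ((h.trW 0 M).dom le_rfl)) h.cfB))
      (fun M => Filter.Eventually.of_forall fun t => (hdiff M t).trans (by
        simp only
        rw [ENNReal.ofReal_mul (by norm_num), mul_comm (ENNReal.ofReal 2), mul_assoc, ENNReal.ofReal_ofNat, two_mul]
        exact mul_le_mul' le_rfl (add_le_add (mul_le_mul' (NW_tail_le _ _ M) le_rfl)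
          (mul_le_mul' le_rfl (NW_tail_le _ _ M)))))
      (by
        rw [lintegral_const_mul' _ _ ENNReal.ofReal_ne_top]
        exact ENNReal.mul_ne_top ENNReal.ofReal_ne_top h.sq_ne_top)
      (Filter.Eventually.of_forall fun t => by
        have h2 := NW_tail (NW_ne_top_of_sn (h.lb.sn t))
        have hf := NW_ne_top_of_sn (h.lb.sn t)
        have h3 : Tendsto (fun M => ENNReal.ofReal C0 * (NW (Wa 0) (at' y t - tru M (at' y t)) * NW (Wa 0) (at' y t)
            + NW (Wa 0) (at' y t) * NW (Wa 0) (at' y t - tru M (at' y t)))) atTop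
            (𝓝 (ENNReal.ofReal C0 * (0 * NW (Wa 0) (at' y t) + NW (Wa 0) (at' y t) * 0))) :=
          ENNReal.Tendsto.const_mul ((ENNReal.Tendsto.mul_const h2 (Or.inr hf)).add
            (ENNReal.Tendsto.const_mul h2 (Or.inr hf))) (Or.inr ENNReal.ofReal_ne_top)
        rw [zero_mul, mul_zero, add_zero, mul_zero] at h3
        exact tendsto_of_tendsto_of_tendsto_of_le_of_le tendsto_const_nhds h3 (fun _ => zero_le)
          (fun M => hdiff M t))
    simpa using h1
  -- fourth
  have t4 : Tendsto (fun M => LN (fun t => NW (Wa 0) (at' (y - trF M y) t))) atTop (𝓝 0) := by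
    have h1 := tendsto_lintegral_of_dominated_convergence (μ := volume.restrict (Ioi (0 : ℝ)))
      (F := fun M t => NW (Wa 0) (at' (y - trF M y) t) ^ (2 : ℝ)) (f := fun _ => 0)
      (fun t => NW (Wa 0) (at' y t) * NW (Wa 0) (at' y t))
      (fun M => (NW_meas _ (F := y - trF M y) (CF.sub' h.cf (trF_cf M h.cf))).pow_const _)
      (fun M => Filter.Eventually.of_forall fun t => by
        simp only
        rw [ENNReal.rpow_two, pow_two]
        exact mul_le_mul' (NW_tail_le _ _ M) (NW_tail_le _ _ M))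
      h.sq_ne_top
      (Filter.Eventually.of_forall fun t => by
        have h2 := NW_tail (NW_ne_top_of_sn (h.lb.sn t))
        have h3 := (ENNReal.continuous_rpow_const (y := 2)).tendsto (0 : ℝ≥0∞)
        rw [ENNReal.zero_rpow_of_pos (by norm_num)] at h3
        exact h3.comp h2)
    rw [lintegral_zero] at h1
    have h2 := (ENNReal.continuous_rpow_const (y := 1 / 2)).tendsto (0 : ℝ≥0∞)
    rw [ENNReal.zero_rpow_of_pos (by norm_num)] at h2
    exact h2.comp h1
  have h5 := ((t1.add t2).add t3).add t4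
  simp only [add_zero] at h5
  exact h5

/-- A global solution is a limit of solutions with trigonometric polynomials as data. -/
theorem base_appr (h : GS0 c y) {ε : ℝ} (hε : 0 < ε) : ∃ (S : StX (fun _ => 1) c) (M : ℕ), S.V = tru M (at' y 0) ∧
    (∀ t, NW (Wm 0) (at' (S.u - y) t) ≤ ENNReal.ofReal ε) ∧
    NW (Wm 0) (at' y 0 - tru M (at' y 0)) ≤ ENNReal.ofReal ε ∧
    LN (fun t => NW (Wa 0) (at' (S.u - y) t)) ≤ ENNReal.ofReal ε ∧
    NW (Wa 0) (at' y 0 - tru M (at' y 0)) ≤ ENNReal.ofReal ε := by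
  have hC := C0_pos
  have hc := h.hc
  have hχ : CutT fun _ => (1 : ℝ) := ⟨continuous_const, fun _ => zero_le_one, fun _ => le_rfl⟩
  obtain ⟨D, hD⟩ : ∃ D, D = 2 * (LN (fun t => NW (Wa 0) (at' y t))).toReal + 1 := ⟨_, rfl⟩
  have hD0 : 0 < D := by rw [hD]; positivity
  obtain ⟨Lam, ρ, hp, hρ1, hρ2⟩ := par_small hc hD0 (show 0 < ε / 8 by positivity)
  have hρ := hp.hρ
  obtain ⟨η, hη⟩ : ∃ η, η = min (ε / 8) (Real.sqrt c * (ρ / 2)) := ⟨_, rfl⟩
  have hη0 : 0 < η := by rw [hη]; positivity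
  have hη1 : η ≤ ε / 8 := by rw [hη]; exact min_le_left _ _
  have hη2 : η ^ 2 ≤ c * (ρ / 2) ^ 2 := by
    have h1 : η ≤ Real.sqrt c * (ρ / 2) := by rw [hη]; exact min_le_right _ _
    calc η ^ 2 ≤ (Real.sqrt c * (ρ / 2)) ^ 2 := pow_le_pow_left₀ hη0.le h1 2
      _ = _ := by rw [mul_pow, Real.sq_sqrt hc.le]
  obtain ⟨M, hM, hM'⟩ := (((E1_tendsto h).eventually (gt_mem_nhds (show (0 : ℝ≥0∞) < ENNReal.ofReal (η / 2) by
    rw [ENNReal.ofReal_pos]; positivity))).and ((NW_tail (NW_ne_top_of_sn (h.lb.sn 0))).eventually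
      (gt_mem_nhds (show (0 : ℝ≥0∞) < ENNReal.ofReal ε by rw [ENNReal.ofReal_pos]; exact hε)))).exists
  -- the four parts
  have p1 : NW (Wm 0) (at' y 0 - tru M (at' y 0)) ≤ E1 y M := by
    unfold E1; exact le_self_add.trans (le_self_add.trans le_self_add)
  have p2 : NW (Wm 0) (at' y 0 - tru M (at' y 0))
      + ∫⁻ t in Ioi 0, NW (Wm 0) (at' (Bt y) t - tru M (at' (Bt y) t)) ≤ E1 y M := by
    unfold E1; exact le_self_add.trans le_self_add
  have p3 : (∫⁻ t in Ioi 0, NW (Wm 0) (at' (Bt y) t - tru M (at' (Bt y) t)))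
    + ∫⁻ t in Ioi 0, NW (Wm 0) (at' (Bt (trF M y)) t - at' (Bt y) t) ≤ E1 y M := by
    unfold E1
    refine le_trans (add_le_add ?_ le_rfl) le_self_add
    exact le_add_self
  have p4 : LN (fun t => NW (Wa 0) (at' (y - trF M y) t)) ≤ E1 y M := by
    unfold E1; exact le_add_self
  obtain ⟨a, ha⟩ : ∃ a, a = Real.log 2 / (6 * M + 1) := ⟨_, rfl⟩
  have hl2 : 0 < Real.log 2 := Real.log_pos (by norm_num)
  have ha0 : 0 < a := by rw [ha]; positivity
  have hom : ∀ k ∈ bx (2 * M), om a k ≤ 2 := by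
    intro k hk
    rw [mem_bx] at hk
    unfold om
    have h1 : l1 k ≤ 6 * M := by
      unfold l1
      calc ∑ i, |(k i : ℝ)| ≤ ∑ _i : Fin 3, (2 * M : ℝ) := by
            refine Finset.sum_le_sum fun i _ => ?_
            have := hk i
            rw [← Int.cast_abs]
            exact_mod_cast this
        _ = _ := by simp; ring
    have h2 : a * l1 k ≤ Real.log 2 := by
      have h3 : a * l1 k ≤ a * (6 * M + 1) := mul_le_mul_of_nonneg_left (by linarith) ha0.le
      refine h3.trans (le_of_eq ?_)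
      rw [ha]; field_simp
    calc Real.exp (a * l1 k) ≤ Real.exp (Real.log 2) := Real.exp_le_exp.2 h2
      _ = 2 := Real.exp_log (by norm_num)
  obtain ⟨A, hA⟩ : ∃ A : ℝ → ℝ, A = fun t => 2 * ∑ k ∈ bx M, ‖y k t‖ := ⟨_, rfl⟩
  have hAc : Continuous A := by
    rw [hA]
    exact continuous_const.mul (continuous_finsetSum _ fun k _ => (h.cf k).norm)
  have hA0 : ∀ t, 0 ≤ A t := fun t => by
    rw [hA]
    exact mul_nonneg (by norm_num) (Finset.sum_nonneg fun _ _ => norm_nonneg _)
  have hUA : ∀ t, NW (Wa a) (at' (trF M y) t) ≤ ENNReal.ofReal (A t) := by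
    intro t
    rw [at'_trF]
    unfold NW
    rw [tsum_eq_sum (s := bx M) fun k hk => by simp [tru, hk], hA]
    simp only
    rw [Finset.mul_sum, ENNReal.ofReal_sum_of_nonneg fun k _ => by positivity]
    refine Finset.sum_le_sum fun k hk => ?_
    have e : tru M (at' y t) k = y k t := by simp [tru, hk, at']
    rw [e, ← ofReal_norm]
    unfold Wa
    rw [← ENNReal.ofReal_mul (om_pos _ _).le]
    exact ENNReal.ofReal_le_ofReal (mul_le_mul_of_nonneg_right (hom k (bx_mono (by omega) hk)) (norm_nonneg _))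
  have hAN : ∀ t, ENNReal.ofReal (A t) ≤ 2 * NW (Wa 0) (at' y t) := by
    intro t
    rw [NW_eq_An (h.lb.sn t), hA, ENNReal.ofReal_mul (by norm_num), ENNReal.ofReal_ofNat]
    refine mul_le_mul' le_rfl (ENNReal.ofReal_le_ofReal ?_)
    exact Summable.sum_le_tsum (f := fun k => ‖y k t‖) _ (fun _ _ => norm_nonneg _) (h.lb.sn t)
  have hAi : LN (fun t => ENNReal.ofReal (A t)) ≤ ENNReal.ofReal D := by
    refine (LN_mono fun t _ => hAN t).trans ?_
    rw [LN_const_mul _ (NW_meas _ h.cf), hD, ENNReal.ofReal_add (by positivity) zero_le_one,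
      ENNReal.ofReal_mul (by norm_num), ENNReal.ofReal_toReal h.l2, ENNReal.ofReal_ofNat]
    exact le_self_add
  have hUc := trF_cf M h.cf
  have hUd : Dom (trF M y) := (h.trW 0 M).dom le_rfl
  have hBx : Bx (fun _ => 1) (trF M y) = Bt (trF M y) := by
    funext k t
    show (1 : ℝ) • _ = _
    rw [one_smul]
  have hsymB : SymF (Bt y) := by
    intro t
    exact Bf_sym (h.sym t) (h.sym t)
  have hsymtr : ∀ {z : Fam}, SymF z → SymF (trF M z) := fun hz t => tru_sym M (hz t)
  have hB0 : ∀ (z : Fam) t, Bt z 0 t = 0 := by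
    intro z t
    funext i
    simp [Bt, Bf, coef]
  have hFEi : ∫⁻ s in Ioi 0, NW (Wm a) (at' (Bx (fun _ => 1) (trF M y) - trF M (Bt y)) s) ≤ ENNReal.ofReal η := by
    have h1 : ∀ s, NW (Wm a) (at' (Bx (fun _ => 1) (trF M y) - trF M (Bt y)) s) ≤
        2 * (NW (Wm 0) (at' (Bt y) s - tru M (at' (Bt y) s)) + NW (Wm 0) (at' (Bt (trF M y)) s - at' (Bt y) s)) := by
      intro s
      rw [hBx]
      have e1 : at' (Bt (trF M y) - trF M (Bt y)) s
          = (at' (Bt y) s - tru M (at' (Bt y) s)) + (at' (Bt (trF M y)) s - at' (Bt y) s) := by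
        funext k
        simp only [at', Pi.sub_apply, Pi.add_apply, trF, tru]
        abel
      refine le_trans ?_ (mul_le_mul' le_rfl (NW_add_le (Wm 0) _ _))
      rw [← e1]
      unfold NW
      rw [← ENNReal.tsum_mul_left]
      refine ENNReal.tsum_le_tsum fun k => ?_
      by_cases hk : k ∈ bx (2 * M)
      · rw [← mul_assoc]
        apply mul_le_mul' _ le_rfl
        unfold Wm
        have o : om 0 k = 1 := by simp [om]
        rw [o, ← ENNReal.ofReal_ofNat, ← ENNReal.ofReal_mul (by norm_num)]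
        apply ENNReal.ofReal_le_ofReal
        rw [mul_one_div]
        exact div_le_div_of_nonneg_right (hom k hk) (nk_nonneg k)
      · have hk' : k ∉ bx M := fun h' => hk (bx_mono (by omega) h')
        have e2 : at' (Bt (trF M y) - trF M (Bt y)) s k = 0 := by
          have e3 : Bt (trF M y) k s = 0 := Bf_supp (M := M) (fun l hl => by
            show (if l ∈ bx M then y l s else 0) = 0
            rw [if_neg hl]) hk
          simp only [at', Pi.sub_apply, e3, trF, if_neg hk', sub_zero]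
        rw [e2, enorm_zero, mul_zero]
        exact zero_le
    calc _ ≤ ∫⁻ s in Ioi 0, 2 * (NW (Wm 0) (at' (Bt y) s - tru M (at' (Bt y) s))
          + NW (Wm 0) (at' (Bt (trF M y)) s - at' (Bt y) s)) := lintegral_mono h1
      _ = 2 * ((∫⁻ t in Ioi 0, NW (Wm 0) (at' (Bt y) t - tru M (at' (Bt y) t)))
          + ∫⁻ t in Ioi 0, NW (Wm 0) (at' (Bt (trF M y)) t - at' (Bt y) t)) := by
          have hmm : Measurable fun s => NW (Wm 0) (at' (Bt y) s - tru M (at' (Bt y) s)) :=
            NW_meas _ (F := Bt y - trF M (Bt y)) (CF.sub' h.cfB (trF_cf M h.cfB))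
          rw [lintegral_const_mul' _ _ (by norm_num), lintegral_add_left hmm]
      _ ≤ 2 * ENNReal.ofReal (η / 2) := mul_le_mul' le_rfl (p3.trans hM.le)
      _ = ENNReal.ofReal η := by
          rw [← ENNReal.ofReal_ofNat, ← ENNReal.ofReal_mul (by norm_num)]
          congr 1
          ring
  obtain ⟨u, hu, hu1, hu2⟩ := approx_sol hχ hp ha0 hAc hA0 hAi hUc (h.trW a M)
    (fun t => by
      show (if (0 : K) ∈ bx M then y 0 t else 0) = 0
      rw [h.z]; simp)
    (hsymtr h.sym) (fun t _ => hUA t) (trF_cf M h.cfB) rfl (hsymtr hsymB)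
    (fun t => by
      rw [hBx]
      show Bt (trF M y) 0 t - (if (0 : K) ∈ bx M then Bt y 0 t else 0) = 0
      rw [hB0, hB0]; simp) hη0.le hη2 hFEi (V := tru M (at' y 0)) (fun k t => by
      rw [Duh_trF]
      unfold trF tru
      split_ifs
      · exact h.eqn k t
      · simp)
  have hy0 : at' y 0 0 = 0 := h.z 0
  have hdiff : ∀ t, NW (Wm 0) (at' (trF M y - y) t) ≤ ENNReal.ofReal (η / 2) := by
    intro t
    refine le_trans ?_ (p2.trans hM.le)
    have e0 : NW (Wm 0) (at' (trF M y - y) t) = NW (Wm 0) (at' (y - trF M y) t) := by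
      unfold NW
      refine tsum_congr fun k => ?_
      rw [← enorm_neg]
      congr 2
      simp [at']
    rw [e0]
    rcases le_total t 0 with ht | ht
    · have : at' (y - trF M y) t = at' y 0 - tru M (at' y 0) := by
        have e1 : at' y t = at' y 0 := by
          funext k
          show y k t = y k 0
          rw [h.eqn k t, h.eqn k 0, max_eq_right ht, max_self]
          congr 1
          rw [Duh_eq, Duh_eq, max_eq_right ht, max_self]
        show at' y t - tru M (at' y t) = _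
        rw [e1]
      rw [this]
      exact le_self_add
    · have e : at' (y - trF M y) t = at' (Ht c (at' y 0 - tru M (at' y 0))) t + at' (Duh c (Bt y - trF M (Bt y))) t := by
        rw [Duh_sub h.cfB (trF_cf M h.cfB)]
        funext k
        show y k t - (if k ∈ bx M then y k t else 0) = Real.exp (-(c * sq k * max t 0)) • (at' y 0 k - tru M (at' y 0) k)
          + (Duh c (Bt y) k t - Duh c (trF M (Bt y)) k t)
        rw [Duh_trF]
        unfold tru
        by_cases hk : k ∈ bx M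
        · simp [hk]
        · simp only [if_neg hk, sub_zero]
          exact h.eqn k t
      rw [e]
      refine (NW_add_le _ _ _).trans (add_le_add (Ht_le hc _ _ t) ?_)
      refine (NW_Duh_le hc.le _ (CF.sub' h.cfB (trF_cf M h.cfB)) ht).trans ?_
      exact lintegral_mono_set Ioc_subset_Ioi_self
  refine ⟨⟨tru M (at' y 0), u, a / 2, half_pos ha0, hu, tru_fin M _, tru_zero M hy0,
    tru_div M fun k => h.dv k 0, tru_sym M (h.sym 0)⟩, M, rfl, fun t => ?_, p1.trans (hM.le.trans
      (ENNReal.ofReal_le_ofReal (by linarith))), ?_, hM'.le⟩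
  · have e : at' (u - y) t = at' (u - trF M y) t + at' (trF M y - y) t := by
      funext k
      simp only [at', Pi.sub_apply, Pi.add_apply]
      abel
    show NW (Wm 0) (at' (u - y) t) ≤ _
    rw [e]
    refine (NW_add_le _ _ _).trans ((add_le_add (hu1 t) (hdiff t)).trans ?_)
    rw [← ENNReal.ofReal_add (by positivity) (by positivity)]
    exact ENNReal.ofReal_le_ofReal (by linarith)
  · have e : ∀ t, NW (Wa 0) (at' (u - y) t) ≤ NW (Wa 0) (at' (u - trF M y) t) + NW (Wa 0) (at' (y - trF M y) t) := by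
      intro t
      have e1 : at' (u - y) t = at' (u - trF M y) t + at' (trF M y - y) t := by
        funext k
        simp only [at', Pi.sub_apply, Pi.add_apply]
        abel
      have e0 : NW (Wa 0) (at' (trF M y - y) t) = NW (Wa 0) (at' (y - trF M y) t) := by
        unfold NW
        refine tsum_congr fun k => ?_
        rw [← enorm_neg]
        congr 2
        simp [at']
      rw [e1, ← e0]
      exact NW_add_le _ _ _
    refine (LN_mono fun t _ => e t).trans ((LN_add_le (NW_meas _ (CF.sub' hu.cf hUc))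
      (NW_meas _ (CF.sub' h.cf hUc))).trans ((add_le_add hu2 (p4.trans hM.le)).trans ?_))
    rw [← ENNReal.ofReal_add (by positivity) (by positivity)]
    exact ENNReal.ofReal_le_ofReal (by linarith)

end

end Pool.Agent.H356R3.NS.X
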