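import Pool.Agent.H3NY.X.Base

namespace Pool.Agent.H356R3.NS
end Pool.Agent.H356R3.NS
namespace Pool.Agent.H356R3.NS.H3
end Pool.Agent.H356R3.NS.H3
namespace Pool.Agent.H356R3.NS.X
end Pool.Agent.H356R3.NS.X
namespace Pool.Agent.H3NS
end Pool.Agent.H3NS
namespace H459R3.NS
end H459R3.NS

set_option autoImplicit false
set_option maxHeartbeats 4000000
set_option synthInstance.maxHeartbeats 400000

/-!
Approximation of a path by solutions of the equation with a cut-off, with trigonometric polynomials as data.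
-/

open MeasureTheory Set Filter Topology
open scoped ENNReal NNReal ContDiff

namespace Pool.Agent.H356R3.NS.X

open Pool.Agent.H3NS

section
variable {c : ℝ} {y G : Fam}

/-- what is needed about the path -/
structure GSX (c : ℝ) (y G : Fam) : Prop where
  hc : 0 < c
  dom : Dom y
  cf : CF y
  cfG : CF G
  z : ∀ t, y 0 t = 0
  zG : ∀ t, G 0 t = 0
  eqn : Eqn c (at' y 0) G y
  l2 : LN (fun t => NW (Wa 0) (at' y t)) ≠ ⊤
  gb : ∀ t, NW (Wm 0) (at' G t) ≠ ⊤
  gi : ∫⁻ t in Ioi 0, NW (Wm 0) (at' G t) ≠ ⊤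
  sym : SymF y
  symG : SymF G
  dv : ∀ k, dt k (y k 0) = 0

lemma GSX.cfB (h : GSX c y G) : CF (Bt y) := Bt_cont h.cf h.dom

lemma GSX.sn (h : GSX c y G) (t : ℝ) : SN (at' y t) := h.dom.sn t

lemma GSX.sq_ne_top (h : GSX c y G) : ∫⁻ t in Ioi 0, NW (Wa 0) (at' y t) * NW (Wa 0) (at' y t) ≠ ⊤ := by
  have h1 := h.l2
  unfold LN at h1
  intro h2
  apply h1
  have h3 : ∫⁻ t in Ioi 0, NW (Wa 0) (at' y t) ^ (2 : ℝ) = ⊤ := by
    rw [← h2]
    refine lintegral_congr fun t => ?_
    rw [ENNReal.rpow_two, pow_two]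
  rw [h3, ENNReal.top_rpow_of_pos (by norm_num)]

/-- the size of the residual -/
noncomputable def E2 (y G : Fam) (M : ℕ) : ℝ≥0∞ :=
  NW (Wm 0) (at' y 0 - tru M (at' y 0))
    + (∫⁻ t in Ioi 0, NW (Wm 0) (at' G t - tru M (at' G t)))
    + (∫⁻ t in Ioi 0, NW (Wm 0) (at' (Bt (trF M y)) t - at' (Bt y) t))
    + LN (fun t => NW (Wa 0) (at' (y - trF M y) t))

lemma GSX.trW (h : GSX c y G) (a : ℝ) (M : ℕ) : WDom a (trF M y) := by
  obtain ⟨b, hb, hb'⟩ := h.dom
  refine ⟨fun k => if k ∈ bx M then b k else 0, ?_, fun k t => ?_⟩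
  · refine summable_of_ne_finset_zero (s := bx M) fun k hk => ?_
    simp only [if_neg hk, mul_zero]
  · unfold trF
    by_cases hk : k ∈ bx M
    · simp only [if_pos hk]
      exact hb' k t
    · simp [if_neg hk]

lemma E2_tendsto (h : GSX c y G) : Tendsto (E2 y G) atTop (𝓝 0) := by
  have hC := C0_pos
  have hm : Measurable fun t => NW (Wa 0) (at' y t) := NW_meas _ h.cf
  -- first
  have t1 : Tendsto (fun M => NW (Wm 0) (at' y 0 - tru M (at' y 0))) atTop (𝓝 0) :=
    NW_tail (ne_top_of_le_ne_top (NW_ne_top_of_sn (h.sn 0)) (Wm_le_Wa0 _))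
  -- second
  have t2 : Tendsto (fun M => ∫⁻ t in Ioi 0, NW (Wm 0) (at' G t - tru M (at' G t))) atTop (𝓝 0) := by
    have h1 := tendsto_lintegral_of_dominated_convergence (μ := volume.restrict (Ioi (0 : ℝ)))
      (F := fun M t => NW (Wm 0) (at' G t - tru M (at' G t))) (f := fun _ => 0)
      (fun t => NW (Wm 0) (at' G t))
      (fun M => NW_meas _ (F := G - trF M G) (CF.sub' h.cfG (trF_cf M h.cfG)))
      (fun M => Filter.Eventually.of_forall fun t => NW_tail_le _ _ M)
      h.gi
      (Filter.Eventually.of_forall fun t => NW_tail (h.gb t))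
    simpa using h1
  -- third
  have hdiff : ∀ M t, NW (Wm 0) (at' (Bt (trF M y)) t - at' (Bt y) t) ≤
      ENNReal.ofReal C0 * (NW (Wa 0) (at' y t - tru M (at' y t)) * NW (Wa 0) (at' y t)
        + NW (Wa 0) (at' y t) * NW (Wa 0) (at' y t - tru M (at' y t))) := by
    intro M t
    have hsn : SN (tru M (at' y t)) := by
      refine Summable.of_nonneg_of_le (fun _ => norm_nonneg _) (fun k => ?_) (h.sn t)
      unfold tru
      split_ifs
      · exact le_rfl
      · rw [norm_zero]; exact norm_nonneg _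
    have e : at' (Bt (trF M y)) t - at' (Bt y) t
        = Bf (tru M (at' y t) - at' y t) (tru M (at' y t)) + Bf (at' y t) (tru M (at' y t) - at' y t) := by
      rw [← Bf_diff hsn (h.sn t)]
      rfl
    have e2 : NW (Wa 0) (tru M (at' y t) - at' y t) = NW (Wa 0) (at' y t - tru M (at' y t)) := by
      unfold NW
      refine tsum_congr fun k => ?_
      rw [Pi.sub_apply, Pi.sub_apply, ← enorm_neg, neg_sub]
    rw [e]
    refine (NW_add_le _ _ _).trans ((add_le_add (NW_Bf_le le_rfl _ _) (NW_Bf_le le_rfl _ _)).trans ?_)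
    rw [← mul_add, e2]
    exact mul_le_mul' le_rfl (add_le_add (mul_le_mul' le_rfl (NW_tru_le _ _ M)) le_rfl)
  have t3 : Tendsto (fun M => ∫⁻ t in Ioi 0, NW (Wm 0) (at' (Bt (trF M y)) t - at' (Bt y) t)) atTop (𝓝 0) := by
    have h1 := tendsto_lintegral_of_dominated_convergence (μ := volume.restrict (Ioi (0 : ℝ)))
      (F := fun M t => NW (Wm 0) (at' (Bt (trF M y)) t - at' (Bt y) t)) (f := fun _ => 0)
      (fun t => ENNReal.ofReal (2 * C0) * (NW (Wa 0) (at' y t) * NW (Wa 0) (at' y t)))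
      (fun M => NW_meas _ (F := Bt (trF M y) - Bt y) (CF.sub' (Bt_cont (trF_cf M h.cf) ((h.trW 0 M).dom le_rfl)) h.cfB))
      (fun M => Filter.Eventually.of_forall fun t => (hdiff M t).trans (by
        simp only
        rw [ENNReal.ofReal_mul (by norm_num), mul_comm (ENNReal.ofReal 2), mul_assoc, ENNReal.ofReal_ofNat, two_mul]
        exact mul_le_mul' le_rfl (add_le_add (mul_le_mul' (NW_tail_le _ _ M) le_rfl)
          (mul_le_mul' le_rfl (NW_tail_le _ _ M)))))
      (by
        rw [lintegral_const_mul' _ _ ENNReal.ofReal_ne_top]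
        exact ENNReal.mul_ne_top ENNReal.ofReal_ne_top h.sq_ne_top)
      (Filter.Eventually.of_forall fun t => by
        have h2 := NW_tail (NW_ne_top_of_sn (h.sn t))
        have hf := NW_ne_top_of_sn (h.sn t)
        have h3 : Tendsto (fun M => ENNReal.ofReal C0 * (NW (Wa 0) (at' y t - tru M (at' y t)) * NW (Wa 0) (at' y t)
            + NW (Wa 0) (at' y t) * NW (Wa 0) (at' y t - tru M (at' y t)))) atTop
            (𝓝 (ENNReal.ofReal C0 * (0 * NW (Wa 0) (at' y t) + NW (Wa 0) (at' y t) * 0))) :=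
          ENNReal.Tendsto.const_mul ((ENNReal.Tendsto.mul_const h2 (Or.inr hf)).add
            (ENNReal.Tendsto.const_mul h2 (Or.inr hf))) (Or.inr ENNReal.ofReal_ne_top)
        rw [zero_mul, mul_zero, add_zero, mul_zero] at h3
        exact tendsto_of_tendsto_of_tendsto_of_le_of_le tendsto_const_nhds h3 (fun _ => zero_le)
          (fun M => hdiff M t))
    simpa using h1
  -- fourth
  have t4 : Tendsto (fun M => LN (fun t => NW (Wa 0) (at' (y - trF M y) t))) atTop (𝓝 0) := by
    have h1 := tendsto_lintegral_of_dominated_convergence (μ := volume.restrict (Ioi (0 : ℝ)))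
      (F := fun M t => NW (Wa 0) (at' (y - trF M y) t) ^ (2 : ℝ)) (f := fun _ => 0)
      (fun t => NW (Wa 0) (at' y t) * NW (Wa 0) (at' y t))
      (fun M => (NW_meas _ (F := y - trF M y) (CF.sub' h.cf (trF_cf M h.cf))).pow_const _)
      (fun M => Filter.Eventually.of_forall fun t => by
        simp only
        rw [ENNReal.rpow_two, pow_two]
        exact mul_le_mul' (NW_tail_le _ _ M) (NW_tail_le _ _ M))
      h.sq_ne_top
      (Filter.Eventually.of_forall fun t => by
        have h2 := NW_tail (NW_ne_top_of_sn (h.sn t))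
        have h3 := (ENNReal.continuous_rpow_const (y := 2)).tendsto (0 : ℝ≥0∞)
        rw [ENNReal.zero_rpow_of_pos (by norm_num)] at h3
        exact h3.comp h2)
    rw [lintegral_zero] at h1
    have h2 := (ENNReal.continuous_rpow_const (y := 1 / 2)).tendsto (0 : ℝ≥0∞)
    rw [ENNReal.zero_rpow_of_pos (by norm_num)] at h2
    exact h2.comp h1
  have h5 := ((t1.add t2).add t3).add t4
  simp only [add_zero] at h5
  exact h5

lemma Par.mono' {c D Lam ρ ρ' : ℝ} (hp : Par c D Lam ρ) (h0 : 0 < ρ') (h1 : ρ' ≤ ρ) : Par c D Lam ρ' := by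
  have hE2 := Real.exp_pos (2 * (Lam * D ^ 2))
  refine ⟨hp.hc, hp.hD, hp.hL, h0, hp.h1, le_trans ?_ hp.h2, le_trans ?_ hp.h3⟩
  · exact mul_le_mul_of_nonneg_left (by linarith) hE2.le
  · exact mul_le_mul_of_nonneg_left (by linarith) hE2.le

/-- A path with a small residual is near a solution of the equation with the cut-off, whose datum is a
trigonometric polynomial. -/
theorem base_apprX (hc : 0 < c) {D' : ℝ} (hD' : 0 ≤ D') : ∃ Kb η0 : ℝ, 1 ≤ Kb ∧ 0 < η0 ∧ ∀ η : ℝ, 0 < η → η ≤ η0 →
    ∀ (χ : ℝ → ℝ), CutT χ → ∀ y G : Fam, GSX c y G → LN (fun t => NW (Wa 0) (at' y t)) ≤ ENNReal.ofReal D' →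
    ∫⁻ t in Ioi 0, NW (Wm 0) (at' (Bx χ y) t - at' G t) ≤ ENNReal.ofReal (η / 4) →
    ∃ (S : StX χ c) (M : ℕ), S.V = tru M (at' y 0) ∧
    (∀ t, NW (Wm 0) (at' (S.u - y) t) ≤ ENNReal.ofReal (Kb * η)) ∧
    NW (Wm 0) (at' y 0 - tru M (at' y 0)) ≤ ENNReal.ofReal (Kb * η) ∧
    LN (fun t => NW (Wa 0) (at' (S.u - y) t)) ≤ ENNReal.ofReal (Kb * η) ∧
    NW (Wa 0) (at' y 0 - tru M (at' y 0)) ≤ ENNReal.ofReal η := by
  have hC := C0_pos
  obtain ⟨D, hD⟩ : ∃ D, D = 2 * D' + 1 := ⟨_, rfl⟩
  have hD0 : 0 < D := by rw [hD]; positivity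
  obtain ⟨Lam, ρ0, hp0⟩ := exists_par hc hD0
  obtain ⟨E, hE⟩ : ∃ E, E = Real.exp (Lam * D ^ 2) := ⟨_, rfl⟩
  have hE0 : 0 < E := by rw [hE]; exact Real.exp_pos _
  have hsc : 0 < Real.sqrt c := Real.sqrt_pos.2 hc
  obtain ⟨q, hq⟩ : ∃ q, q = 2 / Real.sqrt c := ⟨_, rfl⟩
  have hq0 : 0 < q := by rw [hq]; positivity
  obtain ⟨Kb, hKb⟩ : ∃ Kb, Kb = 2 * (1 + E * (3 * C0 * D) * q) + E * q + 1 := ⟨_, rfl⟩
  have hK1 : 0 < E * (3 * C0 * D) * q := by positivity
  have hK2 : 0 < E * q := by positivity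
  refine ⟨Kb, ρ0 / q, by rw [hKb]; linarith, div_pos hp0.hρ hq0, fun η hη0 hηle χ hχ y G h hyD hres => ?_⟩
  obtain ⟨ρ, hρe⟩ : ∃ ρ, ρ = q * η := ⟨_, rfl⟩
  have hρ : 0 < ρ := by rw [hρe]; positivity
  have hρle : ρ ≤ ρ0 := by
    rw [le_div_iff₀ hq0] at hηle
    rw [hρe]
    linarith
  have hp : Par c D Lam ρ := Par.mono' hp0 hρ hρle
  have hη2 : η ^ 2 ≤ c * (ρ / 2) ^ 2 := by
    have h1 : ρ / 2 = η / Real.sqrt c := by
      rw [hρe, hq]
      field_simp
    rw [h1, div_pow, Real.sq_sqrt hc.le]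
    exact le_of_eq (by field_simp)
  obtain ⟨M, hM, hM'⟩ := (((E2_tendsto h).eventually (gt_mem_nhds (show (0 : ℝ≥0∞) < ENNReal.ofReal (η / 4) by
    rw [ENNReal.ofReal_pos]; positivity))).and ((NW_tail (NW_ne_top_of_sn (h.sn 0))).eventually
      (gt_mem_nhds (show (0 : ℝ≥0∞) < ENNReal.ofReal η by rw [ENNReal.ofReal_pos]; exact hη0)))).exists
  -- the four parts
  have p1 : NW (Wm 0) (at' y 0 - tru M (at' y 0)) ≤ E2 y G M := by
    unfold E2; exact le_self_add.trans (le_self_add.trans le_self_add)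
  have p2 : NW (Wm 0) (at' y 0 - tru M (at' y 0))
      + ∫⁻ t in Ioi 0, NW (Wm 0) (at' G t - tru M (at' G t)) ≤ E2 y G M := by
    unfold E2; exact le_self_add.trans le_self_add
  have p3 : (∫⁻ t in Ioi 0, NW (Wm 0) (at' G t - tru M (at' G t)))
    + ∫⁻ t in Ioi 0, NW (Wm 0) (at' (Bt (trF M y)) t - at' (Bt y) t) ≤ E2 y G M := by
    unfold E2
    refine le_trans (add_le_add ?_ le_rfl) le_self_add
    exact le_add_self
  have p4 : LN (fun t => NW (Wa 0) (at' (y - trF M y) t)) ≤ E2 y G M := by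
    unfold E2; exact le_add_self
  obtain ⟨a, ha⟩ : ∃ a, a = Real.log 2 / (6 * M + 1) := ⟨_, rfl⟩
  have hl2 : 0 < Real.log 2 := Real.log_pos (by norm_num)
  have ha0 : 0 < a := by rw [ha]; positivity
  have hom : ∀ k ∈ bx (2 * M), om a k ≤ 2 := by
    intro k hk
    rw [mem_bx] at hk
    unfold om
    have h1 : l1 k ≤ 6 * M := by
      unfold l1
      calc ∑ i, |(k i : ℝ)| ≤ ∑ _i : Fin 3, (2 * M : ℝ) := by
            refine Finset.sum_le_sum fun i _ => ?_
            have := hk i
            rw [← Int.cast_abs]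
            exact_mod_cast this
        _ = _ := by simp; ring
    have h2 : a * l1 k ≤ Real.log 2 := by
      have h3 : a * l1 k ≤ a * (6 * M + 1) := mul_le_mul_of_nonneg_left (by linarith) ha0.le
      refine h3.trans (le_of_eq ?_)
      rw [ha]; field_simp
    calc Real.exp (a * l1 k) ≤ Real.exp (Real.log 2) := Real.exp_le_exp.2 h2
      _ = 2 := Real.exp_log (by norm_num)
  obtain ⟨A, hA⟩ : ∃ A : ℝ → ℝ, A = fun t => 2 * ∑ k ∈ bx M, ‖y k t‖ := ⟨_, rfl⟩
  have hAc : Continuous A := by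
    rw [hA]
    exact continuous_const.mul (continuous_finsetSum _ fun k _ => (h.cf k).norm)
  have hA0 : ∀ t, 0 ≤ A t := fun t => by
    rw [hA]
    exact mul_nonneg (by norm_num) (Finset.sum_nonneg fun _ _ => norm_nonneg _)
  have hUA : ∀ t, NW (Wa a) (at' (trF M y) t) ≤ ENNReal.ofReal (A t) := by
    intro t
    rw [at'_trF]
    unfold NW
    rw [tsum_eq_sum (s := bx M) fun k hk => by simp [tru, hk], hA]
    simp only
    rw [Finset.mul_sum, ENNReal.ofReal_sum_of_nonneg fun k _ => by positivity]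
    refine Finset.sum_le_sum fun k hk => ?_
    have e : tru M (at' y t) k = y k t := by simp [tru, hk, at']
    rw [e, ← ofReal_norm]
    unfold Wa
    rw [← ENNReal.ofReal_mul (om_pos _ _).le]
    exact ENNReal.ofReal_le_ofReal (mul_le_mul_of_nonneg_right (hom k (bx_mono (by omega) hk)) (norm_nonneg _))
  have hAN : ∀ t, ENNReal.ofReal (A t) ≤ 2 * NW (Wa 0) (at' y t) := by
    intro t
    rw [NW_eq_An (h.sn t), hA, ENNReal.ofReal_mul (by norm_num), ENNReal.ofReal_ofNat]
    refine mul_le_mul' le_rfl (ENNReal.ofReal_le_ofReal ?_)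
    exact Summable.sum_le_tsum (f := fun k => ‖y k t‖) _ (fun _ _ => norm_nonneg _) (h.sn t)
  have hAi : LN (fun t => ENNReal.ofReal (A t)) ≤ ENNReal.ofReal D := by
    refine (LN_mono fun t _ => hAN t).trans ?_
    rw [LN_const_mul _ (NW_meas _ h.cf), hD, ENNReal.ofReal_add (by positivity) zero_le_one,
      ENNReal.ofReal_mul (by norm_num), ENNReal.ofReal_ofNat]
    exact (mul_le_mul' le_rfl hyD).trans le_self_add
  have hUc := trF_cf M h.cf
  have hUd : Dom (trF M y) := (h.trW 0 M).dom le_rfl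
  have hsymtr : ∀ {z : Fam}, SymF z → SymF (trF M z) := fun hz t => tru_sym M (hz t)
  have hB0 : ∀ (z : Fam) t, Bt z 0 t = 0 := by
    intro z t
    funext i
    simp [Bt, Bf, coef]
  have hFEi : ∫⁻ s in Ioi 0, NW (Wm a) (at' (Bx χ (trF M y) - trF M G) s) ≤ ENNReal.ofReal η := by
    have h1 : ∀ s, NW (Wm a) (at' (Bx χ (trF M y) - trF M G) s) ≤
        2 * ((NW (Wm 0) (at' G s - tru M (at' G s)) + NW (Wm 0) (at' (Bt (trF M y)) s - at' (Bt y) s))
          + NW (Wm 0) (at' (Bx χ y) s - at' G s)) := by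
      intro s
      have e1 : at' (Bx χ (trF M y) - trF M G) s
          = ((at' G s - tru M (at' G s)) + χ s • (at' (Bt (trF M y)) s - at' (Bt y) s)) + (at' (Bx χ y) s - at' G s) := by
        funext k
        simp only [at', Pi.sub_apply, Pi.add_apply, trF, tru, Bx, Pi.smul_apply, smul_sub]
        abel
      refine le_trans ?_ (mul_le_mul' le_rfl ((NW_add_le (Wm 0) _ _).trans (add_le_add ((NW_add_le (Wm 0) _ _).trans
        (add_le_add le_rfl (NW_smul_le (Wm 0) (hχ.nn s) (hχ.le s) _))) le_rfl)))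
      rw [← e1]
      unfold NW
      rw [← ENNReal.tsum_mul_left]
      refine ENNReal.tsum_le_tsum fun k => ?_
      by_cases hk : k ∈ bx (2 * M)
      · rw [← mul_assoc]
        apply mul_le_mul' _ le_rfl
        unfold Wm
        have o : om 0 k = 1 := by simp [om]
        rw [o, ← ENNReal.ofReal_ofNat, ← ENNReal.ofReal_mul (by norm_num)]
        apply ENNReal.ofReal_le_ofReal
        rw [mul_one_div]
        exact div_le_div_of_nonneg_right (hom k hk) (nk_nonneg k)
      · have hk' : k ∉ bx M := fun h' => hk (bx_mono (by omega) h')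
        have e2 : at' (Bx χ (trF M y) - trF M G) s k = 0 := by
          have e3 : Bt (trF M y) k s = 0 := Bf_supp (M := M) (fun l hl => by
            show (if l ∈ bx M then y l s else 0) = 0
            rw [if_neg hl]) hk
          show χ s • Bt (trF M y) k s - trF M G k s = 0
          rw [e3, smul_zero]
          simp only [trF, if_neg hk', sub_zero]
        rw [e2, enorm_zero, mul_zero]
        exact zero_le
    calc _ ≤ ∫⁻ s in Ioi 0, 2 * ((NW (Wm 0) (at' G s - tru M (at' G s))
          + NW (Wm 0) (at' (Bt (trF M y)) s - at' (Bt y) s)) + NW (Wm 0) (at' (Bx χ y) s - at' G s)) := lintegral_mono h1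
      _ = 2 * (((∫⁻ t in Ioi 0, NW (Wm 0) (at' G t - tru M (at' G t)))
          + ∫⁻ t in Ioi 0, NW (Wm 0) (at' (Bt (trF M y)) t - at' (Bt y) t))
          + ∫⁻ t in Ioi 0, NW (Wm 0) (at' (Bx χ y) t - at' G t)) := by
          have hmm : Measurable fun s => NW (Wm 0) (at' G s - tru M (at' G s)) :=
            NW_meas _ (F := G - trF M G) (CF.sub' h.cfG (trF_cf M h.cfG))
          have hmm2 : Measurable fun s => NW (Wm 0) (at' (Bt (trF M y)) s - at' (Bt y) s) :=
            NW_meas _ (F := Bt (trF M y) - Bt y) (CF.sub' (Bt_cont (trF_cf M h.cf) hUd) h.cfB)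
          have hmm3 : Measurable fun s => NW (Wm 0) (at' G s - tru M (at' G s))
            + NW (Wm 0) (at' (Bt (trF M y)) s - at' (Bt y) s) := hmm.add hmm2
          rw [lintegral_const_mul' _ _ (by norm_num), lintegral_add_left hmm3, lintegral_add_left hmm]
      _ ≤ 2 * (ENNReal.ofReal (η / 4) + ENNReal.ofReal (η / 4)) :=
          mul_le_mul' le_rfl (add_le_add (p3.trans hM.le) hres)
      _ = ENNReal.ofReal η := by
          rw [← ENNReal.ofReal_add (by positivity) (by positivity), ← ENNReal.ofReal_ofNat,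
            ← ENNReal.ofReal_mul (by norm_num)]
          congr 1
          ring
  obtain ⟨u, hu, hu1, hu2⟩ := approx_sol hχ hp ha0 hAc hA0 hAi hUc (h.trW a M)
    (fun t => by
      show (if (0 : K) ∈ bx M then y 0 t else 0) = 0
      rw [h.z]; simp)
    (hsymtr h.sym) (fun t _ => hUA t) (trF_cf M h.cfG) rfl (hsymtr h.symG)
    (fun t => by
      show χ t • Bt (trF M y) 0 t - (if (0 : K) ∈ bx M then G 0 t else 0) = 0
      rw [hB0, h.zG]; simp) hη0.le hη2 hFEi (V := tru M (at' y 0)) (fun k t => by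
      rw [Duh_trF]
      unfold trF tru
      split_ifs
      · exact h.eqn k t
      · simp)
  have hy0 : at' y 0 0 = 0 := h.z 0
  have hdiff : ∀ t, NW (Wm 0) (at' (trF M y - y) t) ≤ ENNReal.ofReal (η / 4) := by
    intro t
    refine le_trans ?_ (p2.trans hM.le)
    have e0 : NW (Wm 0) (at' (trF M y - y) t) = NW (Wm 0) (at' (y - trF M y) t) := by
      unfold NW
      refine tsum_congr fun k => ?_
      rw [← enorm_neg]
      congr 2
      simp [at']
    rw [e0]
    rcases le_total t 0 with ht | ht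
    · have : at' (y - trF M y) t = at' y 0 - tru M (at' y 0) := by
        have e1 : at' y t = at' y 0 := by
          funext k
          show y k t = y k 0
          rw [h.eqn k t, h.eqn k 0, max_eq_right ht, max_self]
          congr 1
          rw [Duh_eq, Duh_eq, max_eq_right ht, max_self]
        show at' y t - tru M (at' y t) = _
        rw [e1]
      rw [this]
      exact le_self_add
    · have e : at' (y - trF M y) t = at' (Ht c (at' y 0 - tru M (at' y 0))) t + at' (Duh c (G - trF M G)) t := by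
        rw [Duh_sub h.cfG (trF_cf M h.cfG)]
        funext k
        show y k t - (if k ∈ bx M then y k t else 0) = Real.exp (-(c * sq k * max t 0)) • (at' y 0 k - tru M (at' y 0) k)
          + (Duh c G k t - Duh c (trF M G) k t)
        rw [Duh_trF]
        unfold tru
        by_cases hk : k ∈ bx M
        · simp [hk]
        · simp only [if_neg hk, sub_zero]
          exact h.eqn k t
      rw [e]
      refine (NW_add_le _ _ _).trans (add_le_add (Ht_le hc _ _ t) ?_)
      refine (NW_Duh_le hc.le _ (CF.sub' h.cfG (trF_cf M h.cfG)) ht).trans ?_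
      exact lintegral_mono_set Ioc_subset_Ioi_self
  refine ⟨⟨tru M (at' y 0), u, a / 2, half_pos ha0, hu, tru_fin M _, tru_zero M hy0,
    tru_div M h.dv, tru_sym M (h.sym 0)⟩, M, rfl, fun t => ?_, p1.trans (hM.le.trans
      (ENNReal.ofReal_le_ofReal (by rw [hKb]; nlinarith))), ?_, hM'.le⟩
  · have e : at' (u - y) t = at' (u - trF M y) t + at' (trF M y - y) t := by
      funext k
      simp only [at', Pi.sub_apply, Pi.add_apply]
      abel
    show NW (Wm 0) (at' (u - y) t) ≤ _
    rw [e]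
    refine (NW_add_le _ _ _).trans ((add_le_add (hu1 t) (hdiff t)).trans ?_)
    rw [← ENNReal.ofReal_add (by positivity) (by positivity)]
    apply ENNReal.ofReal_le_ofReal
    rw [← hE, hρe, hKb]
    nlinarith
  · have e : ∀ t, NW (Wa 0) (at' (u - y) t) ≤ NW (Wa 0) (at' (u - trF M y) t) + NW (Wa 0) (at' (y - trF M y) t) := by
      intro t
      have e1 : at' (u - y) t = at' (u - trF M y) t + at' (trF M y - y) t := by
        funext k
        simp only [at', Pi.sub_apply, Pi.add_apply]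
        abel
      have e0 : NW (Wa 0) (at' (trF M y - y) t) = NW (Wa 0) (at' (y - trF M y) t) := by
        unfold NW
        refine tsum_congr fun k => ?_
        rw [← enorm_neg]
        congr 2
        simp [at']
      rw [e1, ← e0]
      exact NW_add_le _ _ _
    refine (LN_mono fun t _ => e t).trans ((LN_add_le (NW_meas _ (CF.sub' hu.cf hUc))
      (NW_meas _ (CF.sub' h.cf hUc))).trans ((add_le_add hu2 (p4.trans hM.le)).trans ?_))
    rw [← ENNReal.ofReal_add (by positivity) (by positivity)]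
    apply ENNReal.ofReal_le_ofReal
    rw [← hE, hρe, hKb]
    nlinarith

end

end Pool.Agent.H356R3.NS.X
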