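import Pool.Agent.H3NY.X.BaseX

namespace Pool.Agent.H356R3.NS
end Pool.Agent.H356R3.NS
namespace Pool.Agent.H356R3.NS.H3
end Pool.Agent.H356R3.NS.H3
namespace Pool.Agent.H356R3.NS.X
end Pool.Agent.H356R3.NS.X
namespace Pool.Agent.H3NS
end Pool.Agent.H3NS
namespace H459R3.NS
end H459R3.NS

set_option autoImplicit false
set_option maxHeartbeats 4000000
set_option synthInstance.maxHeartbeats 400000

/-!
One block of time: solutions which are near a given path.
-/

open MeasureTheory Set Filter Topology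
open scoped ENNReal NNReal ContDiff

namespace Pool.Agent.H356R3.NS.X

open Pool.Agent.H3NS

/-- a path in the moving frame, with its bounds, up to the time `H0` -/
structure BF (c C : ℝ) (n : ℕ) (H0 : ℝ) (y G : Fam) : Prop where
  cf : CF y
  cfG : CF G
  z : ∀ t, y 0 t = 0
  zG : ∀ t, G 0 t = 0
  sym : SymF y
  symG : SymF G
  dv : ∀ k, dt k (y k 0) = 0
  yb : ∀ k t, ‖y k t‖ ≤ C * (1 / nk k) ^ n
  gb : ∀ k t, ‖G k t‖ ≤ C * (1 / nk k) ^ n
  eqn : ∀ k t, t ≤ H0 → y k t = Real.exp (-(c * sq k * max t 0)) • y k 0 + Duh c G k t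

/-- the product with a function of time -/
noncomputable def smF (χ : ℝ → ℝ) (G : Fam) : Fam := fun k t => χ t • G k t

/-- the path with the cut-off right side -/
noncomputable def zF (c : ℝ) (χ : ℝ → ℝ) (y G : Fam) : Fam := fun k t =>
  Real.exp (-(c * sq k * max t 0)) • y k 0 + Duh c (smF χ G) k t

lemma smF_cf {χ : ℝ → ℝ} (hχ : Continuous χ) {G : Fam} (hG : CF G) : CF (smF χ G) := fun k => hχ.smul (hG k)

lemma inv_pow_le {k : K} {n : ℕ} (hn : 4 ≤ n) : (1 / nk k) ^ n ≤ (1 / nk k) ^ 4 := by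
  by_cases hk : k = 0
  · subst hk
    rw [nk_zero]
    simp [show n ≠ 0 by omega]
  · have h1 := one_le_nk hk
    exact pow_le_pow_of_le_one (by positivity) (by rw [div_le_one (by linarith)]; exact h1) hn

section
variable {c C H0 h h' : ℝ} {n : ℕ} {y G : Fam} {χ : ℝ → ℝ}

lemma zF_cf (hχ : Continuous χ) (hG : CF G) : CF (zF c χ y G) := by
  intro k
  have h1 := Duh_cont (smF_cf hχ hG) c k
  unfold zF
  fun_prop

lemma zF_eq (hB : BF c C n H0 y G) (hχ : CutH χ h) (hh : h ≤ H0) (k : K) {t : ℝ} (ht : t ≤ h) : zF c χ y G k t = y k t := by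
  rw [hB.eqn k t (ht.trans hh)]
  unfold zF
  congr 1
  unfold Duh
  refine intervalIntegral.integral_congr fun s hs => ?_
  rw [uIcc_of_le (le_max_right t 0)] at hs
  have : χ s = 1 := hχ.one s (hs.2.trans (max_le ht hχ.hpos.le))
  simp only [smF, this, one_smul]

lemma at'_zF_zero (c : ℝ) (χ : ℝ → ℝ) (y G : Fam) : at' (zF c χ y G) 0 = at' y 0 := by
  funext k
  show Real.exp (-(c * sq k * max 0 0)) • y k 0 + Duh c (smF χ G) k 0 = y k 0
  rw [Duh_at_zero]
  simp

lemma Duh_sm_le (hc : 0 < c) (hH : 0 < H0) (hχ : CutT χ) (hχ0 : ∀ t, H0 ≤ t → χ t = 0)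
    (hb : ∀ k t, ‖G k t‖ ≤ C * (1 / nk k) ^ n) (k : K) (t : ℝ) : ‖Duh c (smF χ G) k t‖ ≤ H0 * (C * (1 / nk k) ^ n) := by
  have hb0 : 0 ≤ C * (1 / nk k) ^ n := (norm_nonneg _).trans (hb k 0)
  have h1 : ‖Duh c (smF χ G) k t‖ₑ ≤ ENNReal.ofReal (H0 * (C * (1 / nk k) ^ n)) := by
    rw [← Duh_max]
    refine (enorm_Duh_le' hc.le _ k (le_max_right t 0)).trans ?_
    calc ∫⁻ s in Ioc 0 (max t 0), ‖smF χ G k s‖ₑ
        ≤ ∫⁻ s in Ioi 0, (Ioc 0 H0).indicator (fun _ => ENNReal.ofReal (C * (1 / nk k) ^ n)) s := by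
          refine (lintegral_mono_set Ioc_subset_Ioi_self).trans (setLIntegral_mono' measurableSet_Ioi fun s hs => ?_)
          by_cases h2 : s ≤ H0
          · rw [indicator_of_mem (show s ∈ Ioc 0 H0 from ⟨hs, h2⟩)]
            unfold smF
            rw [enorm_smul, Real.enorm_of_nonneg (hχ.nn s), ← ofReal_norm, ← ENNReal.ofReal_mul (hχ.nn s)]
            apply ENNReal.ofReal_le_ofReal
            calc χ s * ‖G k s‖ ≤ 1 * ‖G k s‖ := mul_le_mul_of_nonneg_right (hχ.le s) (norm_nonneg _)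
              _ ≤ _ := by rw [one_mul]; exact hb k s
          · unfold smF
            rw [hχ0 s (not_le.1 h2).le, zero_smul, enorm_zero]
            exact zero_le
      _ = _ := by
          rw [lintegral_indicator measurableSet_Ioc, Measure.restrict_restrict measurableSet_Ioc,
            inter_eq_left.2 Ioc_subset_Ioi_self, setLIntegral_const, Real.volume_Ioc, sub_zero, mul_comm,
            ← ENNReal.ofReal_mul hH.le]
  rw [← ofReal_norm] at h1
  exact (ENNReal.ofReal_le_ofReal_iff (by positivity)).1 h1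

lemma zF_bound (hc : 0 < c) (hH : 0 < H0) (hB : BF c C n H0 y G) (hχ : CutT χ)
    (hχ0 : ∀ t, H0 ≤ t → χ t = 0) (k : K) (t : ℝ) : ‖zF c χ y G k t‖ ≤ C * (1 + H0) * (1 / nk k) ^ n := by
  unfold zF
  have h1 := Duh_sm_le hc hH hχ hχ0 hB.gb k t
  have h2 : ‖Real.exp (-(c * sq k * max t 0)) • y k 0‖ ≤ C * (1 / nk k) ^ n := by
    rw [norm_smul, Real.norm_of_nonneg (Real.exp_pos _).le]
    refine (mul_le_of_le_one_left (norm_nonneg _) ?_).trans (hB.yb k 0)
    rw [Real.exp_le_one_iff]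
    have := sq_nonneg' k
    have : 0 ≤ c * sq k * max t 0 := by positivity
    linarith
  refine (norm_add_le _ _).trans ?_
  calc _ ≤ C * (1 / nk k) ^ n + H0 * (C * (1 / nk k) ^ n) := add_le_add h2 h1
    _ = _ := by ring

lemma NW_le_S4 {x : K → C3} {A : ℝ} (hA : 0 ≤ A) (hn : 4 ≤ n) (h : ∀ k, ‖x k‖ ≤ A * (1 / nk k) ^ n) :
    NW (Wa 0) x ≤ ENNReal.ofReal (A * S4) := by
  rw [NW_Wa_zero]
  have h4 : ∀ k, ‖x k‖ ≤ A * (1 / nk k) ^ 4 := fun k =>
    (h k).trans (mul_le_mul_of_nonneg_left (inv_pow_le hn) hA)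
  refine (NW_one_le (summ_nk4.mul_left A) h4).trans (le_of_eq ?_)
  rw [tsum_mul_left]
  rfl

/-- The uniform constants of a block. -/
lemma block_const (hc : 0 < c) (hH : 0 < H0) (hC : 0 ≤ C) : ∃ D C2 : ℝ, 0 ≤ D ∧ 0 < C2 ∧
    ∀ (n : ℕ) (y G : Fam), 4 ≤ n → BF c C n H0 y G → ∀ (χ : ℝ → ℝ), CutT χ → (∀ t, H0 ≤ t → χ t = 0) →
      GSX c (zF c χ y G) (smF χ G) ∧ LN (fun t => NW (Wa 0) (at' (zF c χ y G) t)) ≤ ENNReal.ofReal D ∧
      (∀ t, NW (Wm 0) (at' (Bt (zF c χ y G)) t) + NW (Wm 0) (at' G t) ≤ ENNReal.ofReal C2) ∧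
      (∀ t, NW (Wm 0) (at' (Bt y) t) + NW (Wm 0) (at' G t) ≤ ENNReal.ofReal C2) ∧
      ∀ t, NW (Wa 0) (at' (zF c χ y G) t) ≤ ENNReal.ofReal C2 := by
  have hS := S4_nonneg
  have hC0 := C0_pos
  obtain ⟨A, hA⟩ : ∃ A, A = C * (1 + H0) * S4 := ⟨_, rfl⟩
  have hA0 : 0 ≤ A := by rw [hA]; positivity
  obtain ⟨Bc, hBc⟩ : ∃ Bc, Bc = (C * S4 + C * S4 * H0) + (C * S4 + C * S4 * H0) := ⟨_, rfl⟩
  have hBc0 : 0 ≤ Bc := by rw [hBc]; positivity
  refine ⟨(A * (Bc / c)) ^ (1 / 2 : ℝ), C0 * (A * A) + C * S4 + 1 + A, by positivity, by positivity,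
    fun n y G hn hB χ hχ hχ0 => ?_⟩
  have hzb := zF_bound hc hH hB hχ hχ0
  have hzN : ∀ t, NW (Wa 0) (at' (zF c χ y G) t) ≤ ENNReal.ofReal A := fun t => by
    rw [hA]
    exact NW_le_S4 (by positivity) hn fun k => hzb k t
  have hyN : ∀ t, NW (Wa 0) (at' y t) ≤ ENNReal.ofReal (C * S4) := fun t => NW_le_S4 hC hn fun k => hB.yb k t
  have hGN : ∀ t, NW (Wa 0) (at' G t) ≤ ENNReal.ofReal (C * S4) := fun t => NW_le_S4 hC hn fun k => hB.gb k t
  have hCA : C * S4 ≤ A := by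
    rw [hA]
    have : 0 ≤ C * S4 * H0 := by positivity
    nlinarith
  have hcfz : CF (zF c χ y G) := zF_cf hχ.cont hB.cfG
  have hcfs : CF (smF χ G) := smF_cf hχ.cont hB.cfG
  have hz0 : ∀ t, zF c χ y G 0 t = 0 := by
    intro t
    have h1 : Duh c (smF χ G) 0 t = 0 := by
      unfold Duh
      have : ∀ s, smF χ G 0 s = 0 := fun s => by simp [smF, hB.zG]
      simp [this]
    unfold zF
    rw [hB.z, h1]
    simp
  have hsN : ∀ t, NW (Wa 0) (at' (smF χ G) t) ≤ (Ioc 0 H0).indicator (fun _ => ENNReal.ofReal (C * S4)) t ∨ t ≤ 0 := by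
    intro t
    by_cases h0 : t ≤ 0
    · exact Or.inr h0
    left
    by_cases h2 : t ≤ H0
    · rw [indicator_of_mem (show t ∈ Ioc 0 H0 from ⟨not_le.1 h0, h2⟩)]
      exact (NW_smul_le (Wa 0) (hχ.nn t) (hχ.le t) (at' G t)).trans (hGN t)
    · have : at' (smF χ G) t = 0 := by
        funext k
        simp [at', smF, hχ0 t (not_le.1 h2).le]
      rw [this, NW_zero]
      exact zero_le
  have hIa : ∫⁻ t in Ioi 0, NW (Wa 0) (at' (smF χ G) t) ≤ ENNReal.ofReal (C * S4 * H0) := by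
    calc _ ≤ ∫⁻ t in Ioi 0, (Ioc 0 H0).indicator (fun _ => ENNReal.ofReal (C * S4)) t := by
          refine setLIntegral_mono' measurableSet_Ioi fun t ht => ?_
          rcases hsN t with h1 | h1
          · exact h1
          · exact absurd ht (not_lt.2 h1)
      _ = _ := by
          rw [lintegral_indicator measurableSet_Ioc, Measure.restrict_restrict measurableSet_Ioc,
            inter_eq_left.2 Ioc_subset_Ioi_self, setLIntegral_const, Real.volume_Ioc, sub_zero,
            ← ENNReal.ofReal_mul (by positivity)]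
  have hy0 : NW (Wa 0) (at' y 0) ≤ ENNReal.ofReal (C * S4) := hyN 0
  -- the integral in time
  have hI2 : ∫⁻ t in Ioi 0, NW (Wa 0) (at' (zF c χ y G) t) ≤ ENNReal.ofReal (Bc / c) := by
    have e : ∀ t, at' (zF c χ y G) t = at' (Ht c (at' y 0)) t + at' (Duh c (smF χ G)) t := fun t => rfl
    have hW : ∀ {x : K → C3}, x 0 = 0 → NW (Wa 0) x ≤ NW (W2 (Wa 0)) x := by
      intro x hx
      unfold NW
      refine ENNReal.tsum_le_tsum fun k => ?_
      by_cases hk : k = 0
      · subst hk; rw [hx]; simp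
      · apply mul_le_mul' _ le_rfl
        unfold W2
        refine le_mul_of_one_le_right' ?_
        rw [← ENNReal.ofReal_one]
        exact ENNReal.ofReal_le_ofReal (one_le_sq hk)
    have h1 : ENNReal.ofReal c * ∫⁻ t in Ioi 0, NW (Wa 0) (at' (zF c χ y G) t)
        ≤ ENNReal.ofReal (C * S4) + ENNReal.ofReal (C * S4 * H0) := by
      calc ENNReal.ofReal c * ∫⁻ t in Ioi 0, NW (Wa 0) (at' (zF c χ y G) t)
          ≤ ENNReal.ofReal c * ∫⁻ t in Ioi 0, (NW (W2 (Wa 0)) (at' (Ht c (at' y 0)) t)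
            + NW (W2 (Wa 0)) (at' (Duh c (smF χ G)) t)) := by
            apply mul_le_mul' le_rfl
            refine lintegral_mono fun t => ?_
            refine (hW (hz0 t)).trans ?_
            rw [e]
            exact NW_add_le _ _ _
        _ = (ENNReal.ofReal c * ∫⁻ t in Ioi 0, NW (W2 (Wa 0)) (at' (Ht c (at' y 0)) t))
            + ENNReal.ofReal c * ∫⁻ t in Ioi 0, NW (W2 (Wa 0)) (at' (Duh c (smF χ G)) t) := by
            have hm : Measurable fun t => NW (W2 (Wa 0)) (at' (Ht c (at' y 0)) t) :=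
              NW_meas _ (F := Ht c (at' y 0)) (fun k => by unfold Ht; fun_prop)
            rw [lintegral_add_left hm, mul_add]
        _ ≤ _ := add_le_add ((Ht_W2 hc _ _).trans hy0) ((Duh_W2 hc _ hcfs).trans hIa)
    have h2 : ENNReal.ofReal (C * S4) + ENNReal.ofReal (C * S4 * H0) ≤ ENNReal.ofReal Bc := by
      rw [← ENNReal.ofReal_add (by positivity) (by positivity), hBc]
      apply ENNReal.ofReal_le_ofReal
      have : 0 ≤ C * S4 + C * S4 * H0 := by positivity
      linarith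
    rw [ENNReal.ofReal_div_of_pos hc, ENNReal.le_div_iff_mul_le (Or.inl (by rw [Ne, ENNReal.ofReal_eq_zero]; linarith))
      (Or.inl ENNReal.ofReal_ne_top), mul_comm]
    exact h1.trans h2
  have hLN : LN (fun t => NW (Wa 0) (at' (zF c χ y G) t)) ≤ ENNReal.ofReal ((A * (Bc / c)) ^ (1 / 2 : ℝ)) := by
    unfold LN
    rw [← ENNReal.ofReal_rpow_of_nonneg (by positivity) (by norm_num)]
    apply ENNReal.rpow_le_rpow _ (by norm_num)
    calc ∫⁻ t in Ioi 0, NW (Wa 0) (at' (zF c χ y G) t) ^ (2 : ℝ)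
        ≤ ∫⁻ t in Ioi 0, ENNReal.ofReal A * NW (Wa 0) (at' (zF c χ y G) t) := by
          refine lintegral_mono fun t => ?_
          simp only
          rw [ENNReal.rpow_two, pow_two]
          exact mul_le_mul' (hzN t) le_rfl
      _ ≤ ENNReal.ofReal A * ENNReal.ofReal (Bc / c) := by
          rw [lintegral_const_mul' _ _ ENNReal.ofReal_ne_top]
          exact mul_le_mul' le_rfl hI2
      _ = _ := by rw [← ENNReal.ofReal_mul hA0]
  have hGm : ∀ t, NW (Wm 0) (at' G t) ≤ ENNReal.ofReal (C * S4) := fun t => (Wm_le_Wa0 _).trans (hGN t)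
  have hsum : ∀ x : K → C3, NW (Wa 0) x ≤ ENNReal.ofReal A → ∀ t, NW (Wm 0) (Bf x x) + NW (Wm 0) (at' G t)
      ≤ ENNReal.ofReal (C0 * (A * A) + C * S4 + 1 + A) := by
    intro x hx t
    have h1 : NW (Wm 0) (Bf x x) ≤ ENNReal.ofReal (C0 * (A * A)) := by
      refine (NW_Bf_le le_rfl _ _).trans ?_
      rw [ENNReal.ofReal_mul hC0.le, ENNReal.ofReal_mul hA0]
      exact mul_le_mul' le_rfl (mul_le_mul' hx hx)
    refine (add_le_add h1 (hGm t)).trans ?_
    rw [← ENNReal.ofReal_add (by positivity) (by positivity)]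
    exact ENNReal.ofReal_le_ofReal (by linarith)
  refine ⟨⟨hc, ?_, hcfz, hcfs, hz0, fun t => by simp [smF, hB.zG], ?_, ne_top_of_le_ne_top ENNReal.ofReal_ne_top hLN,
    fun t => ?_, ?_, ?_, ?_, ?_⟩, hLN, fun t => hsum _ (hzN t) t, fun t => hsum _ ((hyN t).trans
      (ENNReal.ofReal_le_ofReal hCA)) t, fun t => (hzN t).trans (ENNReal.ofReal_le_ofReal (by
        have : 0 ≤ C0 * (A * A) + C * S4 + 1 := by positivity
        linarith))⟩
  · refine ⟨fun k => C * (1 + H0) * (1 / nk k) ^ 4, summ_nk4.mul_left _, fun k t => (hzb k t).trans ?_⟩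
    exact mul_le_mul_of_nonneg_left (inv_pow_le hn) (by positivity)
  · intro k t
    rw [at'_zF_zero]
    rfl
  · exact ne_top_of_le_ne_top ENNReal.ofReal_ne_top ((NW_smul_le (Wm 0) (hχ.nn t) (hχ.le t) (at' G t)).trans (hGm t))
  · exact ne_top_of_le_ne_top ENNReal.ofReal_ne_top ((lintegral_mono fun t => Wm_le_Wa0 _).trans hIa)
  · intro t k i
    have h1 : SymF (smF χ G) := by
      intro t k i
      have := hB.symG t k i
      simp only [at', smF, Pi.smul_apply, star_smul, star_trivial] at this ⊢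
      rw [this]
    have h2 := Duh_sym (c := c) h1 hcfs t k i
    have h3 := hB.sym 0 k i
    simp only [at'] at h2 h3
    show (Real.exp (-(c * sq (-k) * max t 0)) • y (-k) 0 + Duh c (smF χ G) (-k) t) i
      = star ((Real.exp (-(c * sq k * max t 0)) • y k 0 + Duh c (smF χ G) k t) i)
    simp only [Pi.add_apply, Pi.smul_apply, star_add, star_smul, star_trivial]
    rw [h2, h3, sq_neg]
  · intro t k i
    have := hB.symG t k i
    simp only [at', smF, Pi.smul_apply, star_smul, star_trivial] at this ⊢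
    rw [this]
  · intro k
    have h1 : zF c χ y G k 0 = y k 0 := congrFun (at'_zF_zero c χ y G) k
    rw [h1]
    exact hB.dv k

end

end Pool.Agent.H356R3.NS.X
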