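import Pool.Agent.H3NY.R.Four2
import Pool.Agent.H3NY.E.Main

namespace Pool.Agent.H356R3.NS
end Pool.Agent.H356R3.NS
namespace Pool.Agent.H356R3.NS.H3
end Pool.Agent.H356R3.NS.H3
namespace Pool.Agent.H356R3.NS.X
end Pool.Agent.H356R3.NS.X
namespace Pool.Agent.H3NS
end Pool.Agent.H3NS
namespace H459R3.NS
end H459R3.NS

set_option autoImplicit false
set_option maxHeartbeats 4000000
set_option synthInstance.maxHeartbeats 400000

/-!
Smooth periodic solutions of the Navier-Stokes equations on the Fourier side.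
-/

open MeasureTheory Set Filter Topology
open scoped ENNReal NNReal ContDiff

namespace Pool.Agent.H356R3.NS.X

open Pool.Agent.H3NS
open H459R3.NS (fr ee SP IsSol cube)

lemma ee_ex (k : K) (x : R3) : ee k x = ex k x := by
  unfold H459R3.NS.ee ex H459R3.NS.ph
  push_cast
  rfl

lemma fc_fr (v : R3 → R3) (k : K) (i : Fin 3) : fc v k i = fr (fun x => v x i) k := by
  rw [fc_eq]
  unfold H459R3.NS.fr H459R3.NS.fc
  show ∫ x in Icc (0 : R3) 1, _ = ∫ x in Icc (0 : R3) 1, _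
  congr 1
  funext x
  rw [ee_ex, mul_comm]

/-- derivative of an integral over the cube, complex version -/
lemma hasDerivAt_intC {T : ℝ} {F : ℝ → R3 → ℂ}
    (hF : ContDiffOn ℝ 1 (fun z : ℝ × R3 => F z.1 z.2) (Ioo 0 T ×ˢ univ)) {t : ℝ}
    (ht : t ∈ Ioo 0 T) :
    HasDerivAt (fun s => ∫ x in cube, F s x) (∫ x in cube, deriv (fun s => F s x) t) t := by
  obtain ⟨a, ha1, ha2⟩ := exists_between ht.1
  obtain ⟨b, hb1, hb2⟩ := exists_between ht.2
  have hO : IsOpen (Ioo 0 T ×ˢ (univ : Set R3)) := isOpen_Ioo.prod isOpen_univ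
  have hd : ContinuousOn (fun z : ℝ × R3 =>
      fderiv ℝ (fun z : ℝ × R3 => F z.1 z.2) z (1, 0)) (Ioo 0 T ×ˢ univ) :=
    (hF.continuousOn_fderiv_of_isOpen hO le_rfl).clm_apply continuousOn_const
  have hK : IsCompact (Icc a b ×ˢ cube) := isCompact_Icc.prod isCompact_Icc
  have hsub : Icc a b ×ˢ cube ⊆ Ioo 0 T ×ˢ (univ : Set R3) :=
    prod_mono (fun s hs => ⟨ha1.trans_le hs.1, hs.2.trans_lt hb2⟩) (subset_univ _)
  obtain ⟨C, hC⟩ := hK.exists_bound_of_continuousOn (hd.mono hsub)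
  have hslice : ∀ s ∈ Ioo 0 T, Continuous (fun x => F s x) := fun s hs => by
    have := hF.continuousOn.comp_continuous (f := fun x : R3 => ((s, x) : ℝ × R3)) (by fun_prop)
      (fun x => ⟨hs, mem_univ _⟩)
    exact this
  have hsl : ∀ {t : ℝ}, t ∈ Ioo 0 T → ∀ x,
      HasDerivAt (fun s => F s x) (fderiv ℝ (fun z : ℝ × R3 => F z.1 z.2) (t, x) (1, 0)) t := by
    intro t ht x
    have hmem : Ioo 0 T ×ˢ (univ : Set R3) ∈ 𝓝 (t, x) :=
      prod_mem_nhds (Ioo_mem_nhds ht.1 ht.2) Filter.univ_mem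
    have h1 : DifferentiableAt ℝ (fun z : ℝ × R3 => F z.1 z.2) (t, x) :=
      (hF.contDiffAt hmem).differentiableAt one_ne_zero
    have h2 : HasDerivAt (fun s : ℝ => ((s, x) : ℝ × R3)) (1, 0) t :=
      (hasDerivAt_id t).prodMk (hasDerivAt_const t x)
    exact h1.hasFDerivAt.comp_hasDerivAt t h2
  have hnh : Icc a b ∈ 𝓝 t := Icc_mem_nhds ha2 hb1
  have hmeas : MeasurableSet cube := measurableSet_Icc
  have := H459R3.NS.cube_finite
  have key := (hasDerivAt_integral_of_dominated_loc_of_deriv_le (s := Icc a b)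
    (F := fun s x => F s x) (F' := fun s x =>
      fderiv ℝ (fun z : ℝ × R3 => F z.1 z.2) (s, x) (1, 0))
    (bound := fun _ => C) (μ := volume.restrict cube) hnh ?_ ?_ ?_ ?_ ?_ ?_).2
  · have e : (∫ x in cube, deriv (fun s => F s x) t)
        = ∫ x in cube, fderiv ℝ (fun z : ℝ × R3 => F z.1 z.2) (t, x) (1, 0) := by
      congr 1
      funext x
      exact (hsl ht x).deriv
    rw [e]
    exact key
  · filter_upwards [Ioo_mem_nhds ht.1 ht.2] with s hs
    exact (hslice s hs).aestronglyMeasurable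
  · exact H459R3.NS.integrableOn_cube (hslice t ht)
  · have : Continuous (fun x => fderiv ℝ (fun z : ℝ × R3 => F z.1 z.2) (t, x) (1, 0)) := by
      have h := hd.comp_continuous (f := fun x : R3 => ((t, x) : ℝ × R3)) (by fun_prop)
        (fun x => ⟨ht, mem_univ _⟩)
      exact h
    exact this.aestronglyMeasurable
  · refine (ae_restrict_iff' hmeas).2 (Filter.Eventually.of_forall fun x hx s hs => ?_)
    exact hC (s, x) ⟨hs, hx⟩
  · exact integrable_const _
  · refine Filter.Eventually.of_forall fun x s hs => ?_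
    exact hsl ⟨ha1.trans_le hs.1, hs.2.trans_lt hb2⟩ x

/-- time derivative of a Fourier coefficient -/
lemma fr_hasDerivAt {T : ℝ} {f : ℝ → R3 → ℝ}
    (hf : ContDiffOn ℝ 1 (fun z : ℝ × R3 => f z.1 z.2) (Ioo 0 T ×ˢ univ)) {t : ℝ} (ht : t ∈ Ioo 0 T) (k : K) :
    HasDerivAt (fun s => fr (f s) k) (fr (H459R3.NS.dt f t) k) t := by
  have hF : ContDiffOn ℝ 1 (fun z : ℝ × R3 => ee (-k) z.2 * (f z.1 z.2 : ℂ)) (Ioo 0 T ×ˢ univ) := by
    refine ContDiffOn.mul ?_ ?_
    · exact ((H459R3.NS.ee_contDiff (-k)).comp contDiff_snd).contDiffOn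
    · exact Complex.ofRealCLM.contDiff.comp_contDiffOn hf
  have key := hasDerivAt_intC (F := fun s x => ee (-k) x * (f s x : ℂ)) hF ht
  refine key.congr_deriv ?_
  unfold H459R3.NS.fr H459R3.NS.fc
  congr 1
  funext x
  have h1 : HasDerivAt (fun s => f s x) (H459R3.NS.dt f t x) t := by
    have h2 := H459R3.NS.hasDerivAt_slice hf ht x
    unfold H459R3.NS.dt
    rw [h2.deriv]
    exact h2
  have h3 := (h1.ofReal_comp).const_mul (ee (-k) x)
  exact h3.deriv

/-- Fourier coefficients of a product -/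
lemma fr_mul {f g : R3 → ℝ} (hf : SP f) (hg : SP g) (k : K) :
    fr (fun x => f x * g x) k = ∑' l, fr f l * fr g (k - l) := by
  have h := H459R3.NS.integral_ee_S_S (-k) (H459R3.NS.rap_fr hf).summable (H459R3.NS.rap_fr hg).summable
  rw [neg_neg] at h
  rw [h.tsum_eq]
  have e : (fun x => ee (-k) x * (H459R3.NS.S (fr f) x * H459R3.NS.S (fr g) x))
      = fun x => ee (-k) x * ((f x * g x : ℝ) : ℂ) := by
    funext x
    rw [H459R3.NS.S_fr hf, H459R3.NS.S_fr hg]
    push_cast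
    rfl
  rw [e]
  rfl

section
variable {ν T : ℝ} {u : ℝ → R3 → R3} {p : ℝ → R3 → ℝ}

/-- the coefficients of the convection term -/
lemma fr_conv {v : Fin 3 → R3 → ℝ} (hv : ∀ i, SP (v i)) (hdiv : ∀ x, ∑ i, H459R3.NS.pd i (v i) x = 0)
    (i : Fin 3) (k : K) :
    fr (H459R3.NS.conv v i) k = ∑ j, fj k j * cv (fun l m => fr (v m) l) (fun l m => fr (v m) l) k j i := by
  have e1 : H459R3.NS.conv v i = fun x => ∑ j, H459R3.NS.pd j (fun y => v j y * v i y) x := by
    funext x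
    have e2 : ∀ j, H459R3.NS.pd j (fun y => v j y * v i y) x
        = v j x * H459R3.NS.pd j (v i) x + H459R3.NS.pd j (v j) x * v i x := by
      intro j
      rw [H459R3.NS.pd_mul (hv j) (hv i)]
    simp only [e2]
    rw [Finset.sum_add_distrib, ← Finset.sum_mul, hdiv, zero_mul, add_zero]
    rfl
  rw [e1, H459R3.NS.fr_sum (fun j _ => ((hv j).mul (hv i)).pd j)]
  refine Finset.sum_congr rfl fun j _ => ?_
  rw [H459R3.NS.fr_pd ((hv j).mul (hv i)), H459R3.NS.D, fr_mul (hv j) (hv i)]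
  rfl

lemma fr_lap {f : R3 → ℝ} (hf : SP f) (k : K) :
    fr (H459R3.NS.lap f) k = -((4 * Real.pi ^ 2 * Pool.Agent.H356R3.NS.sq k : ℝ) : ℂ) * fr f k := by
  have e1 : fr (H459R3.NS.lap f) k = ∑ j, fj k j * (fj k j * fr f k) := by
    unfold H459R3.NS.lap
    rw [H459R3.NS.fr_sum fun j _ => (hf.pd j).pd j]
    refine Finset.sum_congr rfl fun j _ => ?_
    rw [H459R3.NS.fr_pd (hf.pd j), H459R3.NS.fr_pd hf]
    rfl
  rw [e1]
  calc ∑ j, fj k j * (fj k j * fr f k) = (∑ j, fj k j * fj k j) * fr f k := by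
        rw [Finset.sum_mul]; exact Finset.sum_congr rfl fun j _ => by ring
    _ = _ := by
        congr 1
        unfold fj Pool.Agent.H356R3.NS.sq
        push_cast
        rw [Finset.mul_sum, ← Finset.sum_neg_distrib]
        refine Finset.sum_congr rfl fun j _ => ?_
        linear_combination (4 * (Real.pi : ℂ) ^ 2 * (k j : ℂ) ^ 2) * Complex.I_mul_I

lemma fr_sub {f g : R3 → ℝ} (hf : SP f) (hg : SP g) (k : K) :
    fr (fun x => f x - g x) k = fr f k - fr g k := by
  unfold H459R3.NS.fr H459R3.NS.fc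
  have c1 : Continuous (fun x => ee (-k) x * (f x : ℂ)) :=
    (H459R3.NS.ee_continuous _).mul (H459R3.NS.contDiff_ofReal hf.smooth).continuous
  have c2 : Continuous (fun x => ee (-k) x * (g x : ℂ)) :=
    (H459R3.NS.ee_continuous _).mul (H459R3.NS.contDiff_ofReal hg.smooth).continuous
  rw [← integral_sub (H459R3.NS.integrableOn_cube c1) (H459R3.NS.integrableOn_cube c2)]
  congr 1
  funext x
  push_cast
  ring

lemma fr_smul {f : R3 → ℝ} (c : ℝ) (k : K) : fr (fun x => c * f x) k = (c : ℂ) * fr f k := by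
  unfold H459R3.NS.fr H459R3.NS.fc
  rw [← integral_const_mul]
  congr 1
  funext x
  push_cast
  ring

lemma fc_fun (v : R3 → R3) : fc v = fun l m => fr (fun y => v y m) l := by
  funext l m
  exact fc_fr v l m

/-- The equation on the Fourier side. -/
theorem ode_coef (h : IsSol ν T u p) {t : ℝ} (ht : t ∈ Ioo 0 T) {k : K} (hk : k ≠ 0) (i : Fin 3) :
    HasDerivAt (fun s => fc (u s) k i)
      (-((4 * Real.pi ^ 2 * ν * Pool.Agent.H356R3.NS.sq k : ℝ) : ℂ) * fc (u t) k i + Bf (fc (u t)) (fc (u t)) k i) t := by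
  have hI : t ∈ Ico 0 T := ⟨ht.1.le, ht.2⟩
  have hsp : ∀ i, SP (fun y => u t y i) := fun i => h.sp hI i
  have hdiv : ∀ x, ∑ i, H459R3.NS.pd i (fun y => u t y i) x = 0 := h.divfree t hI
  -- the derivatives
  have hd : ∀ i, HasDerivAt (fun s => fr (fun y => u s y i) k) (fr (H459R3.NS.dt (fun s y => u s y i) t) k) t :=
    fun i => fr_hasDerivAt (f := fun s y => u s y i)
      (H459R3.NS.mono_Ioo (f := fun s y => u s y i) (h.smooth_c i) (by norm_cast)) ht k
  obtain ⟨A, hA⟩ : ∃ A : Fin 3 → ℂ, A = fun m => ∑ j, fj k j * cv (fc (u t)) (fc (u t)) k j m := ⟨_, rfl⟩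
  have e1 : ∀ i, fr (H459R3.NS.dt (fun s y => u s y i) t) k
      = -((4 * Real.pi ^ 2 * ν * Pool.Agent.H356R3.NS.sq k : ℝ) : ℂ) * fc (u t) k i - A i - fj k i * fr (p t) k := by
    intro i
    have e2 : H459R3.NS.dt (fun s y => u s y i) t = fun x => (ν * H459R3.NS.lap (fun y => u t y i) x
      - H459R3.NS.conv (fun i y => u t y i) i x) - H459R3.NS.pd i (p t) x := by
      funext x
      exact h.dt_eq ht i x
    have s1 : SP (fun x => ν * H459R3.NS.lap (fun y => u t y i) x) :=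
      ⟨contDiff_const.mul (hsp i).lap.smooth, fun j x => by simp only [(hsp i).lap.per j x]⟩
    have s2 : SP (H459R3.NS.conv (fun i y => u t y i) i) := H459R3.NS.sp_conv hsp i
    have s3 : SP (fun x => ν * H459R3.NS.lap (fun y => u t y i) x - H459R3.NS.conv (fun i y => u t y i) i x) :=
      ⟨s1.smooth.sub s2.smooth, fun j x => by simp only [s1.per j x, s2.per j x]⟩
    rw [e2, fr_sub s3 ((h.sp_p hI).pd i), fr_sub s1 s2, fr_smul, fr_lap (hsp i), fr_conv hsp hdiv,
      H459R3.NS.fr_pd (h.sp_p hI), H459R3.NS.D, hA, ← fc_fun, fc_fr]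
    unfold fj
    push_cast
    ring
  have hz : ∑ i, (k i : ℂ) * fr (H459R3.NS.dt (fun s y => u s y i) t) k = 0 := by
    have h1 : HasDerivAt (fun s => ∑ i, (k i : ℂ) * fr (fun y => u s y i) k)
        (∑ i, (k i : ℂ) * fr (H459R3.NS.dt (fun s y => u s y i) t) k) t :=
      HasDerivAt.fun_sum fun i _ => (hd i).const_mul _
    have h2 : HasDerivAt (fun s => ∑ i, (k i : ℂ) * fr (fun y => u s y i) k) 0 t := by
      refine (hasDerivAt_const t (0 : ℂ)).congr_of_eventuallyEq ?_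
      filter_upwards [Ioo_mem_nhds ht.1 ht.2] with s hs
      have hs' : s ∈ Ico 0 T := ⟨hs.1.le, hs.2⟩
      exact H459R3.NS.fr_div (v := fun i y => u s y i) (fun i => h.sp hs' i) (h.divfree s hs') k
    exact h1.unique h2
  have hz0 : ∑ i, (k i : ℂ) * fc (u t) k i = 0 := by
    simp only [fc_fr]
    exact H459R3.NS.fr_div (v := fun i y => u t y i) hsp hdiv k
  have hsq : ((Pool.Agent.H356R3.NS.sq k : ℝ) : ℂ) ≠ 0 := by
    exact_mod_cast (sq_pos hk).ne'
  have hsum : ∑ i, (k i : ℂ) * (k i : ℂ) = ((Pool.Agent.H356R3.NS.sq k : ℝ) : ℂ) := by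
    unfold Pool.Agent.H356R3.NS.sq
    push_cast
    exact Finset.sum_congr rfl fun i _ => by ring
  have hp : 2 * Real.pi * Complex.I * fr (p t) k * ((Pool.Agent.H356R3.NS.sq k : ℝ) : ℂ) = -∑ m, (k m : ℂ) * A m := by
    simp only [e1] at hz
    have e3 : ∑ i, (k i : ℂ) * (-((4 * Real.pi ^ 2 * ν * Pool.Agent.H356R3.NS.sq k : ℝ) : ℂ) * fc (u t) k i - A i
        - fj k i * fr (p t) k) = -((4 * Real.pi ^ 2 * ν * Pool.Agent.H356R3.NS.sq k : ℝ) : ℂ) *
        (∑ i, (k i : ℂ) * fc (u t) k i) - (∑ m, (k m : ℂ) * A m)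
        - 2 * Real.pi * Complex.I * fr (p t) k * ∑ i, (k i : ℂ) * (k i : ℂ) := by
      rw [Finset.mul_sum, Finset.mul_sum, ← Finset.sum_sub_distrib, ← Finset.sum_sub_distrib]
      refine Finset.sum_congr rfl fun i _ => ?_
      unfold fj
      ring
    rw [e3, hz0, hsum] at hz
    linear_combination -hz
  have hB : Bf (fc (u t)) (fc (u t)) k i = -A i + (k i : ℂ) * (∑ m, (k m : ℂ) * A m) / ((Pool.Agent.H356R3.NS.sq k : ℝ) : ℂ) := by
    unfold Bf
    have e4 : ∀ j, ∑ m, coef k i j m * cv (fc (u t)) (fc (u t)) k j m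
        = -(fj k j * cv (fc (u t)) (fc (u t)) k j i)
          + (k i : ℂ) * (∑ m, (k m : ℂ) * (fj k j * cv (fc (u t)) (fc (u t)) k j m)) / ((Pool.Agent.H356R3.NS.sq k : ℝ) : ℂ) := by
      intro j
      have e5 : fj k j * cv (fc (u t)) (fc (u t)) k j i
          = ∑ m, (if m = i then 1 else 0) * (fj k j * cv (fc (u t)) (fc (u t)) k j m) := by simp
      rw [e5, ← Finset.sum_neg_distrib, Finset.mul_sum, Finset.sum_div, ← Finset.sum_add_distrib]
      refine Finset.sum_congr rfl fun m _ => ?_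
      unfold coef fj
      ring
    simp only [e4]
    rw [Finset.sum_add_distrib, Finset.sum_neg_distrib, hA]
    congr 1
    rw [← Finset.sum_div, ← Finset.mul_sum]
    congr 2
    rw [Finset.sum_comm]
    exact Finset.sum_congr rfl fun m _ => by rw [Finset.mul_sum]
  have h1 := hd i
  simp only [← fc_fr] at h1
  refine h1.congr_deriv ?_
  rw [e1, hB]
  have e6 : fj k i * fr (p t) k = -((k i : ℂ) * (∑ m, (k m : ℂ) * A m) / ((Pool.Agent.H356R3.NS.sq k : ℝ) : ℂ)) := by
    rw [← neg_div, eq_div_iff hsq]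
    unfold fj
    linear_combination (k i : ℂ) * hp
  rw [e6]
  ring

end

end Pool.Agent.H356R3.NS.X
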