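import Pool.Agent.H3NY.X.BlockP
import Pool.Agent.H3NY.X.Energy

namespace Pool.Agent.H356R3.NS
end Pool.Agent.H356R3.NS
namespace Pool.Agent.H356R3.NS.H3
end Pool.Agent.H356R3.NS.H3
namespace Pool.Agent.H356R3.NS.X
end Pool.Agent.H356R3.NS.X
namespace Pool.Agent.H3NS
end Pool.Agent.H3NS
namespace H459R3.NS
end H459R3.NS

set_option autoImplicit false
set_option maxHeartbeats 4000000
set_option synthInstance.maxHeartbeats 400000

/-!
Blocks of infinite length.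
-/

open MeasureTheory Set Filter Topology
open scoped ENNReal NNReal ContDiff

namespace Pool.Agent.H356R3.NS.X

open Pool.Agent.H3NS
open H459R3.NS (fr ee SP IsSol cube)

section
variable {ν : ℝ} {w : ℝ → R3 → R3} {q : ℝ → R3 → ℝ} {O : Set ℝ} {m : E3}

lemma yv_eq_yb {τ H0 t : ℝ} (hH : 0 ≤ H0) (ht : t ≤ H0) (k : K) :
    yv m (fun s => w (τ + s)) k t = yb m w τ H0 k t := by
  have : clt H0 t = max t 0 := min_eq_left (max_le ht hH)
  unfold yv yb
  rw [this]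

/-- the path from the time `τ` on, in the moving frame -/
theorem glob_GS (hν : 0 < ν) (hw : ∀ T : ℝ, PathH T w m) (hO : IsOpen O) (hO0 : O ⊆ Ici 0) (hs : SolOn ν O w q)
    {τ : ℝ} (hτ : 0 ≤ τ) (hsub : Ioi τ ⊆ O) : GS0 (4 * Real.pi ^ 2 * ν) (yv m fun s => w (τ + s)) := by
  have hc : 0 < 4 * Real.pi ^ 2 * ν := by positivity
  obtain ⟨y, hy⟩ : ∃ y, y = yv m fun s => w (τ + s) := ⟨_, rfl⟩
  have hloc : ∀ H0 : ℝ, 0 ≤ H0 → ∀ t ≤ H0, ∀ k, y k t = yb m w τ H0 k t := fun H0 hH t ht k => by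
    rw [hy]; exact yv_eq_yb hH ht k
  -- the block facts
  have hBF : ∀ H0 : ℝ, 0 < H0 → ∃ C : ℝ, 0 ≤ C ∧
      BF (4 * Real.pi ^ 2 * ν) C 4 H0 (yb m w τ H0) (gb (4 * Real.pi ^ 2 * ν) m w τ H0) := by
    intro H0 hH
    obtain ⟨C, hC, h1⟩ := path_BF (hw (τ + H0 + 1)).sv (hw (τ + H0 + 1)).dv hc.le m
      (show τ + H0 < τ + H0 + 1 by linarith) 4
    exact ⟨C, hC, h1 τ H0 hτ hH le_rfl⟩
  have hlb : LB y := by
    intro T
    obtain ⟨H0, hH0⟩ : ∃ H0, H0 = max T 0 + 1 := ⟨_, rfl⟩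
    have h1 : 0 < H0 := by rw [hH0]; have := le_max_right T 0; linarith
    have h2 : T ≤ H0 := by rw [hH0]; have := le_max_left T 0; linarith
    obtain ⟨C, hC, hB⟩ := hBF H0 h1
    exact ⟨C, hC, fun t ht k => by rw [hloc H0 h1.le t (ht.trans h2) k]; exact hB.yb k t⟩
  have hcf : CF y := by
    intro k
    rw [continuous_iff_continuousAt]
    intro t
    obtain ⟨H0, hH0⟩ : ∃ H0, H0 = max t 0 + 1 := ⟨_, rfl⟩
    have h1 : 0 < H0 := by rw [hH0]; have := le_max_right t 0; linarith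
    have h2 : t < H0 := by rw [hH0]; have := le_max_left t 0; linarith
    obtain ⟨C, hC, hB⟩ := hBF H0 h1
    refine ((hB.cf k).continuousAt (x := t)).congr ?_
    filter_upwards [gt_mem_nhds h2] with s hs'
    exact (hloc H0 h1.le s (le_of_lt hs') k).symm
  have hBt : ∀ H0 : ℝ, 0 ≤ H0 → ∀ t ≤ H0, ∀ k, Bt y k t = Bt (yb m w τ H0) k t := by
    intro H0 hH t ht k
    show Bf (at' y t) (at' y t) k = Bf _ _ k
    have e : at' y t = at' (yb m w τ H0) t := funext fun l => hloc H0 hH t ht l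
    rw [e]
  have hcB : CF (Bt y) := by
    intro k
    rw [continuous_iff_continuousAt]
    intro t
    obtain ⟨H0, hH0⟩ : ∃ H0, H0 = max t 0 + 1 := ⟨_, rfl⟩
    have h1 : 0 < H0 := by rw [hH0]; have := le_max_right t 0; linarith
    have h2 : t < H0 := by rw [hH0]; have := le_max_left t 0; linarith
    obtain ⟨C, hC, hB⟩ := hBF H0 h1
    refine (((Bt_cont hB.cf (BF.dom hC le_rfl hB)) k).continuousAt (x := t)).congr ?_
    filter_upwards [gt_mem_nhds h2] with s hs'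
    exact (hBt H0 h1.le s (le_of_lt hs') k).symm
  have hz : ∀ t, y 0 t = 0 := fun t => by rw [hy]; exact yv_zero m _ t
  have hder : ∀ k t, 0 < t → HasDerivAt (y k) (-((4 * Real.pi ^ 2 * ν) * sq k) • y k t + Bt y k t) t := by
    intro k t ht
    obtain ⟨H0, hH0⟩ : ∃ H0, H0 = t + 1 := ⟨_, rfl⟩
    have h1 : 0 ≤ H0 := by rw [hH0]; linarith
    have h2 : t < H0 := by rw [hH0]; linarith
    have h3 := yb_deriv (hw (τ + H0 + 1)).sv hτ (show τ + H0 < τ + H0 + 1 by linarith) (4 * Real.pi ^ 2 * ν) m k ht h2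
    have h4 := gb_eq (O := O ∩ Iio (τ + H0 + 1)) (hw (τ + H0 + 1)).sv (hw (τ + H0 + 1)).dv (hw (τ + H0 + 1)).mn
      (hO.inter isOpen_Iio) (fun s hs' => ⟨hO0 hs'.1, hs'.2⟩) (hs.mono inter_subset_left) hτ
      (show τ + H0 < τ + H0 + 1 by linarith) ht h2.le ⟨hsub (show τ < τ + t by linarith), show τ + t < _ by linarith⟩
    have h5 : gb (4 * Real.pi ^ 2 * ν) m w τ H0 k t = Bt y k t := by
      rw [hBt H0 h1 t h2.le k]
      exact congrFun h4 k
    rw [h5, ← hloc H0 h1 t h2.le k] at h3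
    refine h3.congr_of_eventuallyEq ?_
    filter_upwards [gt_mem_nhds h2] with s hs'
    exact hloc H0 h1 s (le_of_lt hs') k
  have heqn : Eqn (4 * Real.pi ^ 2 * ν) (at' y 0) (Bt y) y := eqn_of_deriv hcf hcB hder fun k t ht => by
    rw [hy]
    simp only [yv, max_eq_right ht, max_self]
  -- the tail
  have hglob : Glob ν (fun s => w (τ + 1 + s)) (fun s => q (τ + 1 + s)) := by
    intro T
    have hsub' : ∀ s ∈ Ico 0 T, τ + 1 + s ∈ O := fun s hs' => hsub (show τ < τ + 1 + s by linarith [hs'.1])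
    have h1 := SV.mono' (D' := Ico 0 T) (SV.shift' (hw (τ + 1 + T)).sv (τ + 1)) fun s hs' =>
      ⟨by linarith [hs'.1], by linarith [hs'.2]⟩
    have h2 := (hs.shift (τ + 1)).mono (O' := Ico 0 T) fun s hs' => hsub' s hs'
    refine ⟨contDiffOn_pi.2 fun i => h1.sm i, h2.smooth_q, fun t ht => ?_, fun t ht => ?_,
      fun t ht x => (hw (τ + 1 + T)).dv _ ⟨by linarith [ht.1], by linarith [ht.2]⟩ x,
      fun t ht x i => h2.mom t ⟨ht.1.le, ht.2⟩ x i⟩
    · exact fun i x => h1.per t ht x i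
    · exact fun i x => h2.per_q t ht x i
  have hl2 : LN (fun t => NW (Wa 0) (at' y t)) ≠ ⊤ := by
    have hC := C0_pos
    obtain ⟨Y0, hY0⟩ : ∃ Y0, Y0 = 4 * Real.pi ^ 2 * ν / (8 * C0) := ⟨_, rfl⟩
    have hY : 0 < Y0 := by rw [hY0]; positivity
    obtain ⟨H, hH, hHV⟩ := small_leilin hν hglob m hY
    refine late_l2 hc hlb hcf hcB hz heqn hY ?_ (show 0 ≤ 1 + H by linarith) ?_
    · rw [hY0]
      apply le_of_eq
      field_simp
    · refine le_trans (le_of_eq ?_) hHV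
      unfold NW
      refine tsum_congr fun k => ?_
      have e1 : at' y (1 + H) k = ph m (-(1 + H)) (nz (fc (w (τ + (1 + H))))) k := by
        rw [hy]
        show ph m (-(max (1 + H) 0)) (nz (fc (w (τ + max (1 + H) 0)))) k = _
        rw [max_eq_left (show 0 ≤ 1 + H by linarith)]
      have e2 : at' (yv m fun s => w (τ + 1 + s)) H k = ph m (-H) (nz (fc (w (τ + 1 + H)))) k := by
        show ph m (-(max H 0)) (nz (fc (w (τ + 1 + max H 0)))) k = _
        rw [max_eq_left hH]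
      rw [e1, e2, enorm_ph, enorm_ph, add_assoc]
  rw [← hy]
  refine ⟨hc, hlb, hcf, hcB, hz, heqn, hl2, ?_, fun k t => ?_⟩
  · rw [hy]; exact yv_sym m _
  · obtain ⟨H0, hH0⟩ : ∃ H0, H0 = max t 0 + 1 := ⟨_, rfl⟩
    have h1 : 0 < H0 := by rw [hH0]; have := le_max_right t 0; linarith
    have h2 : t ≤ H0 := by rw [hH0]; have := le_max_left t 0; linarith
    rw [hloc H0 h1.le t h2 k]
    exact yb_div (hw (τ + H0 + 1)).sv (hw (τ + H0 + 1)).dv hτ h1 (show τ + H0 < τ + H0 + 1 by linarith) m k t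

/-- The last block. -/
theorem block_inf {ga : ℝ → ℝ} (hga : Gau ga) (hν : 0 < ν) (hw : ∀ T : ℝ, PathH T w m) (hO : IsOpen O) (hO0 : O ⊆ Ici 0) (hs : SolOn ν O w q)
    {τ : ℝ} (hτ : 0 ≤ τ) (hsub : Ioi τ ⊆ O) {r p : ℝ} (hr : 2 < r) (hp1 : 1 ≤ p) (hp2 : p < 2) {δ ε : ℝ}
    (hδ : 0 < δ) (hε : 0 < ε) (s : ℕ) (a : K → C3) (has : Sym a) (had : ∀ k, dt k (a k) = 0)
    (ham : ∀ i, a 0 i = (m i : ℂ)) :
    ∃ u P, PB ga ν w τ (Ioi τ) a r p δ δ (ENNReal.ofReal ε) ε s u P := by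
  have hG := glob_GS hν hw hO hO0 hs hτ hsub
  obtain ⟨y, hy⟩ : ∃ y, y = yv m fun s => w (τ + s) := ⟨_, rfl⟩
  rw [← hy] at hG
  obtain ⟨e, he⟩ : ∃ e, e = min (ε / 2) (ε ^ (1 / p)) := ⟨_, rfl⟩
  have hp0 : 0 < p := by linarith
  have he0 : 0 < e := by rw [he]; positivity
  have he1 : 2 * e ≤ ε := by
    have : e ≤ ε / 2 := by rw [he]; exact min_le_left _ _
    linarith
  have he2 : e ^ p ≤ ε := by
    calc e ^ p ≤ (ε ^ (1 / p)) ^ p := Real.rpow_le_rpow he0.le (by rw [he]; exact min_le_right _ _) hp0.le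
      _ = ε := by rw [← Real.rpow_mul hε.le, one_div_mul_cancel hp0.ne', Real.rpow_one]
  obtain ⟨n0, n1, n2⟩ := nz_props has had
  obtain ⟨u, hu⟩ := coreY hga.half hG n0 n1 n2 hr hp1 hp2 hδ he0 s
  have hGG := hu.toG hp0 hG.z
  have hysn : ∀ t, SN (at' y t) := fun t => hG.lb.sn t
  have hGL : OutG (fun t => ga t / 2) (4 * Real.pi ^ 2 * ν) (nz a) y (Ioi 0) r p δ δ (ENNReal.ofReal ε) e s u :=
    ⟨hGG.cf, hGG.reg, hGG.sym, hGG.z, hGG.sn, hGG.att, hGG.lq, hGG.lp.trans (by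
      rw [ENNReal.ofReal_rpow_of_nonneg he0.le hp0.le]
      exact ENNReal.ofReal_le_ofReal he2), hGG.cm, hGG.cl, hGG.cr, hGG.nl, hGG.kt, hGG.kg⟩
  have key := pb_of hga (τ := τ) (w := w) (J0 := Ioi 0) subset_rfl measurableSet_Ioi ham (by linarith : 1 ≤ r) hp0
    he0 he1 hGL (fun t ht => ?_) (fun t _ => hysn t) (by rw [hy]; exact yv_sym m _) hG.z ?_
  · have e1 : {t | t - τ ∈ Ioi 0} = Ioi τ := by
      ext t
      simp only [mem_Ioi, mem_ofPred_eq, sub_pos]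
    rw [e1] at key
    exact ⟨_, _, key⟩
  · have ht0 : 0 < t := ht
    have hI : τ + t ∈ Ico 0 (τ + t + 1) := ⟨by linarith, by linarith⟩
    refine fld_of_fc (fun i => SV.sp (hw (τ + t + 1)).sv hI i) ((hw (τ + t + 1)).mn _ hI) (fun k hk i => ?_)
      (hG.z t) (hysn t)
    rw [hy]
    show nz (fc (w (τ + max t 0))) k i * ex k (-((-(max t 0)) • m)) = _
    rw [max_eq_left ht0.le]
    unfold nz
    rw [if_neg hk, neg_smul, neg_neg]
  · rw [hy]
    have := yv_at_zero m fun s => w (τ + s)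
    rw [this, add_zero]

end

end Pool.Agent.H356R3.NS.X
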