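import Pool.Agent.H3NY.R.Fix
import Pool.Agent.H3NY.R.Reg3
import Pool.Agent.H3NY.R.Reg4

namespace Pool.Agent.H356R3.NS
end Pool.Agent.H356R3.NS
namespace Pool.Agent.H356R3.NS.H3
end Pool.Agent.H356R3.NS.H3
namespace Pool.Agent.H356R3.NS.X
end Pool.Agent.H356R3.NS.X
namespace Pool.Agent.H3NS
end Pool.Agent.H3NS
namespace H459R3.NS
end H459R3.NS

set_option autoImplicit false
set_option maxHeartbeats 4000000
set_option synthInstance.maxHeartbeats 400000

open MeasureTheory Set Filter Topology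
open scoped ENNReal NNReal ContDiff

namespace Pool.Agent.H356R3.NS.X

open Pool.Agent.H3NS

/-- bounded smooth functions of time -/
def TF : ℕ → (ℝ → ℝ) → Prop
  | 0, φ => Continuous φ ∧ ∃ C, ∀ t, |φ t| ≤ C
  | n + 1, φ => (Continuous φ ∧ ∃ C, ∀ t, |φ t| ≤ C) ∧ ∃ φ' : ℝ → ℝ, (∀ t, HasDerivAt φ (φ' t) t) ∧ TF n φ'

lemma TF.pred : ∀ {n : ℕ} {φ : ℝ → ℝ}, TF (n + 1) φ → TF n φ := by
  intro n
  induction n with
  | zero => intro c h; exact h.1
  | succ n ih =>
    intro c h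
    obtain ⟨h1, c', h3, h4⟩ := h
    exact ⟨h1, c', h3, ih h4⟩

lemma TF.const (n : ℕ) : ∀ a : ℝ, TF n fun _ => a := by
  induction n with
  | zero => intro a; exact ⟨continuous_const, |a|, fun _ => le_rfl⟩
  | succ n ih => intro a; exact ⟨⟨continuous_const, |a|, fun _ => le_rfl⟩, fun _ => 0, fun t => hasDerivAt_const _ _, ih 0⟩

lemma TF.shift {n : ℕ} (δ : ℝ) : ∀ {φ : ℝ → ℝ}, TF n φ → TF n fun t => φ (δ + t) := by
  induction n with
  | zero =>
    intro φ h
    obtain ⟨h1, C, h2⟩ := h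
    exact ⟨h1.comp (continuous_const.add continuous_id), C, fun t => h2 _⟩
  | succ n ih =>
    intro φ h
    obtain ⟨⟨h1, C, h2⟩, φ', h3, h4⟩ := h
    refine ⟨⟨h1.comp (continuous_const.add continuous_id), C, fun t => h2 _⟩, fun t => φ' (δ + t), fun t => ?_, ih h4⟩
    exact HasDerivAt.comp_const_add δ t (h3 (δ + t))

lemma RD.smulT {φ : ℝ → ℝ} (hφ : ∃ C, ∀ t, |φ t| ≤ C) {c : SFam} (hc : RD c) :
    RD (fun k t => (φ t : ℂ) * c k t) := by
  obtain ⟨C, hC⟩ := hφ
  intro m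
  obtain ⟨b, hb, h⟩ := hc m
  refine ⟨fun k => |C| * b k, hb.mul_left _, fun k t => ?_⟩
  rw [norm_mul, Complex.norm_real, Real.norm_eq_abs]
  have hp := pow_pos (pw_pos k) m
  calc pw k ^ m * (|φ t| * ‖c k t‖) = |φ t| * (pw k ^ m * ‖c k t‖) := by ring
    _ ≤ |C| * (pw k ^ m * ‖c k t‖) := by
        apply mul_le_mul_of_nonneg_right _ (by positivity)
        exact (hC t).trans (le_abs_self C)
    _ ≤ _ := mul_le_mul_of_nonneg_left (h k t) (abs_nonneg _)

lemma TT.smulT {n : ℕ} : ∀ {φ : ℝ → ℝ} {c : SFam}, TF n φ → TT n c → TT n (fun k t => (φ t : ℂ) * c k t) := by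
  induction n with
  | zero =>
    intro φ c hφ hc
    refine ⟨RD.smulT hφ.2 hc.1, fun k => ?_⟩
    exact (Complex.continuous_ofReal.comp hφ.1).mul (hc.2 k)
  | succ n ih =>
    intro φ c hφ hc
    have hφ0 := hφ.pred
    have hc0 := hc.pred
    obtain ⟨p1, φ', p2, p3⟩ := hφ
    obtain ⟨h1, h2, c', h3, h4⟩ := hc
    refine ⟨RD.smulT p1.2 h1, fun k => (Complex.continuous_ofReal.comp p1.1).mul (h2 k),
      _, fun k t ht => (p2 t).ofReal_comp.fun_mul (h3 k t ht), (ih p3 hc0).add (ih hφ0 h4)⟩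

/-- the time derivative on the Fourier side, with a cut-off -/
noncomputable def dX (c : ℝ) (φ : ℝ → ℝ) (u : Fam) (i : Fin 3) : SFam := fun k t =>
  (-((c * sq k : ℝ) : ℂ)) * u k t i + (φ t : ℂ) * ∑ j, ∑ m, coef k i j m *
    cvv (fun k t => u k t j) (fun k t => u k t m) k t

lemma TT_dX {c : ℝ} {φ : ℝ → ℝ} {u : Fam} {n : ℕ} (hφ : TF n φ) (h : ∀ i, TT n (cf' u i)) (i : Fin 3) :
    TT n (dX c φ u i) := by
  unfold dX
  refine TT.add (TT.mul (norm_sq_le c) (h i)) ?_
  refine TT.smulT hφ (TT.sum _ fun j _ => TT.sum _ fun m _ => ?_)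
  refine TT.mul (C := 4 * Real.pi) (r := 1) (fun k => ?_) ((h j).conv (h m))
  refine (norm_coef_le k i j m).trans ?_
  rw [pow_one]
  exact mul_le_mul_of_nonneg_left (nk_le_pw k) (by positivity)

lemma dX_one {c : ℝ} {φ : ℝ → ℝ} (u : Fam) (i : Fin 3) (k : K) {t : ℝ} (h : φ t = 1) :
    dX c φ u i k t = dU c u i k t := by
  unfold dX dU
  rw [h, Complex.ofReal_one, one_mul]

/-- A regular family. -/
structure RegF (c : ℝ) (φ : ℝ → ℝ) (y : Fam) : Prop where
  rd : ∀ i, RD (cf' y i)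
  ct : CF y
  tf : ∀ n, TF n φ
  der : ∀ i k t, 0 < t → HasDerivAt (fun t => y k t i) (dX c φ y i k t) t
  sym : SymF y
  dv : ∀ k t, dt k (y k t) = 0

lemma RegF.TT {c : ℝ} {φ : ℝ → ℝ} {y : Fam} (h : RegF c φ y) (n : ℕ) : ∀ i, TT n (cf' y i) := by
  have hc : ∀ i k, Continuous fun t => y k t i := fun i k => (continuous_apply i).comp (h.ct k)
  induction n with
  | zero => intro i; exact ⟨h.rd i, hc i⟩
  | succ n ih => intro i; exact ⟨h.rd i, hc i, dX c φ y i, fun k t ht => h.der i k t ht, TT_dX (h.tf n) ih i⟩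

theorem physX {ν : ℝ} {φ : ℝ → ℝ} {u : Fam} (h : RegF (4 * Real.pi ^ 2 * ν) φ u) (m : E3) {t : ℝ} (ht : 0 ≤ t)
    (h1 : φ t = 1) (x : E3) (i : Fin 3) :
    derivWithin (fun s => m i + (GS m (cf' u i) s x).re) (Ici 0) t
      + ∑ j, (m j + (GS m (cf' u j) t x).re) * pd j (fun y => m i + (GS m (cf' u i) t y).re) x
      = ν * ∑ j, pd j (pd j fun y => m i + (GS m (cf' u i) t y).re) x - pd i (fun x => (GS m (PF u) t x).re) x := by
  have hT : ∀ n i, TT n (cf' u i) := fun n i => h.TT n i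
  have hP : ∀ n, TT n (PF u) := fun n => TT_PF (hT n)
  have hdT : ∀ n i, TT n (dX (4 * Real.pi ^ 2 * ν) φ u i) := fun n i => TT_dX (h.tf n) (hT n) i
  have hdT' : ∀ n i, TT n (dU (4 * Real.pi ^ 2 * ν) u i) := fun n i => TT_dU (hT n) i
  have hsym : ∀ i k t, cf' u i (-k) t = star (cf' u i k t) := fun i k t => h.sym t k i
  have hdiv := h.dv
  have hre : ∀ i t x, (GS m (cf' u i) t x).im = 0 := fun i t x => SF_real (hsym i) _
  have hd0 : HasDerivWithinAt (fun s => m i + (GS m (cf' u i) s x).re)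
      (GS m (dU (4 * Real.pi ^ 2 * ν) u i) t x
        + ∑ j, GS m (dS j (cf' u i)) t x * (-(m j) : ℝ)).re (Ici 0) t := by
    have h1' := GS_dt m (hT 1 i) (fun k t ht => h.der i k t ht) (hdT 0 i) ht x
    have h2 := (Complex.reCLM.hasFDerivAt.comp_hasDerivWithinAt t h1').const_add (m i)
    have e : GS m (dX (4 * Real.pi ^ 2 * ν) φ u i) t x = GS m (dU (4 * Real.pi ^ 2 * ν) u i) t x := by
      unfold GS SF
      refine tsum_congr fun k => ?_
      show dX _ φ u i k t * _ = dU _ u i k t * _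
      rw [dX_one u i k h1]
    rw [e] at h2
    exact h2
  have hd := hd0.derivWithin (uniqueDiffOn_Ici (0 : ℝ) t ht)
  have e1 : ∀ j, pd j (fun y => m i + (GS m (cf' u i) t y).re) = fun x => (GS m (dS j (cf' u i)) t x).re :=
    fun j => funext fun x => pd_GS m (hT 1 i) ht (m i) j x
  have e2 : ∀ j, pd j (fun x => (GS m (dS j (cf' u i)) t x).re) x = (GS m (dS j (dS j (cf' u i))) t x).re :=
    fun j => pd_GS' m ((hT 1 i).dS j) ht j x
  have e3 : pd i (fun x => (GS m (PF u) t x).re) x = (GS m (dS i (PF u)) t x).re := pd_GS' m (hP 1) ht i x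
  rw [hd]
  simp only [e1, e2, e3]
  have key : GS m (dU (4 * Real.pi ^ 2 * ν) u i) t x + ∑ j, GS m (cf' u j) t x * GS m (dS j (cf' u i)) t x
      = (ν : ℂ) * ∑ j, GS m (dS j (dS j (cf' u i))) t x + (-1) * GS m (dS i (PF u)) t x := by
    have hU : ∀ i, RD (cf' u i) := fun i => (hT 0 i).rd
    have hdS : ∀ j, RD (dS j (cf' u i)) := fun j => ((hT 0 i).dS j).rd
    have hdd : ∀ j, RD (dS j (dS j (cf' u i))) := fun j => (((hT 0 i).dS j).dS j).rd
    have hdP : RD (dS i (PF u)) := ((hP 0).dS i).rd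
    have hcv : ∀ j, RD (cvv (cf' u j) (dS j (cf' u i))) := fun j => (hU j).conv (hdS j)
    have hsum1 : RD fun k t => ∑ j, cvv (cf' u j) (dS j (cf' u i)) k t :=
      (TT.sum (n := 0) Finset.univ fun j _ => (hT 0 j).conv ((hT 0 i).dS j)).rd
    have hsum2 : RD fun k t => ∑ j, dS j (dS j (cf' u i)) k t :=
      (TT.sum (n := 0) Finset.univ fun j _ => ((hT 0 i).dS j).dS j).rd
    have hone : ∀ (z : ℂ) {c : SFam}, RD c → RD fun k t => z * c k t := fun z c hc =>
      hc.mul (C := ‖z‖) (r := 0) (p := fun _ => z) fun k => by simp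
    unfold GS
    have m1 : ∀ j, SF (cf' u j) (t, x - t • m) * SF (dS j (cf' u i)) (t, x - t • m)
        = SF (cvv (cf' u j) (dS j (cf' u i))) (t, x - t • m) := fun j => SF_mul (hU j) (hdS j) _
    simp only [m1]
    rw [← SF_sum hcv, ← SF_sum hdd, ← SF_const_mul, ← SF_const_mul, ← SF_add (hdT' 0 i).rd hsum1,
      ← SF_add (hone _ hsum2) (hone _ hdP)]
    congr 1
    funext k t
    exact fourier_eq hU hdiv i k t
  have keyre := congrArg Complex.re key
  simp only [Complex.add_re, Complex.re_sum, Complex.mul_re, hre, Complex.ofReal_re, Complex.ofReal_im,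
    Complex.neg_re, Complex.one_re, Complex.neg_im, Complex.one_im] at keyre ⊢
  have e4 : ∑ j, (m j + (GS m (cf' u j) t x).re) * (GS m (dS j (cf' u i)) t x).re
      = ∑ j, m j * (GS m (dS j (cf' u i)) t x).re
        + ∑ j, (GS m (cf' u j) t x).re * (GS m (dS j (cf' u i)) t x).re := by
    rw [← Finset.sum_add_distrib]; exact Finset.sum_congr rfl fun j _ => by ring
  have e5 : ∑ j, ((GS m (dS j (cf' u i)) t x).re * -m j - (GS m (dS j (cf' u i)) t x).im * 0)
      = -∑ j, m j * (GS m (dS j (cf' u i)) t x).re := by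
    rw [← Finset.sum_neg_distrib]; exact Finset.sum_congr rfl fun j _ => by ring
  rw [e4, e5]
  simp only [zero_mul, sub_zero, neg_zero] at keyre
  linarith

theorem phys_divX {ν : ℝ} {φ : ℝ → ℝ} {u : Fam} (h : RegF (4 * Real.pi ^ 2 * ν) φ u) (m : E3) {t : ℝ} (ht : 0 ≤ t)
    (x : E3) : ∑ i, pd i (fun y => m i + (GS m (cf' u i) t y).re) x = 0 := by
  have hT : ∀ n i, TT n (cf' u i) := fun n i => h.TT n i
  have e1 : ∀ i, pd i (fun y => m i + (GS m (cf' u i) t y).re) x = (GS m (dS i (cf' u i)) t x).re :=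
    fun i => pd_GS m (hT 1 i) ht (m i) i x
  simp only [e1]
  rw [← Complex.re_sum]
  have : ∑ i, GS m (dS i (cf' u i)) t x = 0 := by
    unfold GS
    rw [← SF_sum fun i => ((hT 0 i).dS i).rd]
    have h0 : (fun k t => ∑ j, dS j (cf' u j) k t) = fun _ _ => (0 : ℂ) := by
      funext k t
      have := h.dv k t
      unfold dt at this
      unfold dS fj cf'
      calc ∑ j, 2 * Real.pi * Complex.I * (k j : ℂ) * u k t j
          = 2 * Real.pi * Complex.I * ∑ j, (k j : ℂ) * u k t j := by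
            rw [Finset.mul_sum]; exact Finset.sum_congr rfl fun j _ => by ring
        _ = 0 := by rw [this, mul_zero]
    rw [h0]
    simp [SF]
  rw [this]; rfl

end Pool.Agent.H356R3.NS.X
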