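import Pool.Agent.H3NY.X.Lim2
import Pool.Agent.H3NY.X.RegX

namespace Pool.Agent.H356R3.NS
end Pool.Agent.H356R3.NS
namespace Pool.Agent.H356R3.NS.H3
end Pool.Agent.H356R3.NS.H3
namespace Pool.Agent.H356R3.NS.X
end Pool.Agent.H356R3.NS.X
namespace Pool.Agent.H3NS
end Pool.Agent.H3NS
namespace H459R3.NS
end H459R3.NS

set_option autoImplicit false
set_option maxHeartbeats 4000000
set_option synthInstance.maxHeartbeats 400000

open MeasureTheory Set Filter Topology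
open scoped ENNReal NNReal ContDiff

namespace Pool.Agent.H356R3.NS.X

open Pool.Agent.H3NS

lemma one_le_nk' {k : K} (hk : k ≠ 0) : 1 ≤ nk k := by
  unfold nk
  rw [Real.one_le_sqrt]
  exact one_le_sq hk

lemma pw_le_nk {k : K} (hk : k ≠ 0) : pw k ≤ 4 * nk k := by
  have h1 := one_le_nk' hk
  have h2 : l1 k ≤ 3 * nk k := by
    unfold l1
    calc ∑ i, |(k i : ℝ)| ≤ ∑ _i : Fin 3, nk k := Finset.sum_le_sum fun i _ => abs_le_nk k i
      _ = _ := by simp
  unfold pw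
  linarith

lemma rd_of_ws {y : Fam} (h0 : ∀ t, y 0 t = 0)
    (h : ∀ s : ℕ, ∃ B : ℝ, 0 ≤ B ∧ ∀ t, NW (ws s) (at' y t) ≤ ENNReal.ofReal B) (i : Fin 3) : RD (cf' y i) := by
  intro m
  obtain ⟨B, hB, hb⟩ := h (m + 4)
  refine ⟨fun k => (4 ^ m * B) * (1 / nk k) ^ 4, summ_nk4.mul_left _, fun k t => ?_⟩
  by_cases hk : k = 0
  · subst hk
    have : cf' y i 0 t = 0 := by unfold cf'; rw [h0]; rfl
    rw [this, norm_zero, mul_zero]
    positivity
  have hn := nk_pos hk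
  have h1 : ‖cf' y i k t‖ ≤ B * (1 / nk k) ^ (m + 4) :=
    (norm_le_pi_norm (y k t) i).trans (norm_le_of_ws (h0 t) hB (hb t) k)
  have h2 : pw k ^ m ≤ (4 * nk k) ^ m := pow_le_pow_left₀ (pw_pos k).le (pw_le_nk hk) m
  calc pw k ^ m * ‖cf' y i k t‖ ≤ (4 * nk k) ^ m * (B * (1 / nk k) ^ (m + 4)) :=
        mul_le_mul h2 h1 (norm_nonneg _) (by positivity)
    _ = _ := by
        rw [mul_pow, pow_add]
        have : nk k ^ m * (1 / nk k) ^ m = 1 := by
          rw [← mul_pow, mul_one_div_cancel hn.ne', one_pow]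
        calc 4 ^ m * nk k ^ m * (B * ((1 / nk k) ^ m * (1 / nk k) ^ 4))
            = 4 ^ m * B * (nk k ^ m * (1 / nk k) ^ m) * (1 / nk k) ^ 4 := by ring
          _ = _ := by rw [this, mul_one]

lemma dom_of_ws {y : Fam} (h0 : ∀ t, y 0 t = 0)
    (h : ∀ s : ℕ, ∃ B : ℝ, 0 ≤ B ∧ ∀ t, NW (ws s) (at' y t) ≤ ENNReal.ofReal B) : Dom y := by
  obtain ⟨B, hB, hb⟩ := h 4
  exact ⟨fun k => B * (1 / nk k) ^ 4, summ_nk4.mul_left _, fun k t => norm_le_of_ws (h0 t) hB (hb t) k⟩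

lemma solX_div {χ : ℝ → ℝ} (hχ : CutT χ) {c a : ℝ} (ha : 0 < a) {V : K → C3} {u : Fam}
    (hV : ∀ k, dt k (V k) = 0) (h : SolX χ c a V u) (k : K) (t : ℝ) : dt k (u k t) = 0 := by
  have hBc := Bx_cont hχ h.cf (h.dom' ha)
  let L : C3 →L[ℝ] ℂ := ∑ j, ((k j : ℝ) • (ContinuousLinearMap.proj (R := ℝ) (φ := fun _ : Fin 3 => ℂ) j))
  have hL : ∀ v, L v = dt k v := by
    intro v
    simp [L, dt]
  rw [h.eq k t, ← hL, map_add, map_smul]
  have h1 : L (V k) = 0 := by rw [hL, hV]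
  have h2 : L (Duh c (Bx χ u) k t) = 0 := by
    unfold Duh
    rw [← ContinuousLinearMap.intervalIntegral_comp_comm]
    · have : ∀ s, L (Real.exp (-(c * sq k * (max t 0 - s))) • Bx χ u k s) = 0 := by
        intro s
        rw [map_smul]
        show _ • L (χ s • Bt u k s) = 0
        rw [map_smul, hL]
        have : dt k (Bt u k s) = 0 := Bf_div _ _ k
        rw [this, smul_zero, smul_zero]
      simp [this]
    · have := hBc k
      exact (by fun_prop : Continuous fun s => Real.exp (-(c * sq k * (max t 0 - s))) • Bx χ u k s).intervalIntegrable _ _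
  rw [h1, h2]; simp

/-- Regularity from Duhamel's formula and bounds in all polynomial weights. -/
lemma regF_of_eqn {c : ℝ} {φ : ℝ → ℝ} (hφ : ∀ n, TF n φ) {V : K → C3} {G y : Fam} (hy : CF y) (hG : CF G)
    (h0 : ∀ t, y 0 t = 0) (h : ∀ s : ℕ, ∃ B : ℝ, 0 ≤ B ∧ ∀ t, NW (ws s) (at' y t) ≤ ENNReal.ofReal B)
    (hGe : ∀ k t, 0 < t → G k t = φ t • Bt y k t) (he : Eqn c V G y) (hs : SymF y)
    (hd : ∀ k t, dt k (y k t) = 0) : RegF c φ y := by
  refine ⟨rd_of_ws h0 h, hy, hφ, fun i k t ht => ?_, hs, hd⟩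
  have h1 : HasDerivAt (fun t => Real.exp (-(c * sq k * max t 0)) • V k)
      ((Real.exp (-(c * sq k * t)) * -(c * sq k)) • V k) t := by
    have h2 : HasDerivAt (fun u => Real.exp (-(c * sq k * u))) (Real.exp (-(c * sq k * t)) * -(c * sq k)) t := by
      have : HasDerivAt (fun u : ℝ => -(c * sq k * u)) (-(c * sq k)) t := by
        simpa using ((hasDerivAt_id' t).const_mul (c * sq k)).fun_neg
      exact this.exp
    refine (h2.smul_const (V k)).congr_of_eventuallyEq ?_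
    filter_upwards [lt_mem_nhds ht] with v hv
    rw [max_eq_left hv.le]
  have h3 := h1.fun_add (Duh_hasDeriv hG c k ht)
  have h4 : HasDerivAt (y k) (-(c * sq k) • y k t + G k t) t := by
    have e1 : y k = fun t => Real.exp (-(c * sq k * max t 0)) • V k + Duh c G k t := by
      funext s; exact he k s
    have e2 : -(c * sq k) • y k t + G k t = (Real.exp (-(c * sq k * t)) * -(c * sq k)) • V k
        + (-(c * sq k) • Duh c G k t + G k t) := by
      rw [he k t, max_eq_left ht.le, smul_add, smul_smul, mul_comm]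
      abel
    rw [e2]
    rw [e1]
    exact h3
  have h5 := (hasDerivAt_pi.1 h4) i
  refine h5.congr_deriv ?_
  rw [hGe k t ht]
  unfold dX Bt Bf cvv cv at'
  simp only [Pi.add_apply, Pi.smul_apply, Complex.real_smul]
  push_cast
  ring

section
variable {χ : ℝ → ℝ} {c : ℝ} {b : K → C3} {S0 : StX χ c} {ρ p dl : ℕ → ℝ} {e : ℝ} {g : ℝ → ℝ}
    {S : ℕ → StX χ c} {W D : ℕ → K → C3}

lemma Run.dv (h : Run χ c b S0 ρ p dl e g S W D) (hχ : CutT χ) (he : 0 ≤ e) (hρ2 : ∀ j, 2 < ρ j) (hρ : Antitone ρ)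
    (k : K) (t : ℝ) : dt k (lim S k t) = 0 := by
  let L : C3 →L[ℝ] ℂ := ∑ j, ((k j : ℝ) • (ContinuousLinearMap.proj (R := ℝ) (φ := fun _ : Fin 3 => ℂ) j))
  have hL : ∀ v, L v = dt k v := by
    intro v
    simp [L, dt]
  have h1 : Tendsto (fun n => L ((S n).u k t)) atTop (𝓝 (L (lim S k t))) :=
    (L.continuous.tendsto _).comp (h.tends he hρ2 hρ k t)
  have h2 : (fun n => L ((S n).u k t)) = fun _ => 0 := by
    funext n
    rw [hL]
    exact solX_div hχ (S n).ha (S n).div (S n).sol k t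
  rw [h2] at h1
  rw [← hL]
  exact (tendsto_nhds_unique h1 tendsto_const_nhds)

lemma Run.wsy (h : Run χ c b S0 ρ p dl e g S W D) (hχ : CutT χ) (hc : 0 < c) (he : 0 ≤ e) (hρ2 : ∀ j, 2 < ρ j)
    (hρ : Antitone ρ) (hdl : Antitone dl) (hdl0 : Tendsto dl atTop (𝓝 0)) {δ : ℝ} (hδ : 0 < δ) (s : ℕ) :
    ∃ B : ℝ, 0 ≤ B ∧ ∀ t, NW (ws s) (at' (shf δ (lim S)) t) ≤ ENNReal.ofReal B := by
  obtain ⟨B, hB, j, hj⟩ := h.wsb hχ hc he hdl hdl0 hδ s
  refine ⟨B, hB, fun t => ?_⟩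
  show NW (ws s) (at' (lim S) (δ + max t 0)) ≤ _
  refine h.wslim he hρ2 hρ (fun k => by unfold ws; exact ENNReal.ofReal_ne_top) (j := j) fun n hn => ?_
  exact hj n hn _ (by have := le_max_right t 0; linarith)

lemma shf_Bx {χ : ℝ → ℝ} {δ : ℝ} (u : Fam) (k : K) {t : ℝ} (ht : 0 < t) :
    shf δ (Bx χ u) k t = χ (δ + t) • Bt (shf δ u) k t := by
  show χ (δ + max t 0) • Bt u k (δ + max t 0) = _
  rw [max_eq_left ht.le]
  have : Bt (shf δ u) k t = Bt u k (δ + t) := by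
    unfold Bt
    rw [at'_shf u ht.le]
  rw [this]

/-- The limit is regular for positive times. -/
lemma Run.regF (h : Run χ c b S0 ρ p dl e g S W D) (hχ : CutT χ) (hc : 0 < c) (he : 0 ≤ e) (hρ2 : ∀ j, 2 < ρ j)
    (hρ : Antitone ρ) (hdl : Antitone dl) (hdl0 : Tendsto dl atTop (𝓝 0)) (hT : ∀ n, TF n χ) {δ : ℝ} (hδ : 0 < δ) :
    RegF c (fun t => χ (δ + t)) (shf δ (lim S)) := by
  have hy : CF (shf δ (lim S)) := shf_cf (h.cf he hρ2 hρ)
  have h0 : ∀ t, shf δ (lim S) 0 t = 0 := fun t => lim_z S _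
  have hw := fun s => h.wsy hχ hc he hρ2 hρ hdl hdl0 hδ s
  have hG : CF (shf δ (Bx χ (lim S))) := by
    intro k
    have h1 : shf δ (Bx χ (lim S)) k = fun t => χ (δ + max t 0) • Bt (shf δ (lim S)) k t := rfl
    rw [h1]
    exact (hχ.cont.comp (by fun_prop)).smul (Bt_cont hy (dom_of_ws h0 hw) k)
  exact regF_of_eqn (fun n => (hT n).shift δ) hy hG h0 hw (fun k t ht => shf_Bx _ k ht)
    (h.eqn hχ hc he hρ2 hρ hdl hdl0 hδ) (fun t => h.sym he hρ2 hρ _) (fun k t => h.dv hχ he hρ2 hρ k _)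

end

end Pool.Agent.H356R3.NS.X
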