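import Pool.Agent.H3NY.X.PhysN
import Pool.Agent.H459R3.NS.Defs

namespace Pool.Agent.H356R3.NS
end Pool.Agent.H356R3.NS
namespace Pool.Agent.H356R3.NS.H3
end Pool.Agent.H356R3.NS.H3
namespace Pool.Agent.H356R3.NS.X
end Pool.Agent.H356R3.NS.X
namespace Pool.Agent.H3NS
end Pool.Agent.H3NS
namespace H459R3.NS
end H459R3.NS

set_option autoImplicit false
set_option maxHeartbeats 4000000
set_option synthInstance.maxHeartbeats 400000

open MeasureTheory Set Filter Topology
open scoped ENNReal NNReal ContDiff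

namespace Pool.Agent.H356R3.NS.X

open Pool.Agent.H3NS
open H459R3.NS (fr ee SP IsSol cube)

/-- removal of the zero mode -/
noncomputable def nz (x : K → C3) : K → C3 := fun k => if k = 0 then 0 else x k

lemma Bf_split {x : K → C3} (hx : SN x) {k : K} (hk : k ≠ 0) (hdiv : ∑ j, (k j : ℂ) * x k j = 0) (i : Fin 3) :
    Bf x x k i = Bf (nz x) (nz x) k i - (2 * Real.pi * Complex.I * ∑ j, (k j : ℂ) * x 0 j) * x k i := by
  have hn : SN (nz x) := by
    refine Summable.of_nonneg_of_le (fun _ => norm_nonneg _) (fun l => ?_) hx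
    unfold nz
    split_ifs with h
    · rw [norm_zero]; exact norm_nonneg _
    · exact le_rfl
  have hcv : ∀ j m, cv x x k j m = cv (nz x) (nz x) k j m + (x 0 j * x k m + x k j * x 0 m) := by
    intro j m
    have hs : Summable fun l => nz x l j * nz x (k - l) m := by
      have h1 : Summable fun l => ‖nz x l‖ * (∑' l', ‖nz x l'‖) := hn.mul_right _
      refine Summable.of_norm_bounded h1 fun l => ?_
      rw [norm_mul]
      refine mul_le_mul (norm_le_pi_norm _ j) ?_ (norm_nonneg _) (norm_nonneg _)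
      exact (norm_le_pi_norm _ m).trans (hn.le_tsum _ fun _ _ => norm_nonneg _)
    have h0 : Summable fun l : K => if l = 0 then x 0 j * x k m else 0 :=
      summable_of_ne_finset_zero (s := {0}) fun l hl => if_neg (by simpa using hl)
    have hk' : Summable fun l : K => if l = k then x k j * x 0 m else 0 :=
      summable_of_ne_finset_zero (s := {k}) fun l hl => if_neg (by simpa using hl)
    have e : ∀ l, x l j * x (k - l) m = nz x l j * nz x (k - l) m
        + ((if l = 0 then x 0 j * x k m else 0) + (if l = k then x k j * x 0 m else 0)) := by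
      intro l
      unfold nz
      by_cases h1 : l = 0
      · subst h1
        have hk0 : ¬ ((0 : K) = k) := fun h => hk h.symm
        rw [sub_zero]
        simp [hk0]
      · by_cases h2 : l = k
        · subst h2
          rw [if_neg h1, if_neg h1, if_pos rfl, sub_self, if_pos rfl]
          simp
        · have h3 : k - l ≠ 0 := fun h => h2 (sub_eq_zero.1 h).symm
          rw [if_neg h1, if_neg h1, if_neg h2, if_neg h3]
          simp
    unfold cv
    simp only [e]
    rw [hs.tsum_add (h0.add hk'), h0.tsum_add hk', tsum_ite_eq, tsum_ite_eq]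
  have hsq : ((sq k : ℝ) : ℂ) ≠ 0 := by exact_mod_cast (sq_pos hk).ne'
  unfold Bf
  simp only [hcv, mul_add, Finset.sum_add_distrib]
  have e1 : ∑ j, ∑ m, coef k i j m * (x 0 j * x k m)
      = -((2 * Real.pi * Complex.I * ∑ j, (k j : ℂ) * x 0 j) * x k i) := by
    have h1 : ∀ j, ∑ m, coef k i j m * (x 0 j * x k m) = -(2 * Real.pi * Complex.I) * (k j : ℂ) * x 0 j * x k i := by
      intro j
      have h2 : ∀ m, coef k i j m * (x 0 j * x k m)
          = -(2 * Real.pi * Complex.I) * (k j : ℂ) * x 0 j * (if m = i then x k m else 0)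
            + (2 * Real.pi * Complex.I) * (k j : ℂ) * x 0 j * (k i : ℂ) / ((sq k : ℝ) : ℂ) * ((k m : ℂ) * x k m) := by
        intro m
        unfold coef
        split_ifs <;> ring
      simp only [h2]
      rw [Finset.sum_add_distrib, ← Finset.mul_sum, ← Finset.mul_sum, hdiv, mul_zero, add_zero]
      congr 1
      simp
    simp only [h1]
    rw [Finset.mul_sum, Finset.sum_mul, ← Finset.sum_neg_distrib]
    exact Finset.sum_congr rfl fun j _ => by ring
  have e2 : ∑ j, ∑ m, coef k i j m * (x k j * x 0 m) = 0 := by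
    rw [Finset.sum_comm]
    refine Finset.sum_eq_zero fun m _ => ?_
    have h2 : ∀ j, coef k i j m * (x k j * x 0 m)
        = -(2 * Real.pi * Complex.I) * ((if m = i then 1 else 0) - (k i : ℂ) * (k m : ℂ) / ((sq k : ℝ) : ℂ)) * x 0 m
          * ((k j : ℂ) * x k j) := by
      intro j
      unfold coef
      ring
    simp only [h2]
    rw [← Finset.mul_sum, hdiv, mul_zero]
  rw [e1, e2, add_zero, sub_eq_add_neg]

lemma Bf_ph {x : K → C3} (m : E3) (t : ℝ) (k : K) : Bf (ph m t x) (ph m t x) k = ph m t (Bf x x) k := by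
  funext i
  have hcv : ∀ j l, cv (ph m t x) (ph m t x) k j l = cv x x k j l * ex k (-(t • m)) := by
    intro j l
    unfold cv ph
    rw [← tsum_mul_right]
    refine tsum_congr fun k' => ?_
    have : ex k (-(t • m)) = ex k' (-(t • m)) * ex (k - k') (-(t • m)) := by
      rw [← ex_add, add_sub_cancel]
    rw [this]
    ring
  unfold Bf
  simp only [hcv]
  show _ = (∑ j, ∑ l, coef k i j l * cv x x k j l) * ex k (-(t • m))
  rw [Finset.sum_mul]
  refine Finset.sum_congr rfl fun j _ => ?_
  rw [Finset.sum_mul]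
  exact Finset.sum_congr rfl fun l _ => by ring

/-- Duhamel's formula from the differential equation. -/
lemma eqn_of_deriv {c : ℝ} {y G : Fam} (hy : CF y) (hG : CF G)
    (hd : ∀ k t, 0 < t → HasDerivAt (y k) (-(c * sq k) • y k t + G k t) t) (h0 : ∀ k t, t ≤ 0 → y k t = y k 0) :
    Eqn c (at' y 0) G y := by
  intro k t
  rcases le_total t 0 with ht | ht
  · rw [h0 k t ht, max_eq_right ht, Duh_eq, max_eq_right ht]
    simp [at']
  rw [max_eq_left ht]
  have h1 : ∫ s in (0 : ℝ)..t, Real.exp (c * sq k * s) • G k s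
      = Real.exp (c * sq k * t) • y k t - Real.exp (c * sq k * 0) • y k 0 := by
    refine intervalIntegral.integral_eq_sub_of_hasDerivAt_of_le (f := fun s => Real.exp (c * sq k * s) • y k s)
      ht ?_ (fun s hs => ?_) ?_
    · have := hy k
      exact (by fun_prop : Continuous fun s => Real.exp (c * sq k * s) • y k s).continuousOn
    · have h2 : HasDerivAt (fun s => Real.exp (c * sq k * s)) (Real.exp (c * sq k * s) * (c * sq k)) s := by
        have : HasDerivAt (fun s : ℝ => c * sq k * s) (c * sq k) s := by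
          simpa using (hasDerivAt_id' s).const_mul (c * sq k)
        exact this.exp
      have h3 := h2.smul (hd k s hs.1)
      refine h3.congr_deriv ?_
      rw [smul_add, smul_smul]
      have e : Real.exp (c * sq k * s) * -(c * sq k) = -(Real.exp (c * sq k * s) * (c * sq k)) := by ring
      rw [e, neg_smul]
      abel
    · exact (cont_inner hG c k).intervalIntegrable _ _
  rw [Duh_eq, max_eq_left ht, h1, smul_sub, smul_smul, smul_smul, ← Real.exp_add, ← Real.exp_add]
  simp [at']

section
variable {ν : ℝ} {u : ℝ → R3 → R3} {p : ℝ → R3 → ℝ}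

/-- a global smooth periodic solution -/
def Glob (ν : ℝ) (u : ℝ → R3 → R3) (p : ℝ → R3 → ℝ) : Prop := ∀ T : ℝ, IsSol ν T u p

/-- the coefficients in the moving frame -/
noncomputable def yv (m : E3) (u : ℝ → R3 → R3) : Fam := fun k t =>
  ph m (-(max t 0)) (nz (fc (u (max t 0)))) k

lemma norm_ph (m : E3) (t : ℝ) (x : K → C3) (k : K) : ‖ph m t x k‖ = ‖x k‖ := by
  have := enorm_ph m t x k
  rw [← ofReal_norm, ← ofReal_norm] at this
  exact (ENNReal.ofReal_eq_ofReal_iff (norm_nonneg _) (norm_nonneg _)).1 this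

lemma yv_zero (m : E3) (u : ℝ → R3 → R3) (t : ℝ) : yv m u 0 t = 0 := by
  funext i
  simp [yv, ph, nz]

lemma yv_sym (m : E3) (u : ℝ → R3 → R3) : SymF (yv m u) := by
  intro t k i
  show nz _ (-k) i * ex (-k) _ = star (nz _ k i * ex k _)
  unfold nz
  by_cases hk : k = 0
  · subst hk; simp
  · rw [if_neg hk, if_neg (neg_ne_zero.2 hk), fc_sym, ex_neg, star_mul']

lemma ex_deriv (k : K) (m : E3) (t : ℝ) :
    HasDerivAt (fun s : ℝ => ex k (s • m)) ((2 * Real.pi * Complex.I * ∑ j, (k j : ℂ) * (m j : ℂ)) * ex k (t • m)) t := by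
  have h1 : ∀ s : ℝ, (2 * Real.pi * Complex.I * ∑ j, (k j : ℂ) * (((s • m) j : ℝ) : ℂ))
      = (2 * Real.pi * Complex.I * ∑ j, (k j : ℂ) * (m j : ℂ)) * (s : ℂ) := by
    intro s
    rw [mul_assoc (2 * Real.pi * Complex.I), Finset.sum_mul]
    congr 1
    refine Finset.sum_congr rfl fun j _ => ?_
    simp only [Pi.smul_apply, smul_eq_mul]
    push_cast
    ring
  unfold ex
  simp only [h1]
  have h2 : HasDerivAt (fun s : ℝ => (2 * Real.pi * Complex.I * ∑ j, (k j : ℂ) * (m j : ℂ)) * (s : ℂ))
      (2 * Real.pi * Complex.I * ∑ j, (k j : ℂ) * (m j : ℂ)) t := by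
    have := (Complex.ofRealCLM.hasDerivAt (x := t)).const_mul (2 * Real.pi * Complex.I * ∑ j, (k j : ℂ) * (m j : ℂ))
    simpa using this
  have h3 := h2.cexp
  refine h3.congr_deriv ?_
  ring

end

end Pool.Agent.H356R3.NS.X
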