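import Pool.Agent.H3NY.X.Base
import Pool.Agent.H3NY.X.CoreN
import Pool.Agent.H3NY.X.Gal2

namespace Pool.Agent.H356R3.NS
end Pool.Agent.H356R3.NS
namespace Pool.Agent.H356R3.NS.H3
end Pool.Agent.H356R3.NS.H3
namespace Pool.Agent.H356R3.NS.X
end Pool.Agent.H356R3.NS.X
namespace Pool.Agent.H3NS
end Pool.Agent.H3NS
namespace H459R3.NS
end H459R3.NS

set_option autoImplicit false
set_option maxHeartbeats 4000000
set_option synthInstance.maxHeartbeats 400000

open MeasureTheory Set Filter Topology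
open scoped ENNReal NNReal ContDiff

namespace Pool.Agent.H356R3.NS.X

open Pool.Agent.H3NS
open H459R3.NS (fr ee SP IsSol cube)

/-- A bound of the form `√t ‖S(t) - y(t)‖` for a solution `S` near a path `y` with a small residual. -/
theorem base_K {c : ℝ} (hc : 0 < c) {D A C2 Kb : ℝ} (hD : 0 ≤ D) (hA : 0 ≤ A) (hC2 : 0 ≤ C2) (hKb : 1 ≤ Kb) :
    ∃ Kk η1 : ℝ, 1 ≤ Kk ∧ 0 < η1 ∧ ∀ η : ℝ, 0 < η → η ≤ η1 → ∀ (χ : ℝ → ℝ), CutT χ → ∀ y G : Fam, CF y →
      (∀ t, SN (at' y t)) → CF (Bx χ y) → CF G → (∀ t, G 0 t = 0) → Eqn c (at' y 0) G y →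
      LN (fun t => NW (Wa 0) (at' y t)) ≤ ENNReal.ofReal D →
      ∀ T : ℝ, (∃ b : K → ℝ, Summable b ∧ ∀ k t, t ≤ T → ‖y k t‖ ≤ b k) →
      (∀ t, 0 < t → t ≤ T → NW (Wa 0) (at' y t) ≤ ENNReal.ofReal A) →
      (∀ t, 0 < t → t ≤ T → NW (Wm 0) (at' (Bx χ y) t - at' G t) ≤ ENNReal.ofReal C2) →
      ∫⁻ t in Ioi 0, NW (Wm 0) (at' (Bx χ y) t - at' G t) ≤ ENNReal.ofReal η →
      ∀ S : StX χ c, LN (fun t => NW (Wa 0) (at' (S.u - y) t)) ≤ ENNReal.ofReal (Kb * η) →
      NW (Wa 0) (at' y 0 - S.V) ≤ ENNReal.ofReal η →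
      ∀ t, 0 < t → t ≤ T → KA (S.u - y) t ≤ ENNReal.ofReal (Kk * √η) := by
  have hC := C0_pos
  have hsc : 0 < √c := Real.sqrt_pos.2 hc
  obtain ⟨Q, hQ⟩ : ∃ Q, Q = √2 / √c := ⟨_, rfl⟩
  have hQ0 : 0 < Q := by rw [hQ]; positivity
  -- the constants
  obtain ⟨P, hP⟩ : ∃ P, P = (2 * D + 1) * Kb := ⟨_, rfl⟩
  have hP0 : 0 < P := by rw [hP]; positivity
  obtain ⟨K0, hK0⟩ : ∃ K0, K0 = 1 + Q * (2 * (1 + C2) + C0 * P) := ⟨_, rfl⟩
  have hK00 : 0 < K0 := by rw [hK0]; positivity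
  have hK01 : 1 ≤ K0 := by
    rw [hK0]
    have : 0 ≤ Q * (2 * (1 + C2) + C0 * P) := by positivity
    linarith
  obtain ⟨x1, hx1⟩ : ∃ x1, x1 = min 1 (1 / (16 * Q * C0 * (A + 1))) := ⟨_, rfl⟩
  have hx1p : 0 < x1 := by rw [hx1]; positivity
  refine ⟨2 * K0, min (min 1 (1 / Kb)) (min (x1 ^ 2) (1 / (32 * Q * C0 * K0))), by linarith, by positivity,
    fun η hη hηle χ hχ y G hy hysn hcB hcG hG0 heq hyD T hyb hyA hres1 hres S hSL hSV t ht htT => ?_⟩
  have g1 : η ≤ 1 := hηle.trans ((min_le_left _ _).trans (min_le_left _ _))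
  have g2 : Kb * η ≤ 1 := by
    have h1 : η ≤ 1 / Kb := hηle.trans ((min_le_left _ _).trans (min_le_right _ _))
    rw [le_div_iff₀ (by linarith)] at h1
    linarith
  have g3 : √η ≤ x1 := by
    rw [Real.sqrt_le_left hx1p.le]
    exact hηle.trans ((min_le_right _ _).trans (min_le_left _ _))
  have g4 : 32 * Q * C0 * K0 * η ≤ 1 := by
    have h1 : η ≤ 1 / (32 * Q * C0 * K0) := hηle.trans ((min_le_right _ _).trans (min_le_right _ _))
    rw [le_div_iff₀ (by positivity)] at h1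
    linarith
  have hsη : 0 < √η := Real.sqrt_pos.2 hη
  have hsη1 : √η ≤ 1 := Real.sqrt_le_one.2 g1
  have hKη : 0 ≤ Kb * η := by positivity
  obtain ⟨r, hr⟩ : ∃ r, r = S.u - y := ⟨_, rfl⟩
  have hyr : y + r = S.u := by rw [hr]; abel
  have hSd := SolX.dom' S.ha S.sol
  have hrc : CF r := by rw [hr]; exact CF.sub' S.sol.cf hy
  have hrs : ∀ t, SN (at' r t) := fun t => by
    rw [hr]
    exact (Summable.add (f := fun k => ‖S.u k t‖) (g := fun k => ‖y k t‖) (hSd.sn t) (hysn t)).of_nonneg_of_le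
      (fun _ => norm_nonneg _) fun k => norm_sub_le (S.u k t) (y k t)
  have hBc : CF (Bx χ (y + r) - Bx χ y) := by
    rw [hyr]
    exact CF.sub' (Bx_cont hχ S.sol.cf hSd) hcB
  have hFEc : CF (Bx χ y - G) := CF.sub' hcB hcG
  have hcont : ContinuousOn (fun t => ∑' k, ‖r k t‖) (Icc 0 T) := by
    obtain ⟨b1, hb1, hb1'⟩ := hSd
    obtain ⟨b2, hb2, hb2'⟩ := hyb
    refine continuousOn_tsum (u := fun k => b1 k + b2 k) (fun k => (hrc k).norm.continuousOn) (hb1.add hb2)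
      fun k t ht => ?_
    rw [norm_norm, hr]
    exact (norm_sub_le _ _).trans (add_le_add (hb1' k t) (hb2' k t ht.2))
  have hfix : ∀ k t, r k t = Real.exp (-(c * sq k * max t 0)) • (S.V - at' y 0) k
      + Duh c ((Bx χ y - G) + (Bx χ (y + r) - Bx χ y)) k t := by
    intro k t
    have e0 : (Bx χ y - G) + (Bx χ (y + r) - Bx χ y) = Bx χ S.u - G := by
      rw [hyr]; abel
    rw [e0, Duh_sub (Bx_cont hχ S.sol.cf hSd) hcG, hr]
    show S.u k t - y k t = Real.exp (-(c * sq k * max t 0)) • (S.V k - at' y 0 k)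
      + (Duh c (Bx χ S.u) k t - Duh c G k t)
    rw [S.sol.eq k t, heq k t, smul_sub]
    abel
  have hmr : Measurable fun t => NW (Wa 0) (at' r t) := NW_meas _ hrc
  have hmy : Measurable fun t => NW (Wa 0) (at' y t) := NW_meas _ hy
  have hPb : ∫⁻ t in Ioi 0, (2 * (NW (Wa 0) (at' y t) * NW (Wa 0) (at' r t)) + NW (Wa 0) (at' r t) * NW (Wa 0) (at' r t))
      ≤ ENNReal.ofReal (P * η) := by
    rw [← hr] at hSL
    rw [lintegral_add_left (by fun_prop), lintegral_const_mul' _ _ (by norm_num)]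
    calc _ ≤ 2 * (ENNReal.ofReal D * ENNReal.ofReal (Kb * η)) + ENNReal.ofReal (Kb * η) * ENNReal.ofReal (Kb * η) :=
          add_le_add (mul_le_mul' le_rfl ((LN_cs hmy hmr).trans (mul_le_mul' hyD hSL)))
            ((LN_cs hmr hmr).trans (mul_le_mul' hSL hSL))
      _ = ENNReal.ofReal (2 * (D * (Kb * η)) + Kb * η * (Kb * η)) := by
          rw [ENNReal.ofReal_add (by positivity) (by positivity), ENNReal.ofReal_mul (p := 2) (by norm_num),
            ENNReal.ofReal_mul hD, ENNReal.ofReal_mul (p := Kb * η) hKη, ENNReal.ofReal_ofNat]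
      _ ≤ _ := by
          apply ENNReal.ofReal_le_ofReal
          rw [hP]
          have : Kb * η * (Kb * η) ≤ Kb * η * 1 := mul_le_mul_of_nonneg_left g2 hKη
          linarith
  have hV : ∀ t, NW (Wa 0) (fun k => Real.exp (-(c * sq k * max t 0)) • (S.V - at' y 0) k) ≤ ENNReal.ofReal η := by
    intro t
    refine (NW_expE (fun k => c * sq k * max t 0) (fun k => mul_nonneg (mul_nonneg hc.le (sq_nonneg' k))
      (le_max_right _ _)) _).trans (le_trans (le_of_eq ?_) hSV)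
    unfold NW
    refine tsum_congr fun k => ?_
    rw [Pi.sub_apply, Pi.sub_apply, ← enorm_neg, neg_sub]
  have key := kbound hχ hc (U := y) (r := r) (FE := Bx χ y - G) (r0 := S.V - at' y 0) hFEc hBc hysn hrs
    (fun t => by
      show χ t • Bf _ _ 0 - G 0 t = 0
      rw [Bf_zero, smul_zero, hG0, sub_zero])
    hfix (T := T) hcont (η0 := η) (m := √η * A) (P := P * η) (G := (1 + C2) * η) (H := η) (s0 := K0 * η)
    hη (by positivity) (by positivity) (by positivity) hη.le (by positivity)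
    (fun t _ _ => by
      refine (mul_le_mul' le_rfl (hV t)).trans ?_
      rw [← ENNReal.ofReal_mul (Real.sqrt_nonneg _)]
      apply ENNReal.ofReal_le_ofReal
      exact mul_le_of_le_one_left hη.le (Real.sqrt_le_one.2 ((min_le_right _ _).trans g1)))
    (fun t h1 h2 => by
      refine (mul_le_mul' (ENNReal.ofReal_le_ofReal (Real.sqrt_le_sqrt (min_le_right t η))) (hyA t h1 h2)).trans ?_
      rw [← ENNReal.ofReal_mul (Real.sqrt_nonneg _)])
    hPb
    (hres.trans (ENNReal.ofReal_le_ofReal (by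
      have : 0 ≤ C2 * η := by positivity
      linarith)))
    (fun t s h1 h2 h3 h4 => by
      have h5 : NW (Wm 0) (at' (Bx χ y - G) s) ≤ ENNReal.ofReal C2 := hres1 s (by linarith) (h4.trans h2)
      refine (mul_le_mul' (ENNReal.ofReal_le_ofReal (min_le_right t η)) h5).trans ?_
      rw [← ENNReal.ofReal_mul hη.le]
      apply ENNReal.ofReal_le_ofReal
      linarith)
    (by
      rw [← hQ, hK0]
      apply le_of_eq
      ring)
    (by
      rw [← hQ]
      have h1 : x1 ≤ 1 / (16 * Q * C0 * (A + 1)) := by rw [hx1]; exact min_le_right _ _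
      have h2 := g3.trans h1
      rw [le_div_iff₀ (by positivity)] at h2
      have h3 : 0 ≤ √η * (16 * Q * C0) := by positivity
      nlinarith)
    (by
      rw [← hQ]
      nlinarith)
    t ht htT
  rw [← hr]
  -- from `min t η` to `min t 1`
  have hle : √(min t 1) ≤ √(min t η) / √η := by
    rw [le_div_iff₀ hsη, ← Real.sqrt_mul (le_min ht.le zero_le_one)]
    apply Real.sqrt_le_sqrt
    apply le_min
    · calc min t 1 * η ≤ t * 1 := mul_le_mul (min_le_left _ _) g1 hη.le ht.le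
        _ = t := mul_one t
    · calc min t 1 * η ≤ 1 * η := mul_le_mul_of_nonneg_right (min_le_right _ _) hη.le
        _ = η := one_mul η
  unfold KA
  calc ENNReal.ofReal (√(min t 1)) * NW (Wa 0) (at' r t)
      ≤ ENNReal.ofReal (1 / √η * √(min t η)) * NW (Wa 0) (at' r t) := by
        apply mul_le_mul' _ le_rfl
        apply ENNReal.ofReal_le_ofReal
        refine hle.trans (le_of_eq ?_)
        ring
    _ = ENNReal.ofReal (1 / √η) * (ENNReal.ofReal (√(min t η)) * NW (Wa 0) (at' r t)) := by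
        rw [ENNReal.ofReal_mul (by positivity), mul_assoc]
    _ ≤ ENNReal.ofReal (1 / √η) * ENNReal.ofReal (2 * (K0 * η)) := mul_le_mul' le_rfl key
    _ = _ := by
        rw [← ENNReal.ofReal_mul (by positivity)]
        congr 1
        have : η = √η * √η := (Real.mul_self_sqrt hη.le).symm
        calc 1 / √η * (2 * (K0 * η)) = 2 * K0 * (η / √η) := by ring
          _ = 2 * K0 * √η := by rw [Real.div_sqrt]

lemma CutH_one : CutH (fun _ => (1 : ℝ)) 1 :=
  ⟨⟨continuous_const, fun _ => zero_le_one, fun _ => le_rfl⟩, one_pos, fun _ _ => rfl⟩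

lemma NW_neg (w : K → ℝ≥0∞) (x : K → C3) : NW w (-x) = NW w x := by
  unfold NW
  refine tsum_congr fun k => ?_
  rw [Pi.neg_apply, enorm_neg]

lemma NW_sub_le (w : K → ℝ≥0∞) (x y : K → C3) : NW w (x - y) ≤ NW w x + NW w y := by
  rw [sub_eq_add_neg]
  refine (NW_add_le _ _ _).trans ?_
  rw [NW_neg]

lemma ws_ne_top (s : ℕ) (k : K) : ws s k ≠ ⊤ := by unfold ws; exact ENNReal.ofReal_ne_top

section
variable {c : ℝ} {y : Fam}

/-- bounds for the global solution -/
lemma GS0.wsb (h : GS0 c y) {δ : ℝ} (hδ : 0 < δ) (s : ℕ) : ∃ B : ℝ, 0 ≤ B ∧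
    (∀ t, δ ≤ t → NW (ws s) (at' y t) ≤ ENNReal.ofReal B) ∧
    ∀ S : StX (fun _ => 1) c, LN (fun t => NW (Wa 0) (at' (S.u - y) t)) ≤ 1 →
      ∀ t, δ ≤ t → NW (ws s) (at' S.u t) ≤ ENNReal.ofReal B := by
  have hχ : CutT fun _ => (1 : ℝ) := CutH_one.toCutT
  obtain ⟨L, hL⟩ : ∃ L, L = (LN (fun t => NW (Wa 0) (at' y t))).toReal + 1 := ⟨_, rfl⟩
  have hL0 : 0 ≤ L := by rw [hL]; positivity
  obtain ⟨B, hB, hB'⟩ := smoothing h.hc hL0 s (δ / 2) δ (by positivity) (by linarith)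
  have key : ∀ S : StX (fun _ => 1) c, LN (fun t => NW (Wa 0) (at' (S.u - y) t)) ≤ 1 →
      ∀ t, δ ≤ t → NW (ws s) (at' S.u t) ≤ ENNReal.ofReal B := by
    intro S hS t ht
    refine hB' _ hχ S.a S.ha S.V S.u S.sol ?_ t ht
    refine (LNd_le_LN _ _).trans ?_
    have e : ∀ t, NW (Wa 0) (at' S.u t) ≤ NW (Wa 0) (at' y t) + NW (Wa 0) (at' (S.u - y) t) := by
      intro t
      have e1 : at' S.u t = at' y t + at' (S.u - y) t := by
        funext k
        simp only [at', Pi.sub_apply, Pi.add_apply]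
        abel
      conv_lhs => rw [e1]
      exact NW_add_le _ _ _
    refine (LN_mono fun t _ => e t).trans ((LN_add_le (NW_meas _ h.cf)
      (NW_meas _ (CF.sub' S.sol.cf h.cf))).trans ?_)
    rw [hL, ENNReal.ofReal_add ENNReal.toReal_nonneg zero_le_one, ENNReal.ofReal_toReal h.l2, ENNReal.ofReal_one]
    exact add_le_add le_rfl hS
  refine ⟨B, hB, fun t ht => ?_, key⟩
  have hseq : ∀ n : ℕ, ∃ S : StX (fun _ => 1) c, (∀ t, NW (Wm 0) (at' (S.u - y) t) ≤ ENNReal.ofReal (1 / ((n : ℝ) + 1))) ∧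
      LN (fun t => NW (Wa 0) (at' (S.u - y) t)) ≤ 1 := by
    intro n
    obtain ⟨S, M, h1, h2, h3, h4, -⟩ := base_appr h (ε := 1 / ((n : ℝ) + 1)) (by positivity)
    refine ⟨S, h2, h4.trans ?_⟩
    rw [ENNReal.ofReal_le_one, div_le_one (by positivity)]
    linarith [(Nat.cast_nonneg n : (0 : ℝ) ≤ n)]
  choose S hS1 hS2 using hseq
  refine NW_le_of_tendsto (ws_ne_top s) (x := fun n => at' (S n).u t) (fun k => ?_) fun n => key (S n) (hS2 n) t ht
  rw [tendsto_iff_norm_sub_tendsto_zero]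
  have h3 : ∀ n, ‖(S n).u k t - y k t‖ ≤ nk k * (1 / ((n : ℝ) + 1)) := by
    intro n
    have h4 := norm_le_of_NWm (a := 0) (x := at' ((S n).u - y) t) (M := 1 / ((n : ℝ) + 1)) (by positivity) (by
      show (S n).u 0 t - y 0 t = 0
      rw [(S n).sol.z, h.z, sub_zero]) (hS1 n t) k
    have h5 : ‖(S n).u k t - y k t‖ ≤ 1 / ((n : ℝ) + 1) * nk k := by simpa [at'] using h4
    linarith
  refine squeeze_zero (fun n => norm_nonneg _) h3 ?_
  have := (tendsto_one_div_add_atTop_nhds_zero_nat (𝕜 := ℝ)).const_mul (nk k)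
  simpa using this

/-- What the construction gives near a global solution. -/
structure OutY (ga : ℝ → ℝ) (c : ℝ) (b : K → C3) (y : Fam) (r p δ ε : ℝ) (s : ℕ) (u : Fam) : Prop where
  cf : CF u
  reg : RegP c (fun _ => 1) u
  sym : SymF u
  z : ∀ t, u 0 t = 0
  sn : ∀ t, 0 < t → SN (at' u t)
  att : Att b (fun t => at' u t) 0
  lq : ∀ q, 1 ≤ q → q < 2 → LP q u ≠ ⊤
  lp : LP p (u - y) ≤ ENNReal.ofReal ε
  cl : ∀ t, δ ≤ t → NW (ws s) (at' (u - y) t) ≤ ENNReal.ofReal ε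
  cr : ∀ t, critNorm r (at' (u - y) t) ≤ 4 * critNorm r (b - at' y 0) + ENNReal.ofReal ε
  nl : ∃ C : ℝ, 0 ≤ C ∧ ∀ k, ∫⁻ t in Ioi 0, ‖Bt u k t‖ₑ ≤ ENNReal.ofReal (C * nk k + 4 * ‖b k‖)
  kt : ∀ t, 0 < t → KA (u - y) t ≤ ENNReal.ofReal ε
  kg : ∀ᶠ t in 𝓝[>] (0 : ℝ), KA u t ≤ ENNReal.ofReal (ga t)

theorem coreY {ga : ℝ → ℝ} (hga : Gau ga) (h : GS0 c y) {b : K → C3} (hb0 : b 0 = 0) (hbd : ∀ k, dt k (b k) = 0) (hbs : Sym b) {r : ℝ} (hr : 2 < r)
    {p δ ε : ℝ} (hp1 : 1 ≤ p) (hp2 : p < 2) (hδ : 0 < δ) (hε : 0 < ε) (s : ℕ) :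
    ∃ u : Fam, OutY ga c b y r p δ ε s u := by
  obtain ⟨B, hB, hBy, hBS⟩ := h.wsb hδ (2 * s + 1)
  -- bounds for the path up to the time `δ`
  obtain ⟨Cy, hCy, hyb⟩ := h.lb δ
  obtain ⟨D, hD⟩ : ∃ D, D = (LN (fun t => NW (Wa 0) (at' y t))).toReal := ⟨_, rfl⟩
  have hD0 : 0 ≤ D := by rw [hD]; exact ENNReal.toReal_nonneg
  have hyD : LN (fun t => NW (Wa 0) (at' y t)) ≤ ENNReal.ofReal D := by rw [hD, ENNReal.ofReal_toReal h.l2]
  have hS4 := S4_nonneg
  have hyA : ∀ t, 0 < t → t ≤ δ → NW (Wa 0) (at' y t) ≤ ENNReal.ofReal (Cy * S4) := fun t _ ht => by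
    rw [NW_Wa_zero]
    refine (NW_one_le (summ_nk4.mul_left Cy) fun k => hyb t ht k).trans (le_of_eq ?_)
    rw [tsum_mul_left]
    rfl
  obtain ⟨Kk, η1, hKk, hη1, hbK⟩ := base_K h.hc hD0 (show 0 ≤ Cy * S4 by positivity) le_rfl le_rfl
  obtain ⟨e, he⟩ : ∃ e, e = min (min (min 1 (ε / 20)) ((ε / 2) ^ 2 / (2 * B + 1))) (min η1 ((ε / (2 * Kk)) ^ 2)) := ⟨_, rfl⟩
  have he0 : 0 < e := by rw [he]; positivity
  have he1 : e ≤ 1 := by rw [he]; exact (min_le_left _ _).trans ((min_le_left _ _).trans (min_le_left _ _))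
  have he2 : 20 * e ≤ ε := by
    have : e ≤ ε / 20 := by rw [he]; exact (min_le_left _ _).trans ((min_le_left _ _).trans (min_le_right _ _))
    linarith
  have he3 : (2 * B + 1) * e ≤ (ε / 2) ^ 2 := by
    have : e ≤ (ε / 2) ^ 2 / (2 * B + 1) := by rw [he]; exact (min_le_left _ _).trans (min_le_right _ _)
    rw [le_div_iff₀ (by positivity)] at this
    linarith
  have he4 : e ≤ η1 := by rw [he]; exact (min_le_right _ _).trans (min_le_left _ _)
  have he5 : Kk * √e ≤ ε / 2 := by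
    have h1 : e ≤ (ε / (2 * Kk)) ^ 2 := by rw [he]; exact (min_le_right _ _).trans (min_le_right _ _)
    have h2 : √e ≤ ε / (2 * Kk) := (Real.sqrt_le_left (by positivity)).2 h1
    rw [le_div_iff₀ (by positivity)] at h2
    linarith
  obtain ⟨S, M, hV, h1, h2, h3, h2'⟩ := base_appr h he0
  have hr1 : 1 ≤ r := by linarith
  obtain ⟨u, hu⟩ := coreN hga CutH_one TF_one h.hc S hb0 hbd hbs hr hp1 hp2 hδ (half_pos hε) s
  have hdec : ∀ t, at' (u - y) t = at' (u - S.u) t + at' (S.u - y) t := by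
    intro t
    funext k
    simp only [at', Pi.sub_apply, Pi.add_apply]
    abel
  have hSy : CF (S.u - y) := CF.sub' S.sol.cf h.cf
  have hcl : ∀ t, δ ≤ t → NW (ws s) (at' (u - y) t) ≤ ENNReal.ofReal ε := by
    intro t ht
    rw [hdec]
    refine (NW_add_le _ _ _).trans ((add_le_add (hu.cl t ht) (?_ : _ ≤ ENNReal.ofReal (ε / 2))).trans ?_)
    · have h4 : NW (ws (2 * s + 1)) (at' (S.u - y) t) ≤ ENNReal.ofReal (2 * B) := by
        have e1 : at' (S.u - y) t = at' S.u t - at' y t := rfl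
        rw [e1, show 2 * B = B + B by ring, ENNReal.ofReal_add hB hB]
        refine (NW_sub_le _ _ _).trans (add_le_add (hBS S (h3.trans ?_) t ht) (hBy t ht))
        rw [ENNReal.ofReal_le_one]
        exact he1
      have h5 := (interp_s s (x := at' (S.u - y) t) (by
        show S.u 0 t - y 0 t = 0
        rw [h.z, S.sol.z, sub_self])).trans (mul_le_mul' (h1 t) h4)
      rw [← ENNReal.ofReal_mul he0.le] at h5
      have h6 : ENNReal.ofReal (e * (2 * B)) ≤ ENNReal.ofReal (ε / 2) * ENNReal.ofReal (ε / 2) := by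
        rw [← ENNReal.ofReal_mul (by positivity)]
        apply ENNReal.ofReal_le_ofReal
        nlinarith
      have h7 := h5.trans h6
      by_contra h8
      push Not at h8
      exact absurd h7 (not_le.2 (ENNReal.mul_lt_mul h8 h8))
    · rw [← ENNReal.ofReal_add (by positivity) (by positivity)]
      exact ENNReal.ofReal_le_ofReal (by linarith)
  have hkt : ∀ t, 0 < t → KA (u - y) t ≤ ENNReal.ofReal ε := by
    intro t ht
    rcases le_total t δ with h8 | h8
    · have e1 : u - y = (u - S.u) + (S.u - y) := by abel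
      rw [e1]
      have e2 : Bx (fun _ => (1 : ℝ)) y = Bt y := by
        funext k t
        exact one_smul _ _
      have e3 : ∀ t, NW (Wm 0) (at' (Bx (fun _ => (1 : ℝ)) y) t - at' (Bt y) t) = 0 := fun t => by
        rw [e2, sub_self, NW_zero]
      have h9 := hbK e he0 he4 (fun _ => 1) CutH_one.toCutT y (Bt y) h.cf h.lb.sn (by rw [e2]; exact h.cfB) h.cfB
        (fun t => Bf_zero _ _) h.eqn hyD δ ⟨fun k => Cy * (1 / nk k) ^ 4, summ_nk4.mul_left Cy, fun k t ht => hyb t ht k⟩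
        hyA (fun t _ _ => by rw [e3]; exact zero_le) (by simp [e3]) S (by rw [one_mul]; exact h3)
        (by rw [hV]; exact h2') t ht h8
      refine (KA_add_le _ _ _).trans ((add_le_add (hu.kt t ht) (h9.trans (ENNReal.ofReal_le_ofReal he5))).trans ?_)
      rw [← ENNReal.ofReal_add (by positivity) (by positivity), add_halves]
    · refine (KA_le _ _).trans ((NW_ws_ge ?_).trans (hcl t h8))
      show u 0 t - y 0 t = 0
      rw [hu.z, h.z, sub_self]
  refine ⟨u, hu.cf, hu.reg, hu.sym, hu.z, hu.sn, hu.att, hu.lq, ?_, hcl, fun t => ?_, ?_, hkt, hu.kg⟩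
  rotate_right
  · obtain ⟨C, hC, h1⟩ := hu.nl
    refine ⟨C, hC, fun k => ?_⟩
    have e1 : ∀ t, Bx (fun _ => (1 : ℝ)) u k t = Bt u k t := fun t => one_smul _ _
    have := h1 k
    simp only [e1] at this
    exact this
  · have e1 : u - y = (u - S.u) + (S.u - y) := by abel
    rw [e1]
    refine (LP_add hp1 (CF.sub' hu.cf S.sol.cf) hSy).trans ((add_le_add hu.lp
      ((LP_le_LN (by linarith) hp2.le hSy).trans h3)).trans ?_)
    rw [← ENNReal.ofReal_add (by positivity) he0.le]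
    exact ENNReal.ofReal_le_ofReal (by linarith)
  · rw [hdec]
    have h4 : critNorm r (at' (S.u - y) t) ≤ ENNReal.ofReal (2 * e) := by
      refine (critNorm_le_NW hr1 _).trans ((mul_le_mul' le_rfl (h1 t)).trans (le_of_eq ?_))
      rw [ENNReal.ofReal_mul (by norm_num), ENNReal.ofReal_ofNat]
    have h5 : critNorm r (b - S.V) ≤ critNorm r (b - at' y 0) + ENNReal.ofReal (2 * e) := by
      have e1 : b - S.V = (b - at' y 0) + (at' y 0 - tru M (at' y 0)) := by rw [hV]; abel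
      rw [e1]
      refine (critNorm_add' hr1 _ _).trans (add_le_add le_rfl ?_)
      refine (critNorm_le_NW hr1 _).trans ((mul_le_mul' le_rfl h2).trans (le_of_eq ?_))
      rw [ENNReal.ofReal_mul (by norm_num), ENNReal.ofReal_ofNat]
    refine (critNorm_add' hr1 _ _).trans ((add_le_add ((hu.cr t).trans (add_le_add (mul_le_mul' le_rfl h5) le_rfl))
      h4).trans ?_)
    rw [mul_add, show (4 : ℝ≥0∞) * ENNReal.ofReal (2 * e) = ENNReal.ofReal (8 * e) by
      rw [← ENNReal.ofReal_ofNat, ← ENNReal.ofReal_mul (by norm_num)]; congr 1; ring]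
    have e2 : ENNReal.ofReal (8 * e) + ENNReal.ofReal (ε / 2) + ENNReal.ofReal (2 * e) ≤ ENNReal.ofReal ε := by
      rw [← ENNReal.ofReal_add (by positivity) (by positivity), ← ENNReal.ofReal_add (by positivity) (by positivity)]
      exact ENNReal.ofReal_le_ofReal (by linarith)
    calc 4 * critNorm r (b - at' y 0) + ENNReal.ofReal (8 * e) + ENNReal.ofReal (ε / 2) + ENNReal.ofReal (2 * e)
        = 4 * critNorm r (b - at' y 0) + (ENNReal.ofReal (8 * e) + ENNReal.ofReal (ε / 2) + ENNReal.ofReal (2 * e)) := by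
          ring
      _ ≤ _ := add_le_add le_rfl e2

end

section
variable {ν : ℝ} {v : ℝ → R3 → R3} {q : ℝ → R3 → ℝ}

lemma yv_at_zero (m : E3) (v : ℝ → R3 → R3) : at' (yv m v) 0 = nz (fc (v 0)) := by
  funext k i
  show nz (fc (v (max 0 0))) k i * ex k (-((-(max 0 0)) • m)) = _
  simp [ex]

lemma sym_re {a : K → C3} (h : Sym a) (i : Fin 3) : a 0 i = (((a 0 i).re : ℝ) : ℂ) := by
  have := h 0 i
  rw [neg_zero, Complex.star_def] at this
  exact (Complex.conj_eq_iff_re.1 this.symm).symm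

lemma nz_sym {a : K → C3} (h : Sym a) : Sym (nz a) := by
  intro k i
  unfold nz
  by_cases hk : k = 0
  · subst hk; simp
  · rw [if_neg hk, if_neg (neg_ne_zero.2 hk), h k i]

lemma nz_div {a : K → C3} (h : ∀ k, dt k (a k) = 0) (k : K) : dt k (nz a k) = 0 := by
  unfold nz
  split_ifs
  · simp [dt]
  · exact h k

lemma nz_zero (a : K → C3) : nz a 0 = 0 := by simp [nz]

lemma critNorm_nz (r : ℝ) (a : K → C3) : critNorm r (nz a) = critNorm r a :=
  critNorm_congr fun k hk => by simp [nz, hk]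

end

end Pool.Agent.H356R3.NS.X
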