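import Pool.Agent.H3NY.X.AdvX
import Pool.Agent.H3NY.X.MainN

namespace Pool.Agent.H356R3.NS
end Pool.Agent.H356R3.NS
namespace Pool.Agent.H356R3.NS.H3
end Pool.Agent.H356R3.NS.H3
namespace Pool.Agent.H356R3.NS.X
end Pool.Agent.H356R3.NS.X
namespace Pool.Agent.H3NS
end Pool.Agent.H3NS
namespace H459R3.NS
end H459R3.NS

set_option autoImplicit false
set_option maxHeartbeats 4000000
set_option synthInstance.maxHeartbeats 400000

/-!
Blocks in physical space.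
-/

open MeasureTheory Set Filter Topology
open scoped ENNReal NNReal ContDiff

namespace Pool.Agent.H356R3.NS.X

open Pool.Agent.H3NS
open H459R3.NS (fr ee SP IsSol cube)

/-- a summable bound for positive times -/
lemma RegP.bound {c : ℝ} {χ : ℝ → ℝ} {u : Fam} (h : RegP c χ u) {δ : ℝ} (hδ : 0 < δ) :
    ∃ b : K → ℝ, Summable b ∧ ∀ k t, δ ≤ t → ‖u k t‖ ≤ b k := by
  have h1 := (h δ hδ).rd
  choose b hb hb' using fun i => h1 i 0
  refine ⟨fun k => ∑ i, b i k, summable_sum fun i _ => hb i, fun k t ht => ?_⟩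
  have h2 : ∀ i, ‖u k t i‖ ≤ b i k := fun i => by
    have h3 := hb' i k (t - δ)
    rw [pow_zero, one_mul] at h3
    have e : cf' (shf δ u) i k (t - δ) = u k t i := by
      show u k (δ + max (t - δ) 0) i = _
      rw [max_eq_left (by linarith), add_sub_cancel]
    rw [e] at h3
    exact h3
  rw [pi_norm_le_iff_of_nonneg (Finset.sum_nonneg fun i _ => (norm_nonneg _).trans (h2 i))]
  intro i
  exact (h2 i).trans (Finset.single_le_sum (f := fun i => b i k) (fun i _ => (norm_nonneg _).trans (h2 i))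
    (Finset.mem_univ i))

lemma critNorm_le_sum {r : ℝ} (hr : 1 ≤ r) (a : K → C3) : critNorm r a ≤ 2 * ∑' k, ‖a k‖ₑ := by
  refine (critNorm_le_NW hr a).trans (mul_le_mul' le_rfl ?_)
  refine (Wm_le_Wa0 a).trans (le_of_eq ?_)
  rw [NW_Wa_zero]

/-- continuity in the critical norms for positive times -/
lemma RegP.crit_cont {c : ℝ} {χ : ℝ → ℝ} {u : Fam} (h : RegP c χ u) (hcf : CF u) (hsn : ∀ t, 0 < t → SN (at' u t))
    (hsy : SymF u) (hz : ∀ t, u 0 t = 0) (m : E3) {t0 : ℝ} (ht0 : 0 < t0) {r : ℝ} (hr : 1 ≤ r) :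
    Tendsto (fun t => critNorm r (fun k => fc (fld m u t) k - fc (fld m u t0) k)) (𝓝 t0) (𝓝 0) := by
  obtain ⟨b, hb, hb'⟩ := h.bound (half_pos ht0)
  have hb0 : ∀ k, 0 ≤ b k := fun k => (norm_nonneg _).trans (hb' k t0 (by linarith))
  have hfc : ∀ t, t0 / 2 ≤ t → fc (fld m u t) = cof m u t := fun t ht =>
    fc_fld (hsn t (by linarith)) (hsy t) (hz t) m
  have hev : ∀ᶠ t in 𝓝 t0, t0 / 2 ≤ t := (lt_mem_nhds (by linarith : t0 / 2 < t0)).mono fun t ht => le_of_lt ht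
  -- the differences
  have hd : ∀ t, t0 / 2 ≤ t → ∀ k, ‖fc (fld m u t) k - fc (fld m u t0) k‖ ≤ 2 * b k := by
    intro t ht k
    rw [hfc t ht, hfc t0 (by linarith)]
    unfold cof
    by_cases hk : k = 0
    · subst hk
      rw [if_pos rfl, if_pos rfl, sub_self, norm_zero]
      have := hb0 0
      linarith
    · rw [if_neg hk, if_neg hk]
      refine (norm_sub_le _ _).trans ?_
      have e : ∀ s, ‖(fun i => u k s i * ex k (-(s • m)) : C3)‖ = ‖u k s‖ := fun s => norm_ph m s (at' u s) k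
      rw [e, e]
      have h1 := hb' k t ht
      have h2 := hb' k t0 (by linarith)
      linarith
  have ht1 : Tendsto (fun t => ∑' k, ‖fc (fld m u t) k - fc (fld m u t0) k‖) (𝓝 t0) (𝓝 (∑' _k : K, (0 : ℝ))) := by
    refine tendsto_tsum_of_dominated_convergence (hb.mul_left 2) (fun k => ?_) ?_
    · have h1 : Tendsto (fun t => ‖cof m u t k - cof m u t0 k‖) (𝓝 t0) (𝓝 0) := by
        have hc : Continuous fun t => cof m u t k := by
          unfold cof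
          by_cases hk : k = 0
          · simp only [if_pos hk]; exact continuous_const
          · simp only [if_neg hk]
            refine continuous_pi fun i => ?_
            have h1 := (continuous_apply i).comp (hcf k)
            exact h1.mul ((ex_cont k).comp (by fun_prop))
        have h2 := (hc.sub (continuous_const (y := cof m u t0 k))).norm.tendsto t0
        simpa using h2
      refine h1.congr' ?_
      filter_upwards [hev] with t ht
      rw [hfc t ht, hfc t0 (by linarith)]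
    · filter_upwards [hev] with t ht k
      rw [norm_norm]
      exact hd t ht k
  rw [tsum_zero] at ht1
  have ht2 : Tendsto (fun t => 2 * ENNReal.ofReal (∑' k, ‖fc (fld m u t) k - fc (fld m u t0) k‖)) (𝓝 t0) (𝓝 0) := by
    have h1 := ENNReal.Tendsto.const_mul (a := 2) (ENNReal.tendsto_ofReal ht1) (Or.inr (by norm_num))
    simpa using h1
  refine tendsto_of_tendsto_of_tendsto_of_le_of_le' tendsto_const_nhds ht2
    (Filter.Eventually.of_forall fun _ => zero_le) ?_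
  filter_upwards [hev] with t ht
  refine (critNorm_le_sum hr _).trans (mul_le_mul' le_rfl ?_)
  have hs : Summable fun k => ‖fc (fld m u t) k - fc (fld m u t0) k‖ :=
    (hb.mul_left 2).of_nonneg_of_le (fun _ => norm_nonneg _) (hd t ht)
  rw [ENNReal.ofReal_tsum_of_nonneg (fun _ => norm_nonneg _) hs]
  exact ENNReal.tsum_le_tsum fun k => by rw [ofReal_norm]

/-- a block on the Fourier side, for the times of `J0` -/
structure OutG (ga : ℝ → ℝ) (c : ℝ) (b : K → C3) (y : Fam) (J0 : Set ℝ) (r p δ1 δ : ℝ) (L : ℝ≥0∞) (e : ℝ) (s : ℕ) (u : Fam) :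
    Prop where
  cf : CF u
  reg : ∃ χ : ℝ → ℝ, (∀ t ∈ J0, χ t = 1) ∧ RegP c χ u
  sym : SymF u
  z : ∀ t, u 0 t = 0
  sn : ∀ t, 0 < t → SN (at' u t)
  att : Att b (fun t => at' u t) 0
  lq : ∀ q, 1 ≤ q → q < 2 → LP q u ≠ ⊤
  lp : ∫⁻ t in J0 ∩ Ioc 0 1, NW (Wa 0) (at' (u - y) t) ^ p ≤ L
  cm : ∀ t ∈ J0, δ1 ≤ t → NW (Wm 0) (at' (u - y) t) ≤ ENNReal.ofReal e
  cl : ∀ t ∈ J0, δ ≤ t → NW (ws s) (at' (u - y) t) ≤ ENNReal.ofReal e
  cr : ∀ t ∈ J0, critNorm r (at' (u - y) t) ≤ 4 * critNorm r (b - at' y 0) + ENNReal.ofReal e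
  nl : ∃ C : ℝ, 0 ≤ C ∧ ∀ k, ∫⁻ t in J0, ‖Bt u k t‖ₑ ≤ ENNReal.ofReal (C * nk k + 4 * ‖b k‖)
  kt : ∀ t ∈ J0, KA (u - y) t ≤ ENNReal.ofReal e
  kg : ∀ᶠ t in 𝓝[>] (0 : ℝ), KA u t ≤ ENNReal.ofReal (ga t)

lemma OutY.toG {ga : ℝ → ℝ} {c : ℝ} {b : K → C3} {y : Fam} {r p δ ε : ℝ} {s : ℕ} {u : Fam} (hp : 0 < p) (hy : ∀ t, y 0 t = 0)
    (hu : OutY ga c b y r p δ ε s u) : OutG ga c b y (Ioi 0) r p δ δ (ENNReal.ofReal ε ^ p) ε s u where
  cf := hu.cf
  reg := ⟨fun _ => 1, fun t _ => rfl, hu.reg⟩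
  sym := hu.sym
  z := hu.z
  sn := hu.sn
  att := hu.att
  lq := hu.lq
  lp := by
    rw [inter_eq_right.2 Ioc_subset_Ioi_self]
    calc _ = (LP p (u - y)) ^ p := by
          unfold LP
          rw [← ENNReal.rpow_mul, one_div_mul_cancel hp.ne', ENNReal.rpow_one]
      _ ≤ _ := ENNReal.rpow_le_rpow hu.lp hp.le
  cm := fun t _ h1 => by
    refine (Wm_le_Wa0 _).trans ((NW_ws_ge ?_).trans (hu.cl t h1))
    show u 0 t - y 0 t = 0
    rw [hu.z, hy, sub_self]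
  cl := fun t _ h1 => hu.cl t h1
  cr := fun t _ => hu.cr t
  nl := hu.nl
  kt := fun t ht => hu.kt t ht
  kg := hu.kg

/-- A block in physical space: a solution `u` on `(τ, ∞) × ℝ³`, which solves the unforced equations at the
times of `J`, starts from `a` and is near `w`. -/
structure PB (ga : ℝ → ℝ) (ν : ℝ) (w : ℝ → R3 → R3) (τ : ℝ) (J : Set ℝ) (a : K → C3) (r p δ1 δ : ℝ) (L : ℝ≥0∞) (ε : ℝ) (s : ℕ)
    (u : ℝ → R3 → R3) (P : ℝ → R3 → ℝ) : Prop where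
  sm_u : ContDiffOn ℝ ∞ (fun z : ℝ × R3 => u z.1 z.2) (Ioi τ ×ˢ univ)
  sm_p : ContDiffOn ℝ ∞ (fun z : ℝ × R3 => P z.1 z.2) (Ioi τ ×ˢ univ)
  per_u : ∀ t, Pe (u t)
  per_p : ∀ t, Pe (P t)
  mom : ∀ t ∈ J, ∀ x i, deriv (fun s => u s x i) t + ∑ j, u t x j * pd j (fun y => u t y i) x
    = ν * ∑ j, pd j (pd j fun y => u t y i) x - pd i (P t) x
  divf : ∀ t, τ < t → ∀ x, ∑ i, pd i (fun y => u t y i) x = 0
  mean : ∀ t, τ < t → fc (u t) 0 = a 0
  att : Att a (fun t => fc (u t)) τ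
  cont : ∀ t0, τ < t0 → ∀ r' : ℝ, 1 ≤ r' →
    Tendsto (fun t => critNorm r' (fun k => fc (u t) k - fc (u t0) k)) (𝓝 t0) (𝓝 0)
  fin : ∀ t, τ < t → ∀ r' : ℝ, 1 ≤ r' → critNorm r' (fc (u t)) ≠ ⊤
  bd : ∀ t0, τ < t0 → ∃ C : ℝ, ∀ t, t0 ≤ t → ∀ x, ‖u t x‖ₑ ≤ ENNReal.ofReal C
  lq : ∀ p' : ℝ, 1 ≤ p' → p' < 2 → ∫⁻ t in Ioc τ (τ + 1), (⨆ x, ‖u t x‖ₑ) ^ p' ≠ ⊤
  lp : ∫⁻ t in J ∩ Ioc τ (τ + 1), (⨆ x, ‖u t x - w t x‖ₑ) ^ p ≤ L
  ce : ∀ t ∈ J, τ + δ1 ≤ t → critNorm r (fun k => fc (u t) k - fc (w t) k) ≤ ENNReal.ofReal ε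
  cl : ∀ t ∈ J, τ + δ ≤ t →
    ∑' k, (1 + ENNReal.ofReal (nk k ^ s)) * ‖fc (u t) k - fc (w t) k‖ₑ ≤ ENNReal.ofReal ε
  cls : ∀ t ∈ J, τ + δ ≤ t → ∀ x, ‖u t x - w t x‖ₑ ≤ ENNReal.ofReal ε
  cr : ∀ t ∈ J, critNorm r (fun k => fc (u t) k - fc (w t) k) ≤
    4 * critNorm r (fun k => a k - fc (w τ) k) + ENNReal.ofReal ε
  nl : ∀ B : ℝ, ∃ C : ℝ, ∀ k, ∫⁻ t in J ∩ Ioc τ B, ‖fc (adv (u t) (P t)) k‖ₑ ≤ ENNReal.ofReal (C * (1 + nk k) + 4 * ‖a k‖)
  kt : ∀ t ∈ J, ∀ x, √(min (t - τ) 1) * ‖u t x - w t x‖ ≤ ε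
  kg : ∀ᶠ t in 𝓝[>] τ, ENNReal.ofReal (√(t - τ)) * ⨆ x, ‖u t x‖ₑ ≤ ENNReal.ofReal (ga (t - τ))

lemma lint_shift (τ : ℝ) (f : ℝ → ℝ≥0∞) (A : Set ℝ) : ∫⁻ t in {t | t - τ ∈ A}, f (t - τ) = ∫⁻ t in A, f t :=
  (measurePreserving_sub_right volume τ).setLIntegral_comp_preimage_emb
    (Homeomorph.subRight τ).measurableEmbedding f A

lemma comp_shift {F : Type*} [NormedAddCommGroup F] [NormedSpace ℝ F] {g : ℝ × R3 → F}
    (hg : ContDiffOn ℝ ∞ g (Ioi 0 ×ˢ univ)) (τ : ℝ) :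
    ContDiffOn ℝ ∞ (fun z : ℝ × R3 => g (z.1 - τ, z.2)) (Ioi τ ×ˢ univ) := by
  have hs : ContDiff ℝ ∞ fun z : ℝ × R3 => ((z.1 - τ, z.2) : ℝ × R3) :=
    (contDiff_fst.sub contDiff_const).prodMk contDiff_snd
  exact ContDiffOn.comp (g := g) (f := fun z : ℝ × R3 => ((z.1 - τ, z.2) : ℝ × R3)) hg hs.contDiffOn
    fun z hz => ⟨show (0 : ℝ) < z.1 - τ from sub_pos.2 hz.1, mem_univ _⟩

/-- the integrals of the coefficients over bounded times -/
lemma coef_int {c : ℝ} {χ : ℝ → ℝ} {u : Fam} (h : RegP c χ u) (hl : LP 1 u ≠ ⊤) (B : ℝ) :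
    ∃ C : ℝ, 0 ≤ C ∧ ∀ k, ∫⁻ t in Ioc 0 B, ‖u k t‖ₑ ≤ ENNReal.ofReal C := by
  obtain ⟨b, hb, hb'⟩ := h.bound one_pos
  have hb0 : ∀ k, 0 ≤ b k := fun k => (norm_nonneg _).trans (hb' k 1 le_rfl)
  obtain ⟨M, hM⟩ : ∃ M, M = max B 1 := ⟨_, rfl⟩
  have hM1 : 1 ≤ M := by rw [hM]; exact le_max_right _ _
  have hMB : B ≤ M := by rw [hM]; exact le_max_left _ _
  refine ⟨(LP 1 u).toReal + (∑' k, b k) * (M - 1), add_nonneg ENNReal.toReal_nonneg
    (mul_nonneg (tsum_nonneg hb0) (by linarith)), fun k => ?_⟩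
  have hsub : Ioc 0 B ⊆ Ioc 0 1 ∪ Ioc 1 M := by
    intro t ht
    rcases le_or_gt t 1 with h3 | h3
    · exact Or.inl ⟨ht.1, h3⟩
    · exact Or.inr ⟨h3, ht.2.trans hMB⟩
  refine ((lintegral_mono_set hsub).trans (lintegral_union_le _ _ _)).trans ?_
  rw [ENNReal.ofReal_add ENNReal.toReal_nonneg (mul_nonneg (tsum_nonneg hb0) (by linarith)),
    ENNReal.ofReal_toReal hl, ENNReal.ofReal_mul (tsum_nonneg hb0)]
  refine add_le_add ?_ ?_
  · have h1 : LP 1 u = ∫⁻ t in Ioc 0 1, NW (Wa 0) (at' u t) := by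
      unfold LP
      simp
    rw [h1]
    refine lintegral_mono fun t => ?_
    rw [NW_Wa_zero]
    exact ENNReal.le_tsum (f := fun k => ‖at' u t k‖ₑ) k
  · rw [← Real.volume_Ioc, ← setLIntegral_const]
    refine setLIntegral_mono' measurableSet_Ioc fun t ht => ?_
    rw [← ofReal_norm]
    exact ENNReal.ofReal_le_ofReal ((hb' k t ht.1.le).trans (hb.le_tsum k fun j _ => hb0 j))

theorem pb_of {ga : ℝ → ℝ} (hga : Gau ga) {ν : ℝ} {w : ℝ → R3 → R3} {τ : ℝ} {J0 : Set ℝ} (hJ : J0 ⊆ Ioi 0) (hJm : MeasurableSet J0) {a : K → C3}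
    {m : E3} (hm : ∀ i, a 0 i = (m i : ℂ)) {r p δ1 δ e ε : ℝ} {L : ℝ≥0∞} {s : ℕ} (hr : 1 ≤ r) (hp : 0 < p)
    (he0 : 0 < e) (he1 : 2 * e ≤ ε) {u y : Fam}
    (hu : OutG (fun t => ga t / 2) (4 * Real.pi ^ 2 * ν) (nz a) y J0 r p δ1 δ L e s u)
    (hyw : ∀ t ∈ J0, fld m y t = w (τ + t)) (hysn : ∀ t ∈ J0, SN (at' y t)) (hysy : SymF y) (hyz : ∀ t, y 0 t = 0)
    (hy0 : at' y 0 = nz (fc (w τ))) :
    PB ga ν w τ {t | t - τ ∈ J0} a r p δ1 δ L ε s (fun t => fld m u (t - τ)) (fun t => prs m u (t - τ)) := by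
  obtain ⟨χ, hχ1, hreg⟩ := hu.reg
  have hpos : ∀ t, τ < t → 0 < t - τ := fun t ht => sub_pos.2 ht
  have hm' : a 0 = fun i => (m i : ℂ) := funext hm
  have hsup : ∀ t ∈ J0, ⨆ x, ‖fld m u t x - w (τ + t) x‖ₑ ≤ NW (Wa 0) (at' (u - y) t) := by
    intro t ht
    refine iSup_le fun x => ?_
    rw [← hyw t ht]
    exact fld_sub_le (hu.sn t (hJ ht)) (hysn t ht) m x
  have hz' : ∀ t, at' (u - y) t 0 = 0 := fun t => by
    show u 0 t - y 0 t = 0
    rw [hu.z, hyz, sub_self]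
  have hdf : ∀ t ∈ J0, ∀ k, ‖fc (fld m u t) k - fc (w (τ + t)) k‖ₑ = ‖at' (u - y) t k‖ₑ := by
    intro t ht k
    rw [← hyw t ht]
    exact fc_fld_sub (hu.sn t (hJ ht)) (hysn t ht) (hu.sym t) (hysy t) (hu.z t) (hyz t) m k
  have hshift : ∀ t, τ + (t - τ) = t := fun t => by ring
  have hsu := comp_shift (hreg.smooth m) τ
  have hsp := comp_shift (hreg.smooth_p m) τ
  have htend : Tendsto (fun t : ℝ => t - τ) (𝓝[>] τ) (𝓝[>] 0) := by
    refine tendsto_nhdsWithin_of_tendsto_nhds_of_eventually_within _ ?_ ?_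
    · have : Tendsto (fun t : ℝ => t - τ) (𝓝 τ) (𝓝 (τ - τ)) := (continuous_id.sub continuous_const).tendsto τ
      rw [sub_self] at this
      exact this.mono_left nhdsWithin_le_nhds
    · filter_upwards [self_mem_nhdsWithin] with t ht
      exact hpos t ht
  refine ⟨?_, ?_, fun t => ?_, fun t => ?_, fun t ht x i => ?_,
    fun t ht x => ?_, fun t ht => ?_, fun r' h1 φ hφ h2 => ?_, fun t0 ht0 r' h1 => ?_,
    fun t ht r' h1 => ?_, fun t0 ht0 => ?_, fun p' h1 h2 => ?_, ?_, fun t ht h1 => ?_, fun t ht h1 => ?_,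
    fun t ht h1 x => ?_, fun t ht => ?_, fun B => ?_, fun t ht x => ?_, ?_⟩
  rotate_right 2
  · -- `√(t - τ) |u - w|`
    have h1 := hu.kt (t - τ) ht
    have h2 := (le_iSup (fun x => ‖fld m u (t - τ) x - w (τ + (t - τ)) x‖ₑ) x).trans (hsup (t - τ) ht)
    rw [hshift] at h2
    have h3 : ENNReal.ofReal (√(min (t - τ) 1) * ‖fld m u (t - τ) x - w t x‖) ≤ ENNReal.ofReal e := by
      rw [ENNReal.ofReal_mul (Real.sqrt_nonneg _), ofReal_norm]
      exact (mul_le_mul' le_rfl h2).trans h1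
    have h4 := (ENNReal.ofReal_le_ofReal_iff he0.le).1 h3
    show √(min (t - τ) 1) * ‖fld m u (t - τ) x - w t x‖ ≤ ε
    linarith
  · -- the gauge
    have h1 : ∀ᶠ t in 𝓝[>] (0 : ℝ), ENNReal.ofReal (√t) * ⨆ x, ‖fld m u t x‖ₑ ≤ ENNReal.ofReal (ga t) := by
      filter_upwards [Ioo_mem_nhdsGT (zero_lt_one (α := ℝ)), hu.kg, hga.sqrt_le (2 * ‖m‖)] with t ht hkt hsl
      have hg0 : 0 ≤ √t * (2 * ‖m‖) := by positivity
      have h5 : ⨆ x, ‖fld m u t x‖ₑ ≤ ENNReal.ofReal ‖m‖ + NW (Wa 0) (at' u t) := by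
        refine iSup_le fun x => ?_
        have h6 := fld_sub_le (u := u) (v := 0) (hu.sn t ht.1) (by
          show Summable fun k => ‖at' (0 : Fam) t k‖
          simp [at']) m x
        have e0 : fld m 0 t x = m := by
          funext i
          unfold fld GS SF
          simp [cf']
        rw [e0, sub_zero] at h6
        calc ‖fld m u t x‖ₑ = ‖m + (fld m u t x - m)‖ₑ := by congr 1; abel
          _ ≤ ‖m‖ₑ + ‖fld m u t x - m‖ₑ := enorm_add_le _ _
          _ ≤ _ := add_le_add (by rw [ofReal_norm]) h6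
      refine (mul_le_mul' le_rfl h5).trans ?_
      rw [mul_add, ← ENNReal.ofReal_mul (Real.sqrt_nonneg _)]
      have h7 : ENNReal.ofReal (√t) * NW (Wa 0) (at' u t) ≤ ENNReal.ofReal (ga t / 2) := by
        unfold KA at hkt
        rwa [min_eq_left ht.2.le] at hkt
      refine (add_le_add le_rfl h7).trans ?_
      rw [← ENNReal.ofReal_add (by positivity) (by linarith)]
      exact ENNReal.ofReal_le_ofReal (by linarith)
    exact htend.eventually h1
  · exact hsu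
  · exact hsp
  · exact fld_per m u (t - τ)
  · exact prs_per m u (t - τ)
  · have h1 := hreg.mom m (hJ ht) (hχ1 _ ht) x i
    have h2 : deriv (fun s => fld m u (s - τ) x i) t = deriv (fun s => fld m u s x i) (t - τ) :=
      deriv_comp_sub_const (fun s => fld m u s x i) τ t
    show deriv (fun s => fld m u (s - τ) x i) t + _ = _
    rw [h2]
    exact h1
  · exact hreg.divf m (hpos t ht) x
  · show fc (fld m u (t - τ)) 0 = a 0
    rw [fc_fld_zero (hu.sn _ (hpos t ht)) (hu.sym _) (hu.z _) m, hm']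
  · have h3 := att_phys (a := a) (b := nz a) (fun k hk => by simp [nz, hk]) m hu.sn hu.sym hu.z hu.att
    exact (h3 r' h1 φ hφ h2).comp htend
  · have h3 := hreg.crit_cont hu.cf hu.sn hu.sym hu.z m (hpos t0 ht0) h1
    have h4 : Tendsto (fun t : ℝ => t - τ) (𝓝 t0) (𝓝 (t0 - τ)) := (continuous_id.sub continuous_const).tendsto t0
    exact h3.comp h4
  · have h3 : critNorm r' (fc (fld m u (t - τ))) = critNorm r' (cof m u (t - τ)) := by
      rw [fc_fld (hu.sn _ (hpos t ht)) (hu.sym _) (hu.z _) m]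
    show critNorm r' (fc (fld m u (t - τ))) ≠ ⊤
    rw [h3]
    have h4 : critNorm r' (cof m u (t - τ)) = critNorm r' (ph m (t - τ) (at' u (t - τ))) := by
      refine critNorm_congr fun k hk => ?_
      simp only [cof, if_neg hk]
      rfl
    rw [h4, critNorm_ph (by linarith)]
    refine ne_top_of_le_ne_top ?_ (critNorm_le_sum h1 _)
    refine ENNReal.mul_ne_top (by norm_num) ?_
    rw [← NW_Wa_zero]
    exact NW_ne_top_of_sn (hu.sn _ (hpos t ht))
  · obtain ⟨b, hb, hb'⟩ := hreg.bound (hpos t0 ht0)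
    refine ⟨‖m‖ + ∑' k, b k, fun t ht x => ?_⟩
    have h0 : t0 - τ ≤ t - τ := by linarith
    have h1 : 0 < t - τ := lt_of_lt_of_le (hpos t0 ht0) h0
    have h6 := fld_sub_le (u := u) (v := 0) (hu.sn (t - τ) h1) (by
      show Summable fun k => ‖at' (0 : Fam) (t - τ) k‖
      simp [at']) m x
    have e0 : fld m 0 (t - τ) x = m := by
      funext i
      unfold fld GS SF
      simp [cf']
    rw [e0, sub_zero, NW_eq_An (hu.sn _ h1)] at h6
    have hb0 : ∀ k, 0 ≤ b k := fun k => (norm_nonneg _).trans (hb' k (t0 - τ) le_rfl)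
    calc ‖fld m u (t - τ) x‖ₑ = ‖m + (fld m u (t - τ) x - m)‖ₑ := by congr 1; abel
      _ ≤ ‖m‖ₑ + ‖fld m u (t - τ) x - m‖ₑ := enorm_add_le _ _
      _ ≤ ENNReal.ofReal ‖m‖ + ENNReal.ofReal (∑' k, b k) :=
          add_le_add (by rw [ofReal_norm]) (h6.trans (ENNReal.ofReal_le_ofReal
            (Summable.tsum_le_tsum (fun k => hb' k _ h0) (hu.sn _ h1) hb)))
      _ = _ := (ENNReal.ofReal_add (norm_nonneg _) (tsum_nonneg hb0)).symm
  · -- `L^p` in time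
    have hp0 : 0 < p' := by linarith
    have h3 := hu.lq p' h1 h2
    have h4 : ∀ t ∈ Ioc (0 : ℝ) 1, (⨆ x, ‖fld m u t x‖ₑ) ^ p' ≤
        2 ^ (p' - 1) * (ENNReal.ofReal ‖m‖ ^ p' + NW (Wa 0) (at' u t) ^ p') := by
      intro t ht
      have h5 : ⨆ x, ‖fld m u t x‖ₑ ≤ ENNReal.ofReal ‖m‖ + NW (Wa 0) (at' u t) := by
        refine iSup_le fun x => ?_
        have h6 := fld_sub_le (u := u) (v := 0) (hu.sn t ht.1) (by
          show Summable fun k => ‖at' (0 : Fam) t k‖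
          simp [at']) m x
        have e0 : fld m 0 t x = m := by
          funext i
          unfold fld GS SF
          simp [cf']
        rw [e0, sub_zero] at h6
        calc ‖fld m u t x‖ₑ = ‖m + (fld m u t x - m)‖ₑ := by congr 1; abel
          _ ≤ ‖m‖ₑ + ‖fld m u t x - m‖ₑ := enorm_add_le _ _
          _ ≤ _ := add_le_add (by rw [ofReal_norm]) h6
      exact (ENNReal.rpow_le_rpow h5 hp0.le).trans (ENNReal.rpow_add_le_mul_rpow_add_rpow _ _ h1)
    have e1 : Ioc τ (τ + 1) = {t | t - τ ∈ Ioc (0 : ℝ) 1} := by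
      ext t
      simp only [mem_Ioc, mem_ofPred_eq]
      constructor
      · rintro ⟨h5, h6⟩; exact ⟨by linarith, by linarith⟩
      · rintro ⟨h5, h6⟩; exact ⟨by linarith, by linarith⟩
    rw [e1, lint_shift τ (fun t => (⨆ x, ‖fld m u t x‖ₑ) ^ p')]
    refine ne_top_of_le_ne_top ?_ (setLIntegral_mono' measurableSet_Ioc h4)
    rw [lintegral_const_mul' _ _ (by simp), lintegral_add_left measurable_const]
    refine ENNReal.mul_ne_top (by simp) (ENNReal.add_ne_top.2 ⟨?_, ?_⟩)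
    · rw [setLIntegral_const, Real.volume_Ioc]
      exact ENNReal.mul_ne_top (ENNReal.rpow_ne_top_of_nonneg hp0.le ENNReal.ofReal_ne_top) ENNReal.ofReal_ne_top
    · intro h7
      apply h3
      unfold LP
      rw [h7, ENNReal.top_rpow_of_pos (by positivity)]
  · have e1 : {t | t - τ ∈ J0} ∩ Ioc τ (τ + 1) = {t | t - τ ∈ J0 ∩ Ioc (0 : ℝ) 1} := by
      ext t
      simp only [mem_inter_iff, mem_Ioc, mem_ofPred_eq]
      constructor
      · rintro ⟨h4, h5, h6⟩; exact ⟨h4, by linarith, by linarith⟩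
      · rintro ⟨h4, h5, h6⟩; exact ⟨h4, by linarith, by linarith⟩
    have e2 : ∀ t, (⨆ x, ‖fld m u (t - τ) x - w t x‖ₑ) ^ p
        = (fun t => (⨆ x, ‖fld m u t x - w (τ + t) x‖ₑ) ^ p) (t - τ) := fun t => by
      simp only [hshift]
    rw [e1]
    simp only [e2]
    rw [lint_shift τ (fun t => (⨆ x, ‖fld m u t x - w (τ + t) x‖ₑ) ^ p)]
    have hle : ∫⁻ t in J0 ∩ Ioc 0 1, (⨆ x, ‖fld m u t x - w (τ + t) x‖ₑ) ^ p
        ≤ ∫⁻ t in J0 ∩ Ioc 0 1, NW (Wa 0) (at' (u - y) t) ^ p := by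
      exact setLIntegral_mono' (hJm.inter measurableSet_Ioc) fun t ht => ENNReal.rpow_le_rpow (hsup t ht.1) hp.le
    exact hle.trans hu.lp
  · have h3 := hu.cm (t - τ) ht (by linarith)
    have h4 : ∀ k, ‖fc (fld m u (t - τ)) k - fc (w t) k‖ₑ = ‖at' (u - y) (t - τ) k‖ₑ := fun k => by
      rw [← hdf (t - τ) ht k, hshift]
    have e1 : critNorm r (fun k => fc (fld m u (t - τ)) k - fc (w t) k) ≤ critNorm r (at' (u - y) (t - τ)) :=
      critNorm_mono (by linarith) fun k _ => (h4 k).le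
    refine e1.trans ((critNorm_le_NW hr _).trans ((mul_le_mul' le_rfl h3).trans ?_))
    rw [← ENNReal.ofReal_ofNat, ← ENNReal.ofReal_mul (by norm_num)]
    exact ENNReal.ofReal_le_ofReal he1
  · have h3 := hu.cl (t - τ) ht (by linarith)
    have h4 : ∀ k, ‖fc (fld m u (t - τ)) k - fc (w t) k‖ₑ = ‖at' (u - y) (t - τ) k‖ₑ := fun k => by
      rw [← hdf (t - τ) ht k, hshift]
    calc ∑' k, (1 + ENNReal.ofReal (nk k ^ s)) * ‖fc (fld m u (t - τ)) k - fc (w t) k‖ₑ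
        = ∑' k, (1 + ENNReal.ofReal (nk k ^ s)) * ‖at' (u - y) (t - τ) k‖ₑ :=
          tsum_congr fun k => by rw [h4]
      _ = NW (Wa 0) (at' (u - y) (t - τ)) + NW (ws s) (at' (u - y) (t - τ)) := by
          rw [NW_Wa_zero]
          unfold NW ws
          rw [← ENNReal.tsum_add]
          exact tsum_congr fun k => by rw [add_mul, one_mul]
      _ ≤ ENNReal.ofReal e + ENNReal.ofReal e := add_le_add ((NW_ws_ge (hz' _)).trans h3) h3
      _ ≤ _ := by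
          rw [← ENNReal.ofReal_add he0.le he0.le]
          exact ENNReal.ofReal_le_ofReal (by linarith)
  · have h3 := hu.cl (t - τ) ht (by linarith)
    have h4 := hsup (t - τ) ht
    rw [hshift] at h4
    refine (le_iSup (fun x => ‖fld m u (t - τ) x - w t x‖ₑ) x).trans (h4.trans ((NW_ws_ge (hz' _)).trans
      (h3.trans (ENNReal.ofReal_le_ofReal (by linarith)))))
  · have h3 := hu.cr (t - τ) ht
    have h4 : ∀ k, ‖fc (fld m u (t - τ)) k - fc (w t) k‖ₑ = ‖at' (u - y) (t - τ) k‖ₑ := fun k => by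
      rw [← hdf (t - τ) ht k, hshift]
    have e1 : critNorm r (fun k => fc (fld m u (t - τ)) k - fc (w t) k) = critNorm r (at' (u - y) (t - τ)) := by
      apply le_antisymm
      · exact critNorm_mono (by linarith) fun k _ => (h4 k).le
      · exact critNorm_mono (by linarith) fun k _ => (h4 k).ge
    have e2 : critNorm r (nz a - at' y 0) = critNorm r (fun k => a k - fc (w τ) k) := by
      rw [hy0]
      exact critNorm_congr fun k hk => by simp [nz, hk]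
    rw [e1]
    rw [e2] at h3
    exact h3.trans (add_le_add le_rfl (ENNReal.ofReal_le_ofReal (by linarith)))
  · obtain ⟨C1, hC1, h1⟩ := hu.nl
    obtain ⟨C2, hC2, h2⟩ := coef_int hreg (hu.lq 1 le_rfl (by norm_num)) (B - τ)
    refine ⟨C1 + 2 * Real.pi * (3 * ‖m‖) * C2, fun k => ?_⟩
    have hn := nk_nonneg k
    have hpi := Real.pi_pos
    have e1 : {t | t - τ ∈ J0} ∩ Ioc τ B = {t | t - τ ∈ J0 ∩ Ioc (0 : ℝ) (B - τ)} := by
      ext t
      simp only [mem_inter_iff, mem_Ioc, mem_ofPred_eq]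
      constructor
      · rintro ⟨h4, h5, h6⟩; exact ⟨h4, by linarith, by linarith⟩
      · rintro ⟨h4, h5, h6⟩; exact ⟨h4, by linarith, by linarith⟩
    rw [e1, lint_shift τ (fun t => ‖fc (adv (fld m u t) (prs m u t)) k‖ₑ)]
    have hmeas : Measurable fun t => ENNReal.ofReal (2 * Real.pi * (3 * ‖m‖) * nk k) * ‖u k t‖ₑ :=
      ((hu.cf k).enorm.measurable).const_mul _
    calc ∫⁻ t in J0 ∩ Ioc 0 (B - τ), ‖fc (adv (fld m u t) (prs m u t)) k‖ₑ
        ≤ ∫⁻ t in J0 ∩ Ioc 0 (B - τ), (‖Bt u k t‖ₑ + ENNReal.ofReal (2 * Real.pi * (3 * ‖m‖) * nk k) * ‖u k t‖ₑ) :=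
          setLIntegral_mono' (hJm.inter measurableSet_Ioc) fun t ht =>
            adv_le hreg hu.sn hu.sym hu.z m (hJ ht.1) (hχ1 t ht.1) k
      _ = (∫⁻ t in J0 ∩ Ioc 0 (B - τ), ‖Bt u k t‖ₑ)
          + ∫⁻ t in J0 ∩ Ioc 0 (B - τ), ENNReal.ofReal (2 * Real.pi * (3 * ‖m‖) * nk k) * ‖u k t‖ₑ :=
          lintegral_add_right _ hmeas
      _ ≤ (∫⁻ t in J0, ‖Bt u k t‖ₑ) + ∫⁻ t in Ioc 0 (B - τ), ENNReal.ofReal (2 * Real.pi * (3 * ‖m‖) * nk k) * ‖u k t‖ₑ :=
          add_le_add (lintegral_mono_set inter_subset_left) (lintegral_mono_set inter_subset_right)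
      _ ≤ ENNReal.ofReal (C1 * nk k + 4 * ‖nz a k‖) + ENNReal.ofReal (2 * Real.pi * (3 * ‖m‖) * nk k) * ENNReal.ofReal C2 := by
          rw [lintegral_const_mul' _ _ ENNReal.ofReal_ne_top]
          exact add_le_add (h1 k) (mul_le_mul' le_rfl (h2 k))
      _ = ENNReal.ofReal (C1 * nk k + 4 * ‖nz a k‖ + 2 * Real.pi * (3 * ‖m‖) * nk k * C2) := by
          rw [← ENNReal.ofReal_mul (by positivity), ← ENNReal.ofReal_add (by positivity) (by positivity)]
      _ ≤ _ := by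
          refine ENNReal.ofReal_le_ofReal ?_
          have h3 : 0 ≤ C1 + 2 * Real.pi * (3 * ‖m‖) * C2 := by positivity
          have h4 : ‖nz a k‖ ≤ ‖a k‖ := by
            unfold nz
            split_ifs
            · rw [norm_zero]; exact norm_nonneg _
            · exact le_rfl
          nlinarith

end Pool.Agent.H356R3.NS.X
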