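import Pool.Agent.H3NY.X.PathW

namespace Pool.Agent.H356R3.NS
end Pool.Agent.H356R3.NS
namespace Pool.Agent.H356R3.NS.H3
end Pool.Agent.H356R3.NS.H3
namespace Pool.Agent.H356R3.NS.X
end Pool.Agent.H356R3.NS.X
namespace Pool.Agent.H3NS
end Pool.Agent.H3NS
namespace H459R3.NS
end H459R3.NS

set_option autoImplicit false
set_option maxHeartbeats 4000000
set_option synthInstance.maxHeartbeats 400000

/-!
Paths which solve the equations on an open set of times.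
-/

open MeasureTheory Set Filter Topology
open scoped ENNReal NNReal ContDiff

namespace Pool.Agent.H356R3.NS.X

open Pool.Agent.H3NS
open H459R3.NS (fr ee SP IsSol cube)

/-- the path `w` solves the unforced equations with the pressure `q` at the times of `O` -/
structure SolOn (ν : ℝ) (O : Set ℝ) (w : ℝ → R3 → R3) (q : ℝ → R3 → ℝ) : Prop where
  smooth_q : ContDiffOn ℝ ∞ (fun z : ℝ × R3 => q z.1 z.2) (O ×ˢ univ)
  per_q : ∀ t ∈ O, Pe (q t)
  mom : ∀ t ∈ O, ∀ x i, deriv (fun s => w s x i) t + ∑ j, w t x j * pd j (fun y => w t y i) x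
    = ν * ∑ j, pd j (pd j fun y => w t y i) x - pd i (q t) x

lemma SolOn.mono {ν : ℝ} {O O' : Set ℝ} {w : ℝ → R3 → R3} {q : ℝ → R3 → ℝ} (h : SolOn ν O w q) (hO : O' ⊆ O) :
    SolOn ν O' w q :=
  ⟨h.smooth_q.mono (prod_mono hO subset_rfl), fun t ht => h.per_q t (hO ht), fun t ht => h.mom t (hO ht)⟩

lemma SolOn.shift {ν : ℝ} {O : Set ℝ} {w : ℝ → R3 → R3} {q : ℝ → R3 → ℝ} (h : SolOn ν O w q) (τ : ℝ) :
    SolOn ν {s | τ + s ∈ O} (fun s => w (τ + s)) (fun s => q (τ + s)) := by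
  refine ⟨?_, fun t ht => h.per_q _ ht, fun t ht x i => ?_⟩
  · refine ContDiffOn.comp (g := fun z : ℝ × R3 => q z.1 z.2) (f := fun z : ℝ × R3 => ((τ + z.1, z.2) : ℝ × R3))
      h.smooth_q (by fun_prop) fun z hz => ⟨hz.1, mem_univ _⟩
  · have h1 := h.mom (τ + t) ht x i
    rw [← h1]
    congr 1
    exact deriv_comp_const_add (fun s => w s x i) τ t

section
variable {ν T : ℝ} {w : ℝ → R3 → R3} {q : ℝ → R3 → ℝ} {O : Set ℝ}

lemma SV.shift' {D : Set ℝ} (h : SV D w) (τ : ℝ) : SV {s | τ + s ∈ D} (fun s => w (τ + s)) := by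
  refine ⟨fun i => ?_, fun t ht => h.per _ ht⟩
  exact ContDiffOn.comp (g := fun z : ℝ × R3 => w z.1 z.2 i) (f := fun z : ℝ × R3 => ((τ + z.1, z.2) : ℝ × R3))
      (h.sm i) (by fun_prop) fun z hz => ⟨hz.1, mem_univ _⟩

lemma SV.mono' {D D' : Set ℝ} (h : SV D w) (hD : D' ⊆ D) : SV D' w :=
  ⟨fun i => (h.sm i).mono hD, fun t ht => h.per t (hD ht)⟩

/-- near a time of `O` the path is a solution in the sense of the library -/
lemma isSol_near (h : SV (Ico 0 T) w) (hd : ∀ t ∈ Ico 0 T, ∀ x, ∑ i, pd i (fun y => w t y i) x = 0)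
    (hO : IsOpen O) (hOT : O ⊆ Ico 0 T) (hs : SolOn ν O w q) {t0 : ℝ} (ht0 : t0 ∈ O) : ∃ η : ℝ, 0 < η ∧
    IsSol ν (2 * η) (fun s => w (t0 - η + s)) (fun s => q (t0 - η + s)) := by
  obtain ⟨e, he, hball⟩ := Metric.isOpen_iff.1 hO t0 ht0
  obtain ⟨η, hη⟩ : ∃ η, η = e / 2 := ⟨_, rfl⟩
  have hη0 : 0 < η := by rw [hη]; positivity
  have hsub : ∀ s ∈ Ico 0 (2 * η), t0 - η + s ∈ O := by
    intro s hs'
    apply hball
    rw [Metric.mem_ball, Real.dist_eq, abs_lt]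
    constructor
    · linarith [hs'.1]
    · linarith [hs'.2]
  have h1 := SV.mono' (D' := Ico 0 (2 * η)) (SV.shift' h (t0 - η)) fun s hs' => hOT (hsub s hs')
  have h2 := (hs.shift (t0 - η)).mono (O' := Ico 0 (2 * η)) fun s hs' => hsub s hs'
  refine ⟨η, hη0, ⟨contDiffOn_pi.2 fun i => h1.sm i, h2.smooth_q, fun t ht => ?_, fun t ht => ?_,
    fun t ht x => hd _ (hOT (hsub t ht)) x, fun t ht x i => h2.mom t ⟨ht.1.le, ht.2⟩ x i⟩⟩
  · exact fun i x => h1.per t ht x i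
  · exact fun i x => h2.per_q t ht x i

/-- the equation for the coefficients at the times of `O` -/
lemma fc_dwt_eq (h : SV (Ico 0 T) w) (hd : ∀ t ∈ Ico 0 T, ∀ x, ∑ i, pd i (fun y => w t y i) x = 0)
    (hO : IsOpen O) (hOT : O ⊆ Ico 0 T) (hs : SolOn ν O w q) {t0 : ℝ} (ht0 : t0 ∈ O) (ht00 : 0 < t0) {k : K}
    (hk : k ≠ 0) (i : Fin 3) : fc (dwt w t0) k i
      = -((4 * Real.pi ^ 2 * ν * Pool.Agent.H356R3.NS.sq k : ℝ) : ℂ) * fc (w t0) k i + Bf (fc (w t0)) (fc (w t0)) k i := by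
  obtain ⟨η, hη, hI⟩ := isSol_near h hd hO hOT hs ht0
  have h1 := ode_coef hI (t := η) ⟨hη, by linarith⟩ hk i
  have e0 : t0 - η + η = t0 := by ring
  simp only [e0] at h1
  have h2 : HasDerivAt (fun s => fc (w s) k i)
      (-((4 * Real.pi ^ 2 * ν * Pool.Agent.H356R3.NS.sq k : ℝ) : ℂ) * fc (w t0) k i + Bf (fc (w t0)) (fc (w t0)) k i) t0 := by
    have h3 := HasDerivAt.comp_sub_const (x := t0) (a := t0 - η)
      (f := fun s => fc (w (t0 - η + s)) k i) (by rw [sub_sub_cancel]; exact h1)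
    refine h3.congr_of_eventuallyEq (Filter.Eventually.of_forall fun s => ?_)
    simp only
    rw [add_sub_cancel]
  exact (fcS_deriv h ⟨ht00, (hOT ht0).2⟩ k i).unique h2

/-- On `O` the right side is the nonlinear term. -/
lemma gb_eq (h : SV (Ico 0 T) w) (hd : ∀ t ∈ Ico 0 T, ∀ x, ∑ i, pd i (fun y => w t y i) x = 0)
    {m : E3} (hm : ∀ t ∈ Ico 0 T, ∀ i, fc (w t) 0 i = (m i : ℂ))
    (hO : IsOpen O) (hOT : O ⊆ Ico 0 T) (hs : SolOn ν O w q) {τ H0 : ℝ} (hτ : 0 ≤ τ) (hT : τ + H0 < T) {t : ℝ}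
    (ht : 0 < t) (htH : t ≤ H0) (htO : τ + t ∈ O) :
    at' (gb (4 * Real.pi ^ 2 * ν) m w τ H0) t = at' (Bt (yb m w τ H0)) t := by
  have hH : 0 < H0 := lt_of_lt_of_le ht htH
  have hI : τ + t ∈ Ico 0 T := hOT htO
  have hsn : SN (fc (w (τ + t))) := by
    obtain ⟨C, hC, hb⟩ := fcS_bound h (show τ + H0 < T from hT) 4
    have h1 : ∀ k : K, k ≠ 0 → ‖fc (w (τ + t)) k‖ ≤ C * (1 / nk k) ^ 4 := fun k hk => by
      have hn := nk_pos hk
      have h1 := hb (τ + t) ⟨by linarith, by linarith⟩ k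
      rw [one_div, inv_pow, ← div_eq_mul_inv, le_div_iff₀ (by positivity)]
      linarith
    have h2 : Summable fun k : K => C * (1 / nk k) ^ 4 + if k = 0 then ‖fc (w (τ + t)) 0‖ else 0 :=
      (summ_nk4.mul_left C).add (summable_of_ne_finset_zero (s := {0}) fun l hl => if_neg (by simpa using hl))
    refine h2.of_nonneg_of_le (fun _ => norm_nonneg _) fun k => ?_
    by_cases hk : k = 0
    · subst hk
      rw [if_pos rfl]
      have : (0 : ℝ) ≤ C * (1 / nk 0) ^ 4 := by rw [nk_zero]; positivity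
      linarith
    · rw [if_neg hk, add_zero]
      exact h1 k hk
  funext k
  have e0 : at' (yb m w τ H0) t = ph m (-t) (nz (fc (w (τ + t)))) := by
    funext l
    show ph m (-(clt H0 t)) (nz (fc (w (τ + clt H0 t)))) l = _
    rw [clt_eq ht.le htH]
  have hB : at' (Bt (yb m w τ H0)) t k = ph m (-t) (Bf (nz (fc (w (τ + t)))) (nz (fc (w (τ + t))))) k := by
    show Bf (at' (yb m w τ H0) t) (at' (yb m w τ H0) t) k = _
    rw [e0, Bf_ph]
  by_cases hk : k = 0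
  · subst hk
    have e1 : at' (gb (4 * Real.pi ^ 2 * ν) m w τ H0) t 0 = 0 := gb_zero _ _ _ _ _
    rw [e1]
    show (0 : C3) = Bf _ _ 0
    rw [Bf_zero]
  rw [hB]
  funext i
  have hdv : ∑ j, (k j : ℂ) * fc (w (τ + t)) k j = 0 := by
    simp only [fc_fr]
    exact H459R3.NS.fr_div (v := fun i y => w (τ + t) y i) (fun i => SV.sp h hI i) (hd _ hI) k
  have h1 := fc_dwt_eq h hd hO hOT hs htO (by linarith) hk i
  rw [Bf_split hsn hk hdv i] at h1
  simp only [hm _ hI] at h1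
  show gb (4 * Real.pi ^ 2 * ν) m w τ H0 k t i = Bf (nz (fc (w (τ + t)))) (nz (fc (w (τ + t)))) k i * ex k (-((-t) • m))
  unfold gb
  rw [if_neg hk, clt_eq ht.le htH, h1, neg_smul, neg_neg]
  push_cast
  ring

lemma res_zero (h : SV (Ico 0 T) w) (hd : ∀ t ∈ Ico 0 T, ∀ x, ∑ i, pd i (fun y => w t y i) x = 0)
    {m : E3} (hm : ∀ t ∈ Ico 0 T, ∀ i, fc (w t) 0 i = (m i : ℂ))
    (hO : IsOpen O) (hOT : O ⊆ Ico 0 T) (hs : SolOn ν O w q) {τ H0 h1 : ℝ} (hτ : 0 ≤ τ) (hT : τ + H0 < T)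
    (hh : h1 ≤ H0) (hsub : Ioo τ (τ + h1) ⊆ O) :
    ∫⁻ t in Ioc 0 h1, NW (Wm 0) (at' (Bt (yb m w τ H0)) t - at' (gb (4 * Real.pi ^ 2 * ν) m w τ H0) t) = 0 := by
  rw [← setLIntegral_congr Ioo_ae_eq_Ioc]
  rw [setLIntegral_congr_fun measurableSet_Ioo (g := fun _ => 0) fun t ht => ?_]
  · simp
  · simp only
    rw [gb_eq h hd hm hO hOT hs hτ hT ht.1 (ht.2.le.trans hh) (hsub ⟨by linarith [ht.1], by linarith [ht.2]⟩), sub_self]
    exact NW_zero _

/-- the field from its coefficients -/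
lemma fld_of_fc {v : R3 → R3} (hv : ∀ i, SP (fun y => v y i)) {m : E3} (hm : ∀ i, fc v 0 i = (m i : ℂ)) {y : Fam} {t : ℝ}
    (hy : ∀ k, k ≠ 0 → ∀ i, y k t i = fc v k i * ex k (t • m)) (h0 : y 0 t = 0) (hsn : SN (at' y t)) :
    fld m y t = v := by
  funext x i
  have hi := H459R3.NS.S_fr (hv i) x
  unfold H459R3.NS.S at hi
  have e2 : ∀ k, fr (fun y => v y i) k * ee k x = fc v k i * ex k x := fun k => by rw [fc_fr, ee_ex]
  simp only [e2] at hi
  have hs1 : Summable fun k => y k t i * ex k (x - t • m) := by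
    refine Summable.of_norm_bounded hsn fun k => ?_
    rw [norm_mul, norm_ex, mul_one]
    exact norm_le_pi_norm _ i
  have hs2 : Summable fun k : K => (if k = 0 then (m i : ℂ) else 0) := by
    refine summable_of_ne_finset_zero (s := {0}) fun k hk => ?_
    rw [if_neg (by simpa using hk)]
  have e4 : ∀ k, fc v k i * ex k x = (if k = 0 then (m i : ℂ) else 0) + y k t i * ex k (x - t • m) := by
    intro k
    by_cases h : k = 0
    · subst h
      rw [h0, hm]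
      simp [ex]
    · have e5 : ex k (t • m) * ex k (-(t • m)) = 1 := by
        have h1 := ex_sub k (t • m) (t • m)
        rw [sub_self] at h1
        have h2 : ex k (0 : E3) = 1 := by simp [ex]
        rw [h2] at h1
        rw [mul_comm, ← h1]
      rw [if_neg h, zero_add, hy k h, ex_sub]
      calc fc v k i * ex k x = fc v k i * ex k x * 1 := (mul_one _).symm
        _ = fc v k i * ex k x * (ex k (t • m) * ex k (-(t • m))) := by rw [e5]
        _ = _ := by ring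
  simp only [e4] at hi
  rw [hs2.tsum_add hs1, tsum_ite_eq] at hi
  have h5 := congrArg Complex.re hi
  rw [Complex.add_re, Complex.ofReal_re, Complex.ofReal_re] at h5
  exact h5

lemma fld_yb (h : SV (Ico 0 T) w) {m : E3} (hm : ∀ t ∈ Ico 0 T, ∀ i, fc (w t) 0 i = (m i : ℂ)) {τ H0 : ℝ}
    (hτ : 0 ≤ τ) (hT : τ + H0 < T) {t : ℝ} (ht : 0 ≤ t) (htH : t ≤ H0) (hsn : SN (at' (yb m w τ H0) t)) :
    fld m (yb m w τ H0) t = w (τ + t) := by
  have hI : τ + t ∈ Ico 0 T := ⟨by linarith, by linarith⟩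
  refine fld_of_fc (fun i => SV.sp h hI i) (hm _ hI) (fun k hk i => ?_) (yb_zero m τ H0 t) hsn
  rw [yb_apply hk, clt_eq ht htH]

end

end Pool.Agent.H356R3.NS.X
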