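import Pool.Agent.H3NY.X.RegX
import Pool.Agent.H3NY.X.Step5

namespace Pool.Agent.H356R3.NS
end Pool.Agent.H356R3.NS
namespace Pool.Agent.H356R3.NS.H3
end Pool.Agent.H356R3.NS.H3
namespace Pool.Agent.H356R3.NS.X
end Pool.Agent.H356R3.NS.X
namespace Pool.Agent.H3NS
end Pool.Agent.H3NS
namespace H459R3.NS
end H459R3.NS

set_option autoImplicit false
set_option maxHeartbeats 4000000
set_option synthInstance.maxHeartbeats 400000

open MeasureTheory Set Filter Topology
open scoped ENNReal NNReal ContDiff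

namespace Pool.Agent.H356R3.NS.X

/-- smooth functions which are constant near both ends -/
def PC (φ : ℝ → ℝ) : Prop := ContDiff ℝ ∞ φ ∧ (∃ a α, ∀ t, t < a → φ t = α) ∧ ∃ b β, ∀ t, b < t → φ t = β

lemma PC.bdd {φ : ℝ → ℝ} (h : PC φ) : ∃ C, ∀ t, |φ t| ≤ C := by
  obtain ⟨h1, ⟨a, α, ha⟩, b, β, hb⟩ := h
  obtain ⟨C, hC⟩ := (isCompact_Icc (a := a) (b := b)).exists_bound_of_continuousOn h1.continuous.continuousOn
  refine ⟨max C (max |α| |β|), fun t => ?_⟩
  rcases lt_or_ge t a with h2 | h2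
  · rw [ha t h2]
    exact (le_max_left _ _).trans (le_max_right _ _)
  rcases lt_or_ge b t with h3 | h3
  · rw [hb t h3]
    exact (le_max_right _ _).trans (le_max_right _ _)
  · have := hC t ⟨h2, h3⟩
    rw [Real.norm_eq_abs] at this
    exact this.trans (le_max_left _ _)

lemma PC.deriv {φ : ℝ → ℝ} (h : PC φ) : PC (deriv φ) := by
  obtain ⟨h1, ⟨a, α, ha⟩, b, β, hb⟩ := h
  refine ⟨?_, ⟨a, 0, fun t ht => ?_⟩, b, 0, fun t ht => ?_⟩
  · exact (contDiff_infty_iff_deriv.1 h1).2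
  · have : φ =ᶠ[𝓝 t] fun _ => α := by
      filter_upwards [gt_mem_nhds ht] with s hs
      exact ha s hs
    rw [this.deriv_eq]
    simp
  · have : φ =ᶠ[𝓝 t] fun _ => β := by
      filter_upwards [lt_mem_nhds ht] with s hs
      exact hb s hs
    rw [this.deriv_eq]
    simp

lemma PC.tf {n : ℕ} : ∀ {φ : ℝ → ℝ}, PC φ → TF n φ := by
  induction n with
  | zero =>
    intro φ h
    exact ⟨h.1.continuous, h.bdd⟩
  | succ n ih =>
    intro φ h
    exact ⟨⟨h.1.continuous, h.bdd⟩, _root_.deriv φ, fun t =>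
      ((h.1.differentiable (by simp)) t).hasDerivAt, ih h.deriv⟩

/-- a smooth cut-off in time -/
lemma exists_cut {h h' : ℝ} (h0 : 0 < h) (h1 : h < h') : ∃ χ : ℝ → ℝ, CutH χ h ∧ (∀ n, TF n χ) ∧
    ∀ t, h' ≤ t → χ t = 0 := by
  obtain ⟨l, hl⟩ : ∃ l, l = h' - h := ⟨_, rfl⟩
  have hl0 : 0 < l := by rw [hl]; linarith
  refine ⟨fun t => Real.smoothTransition ((h' - t) / l), ⟨⟨?_, fun t => Real.smoothTransition.nonneg _,
    fun t => Real.smoothTransition.le_one _⟩, h0, fun t ht => ?_⟩, fun n => PC.tf ⟨?_, ⟨h, 1, fun t ht => ?_⟩,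
    h', 0, fun t ht => ?_⟩, fun t ht => ?_⟩
  · exact Real.smoothTransition.continuous.comp (by fun_prop)
  · refine Real.smoothTransition.one_of_one_le ?_
    rw [le_div_iff₀ hl0]
    linarith
  · exact Real.smoothTransition.contDiff.comp (by fun_prop)
  · refine Real.smoothTransition.one_of_one_le ?_
    rw [le_div_iff₀ hl0]
    linarith
  · refine Real.smoothTransition.zero_of_nonpos ?_
    exact div_nonpos_of_nonpos_of_nonneg (by linarith) hl0.le
  · refine Real.smoothTransition.zero_of_nonpos ?_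
    exact div_nonpos_of_nonpos_of_nonneg (by linarith) hl0.le

end Pool.Agent.H356R3.NS.X
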