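import Pool.Agent.H3NY.X.BlockF
import Pool.Agent.H3NY.X.MainN
import Pool.Agent.H3NY.X.TFc

namespace Pool.Agent.H356R3.NS
end Pool.Agent.H356R3.NS
namespace Pool.Agent.H356R3.NS.H3
end Pool.Agent.H356R3.NS.H3
namespace Pool.Agent.H356R3.NS.X
end Pool.Agent.H356R3.NS.X
namespace Pool.Agent.H3NS
end Pool.Agent.H3NS
namespace H459R3.NS
end H459R3.NS

set_option autoImplicit false
set_option maxHeartbeats 4000000
set_option synthInstance.maxHeartbeats 400000

open MeasureTheory Set Filter Topology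
open scoped ENNReal NNReal ContDiff

namespace Pool.Agent.H356R3.NS.X

open Pool.Agent.H3NS

/-- What the construction gives near a path, on one block. -/
structure OutB (ga : ℝ → ℝ) (c : ℝ) (b : K → C3) (y : Fam) (h r p δ e1 e2 e3 e4 : ℝ) (s : ℕ) (u : Fam) : Prop where
  cf : CF u
  reg : ∃ χ : ℝ → ℝ, (∀ t, t ≤ h → χ t = 1) ∧ RegP c χ u
  sym : SymF u
  z : ∀ t, u 0 t = 0
  sn : ∀ t, 0 < t → SN (at' u t)
  att : Att b (fun t => at' u t) 0
  lq : ∀ q, 1 ≤ q → q < 2 → LP q u ≠ ⊤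
  lp : ∫⁻ t in Ioc 0 (min h 1), NW (Wa 0) (at' (u - y) t) ^ p ≤
    2 ^ (p - 1) * (ENNReal.ofReal e2 ^ p + ENNReal.ofReal e1 ^ p * ENNReal.ofReal (min h 1) ^ (1 - p / 2))
  cm : ∀ t, δ ≤ t → t ≤ h → NW (Wm 0) (at' (u - y) t) ≤ ENNReal.ofReal (e1 + e2)
  cl : ∀ t, δ ≤ t → t ≤ h → NW (ws s) (at' (u - y) t) ≤ ENNReal.ofReal (e2 + e3)
  cr : ∀ t, t ≤ h → critNorm r (at' (u - y) t) ≤ 4 * critNorm r (b - at' y 0) + ENNReal.ofReal (e2 + 10 * e1)
  nl : ∃ C : ℝ, 0 ≤ C ∧ ∀ k, ∫⁻ t in Ioc 0 h, ‖Bt u k t‖ₑ ≤ ENNReal.ofReal (C * nk k + 4 * ‖b k‖)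
  kt : ∀ t, 0 < t → t ≤ h → KA (u - y) t ≤ ENNReal.ofReal (e2 + e4)
  kg : ∀ᶠ t in 𝓝[>] (0 : ℝ), KA u t ≤ ENNReal.ofReal (ga t)

lemma lp_short {p l : ℝ} (hp1 : 1 ≤ p) (hp2 : p < 2) {φ : ℝ → ℝ≥0∞} (hφ : Measurable φ) :
    ∫⁻ t in Ioc 0 l, φ t ^ p ≤ LN φ ^ p * ENNReal.ofReal l ^ (1 - p / 2) := by
  have hp0 : 0 < p := by linarith
  have h := eLpNorm'_le_eLpNorm'_mul_rpow_measure_univ (μ := volume.restrict (Ioc (0 : ℝ) l)) (f := φ) hp0 hp2.le
    hφ.aestronglyMeasurable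
  simp only [eLpNorm', enorm_eq_self, Measure.restrict_apply MeasurableSet.univ, univ_inter, Real.volume_Ioc,
    sub_zero] at h
  have h2 := ENNReal.rpow_le_rpow h hp0.le
  rw [← ENNReal.rpow_mul, one_div_mul_cancel hp0.ne', ENNReal.rpow_one, ENNReal.mul_rpow_of_nonneg _ _ hp0.le] at h2
  refine h2.trans (mul_le_mul' (ENNReal.rpow_le_rpow ?_ hp0.le) (le_of_eq ?_))
  · unfold LN
    exact ENNReal.rpow_le_rpow (lintegral_mono_set Ioc_subset_Ioi_self) (by norm_num)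
  · rw [← ENNReal.rpow_mul]
    congr 1
    field_simp

section
variable {c C H0 : ℝ}

lemma BF.dom {n : ℕ} {y G : Fam} (hC : 0 ≤ C) (hn : 4 ≤ n) (h : BF c C n H0 y G) : Dom y :=
  ⟨fun k => C * (1 / nk k) ^ 4, summ_nk4.mul_left _, fun k t =>
    (h.yb k t).trans (mul_le_mul_of_nonneg_left (inv_pow_le hn) hC)⟩

/-- the residual of the path with the cut-off -/
lemma res_block {C2 : ℝ} {n : ℕ} {y G : Fam} (hB : BF c C n H0 y G) {χ : ℝ → ℝ} {h h' : ℝ}
    (hχ : CutH χ h) (hhh : h < h') (hh' : h' ≤ H0) (hχ0 : ∀ t, h' ≤ t → χ t = 0)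
    (hz : ∀ t, NW (Wm 0) (at' (Bt (zF c χ y G)) t) + NW (Wm 0) (at' G t) ≤ ENNReal.ofReal C2) {η : ℝ}
    (hη : 0 ≤ η) (hC2 : C2 * (h' - h) ≤ η) (hC20 : 0 ≤ C2)
    (hr : ∫⁻ t in Ioc 0 h, NW (Wm 0) (at' (Bt y) t - at' G t) ≤ ENNReal.ofReal η) :
    ∫⁻ t in Ioi 0, NW (Wm 0) (at' (Bx χ (zF c χ y G)) t - at' (smF χ G) t) ≤ ENNReal.ofReal (2 * η) := by
  have hpt : ∀ t ∈ Ioi (0 : ℝ), NW (Wm 0) (at' (Bx χ (zF c χ y G)) t - at' (smF χ G) t)
      ≤ (Ioc 0 h).indicator (fun t => NW (Wm 0) (at' (Bt y) t - at' G t)) t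
        + (Ioc h h').indicator (fun _ => ENNReal.ofReal C2) t := by
    intro t ht
    rcases le_or_gt t h with h1 | h1
    · rw [indicator_of_mem (show t ∈ Ioc 0 h from ⟨ht, h1⟩)]
      refine le_trans (le_of_eq ?_) le_self_add
      have e1 : at' (zF c χ y G) t = at' y t := by
        funext k
        exact zF_eq hB hχ (hhh.le.trans hh') k h1
      have e2 : at' (Bx χ (zF c χ y G)) t = at' (Bt y) t := by
        rw [at'_Bx, e1, hχ.one t h1, one_smul]
        rfl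
      have e3 : at' (smF χ G) t = at' G t := by
        funext k
        simp [at', smF, hχ.one t h1]
      rw [e2, e3]
    · rcases le_or_gt t h' with h2 | h2
      · rw [indicator_of_mem (show t ∈ Ioc h h' from ⟨h1, h2⟩)]
        refine le_trans ?_ le_add_self
        refine (NW_sub_le _ _ _).trans (le_trans (add_le_add ?_ ?_) (hz t))
        · exact NW_smul_le (Wm 0) (hχ.nn t) (hχ.le t) (at' (Bt (zF c χ y G)) t)
        · exact NW_smul_le (Wm 0) (hχ.nn t) (hχ.le t) (at' G t)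
      · have e1 : at' (Bx χ (zF c χ y G)) t - at' (smF χ G) t = 0 := by
          funext k
          simp [at', smF, Bx, hχ0 t h2.le]
        rw [e1, NW_zero]
        exact zero_le
  have hm : Measurable fun t => (Ioc h h').indicator (fun _ => ENNReal.ofReal C2) t :=
    measurable_const.indicator measurableSet_Ioc
  calc _ ≤ ∫⁻ t in Ioi 0, ((Ioc 0 h).indicator (fun t => NW (Wm 0) (at' (Bt y) t - at' G t)) t
        + (Ioc h h').indicator (fun _ => ENNReal.ofReal C2) t) := setLIntegral_mono' measurableSet_Ioi hpt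
    _ = (∫⁻ t in Ioi 0, (Ioc 0 h).indicator (fun t => NW (Wm 0) (at' (Bt y) t - at' G t)) t)
        + ∫⁻ t in Ioi 0, (Ioc h h').indicator (fun _ => ENNReal.ofReal C2) t := lintegral_add_right _ hm
    _ ≤ ENNReal.ofReal η + ENNReal.ofReal η := by
        refine add_le_add ?_ ?_
        · rw [lintegral_indicator measurableSet_Ioc, Measure.restrict_restrict measurableSet_Ioc,
            inter_eq_left.2 Ioc_subset_Ioi_self]
          exact hr
        · rw [lintegral_indicator measurableSet_Ioc, Measure.restrict_restrict measurableSet_Ioc,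
            inter_eq_left.2 (show Ioc h h' ⊆ Ioi 0 from fun t ht => lt_trans hχ.hpos ht.1), setLIntegral_const,
            Real.volume_Ioc,
            ← ENNReal.ofReal_mul hC20]
          exact ENNReal.ofReal_le_ofReal hC2
    _ = _ := by
        rw [← ENNReal.ofReal_add hη hη]
        congr 1
        ring

lemma ws_yb {s : ℕ} {x : K → C3} (hC : 0 ≤ C) (h0 : x 0 = 0) (h : ∀ k, ‖x k‖ ≤ C * (1 / nk k) ^ (2 * s + 5)) :
    NW (ws (2 * s + 1)) x ≤ ENNReal.ofReal (C * S4) := by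
  have h1 : ∀ k, ws (2 * s + 1) k * ‖x k‖ₑ ≤ ENNReal.ofReal (C * (1 / nk k) ^ 4) := by
    intro k
    unfold ws
    rw [← ofReal_norm, ← ENNReal.ofReal_mul (pow_nonneg (nk_nonneg k) _)]
    apply ENNReal.ofReal_le_ofReal
    by_cases hk : k = 0
    · subst hk
      rw [h0, norm_zero, mul_zero]
      positivity
    · have hn := nk_pos hk
      calc nk k ^ (2 * s + 1) * ‖x k‖ ≤ nk k ^ (2 * s + 1) * (C * (1 / nk k) ^ (2 * s + 5)) :=
            mul_le_mul_of_nonneg_left (h k) (by positivity)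
        _ = _ := by
            rw [show 2 * s + 5 = (2 * s + 1) + 4 by ring, pow_add (1 / nk k)]
            have : nk k ^ (2 * s + 1) * (1 / nk k) ^ (2 * s + 1) = 1 := by
              rw [← mul_pow, mul_one_div_cancel hn.ne', one_pow]
            calc nk k ^ (2 * s + 1) * (C * ((1 / nk k) ^ (2 * s + 1) * (1 / nk k) ^ 4))
                = (nk k ^ (2 * s + 1) * (1 / nk k) ^ (2 * s + 1)) * (C * (1 / nk k) ^ 4) := by ring
              _ = _ := by rw [this, one_mul]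
  unfold NW
  refine (ENNReal.tsum_le_tsum h1).trans (le_of_eq ?_)
  have h2 : ∀ k : K, 0 ≤ C * (1 / nk k) ^ 4 := fun k => by
    have := nk_nonneg k
    positivity
  rw [← ENNReal.ofReal_tsum_of_nonneg h2 (summ_nk4.mul_left C), tsum_mul_left]
  rfl

theorem blockU (hc : 0 < c) (hH : 0 < H0) (hC : 0 ≤ C) : ∃ Kb Kk η0 : ℝ, 1 ≤ Kb ∧ 1 ≤ Kk ∧ 0 < η0 ∧
    ∀ (s : ℕ) (δ : ℝ), 0 < δ → ∃ B : ℝ, 0 ≤ B ∧ ∀ η : ℝ, 0 < η → η ≤ η0 →
    ∀ (y G : Fam), BF c C (2 * s + 5) H0 y G →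
    ∀ h, 0 < h → h < H0 → ∫⁻ t in Ioc 0 h, NW (Wm 0) (at' (Bt y) t - at' G t) ≤ ENNReal.ofReal (η / 8) →
    ∀ r p e2 : ℝ, 2 < r → 1 ≤ p → p < 2 → 0 < e2 →
    ∀ b : K → C3, b 0 = 0 → (∀ k, dt k (b k) = 0) → Sym b → ∀ ga : ℝ → ℝ, Gau ga →
      ∃ u : Fam, OutB ga c b y h r p δ (Kb * η) e2 (Real.sqrt (B * η)) (Kk * √η) s u := by
  have hS := S4_nonneg
  obtain ⟨D, C2, hD, hC2, hconst⟩ := block_const hc hH hC
  obtain ⟨Kb, η1, hKb, hη1, hbase⟩ := base_apprX hc hD
  obtain ⟨Kk, η2, hKk, hη2, hbK⟩ := base_K hc hD hC2.le hC2.le hKb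
  refine ⟨Kb, Kk, min (min η1 (1 / Kb)) η2, hKb, hKk, by positivity, fun s δ hδ => ?_⟩
  obtain ⟨B0, hB0, hsm⟩ := smoothing hc (L := D + 1) (by positivity) (2 * s + 1) (δ / 2) δ (by positivity) (by linarith)
  obtain ⟨B, hBe⟩ : ∃ B, B = max B0 (C * S4) := ⟨_, rfl⟩
  have hB : 0 ≤ B := by rw [hBe]; exact hB0.trans (le_max_left _ _)
  have hBB : B0 ≤ B := by rw [hBe]; exact le_max_left _ _
  have hBC : C * S4 ≤ B := by rw [hBe]; exact le_max_right _ _
  refine ⟨Kb * (2 * B), by positivity, fun η hη hηle y G hy h h0 hhH hres r p e2 hr hp1 hp2 he2 b hb0 hbd hbs ga hga => ?_⟩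
  obtain ⟨e, he⟩ : ∃ e, e = Kb * η := ⟨_, rfl⟩
  have he0 : 0 < e := by rw [he]; positivity
  have he1 : e ≤ 1 := by
    have h1 : η ≤ 1 / Kb := hηle.trans ((min_le_left _ _).trans (min_le_right _ _))
    rw [le_div_iff₀ (by linarith)] at h1
    rw [he]; linarith
  obtain ⟨h', hh'⟩ : ∃ h', h' = min H0 (h + η / (8 * C2)) := ⟨_, rfl⟩
  have hh1 : h < h' := by
    rw [hh']
    refine lt_min hhH ?_
    have : 0 < η / (8 * C2) := by positivity
    linarith
  have hh2 : h' ≤ H0 := by rw [hh']; exact min_le_left _ _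
  have hh3 : C2 * (h' - h) ≤ η / 8 := by
    have h1 : h' - h ≤ η / (8 * C2) := by
      have : h' ≤ h + η / (8 * C2) := by rw [hh']; exact min_le_right _ _
      linarith
    calc C2 * (h' - h) ≤ C2 * (η / (8 * C2)) := mul_le_mul_of_nonneg_left h1 hC2.le
      _ = η / 8 := by field_simp
  obtain ⟨χ, hχ, hT, hχ0⟩ := exists_cut h0 hh1
  obtain ⟨hg, hLN, hz, -, hzA⟩ := hconst (2 * s + 5) y G (by omega) hy χ hχ.toCutT fun t ht => hχ0 t (hh2.trans ht)
  obtain ⟨z, hze⟩ : ∃ z, z = zF c χ y G := ⟨_, rfl⟩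
  have hres' := res_block hy hχ hh1 hh2 hχ0 hz (by positivity) hh3 hC2.le hres
  rw [show 2 * (η / 8) = η / 4 by ring] at hres'
  have hres1 : ∀ t, NW (Wm 0) (at' (Bx χ (zF c χ y G)) t - at' (smF χ G) t) ≤ ENNReal.ofReal C2 := fun t =>
    (NW_sub_le _ _ _).trans (le_trans (add_le_add
      (NW_smul_le (Wm 0) (hχ.nn t) (hχ.le t) (at' (Bt (zF c χ y G)) t))
      (NW_smul_le (Wm 0) (hχ.nn t) (hχ.le t) (at' G t))) (hz t))
  rw [← hze] at hg hLN hz hres' hzA hres1
  obtain ⟨S, M, hV, h1, h2, h3, h2'⟩ := hbase η hη (hηle.trans ((min_le_left _ _).trans (min_le_left _ _))) χ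
    hχ.toCutT z (smF χ G) hg hLN hres'
  have hK : ∀ t, 0 < t → t ≤ h → KA (S.u - z) t ≤ ENNReal.ofReal (Kk * √η) :=
    hbK η hη (hηle.trans (min_le_right _ _)) χ hχ.toCutT z (smF χ G) hg.cf hg.sn
      (Bx_cont hχ.toCutT hg.cf hg.dom) hg.cfG hg.zG hg.eqn hLN h
      (by
        obtain ⟨b, hb, hb'⟩ := hg.dom
        exact ⟨b, hb, fun k t _ => hb' k t⟩)
      (fun t _ _ => hzA t) (fun t _ _ => hres1 t) (hres'.trans (ENNReal.ofReal_le_ofReal (by linarith))) S h3
      (by rw [hV]; exact h2')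
  rw [← he] at h1 h2 h3
  have hzy : ∀ t, t ≤ h → at' z t = at' y t := fun t ht => by
    funext k
    rw [hze]
    exact zF_eq hy hχ hhH.le k ht
  have hz0 : at' z 0 = at' y 0 := hzy 0 h0.le
  have hr1 : 1 ≤ r := by linarith
  obtain ⟨u, hu⟩ := coreN hga hχ hT hc S hb0 hbd hbs hr hp1 hp2 hδ he2 s
  have hdec : ∀ t, at' (u - z) t = at' (u - S.u) t + at' (S.u - z) t := by
    intro t
    funext k
    simp only [at', Pi.sub_apply, Pi.add_apply]
    abel
  have huy : ∀ t, t ≤ h → at' (u - y) t = at' (u - z) t := by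
    intro t ht
    show at' u t - at' y t = at' u t - at' z t
    rw [hzy t ht]
  have hSz : CF (S.u - z) := CF.sub' S.sol.cf hg.cf
  have huS : CF (u - S.u) := CF.sub' hu.cf S.sol.cf
  have hp0 : 0 < p := by linarith
  refine ⟨u, hu.cf, ⟨χ, fun t ht => hχ.one t ht, hu.reg⟩, hu.sym, hu.z, hu.sn, hu.att, hu.lq, ?_,
    fun t ht htt => ?_, fun t ht htt => ?_, fun t ht => ?_, ?_, fun t ht htt => ?_, hu.kg⟩
  rotate_right
  · have e1 : KA (u - y) t = KA ((u - S.u) + (S.u - z)) t := by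
      unfold KA
      rw [huy t htt, hdec]
      rfl
    rw [e1, ENNReal.ofReal_add he2.le (by positivity)]
    exact (KA_add_le _ _ _).trans (add_le_add (hu.kt t ht) (hK t ht htt))
  rotate_right
  · obtain ⟨C, hC, h1⟩ := hu.nl
    refine ⟨C, hC, fun k => ?_⟩
    have e1 : ∫⁻ t in Ioc 0 h, ‖Bt u k t‖ₑ = ∫⁻ t in Ioc 0 h, ‖Bx χ u k t‖ₑ := by
      refine setLIntegral_congr_fun measurableSet_Ioc fun t ht => ?_
      show ‖Bt u k t‖ₑ = ‖χ t • Bt u k t‖ₑ
      rw [hχ.one t ht.2, one_smul]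
    rw [e1]
    exact (lintegral_mono_set Ioc_subset_Ioi_self).trans (h1 k)
  · rw [← he]
    calc ∫⁻ t in Ioc 0 (min h 1), NW (Wa 0) (at' (u - y) t) ^ p
        ≤ ∫⁻ t in Ioc 0 (min h 1), 2 ^ (p - 1) * (NW (Wa 0) (at' (u - S.u) t) ^ p + NW (Wa 0) (at' (S.u - z) t) ^ p) := by
          refine setLIntegral_mono' measurableSet_Ioc fun t ht => ?_
          rw [huy t (ht.2.trans (min_le_left _ _)), hdec]
          exact (ENNReal.rpow_le_rpow (NW_add_le _ _ _) hp0.le).trans (ENNReal.rpow_add_le_mul_rpow_add_rpow _ _ hp1)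
      _ = 2 ^ (p - 1) * ((∫⁻ t in Ioc 0 (min h 1), NW (Wa 0) (at' (u - S.u) t) ^ p)
          + ∫⁻ t in Ioc 0 (min h 1), NW (Wa 0) (at' (S.u - z) t) ^ p) := by
          rw [lintegral_const_mul' _ _ (by simp), lintegral_add_left ((NW_meas _ huS).pow_const _)]
      _ ≤ _ := by
          refine mul_le_mul' le_rfl (add_le_add ?_ ?_)
          · calc _ ≤ ∫⁻ t in Ioc 0 1, NW (Wa 0) (at' (u - S.u) t) ^ p :=
                  lintegral_mono_set fun t ht => ⟨ht.1, ht.2.trans (min_le_right _ _)⟩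
              _ = (LP p (u - S.u)) ^ p := by
                  unfold LP
                  rw [← ENNReal.rpow_mul, one_div_mul_cancel hp0.ne', ENNReal.rpow_one]
              _ ≤ _ := ENNReal.rpow_le_rpow hu.lp hp0.le
          · refine (lp_short hp1 hp2 (NW_meas _ hSz)).trans (mul_le_mul' (ENNReal.rpow_le_rpow h3 hp0.le) le_rfl)
  · rw [← he, huy t htt, hdec, ENNReal.ofReal_add he0.le he2.le, add_comm (ENNReal.ofReal e)]
    refine (NW_add_le _ _ _).trans (add_le_add ?_ (h1 t))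
    refine (Wm_le_Wa0 _).trans (le_trans ?_ (hu.cl t ht))
    unfold NW
    refine ENNReal.tsum_le_tsum fun k => ?_
    by_cases hk : k = 0
    · subst hk
      have e0 : at' (u - S.u) t 0 = 0 := by
        show u 0 t - S.u 0 t = 0
        rw [hu.z, S.sol.z, sub_self]
      rw [e0]; simp
    · apply mul_le_mul' _ le_rfl
      unfold Wa ws
      apply ENNReal.ofReal_le_ofReal
      have o : om 0 k = 1 := by simp [om]
      rw [o]
      exact one_le_pow₀ (one_le_nk hk)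
  · rw [huy t htt, hdec, ENNReal.ofReal_add he2.le (Real.sqrt_nonneg _)]
    refine (NW_add_le _ _ _).trans (add_le_add (hu.cl t ht) ?_)
    have hSu : NW (ws (2 * s + 1)) (at' S.u t) ≤ ENNReal.ofReal B := by
      refine (hsm χ hχ.toCutT S.a S.ha S.V S.u S.sol ?_ t ht).trans (ENNReal.ofReal_le_ofReal hBB)
      refine (LNd_le_LN _ _).trans ?_
      have e : ∀ t, NW (Wa 0) (at' S.u t) ≤ NW (Wa 0) (at' z t) + NW (Wa 0) (at' (S.u - z) t) := by
        intro t
        have e1 : at' S.u t = at' z t + at' (S.u - z) t := by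
          funext k
          simp only [at', Pi.sub_apply, Pi.add_apply]
          abel
        conv_lhs => rw [e1]
        exact NW_add_le _ _ _
      refine (LN_mono fun t _ => e t).trans ((LN_add_le (NW_meas _ hg.cf) (NW_meas _ hSz)).trans ?_)
      rw [ENNReal.ofReal_add hD zero_le_one, ENNReal.ofReal_one]
      refine add_le_add hLN (h3.trans ?_)
      rw [ENNReal.ofReal_le_one]
      exact he1
    have hzt : NW (ws (2 * s + 1)) (at' z t) ≤ ENNReal.ofReal B := by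
      rw [hzy t htt]
      exact (ws_yb hC (hy.z t) fun k => hy.yb k t).trans (ENNReal.ofReal_le_ofReal hBC)
    have h4 : NW (ws (2 * s + 1)) (at' (S.u - z) t) ≤ ENNReal.ofReal (2 * B) := by
      have e1 : at' (S.u - z) t = at' S.u t - at' z t := rfl
      rw [e1, show 2 * B = B + B by ring, ENNReal.ofReal_add hB hB]
      exact (NW_sub_le _ _ _).trans (add_le_add hSu hzt)
    have h5 := (interp_s s (x := at' (S.u - z) t) (by
      show S.u 0 t - z 0 t = 0
      rw [hg.z, S.sol.z, sub_self])).trans (mul_le_mul' (h1 t) h4)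
    rw [← ENNReal.ofReal_mul he0.le] at h5
    have h6 : ENNReal.ofReal (e * (2 * B)) = ENNReal.ofReal (Real.sqrt (Kb * (2 * B) * η))
        * ENNReal.ofReal (Real.sqrt (Kb * (2 * B) * η)) := by
      rw [← ENNReal.ofReal_mul (Real.sqrt_nonneg _), Real.mul_self_sqrt (by positivity), he]
      congr 1
      ring
    rw [h6] at h5
    by_contra h8
    push Not at h8
    exact absurd h5 (not_le.2 (ENNReal.mul_lt_mul h8 h8))
  · rw [← he, huy t ht, hdec]
    have h4 : critNorm r (at' (S.u - z) t) ≤ ENNReal.ofReal (2 * e) := by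
      refine (critNorm_le_NW hr1 _).trans ((mul_le_mul' le_rfl (h1 t)).trans (le_of_eq ?_))
      rw [ENNReal.ofReal_mul (by norm_num), ENNReal.ofReal_ofNat]
    have h5 : critNorm r (b - S.V) ≤ critNorm r (b - at' y 0) + ENNReal.ofReal (2 * e) := by
      have e1 : b - S.V = (b - at' y 0) + (at' z 0 - tru M (at' z 0)) := by rw [hV, hz0]; abel
      rw [e1]
      refine (critNorm_add' hr1 _ _).trans (add_le_add le_rfl ?_)
      refine (critNorm_le_NW hr1 _).trans ((mul_le_mul' le_rfl h2).trans (le_of_eq ?_))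
      rw [ENNReal.ofReal_mul (by norm_num), ENNReal.ofReal_ofNat]
    refine (critNorm_add' hr1 _ _).trans ((add_le_add ((hu.cr t).trans (add_le_add (mul_le_mul' le_rfl h5) le_rfl))
      h4).trans ?_)
    rw [mul_add, show (4 : ℝ≥0∞) * ENNReal.ofReal (2 * e) = ENNReal.ofReal (8 * e) by
      rw [← ENNReal.ofReal_ofNat, ← ENNReal.ofReal_mul (by norm_num)]; congr 1; ring]
    have e2' : ENNReal.ofReal (8 * e) + ENNReal.ofReal e2 + ENNReal.ofReal (2 * e) ≤ ENNReal.ofReal (e2 + 10 * e) := by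
      rw [← ENNReal.ofReal_add (by positivity) (by positivity), ← ENNReal.ofReal_add (by positivity) (by positivity)]
      exact ENNReal.ofReal_le_ofReal (by linarith)
    calc 4 * critNorm r (b - at' y 0) + ENNReal.ofReal (8 * e) + ENNReal.ofReal e2 + ENNReal.ofReal (2 * e)
        = 4 * critNorm r (b - at' y 0) + (ENNReal.ofReal (8 * e) + ENNReal.ofReal e2 + ENNReal.ofReal (2 * e)) := by
          ring
      _ ≤ _ := add_le_add le_rfl e2'

end

end Pool.Agent.H356R3.NS.X
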