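import Pool.Agent.H3NY.X.MeshX
import Pool.Agent.H3NY.X.PhysB

namespace Pool.Agent.H356R3.NS
end Pool.Agent.H356R3.NS
namespace Pool.Agent.H356R3.NS.H3
end Pool.Agent.H356R3.NS.H3
namespace Pool.Agent.H356R3.NS.X
end Pool.Agent.H356R3.NS.X
namespace Pool.Agent.H3NS
end Pool.Agent.H3NS
namespace H459R3.NS
end H459R3.NS

set_option autoImplicit false
set_option maxHeartbeats 4000000
set_option synthInstance.maxHeartbeats 400000

/-!
Chains of blocks.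
-/

open MeasureTheory Set Filter Topology
open scoped ENNReal NNReal ContDiff

namespace Pool.Agent.H356R3.NS.X

open Pool.Agent.H3NS
open H459R3.NS (fr ee SP IsSol cube)

/-- data for a block -/
structure AdmC (m : E3) (a : K → C3) : Prop where
  sym : Sym a
  dv : ∀ k, dt k (a k) = 0
  mn : ∀ i, a 0 i = (m i : ℂ)

lemma PB.spat {ga : ℝ → ℝ} {ν : ℝ} {w : ℝ → R3 → R3} {τ : ℝ} {J : Set ℝ} {a : K → C3} {r p δ1 δ : ℝ} {L : ℝ≥0∞} {ε : ℝ} {s : ℕ}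
    {u : ℝ → R3 → R3} {P : ℝ → R3 → ℝ} (h : PB ga ν w τ J a r p δ1 δ L ε s u P) {t : ℝ} (ht : τ < t) :
    ContDiff ℝ ∞ (u t) := by
  have h1 : ContDiffOn ℝ ∞ (fun x : R3 => ((t, x) : ℝ × R3)) univ := by fun_prop
  have h2 := ContDiffOn.comp (g := fun z : ℝ × R3 => u z.1 z.2) h.sm_u h1 (fun x _ => ⟨ht, mem_univ _⟩)
  exact contDiffOn_univ.1 h2

lemma PB.adm {ga : ℝ → ℝ} {ν : ℝ} {w : ℝ → R3 → R3} {τ : ℝ} {J : Set ℝ} {a : K → C3} {r p δ1 δ : ℝ} {L : ℝ≥0∞} {ε : ℝ} {s : ℕ}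
    {u : ℝ → R3 → R3} {P : ℝ → R3 → ℝ} (h : PB ga ν w τ J a r p δ1 δ L ε s u P) {m : E3}
    (hm : ∀ i, a 0 i = (m i : ℂ)) {t : ℝ} (ht : τ < t) : AdmC m (fc (u t)) := by
  refine ⟨fc_sym _, fun k => ?_, fun i => ?_⟩
  · show ∑ j, (k j : ℂ) * fc (u t) k j = 0
    simp only [fc_fr]
    refine H459R3.NS.fr_div (v := fun i y => u t y i) (fun i => ⟨?_, fun j x => ?_⟩) (h.divf t ht) k
    · exact contDiff_pi.1 (h.spat ht) i
    · exact congrFun (h.per_u t x j) i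
  · rw [h.mean t ht, hm]

/-- the blocks of a chain -/
theorem chain {ga : ℝ → ℝ} {ν : ℝ} {w : ℝ → R3 → R3} {r p δ : ℝ} {sN : ℕ} {s : ℕ → ℝ} (hs : StrictMono s) {J : ℕ → Set ℝ}
    {δ1 : ℕ → ℝ} {L : ℕ → ℝ≥0∞} {e : ℕ → ℝ} {m : E3}
    (hblk : ∀ j a, AdmC m a → ∃ u P, PB ga ν w (s j) (J j) a r p (δ1 j) δ (L j) (e j) sN u P)
    {a : K → C3} (ha : AdmC m a) :
    ∃ (A : ℕ → K → C3) (U : ℕ → ℝ → R3 → R3) (Q : ℕ → ℝ → R3 → ℝ), A 0 = a ∧
      (∀ j, A (j + 1) = fc (U j (s (j + 1)))) ∧ (∀ j, AdmC m (A j)) ∧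
      ∀ j, PB ga ν w (s j) (J j) (A j) r p (δ1 j) δ (L j) (e j) sN (U j) (Q j) := by
  choose! U Q hUQ using hblk
  obtain ⟨A, hA⟩ : ∃ A : ℕ → K → C3, A = fun n => Nat.rec a (fun j b => fc (U j b (s (j + 1)))) n := ⟨_, rfl⟩
  have hA0 : A 0 = a := by rw [hA]; rfl
  have hAs : ∀ j, A (j + 1) = fc (U j (A j) (s (j + 1))) := fun j => by rw [hA]
  have hadm : ∀ j, AdmC m (A j) := by
    intro j
    induction j with
    | zero => rw [hA0]; exact ha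
    | succ j ih =>
      rw [hAs]
      exact (hUQ j (A j) ih).adm ih.mn (hs (Nat.lt_succ_self j))
  exact ⟨A, fun j => U j (A j), fun j => Q j (A j), hA0, hAs, hadm, fun j => hUQ j (A j) (hadm j)⟩

/-- A mesh together with the last break before each of its points. -/
structure GM (D O : Set ℝ) (s : ℕ → ℝ) (g : ℕ → ℕ) : Prop where
  hD : DD D
  s0 : s 0 = 0
  mono : StrictMono s
  inD : ∀ j, s j ∈ D
  nO : ∀ j, g j = j → s j ∉ O
  cof : ∀ t ∈ D, ∃ j, t < s j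
  g0 : g 0 = 0
  gs : ∀ j, g (j + 1) = g j ∨ (g j = j ∧ g (j + 1) = j + 1)

/-- the index of the interval `(s j, s (j + 1)]` which contains `t` -/
noncomputable def jx (s : ℕ → ℝ) (t : ℝ) : ℕ := sInf {j | t ≤ s (j + 1)}

/-- the times of the block `i` -/
def JB (s : ℕ → ℝ) (g : ℕ → ℕ) (i : ℕ) : Set ℝ := {t | ∃ j, g j = i ∧ s j < t ∧ t ≤ s (j + 1)}

/-- the breaks -/
def SB (s : ℕ → ℝ) (g : ℕ → ℕ) : Set ℝ := {t | ∃ j, g j = j ∧ t = s j}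

section
variable {D O : Set ℝ} {s : ℕ → ℝ} {g : ℕ → ℕ}

lemma jx_eq (hs : StrictMono s) {t : ℝ} {j : ℕ} (h1 : s j < t) (h2 : t ≤ s (j + 1)) : jx s t = j := by
  apply le_antisymm
  · exact Nat.sInf_le h2
  · by_contra hcon
    push Not at hcon
    have h3 : t ≤ s (jx s t + 1) := Nat.sInf_mem (s := {j | t ≤ s (j + 1)}) ⟨j, h2⟩
    have h4 : s (jx s t + 1) ≤ s j := hs.monotone hcon
    linarith

lemma GM.jx_spec (h : GM D O s g) {t : ℝ} (ht : t ∈ D) (ht0 : 0 < t) : s (jx s t) < t ∧ t ≤ s (jx s t + 1) := by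
  obtain ⟨j, hj⟩ := h.cof t ht
  have hne : ({j | t ≤ s (j + 1)} : Set ℕ).Nonempty := ⟨j, hj.le.trans (h.mono.monotone (Nat.le_succ j))⟩
  have h2 : t ≤ s (jx s t + 1) := Nat.sInf_mem hne
  refine ⟨?_, h2⟩
  rcases hx : jx s t with _ | n
  · rw [h.s0]; exact ht0
  · by_contra hcon
    push Not at hcon
    have h3 : jx s t ≤ n := Nat.sInf_le (show n ∈ {j | t ≤ s (j + 1)} from hcon)
    omega

lemma GM.gle (h : GM D O s g) (j : ℕ) : g j ≤ j := by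
  induction j with
  | zero => rw [h.g0]
  | succ j ih =>
    rcases h.gs j with h1 | h1
    · omega
    · omega

lemma GM.gid (h : GM D O s g) (j : ℕ) : g (g j) = g j := by
  induction j with
  | zero => rw [h.g0, h.g0]
  | succ j ih =>
    rcases h.gs j with h1 | h1
    · rw [h1]; exact ih
    · rw [h1.2, h1.2]

lemma GM.gmono (h : GM D O s g) : Monotone g := by
  refine monotone_nat_of_le_succ fun j => ?_
  rcases h.gs j with h1 | h1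
  · rw [h1]
  · rw [h1.1, h1.2]; exact Nat.le_succ j

lemma GM.JB_pos (h : GM D O s g) {i : ℕ} {t : ℝ} (ht : t ∈ JB s g i) : s i < t := by
  obtain ⟨j, h1, h2, -⟩ := ht
  have : i ≤ j := by rw [← h1]; exact h.gle j
  exact lt_of_le_of_lt (h.mono.monotone this) h2

lemma GM.mem_JB (h : GM D O s g) {t : ℝ} (ht : t ∈ D) (ht0 : 0 < t) : t ∈ JB s g (g (jx s t)) :=
  ⟨_, rfl, h.jx_spec ht ht0⟩

lemma GM.ix_of_JB (h : GM D O s g) {i : ℕ} {t : ℝ} (ht : t ∈ JB s g i) : g (jx s t) = i := by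
  obtain ⟨j, h1, h2, h3⟩ := ht
  rw [jx_eq h.mono h2 h3, h1]

lemma GM.zero_mem (h : GM D O s g) : (0 : ℝ) ∈ SB s g := ⟨0, h.g0, h.s0.symm⟩

lemma GM.SB_sub (h : GM D O s g) : SB s g ⊆ D \ O := by
  rintro t ⟨j, h1, rfl⟩
  exact ⟨h.inD j, h.nO j h1⟩

lemma GM.SB_fin (h : GM D O s g) {t : ℝ} (ht : t ∈ D) : (SB s g ∩ Iic t).Finite := by
  obtain ⟨n, hn⟩ := h.cof t ht
  refine ((Finset.range n).finite_toSet.image s).subset ?_
  rintro x ⟨⟨j, -, rfl⟩, hx2⟩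
  refine ⟨j, ?_, rfl⟩
  rw [Finset.mem_coe, Finset.mem_range]
  exact h.mono.lt_iff_lt.1 (lt_of_le_of_lt hx2 hn)

/-- constancy of the index to the left -/
lemma GM.left (h : GM D O s g) {t : ℝ} (ht : t ∈ D) (ht0 : 0 < t) : ∃ α : ℝ, 0 ≤ α ∧ α < t ∧
    ∀ x ∈ Ioc α t, g (jx s x) = g (jx s t) := by
  obtain ⟨h1, h2⟩ := h.jx_spec ht ht0
  refine ⟨s (jx s t), h.hD.nn _ (h.inD _), h1, fun x hx => ?_⟩
  rw [jx_eq h.mono hx.1 (hx.2.trans h2)]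

/-- constancy of the index near times which are no breaks -/
lemma GM.both (h : GM D O s g) {t : ℝ} (ht : t ∈ D) (htS : t ∉ SB s g) : 0 < t ∧ ∀ᶠ x in 𝓝 t,
    x ∈ D ∧ 0 < x ∧ g (jx s x) = g (jx s t) := by
  have ht0 : 0 < t := lt_of_le_of_ne (h.hD.nn t ht) fun h1 => htS (h1 ▸ h.zero_mem)
  refine ⟨ht0, ?_⟩
  obtain ⟨h1, h2⟩ := h.jx_spec ht ht0
  rcases h2.lt_or_eq with h3 | h3
  · filter_upwards [lt_mem_nhds h1, gt_mem_nhds h3] with x hx1 hx2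
    refine ⟨h.hD.dc _ (h.inD (jx s t + 1)) _ ((h.hD.nn _ (h.inD (jx s t))).trans (le_of_lt hx1)) (le_of_lt hx2),
      lt_of_le_of_lt (h.hD.nn _ (h.inD (jx s t))) hx1, ?_⟩
    rw [jx_eq h.mono hx1 (le_of_lt hx2)]
  · have h4 : g (jx s t + 1) = g (jx s t) := by
      rcases h.gs (jx s t) with h5 | h5
      · exact h5
      · exact absurd ⟨_, h5.2, h3⟩ htS
    have h5 : t < s (jx s t + 2) := lt_of_eq_of_lt h3 (h.mono (Nat.lt_succ_self _))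
    filter_upwards [lt_mem_nhds h1, gt_mem_nhds h5] with x hx1 hx2
    refine ⟨h.hD.dc _ (h.inD (jx s t + 2)) _ ((h.hD.nn _ (h.inD (jx s t))).trans (le_of_lt hx1)) (le_of_lt hx2),
      lt_of_le_of_lt (h.hD.nn _ (h.inD (jx s t))) hx1, ?_⟩
    rcases le_or_gt x t with h6 | h6
    · rw [jx_eq h.mono hx1 (h6.trans h2)]
    · have h7 : jx s x = jx s t + 1 := jx_eq h.mono (lt_of_eq_of_lt h3.symm h6) (le_of_lt hx2)
      rw [h7, h4]

/-- a break: the index before it and after it -/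
lemma GM.brk (h : GM D O s g) {t : ℝ} (ht : t ∈ SB s g) (ht0 : 0 < t) : ∃ i, g (jx s t) = i ∧ g i = i ∧
    g (i + 1) = i + 1 ∧ t = s (i + 1) ∧ jx s t = i ∧ ∀ x ∈ Ioc t (s (i + 2)), g (jx s x) = i + 1 := by
  obtain ⟨k, hk, rfl⟩ := ht
  rcases k with _ | i
  · rw [h.s0] at ht0; exact absurd ht0 (lt_irrefl _)
  have h1 : g i = i := by
    rcases h.gs i with h2 | h2
    · have := h.gle i
      omega
    · exact h2.1
  have h2 : jx s (s (i + 1)) = i := jx_eq h.mono (h.mono (Nat.lt_succ_self i)) le_rfl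
  refine ⟨i, by rw [h2, h1], h1, hk, rfl, h2, fun x hx => ?_⟩
  rw [jx_eq h.mono hx.1 hx.2, hk]

end

end Pool.Agent.H356R3.NS.X
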