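import Pool.Agent.H3NY.X.GlueX

namespace Pool.Agent.H356R3.NS
end Pool.Agent.H356R3.NS
namespace Pool.Agent.H356R3.NS.H3
end Pool.Agent.H356R3.NS.H3
namespace Pool.Agent.H356R3.NS.X
end Pool.Agent.H356R3.NS.X
namespace Pool.Agent.H3NS
end Pool.Agent.H3NS
namespace H459R3.NS
end H459R3.NS

set_option autoImplicit false
set_option maxHeartbeats 4000000
set_option synthInstance.maxHeartbeats 400000

open MeasureTheory Set Filter Topology
open scoped ENNReal NNReal ContDiff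

namespace Pool.Agent.H356R3.NS.X

open Pool.Agent.H3NS

section
variable {ga : ℝ → ℝ} {ν : ℝ} {D O : Set ℝ} {w : ℝ → R3 → R3} {m : E3} {r p δ : ℝ} {sN : ℕ} {ε : ℝ → ℝ} {a : K → C3}
  {s : ℕ → ℝ} {g : ℕ → ℕ} {δ1 e : ℕ → ℝ} {A : ℕ → K → C3} {U : ℕ → ℝ → R3 → R3} {Q : ℕ → ℝ → R3 → ℝ}

lemma CHN.kr (hga : Gau ga) (h : CHN ga ν D O w m r p δ sN ε a s g δ1 e A U Q) {τ : ℝ} (hτ : τ ∈ SB s g) :
    ∀ᶠ t in 𝓝[>] τ, ∀ x, √(t - τ) * ‖GU s g U t x‖ ≤ ga (t - τ) := by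
  have htend : Tendsto (fun t : ℝ => t - τ) (𝓝[>] τ) (𝓝[>] 0) := by
    refine tendsto_nhdsWithin_of_tendsto_nhds_of_eventually_within _ ?_ ?_
    · have : Tendsto (fun t : ℝ => t - τ) (𝓝 τ) (𝓝 (τ - τ)) := (continuous_id.sub continuous_const).tendsto τ
      rw [sub_self] at this
      exact this.mono_left nhdsWithin_le_nhds
    · filter_upwards [self_mem_nhdsWithin] with t ht
      have h9 : τ < t := ht
      exact mem_Ioi.2 (sub_pos.2 h9)
  have h1 : ∀ᶠ t in 𝓝[>] (0 : ℝ), 0 ≤ ga t := by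
    filter_upwards [hga.sqrt_le 0] with t ht
    rwa [mul_zero] at ht
  filter_upwards [h.kg hτ, htend.eventually h1] with t h2 h3 x
  have h4 : ENNReal.ofReal (√(t - τ) * ‖GU s g U t x‖) ≤ ENNReal.ofReal (ga (t - τ)) := by
    rw [ENNReal.ofReal_mul (Real.sqrt_nonneg _), ofReal_norm]
    exact (mul_le_mul' le_rfl (le_iSup (fun x => ‖GU s g U t x‖ₑ) x)).trans h2
  exact (ENNReal.ofReal_le_ofReal_iff h3).1 h4

end

end Pool.Agent.H356R3.NS.X
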