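import Pool.Agent.H3NY.R.Basic
import Pool.Agent.H356R3.NS.Defs
import Pool.Agent.H459R3.NS.Defs

namespace Pool.Agent.H356R3.NS
end Pool.Agent.H356R3.NS
namespace Pool.Agent.H356R3.NS.H3
end Pool.Agent.H356R3.NS.H3
namespace Pool.Agent.H356R3.NS.X
end Pool.Agent.H356R3.NS.X
namespace Pool.Agent.H3NS
end Pool.Agent.H3NS
namespace H459R3.NS
end H459R3.NS

set_option autoImplicit false
set_option maxHeartbeats 4000000
set_option synthInstance.maxHeartbeats 400000

open MeasureTheory Set Filter Topology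
open scoped ENNReal NNReal ContDiff

namespace Pool.Agent.H356R3.NS.X

open Pool.Agent.H3NS
open H459R3.NS (fr ee SP IsSol cube)

section
variable {ν : ℝ} {v : ℝ → R3 → R3} {q : ℝ → R3 → ℝ}

lemma nk_pow_ge (k : K) (s : ℕ) : (1 + ∑ i, (k i : ℝ) ^ 2) ^ s ≤ 2 ^ s * (1 + nk k ^ (2 * s)) := by
  have e : ∑ i, (k i : ℝ) ^ 2 = nk k ^ 2 := (nk_sq k).symm
  rw [e]
  by_cases hk : k = 0
  · subst hk
    rw [nk_zero]
    have h1 : (1 : ℝ) ≤ 2 ^ s := one_le_pow₀ (by norm_num)
    have h2 : (0 : ℝ) ≤ 0 ^ (2 * s) := by positivity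
    have h3 : (1 + (0 : ℝ) ^ 2) ^ s = 1 := by norm_num
    rw [h3]
    nlinarith
  · have h1 := one_le_nk hk
    calc (1 + nk k ^ 2) ^ s ≤ (2 * nk k ^ 2) ^ s := by
          apply pow_le_pow_left₀ (by positivity)
          nlinarith
      _ = 2 ^ s * nk k ^ (2 * s) := by rw [mul_pow, ← pow_mul]
      _ ≤ _ := by
          apply mul_le_mul_of_nonneg_left _ (by positivity)
          linarith

end

end Pool.Agent.H356R3.NS.X
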