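import Pool.Agent.H3NY.X.ChainX

namespace Pool.Agent.H356R3.NS
end Pool.Agent.H356R3.NS
namespace Pool.Agent.H356R3.NS.H3
end Pool.Agent.H356R3.NS.H3
namespace Pool.Agent.H356R3.NS.X
end Pool.Agent.H356R3.NS.X
namespace Pool.Agent.H3NS
end Pool.Agent.H3NS
namespace H459R3.NS
end H459R3.NS

set_option autoImplicit false
set_option maxHeartbeats 4000000
set_option synthInstance.maxHeartbeats 400000

/-!
Gluing of the blocks of a chain.
-/

open MeasureTheory Set Filter Topology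
open scoped ENNReal NNReal ContDiff

namespace Pool.Agent.H356R3.NS.X

open Pool.Agent.H3NS
open H459R3.NS (fr ee SP IsSol cube)

/-- a chain of blocks -/
structure CHN (ga : ℝ → ℝ) (ν : ℝ) (D O : Set ℝ) (w : ℝ → R3 → R3) (m : E3) (r p δ : ℝ) (sN : ℕ) (ε : ℝ → ℝ) (a : K → C3)
    (s : ℕ → ℝ) (g : ℕ → ℕ) (δ1 e : ℕ → ℝ) (A : ℕ → K → C3) (U : ℕ → ℝ → R3 → R3) (Q : ℕ → ℝ → R3 → ℝ) : Prop where
  gm : GM D O s g
  A0 : A 0 = a
  As : ∀ j, A (j + 1) = fc (U j (s (j + 1)))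
  adm : ∀ j, AdmC m (A j)
  pb : ∀ i, PB ga ν w (s i) (JB s g i) (A i) r p (δ1 i) δ (ENNReal.ofReal (e i * min (s (i + 1) - s i) 1)) (e i) sN
    (U i) (Q i)
  d1 : ∀ i, g (i + 1) = i + 1 → s i + δ1 i ≤ s (i + 1)
  e0 : ∀ i, 0 < e i
  e1 : ∀ i, e i ≤ 1
  el : ∀ j, ∀ t ∈ D, t ≤ s (j + 1) → e (g j) ≤ ε t / 8 ∧ e (g j - 1) ≤ ε t / 8

/-- the glued families -/
noncomputable def GU {α : Type*} (s : ℕ → ℝ) (g : ℕ → ℕ) (U : ℕ → ℝ → R3 → α) : ℝ → R3 → α := fun t => U (g (jx s t)) t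

lemma JB_meas (s : ℕ → ℝ) (g : ℕ → ℕ) (i : ℕ) : MeasurableSet (JB s g i) := by
  have : JB s g i = ⋃ j ∈ {j | g j = i}, Ioc (s j) (s (j + 1)) := by
    ext t
    simp only [JB, mem_ofPred_eq, mem_iUnion, mem_Ioc, exists_prop]
  rw [this]
  exact MeasurableSet.biUnion (to_countable _) fun _ _ => measurableSet_Ioc

section
variable {ga : ℝ → ℝ} {ν : ℝ} {D O : Set ℝ} {w : ℝ → R3 → R3} {m : E3} {r p δ : ℝ} {sN : ℕ} {ε : ℝ → ℝ} {a : K → C3}
  {s : ℕ → ℝ} {g : ℕ → ℕ} {δ1 e : ℕ → ℝ} {A : ℕ → K → C3} {U : ℕ → ℝ → R3 → R3} {Q : ℕ → ℝ → R3 → ℝ}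

lemma glue_smooth {F : Type*} [NormedAddCommGroup F] [NormedSpace ℝ F] (h : GM D O s g) {V : ℕ → ℝ → R3 → F}
    (hV : ∀ i, ContDiffOn ℝ ∞ (fun z : ℝ × R3 => V i z.1 z.2) (Ioi (s i) ×ˢ univ)) :
    ContDiffOn ℝ ∞ (fun z : ℝ × R3 => GU s g V z.1 z.2) ((D \ SB s g) ×ˢ univ) := by
  rintro ⟨t, x⟩ ⟨⟨ht, htS⟩, -⟩
  obtain ⟨ht0, hev⟩ := h.both ht htS
  have hi := h.JB_pos (h.mem_JB ht ht0)
  have h1 : ContDiffAt ℝ ∞ (fun z : ℝ × R3 => V (g (jx s t)) z.1 z.2) (t, x) :=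
    (hV (g (jx s t))).contDiffAt ((isOpen_Ioi.prod isOpen_univ).mem_nhds ⟨hi, mem_univ _⟩)
  refine (h1.congr_of_eventuallyEq ?_).contDiffWithinAt
  have h2 : ∀ᶠ z : ℝ × R3 in 𝓝 (t, x), g (jx s z.1) = g (jx s t) :=
    (continuous_fst.tendsto (t, x)).eventually (hev.mono fun _ h => h.2.2)
  filter_upwards [h2] with z hz
  show V (g (jx s z.1)) z.1 z.2 = _
  rw [hz]

lemma glue_left {F : Type*} [NormedAddCommGroup F] [NormedSpace ℝ F] (h : GM D O s g) {V : ℕ → ℝ → R3 → F}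
    (hV : ∀ i, ContDiffOn ℝ ∞ (fun z : ℝ × R3 => V i z.1 z.2) (Ioi (s i) ×ˢ univ)) {t : ℝ} (ht : t ∈ D)
    (ht0 : 0 < t) : ∃ α : ℝ, 0 ≤ α ∧ α < t ∧
      ContDiffOn ℝ ∞ (fun z : ℝ × R3 => GU s g V z.1 z.2) (Ioc α t ×ˢ univ) := by
  obtain ⟨α, h0, h1, h2⟩ := h.left ht ht0
  have hi := h.JB_pos (h.mem_JB ht ht0)
  refine ⟨max α (s (g (jx s t))), h0.trans (le_max_left _ _), max_lt h1 hi, ?_⟩
  refine ((hV (g (jx s t))).mono (prod_mono (fun x hx => lt_of_le_of_lt (le_max_right _ _) hx.1) subset_rfl)).congr ?_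
  rintro ⟨x, y⟩ ⟨hx, -⟩
  show V (g (jx s x)) x y = _
  rw [h2 x ⟨lt_of_le_of_lt (le_max_left _ _) hx.1, hx.2⟩]

lemma CHN.mom (h : CHN ga ν D O w m r p δ sN ε a s g δ1 e A U Q) {t : ℝ} (ht : t ∈ D \ SB s g) (x : R3) (i : Fin 3) :
    deriv (fun t' => GU s g U t' x i) t + ∑ j, GU s g U t x j * pd j (fun y => GU s g U t y i) x
      = ν * ∑ j, pd j (pd j fun y => GU s g U t y i) x - pd i (GU s g Q t) x := by
  obtain ⟨ht0, hev⟩ := h.gm.both ht.1 ht.2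
  have h1 := (h.pb (g (jx s t))).mom t (h.gm.mem_JB ht.1 ht0) x i
  have h2 : deriv (fun t' => GU s g U t' x i) t = deriv (fun t' => U (g (jx s t)) t' x i) t := by
    refine Filter.EventuallyEq.deriv_eq ?_
    filter_upwards [hev] with t' ht'
    show U (g (jx s t')) t' x i = _
    rw [ht'.2.2]
  rw [h2]
  exact h1

lemma CHN.divf (h : CHN ga ν D O w m r p δ sN ε a s g δ1 e A U Q) {t : ℝ} (ht : t ∈ D) (ht0 : 0 < t) (x : R3) :
    ∑ i, pd i (fun y => GU s g U t y i) x = 0 :=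
  (h.pb (g (jx s t))).divf t (h.gm.JB_pos (h.gm.mem_JB ht ht0)) x

lemma CHN.mean (h : CHN ga ν D O w m r p δ sN ε a s g δ1 e A U Q) {t : ℝ} (ht : t ∈ D) (ht0 : 0 < t) :
    fc (GU s g U t) 0 = a 0 := by
  have h1 := (h.pb (g (jx s t))).mean t (h.gm.JB_pos (h.gm.mem_JB ht ht0))
  show fc (U (g (jx s t)) t) 0 = a 0
  rw [h1, ← h.A0]
  funext i
  rw [(h.adm _).mn, (h.adm 0).mn]

lemma CHN.start (h : CHN ga ν D O w m r p δ sN ε a s g δ1 e A U Q) : Att a (fun t => fc (GU s g U t)) 0 := by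
  intro r' hr' φ hφ ha
  have h1 := (h.pb 0).att r' hr' φ hφ (by rw [h.A0]; exact ha)
  rw [h.gm.s0, h.A0] at h1
  refine h1.congr' ?_
  have h2 : (0 : ℝ) < s 1 := by rw [← h.gm.s0]; exact h.gm.mono (by omega)
  filter_upwards [Ioo_mem_nhdsGT h2] with t ht
  have h3 : g (jx s t) = 0 := by
    rw [jx_eq h.gm.mono (j := 0) (by rw [h.gm.s0]; exact ht.1) ht.2.le, h.gm.g0]
  show _ = critNorm r' (wt φ fun k => fc (U (g (jx s t)) t) k - a k)
  rw [h3]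

lemma CHN.cont (h : CHN ga ν D O w m r p δ sN ε a s g δ1 e A U Q) {t0 : ℝ} (ht : t0 ∈ D) (ht0 : 0 < t0) {r' : ℝ}
    (hr' : 2 < r') :
    Tendsto (fun t => critNorm r' (fun k => fc (GU s g U t) k - fc (GU s g U t0) k)) (𝓝 t0) (𝓝 0) := by
  have hi := h.gm.JB_pos (h.gm.mem_JB ht ht0)
  have h1 := (h.pb (g (jx s t0))).cont t0 hi r' (by linarith)
  by_cases hS : t0 ∈ SB s g
  · rw [← nhdsLE_sup_nhdsGT, tendsto_sup]
    constructor
    · obtain ⟨α, hα0, hα, h2⟩ := h.gm.left ht ht0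
      refine (h1.mono_left nhdsWithin_le_nhds).congr' ?_
      filter_upwards [self_mem_nhdsWithin, mem_nhdsWithin_of_mem_nhds (lt_mem_nhds hα)] with t h3 h4
      show _ = critNorm r' (fun k => fc (U (g (jx s t)) t) k - fc (U (g (jx s t0)) t0) k)
      rw [h2 t ⟨h4, h3⟩]
    · obtain ⟨i, g1, g2, g3, g4, g5, g6⟩ := h.gm.brk hS ht0
      have h2 := (h.pb (i + 1)).att.one hr' (by
        rw [h.As]
        exact (h.pb i).fin _ (h.gm.mono (Nat.lt_succ_self i)) r' (by linarith))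
      rw [h.As, ← g4] at h2
      refine h2.congr' ?_
      have h3 : t0 < s (i + 2) := by rw [g4]; exact h.gm.mono (Nat.lt_succ_self _)
      filter_upwards [Ioo_mem_nhdsGT h3] with t ht'
      show _ = critNorm r' (fun k => fc (U (g (jx s t)) t) k - fc (U (g (jx s t0)) t0) k)
      rw [g1, g6 t ⟨ht'.1, ht'.2.le⟩]
  · obtain ⟨-, hev⟩ := h.gm.both ht hS
    refine h1.congr' ?_
    filter_upwards [hev] with t h2
    show _ = critNorm r' (fun k => fc (U (g (jx s t)) t) k - fc (U (g (jx s t0)) t0) k)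
    rw [h2.2.2]

lemma CHN.lq (h : CHN ga ν D O w m r p δ sN ε a s g δ1 e A U Q) {p' : ℝ} (h1 : 1 ≤ p') (h2 : p' < 2) {t : ℝ}
    (ht : t ∈ D) : ∫⁻ x in Ioc 0 t, (⨆ y, ‖GU s g U x y‖ₑ) ^ p' ≠ ⊤ := by
  obtain ⟨n, hn⟩ := h.gm.cof t ht
  have hp0 : 0 < p' := by linarith
  have hsub : Ioc 0 t ⊆ ⋃ j : Fin n, Ioc (s j) (s (j + 1)) := by
    intro x hx
    have hxD := h.gm.hD.dc t ht x hx.1.le hx.2
    obtain ⟨h3, h4⟩ := h.gm.jx_spec hxD hx.1
    have h5 : jx s x < n := h.gm.mono.lt_iff_lt.1 (h3.trans (lt_of_le_of_lt hx.2 hn))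
    exact mem_iUnion.2 ⟨⟨_, h5⟩, h3, h4⟩
  refine ne_top_of_le_ne_top ?_ ((lintegral_mono_set hsub).trans (lintegral_iUnion_le _ _))
  rw [tsum_fintype]
  refine ENNReal.sum_ne_top.2 fun j _ => ?_
  have hτ : s (g j) ≤ s j := h.gm.mono.monotone (h.gm.gle j)
  have e1 : ∫⁻ x in Ioc (s j) (s (j + 1)), (⨆ y, ‖GU s g U x y‖ₑ) ^ p'
      = ∫⁻ x in Ioc (s j) (s (j + 1)), (⨆ y, ‖U (g j) x y‖ₑ) ^ p' := by
    refine setLIntegral_congr_fun measurableSet_Ioc fun x hx => ?_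
    show (⨆ y, ‖U (g (jx s x)) x y‖ₑ) ^ p' = _
    rw [jx_eq h.gm.mono hx.1 hx.2]
  rw [e1]
  have hsub2 : Ioc (s j) (s (j + 1)) ⊆ Ioc (s (g j)) (s (g j) + 1) ∪ Ioc (s (g j) + 1) (s (j + 1)) := by
    intro x hx
    rcases le_or_gt x (s (g j) + 1) with h3 | h3
    · exact Or.inl ⟨lt_of_le_of_lt hτ hx.1, h3⟩
    · exact Or.inr ⟨h3, hx.2⟩
  refine ne_top_of_le_ne_top ?_ ((lintegral_mono_set hsub2).trans (lintegral_union_le _ _ _))
  refine ENNReal.add_ne_top.2 ⟨(h.pb (g j)).lq p' h1 h2, ?_⟩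
  obtain ⟨C, hC⟩ := (h.pb (g j)).bd (s (g j) + 1) (by linarith)
  refine ne_top_of_le_ne_top ?_ (setLIntegral_mono' (g := fun _ => ENNReal.ofReal C ^ p') measurableSet_Ioc
    fun x hx => ENNReal.rpow_le_rpow (iSup_le fun y => hC x hx.1.le y) hp0.le)
  rw [setLIntegral_const, Real.volume_Ioc]
  exact ENNReal.mul_ne_top (ENNReal.rpow_ne_top_of_nonneg hp0.le ENNReal.ofReal_ne_top) ENNReal.ofReal_ne_top

/-- the bounds for the errors at the time `t` -/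
lemma CHN.err (h : CHN ga ν D O w m r p δ sN ε a s g δ1 e A U Q) {i : ℕ} {x t : ℝ} (hx : x ∈ JB s g i) (ht : t ∈ D)
    (htx : t ≤ x) : e i ≤ ε t / 8 ∧ e (i - 1) ≤ ε t / 8 := by
  obtain ⟨j, h1, h2, h3⟩ := hx
  rw [← h1]
  exact h.el j t ht (htx.trans h3)

lemma CHN.win (h : CHN ga ν D O w m r p δ sN ε a s g δ1 e A U Q) (hp1 : 1 ≤ p) (hδ : δ ≤ 1) {t : ℝ} (ht : t ∈ D) :
    ∫⁻ x in D ∩ Ioc t (t + 1), (⨆ y, ‖GU s g U x y - w x y‖ₑ) ^ p ≤ ENNReal.ofReal (ε t) := by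
  have hp0 : 0 < p := by linarith
  have ht0 := h.gm.hD.nn t ht
  obtain ⟨E, hE⟩ : ∃ E, E = ε t / 8 := ⟨_, rfl⟩
  obtain ⟨V, hV⟩ : ∃ V : ℕ → Set ℝ, V = fun i => (JB s g i ∩ Ioc (s i) (s i + 1)) ∩ Ioc t (t + 1) := ⟨_, rfl⟩
  have hVm : ∀ i, MeasurableSet (V i) := fun i => by
    rw [hV]; exact ((JB_meas s g i).inter measurableSet_Ioc).inter measurableSet_Ioc
  obtain ⟨R, hR⟩ : ∃ R, R = (⋃ i, JB s g i ∩ Ioi (s i + 1)) ∩ Ioc t (t + 1) := ⟨_, rfl⟩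
  have hRm : MeasurableSet R := by
    rw [hR]
    exact (MeasurableSet.iUnion fun i => (JB_meas s g i).inter measurableSet_Ioi).inter measurableSet_Ioc
  have hsub : D ∩ Ioc t (t + 1) ⊆ (⋃ i, V i) ∪ R := by
    rintro x ⟨hxD, hx⟩
    have hx0 : 0 < x := lt_of_le_of_lt ht0 hx.1
    have h1 := h.gm.mem_JB hxD hx0
    rcases le_or_gt x (s (g (jx s x)) + 1) with h2 | h2
    · left
      rw [hV]
      exact mem_iUnion.2 ⟨_, ⟨⟨h1, h.gm.JB_pos h1, h2⟩, hx⟩⟩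
    · right
      rw [hR]
      exact ⟨mem_iUnion.2 ⟨_, h1, h2⟩, hx⟩
  -- the short parts
  have hpart1 : ∀ i, ∫⁻ x in V i, (⨆ y, ‖GU s g U x y - w x y‖ₑ) ^ p
      ≤ ENNReal.ofReal E * volume (Ioc (s i) (s i + min (s (i + 1) - s i) 1) ∩ Ioc (t - 1) (t + 2)) := by
    intro i
    rcases (V i).eq_empty_or_nonempty with hem | ⟨x, hx⟩
    · rw [hem, setLIntegral_empty]; exact zero_le
    · have hx' : x ∈ (JB s g i ∩ Ioc (s i) (s i + 1)) ∩ Ioc t (t + 1) := by rw [hV] at hx; exact hx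
      have h3 := (h.err hx'.1.1 ht hx'.2.1.le).1
      rw [← hE] at h3
      have h4 : Ioc (s i) (s i + min (s (i + 1) - s i) 1) ⊆ Ioc (t - 1) (t + 2) := by
        intro z hz
        have h5 := min_le_right (s (i + 1) - s i) 1
        exact ⟨by linarith [hz.1, hx'.1.2.2, hx'.2.1], by linarith [hz.2, hx'.1.2.1, hx'.2.2]⟩
      have hmin : 0 ≤ min (s (i + 1) - s i) 1 :=
        le_min (sub_nonneg.2 (h.gm.mono (Nat.lt_succ_self i)).le) zero_le_one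
      rw [inter_eq_left.2 h4, Real.volume_Ioc, add_sub_cancel_left, ← ENNReal.ofReal_mul ((h.e0 i).le.trans h3)]
      calc ∫⁻ x in V i, (⨆ y, ‖GU s g U x y - w x y‖ₑ) ^ p
          = ∫⁻ x in V i, (⨆ y, ‖U i x y - w x y‖ₑ) ^ p := by
            refine setLIntegral_congr_fun (hVm i) fun z hz => ?_
            have hz' : z ∈ (JB s g i ∩ Ioc (s i) (s i + 1)) ∩ Ioc t (t + 1) := by rw [hV] at hz; exact hz
            show (⨆ y, ‖U (g (jx s z)) z y - w z y‖ₑ) ^ p = _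
            rw [h.gm.ix_of_JB hz'.1.1]
        _ ≤ ∫⁻ x in JB s g i ∩ Ioc (s i) (s i + 1), (⨆ y, ‖U i x y - w x y‖ₑ) ^ p :=
            lintegral_mono_set fun z hz => by
              rw [hV] at hz
              exact hz.1
        _ ≤ ENNReal.ofReal (e i * min (s (i + 1) - s i) 1) := (h.pb i).lp
        _ ≤ _ := ENNReal.ofReal_le_ofReal (mul_le_mul_of_nonneg_right h3 hmin)
  have hdisj : Pairwise (Function.onFun Disjoint fun i => Ioc (s i) (s i + min (s (i + 1) - s i) 1) ∩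
      Ioc (t - 1) (t + 2)) := by
    have h1 := h.gm.mono.monotone.pairwise_disjoint_on_Ioc_succ
    have h2 : ∀ i, Ioc (s i) (s i + min (s (i + 1) - s i) 1) ∩ Ioc (t - 1) (t + 2) ⊆ Ioc (s i) (s (Order.succ i)) := by
      intro i z hz
      refine ⟨hz.1.1, ?_⟩
      have := min_le_left (s (i + 1) - s i) 1
      have h2 := hz.1.2
      show z ≤ s (i + 1)
      linarith
    intro i j hij
    exact (h1 hij).mono (h2 i) (h2 j)
  have hpart1' : ∑' i, ∫⁻ x in V i, (⨆ y, ‖GU s g U x y - w x y‖ₑ) ^ p ≤ ENNReal.ofReal E * 3 := by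
    refine (ENNReal.tsum_le_tsum hpart1).trans ?_
    rw [ENNReal.tsum_mul_left]
    apply mul_le_mul' le_rfl
    rw [← measure_iUnion hdisj fun i => measurableSet_Ioc.inter measurableSet_Ioc]
    refine (measure_mono (iUnion_subset fun i => inter_subset_right)).trans (le_of_eq ?_)
    rw [Real.volume_Ioc, show t + 2 - (t - 1) = 3 by ring, ENNReal.ofReal_ofNat]
  have hpart2 : ∫⁻ x in R, (⨆ y, ‖GU s g U x y - w x y‖ₑ) ^ p ≤ ENNReal.ofReal E := by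
    calc ∫⁻ x in R, (⨆ y, ‖GU s g U x y - w x y‖ₑ) ^ p ≤ ∫⁻ _x in R, ENNReal.ofReal E := by
          refine setLIntegral_mono' hRm fun x hx => ?_
          rw [hR] at hx
          obtain ⟨h1, h2⟩ := hx
          obtain ⟨i, h3, h4⟩ := mem_iUnion.1 h1
          have h5 := (h.err h3 ht h2.1.le).1
          rw [← hE] at h5
          have h6 : ⨆ y, ‖GU s g U x y - w x y‖ₑ ≤ ENNReal.ofReal (e i) := by
            refine iSup_le fun y => ?_
            show ‖U (g (jx s x)) x y - w x y‖ₑ ≤ _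
            rw [h.gm.ix_of_JB h3]
            exact (h.pb i).cls x h3 (by have : s i + 1 < x := h4; linarith) y
          calc (⨆ y, ‖GU s g U x y - w x y‖ₑ) ^ p ≤ ENNReal.ofReal (e i) ^ p := ENNReal.rpow_le_rpow h6 hp0.le
            _ = ENNReal.ofReal (e i ^ p) := ENNReal.ofReal_rpow_of_nonneg (h.e0 i).le hp0.le
            _ ≤ _ := ENNReal.ofReal_le_ofReal (le_trans (by
                calc e i ^ p ≤ e i ^ (1 : ℝ) := Real.rpow_le_rpow_of_exponent_ge (h.e0 i) (h.e1 i) hp1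
                  _ = e i := Real.rpow_one _) h5)
      _ = ENNReal.ofReal E * volume R := by rw [setLIntegral_const]
      _ ≤ ENNReal.ofReal E * 1 := by
          apply mul_le_mul' le_rfl
          refine (measure_mono (show R ⊆ Ioc t (t + 1) by rw [hR]; exact inter_subset_right)).trans (le_of_eq ?_)
          rw [Real.volume_Ioc, add_sub_cancel_left, ENNReal.ofReal_one]
      _ = _ := mul_one _
  calc ∫⁻ x in D ∩ Ioc t (t + 1), (⨆ y, ‖GU s g U x y - w x y‖ₑ) ^ p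
      ≤ (∫⁻ x in ⋃ i, V i, (⨆ y, ‖GU s g U x y - w x y‖ₑ) ^ p)
        + ∫⁻ x in R, (⨆ y, ‖GU s g U x y - w x y‖ₑ) ^ p :=
        (lintegral_mono_set hsub).trans (lintegral_union_le _ _ _)
    _ ≤ ENNReal.ofReal E * 3 + ENNReal.ofReal E := add_le_add ((lintegral_iUnion_le _ _).trans hpart1') hpart2
    _ = ENNReal.ofReal E * 4 := by ring
    _ = ENNReal.ofReal (E * 4) := by
        rw [ENNReal.ofReal_mul' (by norm_num), ENNReal.ofReal_ofNat]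
    _ ≤ _ := by
        rw [hE]
        by_cases h1 : 0 ≤ ε t
        · exact ENNReal.ofReal_le_ofReal (by linarith)
        · push Not at h1
          rw [ENNReal.ofReal_of_nonpos (by linarith)]
          exact zero_le

/-- the closeness after the first block -/
lemma CHN.cr_pos (h : CHN ga ν D O w m r p δ sN ε a s g δ1 e A U Q) {t : ℝ} (ht : t ∈ D) {i : ℕ}
    (hi : t ∈ JB s g (i + 1)) : critNorm r (fun k => fc (GU s g U t) k - fc (w t) k) ≤ ENNReal.ofReal (5 * (ε t / 8)) := by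
  obtain ⟨h1, h2⟩ := h.err hi ht le_rfl
  rw [Nat.add_sub_cancel] at h2
  have hi1 : g (i + 1) = i + 1 := by
    obtain ⟨j, h3, -, -⟩ := hi
    rw [← h3, h.gm.gid, h3]
  have hi2 : g i = i := by
    rcases h.gm.gs i with h3 | h3
    · have := h.gm.gle i
      omega
    · exact h3.1
  have h3 : s (i + 1) ∈ JB s g i := ⟨i, hi2, h.gm.mono (Nat.lt_succ_self i), le_rfl⟩
  have h4 := (h.pb i).ce (s (i + 1)) h3 (h.d1 i hi1)
  have h5 := (h.pb (i + 1)).cr t hi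
  rw [h.As] at h5
  show critNorm r (fun k => fc (U (g (jx s t)) t) k - fc (w t) k) ≤ _
  rw [h.gm.ix_of_JB hi]
  refine h5.trans ((add_le_add (mul_le_mul' le_rfl h4) le_rfl).trans ?_)
  rw [show (4 : ℝ≥0∞) * ENNReal.ofReal (e i) = ENNReal.ofReal (4 * e i) by
    rw [ENNReal.ofReal_mul (by norm_num), ENNReal.ofReal_ofNat], ← ENNReal.ofReal_add (by have := h.e0 i; linarith)
    (h.e0 _).le]
  exact ENNReal.ofReal_le_ofReal (by linarith)

lemma CHN.eps_pos (h : CHN ga ν D O w m r p δ sN ε a s g δ1 e A U Q) {t : ℝ} (ht : t ∈ D) (ht0 : 0 < t) : 0 < ε t := by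
  have := (h.err (h.gm.mem_JB ht ht0) ht le_rfl).1
  have h2 := h.e0 (g (jx s t))
  linarith

lemma CHN.cr (h : CHN ga ν D O w m r p δ sN ε a s g δ1 e A U Q) {t : ℝ} (ht : t ∈ D) (ht0 : 0 < t) :
    critNorm r (fun k => fc (GU s g U t) k - fc (w t) k)
      ≤ 4 * critNorm r (fun k => a k - fc (w 0) k) + ENNReal.ofReal (ε t) := by
  have h1 := h.gm.mem_JB ht ht0
  have hε := h.eps_pos ht ht0
  rcases hi : g (jx s t) with _ | i
  · rw [hi] at h1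
    have h2 := (h.pb 0).cr t h1
    rw [h.gm.s0, h.A0] at h2
    show critNorm r (fun k => fc (U (g (jx s t)) t) k - fc (w t) k) ≤ _
    rw [hi]
    refine h2.trans (add_le_add le_rfl (ENNReal.ofReal_le_ofReal ?_))
    have := (h.err h1 ht le_rfl).1
    linarith
  · rw [hi] at h1
    refine (h.cr_pos ht h1).trans ((ENNReal.ofReal_le_ofReal ?_).trans le_add_self)
    linarith

lemma CHN.cl (h : CHN ga ν D O w m r p δ sN ε a s g δ1 e A U Q) {t : ℝ} (ht : t ∈ D) (ht0 : 0 < t)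
    (hS : ∀ x ∈ SB s g, t - δ ≤ x → t < x) :
    ∑' k, (1 + ENNReal.ofReal (nk k ^ sN)) * ‖fc (GU s g U t) k - fc (w t) k‖ₑ ≤ ENNReal.ofReal (ε t / 8) := by
  have h1 := h.gm.mem_JB ht ht0
  have h2 := h.gm.JB_pos h1
  have h3 : s (g (jx s t)) + δ ≤ t := by
    by_contra hcon
    push Not at hcon
    have := hS _ ⟨g (jx s t), h.gm.gid _, rfl⟩ (by linarith)
    linarith
  exact ((h.pb (g (jx s t))).cl t h1 h3).trans (ENNReal.ofReal_le_ofReal (h.err h1 ht le_rfl).1)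

lemma CHN.crd (h : CHN ga ν D O w m r p δ sN ε a s g δ1 e A U Q) (hr : 1 ≤ r) {t : ℝ} (ht : t ∈ D) (ht0 : 0 < t)
    (htδ : δ ≤ t) : critNorm r (fun k => fc (GU s g U t) k - fc (w t) k) ≤ ENNReal.ofReal (ε t) := by
  have h1 := h.gm.mem_JB ht ht0
  have hε := h.eps_pos ht ht0
  rcases hi : g (jx s t) with _ | i
  · rw [hi] at h1
    have h2 := (h.pb 0).cl t h1 (by rw [h.gm.s0]; linarith)
    have h3 := (h.err h1 ht le_rfl).1
    show critNorm r (fun k => fc (U (g (jx s t)) t) k - fc (w t) k) ≤ _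
    rw [hi]
    refine (critNorm_le_sum hr _).trans ?_
    have h4 : ∑' k, ‖fc (U 0 t) k - fc (w t) k‖ₑ ≤ ENNReal.ofReal (ε t / 8) := by
      refine le_trans (ENNReal.tsum_le_tsum fun k => ?_) (h2.trans (ENNReal.ofReal_le_ofReal h3))
      calc ‖fc (U 0 t) k - fc (w t) k‖ₑ = 1 * ‖fc (U 0 t) k - fc (w t) k‖ₑ := (one_mul _).symm
        _ ≤ _ := mul_le_mul' le_self_add le_rfl
    refine (mul_le_mul' le_rfl h4).trans ?_
    rw [← ENNReal.ofReal_ofNat, ← ENNReal.ofReal_mul (by norm_num)]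
    exact ENNReal.ofReal_le_ofReal (by linarith)
  · rw [hi] at h1
    refine (h.cr_pos ht h1).trans (ENNReal.ofReal_le_ofReal ?_)
    linarith

/-- the last break before `t` -/
lemma CHN.last (h : CHN ga ν D O w m r p δ sN ε a s g δ1 e A U Q) {t τ : ℝ} (ht : t ∈ D) (hτ : τ ∈ SB s g) (hτt : τ < t)
    (hno : SB s g ∩ Ioo τ t = ∅) : s (g (jx s t)) = τ := by
  have ht0 : 0 < t := lt_of_le_of_lt (h.gm.hD.nn τ (h.gm.SB_sub hτ).1) hτt
  have h1 := h.gm.mem_JB ht ht0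
  have h2 := h.gm.JB_pos h1
  obtain ⟨j, hj, rfl⟩ := hτ
  have h3 : s (g (jx s t)) ≤ s j := by
    by_contra hcon
    push Not at hcon
    have h4 : s (g (jx s t)) ∈ SB s g ∩ Ioo (s j) t := ⟨⟨_, h.gm.gid _, rfl⟩, hcon, h2⟩
    rw [hno] at h4
    exact h4
  have h4 : g (jx s t) ≤ j := h.gm.mono.le_iff_le.1 h3
  have h5 : j ≤ jx s t := by
    obtain ⟨h6, h7⟩ := h.gm.jx_spec ht ht0
    by_contra hcon
    push Not at hcon
    have h8 : s (jx s t + 1) ≤ s j := h.gm.mono.monotone hcon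
    linarith
  have h6 : g j ≤ g (jx s t) := h.gm.gmono h5
  rw [hj] at h6
  rw [le_antisymm h4 h6]

lemma CHN.kt (h : CHN ga ν D O w m r p δ sN ε a s g δ1 e A U Q) {t τ : ℝ} (ht : t ∈ D) (hτ : τ ∈ SB s g) (hτt : τ < t)
    (hno : SB s g ∩ Ioo τ t = ∅) (x : R3) : √(min (t - τ) 1) * ‖GU s g U t x - w t x‖ ≤ ε t / 8 := by
  have ht0 : 0 < t := lt_of_le_of_lt (h.gm.hD.nn τ (h.gm.SB_sub hτ).1) hτt
  have h1 := h.gm.mem_JB ht ht0
  have h2 := (h.pb (g (jx s t))).kt t h1 x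
  rw [h.last ht hτ hτt hno] at h2
  exact h2.trans (h.err h1 ht le_rfl).1

lemma CHN.kg (h : CHN ga ν D O w m r p δ sN ε a s g δ1 e A U Q) {τ : ℝ} (hτ : τ ∈ SB s g) :
    ∀ᶠ t in 𝓝[>] τ, ENNReal.ofReal (√(t - τ)) * ⨆ x, ‖GU s g U t x‖ₑ ≤ ENNReal.ofReal (ga (t - τ)) := by
  obtain ⟨j, hj, rfl⟩ := hτ
  filter_upwards [(h.pb j).kg, Ioo_mem_nhdsGT (h.gm.mono (Nat.lt_succ_self j))] with t h1 ht
  have h3 : g (jx s t) = j := by rw [jx_eq h.gm.mono ht.1 ht.2.le, hj]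
  show ENNReal.ofReal (√(t - s j)) * ⨆ x, ‖U (g (jx s t)) t x‖ₑ ≤ _
  rw [h3]
  exact h1

end

end Pool.Agent.H356R3.NS.X
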