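import Pool.Agent.H356R3.NS.Defs
import Pool.Agent.H3NY.E.Evo

namespace Pool.Agent.H356R3.NS
end Pool.Agent.H356R3.NS
namespace Pool.Agent.H356R3.NS.H3
end Pool.Agent.H356R3.NS.H3
namespace Pool.Agent.H356R3.NS.X
end Pool.Agent.H356R3.NS.X
namespace Pool.Agent.H3NS
end Pool.Agent.H3NS
namespace H459R3.NS
end H459R3.NS

set_option autoImplicit false
set_option maxHeartbeats 4000000
set_option synthInstance.maxHeartbeats 400000

/-!
Global smooth solutions in the moving frame, on the Fourier side.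
-/

open MeasureTheory Set Filter Topology
open scoped ENNReal NNReal ContDiff

namespace Pool.Agent.H356R3.NS.X

open Pool.Agent.H3NS
open H459R3.NS (fr ee SP IsSol cube)

lemma continuousOn_intC {T : ℝ} {F : ℝ → R3 → ℂ}
    (hF : ContinuousOn (fun z : ℝ × R3 => F z.1 z.2) (Ico 0 T ×ˢ univ)) :
    ContinuousOn (fun s => ∫ x in cube, F s x) (Ico 0 T) := by
  intro t ht
  obtain ⟨b, hb1, hb2⟩ := exists_between ht.2
  have hK : IsCompact (Icc 0 b ×ˢ cube) := isCompact_Icc.prod isCompact_Icc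
  have hsub : Icc 0 b ×ˢ cube ⊆ Ico 0 T ×ˢ (univ : Set R3) :=
    prod_mono (fun s hs => ⟨hs.1, hs.2.trans_lt hb2⟩) (subset_univ _)
  obtain ⟨C, hC⟩ := hK.exists_bound_of_continuousOn (hF.mono hsub)
  have hev : ∀ᶠ s in 𝓝[Ico 0 T] t, s ∈ Icc 0 b := by
    have h1 : ∀ᶠ s in 𝓝[Ico 0 T] t, s < b := nhdsWithin_le_nhds (Iio_mem_nhds hb1)
    filter_upwards [h1, self_mem_nhdsWithin] with s hs1 hs2
    exact ⟨hs2.1, hs1.le⟩
  have hmeas : MeasurableSet cube := measurableSet_Icc
  have := H459R3.NS.cube_finite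
  refine continuousWithinAt_of_dominated (bound := fun _ => C) ?_ ?_ ?_ ?_
  · filter_upwards [hev] with s hs
    have hc : Continuous (fun x => F s x) := by
      have := hF.comp_continuous (f := fun x : R3 => ((s, x) : ℝ × R3)) (by fun_prop)
        (fun x => ⟨⟨hs.1, hs.2.trans_lt hb2⟩, mem_univ _⟩)
      exact this
    exact hc.aestronglyMeasurable
  · filter_upwards [hev] with s hs
    refine (ae_restrict_iff' hmeas).2 (Filter.Eventually.of_forall fun x hx => ?_)
    exact hC (s, x) ⟨hs, hx⟩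
  · exact integrable_const _
  · refine Filter.Eventually.of_forall fun x => ?_
    have h1 : ContinuousWithinAt (fun z : ℝ × R3 => F z.1 z.2)
        (Ico 0 T ×ˢ univ) (t, x) := hF (t, x) ⟨ht, mem_univ _⟩
    exact h1.comp (t := Ico 0 T ×ˢ univ) (f := fun s : ℝ => ((s, x) : ℝ × R3))
      (by fun_prop) (fun s hs => ⟨hs, mem_univ _⟩)

section
variable {ν T : ℝ} {u : ℝ → R3 → R3} {p : ℝ → R3 → ℝ}

lemma pd_iter_smooth {f : ℝ → R3 → ℝ}
    (hf : ContDiffOn ℝ ∞ (fun z : ℝ × R3 => f z.1 z.2) (Ico 0 T ×ˢ univ)) (j : Fin 3) (n : ℕ) :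
    ContDiffOn ℝ ∞ (fun z : ℝ × R3 => ((H459R3.NS.pd j)^[n] (f z.1)) z.2) (Ico 0 T ×ˢ univ) := by
  induction n with
  | zero => exact hf
  | succ n ih =>
    have := H459R3.NS.contDiffOn_pd (f := fun t => (H459R3.NS.pd j)^[n] (f t)) ih j
    refine this.congr fun z _ => ?_
    simp only [Function.iterate_succ_apply']

end

end Pool.Agent.H356R3.NS.X
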