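import Pool.Agent.H3NY.X.SeqR

namespace Pool.Agent.H356R3.NS
end Pool.Agent.H356R3.NS
namespace Pool.Agent.H356R3.NS.H3
end Pool.Agent.H356R3.NS.H3
namespace Pool.Agent.H356R3.NS.X
end Pool.Agent.H356R3.NS.X
namespace Pool.Agent.H3NS
end Pool.Agent.H3NS
namespace H459R3.NS
end H459R3.NS

set_option autoImplicit false
set_option maxHeartbeats 4000000
set_option synthInstance.maxHeartbeats 400000

/-!
Selection of scales.
-/

open Set Filter Topology

namespace Pool.Agent.H356R3.NS.X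

lemma subseq {a : ℕ → ℝ} {R : ℝ} (hR : 1 < R) (h0 : ∀ j, 0 < a j) (hu : ∀ B : ℝ, ∃ i, ∀ k, i ≤ k → B ≤ a k) :
    ∃ σ : ℕ → ℕ, σ 0 = 0 ∧ StrictMono σ ∧ (∀ j, R * a (σ j) ≤ a (σ (j + 1))) ∧
      ∀ j i, σ j ≤ i → i < σ (j + 1) → a i ≤ R * a (σ j) := by
  have hex : ∀ i, ∃ k, i < k ∧ R * a i ≤ a k := fun i => by
    obtain ⟨i1, h1⟩ := hu (R * a i)
    exact ⟨max (i + 1) i1, lt_of_lt_of_le (Nat.lt_succ_self i) (le_max_left _ _), h1 _ (le_max_right _ _)⟩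
  classical
  obtain ⟨nx, hnx⟩ : ∃ nx : ℕ → ℕ, ∀ a, nx a = Nat.find (hex a) := ⟨fun a => Nat.find (hex a), fun _ => rfl⟩
  have n1 : ∀ i, i < nx i := fun i => by rw [hnx]; exact (Nat.find_spec (hex i)).1
  have n2 : ∀ i, R * a i ≤ a (nx i) := fun i => by rw [hnx]; exact (Nat.find_spec (hex i)).2
  have n3 : ∀ i k, i ≤ k → k < nx i → a k ≤ R * a i := by
    intro i k hik hk
    rcases Nat.eq_or_lt_of_le hik with h | h
    · rw [← h]
      exact le_mul_of_one_le_left (h0 i).le hR.le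
    · have h1 : ¬ (i < k ∧ R * a i ≤ a k) := by
        apply Nat.find_min (hex i)
        rw [← hnx]
        exact hk
      by_contra h2
      exact h1 ⟨h, (not_le.1 h2).le⟩
  obtain ⟨σ, h1, h2⟩ : ∃ σ : ℕ → ℕ, σ 0 = 0 ∧ ∀ p, σ (p + 1) = nx (σ p) :=
    ⟨fun p => Nat.rec 0 (fun _ a => nx a) p, rfl, fun _ => rfl⟩
  refine ⟨σ, h1, strictMono_nat_of_lt_succ fun p => by rw [h2]; exact n1 _, fun j => by rw [h2]; exact n2 _,
    fun j i h3 h4 => n3 _ _ h3 (by rw [← h2]; exact h4)⟩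

lemma sel_summ {g N : ℕ → ℝ} {R : ℝ} (hN : ∀ j, 0 < N j) (hN2 : ∀ j, 2 * N j ≤ N (j + 1)) (hg : ∀ j, 0 < g j)
    {σ : ℕ → ℕ} (h0 : σ 0 = 0) (hσ : StrictMono σ)
    (h : ∀ j i, σ j ≤ i → i < σ (j + 1) → g i * N i ≤ R * (g (σ j) * N (σ j)))
    (hs : Summable fun j => g (σ j) ^ 2) : Summable fun i => g i ^ 2 := by
  have hNm : Monotone N := monotone_nat_of_le_succ fun j => by
    have := hN2 j; have := hN j; linarith
  have blk : ∀ n, ∑ i ∈ Finset.Ico (σ n) (σ (n + 1)), g i ^ 2 ≤ 2 * R ^ 2 * g (σ n) ^ 2 := by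
    intro n
    have hk := hN (σ n)
    have hterm : ∀ i ∈ Finset.Ico (σ n) (σ (n + 1)), g i ^ 2 ≤
        (R * (g (σ n) * N (σ n))) ^ 2 / N (σ n) * (1 / N i) := by
      intro i hi
      rw [Finset.mem_Ico] at hi
      have h1 := h n i hi.1 hi.2
      have h2 := hN i
      have h3 := hNm hi.1
      have h4 : (g i * N i) ^ 2 ≤ (R * (g (σ n) * N (σ n))) ^ 2 :=
        pow_le_pow_left₀ (mul_nonneg (hg i).le h2.le) h1 2
      obtain ⟨B, hB⟩ : ∃ B, B = (R * (g (σ n) * N (σ n))) ^ 2 := ⟨_, rfl⟩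
      rw [← hB] at h4 ⊢
      have hB0 : 0 ≤ B := by rw [hB]; positivity
      calc g i ^ 2 = (g i * N i) ^ 2 / N i * (1 / N i) := by field_simp
        _ ≤ B / N i * (1 / N i) :=
            mul_le_mul_of_nonneg_right (div_le_div_of_nonneg_right h4 h2.le) (by positivity)
        _ ≤ B / N (σ n) * (1 / N i) :=
            mul_le_mul_of_nonneg_right (div_le_div_of_nonneg_left hB0 hk h3) (by positivity)
    refine (Finset.sum_le_sum hterm).trans ?_
    rw [← Finset.mul_sum]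
    have h5 := inv_sum hN hN2 (hσ (Nat.lt_succ_self n)).le
    calc (R * (g (σ n) * N (σ n))) ^ 2 / N (σ n) * ∑ i ∈ Finset.Ico (σ n) (σ (n + 1)), 1 / N i
        ≤ (R * (g (σ n) * N (σ n))) ^ 2 / N (σ n) * (2 / N (σ n)) :=
          mul_le_mul_of_nonneg_left h5 (by positivity)
      _ = 2 * R ^ 2 * g (σ n) ^ 2 := by field_simp
  have part : ∀ n, ∑ i ∈ Finset.range (σ n), g i ^ 2 ≤ 2 * R ^ 2 * ∑ j ∈ Finset.range n, g (σ j) ^ 2 := by
    intro n
    induction n with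
    | zero => rw [h0]; simp
    | succ n ih =>
      rw [Finset.range_eq_Ico, ← Finset.sum_Ico_consecutive _ (Nat.zero_le _) (hσ (Nat.lt_succ_self n)).le,
        ← Finset.range_eq_Ico, Finset.sum_range_succ, mul_add]
      exact add_le_add ih (blk n)
  refine summable_of_sum_range_le (c := 2 * R ^ 2 * ∑' j, g (σ j) ^ 2) (fun i => sq_nonneg _) fun n => ?_
  calc ∑ i ∈ Finset.range n, g i ^ 2 ≤ ∑ i ∈ Finset.range (σ n), g i ^ 2 :=
        Finset.sum_le_sum_of_subset_of_nonneg (Finset.range_mono hσ.le_apply) fun _ _ _ => sq_nonneg _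
    _ ≤ 2 * R ^ 2 * ∑ j ∈ Finset.range n, g (σ j) ^ 2 := part n
    _ ≤ _ := mul_le_mul_of_nonneg_left (hs.sum_le_tsum _ fun _ _ => sq_nonneg _) (by positivity)

end Pool.Agent.H356R3.NS.X
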