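import Pool.Agent.H3NY.X.GaugeR
import Pool.Agent.H3NY.X.SeqS

namespace Pool.Agent.H356R3.NS
end Pool.Agent.H356R3.NS
namespace Pool.Agent.H356R3.NS.H3
end Pool.Agent.H356R3.NS.H3
namespace Pool.Agent.H356R3.NS.X
end Pool.Agent.H356R3.NS.X
namespace Pool.Agent.H3NS
end Pool.Agent.H3NS
namespace H459R3.NS
end H459R3.NS

set_option autoImplicit false
set_option maxHeartbeats 4000000
set_option synthInstance.maxHeartbeats 400000

/-!
The choice of amplitudes and frequencies for a given gauge.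
-/

open MeasureTheory Set Filter Topology
open scoped ENNReal NNReal

namespace Pool.Agent.H356R3.NS.X

/-- Amplitudes `√s_j`, frequencies `N_j`, bounds `F_j` for the size of the data, ratios `x_j ≥ F_j / N_j`. -/
structure SeqC (H K3 Z : ℝ) (sf xf Ff : ℕ → ℝ) (Nf : ℕ → ℕ) : Prop where
  s0 : ∀ j, 0 < sf j
  s1 : ∀ j, sf j ≤ 1
  F1 : ∀ j, 1 ≤ Ff j
  Fx : ∀ j, Ff j ≤ xf j * Nf j
  Kx : ∀ j, K3 * xf j ≤ √(sf j)
  FF : ∀ j, Ff j + Z * √(sf j) * Nf j ≤ Ff (j + 1)
  NH : ∀ j, 2 * H < Nf j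
  NN : ∀ j, 4 * H * Nf j < Nf (j + 1)

lemma sum_blocks {s : ℕ → ℝ} {mm : ℕ → ℕ} (h0 : mm 0 = 0) (h1 : ∀ p, mm p ≤ mm (p + 1))
    (h2 : ∀ p, ∑ j ∈ Finset.Ico (mm p) (mm (p + 1)), s j = 1) (p : ℕ) : ∑ j ∈ Finset.range (mm p), s j = p := by
  induction p with
  | zero => rw [h0]; simp
  | succ p ih =>
    rw [Finset.range_eq_Ico, ← Finset.sum_Ico_consecutive _ (Nat.zero_le _) (h1 p), h2, ← Finset.range_eq_Ico, ih]
    push_cast
    ring

theorem seq_exists {g : ℝ → ℝ} {t0 : ℝ} (h0 : 0 < t0)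
    (hpos : ∀ t, 0 < t → t ≤ t0 → 0 < g t)
    (hreg : ∀ s t, 0 < s → s ≤ t → t ≤ t0 → g s ≤ g t ∧ g t ≤ √(t / s) * g s)
    (hdiv : ∀ Λ i0 : ℕ, 2 ≤ Λ → 1 / ((Λ : ℝ) ^ i0) ^ 2 ≤ t0 →
      ¬ Summable fun j : ℕ => g (1 / ((Λ : ℝ) ^ (i0 + j)) ^ 2) ^ 2)
    (hsq : ∀ M : ℝ, ∀ᶠ t in 𝓝[>] (0 : ℝ), √t * M ≤ g t)
    {H K3 Z c1 Kd Fb δ ε1 r θ : ℝ} (hH : 1 ≤ H) (hK3 : 0 < K3) (hZ : 0 < Z) (hc1 : 0 < c1) (hKd : 0 ≤ Kd)
    (hFb : 1 ≤ Fb) (hδ : 0 < δ) (hε1 : 0 < ε1) (hr : 2 < r) (hθ0 : 0 < θ) (hθ : θ ≤ t0)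
    (hθF : ∀ t, 0 < t → t ≤ θ → √t * Fb ≤ δ * g t) (m : ℕ) :
    ∃ (sf xf Ff : ℕ → ℝ) (Nf : ℕ → ℕ) (mm : ℕ → ℕ), SeqC H K3 Z sf xf Ff Nf ∧ Ff 0 = Fb ∧ mm 0 = 0 ∧
      (∀ p, mm p ≤ mm (p + 1)) ∧ (∀ p, ∑ j ∈ Finset.Ico (mm p) (mm (p + 1)), sf j = 1) ∧
      ∑ j ∈ Finset.range (mm m), √(sf j) * xf j ≤ ε1 ∧
      ∑ j ∈ Finset.range (mm m), Kd / (Nf j : ℝ) ≤ ε1 ∧
      ∑ j ∈ Finset.range (mm m), (Z * √(sf j)) ^ r ≤ ε1 ∧
      ∀ t, 0 < t → t ≤ θ → ∃ k ≤ mm m, √t * Ff k ≤ 2 * δ * g t ∧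
        √t * ∑ j ∈ Finset.Ico k (mm m), √(sf j) * ((Nf j : ℝ) * Real.exp (-(c1 * (Nf j : ℝ) ^ 2 * t))) ≤ δ * g t ∧
        ∑ j ∈ Finset.Ico k (mm m), sf j * xf j ≤ δ * g t := by
  have hG0 := hpos t0 h0 le_rfl
  obtain ⟨G0, hG0d⟩ : ∃ G0, G0 = g t0 := ⟨_, rfl⟩
  rw [← hG0d] at hG0
  have hm0 : (0 : ℝ) ≤ m := by positivity
  -- the size of the amplitudes
  obtain ⟨q, ⟨⟨⟨q1, q2⟩, q3⟩, q4⟩, q0⟩ : ∃ q : ℝ, (((q * G0 < 1 ∧ 2 * Z * q < δ) ∧ 2 / c1 * q < δ) ∧
      (Z * q * G0) ^ (r - 2) * (Z ^ 2 * m) < ε1) ∧ 0 < q := by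
    have id0 : Tendsto (fun q : ℝ => q) (𝓝[>] 0) (𝓝 0) := tendsto_id.mono_left nhdsWithin_le_nhds
    have e1 : ∀ᶠ q : ℝ in 𝓝[>] 0, q * G0 < 1 := by
      have := id0.mul_const G0
      rw [zero_mul] at this
      exact this.eventually (gt_mem_nhds one_pos)
    have e2 : ∀ᶠ q : ℝ in 𝓝[>] 0, 2 * Z * q < δ := by
      have := id0.const_mul (2 * Z)
      rw [mul_zero] at this
      exact this.eventually (gt_mem_nhds hδ)
    have e3 : ∀ᶠ q : ℝ in 𝓝[>] 0, 2 / c1 * q < δ := by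
      have := id0.const_mul (2 / c1)
      rw [mul_zero] at this
      exact this.eventually (gt_mem_nhds hδ)
    have e4 : ∀ᶠ q : ℝ in 𝓝[>] 0, (Z * q * G0) ^ (r - 2) * (Z ^ 2 * m) < ε1 := by
      have h5 : Tendsto (fun q : ℝ => Z * q * G0) (𝓝[>] 0) (𝓝 0) := by
        have := (id0.const_mul Z).mul_const G0
        rwa [mul_zero, zero_mul] at this
      have h6 : ContinuousAt (fun x : ℝ => x ^ (r - 2)) 0 := Real.continuousAt_rpow_const _ _ (Or.inr (by linarith))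
      have h7 := (h6.tendsto.comp h5).mul_const (Z ^ 2 * (m : ℝ))
      simp only [Function.comp_def] at h7
      rw [Real.zero_rpow (by linarith), zero_mul] at h7
      exact h7.eventually (gt_mem_nhds hε1)
    exact ((((e1.and e2).and e3).and e4).and self_mem_nhdsWithin).exists
  -- the ratio of the frequencies
  obtain ⟨Y, hY⟩ : ∃ Y, Y = K3 * (2 * (Z + 1)) + (Z + 1) * q * m / δ + 2 * (Z + 1) * m / ε1 + 2 := ⟨_, rfl⟩
  have y1 : 0 ≤ K3 * (2 * (Z + 1)) := by positivity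
  have y2 : 0 ≤ (Z + 1) * q * m / δ := by positivity
  have y3 : 0 ≤ 2 * (Z + 1) * m / ε1 := by positivity
  obtain ⟨Λ, hΛ2, hΛ3⟩ : ∃ Λ : ℕ, 4 * H + 1 ≤ (Λ : ℝ) ∧ 2 ≤ Λ :=
    (((tendsto_natCast_atTop_atTop (R := ℝ)).eventually_ge_atTop (4 * H + 1)).and (eventually_ge_atTop 2)).exists
  obtain ⟨R, hR⟩ : ∃ R, R = 1 + Y := ⟨_, rfl⟩
  have hΛr : (2 : ℝ) ≤ Λ := by exact_mod_cast hΛ3
  have hΛ0 : (0 : ℝ) < Λ := by linarith
  obtain ⟨ω, hω⟩ : ∃ ω, ω = 1 / (R - 1) := ⟨_, rfl⟩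
  have hRY : Y ≤ R - 1 := by rw [hR]; linarith
  have hY2 : 2 ≤ Y := by rw [hY]; linarith
  have hR1 : 0 < R - 1 := by linarith
  have hω0 : 0 < ω := by rw [hω]; positivity
  have hωY : ω * Y ≤ 1 := by rw [hω, one_div, inv_mul_le_iff₀ hR1]; linarith
  have hωR : ω * (R - 1) = 1 := by rw [hω]; field_simp
  have w1 : K3 * (2 * (Z + 1)) * ω ≤ 1 := by
    have : K3 * (2 * (Z + 1)) ≤ Y := by rw [hY]; linarith
    calc K3 * (2 * (Z + 1)) * ω ≤ Y * ω := mul_le_mul_of_nonneg_right this hω0.le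
      _ = ω * Y := mul_comm _ _
      _ ≤ 1 := hωY
  have w2 : (Z + 1) * q * ω * m ≤ δ := by
    have h5 : (Z + 1) * q * m / δ ≤ Y := by rw [hY]; linarith
    have h6 : ω * ((Z + 1) * q * m / δ) ≤ 1 := (mul_le_mul_of_nonneg_left h5 hω0.le).trans hωY
    rw [mul_div_assoc', div_le_one hδ] at h6
    linarith
  have w3 : 2 * (Z + 1) * ω * m ≤ ε1 := by
    have h5 : 2 * (Z + 1) * m / ε1 ≤ Y := by rw [hY]; linarith
    have h6 : ω * (2 * (Z + 1) * m / ε1) ≤ 1 := (mul_le_mul_of_nonneg_left h5 hω0.le).trans hωY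
    rw [mul_div_assoc', div_le_one hε1] at h6
    linarith
  -- the first frequency
  obtain ⟨i0, ⟨⟨⟨i1, i2⟩, i3⟩, i4⟩⟩ : ∃ i0 : ℕ, ((1 / ((Λ : ℝ) ^ i0) ^ 2 ≤ θ ∧
      √(1 / ((Λ : ℝ) ^ i0) ^ 2) * (Fb / (q * ω)) ≤ g (1 / ((Λ : ℝ) ^ i0) ^ 2)) ∧ 2 * Kd / (Λ : ℝ) ^ i0 ≤ ε1) ∧
      2 * H < (Λ : ℝ) ^ i0 := by
    have hinf : Tendsto (fun i : ℕ => (Λ : ℝ) ^ i) atTop atTop := tendsto_pow_atTop_atTop_of_one_lt (by linarith)
    have h5 : Tendsto (fun i : ℕ => ((Λ : ℝ) ^ i) ^ 2) atTop atTop :=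
      (tendsto_pow_atTop (by norm_num : (2 : ℕ) ≠ 0)).comp hinf
    have h6 : Tendsto (fun i : ℕ => 1 / ((Λ : ℝ) ^ i) ^ 2) atTop (𝓝 0) := by
      simp only [one_div]
      exact h5.inv_tendsto_atTop
    have h7 : Tendsto (fun i : ℕ => 1 / ((Λ : ℝ) ^ i) ^ 2) atTop (𝓝[>] 0) :=
      tendsto_nhdsWithin_iff.2 ⟨h6, Filter.Eventually.of_forall fun i => by
        rw [mem_Ioi]; positivity⟩
    have h8 : Tendsto (fun i : ℕ => 2 * Kd / (Λ : ℝ) ^ i) atTop (𝓝 0) := hinf.const_div_atTop _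
    exact ((((h7.eventually (ev_small θ hθ0)).and (h7.eventually (hsq _))).and
      (h8.eventually (ge_mem_nhds hε1))).and (hinf.eventually_gt_atTop (2 * H))).exists
  -- selection of the scales
  have hgp : ∀ i : ℕ, 1 / ((Λ : ℝ) ^ (i0 + i)) ^ 2 ≤ t0 := fun i => by
    refine le_trans ?_ (i1.trans hθ)
    apply one_div_le_one_div_of_le (by positivity)
    apply pow_le_pow_left₀ (by positivity)
    exact pow_le_pow_right₀ (by linarith) (by omega)
  obtain ⟨σ, hσ0, hσm, hσ1, hσ2⟩ := subseq (a := fun i : ℕ => g (1 / ((Λ : ℝ) ^ (i0 + i)) ^ 2) * (Λ : ℝ) ^ (i0 + i))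
    (R := R) (by linarith) (fun i => mul_pos (hpos _ (by positivity) (hgp i)) (by positivity)) (fun B => by
      have hinf : Tendsto (fun i : ℕ => (Λ : ℝ) ^ (i0 + i)) atTop atTop :=
        (tendsto_pow_atTop_atTop_of_one_lt (by linarith)).comp (tendsto_atTop_mono (fun i => Nat.le_add_left i i0)
          tendsto_id)
      have h5 : Tendsto (fun i : ℕ => ((Λ : ℝ) ^ (i0 + i)) ^ 2) atTop atTop :=
        (tendsto_pow_atTop (by norm_num : (2 : ℕ) ≠ 0)).comp hinf
      have h6 : Tendsto (fun i : ℕ => 1 / ((Λ : ℝ) ^ (i0 + i)) ^ 2) atTop (𝓝 0) := by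
        simp only [one_div]
        exact h5.inv_tendsto_atTop
      have h7 : Tendsto (fun i : ℕ => 1 / ((Λ : ℝ) ^ (i0 + i)) ^ 2) atTop (𝓝[>] 0) :=
        tendsto_nhdsWithin_iff.2 ⟨h6, Filter.Eventually.of_forall fun i => by
          rw [mem_Ioi]; positivity⟩
      obtain ⟨i, hi⟩ := eventually_atTop.1 (h7.eventually (hsq B))
      refine ⟨i, fun k hk => ?_⟩
      have h8 := hi k hk
      rw [Real.sqrt_div zero_le_one, Real.sqrt_one, Real.sqrt_sq (by positivity), one_div_mul_eq_div,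
        div_le_iff₀ (by positivity)] at h8
      exact h8)
  obtain ⟨N, hN⟩ : ∃ N : ℕ → ℕ, ∀ j, N j = Λ ^ (i0 + σ j) := ⟨_, fun _ => rfl⟩
  have hNr : ∀ j, (N j : ℝ) = (Λ : ℝ) ^ (i0 + σ j) := fun j => by rw [hN]; push_cast; rfl
  have hNp : ∀ j, (0 : ℝ) < N j := fun j => by rw [hNr]; positivity
  have hNs : ∀ j, Λ * (N j : ℝ) ≤ N (j + 1) := fun j => by
    rw [hNr, hNr, mul_comm, ← pow_succ]
    have h5 : σ j < σ (j + 1) := hσm (Nat.lt_succ_self j)
    exact pow_le_pow_right₀ (by linarith) (by omega)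
  have hN2 : ∀ j, 2 * (N j : ℝ) ≤ N (j + 1) := fun j =>
    (mul_le_mul_of_nonneg_right hΛr (hNp j).le).trans (hNs j)
  have hNm : Monotone fun j => (N j : ℝ) := monotone_nat_of_le_succ fun j => by
    have := hN2 j; have := hNp j; linarith
  obtain ⟨T, hT⟩ : ∃ T : ℕ → ℝ, ∀ j, T j = 1 / (N j : ℝ) ^ 2 := ⟨_, fun _ => rfl⟩
  have hTp : ∀ j, 0 < T j := fun j => by rw [hT]; have := hNp j; positivity
  have hTa : ∀ i j, i ≤ j → T j ≤ T i := fun i j hij => by
    rw [hT, hT]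
    have := hNp i
    exact one_div_le_one_div_of_le (by positivity) (pow_le_pow_left₀ this.le (hNm hij) 2)
  have hTθ : ∀ j, T j ≤ θ := fun j => (hTa 0 j (Nat.zero_le _)).trans (by rw [hT, hNr, hσ0]; simpa using i1)
  have hTt : ∀ j, T j ≤ t0 := fun j => (hTθ j).trans hθ
  obtain ⟨gj, hgj⟩ : ∃ gj : ℕ → ℝ, ∀ j, gj j = g (T j) := ⟨_, fun _ => rfl⟩
  have hg0 : ∀ j, 0 < gj j := fun j => by rw [hgj]; exact hpos _ (hTp j) (hTt j)
  have hgG : ∀ j, gj j ≤ G0 := fun j => by rw [hgj, hG0d]; exact (hreg _ _ (hTp j) (hTt j) le_rfl).1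
  -- growth of `g_j N_j`
  obtain ⟨a, ha⟩ : ∃ a : ℕ → ℝ, ∀ j, a j = gj j * N j := ⟨_, fun _ => rfl⟩
  have ha0 : ∀ j, 0 < a j := fun j => by rw [ha]; exact mul_pos (hg0 j) (hNp j)
  have hastep : ∀ j, R * a j ≤ a (j + 1) := by
    intro j
    rw [ha, ha, hgj, hgj, hT, hT, hNr, hNr]
    exact hσ1 j
  have hgeo : ∀ j, ∑ i ∈ Finset.range j, a i ≤ ω * a j := by
    intro j
    have h5 := geo_sum (by linarith : 1 ≤ R) hastep (ha0 0).le j
    calc ∑ i ∈ Finset.range j, a i = ω * ((R - 1) * ∑ i ∈ Finset.range j, a i) := by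
          rw [← mul_assoc, hωR, one_mul]
      _ ≤ _ := mul_le_mul_of_nonneg_left h5 hω0.le
  have ha00 : ∀ j, a 0 ≤ a j := by
    have : Monotone a := monotone_nat_of_le_succ fun j => by
      have h5 := hastep j
      have h6 := ha0 j
      exact (le_mul_of_one_le_left h6.le (by linarith)).trans h5
    exact fun j => this (Nat.zero_le j)
  have hFba : Fb ≤ q * ω * a 0 := by
    have h5 : √(1 / ((Λ : ℝ) ^ i0) ^ 2) = 1 / (Λ : ℝ) ^ i0 := by
      rw [Real.sqrt_div zero_le_one, Real.sqrt_one, Real.sqrt_sq (by positivity)]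
    rw [h5] at i2
    have h6 : g (1 / ((Λ : ℝ) ^ i0) ^ 2) = gj 0 := by rw [hgj, hT, hNr, hσ0]; simp
    rw [h6, one_div_mul_eq_div, div_div, div_le_iff₀ (by positivity)] at i2
    calc Fb ≤ gj 0 * (q * ω * (Λ : ℝ) ^ i0) := i2
      _ = _ := by rw [ha, hNr, hσ0]; simp only [add_zero]; ring
  -- the amplitudes
  obtain ⟨t', ht'⟩ : ∃ t' : ℕ → ℝ, t' = fun j => (q * gj j) ^ 2 := ⟨_, rfl⟩
  have t'0 : ∀ j, 0 < t' j := fun j => by rw [ht']; have := hg0 j; positivity
  have t'1 : ∀ j, t' j ≤ 1 := fun j => by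
    rw [ht']
    have h5 := hg0 j
    have h6 : q * gj j ≤ 1 := (mul_le_mul_of_nonneg_left (hgG j) q0.le).trans q1.le
    exact pow_le_one₀ (by positivity) h6
  have t's : ¬ Summable t' := by
    have e1 : t' = fun j : ℕ => q ^ 2 * g (1 / ((Λ : ℝ) ^ (i0 + σ j)) ^ 2) ^ 2 := by
      rw [ht']
      funext j
      rw [hgj, hT, hNr]
      ring
    rw [e1, summable_mul_left_iff (by positivity)]
    intro hs
    refine hdiv Λ i0 hΛ3 (i1.trans hθ) ?_
    refine sel_summ (g := fun i : ℕ => g (1 / ((Λ : ℝ) ^ (i0 + i)) ^ 2)) (N := fun i : ℕ => (Λ : ℝ) ^ (i0 + i))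
      (R := R) (fun i => by positivity) (fun i => ?_) (fun i => hpos _ (by positivity) (hgp i)) hσ0 hσm hσ2 hs
    show 2 * (Λ : ℝ) ^ (i0 + i) ≤ (Λ : ℝ) ^ (i0 + (i + 1))
    rw [← add_assoc, pow_succ, mul_comm]
    exact mul_le_mul_of_nonneg_left hΛr (by positivity)
  obtain ⟨s, mm, hmm0, hmm1, hst, hbl⟩ := alloc t'0 t'1 t's
  have hsp : ∀ j, 0 < s j := fun j => by have := (hst j).1; have := t'0 j; linarith
  have hsq' : ∀ j, √(s j) ≤ q * gj j := by
    intro j
    have := hg0 j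
    apply Real.sqrt_le_iff.2
    refine ⟨by positivity, ?_⟩
    have := (hst j).2
    rw [ht'] at this
    exact this
  have hsq2 : ∀ j, q * gj j ≤ 2 * √(s j) := by
    intro j
    have h5 := hg0 j
    have h6 := (hst j).1
    rw [ht'] at h6
    have h7 : √((q * gj j) ^ 2) = q * gj j := Real.sqrt_sq (by positivity)
    have h8 : √(4 * s j) = 2 * √(s j) := by
      rw [Real.sqrt_mul (by norm_num), show (4 : ℝ) = 2 ^ 2 by norm_num, Real.sqrt_sq (by norm_num)]
    rw [← h7, ← h8]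
    apply Real.sqrt_le_sqrt
    have := hsp j
    simp only at h6
    linarith
  obtain ⟨x, hx⟩ : ∃ x : ℕ → ℝ, ∀ j, x j = (Z + 1) * q * ω * gj j := ⟨_, fun _ => rfl⟩
  obtain ⟨F, hF⟩ : ∃ F : ℕ → ℝ, ∀ j, F j = Fb + Z * ∑ i ∈ Finset.range j, √(s i) * N i := ⟨_, fun _ => rfl⟩
  have hsum1 : ∀ j, ∑ i ∈ Finset.range j, √(s i) * N i ≤ q * ∑ i ∈ Finset.range j, a i := by
    intro j
    rw [Finset.mul_sum]
    refine Finset.sum_le_sum fun i _ => ?_
    rw [ha, ← mul_assoc]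
    exact mul_le_mul_of_nonneg_right (hsq' i) (hNp i).le
  have hm : ∑ j ∈ Finset.range (mm m), s j = m := sum_blocks hmm0 hmm1 hbl m
  refine ⟨s, x, F, N, mm, ⟨hsp, fun j => (hst j).2.trans (t'1 j), fun j => ?_, fun j => ?_, fun j => ?_, fun j => ?_,
    fun j => ?_, fun j => ?_⟩, by rw [hF]; simp, hmm0, hmm1, hbl, ?_, ?_, ?_, fun t ht htθ => ?_⟩
  · rw [hF]
    have : 0 ≤ Z * ∑ i ∈ Finset.range j, √(s i) * N i :=
      mul_nonneg hZ.le (Finset.sum_nonneg fun i _ => mul_nonneg (Real.sqrt_nonneg _) (hNp i).le)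
    linarith
  · rw [hF, hx]
    have h5 := hsum1 j
    have h6 := hgeo j
    have h7 : q * ω * a 0 ≤ q * ω * a j := mul_le_mul_of_nonneg_left (ha00 j) (by positivity)
    have h8 : Z * ∑ i ∈ Finset.range j, √(s i) * N i ≤ Z * (q * (ω * a j)) :=
      mul_le_mul_of_nonneg_left (h5.trans (mul_le_mul_of_nonneg_left h6 q0.le)) hZ.le
    calc Fb + Z * ∑ i ∈ Finset.range j, √(s i) * N i ≤ q * ω * a j + Z * (q * (ω * a j)) := by linarith
      _ = (Z + 1) * q * ω * gj j * N j := by rw [ha]; ring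
  · rw [hx]
    have h5 := hsq2 j
    calc K3 * ((Z + 1) * q * ω * gj j) = K3 * (Z + 1) * ω * (q * gj j) := by ring
      _ ≤ K3 * (Z + 1) * ω * (2 * √(s j)) := mul_le_mul_of_nonneg_left h5 (by positivity)
      _ = (K3 * (2 * (Z + 1)) * ω) * √(s j) := by ring
      _ ≤ 1 * √(s j) := mul_le_mul_of_nonneg_right w1 (Real.sqrt_nonneg _)
      _ = _ := one_mul _
  · rw [hF, hF, Finset.sum_range_succ]
    linarith
  · refine lt_of_lt_of_le i4 ?_
    rw [hNr]
    exact pow_le_pow_right₀ (by linarith) (by omega)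
  · exact (mul_lt_mul_of_pos_right (by linarith) (hNp j)).trans_le (hNs j)
  · -- first sum
    calc ∑ j ∈ Finset.range (mm m), √(s j) * x j ≤ ∑ j ∈ Finset.range (mm m), 2 * (Z + 1) * ω * s j := by
          refine Finset.sum_le_sum fun j _ => ?_
          rw [hx]
          have h5 := (hst j).1
          rw [ht'] at h5
          simp only at h5
          have h6 := hg0 j
          calc √(s j) * ((Z + 1) * q * ω * gj j) ≤ (q * gj j) * ((Z + 1) * q * ω * gj j) :=
                mul_le_mul_of_nonneg_right (hsq' j) (by positivity)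
            _ = (Z + 1) * ω * (q * gj j) ^ 2 := by ring
            _ ≤ (Z + 1) * ω * (2 * s j) := mul_le_mul_of_nonneg_left (by linarith) (by positivity)
            _ = _ := by ring
      _ = 2 * (Z + 1) * ω * m := by rw [← Finset.mul_sum, hm]
      _ ≤ ε1 := w3
  · calc ∑ j ∈ Finset.range (mm m), Kd / (N j : ℝ) = Kd * ∑ j ∈ Finset.Ico 0 (mm m), 1 / (N j : ℝ) := by
          rw [Finset.mul_sum, ← Finset.range_eq_Ico]
          exact Finset.sum_congr rfl fun j _ => by ring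
      _ ≤ Kd * (2 / (N 0 : ℝ)) := mul_le_mul_of_nonneg_left (inv_sum hNp hN2 (Nat.zero_le _)) hKd
      _ = 2 * Kd / (Λ : ℝ) ^ i0 := by rw [hNr, hσ0]; simp only [add_zero]; ring
      _ ≤ ε1 := i3
  · calc ∑ j ∈ Finset.range (mm m), (Z * √(s j)) ^ r
        ≤ ∑ j ∈ Finset.range (mm m), (Z * q * G0) ^ (r - 2) * (Z ^ 2) * s j := by
          refine Finset.sum_le_sum fun j _ => ?_
          have h5 : 0 < Z * √(s j) := mul_pos hZ (Real.sqrt_pos.2 (hsp j))
          have h6 : Z * √(s j) ≤ Z * q * G0 := by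
            rw [mul_assoc]
            exact mul_le_mul_of_nonneg_left ((hsq' j).trans (mul_le_mul_of_nonneg_left (hgG j) q0.le)) hZ.le
          have h7 : (Z * √(s j)) ^ r = (Z * √(s j)) ^ (r - 2) * (Z ^ 2 * s j) := by
            have e1 : (Z * √(s j)) ^ r = (Z * √(s j)) ^ (r - 2) * (Z * √(s j)) ^ (2 : ℝ) := by
              rw [← Real.rpow_add h5]; congr 1; ring
            rw [e1, Real.rpow_two, mul_pow, Real.sq_sqrt (hsp j).le]
          rw [h7, mul_assoc]
          exact mul_le_mul_of_nonneg_right (Real.rpow_le_rpow h5.le h6 (by linarith))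
            (mul_nonneg (by positivity) (hsp j).le)
      _ = (Z * q * G0) ^ (r - 2) * (Z ^ 2 * m) := by rw [← Finset.mul_sum, hm]; ring
      _ ≤ ε1 := q4.le
  · -- the estimate for small times
    have hst0 : 0 < √t := Real.sqrt_pos.2 ht
    have htt : t ≤ t0 := htθ.trans hθ
    have hgt : 0 < g t := hpos t ht htt
    have hex : ∃ j, T j ≤ t := by
      have h5 : Tendsto (fun j => (N j : ℝ)) atTop atTop := by
        refine tendsto_atTop_mono (f := fun j : ℕ => (j : ℝ)) (fun j => ?_) tendsto_natCast_atTop_atTop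
        rw [hNr]
        have e1 : (j : ℝ) ≤ 2 ^ j := by exact_mod_cast (Nat.lt_two_pow_self (n := j)).le
        calc (j : ℝ) ≤ 2 ^ j := e1
          _ ≤ (Λ : ℝ) ^ j := pow_le_pow_left₀ (by norm_num) hΛr j
          _ ≤ _ := pow_le_pow_right₀ (by linarith) (by have : j ≤ σ j := hσm.le_apply; omega)
      have h6 : Tendsto T atTop (𝓝 0) := by
        have e1 : T = fun j => ((N j : ℝ) ^ 2)⁻¹ := by funext j; rw [hT, one_div]
        rw [e1]
        exact ((tendsto_pow_atTop (by norm_num : (2 : ℕ) ≠ 0)).comp h5).inv_tendsto_atTop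
      obtain ⟨j, hj⟩ := (h6.eventually (gt_mem_nhds ht)).exists
      exact ⟨j, hj.le⟩
    classical
    obtain ⟨k, hk⟩ : ∃ k, k = min (Nat.find hex) (mm m) := ⟨_, rfl⟩
    have hk1 : ∀ j, j < k → t < T j := by
      intro j hj
      have := Nat.find_min hex (m := j) (by rw [hk] at hj; exact lt_of_lt_of_le hj (min_le_left _ _))
      exact not_le.1 this
    have hk2 : k < mm m → ∀ j, k ≤ j → T j ≤ t := by
      intro h5 j hj
      have h6 : k = Nat.find hex := by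
        rw [hk] at h5 ⊢
        rcases min_choice (Nat.find hex) (mm m) with h7 | h7
        · exact h7
        · rw [h7] at h5; exact absurd h5 (lt_irrefl _)
      exact (hTa k j hj).trans (by rw [h6]; exact Nat.find_spec hex)
    refine ⟨k, by rw [hk]; exact min_le_right _ _, ?_, ?_, ?_⟩
    · rw [hF, mul_add]
      have h5 : √t * (Z * ∑ i ∈ Finset.range k, √(s i) * N i) ≤ δ * g t := by
        rcases Nat.eq_zero_or_pos k with h6 | h6
        · rw [h6]
          simp only [Finset.range_zero, Finset.sum_empty, mul_zero]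
          positivity
        · obtain ⟨k', hk'⟩ : ∃ k', k = k' + 1 := ⟨k - 1, by omega⟩
          have h7 : ∑ i ∈ Finset.range k, a i ≤ 2 * a k' := by
            rw [hk', Finset.sum_range_succ]
            have h8 := hgeo k'
            have h9 : ω ≤ 1 := by
              have : ω * 2 ≤ ω * Y := mul_le_mul_of_nonneg_left hY2 hω0.le
              linarith
            have := ha0 k'
            have j1 := mul_le_of_le_one_left (ha0 k').le h9
            linarith
          have h10 : √t * a k' ≤ g t := by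
            have h11 := hk1 k' (by omega)
            have h12 := (hreg t (T k') ht h11.le (hTt k')).2
            have h14 : √(T k') = 1 / N k' := by
              rw [hT, Real.sqrt_div zero_le_one, Real.sqrt_one, Real.sqrt_sq (hNp k').le]
            rw [Real.sqrt_div (hTp k').le, h14] at h12
            rw [ha, hgj]
            have h15 : g (T k') ≤ 1 / N k' / √t * g t := h12
            have hnk' := hNp k'
            calc √t * (g (T k') * N k') ≤ √t * (1 / N k' / √t * g t * N k') :=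
                  mul_le_mul_of_nonneg_left (mul_le_mul_of_nonneg_right h15 hnk'.le) hst0.le
              _ = g t := by field_simp
          calc √t * (Z * ∑ i ∈ Finset.range k, √(s i) * N i) ≤ √t * (Z * (q * (2 * a k'))) := by
                apply mul_le_mul_of_nonneg_left _ hst0.le
                apply mul_le_mul_of_nonneg_left _ hZ.le
                exact (hsum1 k).trans (mul_le_mul_of_nonneg_left h7 q0.le)
            _ = 2 * Z * q * (√t * a k') := by ring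
            _ ≤ 2 * Z * q * g t := mul_le_mul_of_nonneg_left h10 (by positivity)
            _ ≤ δ * g t := mul_le_mul_of_nonneg_right q2.le hgt.le
      have h6 := hθF t ht htθ
      linarith
    · rcases le_or_gt (mm m) k with h5 | h5
      · rw [Finset.Ico_eq_empty (by omega), Finset.sum_empty, mul_zero]
        positivity
      have h6 := hk2 h5
      have hgjt : ∀ j, k ≤ j → gj j ≤ g t := fun j hj => by
        rw [hgj]; exact (hreg _ _ (hTp j) (h6 j hj) htt).1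
      have hyk : 1 ≤ √t * N k := by
        have h7 := h6 k le_rfl
        rw [hT, div_le_iff₀ (by have := hNp k; positivity)] at h7
        have h8 : (1 : ℝ) ≤ (√t * N k) ^ 2 := by rw [mul_pow, Real.sq_sqrt ht.le]; exact h7
        have := hNp k
        exact (one_le_sq_iff₀ (by positivity)).1 h8
      have hterm : ∀ j ∈ Finset.Ico k (mm m), √t * (√(s j) * ((N j : ℝ) * Real.exp (-(c1 * (N j : ℝ) ^ 2 * t)))) ≤
          q * g t * (1 / (c1 * √t)) * (1 / (N j : ℝ)) := by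
        intro j hj
        rw [Finset.mem_Ico] at hj
        have hnj := hNp j
        obtain ⟨y, hy⟩ : ∃ y, y = √t * N j := ⟨_, rfl⟩
        have hy0 : 0 < y := by rw [hy]; positivity
        have hy2 : c1 * (N j : ℝ) ^ 2 * t = c1 * y ^ 2 := by
          rw [hy, mul_pow, Real.sq_sqrt ht.le]; ring
        have h7 : y * Real.exp (-(c1 * y ^ 2)) ≤ 1 / (c1 * y) := by
          have h8 := Real.add_one_le_exp (c1 * y ^ 2)
          rw [Real.exp_neg, ← div_eq_mul_inv, div_le_div_iff₀ (Real.exp_pos _) (by positivity)]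
          have j1 : y * (c1 * y) = c1 * y ^ 2 := by ring
          rw [j1]
          linarith
        have h9 : √(s j) ≤ q * g t := (hsq' j).trans (mul_le_mul_of_nonneg_left (hgjt j hj.1) q0.le)
        calc √t * (√(s j) * ((N j : ℝ) * Real.exp (-(c1 * (N j : ℝ) ^ 2 * t))))
            = √(s j) * (y * Real.exp (-(c1 * y ^ 2))) := by rw [hy2, hy]; ring
          _ ≤ q * g t * (1 / (c1 * y)) := mul_le_mul h9 h7 (by positivity) (by positivity)
          _ = _ := by rw [hy]; field_simp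
      rw [Finset.mul_sum]
      refine (Finset.sum_le_sum hterm).trans ?_
      rw [← Finset.mul_sum]
      have h7 := inv_sum hNp hN2 h5.le
      have hnk := hNp k
      calc q * g t * (1 / (c1 * √t)) * ∑ i ∈ Finset.Ico k (mm m), 1 / (N i : ℝ)
          ≤ q * g t * (1 / (c1 * √t)) * (2 / (N k : ℝ)) := mul_le_mul_of_nonneg_left h7 (by positivity)
        _ = (2 / c1 * q) * g t * (1 / (√t * N k)) := by field_simp
        _ ≤ (2 / c1 * q) * g t * 1 := by
            apply mul_le_mul_of_nonneg_left _ (by positivity)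
            rw [div_le_one (by positivity)]
            exact hyk
        _ ≤ δ * g t := by
            rw [mul_one]
            exact mul_le_mul_of_nonneg_right q3.le hgt.le
    · rcases le_or_gt (mm m) k with h5 | h5
      · rw [Finset.Ico_eq_empty (by omega), Finset.sum_empty]
        positivity
      have h6 := hk2 h5
      have hterm : ∀ j ∈ Finset.Ico k (mm m), s j * x j ≤ (Z + 1) * q * ω * g t * s j := by
        intro j hj
        rw [Finset.mem_Ico] at hj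
        have h7 : gj j ≤ g t := by rw [hgj]; exact (hreg _ _ (hTp j) (h6 j hj.1) htt).1
        have h8 := hsp j
        rw [hx]
        calc s j * ((Z + 1) * q * ω * gj j) = (Z + 1) * q * ω * gj j * s j := by ring
          _ ≤ (Z + 1) * q * ω * g t * s j :=
              mul_le_mul_of_nonneg_right (mul_le_mul_of_nonneg_left h7 (by positivity)) h8.le
      refine (Finset.sum_le_sum hterm).trans ?_
      rw [← Finset.mul_sum]
      have h7 : ∑ j ∈ Finset.Ico k (mm m), s j ≤ m := by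
        rw [← hm, Finset.range_eq_Ico]
        exact Finset.sum_le_sum_of_subset_of_nonneg (Finset.Ico_subset_Ico_left (Nat.zero_le _))
          fun j _ _ => (hsp j).le
      calc (Z + 1) * q * ω * g t * ∑ j ∈ Finset.Ico k (mm m), s j ≤ (Z + 1) * q * ω * g t * m :=
            mul_le_mul_of_nonneg_left h7 (by positivity)
        _ = ((Z + 1) * q * ω * m) * g t := by ring
        _ ≤ δ * g t := mul_le_mul_of_nonneg_right w2 hgt.le

end Pool.Agent.H356R3.NS.X
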