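import Pool.Agent.H3NY.X.StepQ1

namespace Pool.Agent.H356R3.NS
end Pool.Agent.H356R3.NS
namespace Pool.Agent.H356R3.NS.H3
end Pool.Agent.H356R3.NS.H3
namespace Pool.Agent.H356R3.NS.X
end Pool.Agent.H356R3.NS.X
namespace Pool.Agent.H3NS
end Pool.Agent.H3NS
namespace H459R3.NS
end H459R3.NS

set_option autoImplicit false
set_option maxHeartbeats 4000000
set_option synthInstance.maxHeartbeats 400000

/-!
The step with thresholds that are linear in the size of the solution, for pieces of size `1/n`.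
-/

open MeasureTheory Set Filter Topology
open scoped ENNReal NNReal

namespace Pool.Agent.H356R3.NS.X

open Pool.Agent.H356R3.NS.H3

lemma LN_le_iff {φ : ℝ → ℝ≥0∞} {a : ℝ} (ha : 0 ≤ a) :
    LN φ ≤ ENNReal.ofReal a ↔ ∫⁻ t in Ioi 0, φ t ^ (2 : ℝ) ≤ ENNReal.ofReal (a ^ 2) := by
  unfold LN
  have e1 : ENNReal.ofReal (a ^ 2) = ENNReal.ofReal a ^ (2 : ℝ) := by
    rw [ENNReal.rpow_two, ENNReal.ofReal_pow ha]
  rw [e1]
  constructor
  · intro h
    have h2 := ENNReal.rpow_le_rpow h (show (0 : ℝ) ≤ 2 by norm_num)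
    rwa [← ENNReal.rpow_mul, show (1 / 2 : ℝ) * 2 = 1 by norm_num, ENNReal.rpow_one] at h2
  · intro h
    have h2 := ENNReal.rpow_le_rpow h (show (0 : ℝ) ≤ 1 / 2 by norm_num)
    rwa [← ENNReal.rpow_mul, show (2 : ℝ) * (1 / 2) = 1 by norm_num, ENNReal.rpow_one] at h2

lemma LN_add_sq {φ ψ : ℝ → ℝ≥0∞} (mφ : Measurable φ) (mψ : Measurable ψ) {a b d : ℝ} (ha : 0 ≤ a) (hb : 0 ≤ b)
    (hd : 0 ≤ d) (h1 : LN φ ≤ ENNReal.ofReal a) (h2 : ∫⁻ t in Ioi 0, φ t * ψ t ≤ ENNReal.ofReal b)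
    (h3 : LN ψ ≤ ENNReal.ofReal d) :
    LN (fun t => φ t + ψ t) ≤ ENNReal.ofReal (√(a ^ 2 + 2 * b + d ^ 2)) := by
  rw [LN_le_iff (Real.sqrt_nonneg _), Real.sq_sqrt (by positivity)]
  rw [LN_le_iff ha] at h1
  rw [LN_le_iff hd] at h3
  calc ∫⁻ t in Ioi 0, (φ t + ψ t) ^ (2 : ℝ)
      = ∫⁻ t in Ioi 0, ((φ t ^ (2 : ℝ) + 2 * (φ t * ψ t)) + ψ t ^ (2 : ℝ)) := by
        refine lintegral_congr fun t => ?_
        simp only [ENNReal.rpow_two]
        ring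
    _ = (∫⁻ t in Ioi 0, φ t ^ (2 : ℝ)) + 2 * (∫⁻ t in Ioi 0, φ t * ψ t) + ∫⁻ t in Ioi 0, ψ t ^ (2 : ℝ) := by
        rw [lintegral_add_left (by fun_prop), lintegral_add_left (by fun_prop),
          lintegral_const_mul' _ _ (by norm_num)]
    _ ≤ ENNReal.ofReal (a ^ 2) + 2 * ENNReal.ofReal b + ENNReal.ofReal (d ^ 2) := by gcongr
    _ = _ := by
        rw [← ENNReal.ofReal_ofNat, ← ENNReal.ofReal_mul (by norm_num), ← ENNReal.ofReal_add (by positivity) (by positivity),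
          ← ENNReal.ofReal_add (by positivity) (by positivity)]

/-- growth constant of the square of the norm in `L²(ℓ¹)` -/
noncomputable def Kv (c H : ℝ) : ℝ := 2 + C5 c H ^ 2 / (2 * c)

lemma Kv_pos {c H : ℝ} (hc : 0 < c) : 0 < Kv c H := by
  unfold Kv
  positivity

end Pool.Agent.H356R3.NS.X
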