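import Pool.Agent.H3NY.R.Step2
import Pool.Agent.H3NY.X.FixX

namespace Pool.Agent.H356R3.NS
end Pool.Agent.H356R3.NS
namespace Pool.Agent.H356R3.NS.H3
end Pool.Agent.H356R3.NS.H3
namespace Pool.Agent.H356R3.NS.X
end Pool.Agent.H356R3.NS.X
namespace Pool.Agent.H3NS
end Pool.Agent.H3NS
namespace H459R3.NS
end H459R3.NS

set_option autoImplicit false
set_option maxHeartbeats 4000000
set_option synthInstance.maxHeartbeats 400000

/-!
The parts of the step: the waves, the response at high frequencies, the algebra of the error.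
-/

open MeasureTheory Set Filter Topology
open scoped ENNReal NNReal

namespace Pool.Agent.H356R3.NS.X

open Pool.Agent.H356R3.NS.H3

variable {q cc η : K}

lemma Bf_b {a A B : ℝ} (ha : 0 ≤ a) (hA : 0 ≤ A) {x y : K → C3} (hx : NW (Wa a) x ≤ ENNReal.ofReal A)
    (hy : NW (Wa a) y ≤ ENNReal.ofReal B) : NW (Wm a) (Bf x y) ≤ ENNReal.ofReal (C0 * (A * B)) := by
  rw [ENNReal.ofReal_mul C0_pos.le, ENNReal.ofReal_mul hA]
  exact (NW_Bf_le ha _ _).trans (mul_le_mul' le_rfl (mul_le_mul' hx hy))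

/-- symmetrised products -/
lemma Bf_b2 {a A B : ℝ} (ha : 0 ≤ a) (hA : 0 ≤ A) (hB : 0 ≤ B) {x y : K → C3}
    (hx : NW (Wa a) x ≤ ENNReal.ofReal A) (hy : NW (Wa a) y ≤ ENNReal.ofReal B) :
    NW (Wm a) (Bf x y + Bf y x) ≤ ENNReal.ofReal (2 * C0 * (A * B)) := by
  have hC := C0_pos
  refine (NW_add_le _ _ _).trans ((add_le_add (Bf_b ha hA hx hy) (Bf_b ha hB hy hx)).trans ?_)
  rw [← ENNReal.ofReal_add (by positivity) (by positivity)]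
  apply ENNReal.ofReal_le_ofReal
  apply le_of_eq
  ring

lemma FE_alg {x w I y pq ph G Gl : K → C3} {χt : ℝ} (nx : SN x) (nw : SN w) (nI : SN I) (ny : SN y)
    (hww : Bf w w = pq + ph) (hG : G = χt • (Bf x w + Bf w x)) :
    χt • Bf (x + (w + I) + y) (x + (w + I) + y) - χt • Bf x x - pq - (G - Gl)
      = (χt • ((Bf x I + Bf I x) + (Bf x y + Bf y x) + ((Bf w I + Bf I w) + Bf I I)
        + (Bf (w + I) y + Bf y (w + I)) + Bf y y + ph) + Gl) - (1 - χt) • pq := by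
  have nwI := nw.add nI
  have nxw := nx.add nwI
  rw [hG, Bf_add_left nxw ny (nxw.add ny), Bf_add_right nxw nxw ny, Bf_add_right ny nxw ny,
    Bf_add_left nx nwI nxw, Bf_add_right nx nx nwI, Bf_add_right nwI nx nwI,
    Bf_add_left nx nwI ny, Bf_add_right ny nx nwI, Bf_add_right nx nw nI, Bf_add_left nw nI nx,
    Bf_add_left nw nI nwI, Bf_add_right nw nw nI, Bf_add_right nI nw nI, hww]
  simp only [smul_add, sub_smul, one_smul]
  abel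

lemma FE_bd {a χt Mu Cw CI Cb Zz PH P7 Kc E N : ℝ} {x w I y pq ph Gl : K → C3} (ha : 0 ≤ a) (hMu : 0 ≤ Mu)
    (hCw : 0 ≤ Cw) (hCI : 0 ≤ CI) (hCb : 0 ≤ Cb) (hZz : 0 ≤ Zz) (hPH : 0 ≤ PH) (hP7 : 0 ≤ P7) (hKc : 0 ≤ Kc)
    (hE : 0 ≤ E) (hE1 : E ≤ 1) (hN : 1 ≤ N) (h0 : 0 ≤ χt) (h1 : χt ≤ 1)
    (bx : NW (Wa a) x ≤ ENNReal.ofReal Mu) (bw : NW (Wa a) w ≤ ENNReal.ofReal (Cw * N * E))
    (bI : NW (Wa a) I ≤ ENNReal.ofReal (CI * E)) (bwI : NW (Wa a) (w + I) ≤ ENNReal.ofReal (Cb * N * E))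
    (by' : NW (Wa a) y ≤ ENNReal.ofReal (Zz * E)) (bp : NW (Wm a) ph ≤ ENNReal.ofReal (PH * E))
    (bG : NW (Wm a) Gl ≤ ENNReal.ofReal (P7 * E)) (bq : NW (Wm a) ((1 - χt) • pq) ≤ ENNReal.ofReal (Kc * E)) :
    NW (Wm a) ((χt • ((Bf x I + Bf I x) + (Bf x y + Bf y x) + ((Bf w I + Bf I w) + Bf I I)
        + (Bf (w + I) y + Bf y (w + I)) + Bf y y + ph) + Gl) - (1 - χt) • pq) ≤
      ENNReal.ofReal ((2 * C0 * (Mu * CI) + 2 * C0 * (Mu * Zz) + C0 * (2 * (Cw * CI) + CI * CI) * N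
      + 2 * C0 * (Cb * N * Zz) + C0 * (Zz * Zz) + PH + P7 + Kc) * E) := by
  have hC := C0_pos
  have hN0 : 0 ≤ N := by linarith
  have hee : E * E ≤ E := mul_le_of_le_one_left hE hE1
  have n1 : 0 ≤ CI * E := by positivity
  have n2 : 0 ≤ Zz * E := by positivity
  have n3 : 0 ≤ Cw * N * E := by positivity
  have n4 : 0 ≤ Cb * N * E := by positivity
  have b1 : NW (Wm a) (Bf x I + Bf I x) ≤ ENNReal.ofReal (2 * C0 * (Mu * CI) * E) :=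
    (Bf_b2 ha hMu n1 bx bI).trans (ENNReal.ofReal_le_ofReal (le_of_eq (by ring)))
  have b2 : NW (Wm a) (Bf x y + Bf y x) ≤ ENNReal.ofReal (2 * C0 * (Mu * Zz) * E) :=
    (Bf_b2 ha hMu n2 bx by').trans (ENNReal.ofReal_le_ofReal (le_of_eq (by ring)))
  have b3 : NW (Wm a) ((Bf w I + Bf I w) + Bf I I)
      ≤ ENNReal.ofReal (C0 * (2 * (Cw * CI) + CI * CI) * N * E) := by
    refine (NW_add_le _ _ _).trans ((add_le_add (Bf_b2 ha n3 n1 bw bI) (Bf_b ha n1 bI bI)).trans ?_)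
    rw [← ENNReal.ofReal_add (by positivity) (by positivity)]
    apply ENNReal.ofReal_le_ofReal
    have p1 : 0 ≤ C0 * (Cw * CI) * N := by positivity
    have p2 : 0 ≤ C0 * (CI * CI) := by positivity
    have q1 := mul_le_mul_of_nonneg_left hee p1
    have q2 := mul_le_mul_of_nonneg_left hee p2
    have q3 : C0 * (CI * CI) * E ≤ C0 * (CI * CI) * E * N := le_mul_of_one_le_right (by positivity) hN
    calc 2 * C0 * (Cw * N * E * (CI * E)) + C0 * (CI * E * (CI * E))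
        = 2 * (C0 * (Cw * CI) * N * (E * E)) + C0 * (CI * CI) * (E * E) := by ring
      _ ≤ 2 * (C0 * (Cw * CI) * N * E) + C0 * (CI * CI) * E * N := by linarith
      _ = _ := by ring
  have b4 : NW (Wm a) (Bf (w + I) y + Bf y (w + I)) ≤ ENNReal.ofReal (2 * C0 * (Cb * N * Zz) * E) := by
    refine (Bf_b2 ha n4 n2 bwI by').trans (ENNReal.ofReal_le_ofReal ?_)
    have p1 : 0 ≤ 2 * C0 * (Cb * N * Zz) := by positivity
    have q1 := mul_le_mul_of_nonneg_left hee p1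
    calc 2 * C0 * (Cb * N * E * (Zz * E)) = 2 * C0 * (Cb * N * Zz) * (E * E) := by ring
      _ ≤ _ := q1
  have b5 : NW (Wm a) (Bf y y) ≤ ENNReal.ofReal (C0 * (Zz * Zz) * E) := by
    refine (Bf_b ha n2 by' by').trans (ENNReal.ofReal_le_ofReal ?_)
    have p1 : 0 ≤ C0 * (Zz * Zz) := by positivity
    have q1 := mul_le_mul_of_nonneg_left hee p1
    calc C0 * (Zz * E * (Zz * E)) = C0 * (Zz * Zz) * (E * E) := by ring
      _ ≤ _ := q1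
  refine (NW_sub_le _ _ _).trans ((add_le_add ((NW_add_le _ _ _).trans (add_le_add
    ((NW_smul_le _ h0 h1 _).trans ((NW_add_le _ _ _).trans (add_le_add ((NW_add_le _ _ _).trans
      (add_le_add ((NW_add_le _ _ _).trans (add_le_add ((NW_add_le _ _ _).trans (add_le_add ((NW_add_le _ _ _).trans
        (add_le_add b1 b2)) b3)) b4)) b5)) bp))) bG)) bq).trans ?_)
  rw [← ENNReal.ofReal_add (by positivity) (by positivity), ← ENNReal.ofReal_add (by positivity) (by positivity),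
    ← ENNReal.ofReal_add (by positivity) (by positivity), ← ENNReal.ofReal_add (by positivity) (by positivity),
    ← ENNReal.ofReal_add (by positivity) (by positivity), ← ENNReal.ofReal_add (by positivity) (by positivity),
    ← ENNReal.ofReal_add (by positivity) (by positivity)]
  apply ENNReal.ofReal_le_ofReal
  apply le_of_eq
  ring

lemma TT_num {c h C0 Kz Cw CI Cb X P N Mu Zz σ1 Kc Y : ℝ} (hc : 0 < c) (hh : 0 < h) (hC : 0 < C0) (hKz : 0 < Kz)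
    (hCw : 0 ≤ Cw) (hCI : 0 ≤ CI) (hCbe : Cb = Cw + CI) (hX0 : 0 ≤ X) (hX1 : X ≤ 1) (hP : 0 ≤ P)
    (hCIP : CI ≤ 4 * P / c) (hN : 1 ≤ N) (hMuX : Mu = X * N) (hZz : Zz = Kz * (Mu * Cw))
    (hσ1 : σ1 = c / 16 * N ^ 2) (hKc : Kc = 8 * P * N ^ 2 * Real.exp (-(c * N ^ 2 * h / 2)))
    (hY : Y = Cb * X ^ 2 + Cb ^ 2 * X + (Cb ^ 2 + P) / N) :
    (2 * C0 * (Mu * CI) + 2 * C0 * (Mu * Zz) + C0 * (2 * (Cw * CI) + CI * CI) * N
      + 2 * C0 * (Cb * N * Zz) + C0 * (Zz * Zz) + 8 * P * N + 4 * C0 ^ 2 / c * Mu ^ 2 * Cw + Kc) * (1 / σ1)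
      ≤ (128 * C0 / c ^ 2 + 2 * (32 * C0 * Kz / c) + 16 * C0 / c + 16 * C0 * Kz ^ 2 / c + 128 / c
        + 64 * C0 ^ 2 / c ^ 2 + 256 / (c ^ 2 * h)) * Y := by
  obtain ⟨k1', hk1'⟩ : ∃ x, x = 128 * C0 / c ^ 2 := ⟨_, rfl⟩
  obtain ⟨k2', hk2'⟩ : ∃ x, x = 32 * C0 * Kz / c := ⟨_, rfl⟩
  obtain ⟨k3', hk3'⟩ : ∃ x, x = 16 * C0 / c := ⟨_, rfl⟩
  obtain ⟨k5', hk5'⟩ : ∃ x, x = 16 * C0 * Kz ^ 2 / c := ⟨_, rfl⟩
  obtain ⟨k6', hk6'⟩ : ∃ x, x = 128 / c := ⟨_, rfl⟩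
  obtain ⟨k7', hk7'⟩ : ∃ x, x = 64 * C0 ^ 2 / c ^ 2 := ⟨_, rfl⟩
  obtain ⟨k8', hk8'⟩ : ∃ x, x = 256 / (c ^ 2 * h) := ⟨_, rfl⟩
  have p1' : 0 < k1' := by rw [hk1']; positivity
  have p2' : 0 < k2' := by rw [hk2']; positivity
  have p3' : 0 < k3' := by rw [hk3']; positivity
  have p5' : 0 < k5' := by rw [hk5']; positivity
  have p6' : 0 < k6' := by rw [hk6']; positivity
  have p7' : 0 < k7' := by rw [hk7']; positivity
  have p8' : 0 < k8' := by rw [hk8']; positivity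
  have hNp : 0 < N := by linarith
  have hCb0 : 0 ≤ Cb := by rw [hCbe]; positivity
  have hCwb : Cw ≤ Cb := by rw [hCbe]; linarith
  rw [← hk1', ← hk2', ← hk3', ← hk5', ← hk6', ← hk7', ← hk8']
  have i1 : 2 * C0 * (Mu * CI) * (1 / σ1) ≤ k1' * (P / N) := by
    calc 2 * C0 * (Mu * CI) * (1 / σ1) = 32 * C0 / c * X * (CI / N) := by
          rw [hσ1, hMuX]; field_simp; ring
      _ ≤ 32 * C0 / c * 1 * (4 * P / c / N) := by
          apply mul_le_mul (mul_le_mul_of_nonneg_left hX1 (by positivity))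
            (div_le_div_of_nonneg_right hCIP hNp.le) (by positivity) (by positivity)
      _ = _ := by rw [hk1']; field_simp; ring
  have i2 : 2 * C0 * (Mu * Zz) * (1 / σ1) ≤ k2' * (Cb * X ^ 2) := by
    calc 2 * C0 * (Mu * Zz) * (1 / σ1) = k2' * (Cw * X ^ 2) := by
          rw [hσ1, hZz, hk2', hMuX]; field_simp; ring
      _ ≤ _ := mul_le_mul_of_nonneg_left (mul_le_mul_of_nonneg_right hCwb (by positivity)) p2'.le
  have i3 : C0 * (2 * (Cw * CI) + CI * CI) * N * (1 / σ1) ≤ k3' * (Cb ^ 2 / N) := by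
    calc C0 * (2 * (Cw * CI) + CI * CI) * N * (1 / σ1) = k3' * ((2 * (Cw * CI) + CI * CI) / N) := by
          rw [hσ1, hk3']; field_simp
      _ ≤ _ := by
          apply mul_le_mul_of_nonneg_left (div_le_div_of_nonneg_right _ hNp.le) p3'.le
          rw [hCbe]
          nlinarith [mul_nonneg hCw hCw]
  have i4 : 2 * C0 * (Cb * N * Zz) * (1 / σ1) ≤ k2' * (Cb ^ 2 * X) := by
    calc 2 * C0 * (Cb * N * Zz) * (1 / σ1) = k2' * (Cb * Cw * X) := by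
          rw [hσ1, hZz, hk2', hMuX]; field_simp; ring
      _ ≤ k2' * (Cb * Cb * X) := by
          apply mul_le_mul_of_nonneg_left _ p2'.le
          exact mul_le_mul_of_nonneg_right (mul_le_mul_of_nonneg_left hCwb hCb0) hX0
      _ = _ := by ring
  have i5 : C0 * (Zz * Zz) * (1 / σ1) ≤ k5' * (Cb ^ 2 * X) := by
    calc C0 * (Zz * Zz) * (1 / σ1) = k5' * (Cw * Cw * (X * X)) := by
          rw [hσ1, hZz, hk5', hMuX]; field_simp
      _ ≤ k5' * (Cb * Cb * (X * 1)) := by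
          apply mul_le_mul_of_nonneg_left _ p5'.le
          exact mul_le_mul (mul_le_mul hCwb hCwb hCw hCb0) (mul_le_mul_of_nonneg_left hX1 hX0) (by positivity)
            (by positivity)
      _ = _ := by ring
  have i6 : 8 * P * N * (1 / σ1) = k6' * (P / N) := by
    rw [hσ1, hk6']; field_simp; ring
  have i7 : 4 * C0 ^ 2 / c * Mu ^ 2 * Cw * (1 / σ1) ≤ k7' * (Cb * X ^ 2) := by
    calc 4 * C0 ^ 2 / c * Mu ^ 2 * Cw * (1 / σ1) = k7' * (Cw * X ^ 2) := by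
          rw [hσ1, hk7', hMuX]; field_simp; ring
      _ ≤ _ := mul_le_mul_of_nonneg_left (mul_le_mul_of_nonneg_right hCwb (by positivity)) p7'.le
  have i8 : Kc * (1 / σ1) ≤ k8' * (P / N) := by
    have h1 : Real.exp (-(c * N ^ 2 * h / 2)) ≤ 2 / (c * N ^ 2 * h) := by
      have h2 : c * N ^ 2 * h / 2 + 1 ≤ Real.exp (c * N ^ 2 * h / 2) := Real.add_one_le_exp _
      rw [Real.exp_neg, inv_le_comm₀ (Real.exp_pos _) (by positivity), inv_div]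
      linarith
    calc Kc * (1 / σ1) ≤ 8 * P * N ^ 2 * (2 / (c * N ^ 2 * h)) * (1 / σ1) := by
          rw [hKc, hσ1]
          gcongr
      _ = k8' * (P / N) * (1 / N) := by
          rw [hσ1, hk8']; field_simp; ring
      _ ≤ k8' * (P / N) * 1 := by
          apply mul_le_mul_of_nonneg_left _ (by positivity)
          rw [div_le_one hNp]; exact hN
      _ = _ := mul_one _
  have e2 : Y = Cb * X ^ 2 + Cb ^ 2 * X + Cb ^ 2 / N + P / N := by rw [hY]; ring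
  rw [e2]
  obtain ⟨Y1, hY1⟩ : ∃ Y1, Y1 = Cb * X ^ 2 := ⟨_, rfl⟩
  obtain ⟨Y2, hY2⟩ : ∃ Y2, Y2 = Cb ^ 2 * X := ⟨_, rfl⟩
  obtain ⟨Y3, hY3⟩ : ∃ Y3, Y3 = Cb ^ 2 / N := ⟨_, rfl⟩
  obtain ⟨Y4, hY4⟩ : ∃ Y4, Y4 = P / N := ⟨_, rfl⟩
  have y1 : 0 ≤ Y1 := by rw [hY1]; positivity
  have y2 : 0 ≤ Y2 := by rw [hY2]; positivity
  have y3 : 0 ≤ Y3 := by rw [hY3]; positivity
  have y4 : 0 ≤ Y4 := by rw [hY4]; positivity
  rw [← hY1] at i2 i7 ⊢
  rw [← hY2] at i4 i5 ⊢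
  rw [← hY3] at i3 ⊢
  rw [← hY4] at i1 i6 i8 ⊢
  obtain ⟨a1, ha1⟩ : ∃ x, x = 2 * C0 * (Mu * CI) * (1 / σ1) := ⟨_, rfl⟩
  obtain ⟨a2, ha2⟩ : ∃ x, x = 2 * C0 * (Mu * Zz) * (1 / σ1) := ⟨_, rfl⟩
  obtain ⟨a3, ha3⟩ : ∃ x, x = C0 * (2 * (Cw * CI) + CI * CI) * N * (1 / σ1) := ⟨_, rfl⟩
  obtain ⟨a4, ha4⟩ : ∃ x, x = 2 * C0 * (Cb * N * Zz) * (1 / σ1) := ⟨_, rfl⟩
  obtain ⟨a5, ha5⟩ : ∃ x, x = C0 * (Zz * Zz) * (1 / σ1) := ⟨_, rfl⟩
  obtain ⟨a6, ha6⟩ : ∃ x, x = 8 * P * N * (1 / σ1) := ⟨_, rfl⟩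
  obtain ⟨a7, ha7⟩ : ∃ x, x = 4 * C0 ^ 2 / c * Mu ^ 2 * Cw * (1 / σ1) := ⟨_, rfl⟩
  obtain ⟨a8, ha8⟩ : ∃ x, x = Kc * (1 / σ1) := ⟨_, rfl⟩
  have e0 : (2 * C0 * (Mu * CI) + 2 * C0 * (Mu * Zz) + C0 * (2 * (Cw * CI) + CI * CI) * N
      + 2 * C0 * (Cb * N * Zz) + C0 * (Zz * Zz) + 8 * P * N + 4 * C0 ^ 2 / c * Mu ^ 2 * Cw + Kc) * (1 / σ1)
      = a1 + a2 + a3 + a4 + a5 + a6 + a7 + a8 := by
    rw [ha1, ha2, ha3, ha4, ha5, ha6, ha7, ha8]; ring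
  rw [e0]
  rw [← ha1] at i1
  rw [← ha2] at i2
  rw [← ha3] at i3
  rw [← ha4] at i4
  rw [← ha5] at i5
  rw [← ha6] at i6
  rw [← ha7] at i7
  rw [← ha8] at i8
  clear ha1 ha2 ha3 ha4 ha5 ha6 ha7 ha8 hY1 hY2 hY3 hY4 e0 e2 hk1' hk2' hk3' hk5' hk6' hk7' hk8'
  have z1 : 0 ≤ (k1' + k2' + k3' + k5' + k6' + k8') * Y1 := by positivity
  have z2 : 0 ≤ (k1' + k2' + k3' + k6' + k7' + k8') * Y2 := by positivity
  have z3 : 0 ≤ (k1' + 2 * k2' + k5' + k6' + k7' + k8') * Y3 := by positivity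
  have z4 : 0 ≤ (2 * k2' + k3' + k5' + k7') * Y4 := by positivity
  have z5 : (k1' + 2 * k2' + k3' + k5' + k6' + k7' + k8') * (Y1 + Y2 + Y3 + Y4)
      = (k2' * Y1 + k7' * Y1 + k2' * Y2 + k5' * Y2 + k3' * Y3 + k1' * Y4 + k6' * Y4 + k8' * Y4)
        + ((k1' + k2' + k3' + k5' + k6' + k8') * Y1 + (k1' + k2' + k3' + k6' + k7' + k8') * Y2
        + (k1' + 2 * k2' + k5' + k6' + k7' + k8') * Y3 + (2 * k2' + k3' + k5' + k7') * Y4) := by ring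
  rw [z5]
  linarith

/-- The waves of a step. -/
theorem waves {c lm a0 : ℝ} (hc : 0 < c) (hlm : 0 < lm) (ha0 : 0 < a0) (hG : Geo q cc η) (γ : ℂ) {N : ℕ}
    (hN1 : 1 ≤ N) {Cw CI P : ℝ} (hCwd : Cw = 4 * (lm * ‖cK q‖) + 4 * (c * sq η * ‖γ‖ / (Real.pi * sq q * lm) * ‖cK cc‖))
    (hCId : CI = 4 * (‖γ‖ * ‖cK cc‖)) (hPd : P = c * sq η * (‖γ‖ * ‖cK cc‖)) :
    ∃ a : ℝ, 0 < a ∧ a ≤ a0 ∧
      (∀ t, NW (Wa a) (at' (wF c q cc η γ lm N) t) ≤ ENNReal.ofReal (Cw * N * Real.exp (-(c * N ^ 2 * max t 0)))) ∧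
      (∀ t, NW (Wa a) (at' (IF c q cc η γ N) t) ≤ ENNReal.ofReal (CI * Real.exp (-(c * N ^ 2 * max t 0)))) ∧
      (∀ t, NW (Wm a) (at' (pF c q cc η γ N ((N : ℤ) • η + ((N : ℤ) • η + q))) t) ≤
        ENNReal.ofReal (8 * P * N * Real.exp (-(c * N ^ 2 * max t 0)))) ∧
      (∀ t, NW (Wm a) (at' (pF c q cc η γ N q) t) ≤
        ENNReal.ofReal (8 * P * N ^ 2 * Real.exp (-(c * N ^ 2 * max t 0)))) ∧
      CF (wF c q cc η γ lm N) ∧ CF (IF c q cc η γ N) ∧ CF (pF c q cc η γ N q) ∧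
      WDom a0 (wF c q cc η γ lm N) ∧ WDom a0 (IF c q cc η γ N) ∧
      SymF (wF c q cc η γ lm N) ∧ SymF (IF c q cc η γ N) ∧ SymF (pF c q cc η γ N q) ∧
      (∀ t, wF c q cc η γ lm N 0 t = 0) ∧ (∀ t, IF c q cc η γ N 0 t = 0) ∧ (∀ t, pF c q cc η γ N q 0 t = 0) ∧
      ∀ k t, nk k < N → wF c q cc η γ lm N k t = 0 := by
  obtain ⟨nq, hnqd⟩ : ∃ nq, nq = ‖cK q‖ := ⟨_, rfl⟩
  obtain ⟨nc, hncd⟩ : ∃ nc, nc = ‖cK cc‖ := ⟨_, rfl⟩
  have hnq : 0 ≤ nq := by rw [hnqd]; exact norm_nonneg _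
  have hnc : 0 ≤ nc := by rw [hncd]; exact norm_nonneg _
  have hQ := sq_pos hG.hq
  have hsη := sq_pos hG.hη
  have hsη1 := one_le_sq hG.hη
  have hpi := Real.pi_pos
  obtain ⟨B0, hB0d⟩ : ∃ B0, B0 = c * sq η * ‖γ‖ / (Real.pi * sq q * lm) := ⟨_, rfl⟩
  have hB0 : 0 ≤ B0 := by rw [hB0d]; positivity
  rw [← hnqd, ← hncd, ← hB0d] at hCwd
  rw [← hncd] at hCId hPd
  have hCw : 0 ≤ Cw := by rw [hCwd]; positivity
  have hCI : 0 ≤ CI := by rw [hCId]; positivity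
  have hP0 : 0 ≤ P := by rw [hPd]; positivity
  have hNr : (1 : ℝ) ≤ N := by exact_mod_cast hN1
  have hNp : (0 : ℝ) < N := by linarith
  obtain ⟨k1, hk1⟩ : ∃ k1 : K, k1 = (N : ℤ) • η := ⟨_, rfl⟩
  rw [← hk1]
  obtain ⟨σ, hσd⟩ : ∃ σ, σ = c * (N : ℝ) ^ 2 := ⟨_, rfl⟩
  have hσ : 0 < σ := by rw [hσd]; positivity
  rw [← hσd]
  obtain ⟨T, hTd⟩ : ∃ T, T = l1 k1 + l1 (k1 + q) + l1 q + l1 (k1 + (k1 + q)) + 1 := ⟨_, rfl⟩
  have t1 := l1_nonneg k1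
  have t2 := l1_nonneg (k1 + q)
  have t3 := l1_nonneg q
  have t4 := l1_nonneg (k1 + (k1 + q))
  have hT : 0 < T := by rw [hTd]; positivity
  obtain ⟨a, had⟩ : ∃ a, a = min a0 (Real.log 2 / T) := ⟨_, rfl⟩
  have hlog : 0 < Real.log 2 := Real.log_pos (by norm_num)
  have ha : 0 < a := by rw [had]; exact lt_min ha0 (by positivity)
  have haa : a ≤ a0 := by rw [had]; exact min_le_left _ _
  have haT : a ≤ Real.log 2 / T := by rw [had]; exact min_le_right _ _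
  have om2 : ∀ κ : K, l1 κ ≤ T → Wa a κ ≤ ENNReal.ofReal 2 ∧ Wa a (-κ) ≤ ENNReal.ofReal 2 := by
    intro κ hκ
    refine ⟨ENNReal.ofReal_le_ofReal (Wa_le_two hT ha.le haT hκ), ENNReal.ofReal_le_ofReal ?_⟩
    exact Wa_le_two hT ha.le haT (by rw [l1_neg]; exact hκ)
  -- rates
  have s1 : sq k1 = N ^ 2 * sq η := by rw [hk1]; exact sq_k1 N
  have s2 : sq (k1 + q) = N ^ 2 * sq η + sq q := by rw [hk1]; exact sq_k2 hG N
  have s12 : sq (k1 + (k1 + q)) = 4 * (N ^ 2 * sq η) + sq q := by rw [hk1]; exact sq_k12 hG N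
  have hN2 : (0 : ℝ) < (N : ℝ) ^ 2 := by positivity
  have r1 : σ ≤ c * sq k1 := by
    rw [s1, hσd]; exact mul_le_mul_of_nonneg_left (le_mul_of_one_le_right hN2.le hsη1) hc.le
  have r2 : σ ≤ c * sq (k1 + q) := by
    rw [s2, hσd]
    exact mul_le_mul_of_nonneg_left ((le_mul_of_one_le_right hN2.le hsη1).trans
      (le_add_of_nonneg_right hQ.le)) hc.le
  have rμ : σ ≤ muF c q η N := by
    have h0 : 0 ≤ c * sq (k1 + q) := mul_nonneg hc.le (sq_nonneg' _)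
    unfold muF; rw [← hk1]; linarith
  have hbe : ‖be c q η γ lm N‖ = N * B0 := by rw [hB0d]; exact norm_be hc hlm hG γ hN1
  obtain ⟨e, hed⟩ : ∃ e : ℝ → ℝ, ∀ t, e t = Real.exp (-(σ * max t 0)) := ⟨_, fun _ => rfl⟩
  have lT1 : l1 k1 ≤ T := by rw [hTd]; linarith
  have lT2 : l1 (k1 + q) ≤ T := by rw [hTd]; linarith
  have lT3 : l1 q ≤ T := by rw [hTd]; linarith
  have lT4 : l1 (k1 + (k1 + q)) ≤ T := by rw [hTd]; linarith
  have nk1 : (N : ℝ) ≤ nk k1 := by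
    unfold nk
    apply Real.le_sqrt_of_sq_le
    rw [s1]
    exact le_mul_of_one_le_right hN2.le hsη1
  have nk2 : (N : ℝ) ≤ nk (k1 + q) := by
    unfold nk
    apply Real.le_sqrt_of_sq_le
    rw [s2]
    exact (le_mul_of_one_le_right hN2.le hsη1).trans (le_add_of_nonneg_right hQ.le)
  have k1ne : k1 ≠ 0 := ne_zero_of_sq (by rw [s1]; positivity)
  have k2ne : k1 + q ≠ 0 := ne_zero_of_sq (by rw [s2]; positivity)
  have Mo0 : ∀ {κ : K} (_ : κ ≠ 0) (μ : ℝ) (v : C3) (t : ℝ), Mo κ μ v 0 t = 0 := by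
    intro κ hκ μ v t; unfold Mo; rw [if_neg (Ne.symm hκ)]
  have hμ0 : 0 ≤ muF c q η N := hσ.le.trans rμ
  have wFe : wF c q cc η γ lm N = (Mo k1 (c * sq k1) (am lm N • cK q) + Mo (-k1) (c * sq k1) (am lm N • cK q))
      + (Mo (k1 + q) (c * sq (k1 + q)) (be c q η γ lm N • cK cc)
        + Mo (-(k1 + q)) (c * sq (k1 + q)) (star (be c q η γ lm N) • cK cc)) := by rw [hk1]; rfl
  have hm0 : (0 : ℝ) ≤ 2 * c * N ^ 2 * sq η := by positivity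
  have nvp : ‖(-((2 * c * N ^ 2 * sq η : ℝ) : ℂ) * γ) • cK cc‖ ≤ 2 * c * N ^ 2 * sq η * ‖γ‖ * nc := by
    rw [norm_smul, norm_mul, norm_neg, Complex.norm_real, Real.norm_of_nonneg hm0, hncd]
  have nvp' : ‖star (-((2 * c * N ^ 2 * sq η : ℝ) : ℂ) * γ) • cK cc‖ ≤ 2 * c * N ^ 2 * sq η * ‖γ‖ * nc := by
    rw [norm_smul, norm_star, norm_mul, norm_neg, Complex.norm_real, Real.norm_of_nonneg hm0, hncd]
  refine ⟨a, ha, haa, fun t => ?_, fun t => ?_, fun t => ?_, fun t => ?_, fun k =>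
    ((Mo_cf _ _ _ k).add (Mo_cf _ _ _ k)).add ((Mo_cf _ _ _ k).add (Mo_cf _ _ _ k)),
    fun k => (Mo_cf _ _ _ k).add (Mo_cf _ _ _ k), fun k => (Mo_cf _ _ _ k).add (Mo_cf _ _ _ k), ?_,
    WDom.add (Mo_dom _ hμ0 _ _) (Mo_dom _ hμ0 _ _), ?_, sym_pair q _ γ cc, sym_pair q _ _ cc, fun t => ?_,
    fun t => ?_, fun t => ?_, fun k t hk => ?_⟩
  · -- the wave
    rw [wFe]
    have e1 : at' ((Mo k1 (c * sq k1) (am lm N • cK q) + Mo (-k1) (c * sq k1) (am lm N • cK q))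
      + (Mo (k1 + q) (c * sq (k1 + q)) (be c q η γ lm N • cK cc)
        + Mo (-(k1 + q)) (c * sq (k1 + q)) (star (be c q η γ lm N) • cK cc))) t =
      at' (Mo k1 (c * sq k1) (am lm N • cK q) + Mo (-k1) (c * sq k1) (am lm N • cK q)) t
      + at' (Mo (k1 + q) (c * sq (k1 + q)) (be c q η γ lm N • cK cc)
        + Mo (-(k1 + q)) (c * sq (k1 + q)) (star (be c q η γ lm N) • cK cc)) t := rfl
    rw [e1]
    refine (NW_add_le _ _ _).trans ?_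
    have nv : ‖am lm N • cK q‖ ≤ N * (lm * nq) := by rw [norm_smul, norm_am hlm, mul_assoc, hnqd]
    have nb : ‖be c q η γ lm N • cK cc‖ ≤ N * B0 * nc := by rw [norm_smul, hbe, hncd]
    have nb' : ‖star (be c q η γ lm N) • cK cc‖ ≤ N * B0 * nc := by rw [norm_smul, norm_star, hbe, hncd]
    have h1 := NW_pair_le (Wa a) (κ := k1) r1 _ _ t nv nv (by norm_num) (om2 k1 lT1).1 (om2 k1 lT1).2
    have h2 := NW_pair_le (Wa a) (κ := k1 + q) r2 _ _ t nb nb' (by norm_num) (om2 (k1 + q) lT2).1 (om2 (k1 + q) lT2).2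
    refine (add_le_add h1 h2).trans ?_
    rw [← ENNReal.ofReal_add (by positivity) (by positivity)]
    apply ENNReal.ofReal_le_ofReal
    rw [hCwd]
    apply le_of_eq; ring
  · have nv : ‖γ • cK cc‖ ≤ ‖γ‖ * nc := by rw [norm_smul, hncd]
    have nv' : ‖star γ • cK cc‖ ≤ ‖γ‖ * nc := by rw [norm_smul, norm_star, hncd]
    have h1 := NW_pair_le (Wa a) (κ := q) rμ _ _ t nv nv' (by norm_num) (om2 q lT3).1 (om2 q lT3).2
    refine h1.trans (ENNReal.ofReal_le_ofReal ?_)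
    rw [hCId]
    apply le_of_eq; ring
  · have hnk : (N : ℝ) ≤ nk (k1 + (k1 + q)) := by
      unfold nk
      apply Real.le_sqrt_of_sq_le
      rw [s12]
      have h1 := le_mul_of_one_le_right hN2.le hsη1
      have h2 : (0 : ℝ) ≤ N ^ 2 * sq η := hN2.le.trans h1
      calc (N : ℝ) ^ 2 ≤ N ^ 2 * sq η := h1
        _ ≤ 4 * (N ^ 2 * sq η) := le_mul_of_one_le_left h2 (by norm_num)
        _ ≤ _ := le_add_of_nonneg_right hQ.le
    have hW : ∀ κ : K, l1 κ ≤ T → (N : ℝ) ≤ nk κ → Wm a κ ≤ ENNReal.ofReal (2 / N) := by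
      intro κ h1 h2
      apply ENNReal.ofReal_le_ofReal
      exact div_le_div₀ (by norm_num) (Wa_le_two hT ha.le haT h1) hNp h2
    have h1 := NW_pair_le (Wm a) (κ := k1 + (k1 + q)) rμ _ _ t nvp nvp' (wm := 2 / N) (by positivity)
      (hW _ lT4 hnk) (hW _ (by rw [l1_neg]; exact lT4) (by rw [nk_neg]; exact hnk))
    refine h1.trans (ENNReal.ofReal_le_ofReal ?_)
    rw [hPd]
    apply le_of_eq; field_simp; ring
  · have hW : ∀ κ : K, l1 κ ≤ T → 1 ≤ nk κ → Wm a κ ≤ ENNReal.ofReal 2 := by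
      intro κ h1 h2
      apply ENNReal.ofReal_le_ofReal
      calc om a κ / nk κ ≤ 2 / 1 := div_le_div₀ (by norm_num) (Wa_le_two hT ha.le haT h1) one_pos h2
        _ = 2 := div_one _
    have h1 := NW_pair_le (Wm a) (κ := q) rμ _ _ t nvp nvp' (wm := 2) (by positivity)
      (hW _ lT3 (one_le_nk hG.hq)) (hW _ (by rw [l1_neg]; exact lT3) (by rw [nk_neg]; exact one_le_nk hG.hq))
    refine h1.trans (ENNReal.ofReal_le_ofReal ?_)
    rw [hPd]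
    apply le_of_eq; ring
  · rw [wFe]
    exact WDom.add (WDom.add (Mo_dom _ (hσ.le.trans r1) _ _) (Mo_dom _ (hσ.le.trans r1) _ _))
      (WDom.add (Mo_dom _ (hσ.le.trans r2) _ _) (Mo_dom _ (hσ.le.trans r2) _ _))
  · rw [wFe]
    have h1 := sym_pair k1 (c * sq k1) (am lm N) q
    have h2 := sym_pair (k1 + q) (c * sq (k1 + q)) (be c q η γ lm N) cc
    have e3 : star (am lm N) = am lm N := star_am lm N
    rw [e3] at h1
    exact fun t => (h1 t).add (h2 t)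
  · rw [wFe]
    show (Mo k1 _ _ 0 t + Mo (-k1) _ _ 0 t) + (Mo (k1 + q) _ _ 0 t + Mo (-(k1 + q)) _ _ 0 t) = 0
    rw [Mo0 k1ne, Mo0 (neg_ne_zero.2 k1ne), Mo0 k2ne, Mo0 (neg_ne_zero.2 k2ne)]; simp
  · show Mo q _ _ 0 t + Mo (-q) _ _ 0 t = 0
    rw [Mo0 hG.hq, Mo0 (neg_ne_zero.2 hG.hq), add_zero]
  · show Mo q _ _ 0 t + Mo (-q) _ _ 0 t = 0
    rw [Mo0 hG.hq, Mo0 (neg_ne_zero.2 hG.hq), add_zero]
  · rw [wFe]
    have q1 : k ≠ k1 := by rintro rfl; linarith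
    have q2 : k ≠ -k1 := by rintro rfl; rw [nk_neg] at hk; linarith
    have q3 : k ≠ k1 + q := by rintro rfl; linarith
    have q4 : k ≠ -(k1 + q) := by rintro rfl; rw [nk_neg] at hk; linarith
    show (Mo k1 _ _ k t + Mo (-k1) _ _ k t) + (Mo (k1 + q) _ _ k t + Mo (-(k1 + q)) _ _ k t) = 0
    unfold Mo
    rw [if_neg q1, if_neg q2, if_neg q3, if_neg q4]
    simp

end Pool.Agent.H356R3.NS.X
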