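import Pool.Agent.H3NY.S.Near2
import Pool.Agent.H3NY.X.Fix2X
import Pool.Agent.H3NY.X.HiF3
import Pool.Agent.H3NY.X.NlX

namespace Pool.Agent.H356R3.NS
end Pool.Agent.H356R3.NS
namespace Pool.Agent.H356R3.NS.H3
end Pool.Agent.H356R3.NS.H3
namespace Pool.Agent.H356R3.NS.X
end Pool.Agent.H356R3.NS.X
namespace Pool.Agent.H3NS
end Pool.Agent.H3NS
namespace H459R3.NS
end H459R3.NS

set_option autoImplicit false
set_option maxHeartbeats 8000000
set_option synthInstance.maxHeartbeats 400000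

/-!
The basic step with the linear response at high frequencies as a part of the approximate solution: the rest is
quadratic in the old solution.
-/

open MeasureTheory Set Filter Topology
open scoped ENNReal NNReal

namespace Pool.Agent.H356R3.NS.X

open Pool.Agent.H356R3.NS.H3

variable {q cc η : K}

/-- the cut-off in front of the low mode -/
lemma cut_le {χ : ℝ → ℝ} {h : ℝ} (hχ : CutH χ h) {σ : ℝ} (hσ : 0 ≤ σ) (t : ℝ) :
    (1 - χ t) * Real.exp (-(σ * max t 0)) ≤ Real.exp (-(σ * h / 2)) * Real.exp (-(σ / 16 * max t 0)) := by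
  have hh := hχ.hpos
  by_cases ht : t ≤ h
  · rw [hχ.one t ht, sub_self, zero_mul]
    positivity
  · push Not at ht
    have h1 := hχ.nn t
    have h2 := hχ.le t
    refine (mul_le_of_le_one_left (Real.exp_pos _).le (by linarith)).trans ?_
    rw [← Real.exp_add]
    apply Real.exp_le_exp.2
    rw [max_eq_left (by linarith)]
    have h3 : σ * h ≤ σ * t := mul_le_mul_of_nonneg_left ht.le hσ
    have h4 : 0 ≤ σ * h := by positivity
    nlinarith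

lemma Wam0 {a : ℝ} (ha : 0 ≤ a) (k : K) : Wm 0 k ≤ Wm a k := by
  unfold Wm
  exact ENNReal.ofReal_le_ofReal (div_le_div_of_nonneg_right (om_mono ha k) (nk_nonneg k))

/-- The error of the approximate solution. -/
theorem FE_int {χ : ℝ → ℝ} {h : ℝ} (hχ : CutH χ h) {c : ℝ} (hc : 0 < c) {γ : ℂ} {lm a Mu Cw CI Cb P X Y : ℝ} {N : ℕ}
    (hG : Geo q cc η) (hlm : 0 < lm) (ha : 0 < a) (hMu : 0 ≤ Mu) (hCw : 0 ≤ Cw) (hCI : 0 ≤ CI) (hCbe : Cb = Cw + CI)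
    (hP : 0 ≤ P) (hN1 : 1 ≤ N) (hX0 : 0 ≤ X) (hX1 : X ≤ 1) (hMuX : Mu = X * N) (hCIP : CI ≤ 4 * P / c)
    (hY : Y = Cb * X ^ 2 + Cb ^ 2 * X + (Cb ^ 2 + P) / N) {u z G : Fam} (nu : ∀ t, SN (at' u t))
    (nw : ∀ t, SN (at' (wF c q cc η γ lm N) t)) (nI : ∀ t, SN (at' (IF c q cc η γ N) t)) (nz : ∀ t, SN (at' z t))
    (hGe : ∀ t, at' G t = χ t • (Bf (at' u t) (at' (wF c q cc η γ lm N) t)
      + Bf (at' (wF c q cc η γ lm N) t) (at' u t)))
    (hx : ∀ t, NW (Wa a) (at' u t) ≤ ENNReal.ofReal Mu)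
    (hw : ∀ t, NW (Wa a) (at' (wF c q cc η γ lm N) t) ≤ ENNReal.ofReal (Cw * N * Real.exp (-(c * N ^ 2 * max t 0))))
    (hI : ∀ t, NW (Wa a) (at' (IF c q cc η γ N) t) ≤ ENNReal.ofReal (CI * Real.exp (-(c * N ^ 2 * max t 0))))
    (hz : ∀ t, NW (Wa a) (at' z t) ≤
      ENNReal.ofReal (24 * C0 / c * (Mu * Cw) * Real.exp (-(c / 16 * N ^ 2 * max t 0))))
    (hph : ∀ t, NW (Wm a) (at' (pF c q cc η γ N ((N : ℤ) • η + ((N : ℤ) • η + q))) t) ≤
        ENNReal.ofReal (8 * P * N * Real.exp (-(c * N ^ 2 * max t 0))))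
    (hpq : ∀ t, NW (Wm a) (at' (pF c q cc η γ N q) t) ≤
        ENNReal.ofReal (8 * P * N ^ 2 * Real.exp (-(c * N ^ 2 * max t 0))))
    (hl : ∀ t, NW (Wm a) (at' (lpF (N / 2) G) t) ≤
        ENNReal.ofReal (4 * C0 ^ 2 / c * Mu ^ 2 * Cw * Real.exp (-(c / 16 * N ^ 2 * max t 0)))) :
    ∫⁻ s in Ioi 0, NW (Wm a) (at' (Bx χ (u + (wF c q cc η γ lm N + IF c q cc η γ N) + z) - Bx χ u
      - pF c q cc η γ N q - hpF (N / 2) G) s) ≤
      ENNReal.ofReal ((128 * C0 / c ^ 2 + 2 * (32 * C0 * (24 * C0 / c) / c) + 16 * C0 / c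
        + 16 * C0 * (24 * C0 / c) ^ 2 / c + 128 / c + 64 * C0 ^ 2 / c ^ 2 + 256 / (c ^ 2 * h)) * Y) := by
  have hC := C0_pos
  have hh := hχ.hpos
  have hNr : (1 : ℝ) ≤ N := by exact_mod_cast hN1
  have hNp : (0 : ℝ) < N := by linarith
  obtain ⟨σ1, hσ1⟩ : ∃ σ1, σ1 = c / 16 * (N : ℝ) ^ 2 := ⟨_, rfl⟩
  have hσ1p : 0 < σ1 := by rw [hσ1]; positivity
  rw [← hσ1] at hz hl
  obtain ⟨Zz, hZz⟩ : ∃ Zz, Zz = 24 * C0 / c * (Mu * Cw) := ⟨_, rfl⟩
  have hZz0 : 0 ≤ Zz := by rw [hZz]; positivity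
  rw [← hZz] at hz
  obtain ⟨Kc, hKc⟩ : ∃ Kc, Kc = 8 * P * (N : ℝ) ^ 2 * Real.exp (-(c * N ^ 2 * h / 2)) := ⟨_, rfl⟩
  have hKc0 : 0 ≤ Kc := by rw [hKc]; positivity
  have hE1 : ∀ t, Real.exp (-(σ1 * max t 0)) ≤ 1 := by
    intro t
    rw [Real.exp_le_one_iff]
    have : 0 ≤ σ1 * max t 0 := mul_nonneg hσ1p.le (le_max_right _ _)
    linarith
  have hee : ∀ t, Real.exp (-(c * (N : ℝ) ^ 2 * max t 0)) ≤ Real.exp (-(σ1 * max t 0)) := by
    intro t
    apply Real.exp_le_exp.2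
    have h1 : 0 ≤ σ1 * max t 0 := mul_nonneg hσ1p.le (le_max_right _ _)
    have h2 : c * (N : ℝ) ^ 2 * max t 0 = 16 * (σ1 * max t 0) := by rw [hσ1]; ring
    rw [h2]
    linarith
  have hCb0 : 0 ≤ Cb := by rw [hCbe]; positivity
  obtain ⟨TT, hTT⟩ : ∃ TT, TT = 2 * C0 * (Mu * CI) + 2 * C0 * (Mu * Zz) + C0 * (2 * (Cw * CI) + CI * CI) * N
      + 2 * C0 * (Cb * N * Zz) + C0 * (Zz * Zz) + 8 * P * N + 4 * C0 ^ 2 / c * Mu ^ 2 * Cw + Kc := ⟨_, rfl⟩
  have hTT0 : 0 ≤ TT := by rw [hTT]; positivity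
  have hpt : ∀ t, NW (Wm a) (at' (Bx χ (u + (wF c q cc η γ lm N + IF c q cc η γ N) + z) - Bx χ u
      - pF c q cc η γ N q - hpF (N / 2) G) t) ≤ ENNReal.ofReal TT * ENNReal.ofReal (Real.exp (-(σ1 * max t 0))) := by
    intro t
    rw [← ENNReal.ofReal_mul hTT0]
    have e1 : at' (Bx χ (u + (wF c q cc η γ lm N + IF c q cc η γ N) + z) - Bx χ u
        - pF c q cc η γ N q - hpF (N / 2) G) t
        = χ t • Bf (at' u t + (at' (wF c q cc η γ lm N) t + at' (IF c q cc η γ N) t) + at' z t)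
          (at' u t + (at' (wF c q cc η γ lm N) t + at' (IF c q cc η γ N) t) + at' z t)
          - χ t • Bf (at' u t) (at' u t) - at' (pF c q cc η γ N q) t - (at' G t - at' (lpF (N / 2) G) t) := by
      have e3 : at' (hpF (N / 2) G) t = at' G t - at' (lpF (N / 2) G) t := by
        have : at' G t = at' (hpF (N / 2) G) t + at' (lpF (N / 2) G) t := by
          conv_lhs => rw [hp_lp (N / 2) G]
          rfl
        rw [this]
        abel
      rw [← e3]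
      rfl
    rw [e1, FE_alg (nu t) (nw t) (nI t) (nz t) (BwF (c := c) hlm hG γ hN1 t) (hGe t), hTT]
    have hexp := (Real.exp_pos (-(σ1 * max t 0))).le
    refine FE_bd ha.le hMu hCw hCI hCb0 hZz0 (by positivity) (by positivity) hKc0 hexp
      (hE1 t) hNr (hχ.nn t) (hχ.le t) (hx t) ?_ ?_ ?_ (hz t) ?_ (hl t) ?_
    · exact (hw t).trans (ENNReal.ofReal_le_ofReal (mul_le_mul_of_nonneg_left (hee t) (by positivity)))
    · exact (hI t).trans (ENNReal.ofReal_le_ofReal (mul_le_mul_of_nonneg_left (hee t) hCI))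
    · refine (NW_add_le _ _ _).trans ((add_le_add (hw t) (hI t)).trans ?_)
      rw [← ENNReal.ofReal_add (by positivity) (by positivity)]
      apply ENNReal.ofReal_le_ofReal
      have h1 := hee t
      have h3 : CI * Real.exp (-(c * (N : ℝ) ^ 2 * max t 0)) ≤ CI * N * Real.exp (-(σ1 * max t 0)) := by
        calc CI * Real.exp (-(c * (N : ℝ) ^ 2 * max t 0)) ≤ CI * Real.exp (-(σ1 * max t 0)) :=
              mul_le_mul_of_nonneg_left h1 hCI
          _ ≤ CI * Real.exp (-(σ1 * max t 0)) * N := le_mul_of_one_le_right (by positivity) hNr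
          _ = _ := by ring
      have h4 : Cw * N * Real.exp (-(c * (N : ℝ) ^ 2 * max t 0)) ≤ Cw * N * Real.exp (-(σ1 * max t 0)) :=
        mul_le_mul_of_nonneg_left h1 (by positivity)
      rw [hCbe]
      linarith
    · exact (hph t).trans (ENNReal.ofReal_le_ofReal (mul_le_mul_of_nonneg_left (hee t) (by positivity)))
    · have h1 : 0 ≤ 1 - χ t := by linarith [hχ.le t]
      have e3 : NW (Wm a) ((1 - χ t) • at' (pF c q cc η γ N q) t)
          = ENNReal.ofReal (1 - χ t) * NW (Wm a) (at' (pF c q cc η γ N q) t) := by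
        unfold NW
        rw [← ENNReal.tsum_mul_left]
        refine tsum_congr fun k => ?_
        rw [Pi.smul_apply, enorm_smul, Real.enorm_of_nonneg h1]
        ring
      rw [e3]
      refine (mul_le_mul' le_rfl (hpq t)).trans ?_
      rw [← ENNReal.ofReal_mul h1]
      apply ENNReal.ofReal_le_ofReal
      have h2 := mul_le_mul_of_nonneg_left (cut_le hχ (show 0 ≤ c * (N : ℝ) ^ 2 by positivity) t)
        (show 0 ≤ 8 * P * (N : ℝ) ^ 2 by positivity)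
      have h5 : c * (N : ℝ) ^ 2 / 16 = σ1 := by rw [hσ1]; ring
      rw [h5] at h2
      calc _ = 8 * P * (N : ℝ) ^ 2 * ((1 - χ t) * Real.exp (-(c * (N : ℝ) ^ 2 * max t 0))) := by ring
        _ ≤ _ := h2
        _ = _ := by rw [hKc]; ring
  calc _ ≤ ∫⁻ s in Ioi 0, ENNReal.ofReal TT * ENNReal.ofReal (Real.exp (-(σ1 * max s 0))) :=
        lintegral_mono fun s => hpt s
    _ = ENNReal.ofReal TT * ENNReal.ofReal (1 / σ1) := by
        rw [lintegral_const_mul' _ _ ENNReal.ofReal_ne_top, lint_e hσ1p]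
    _ ≤ _ := by
        rw [← ENNReal.ofReal_mul hTT0, hTT]
        exact ENNReal.ofReal_le_ofReal (TT_num hc hh hC (by positivity) hCw hCI hCbe hX0 hX1 hP hCIP hNr hMuX hZz hσ1 hKc hY)

theorem step_coreR {χ : ℝ → ℝ} {h : ℝ} (hχ : CutH χ h) {c D : ℝ} (hc : 0 < c) (hD1 : 1 ≤ D) :
    ∃ K1 : ℝ, 1 ≤ K1 ∧ ∀ {q cc η : K} {γ : ℂ} {V : K → C3} {u : Fam} {a0 lm Mu L Cb Y : ℝ} {N : ℕ},
      0 < a0 → 0 < lm → Geo q cc η → SolX χ c a0 V u → 0 ≤ Mu → 0 ≤ L →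
      (∀ t, NW (Wa a0) (at' u t) ≤ ENNReal.ofReal Mu) →
      LN (fun t => NW (Wa a0) (at' u t)) ≤ ENNReal.ofReal L →
      Cb = Cv c q cc η γ lm → L + (1 + 24 * C0 / c) * Cb * √(8 / c) + 1 ≤ D → 1 ≤ N → Mu ≤ N →
      (∀ k, (N : ℝ) / 2 ≤ nk k → V k = 0) →
      Y = Cb * (Mu / N) ^ 2 + Cb ^ 2 * (Mu / N) + (Cb ^ 2 + c * sq η * (‖γ‖ * ‖cK cc‖)) / N → K1 * Y ≤ 1 →
      ∃ a : ℝ, 0 < a ∧ ∃ z r : Fam,
      SolX χ c a (V + (E0 q cc γ + W0 c q cc η γ lm N))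
        (u + (wF c q cc η γ lm N + IF c q cc η γ N) + (z + r)) ∧ CF z ∧ CF r ∧
      (∀ t, NW (Wa 0) (at' (wF c q cc η γ lm N + IF c q cc η γ N) t) ≤
        ENNReal.ofReal (Cb * N * Real.exp (-(c * N ^ 2 * max t 0)))) ∧
      (∀ t, NW (Wa 0) (at' z t) ≤
        ENNReal.ofReal (24 * C0 / c * (Mu * Cb) * Real.exp (-(c / 16 * N ^ 2 * max t 0)))) ∧
      (∀ t, NW (Wm 0) (at' z t) ≤ ENNReal.ofReal (K1 * (Mu * Cb / N))) ∧
      LN (fun t => NW (Wa 0) (at' z t)) ≤ ENNReal.ofReal (K1 * (Mu * Cb / N)) ∧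
      (∀ t, NW (Wm 0) (at' r t) ≤ ENNReal.ofReal (K1 * Y)) ∧
      LN (fun t => NW (Wa 0) (at' r t)) ≤ ENNReal.ofReal (K1 * Y) ∧
      ∀ k, ∫⁻ t in Ioi 0, ‖(Bx χ (u + (wF c q cc η γ lm N + IF c q cc η γ N) + (z + r)) - Bx χ u) k t‖ₑ ≤
        ‖E0 q cc γ k‖ₑ + ENNReal.ofReal (nk k * (K1 * (Mu * Cb / N) + K1 * Y)) := by
  have hD : 0 < D := by linarith
  obtain ⟨Lam, ρ0, hp0⟩ := exists_par hc hD
  have hρ0 := hp0.hρ
  have hC := C0_pos
  have hh := hχ.hpos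
  have hsc : 0 < √c := Real.sqrt_pos.2 hc
  obtain ⟨Kz, hKz⟩ : ∃ Kz, Kz = 24 * C0 / c := ⟨_, rfl⟩
  have hKzp : 0 < Kz := by rw [hKz]; positivity
  obtain ⟨Kη, hKη⟩ : ∃ x, x = 128 * C0 / c ^ 2 + 2 * (32 * C0 * (24 * C0 / c) / c) + 16 * C0 / c
        + 16 * C0 * (24 * C0 / c) ^ 2 / c + 128 / c + 64 * C0 ^ 2 / c ^ 2 + 256 / (c ^ 2 * h) := ⟨_, rfl⟩
  have hKηp : 0 < Kη := by rw [hKη]; positivity
  obtain ⟨Eρ, hEρ⟩ : ∃ x, x = Real.exp (Lam * D ^ 2) := ⟨_, rfl⟩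
  have hEρp : 0 < Eρ := by rw [hEρ]; exact Real.exp_pos _
  obtain ⟨κρ, hκρ⟩ : ∃ x, x = 2 * Kη / √c := ⟨_, rfl⟩
  have hκρp : 0 < κρ := by rw [hκρ]; positivity
  obtain ⟨K1, hK1⟩ : ∃ x, x = 1 + κρ / ρ0 + 2 * (Kη + Eρ * (3 * C0 * D) * κρ) + Eρ * κρ + 3 * C0 * D * (Eρ * κρ)
    + Kη + 2 * C0 / c + Kz * √(8 / c) := ⟨_, rfl⟩
  have g1 : 0 < κρ / ρ0 := by positivity
  have g2 : 0 < 2 * (Kη + Eρ * (3 * C0 * D) * κρ) := by positivity
  have g3 : 0 < Eρ * κρ := by positivity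
  have g4 : 0 < 3 * C0 * D * (Eρ * κρ) := by positivity
  have g5 : 0 < 2 * C0 / c := by positivity
  have g6 : 0 < Kz * √(8 / c) := by positivity
  have l1' : 1 ≤ K1 := by rw [hK1]; linarith
  have l2' : κρ / ρ0 ≤ K1 := by rw [hK1]; linarith
  have l3' : 2 * (Kη + Eρ * (3 * C0 * D) * κρ) ≤ K1 := by rw [hK1]; linarith
  have l4' : Eρ * κρ ≤ K1 := by rw [hK1]; linarith
  have l5' : 3 * C0 * D * (Eρ * κρ) + Kη ≤ K1 := by rw [hK1]; linarith
  have l6' : 2 * C0 / c ≤ K1 := by rw [hK1]; linarith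
  have l7' : Kz * √(8 / c) ≤ K1 := by rw [hK1]; linarith
  clear hK1 g1 g2 g3 g4 g5 g6
  refine ⟨K1, l1', ?_⟩
  intro q cc η γ V u a0 lm Mu L Cb Y N ha0 hlm hG hS hMu hL0 hAuM' hLN' hCbd hDD hN1 hMuN hVs hYd hKY
  obtain ⟨bu, hbu, hbu'⟩ := hS.dom
  have hbu0 : ∀ k, 0 ≤ bu k := fun k => (norm_nonneg _).trans (hbu' k 0)
  have huW : WDom a0 u := ⟨bu, hbu, hbu'⟩
  have hud : Dom u := huW.dom ha0.le
  -- the norm of `u`
  obtain ⟨Au, hAud⟩ : ∃ Au : ℝ → ℝ, Au = fun t => ∑' k, om a0 k * ‖u k t‖ := ⟨_, rfl⟩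
  have hsm : ∀ t, Summable fun k => om a0 k * ‖u k t‖ := fun t =>
    hbu.of_nonneg_of_le (fun k => mul_nonneg (om_pos _ _).le (norm_nonneg _))
      fun k => mul_le_mul_of_nonneg_left (hbu' k t) (om_pos _ _).le
  have hAuc : Continuous Au := by
    rw [hAud]
    refine continuous_tsum (fun k => ?_) hbu fun k t => ?_
    · have := hS.cf k; fun_prop
    · rw [Real.norm_of_nonneg (mul_nonneg (om_pos _ _).le (norm_nonneg _))]
      exact mul_le_mul_of_nonneg_left (hbu' k t) (om_pos _ _).le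
  have hAu0 : ∀ t, 0 ≤ Au t := fun t => by
    rw [hAud]
    exact tsum_nonneg fun k => mul_nonneg (om_pos _ _).le (norm_nonneg _)
  have hNA : ∀ t, NW (Wa a0) (at' u t) = ENNReal.ofReal (Au t) := by
    intro t
    rw [hAud]
    simp only
    rw [ENNReal.ofReal_tsum_of_nonneg (fun k => mul_nonneg (om_pos _ _).le (norm_nonneg _)) (hsm t)]
    unfold NW Wa at'
    refine tsum_congr fun k => ?_
    rw [ENNReal.ofReal_mul (om_pos _ _).le, ofReal_norm]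
  have hLN : LN (fun t => ENNReal.ofReal (Au t)) ≤ ENNReal.ofReal L := by
    simp only [← hNA]
    exact hLN'
  clear hsm hAud hbu hbu' hbu0
  -- constants
  obtain ⟨Cw, hCwd⟩ : ∃ Cw, Cw = 4 * (lm * ‖cK q‖) + 4 * (c * sq η * ‖γ‖ / (Real.pi * sq q * lm) * ‖cK cc‖) := ⟨_, rfl⟩
  obtain ⟨CI, hCId⟩ : ∃ CI, CI = 4 * (‖γ‖ * ‖cK cc‖) := ⟨_, rfl⟩
  obtain ⟨P, hPd⟩ : ∃ P, P = c * sq η * (‖γ‖ * ‖cK cc‖) := ⟨_, rfl⟩
  have hCbe : Cb = Cw + CI := by rw [hCbd, hCwd, hCId]; rfl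
  have hsη := sq_pos hG.hη
  have hsη1 := one_le_sq hG.hη
  have hpi := Real.pi_pos
  have hQ := sq_pos hG.hq
  have hCw : 0 ≤ Cw := by rw [hCwd]; positivity
  have hCI : 0 ≤ CI := by rw [hCId]; positivity
  have hP0 : 0 ≤ P := by rw [hPd]; positivity
  have hCIP : CI ≤ 4 * P / c := by
    rw [le_div_iff₀ hc, hPd, hCId]
    have h1 : 0 ≤ c * (‖γ‖ * ‖cK cc‖) := by positivity
    have h2 : c * (‖γ‖ * ‖cK cc‖) * 1 ≤ c * (‖γ‖ * ‖cK cc‖) * sq η := mul_le_mul_of_nonneg_left hsη1 h1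
    linarith
  have hCb0 : 0 < Cb := by rw [hCbd]; exact Cv_pos hc hG γ hlm
  have hCwb : Cw ≤ Cb := by rw [hCbe]; linarith
  have hNr : (1 : ℝ) ≤ N := by exact_mod_cast hN1
  have hNp : (0 : ℝ) < N := by linarith
  obtain ⟨X, hXd⟩ : ∃ X, X = Mu / N := ⟨_, rfl⟩
  have hX0 : 0 ≤ X := by rw [hXd]; positivity
  have hX1 : X ≤ 1 := by rw [hXd, div_le_one hNp]; exact hMuN
  have hMuX : Mu = X * N := by rw [hXd]; field_simp
  rw [← hXd, ← hPd] at hYd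
  have hYpos : 0 < Y := by
    rw [hYd]
    have h1 : 0 < (Cb ^ 2 + P) / N := by positivity
    have h2 : 0 ≤ Cb * X ^ 2 + Cb ^ 2 * X := by positivity
    linarith
  obtain ⟨a, ha, haa, hw, hI, hph, hpq, hwc, hIc, hpc, hwD, hID, hws, hIs, hps, hw0, hI0, hp0', hwsupp⟩ :=
    waves hc hlm ha0 hG γ hN1 hCwd hCId hPd
  have hwd : Dom (wF c q cc η γ lm N) := hwD.dom ha0.le
  have hxa : ∀ t, NW (Wa a) (at' u t) ≤ ENNReal.ofReal Mu := fun t =>
    (NW_mono (fun k => Wa_mono haa k) _).trans (hAuM' t)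
  obtain ⟨G, z, hGc, hGs, hG0, hGe, hHb, hl, hzd, hzc, hzs, hz0, hzA, hzM, hzW⟩ :=
    resp hχ.toCutT hc ha hMu hCw hNp hS.cf hwc hud hwd hS.sym hws hS.eq hVs hwsupp hxa hw
  have hFEi' := FE_int hχ hc hG hlm ha hMu hCw hCI hCbe hP0 hN1 hX0 hX1 hMuX hCIP hYd (fun t => hud.sn t)
    (fun t => hwd.sn t) (fun t => (hID.dom ha0.le).sn t) (fun t => (hzW.dom (half_pos ha).le).sn t) hGe hxa hw hI
    hzA hph hpq hl
  rw [← hKη] at hFEi'
  clear hph hpq hl hGe hwsupp hVs hYd hCwd hCId hPd hCIP hsη hsη1 hpi hQ hP0 hKη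
  rw [← hKz] at hzA hDD ⊢
  clear hKz
  have hHc : CF (hpF (N / 2) G) := hpF_cf _ hGc
  have hHs := hpF_sym (N / 2 : ℝ) hGs
  have hH0 : ∀ t, hpF (N / 2) G 0 t = 0 := hpF_zero hG0
  clear hGc hGs hG0
  obtain ⟨w, hwe⟩ : ∃ w, w = wF c q cc η γ lm N := ⟨_, rfl⟩
  obtain ⟨I, hIe⟩ : ∃ I, I = IF c q cc η γ N := ⟨_, rfl⟩
  obtain ⟨pq, hpqe⟩ : ∃ pq, pq = pF c q cc η γ N q := ⟨_, rfl⟩
  obtain ⟨HG, hHGe⟩ : ∃ HG, HG = hpF (N / 2) G := ⟨_, rfl⟩
  have e4 : ∀ k t, w k t = Real.exp (-(c * sq k * max t 0)) • W0 c q cc η γ lm N k := fun k t => by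
    rw [hwe]; exact w_init (q := q) (cc := cc) (η := η) c γ lm N k t
  have e6 : ∀ k t, I k t = Real.exp (-(c * sq k * max t 0)) • E0 q cc γ k + Duh c pq k t := fun k t => by
    rw [hIe, hpqe, ← I_init hc hG γ hN1 k t]; abel
  have hpint : ∀ k, ∫⁻ t in Ioi 0, ‖pq k t‖ₑ ≤ ‖E0 q cc γ k‖ₑ := fun k => by
    rw [hpqe]; exact pF_int hc hG γ hN1 k
  obtain ⟨E00, hE00⟩ : ∃ x, x = E0 q cc γ := ⟨_, rfl⟩
  obtain ⟨W00, hW00⟩ : ∃ x, x = W0 c q cc η γ lm N := ⟨_, rfl⟩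
  rw [← hwe, ← hIe, ← hE00, ← hW00]
  rw [← hwe] at hw hwc hwD hws hw0 hFEi' hwd
  rw [← hIe] at hI hIc hID hIs hI0 hFEi'
  rw [← hpqe] at hpc hps hp0' hFEi'
  rw [← hHGe] at hHb hzd hHc hHs hH0 hFEi'
  rw [← hE00] at e6 hpint
  rw [← hW00] at e4
  clear hwe hIe hpqe hHGe hE00 hW00 hG hN1 hlm hCbd
  -- rates of decay
  obtain ⟨σ1, hσ1⟩ : ∃ σ1, σ1 = c / 16 * (N : ℝ) ^ 2 := ⟨_, rfl⟩
  have hσ1p : 0 < σ1 := by rw [hσ1]; positivity
  obtain ⟨e1, he1d⟩ : ∃ e1 : ℝ → ℝ, e1 = fun t => Real.exp (-(σ1 * max t 0)) := ⟨_, rfl⟩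
  have e1p : ∀ t, 0 < e1 t := fun t => by rw [he1d]; exact Real.exp_pos _
  have hzA' : ∀ t, NW (Wa a) (at' z t) ≤ ENNReal.ofReal (Kz * (Mu * Cw) * e1 t) := fun t => by
    rw [he1d, hσ1]; exact hzA t
  have hee1 : ∀ t, Real.exp (-(c * (N : ℝ) ^ 2 * max t 0)) ≤ e1 t := by
    intro t
    rw [he1d]
    apply Real.exp_le_exp.2
    have h1 : 0 ≤ σ1 * max t 0 := mul_nonneg hσ1p.le (le_max_right _ _)
    have h2 : c * (N : ℝ) ^ 2 * max t 0 = 16 * (σ1 * max t 0) := by rw [hσ1]; ring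
    rw [h2]
    linarith
  have hec : Continuous e1 := by rw [he1d]; fun_prop
  have hLe1 : (N : ℝ) * √(1 / (2 * σ1)) = √(8 / c) := by
    have h3 : (1 : ℝ) / (2 * σ1) = 8 / c / N ^ 2 := by rw [hσ1]; field_simp; norm_num
    rw [h3, Real.sqrt_div (by positivity), Real.sqrt_sq hNp.le]
    field_simp
  have hLNe1 : LN (fun t => ENNReal.ofReal (e1 t)) = ENNReal.ofReal (√(1 / (2 * σ1))) := by
    rw [he1d]; exact LN_e hσ1p
  have he1v : ∀ t, e1 t = Real.exp (-(σ1 * max t 0)) := fun t => by rw [he1d]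
  clear he1d hzA
  -- the approximate solution
  obtain ⟨U, hUd'⟩ : ∃ U : Fam, U = u + (w + I) + z := ⟨_, rfl⟩
  obtain ⟨FE, hFEd⟩ : ∃ FE : Fam, FE = Bx χ U - Bx χ u - pq - HG := ⟨_, rfl⟩
  rw [← hUd', ← hFEd] at hFEi'
  have hUc : CF U := fun k => by rw [hUd']; exact ((hS.cf k).add ((hwc k).add (hIc k))).add (hzc k)
  have hUW : WDom (a / 2) U := by rw [hUd']; exact ((huW.add (hwD.add hID)).mono (by linarith)).add hzW
  have hUd : Dom U := hUW.dom (half_pos ha).le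
  have hUs : SymF U := fun t => by rw [hUd']; exact ((hS.sym t).add ((hws t).add (hIs t))).add (hzs t)
  have hFEc : CF FE := fun k => by
    rw [hFEd]
    exact (((Bx_cont hχ.toCutT hUc hUd k).sub (Bx_cont hχ.toCutT hS.cf hud k)).sub (hpc k)).sub (hHc k)
  have hFEs : SymF FE := fun t => by
    rw [hFEd]
    exact (((Bx_sym χ hUs t).sub (Bx_sym χ hS.sym t)).sub (hps t)).sub (hHs t)
  have hFE0 : ∀ t, FE 0 t = 0 := by
    intro t
    rw [hFEd]
    simp only [Pi.sub_apply, hp0', hH0, Bx, Bt, Bf_zero, sub_self, smul_zero]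
  -- the majorant
  obtain ⟨A, hAd⟩ : ∃ A : ℝ → ℝ, A = fun t => Au t + (1 + Kz) * Cb * N * e1 t := ⟨_, rfl⟩
  have hAc : Continuous A := by rw [hAd]; fun_prop
  have hQ0 : 0 ≤ (1 + Kz) * Cb * N := by positivity
  have hA0 : ∀ t, 0 ≤ A t := fun t => by
    rw [hAd]
    exact add_nonneg (hAu0 t) (mul_nonneg hQ0 (e1p t).le)
  have hAi : LN (fun t => ENNReal.ofReal (A t)) ≤ ENNReal.ofReal D := by
    have h1 : ∀ t, ENNReal.ofReal (A t) = ENNReal.ofReal (Au t) +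
        ENNReal.ofReal ((1 + Kz) * Cb * N) * ENNReal.ofReal (e1 t) := by
      intro t
      rw [← ENNReal.ofReal_mul hQ0, ← ENNReal.ofReal_add (hAu0 t) (mul_nonneg hQ0 (e1p t).le), hAd]
    simp only [h1]
    refine (LN_add_le (by fun_prop) (by fun_prop)).trans ?_
    refine (add_le_add hLN le_rfl).trans ?_
    rw [LN_const_mul _ (by fun_prop), hLNe1, ← ENNReal.ofReal_mul hQ0,
      ← ENNReal.ofReal_add hL0 (mul_nonneg hQ0 (Real.sqrt_nonneg _))]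
    apply ENNReal.ofReal_le_ofReal
    rw [mul_assoc ((1 + Kz) * Cb), hLe1]
    linarith
  have hwI : ∀ t, NW (Wa a) (at' (w + I) t) ≤ ENNReal.ofReal (Cb * N * Real.exp (-(c * (N : ℝ) ^ 2 * max t 0))) := by
    intro t
    have h0 := (Real.exp_pos (-(c * (N : ℝ) ^ 2 * max t 0))).le
    refine (NW_add_le _ (at' w t) (at' I t)).trans ((add_le_add (hw t) (hI t)).trans ?_)
    rw [← ENNReal.ofReal_add (by positivity) (by positivity)]
    apply ENNReal.ofReal_le_ofReal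
    rw [hCbe]
    have h3 : CI * Real.exp (-(c * (N : ℝ) ^ 2 * max t 0)) ≤ N * (CI * Real.exp (-(c * (N : ℝ) ^ 2 * max t 0))) :=
      le_mul_of_one_le_left (mul_nonneg hCI h0) hNr
    linarith
  have hMC : Mu * Cw ≤ Mu * Cb := mul_le_mul_of_nonneg_left hCwb hMu
  have hUA : ∀ t, 0 < t → NW (Wa a) (at' U t) ≤ ENNReal.ofReal (A t) := by
    intro t _
    have e1' : at' U t = at' u t + at' (w + I) t + at' z t := by rw [hUd']; rfl
    have hx : NW (Wa a) (at' u t) ≤ ENNReal.ofReal (Au t) := by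
      rw [← hNA]; exact NW_mono (fun k => Wa_mono haa k) _
    have h0 := (e1p t).le
    have hwI' := (hwI t).trans (ENNReal.ofReal_le_ofReal (mul_le_mul_of_nonneg_left (hee1 t)
      (by positivity : 0 ≤ Cb * N)))
    rw [e1']
    refine (NW_add_le _ _ _).trans ((add_le_add ((NW_add_le _ _ _).trans (add_le_add hx hwI')) (hzA' t)).trans ?_)
    rw [← ENNReal.ofReal_add (hAu0 t) (by positivity), ← ENNReal.ofReal_add (by have := hAu0 t; positivity) (by positivity)]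
    apply ENNReal.ofReal_le_ofReal
    rw [hAd]
    have h1 : Kz * (Mu * Cw) * e1 t ≤ Kz * Cb * N * e1 t := by
      apply mul_le_mul_of_nonneg_right _ h0
      have h1 : Mu * Cw ≤ N * Cb := mul_le_mul hMuN hCwb hCw hNp.le
      calc Kz * (Mu * Cw) ≤ Kz * (N * Cb) := mul_le_mul_of_nonneg_left h1 hKzp.le
        _ = _ := by ring
    have h2 : (1 + Kz) * Cb * N * e1 t = Cb * N * e1 t + Kz * Cb * N * e1 t := by ring
    simp only
    rw [h2]
    linarith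
  -- the radius
  obtain ⟨ρ, hρd⟩ : ∃ ρ, ρ = κρ * Y := ⟨_, rfl⟩
  have hρ : 0 < ρ := by rw [hρd]; positivity
  have hp : Par c D Lam ρ := hp0.mono hρ (by
    rw [hρd]
    have h1 : κρ / ρ0 * Y ≤ 1 := (mul_le_mul_of_nonneg_right l2' hYpos.le).trans hKY
    rw [div_mul_eq_mul_div, div_le_one hρ0] at h1
    exact h1)
  have hEρ1 : Eρ * ρ ≤ K1 * Y := by
    rw [hρd, ← mul_assoc]
    exact mul_le_mul_of_nonneg_right l4' hYpos.le
  have hη' : 0 ≤ Kη * Y := by positivity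
  have hη2 : (Kη * Y) ^ 2 ≤ c * (ρ / 2) ^ 2 := by
    have h1 : √c * (ρ / 2) = Kη * Y := by rw [hρd, hκρ]; field_simp
    calc (Kη * Y) ^ 2 = (√c * (ρ / 2)) ^ 2 := by rw [h1]
      _ = c * (ρ / 2) ^ 2 := by rw [mul_pow, Real.sq_sqrt hc.le]
      _ ≤ _ := le_rfl
  obtain ⟨r, hrc, hr0, hrM, hrL, hrfix, hrs⟩ := existX hχ.toCutT hp ha hAc hA0 hAi hUc hUd hUs hUA hFEc
    hFEs hFE0 hη' hη2 hFEi'
  obtain ⟨M, hMd⟩ : ∃ M, M = 2 * (Kη * Y + Real.exp (Lam * D ^ 2) * (3 * C0 * D) * ρ) := ⟨_, rfl⟩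
  rw [← hMd] at hrM
  have hM : 0 ≤ M := by rw [hMd]; positivity
  have hMY : M ≤ K1 * Y := by
    have e2 : M = 2 * (Kη + Eρ * (3 * C0 * D) * κρ) * Y := by rw [hMd, hρd, hEρ]; ring
    rw [e2]
    exact mul_le_mul_of_nonneg_right l3' hYpos.le
  -- the new solution
  have hrW : WDom (a / 2) r := by
    refine ⟨fun k => M * (nk k * Real.exp (-(a * l1 k))), ?_, fun k t =>
      norm_le_of_NWm hM (hr0 t) (hrM t) k⟩
    refine ((summ_nk (half_pos ha)).mul_left M).congr fun k => ?_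
    unfold om
    have : Real.exp (-(a / 2 * l1 k)) = Real.exp (a / 2 * l1 k) * Real.exp (-(a * l1 k)) := by
      rw [← Real.exp_add]; congr 1; ring
    rw [this]; ring
  have hrd : Dom r := hrW.dom (half_pos ha).le
  have hUrc : CF (U + r) := fun k => (hUc k).add (hrc k)
  have eUr : u + (w + I) + (z + r) = U + r := by rw [hUd']; abel
  have hMCN : Mu * Cw / N ≤ Mu * Cb / N := div_le_div_of_nonneg_right hMC hNp.le
  have hMCN0 : 0 ≤ Mu * Cw / N := by positivity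
  have hLNr0 : LN (fun t => NW (Wa 0) (at' r t)) ≤ ENNReal.ofReal (Eρ * ρ) := by
    refine ((LN_le_LF hp.hL.le hD.le hAc hA0 hAi ha.le hrc).trans
      ((mul_le_mul' le_rfl hrL).trans ?_))
    rw [← ENNReal.ofReal_mul (Real.exp_pos _).le, hEρ]
  have hBr : CF (Bx χ (U + r)) := Bx_cont hχ.toCutT hUrc (hUd.add hrd)
  have hBu : CF (Bx χ u) := Bx_cont hχ.toCutT hS.cf hud
  have hBU : CF (Bx χ U) := Bx_cont hχ.toCutT hUc hUd
  refine ⟨a / 2, half_pos ha, z, r, ?_⟩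
  rw [eUr]
  refine ⟨⟨hUrc, fun t => ?_,
    fun t => (hUs t).add (hrs t), hUW.add hrW, ?_, fun k t => ?_⟩,
    hzc, hrc, fun t => (NW_mono (fun k => Wa_mono ha.le k) _).trans (hwI t), fun t => ?_, fun t => ?_, ?_,
    fun t => (NW_mono (Wam0 ha.le) _).trans ((hrM t).trans (ENNReal.ofReal_le_ofReal hMY)),
    hLNr0.trans (ENNReal.ofReal_le_ofReal hEρ1), fun k => ?_⟩
  · rw [hUd']
    show ((u 0 t + (w 0 t + I 0 t)) + z 0 t) + r 0 t = 0
    rw [hS.z, hw0, hI0, hz0, hr0]; simp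
  · -- finite norm
    have m1 : Measurable fun t => NW (Wa (a / 2)) (at' U t) := NW_meas _ hUc
    have m2 : Measurable fun t => NW (Wa (a / 2)) (at' r t) := NW_meas _ hrc
    have h1 : LN (fun t => NW (Wa (a / 2)) (at' U t)) ≠ ⊤ := by
      refine ne_top_of_le_ne_top ENNReal.ofReal_ne_top ((LN_mono fun t ht => ?_).trans hAi)
      exact (NW_mono (fun k => Wa_mono (by linarith) k) _).trans (hUA t ht)
    have h2 : LN (fun t => NW (Wa (a / 2)) (at' r t)) ≠ ⊤ :=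
      ne_top_of_le_ne_top (ENNReal.mul_ne_top ENNReal.ofReal_ne_top
        (ne_top_of_le_ne_top ENNReal.ofReal_ne_top hrL))
        (LN_le_LF hp.hL.le hD.le hAc hA0 hAi (half_le_self ha.le) hrc)
    refine ne_top_of_le_ne_top (ENNReal.add_ne_top.2 ⟨h1, h2⟩) ((LN_mono fun t _ => ?_).trans
      (LN_add_le m1 m2))
    exact NW_add_le _ _ _
  · have e1' : FE + (Bx χ (U + r) - Bx χ U) = Bx χ (U + r) - ((Bx χ u + pq) + HG) := by
      rw [hFEd]; abel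
    have hadd : CF (Bx χ u + pq) := fun k => (hBu k).add (hpc k)
    have hadd2 : CF ((Bx χ u + pq) + HG) := fun k => (hadd k).add (hHc k)
    rw [e1', Duh_sub hBr hadd2, Duh_add hadd hHc, Duh_add hBu hpc] at hrfix
    have e2 : r k t = Duh c (Bx χ (U + r)) k t - ((Duh c (Bx χ u) k t + Duh c pq k t)
        + Duh c HG k t) := congrFun (congrFun hrfix k) t
    have e3 := hS.eq k t
    have e7 : z k t = Duh c HG k t := by rw [hzd]
    have e8 : (U + r) k t = ((u k t + (w k t + I k t)) + z k t) + r k t := by rw [hUd']; rfl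
    rw [e8, e2, e3, e4 k t, e6 k t, e7]
    simp only [Pi.add_apply, smul_add]
    abel
  · refine (NW_mono (fun k => Wa_mono ha.le k) _).trans ((hzA' t).trans (ENNReal.ofReal_le_ofReal ?_))
    rw [← hσ1]
    rw [he1v]
    exact mul_le_mul_of_nonneg_right (mul_le_mul_of_nonneg_left hMC hKzp.le) (Real.exp_pos _).le
  · refine (NW_mono (Wam0 ha.le) _).trans ((hzM t).trans (ENNReal.ofReal_le_ofReal ?_))
    exact mul_le_mul l6' hMCN hMCN0 (by linarith)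
  · refine (LN_mono (ψ := fun t => ENNReal.ofReal (Kz * (Mu * Cw)) * ENNReal.ofReal (e1 t)) fun t _ => ?_).trans ?_
    · rw [← ENNReal.ofReal_mul (by positivity)]
      exact (NW_mono (fun k => Wa_mono ha.le k) _).trans (hzA' t)
    · rw [LN_const_mul _ (by fun_prop), hLNe1, ← ENNReal.ofReal_mul (by positivity)]
      apply ENNReal.ofReal_le_ofReal
      have e2 : √(1 / (2 * σ1)) = √(8 / c) / N := by rw [← hLe1]; field_simp
      calc Kz * (Mu * Cw) * √(1 / (2 * σ1)) = Kz * √(8 / c) * (Mu * Cw / N) := by rw [e2]; ring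
        _ ≤ _ := mul_le_mul l7' hMCN hMCN0 (by linarith)
  · -- the nonlinear term
    obtain ⟨X2, hX2d⟩ : ∃ X2, X2 = Eρ * ρ := ⟨_, rfl⟩
    have hX20 : 0 ≤ X2 := by rw [hX2d]; positivity
    have hX21 : X2 ≤ 1 := by rw [hX2d]; exact hEρ1.trans hKY
    have hnk0 := nk_nonneg k
    have hLU : LN (fun t => NW (Wa 0) (at' U t)) ≤ ENNReal.ofReal D :=
      (LN_mono fun t ht => (NW_mono (fun k => Wa_mono ha.le k) _).trans (hUA t ht)).trans hAi
    have e0 : Bx χ (U + r) - Bx χ u = (Bx χ (U + r) - Bx χ U) + ((FE + HG) + pq) := by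
      rw [hFEd]; abel
    have m1 : Measurable fun t => ‖(Bx χ (U + r) - Bx χ U) k t‖ₑ :=
      (((hBr k).sub (hBU k)).measurable).enorm
    have m2 : Measurable fun t => ‖FE k t‖ₑ := (hFEc k).measurable.enorm
    have m3 : Measurable fun t => ‖HG k t‖ₑ := (hHc k).measurable.enorm
    have m4 : Measurable fun t => ‖FE k t‖ₑ + ‖HG k t‖ₑ := m2.add m3
    have w1 : ∫⁻ t in Ioi 0, ‖(Bx χ (U + r) - Bx χ U) k t‖ₑ ≤ ENNReal.ofReal (nk k * (3 * C0 * D * (Eρ * κρ) * Y)) := by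
      refine (nl_diff hχ.toCutT hUc hrc hUd hrd k).trans ?_
      rw [ENNReal.ofReal_mul (nk_nonneg k)]
      apply mul_le_mul' le_rfl
      have hLr : LN (fun t => NW (Wa 0) (at' r t)) ≤ ENNReal.ofReal X2 := by rw [hX2d]; exact hLNr0
      calc ENNReal.ofReal C0 * (2 * (LN (fun t => NW (Wa 0) (at' U t)) * LN (fun t => NW (Wa 0) (at' r t)))
            + LN (fun t => NW (Wa 0) (at' r t)) * LN (fun t => NW (Wa 0) (at' r t)))
          ≤ ENNReal.ofReal C0 * (2 * (ENNReal.ofReal D * ENNReal.ofReal X2) + ENNReal.ofReal X2 * ENNReal.ofReal X2) := by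
            gcongr
        _ = ENNReal.ofReal (C0 * (2 * (D * X2) + X2 * X2)) := ofR_comb hC.le hD.le hX20
        _ ≤ _ := by
            apply ENNReal.ofReal_le_ofReal
            have h1 : X2 * X2 ≤ D * X2 := mul_le_mul_of_nonneg_right (hX21.trans hD1) hX20
            have h2 : C0 * (2 * (D * X2) + X2 * X2) ≤ C0 * (3 * (D * X2)) :=
              mul_le_mul_of_nonneg_left (by linarith) hC.le
            calc _ ≤ C0 * (3 * (D * X2)) := h2
              _ = _ := by rw [hX2d, hρd]; ring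
    have w2 : ∫⁻ t in Ioi 0, ‖FE k t‖ₑ ≤ ENNReal.ofReal (nk k * (Kη * Y)) := by
      refine (lint_coef FE hFE0 k).trans ?_
      rw [ENNReal.ofReal_mul (nk_nonneg k)]
      apply mul_le_mul' le_rfl
      exact (lintegral_mono fun s => NW_mono (Wam0 ha.le) _).trans hFEi'
    have w3 : ∫⁻ t in Ioi 0, ‖HG k t‖ₑ ≤ ENNReal.ofReal (nk k * (K1 * (Mu * Cb / N))) := by
      refine (lint_coef _ hH0 k).trans ?_
      rw [ENNReal.ofReal_mul (nk_nonneg k)]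
      apply mul_le_mul' le_rfl
      have hBG0 : 0 ≤ 2 * C0 * (Mu * (Cw * N)) := by positivity
      have hσ : 0 < c * (N : ℝ) ^ 2 := by positivity
      calc ∫⁻ t in Ioi 0, NW (Wm 0) (at' HG t)
          ≤ ∫⁻ t in Ioi 0, ENNReal.ofReal (2 * C0 * (Mu * (Cw * N))) *
              ENNReal.ofReal (Real.exp (-(c * (N : ℝ) ^ 2 * max t 0))) := by
            refine lintegral_mono fun t => ?_
            rw [← ENNReal.ofReal_mul hBG0]
            exact (NW_mono (Wam0 ha.le) _).trans (hHb t)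
        _ = ENNReal.ofReal (2 * C0 * (Mu * (Cw * N))) * ENNReal.ofReal (1 / (c * (N : ℝ) ^ 2)) := by
            rw [lintegral_const_mul _ (by fun_prop), lint_e hσ]
        _ ≤ _ := by
            rw [← ENNReal.ofReal_mul hBG0]
            apply ENNReal.ofReal_le_ofReal
            calc 2 * C0 * (Mu * (Cw * N)) * (1 / (c * (N : ℝ) ^ 2)) = 2 * C0 / c * (Mu * Cw / N) := by field_simp
              _ ≤ _ := mul_le_mul l6' hMCN hMCN0 (by linarith)
    calc ∫⁻ t in Ioi 0, ‖(Bx χ (U + r) - Bx χ u) k t‖ₑ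
        ≤ ∫⁻ t in Ioi 0, (‖(Bx χ (U + r) - Bx χ U) k t‖ₑ + ((‖FE k t‖ₑ + ‖HG k t‖ₑ) + ‖pq k t‖ₑ)) := by
          refine lintegral_mono fun t => ?_
          rw [e0]
          exact (enorm_add_le _ _).trans (add_le_add le_rfl ((enorm_add_le _ _).trans
            (add_le_add (enorm_add_le _ _) le_rfl)))
      _ = (∫⁻ t in Ioi 0, ‖(Bx χ (U + r) - Bx χ U) k t‖ₑ) + (((∫⁻ t in Ioi 0, ‖FE k t‖ₑ)
            + ∫⁻ t in Ioi 0, ‖HG k t‖ₑ) + ∫⁻ t in Ioi 0, ‖pq k t‖ₑ) := by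
          rw [lintegral_add_left m1, lintegral_add_left m4, lintegral_add_left m2]
      _ ≤ ENNReal.ofReal (nk k * (3 * C0 * D * (Eρ * κρ) * Y)) + ((ENNReal.ofReal (nk k * (Kη * Y))
            + ENNReal.ofReal (nk k * (K1 * (Mu * Cb / N)))) + ‖E00 k‖ₑ) :=
          add_le_add w1 (add_le_add (add_le_add w2 w3) (hpint k))
      _ = ‖E00 k‖ₑ + ENNReal.ofReal (nk k * (3 * C0 * D * (Eρ * κρ) * Y) + nk k * (Kη * Y)
            + nk k * (K1 * (Mu * Cb / N))) := by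
          have j1 : 0 ≤ nk k * (3 * C0 * D * (Eρ * κρ) * Y) := by positivity
          have j2 : 0 ≤ nk k * (Kη * Y) := by positivity
          have j3 : 0 ≤ nk k * (K1 * (Mu * Cb / N)) := mul_nonneg hnk0 (mul_nonneg (by linarith) (by positivity))
          rw [ENNReal.ofReal_add (add_nonneg j1 j2) j3, ENNReal.ofReal_add j1 j2]
          ring
      _ ≤ _ := by
          refine add_le_add le_rfl (ENNReal.ofReal_le_ofReal ?_)
          have h1 : (3 * C0 * D * (Eρ * κρ) + Kη) * Y ≤ K1 * Y := mul_le_mul_of_nonneg_right l5' hYpos.le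
          have h2 := mul_le_mul_of_nonneg_left h1 hnk0
          have h3 : nk k * (3 * C0 * D * (Eρ * κρ) * Y) + nk k * (Kη * Y) + nk k * (K1 * (Mu * Cb / N))
              = nk k * ((3 * C0 * D * (Eρ * κρ) + Kη) * Y) + nk k * (K1 * (Mu * Cb / N)) := by ring
          rw [h3, mul_add]
          linarith

end Pool.Agent.H356R3.NS.X
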