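import Pool.Agent.H3NY.R.Dens3
import Pool.Agent.H3NY.X.StepQ2
import Pool.Agent.H3NY.X.StepR

namespace Pool.Agent.H356R3.NS
end Pool.Agent.H356R3.NS
namespace Pool.Agent.H356R3.NS.H3
end Pool.Agent.H356R3.NS.H3
namespace Pool.Agent.H356R3.NS.X
end Pool.Agent.H356R3.NS.X
namespace Pool.Agent.H3NS
end Pool.Agent.H3NS
namespace H459R3.NS
end H459R3.NS

set_option autoImplicit false
set_option maxHeartbeats 8000000
set_option synthInstance.maxHeartbeats 400000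

/-!
The step for pieces of size `√s` at frequency `N`, in terms of the ratio `x` of the size of the data and `N`.
-/

open MeasureTheory Set Filter Topology
open scoped ENNReal NNReal

namespace Pool.Agent.H356R3.NS.X

open Pool.Agent.H356R3.NS.H3

variable {q cc η : K}

lemma norm_smulR {s : ℝ} (hs : 0 < s) (γ : ℂ) : ‖(s : ℂ) * γ‖ = s * ‖γ‖ := by
  rw [norm_mul, Complex.norm_real, Real.norm_of_nonneg hs.le]

lemma piece_leR {c H : ℝ} (hc : 0 < c) (hH : 1 ≤ H) {γ : ℂ} (h : GB H q cc η γ) {s : ℝ} (hs : 0 < s) :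
    4 * (√s * ‖cK q‖ + c * ‖(s : ℂ) * γ‖ / (Real.pi * sq q * √s) * ‖cK cc‖) ≤ C5 c H * √s := by
  have hsn : 0 < √s := Real.sqrt_pos.2 hs
  have hsq : √s ^ 2 = s := Real.sq_sqrt hs.le
  have hpi := Real.pi_gt_three
  have h1 := one_le_sq h.hq
  have p1 : 1 ≤ Real.pi * sq q := by nlinarith
  have nq0 := norm_nonneg (cK q)
  have nc0 := norm_nonneg (cK cc)
  have g0 := norm_nonneg γ
  have hH0 : 0 ≤ H := by linarith
  rw [norm_smulR hs]
  have e1 : 4 * (√s * ‖cK q‖ + c * (s * ‖γ‖) / (Real.pi * sq q * √s) * ‖cK cc‖)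
      = (4 * ‖cK q‖ + 4 * c * (‖γ‖ * ‖cK cc‖) / (Real.pi * sq q)) * √s := by
    have : Real.pi * sq q ≠ 0 := by positivity
    obtain ⟨y, hy⟩ : ∃ y, y = √s := ⟨_, rfl⟩
    rw [← hy] at hsq hsn ⊢
    rw [← hsq]
    field_simp
  rw [e1]
  apply mul_le_mul_of_nonneg_right _ hsn.le
  have e2 : ‖γ‖ * ‖cK cc‖ ≤ H * H := mul_le_mul h.g h.nc nc0 hH0
  have e3 : 4 * c * (‖γ‖ * ‖cK cc‖) / (Real.pi * sq q) ≤ 4 * c * (H * H) := by
    rw [div_le_iff₀ (by positivity)]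
    calc 4 * c * (‖γ‖ * ‖cK cc‖) ≤ 4 * c * (H * H) := mul_le_mul_of_nonneg_left e2 (by positivity)
      _ ≤ 4 * c * (H * H) * (Real.pi * sq q) := le_mul_of_one_le_right (by positivity) p1
  have e4 := h.nq
  unfold C5
  have e5 : 4 * c * (H * H) ≤ 4 * c * H ^ 3 := by
    apply mul_le_mul_of_nonneg_left _ (by positivity)
    nlinarith [mul_nonneg hH0 hH0]
  nlinarith

lemma Cv_leR {c H : ℝ} (hc : 0 < c) (hH : 1 ≤ H) {γ : ℂ} (h : GB H q cc η γ) {s : ℝ} (hs : 0 < s) (hs1 : s ≤ 1) :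
    Cv c q cc η ((s : ℂ) * γ) (nk η * √s) ≤ C5 c H * √s := by
  have hsn : 0 < √s := Real.sqrt_pos.2 hs
  have hsn1 : √s ≤ 1 := Real.sqrt_le_one.2 hs1
  have hsq : √s ^ 2 = s := Real.sq_sqrt hs.le
  have hpi := Real.pi_gt_three
  have h1 := one_le_sq h.hq
  have p1 : 1 ≤ Real.pi * sq q := by nlinarith
  have nq0 := norm_nonneg (cK q)
  have nc0 := norm_nonneg (cK cc)
  have g0 := norm_nonneg γ
  have hH0 : 0 ≤ H := by linarith
  have k1 := one_le_nkG h.toGeo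
  have hse : nk η ^ 2 = sq η := by rw [pow_two]; exact nk_mul_self η
  unfold Cv
  rw [norm_smulR hs, ← hse]
  have e1 : 4 * (nk η * √s * ‖cK q‖) +
      4 * (c * nk η ^ 2 * (s * ‖γ‖) / (Real.pi * sq q * (nk η * √s)) * ‖cK cc‖) +
      4 * (s * ‖γ‖ * ‖cK cc‖)
      = (4 * (nk η * ‖cK q‖) + 4 * c * (nk η * (‖γ‖ * ‖cK cc‖)) / (Real.pi * sq q)
        + 4 * (‖γ‖ * ‖cK cc‖) * √s) * √s := by
    have h3 : Real.pi * sq q ≠ 0 := by positivity
    have h4 : nk η ≠ 0 := by linarith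
    obtain ⟨y, hy⟩ : ∃ y, y = √s := ⟨_, rfl⟩
    rw [← hy] at hsq hsn ⊢
    rw [← hsq]
    field_simp
  rw [e1]
  apply mul_le_mul_of_nonneg_right _ hsn.le
  have e2 : ‖γ‖ * ‖cK cc‖ ≤ H * H := mul_le_mul h.g h.nc nc0 hH0
  have e0 : 0 ≤ ‖γ‖ * ‖cK cc‖ := mul_nonneg g0 nc0
  have e3 : 4 * c * (nk η * (‖γ‖ * ‖cK cc‖)) / (Real.pi * sq q) ≤ 4 * c * (H * (H * H)) := by
    rw [div_le_iff₀ (by positivity)]
    calc 4 * c * (nk η * (‖γ‖ * ‖cK cc‖)) ≤ 4 * c * (H * (H * H)) :=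
          mul_le_mul_of_nonneg_left (mul_le_mul h.ke e2 e0 hH0) (by positivity)
      _ ≤ 4 * c * (H * (H * H)) * (Real.pi * sq q) := le_mul_of_one_le_right (by positivity) p1
  have e4 : nk η * ‖cK q‖ ≤ H * H := mul_le_mul h.ke h.nq nq0 hH0
  have e5 : 4 * (‖γ‖ * ‖cK cc‖) * √s ≤ 4 * (H * H) := by
    calc 4 * (‖γ‖ * ‖cK cc‖) * √s ≤ 4 * (H * H) * 1 :=
          mul_le_mul (by linarith) hsn1 hsn.le (by positivity)
      _ = _ := mul_one _
  unfold C5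
  nlinarith

theorem stepR2 {χ : ℝ → ℝ} {h : ℝ} (hχ : CutH χ h) {c H Lb C2 : ℝ} (hc : 0 < c) (hH : 1 ≤ H) (hLb : 0 ≤ Lb)
    (hC2 : 1 ≤ C2) (hsup : ∀ a : ℝ, 0 < a → ∀ (V : K → C3) (u : Fam), SolX χ c a V u →
      LN (fun t => NW (Wa 0) (at' u t)) ≤ ENNReal.ofReal Lb →
      ∀ t, NW (Wa 0) (at' u t) ≤ ENNReal.ofReal C2 * NW (Wa 0) V) :
    ∃ K2 K3 : ℝ, 1 ≤ K2 ∧ 1 ≤ K3 ∧ ∀ {q cc η : K} {γ : ℂ} {V : K → C3} {u : Fam} {a0 F L s x : ℝ} {N : ℕ},
      GB H q cc η γ → 0 < s → s ≤ 1 → 0 < a0 → SolX χ c a0 V u → NW (Wa 0) V ≤ ENNReal.ofReal F → 1 ≤ F →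
      F ≤ x * N → K3 * x ≤ √s → 1 ≤ N → (∀ k, (N : ℝ) / 2 ≤ nk k → V k = 0) → 0 ≤ L → L ≤ Lb →
      LN (fun t => NW (Wa 0) (at' u t)) ≤ ENNReal.ofReal L →
      ∃ a : ℝ, 0 < a ∧ ∃ v z r : Fam,
        v = wF c q cc η ((s : ℂ) * γ) (nk η * √s) N + IF c q cc η ((s : ℂ) * γ) N ∧
        SolX χ c a (V + (E0 q cc ((s : ℂ) * γ) + W0 c q cc η ((s : ℂ) * γ) (nk η * √s) N)) (u + v + (z + r)) ∧
        CF v ∧ CF z ∧ CF r ∧
        NW (Wa 0) (V + (E0 q cc ((s : ℂ) * γ) + W0 c q cc η ((s : ℂ) * γ) (nk η * √s) N))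
          ≤ ENNReal.ofReal (F + C5 c H * √s * N) ∧
        (∀ k, W0 c q cc η ((s : ℂ) * γ) (nk η * √s) N k ≠ 0 → nk k ≤ N * (2 * H)) ∧
        LN (fun t => NW (Wa 0) (at' (u + v + (z + r)) t)) ≤ ENNReal.ofReal (√(L ^ 2 + Kv c H * s)) ∧
        (∀ t, NW (Wa 0) (at' v t) ≤
          ENNReal.ofReal (C5 c H * √s * (N * Real.exp (-(c * N ^ 2 * max t 0))))) ∧
        (∀ t, NW (Wa 0) (at' z t) ≤ ENNReal.ofReal (√s * (N * Real.exp (-(c / 16 * N ^ 2 * max t 0))))) ∧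
        (∀ t, NW (Wm 0) (at' (z + r) t) ≤ ENNReal.ofReal (K2 * (√s * x))) ∧
        LN (fun t => NW (Wa 0) (at' (z + r) t)) ≤ ENNReal.ofReal (K2 * (√s * x)) ∧
        LN (fun t => NW (Wa 0) (at' r t)) ≤ ENNReal.ofReal (K2 * (s * x)) ∧
        ∀ k, ∫⁻ t in Ioi 0, ‖(Bx χ (u + v + (z + r)) - Bx χ u) k t‖ₑ ≤
          ‖E0 q cc ((s : ℂ) * γ) k‖ₑ + ENNReal.ofReal (nk k * (K2 * (√s * x))) := by
  obtain ⟨Z, hZ⟩ : ∃ Z, Z = C5 c H := ⟨_, rfl⟩
  have hZp : 0 < Z := by rw [hZ]; exact C5_pos hc hH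
  have hC := C0_pos
  have hH0 : 0 < H := by linarith
  obtain ⟨Kz, hKz⟩ : ∃ Kz, Kz = 24 * C0 / c := ⟨_, rfl⟩
  have hKzp : 0 < Kz := by rw [hKz]; positivity
  obtain ⟨D, hD⟩ : ∃ D, D = Lb + 1 + (1 + Kz) * Z * √(8 / c) + 1 := ⟨_, rfl⟩
  have hD1 : 1 ≤ D := by
    have : 0 ≤ (1 + Kz) * Z * √(8 / c) := by positivity
    rw [hD]; linarith
  obtain ⟨K1, hK1, hcore⟩ := step_coreR hχ hc hD1
  rw [← hKz] at hcore
  have hK1p : 0 < K1 := by linarith
  obtain ⟨K', hK'⟩ : ∃ K', K' = Z * (C2 + 1) ^ 2 + Z ^ 2 * (C2 + 1) + Z ^ 2 + c * (H * (H * H)) := ⟨_, rfl⟩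
  have hK'p : 0 < K' := by rw [hK']; positivity
  obtain ⟨K2, hK2⟩ : ∃ K2, K2 = 1 + K1 * ((C2 + 1) * Z) + K1 * K' := ⟨_, rfl⟩
  have q1 : 0 < K1 * ((C2 + 1) * Z) := by positivity
  have q2 : 0 < K1 * K' := by positivity
  have hK21 : 1 ≤ K2 := by rw [hK2]; linarith
  obtain ⟨X0, hX0⟩ : ∃ X0, X0 = Lb + 1 + Z ^ 2 / (2 * c) := ⟨_, rfl⟩
  have hX0p : 0 < X0 := by rw [hX0]; positivity
  obtain ⟨K3, hK3⟩ : ∃ K3, K3 = 1 + (C2 + 1) + K1 * K' + Kz * ((C2 + 1) * Z) + 2 * C2 * Z / c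
    + (2 * X0 + 1) * K2 := ⟨_, rfl⟩
  have q3 : 0 < Kz * ((C2 + 1) * Z) := by positivity
  have q4 : 0 < 2 * C2 * Z / c := by positivity
  have q5 : 0 < (2 * X0 + 1) * K2 := by positivity
  have r1 : 1 ≤ K3 := by rw [hK3]; linarith
  have r2 : C2 + 1 ≤ K3 := by rw [hK3]; linarith
  have r3 : K1 * K' ≤ K3 := by rw [hK3]; linarith
  have r4 : Kz * ((C2 + 1) * Z) ≤ K3 := by rw [hK3]; linarith
  have r5 : 2 * C2 * Z / c ≤ K3 := by rw [hK3]; linarith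
  have r6 : (2 * X0 + 1) * K2 ≤ K3 := by rw [hK3]; linarith
  clear hK3 q3 q4 q5
  refine ⟨K2, K3, hK21, r1, ?_⟩
  intro q cc η γ V u a0 F L s x N hGB hs hs1 ha0 hS hV hF1 hFx hKx hN1 hVs hL0 hLL hLN
  have hG : Geo q cc η := hGB.toGeo
  have hNr : (1 : ℝ) ≤ N := by exact_mod_cast hN1
  have hNp : (0 : ℝ) < N := by linarith
  have hFp : 0 < F := by linarith
  have hx0 : 0 < x := by
    by_contra hcon
    push Not at hcon
    have : x * N ≤ 0 := mul_nonpos_of_nonpos_of_nonneg hcon hNp.le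
    linarith
  obtain ⟨y, hy⟩ : ∃ y, y = √s := ⟨_, rfl⟩
  have hy0 : 0 < y := by rw [hy]; exact Real.sqrt_pos.2 hs
  have hy1 : y ≤ 1 := by rw [hy]; exact Real.sqrt_le_one.2 hs1
  have hys : y ^ 2 = s := by rw [hy]; exact Real.sq_sqrt hs.le
  have hsy : s ≤ y := by rw [← hys]; nlinarith
  have hbnd : ∀ {k : ℝ}, k ≤ K3 → k * x ≤ y := fun {k} hk => by
    rw [hy]
    exact (mul_le_mul_of_nonneg_right hk hx0.le).trans hKx
  have hxy : x ≤ y := by have := hbnd r1; linarith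
  have hN1x : 1 / (N : ℝ) ≤ x := by rw [div_le_iff₀ hNp]; linarith
  obtain ⟨lm, hlm⟩ : ∃ lm, lm = nk η * √s := ⟨_, rfl⟩
  have hlmp : 0 < lm := by rw [hlm, ← hy]; exact mul_pos (nk_pos' hG.hη) hy0
  obtain ⟨g, hg⟩ : ∃ g : ℂ, g = (s : ℂ) * γ := ⟨_, rfl⟩
  obtain ⟨C, hCd⟩ : ∃ C, C = Cv c q cc η g lm := ⟨_, rfl⟩
  have hCp : 0 < C := by rw [hCd]; exact Cv_pos hc hG g hlmp
  have hCZ : C ≤ Z * y := by rw [hCd, hg, hlm, hZ, hy]; exact Cv_leR hc hH hGB hs hs1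
  have hCZ1 : C ≤ Z := hCZ.trans (mul_le_of_le_one_right hZp.le hy1)
  -- bounds for `u`
  have hLNb : LN (fun t => NW (Wa 0) (at' u t)) ≤ ENNReal.ofReal Lb := hLN.trans (ENNReal.ofReal_le_ofReal hLL)
  have hub : ∀ t, NW (Wa 0) (at' u t) ≤ ENNReal.ofReal (C2 * F) := fun t => by
    refine (hsup a0 ha0 V u hS hLNb t).trans ?_
    rw [ENNReal.ofReal_mul (by linarith)]
    exact mul_le_mul' le_rfl hV
  obtain ⟨a1, ha1, hS1, hM1, hL1⟩ := solX_shrink ha0 hS (by positivity) hL0 hub hLN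
  obtain ⟨Mu, hMu⟩ : ∃ Mu, Mu = C2 * F + 1 := ⟨_, rfl⟩
  rw [← hMu] at hM1
  have hMu0 : 0 ≤ Mu := by rw [hMu]; positivity
  have hMux : Mu ≤ (C2 + 1) * x * N := by
    rw [hMu]
    calc C2 * F + 1 ≤ (C2 + 1) * F := by linarith
      _ ≤ (C2 + 1) * (x * N) := mul_le_mul_of_nonneg_left hFx (by linarith)
      _ = _ := by ring
  have hMuN : Mu ≤ N := by
    refine hMux.trans ?_
    have : (C2 + 1) * x ≤ 1 := (hbnd r2).trans hy1
    calc (C2 + 1) * x * N ≤ 1 * N := mul_le_mul_of_nonneg_right this hNp.le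
      _ = N := one_mul _
  have hXx : Mu / N ≤ (C2 + 1) * x := by rw [div_le_iff₀ hNp]; exact hMux
  have hX00 : 0 ≤ Mu / N := by positivity
  have hDD : L + 1 + (1 + Kz) * C * √(8 / c) + 1 ≤ D := by
    rw [hD]
    have : (1 + Kz) * C * √(8 / c) ≤ (1 + Kz) * Z * √(8 / c) :=
      mul_le_mul_of_nonneg_right (mul_le_mul_of_nonneg_left hCZ1 (by linarith)) (Real.sqrt_nonneg _)
    linarith
  obtain ⟨Pp, hPp⟩ : ∃ Pp, Pp = c * sq η * (‖g‖ * ‖cK cc‖) := ⟨_, rfl⟩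
  have hPp0 : 0 ≤ Pp := by rw [hPp]; have := sq_nonneg' η; positivity
  have hPs : Pp ≤ c * (H * (H * H)) * s := by
    rw [hPp, hg, norm_smulR hs]
    have e1 : sq η * (‖γ‖ * ‖cK cc‖) ≤ H * (H * H) :=
      mul_le_mul hGB.se (mul_le_mul hGB.g hGB.nc (norm_nonneg _) hH0.le) (by positivity) hH0.le
    calc c * sq η * (s * ‖γ‖ * ‖cK cc‖) = c * (sq η * (‖γ‖ * ‖cK cc‖)) * s := by ring
      _ ≤ _ := mul_le_mul_of_nonneg_right (mul_le_mul_of_nonneg_left e1 hc.le) hs.le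
  obtain ⟨Y, hYd⟩ : ∃ Y, Y = C * (Mu / N) ^ 2 + C ^ 2 * (Mu / N) + (C ^ 2 + Pp) / N := ⟨_, rfl⟩
  have hC2s : C ^ 2 ≤ Z ^ 2 * s := by
    calc C ^ 2 ≤ (Z * y) ^ 2 := pow_le_pow_left₀ hCp.le hCZ 2
      _ = _ := by rw [mul_pow, hys]
  have hYs : Y ≤ K' * (s * x) := by
    rw [hYd, hK']
    have e1 : C * (Mu / N) ^ 2 ≤ Z * (C2 + 1) ^ 2 * (s * x) := by
      calc C * (Mu / N) ^ 2 ≤ (Z * y) * ((C2 + 1) * x) ^ 2 :=
            mul_le_mul hCZ (pow_le_pow_left₀ hX00 hXx 2) (by positivity) (by positivity)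
        _ = Z * (C2 + 1) ^ 2 * (y * x * x) := by ring
        _ ≤ Z * (C2 + 1) ^ 2 * (y * y * x) := by
            apply mul_le_mul_of_nonneg_left _ (by positivity)
            exact mul_le_mul_of_nonneg_right (mul_le_mul_of_nonneg_left hxy hy0.le) hx0.le
        _ = _ := by rw [← hys]; ring
    have e2 : C ^ 2 * (Mu / N) ≤ Z ^ 2 * (C2 + 1) * (s * x) := by
      calc C ^ 2 * (Mu / N) ≤ Z ^ 2 * s * ((C2 + 1) * x) := mul_le_mul hC2s hXx hX00 (by positivity)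
        _ = _ := by ring
    have e3 : (C ^ 2 + Pp) / N ≤ (Z ^ 2 + c * (H * (H * H))) * (s * x) := by
      calc (C ^ 2 + Pp) / N = (C ^ 2 + Pp) * (1 / N) := by ring
        _ ≤ (Z ^ 2 * s + c * (H * (H * H)) * s) * x :=
            mul_le_mul (by linarith) hN1x (by positivity) (by positivity)
        _ = _ := by ring
    calc _ ≤ Z * (C2 + 1) ^ 2 * (s * x) + Z ^ 2 * (C2 + 1) * (s * x) + (Z ^ 2 + c * (H * (H * H))) * (s * x) := by
          linarith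
      _ = _ := by ring
  have hsx : 0 < s * x := by positivity
  have hKY : K1 * Y ≤ K1 * K' * (s * x) := by
    rw [mul_assoc]
    exact mul_le_mul_of_nonneg_left hYs hK1p.le
  have hKY1 : K1 * Y ≤ 1 := by
    refine hKY.trans ?_
    have h1 : K1 * K' * x ≤ 1 := (hbnd r3).trans hy1
    have h2 : 0 ≤ K1 * K' * x := by positivity
    calc K1 * K' * (s * x) = K1 * K' * x * s := by ring
      _ ≤ 1 * 1 := mul_le_mul h1 hs1 hs.le zero_le_one
      _ = 1 := one_mul _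
  obtain ⟨a, ha, z, r, hsol, hzc, hrc, hv, hz1, hz2, hz3, hr1, hr2, hnl⟩ := hcore (N := N) ha1 hlmp hG hS1 hMu0
    (by positivity) hM1 hL1 hCd hDD hN1 hMuN hVs (by rw [hYd, hPp]) hKY1
  obtain ⟨v, hvd⟩ : ∃ v, v = wF c q cc η g lm N + IF c q cc η g N := ⟨_, rfl⟩
  rw [← hvd] at hsol hv hnl
  have hvc : CF v := by
    rw [hvd]
    exact fun k => (((Mo_cf _ _ _ k).add (Mo_cf _ _ _ k)).add ((Mo_cf _ _ _ k).add (Mo_cf _ _ _ k))).add
      ((Mo_cf _ _ _ k).add (Mo_cf _ _ _ k))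
  rw [← hlm, ← hg, ← hZ, ← hy]
  have hyx : 0 < y * x := by positivity
  have hKz2 : K1 * (Mu * C / N) ≤ K1 * ((C2 + 1) * Z) * (y * x) := by
    calc K1 * (Mu * C / N) = K1 * ((Mu / N) * C) := by ring
      _ ≤ K1 * (((C2 + 1) * x) * (Z * y)) :=
          mul_le_mul_of_nonneg_left (mul_le_mul hXx hCZ hCp.le (by positivity)) hK1p.le
      _ = _ := by ring
  have hKY2 : K1 * Y ≤ K1 * K' * (y * x) := by
    refine hKY.trans (mul_le_mul_of_nonneg_left ?_ q2.le)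
    exact mul_le_mul_of_nonneg_right hsy hx0.le
  have hsum : K1 * (Mu * C / N) + K1 * Y ≤ K2 * (y * x) := by
    have : K2 * (y * x) = y * x + K1 * ((C2 + 1) * Z) * (y * x) + K1 * K' * (y * x) := by rw [hK2]; ring
    rw [this]
    linarith
  have hKs1 : 0 ≤ K1 * (Mu * C / N) := by positivity
  have hY0 : 0 ≤ Y := by rw [hYd]; positivity
  have hKs2 : 0 ≤ K1 * Y := by positivity
  have hv' : ∀ t, NW (Wa 0) (at' v t) ≤ ENNReal.ofReal (Z * y * (N * Real.exp (-(c * N ^ 2 * max t 0)))) := by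
    intro t
    refine (hv t).trans (ENNReal.ofReal_le_ofReal ?_)
    have e0 := Real.exp_pos (-(c * (N : ℝ) ^ 2 * max t 0))
    calc C * N * Real.exp (-(c * N ^ 2 * max t 0)) = C * (N * Real.exp (-(c * N ^ 2 * max t 0))) := by ring
      _ ≤ _ := mul_le_mul_of_nonneg_right hCZ (by positivity)
  have hzrM : ∀ t, NW (Wm 0) (at' (z + r) t) ≤ ENNReal.ofReal (K2 * (y * x)) := by
    intro t
    refine (NW_add_le _ _ _).trans ((add_le_add (hz2 t) (hr1 t)).trans ?_)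
    rw [← ENNReal.ofReal_add hKs1 hKs2]
    exact ENNReal.ofReal_le_ofReal hsum
  have hzrL : LN (fun t => NW (Wa 0) (at' (z + r) t)) ≤ ENNReal.ofReal (K2 * (y * x)) := by
    refine (LN_mono fun t _ => NW_add_le _ _ _).trans ((LN_add_le (NW_meas _ hzc) (NW_meas _ hrc)).trans
      ((add_le_add hz3 hr2).trans ?_))
    rw [← ENNReal.ofReal_add hKs1 hKs2]
    exact ENNReal.ofReal_le_ofReal hsum
  refine ⟨a, ha, v, z, r, hvd, hsol, hvc, hzc, hrc, ?_, fun k hk => ?_, ?_, hv', fun t => ?_, hzrM, hzrL,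
    hr2.trans (ENNReal.ofReal_le_ofReal ?_), fun k => ?_⟩
  · -- the norm of the datum
    have h1 : NW (Wa 0) (E0 q cc g + W0 c q cc η g lm N) ≤ ENNReal.ofReal (Z * y * N) := by
      have h2 := hv 0
      rw [hvd, v_init] at h2
      rw [add_comm]
      refine h2.trans (ENNReal.ofReal_le_ofReal ?_)
      simp only [max_self, mul_zero, neg_zero, Real.exp_zero, mul_one]
      exact mul_le_mul_of_nonneg_right hCZ hNp.le
    refine (NW_add_le _ _ _).trans ((add_le_add hV h1).trans ?_)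
    rw [← ENNReal.ofReal_add hFp.le (by positivity)]
  · refine (nk_W0 c g lm hN1 hk).trans ?_
    have e0 : nk η + nk q ≤ 2 * H := by linarith [hGB.ke, hGB.kq]
    exact mul_le_mul_of_nonneg_left e0 hNp.le
  · -- the norm in `L²`
    have mu : Measurable fun t => NW (Wa 0) (at' u t) := NW_meas _ hS.cf
    have mv : Measurable fun t => NW (Wa 0) (at' v t) := NW_meas _ hvc
    have hzrc : CF (z + r) := fun k => (hzc k).add (hrc k)
    have mr : Measurable fun t => NW (Wa 0) (at' (z + r) t) := NW_meas _ hzrc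
    have hσ : 0 < c * (N : ℝ) ^ 2 := by positivity
    have hLv : LN (fun t => NW (Wa 0) (at' v t)) ≤ ENNReal.ofReal (√(Z ^ 2 / (2 * c) * s)) := by
      refine (LN_mono (ψ := fun t => ENNReal.ofReal (C * N) * ENNReal.ofReal (Real.exp (-(c * N ^ 2 * max t 0))))
        fun t _ => ?_).trans ?_
      · rw [← ENNReal.ofReal_mul (by positivity)]
        exact hv t
      · rw [LN_const_mul _ (by fun_prop), LN_e hσ, ← ENNReal.ofReal_mul (by positivity)]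
        apply ENNReal.ofReal_le_ofReal
        apply Real.le_sqrt_of_sq_le
        rw [mul_pow, Real.sq_sqrt (by positivity)]
        have e1 : (C * N) ^ 2 * (1 / (2 * (c * (N : ℝ) ^ 2))) = C ^ 2 / (2 * c) := by field_simp
        rw [e1]
        calc C ^ 2 / (2 * c) ≤ Z ^ 2 * s / (2 * c) := div_le_div_of_nonneg_right hC2s (by positivity)
          _ = _ := by ring
    have hmix : ∫⁻ t in Ioi 0, NW (Wa 0) (at' u t) * NW (Wa 0) (at' v t) ≤ ENNReal.ofReal (s / 2) := by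
      calc ∫⁻ t in Ioi 0, NW (Wa 0) (at' u t) * NW (Wa 0) (at' v t)
          ≤ ∫⁻ t in Ioi 0, ENNReal.ofReal (C2 * F * (C * N)) * ENNReal.ofReal (Real.exp (-(c * N ^ 2 * max t 0))) := by
            refine lintegral_mono fun t => ?_
            rw [← ENNReal.ofReal_mul (by positivity), mul_assoc, ENNReal.ofReal_mul (p := C2 * F) (by positivity)]
            exact mul_le_mul' (hub t) (hv t)
        _ = ENNReal.ofReal (C2 * F * (C * N)) * ENNReal.ofReal (1 / (c * N ^ 2)) := by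
            rw [lintegral_const_mul' _ _ ENNReal.ofReal_ne_top, lint_e hσ]
        _ ≤ _ := by
            rw [← ENNReal.ofReal_mul (by positivity)]
            apply ENNReal.ofReal_le_ofReal
            have e1 : C2 * F * (C * N) * (1 / (c * (N : ℝ) ^ 2)) = C2 * C / c * (F / N) := by field_simp
            have e2 : F / N ≤ x := by rw [div_le_iff₀ hNp]; exact hFx
            rw [e1]
            calc C2 * C / c * (F / N) ≤ C2 * (Z * y) / c * x := by gcongr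
              _ = y / 2 * (2 * C2 * Z / c * x) := by ring
              _ ≤ y / 2 * y := mul_le_mul_of_nonneg_left (hbnd r5) (by positivity)
              _ = s / 2 := by rw [← hys]; ring
    have h1 := LN_add_sq mu mv hL0 (by positivity) (Real.sqrt_nonneg _) hLN hmix hLv
    rw [Real.sq_sqrt (by positivity)] at h1
    have h2 : LN (fun t => NW (Wa 0) (at' (u + v + (z + r)) t)) ≤
        LN (fun t => NW (Wa 0) (at' u t) + NW (Wa 0) (at' v t)) + LN (fun t => NW (Wa 0) (at' (z + r) t)) := by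
      refine (LN_mono fun t _ => ?_).trans (LN_add_le (mu.add mv) mr)
      exact (NW_add_le _ _ _).trans (add_le_add (NW_add_le _ _ _) le_rfl)
    refine h2.trans ((add_le_add h1 hzrL).trans ?_)
    obtain ⟨dd, hdd⟩ : ∃ dd, dd = K2 * (y * x) := ⟨_, rfl⟩
    rw [← hdd]
    have hdd0 : 0 ≤ dd := by rw [hdd]; positivity
    rw [← ENNReal.ofReal_add (Real.sqrt_nonneg _) hdd0]
    apply ENNReal.ofReal_le_ofReal
    apply Real.le_sqrt_of_sq_le
    obtain ⟨w, hw⟩ : ∃ w, w = √(L ^ 2 + 2 * (s / 2) + Z ^ 2 / (2 * c) * s) := ⟨_, rfl⟩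
    have hw0 : 0 ≤ w := by rw [hw]; exact Real.sqrt_nonneg _
    have hw2 : w ^ 2 = L ^ 2 + s + Z ^ 2 / (2 * c) * s := by
      rw [hw, Real.sq_sqrt (by positivity)]
      ring
    rw [← hw]
    have hzc' : 0 ≤ Z ^ 2 / (2 * c) := by positivity
    have i2 : Z ^ 2 / (2 * c) * s ≤ Z ^ 2 / (2 * c) := mul_le_of_le_one_right hzc' hs1
    have hwX : w ≤ X0 := by
      have h3 : w ^ 2 ≤ X0 ^ 2 := by
        rw [hw2, hX0]
        have j1 : L ^ 2 ≤ Lb ^ 2 := pow_le_pow_left₀ hL0 hLL 2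
        obtain ⟨zz, hzz⟩ : ∃ zz, zz = Z ^ 2 / (2 * c) := ⟨_, rfl⟩
        rw [← hzz] at hzc' i2 ⊢
        have j2 : (Lb + 1 + zz) ^ 2 = Lb ^ 2 + 1 + zz ^ 2 + 2 * Lb + 2 * (Lb * zz) + 2 * zz := by ring
        have j3 := mul_nonneg hLb hzc'
        have j4 := sq_nonneg zz
        rw [j2]
        linarith
      exact (pow_le_pow_iff_left₀ hw0 hX0p.le (by norm_num)).1 h3
    have hddy : (2 * X0 + 1) * dd ≤ s := by
      rw [hdd]
      calc (2 * X0 + 1) * (K2 * (y * x)) = y * ((2 * X0 + 1) * K2 * x) := by ring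
        _ ≤ y * y := mul_le_mul_of_nonneg_left (hbnd r6) hy0.le
        _ = s := by rw [← hys]; ring
    have hdd1 : dd ≤ 1 := by
      have : dd ≤ (2 * X0 + 1) * dd := le_mul_of_one_le_left hdd0 (by linarith)
      linarith
    have e6 : (w + dd) ^ 2 ≤ w ^ 2 + s := by
      have e7 : (w + dd) ^ 2 = w ^ 2 + (2 * w + dd) * dd := by ring
      have e8 : (2 * w + dd) * dd ≤ (2 * X0 + 1) * dd := mul_le_mul_of_nonneg_right (by linarith) hdd0
      linarith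
    refine e6.trans (le_of_eq ?_)
    rw [hw2]
    unfold Kv
    rw [← hZ]
    ring
  · refine (hz1 t).trans (ENNReal.ofReal_le_ofReal ?_)
    have e0 := Real.exp_pos (-(c / 16 * (N : ℝ) ^ 2 * max t 0))
    have e1 : Kz * (Mu * C) ≤ y * N := by
      calc Kz * (Mu * C) ≤ Kz * (((C2 + 1) * x * N) * (Z * y)) := by
            apply mul_le_mul_of_nonneg_left _ hKzp.le
            exact mul_le_mul hMux hCZ hCp.le (by positivity)
        _ = (Kz * ((C2 + 1) * Z) * x) * (y * N) := by ring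
        _ ≤ 1 * (y * N) := mul_le_mul_of_nonneg_right ((hbnd r4).trans hy1) (by positivity)
        _ = _ := one_mul _
    calc Kz * (Mu * C) * Real.exp (-(c / 16 * (N : ℝ) ^ 2 * max t 0))
        ≤ y * N * Real.exp (-(c / 16 * (N : ℝ) ^ 2 * max t 0)) := mul_le_mul_of_nonneg_right e1 e0.le
      _ = _ := by ring
  · refine hKY.trans ?_
    have : K1 * K' ≤ K2 := by rw [hK2]; linarith
    exact mul_le_mul_of_nonneg_right this hsx.le
  · exact (hnl k).trans (add_le_add le_rfl (ENNReal.ofReal_le_ofReal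
      (mul_le_mul_of_nonneg_left hsum (nk_nonneg k))))

end Pool.Agent.H356R3.NS.X
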