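import Pool.Agent.H3NY.R.Dens
import Pool.Agent.H3NY.X.SeqR2
import Pool.Agent.H3NY.X.StepR2

namespace Pool.Agent.H356R3.NS
end Pool.Agent.H356R3.NS
namespace Pool.Agent.H356R3.NS.H3
end Pool.Agent.H356R3.NS.H3
namespace Pool.Agent.H356R3.NS.X
end Pool.Agent.H356R3.NS.X
namespace Pool.Agent.H3NS
end Pool.Agent.H3NS
namespace H459R3.NS
end H459R3.NS

set_option autoImplicit false
set_option maxHeartbeats 8000000
set_option synthInstance.maxHeartbeats 400000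

/-!
Superposition of pieces with given amplitudes and frequencies: the state keeps the history of the construction.
-/

open MeasureTheory Set Filter Topology
open scoped ENNReal NNReal

namespace Pool.Agent.H356R3.NS.X

open Pool.Agent.H356R3.NS.H3

lemma CF_zero : CF (0 : Fam) := fun k => by
  show Continuous fun _ => (0 : C3)
  exact continuous_const

lemma norm_E0_real {q cc : K} (γ : ℂ) {s : ℝ} (hs : 0 ≤ s) (k : K) :
    ‖E0 q cc ((s : ℂ) * γ) k‖ = s * ‖E0 q cc γ k‖ := by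
  have e1 : E0 q cc ((s : ℂ) * γ) k = (s : ℂ) • E0 q cc γ k := by
    unfold E0 Sg
    simp only [Pi.add_apply, smul_add, smul_ite, smul_smul, smul_zero]
    have h2 : star ((s : ℂ) * γ) = (s : ℂ) * star γ := by
      rw [star_mul']
      have : star (s : ℂ) = s := by simp
      rw [this]
    rw [h2]
  rw [e1, norm_smul, Complex.norm_real, Real.norm_of_nonneg hs]

/-- bounds for late times -/
lemma late_exp {c dl Z : ℝ} (hc : 0 < c) (hdl : 0 < dl) (hZ : 0 < Z) {N : ℕ} (hN : 1 ≤ N) {y : ℝ} (hy0 : 0 ≤ y)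
    (hy1 : y ≤ 1) {v : Fam} (hv : ∀ t, NW (Wa 0) (at' v t) ≤
      ENNReal.ofReal (Z * y * (N * Real.exp (-(c * N ^ 2 * max t 0))))) :
    LNd dl v ≤ ENNReal.ofReal ((2 * (Z / √c * (2 / (c * dl))) + Z / (c * dl)) / N) ∧
    ∀ t, dl ≤ t → NW (Wm 0) (at' v t) ≤ ENNReal.ofReal ((2 * (Z / √c * (2 / (c * dl))) + Z / (c * dl)) / N) := by
  have hNr : (1 : ℝ) ≤ N := by exact_mod_cast hN
  have hNp : (0 : ℝ) < N := by linarith
  have hv' : ∀ t, NW (Wa 0) (at' v t) ≤ ENNReal.ofReal (Z * N * Real.exp (-(c * N ^ 2 * max t 0))) := by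
    intro t
    refine (hv t).trans (ENNReal.ofReal_le_ofReal ?_)
    have e0 := Real.exp_pos (-(c * (N : ℝ) ^ 2 * max t 0))
    calc Z * y * (N * Real.exp (-(c * N ^ 2 * max t 0))) ≤ Z * 1 * (N * Real.exp (-(c * N ^ 2 * max t 0))) := by
          gcongr
      _ = _ := by ring
  have hsc : 0 < √c := Real.sqrt_pos.2 hc
  have p1 : 0 < Z / √c * (2 / (c * dl)) := by positivity
  have p2 : 0 < Z / (c * dl) := by positivity
  constructor
  · refine (LNd_exp (B := Z * N) (σ := c * N ^ 2) (by positivity) (by positivity) hv').trans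
      (ENNReal.ofReal_le_ofReal ?_)
    have h1 := num_small (ee := 2 * (Z / √c * (2 / (c * dl)) / N)) hc hdl hZ.le hNr (by positivity) (by
      have : Z / √c * (2 / (c * dl)) / (2 * (Z / √c * (2 / (c * dl)) / N) / 2) = N := by
        field_simp
      exact this.le)
    refine h1.trans ?_
    have e1 : 2 * (Z / √c * (2 / (c * dl)) / N) / 2 = (Z / √c * (2 / (c * dl))) / N := by ring
    rw [e1]
    apply div_le_div_of_nonneg_right _ hNp.le
    linarith
  · intro t ht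
    refine (NW_mono Wm_le_Wa _).trans ((hv' t).trans (ENNReal.ofReal_le_ofReal ?_))
    have h4 : Real.exp (-(c * N ^ 2 * max t 0)) ≤ 1 / (c * N ^ 2 * dl) := by
      have h5 : c * N ^ 2 * dl ≤ c * N ^ 2 * max t 0 := by
        have := le_max_left t 0
        gcongr
        linarith
      have h6 := Real.add_one_le_exp (c * N ^ 2 * max t 0)
      rw [Real.exp_neg, inv_le_comm₀ (Real.exp_pos _) (by positivity), one_div, inv_inv]
      linarith
    calc Z * N * Real.exp (-(c * N ^ 2 * max t 0)) ≤ Z * N * (1 / (c * N ^ 2 * dl)) :=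
          mul_le_mul_of_nonneg_left h4 (by positivity)
      _ = Z / (c * dl) / N := by field_simp
      _ ≤ _ := by
          apply div_le_div_of_nonneg_right _ hNp.le
          linarith

/-- The state after `i` pieces. -/
structure GR (χ : ℝ → ℝ) (c r dl H L0 C2 K2 Kd : ℝ) (s x F : ℕ → ℝ) (N : ℕ → ℕ) (i : ℕ) (V : K → C3) (u : Fam)
    (β : K → ℝ) (X W : K → C3) : Prop where
  fin : (Function.support W).Finite
  z : W 0 = 0
  nks : ∀ k, W k ≠ 0 → nk k < N i / 2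
  low : ∀ k, (N i : ℝ) / 2 ≤ nk k → (V + (X + W)) k = 0
  small : crit r W ≤ ENNReal.ofReal (∑ j ∈ Finset.range i, (C5 c H * √(s j)) ^ r)
  div : ∀ k, dt k (W k) = 0
  sym : Sym W
  VA : NW (Wa 0) (V + (X + W)) ≤ ENNReal.ofReal (F i)
  good : ∃ a : ℝ, 0 < a ∧ ∃ u' : Fam, SolX χ c a (V + (X + W)) u' ∧
    LN (fun t => NW (Wa 0) (at' u' t)) ≤ ENNReal.ofReal (√(L0 ^ 2 + Kv c H * ∑ j ∈ Finset.range i, s j)) ∧
    (∀ k, ∫⁻ t in Ioi 0, ‖(Bx χ u' - Bx χ u) k t‖ₑ ≤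
      ENNReal.ofReal (β k + nk k * (K2 * ∑ j ∈ Finset.range i, √(s j) * x j))) ∧
    (∃ v r' E : Fam, CF v ∧ CF r' ∧ u' = u + v + r' ∧ v = Ht c W + E ∧ (∀ k t, ‖E k t‖ ≤ β k) ∧
      LNd dl v ≤ ENNReal.ofReal (∑ j ∈ Finset.range i, Kd / N j) ∧
      (∀ t, dl ≤ t → NW (Wm 0) (at' v t) ≤ ENNReal.ofReal (∑ j ∈ Finset.range i, Kd / N j)) ∧
      (∀ t, NW (Wm 0) (at' r' t) ≤ ENNReal.ofReal (K2 * ∑ j ∈ Finset.range i, √(s j) * x j)) ∧
      LN (fun t => NW (Wa 0) (at' r' t)) ≤ ENNReal.ofReal (K2 * ∑ j ∈ Finset.range i, √(s j) * x j)) ∧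
    ∀ k ≤ i, ∃ uk ρ : Fam, CF uk ∧ CF ρ ∧ (∀ t, NW (Wa 0) (at' uk t) ≤ ENNReal.ofReal (C2 * F k)) ∧
      LN (fun t => NW (Wa 0) (at' ρ t)) ≤ ENNReal.ofReal (K2 * ∑ j ∈ Finset.Ico k i, s j * x j) ∧
      ∀ t, 0 < t → NW (Wa 0) (at' (u' - uk - ρ) t) ≤
        ENNReal.ofReal (∑ j ∈ Finset.Ico k i, (C5 c H + 1) * √(s j) * (N j * Real.exp (-(c / 16 * N j ^ 2 * t))))

lemma gr_zero {χ : ℝ → ℝ} {c r dl H L0 C2 K2 Kd a0 : ℝ} {s x F : ℕ → ℝ} {N : ℕ → ℕ} (hr : 0 < r)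
    (hC2 : 0 ≤ C2) {V : K → C3}
    {u : Fam} (ha0 : 0 < a0) (hS : SolX χ c a0 V u) (hV : NW (Wa 0) V ≤ ENNReal.ofReal (F 0))
    (hsup : ∀ t, NW (Wa 0) (at' u t) ≤ ENNReal.ofReal C2 * NW (Wa 0) V)
    (hVl : ∀ k, (N 0 : ℝ) / 2 ≤ nk k → V k = 0)
    (hL0 : 0 ≤ L0) (hL : LN (fun t => NW (Wa 0) (at' u t)) ≤ ENNReal.ofReal L0) :
    GR χ c r dl H L0 C2 K2 Kd s x F N 0 V u (fun _ => 0) 0 0 := by
  have h0 : ∀ W : K → ℝ≥0∞, ∀ t, NW W (at' (0 : Fam) t) = 0 := fun W t => NW_zero _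
  have hL00 : LN (fun t => NW (Wa 0) (at' (0 : Fam) t)) = 0 := by
    unfold LN
    simp [h0]
  refine ⟨by simp, rfl, fun k hk => absurd rfl hk, fun k hk => by rw [add_zero, add_zero]; exact hVl k hk,
    by rw [crit_zero hr]; exact zero_le, fun k => by simp [dt],
    fun k i => by simp, by rw [add_zero, add_zero]; exact hV, a0, ha0, u, ?_, ?_, fun k => ?_,
    ⟨0, 0, 0, CF_zero, CF_zero, by rw [add_zero, add_zero], ?_, fun k t => by simp, ?_, fun t _ => ?_, fun t => ?_,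
      ?_⟩, fun k hk => ?_⟩
  · rw [add_zero, add_zero]; exact hS
  · simp only [Finset.range_zero, Finset.sum_empty, mul_zero, add_zero]
    rw [Real.sqrt_sq hL0]
    exact hL
  · rw [sub_self]
    simp
  · funext k t
    simp [Ht]
  · have : LNd dl (0 : Fam) = 0 := by
      unfold LNd LN
      simp [h0]
    rw [this]; exact zero_le
  · rw [h0]; exact zero_le
  · rw [h0]; exact zero_le
  · rw [hL00]; exact zero_le
  · have hk0 : k = 0 := by omega
    subst hk0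
    refine ⟨u, 0, hS.cf, CF_zero, fun t => ?_, ?_, fun t _ => ?_⟩
    · rw [ENNReal.ofReal_mul hC2]
      exact (hsup t).trans (mul_le_mul' le_rfl hV)
    · rw [hL00]; exact zero_le
    · have : u - u - 0 = (0 : Fam) := by rw [sub_self, sub_zero]
      rw [this, h0]; exact zero_le

lemma gr_add {χ : ℝ → ℝ} {h : ℝ} (hχ : CutH χ h) {c H Lb C2 : ℝ} (hc : 0 < c) (hH : 1 ≤ H) (hLb : 0 ≤ Lb)
    (hC2 : 1 ≤ C2) (hsup : ∀ a : ℝ, 0 < a → ∀ (V : K → C3) (u : Fam), SolX χ c a V u →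
      LN (fun t => NW (Wa 0) (at' u t)) ≤ ENNReal.ofReal Lb →
      ∀ t, NW (Wa 0) (at' u t) ≤ ENNReal.ofReal C2 * NW (Wa 0) V) :
    ∃ K2 K3 : ℝ, 1 ≤ K2 ∧ 1 ≤ K3 ∧ ∀ {r dl : ℝ}, 1 ≤ r → 0 < dl →
      ∀ {s x F : ℕ → ℝ} {N : ℕ → ℕ}, SeqC H K3 (C5 c H) s x F N →
      ∀ {q cc η : K} {γ : ℂ} {V X : K → C3} {u : Fam} {β : K → ℝ} {L0 : ℝ} {i : ℕ}, CF u → GB H q cc η γ →
      L0 ^ 2 + Kv c H * ∑ j ∈ Finset.range (i + 1), s j ≤ Lb ^ 2 →
      (∃ W, GR χ c r dl H L0 C2 K2 (2 * (C5 c H / √c * (2 / (c * dl))) + C5 c H / (c * dl)) s x F N i V u β X W) →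
      ∃ W, GR χ c r dl H L0 C2 K2 (2 * (C5 c H / √c * (2 / (c * dl))) + C5 c H / (c * dl)) s x F N (i + 1) V u
        (fun k => β k + ‖E0 q cc ((s i : ℂ) * γ) k‖) (X + E0 q cc ((s i : ℂ) * γ)) W := by
  obtain ⟨K2, K3, hK2, hK3, hstep⟩ := stepR2 hχ hc hH hLb hC2 hsup
  refine ⟨K2, K3, hK2, hK3, ?_⟩
  intro r dl hr hdl s x F N hQ q cc η γ V X u β L0 i hu hGB hLi hW
  obtain ⟨Kd, hKd⟩ : ∃ Kd, Kd = 2 * (C5 c H / √c * (2 / (c * dl))) + C5 c H / (c * dl) := ⟨_, rfl⟩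
  rw [← hKd] at hW ⊢
  obtain ⟨W, hW⟩ := hW
  obtain ⟨a, ha, u', hu', hL, hnl, ⟨v, r1, E, hvc, hrc, huv, hvW, hE, g1, g3, g4, g5⟩, hist⟩ := hW.good
  have hG : Geo q cc η := hGB.toGeo
  have hZ : 0 < C5 c H := C5_pos hc hH
  have hKv : 0 < Kv c H := Kv_pos hc
  have hs := hQ.s0 i
  have hs1 := hQ.s1 i
  have hys : 0 < √(s i) := Real.sqrt_pos.2 hs
  have hys1 : √(s i) ≤ 1 := Real.sqrt_le_one.2 hs1
  have hNH := hQ.NH i
  have hNr : (1 : ℝ) ≤ N i := by linarith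
  have hN1 : 1 ≤ N i := by exact_mod_cast hNr
  have hNp : (0 : ℝ) < N i := by linarith
  have hx0 : ∀ j, 0 < x j := fun j => by
    have h1 := hQ.Fx j
    have h2 := hQ.F1 j
    have h3 := hQ.NH j
    have h4 : (0 : ℝ) < N j := by linarith
    by_contra hcon
    push Not at hcon
    have : x j * N j ≤ 0 := mul_nonpos_of_nonpos_of_nonneg hcon h4.le
    linarith
  have hNj : ∀ j, (0 : ℝ) < N j := fun j => by have := hQ.NH j; linarith
  have hS0 : 0 ≤ ∑ j ∈ Finset.range i, s j := Finset.sum_nonneg fun j _ => (hQ.s0 j).le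
  obtain ⟨L, hLd⟩ : ∃ L, L = √(L0 ^ 2 + Kv c H * ∑ j ∈ Finset.range i, s j) := ⟨_, rfl⟩
  have hLsq : L ^ 2 = L0 ^ 2 + Kv c H * ∑ j ∈ Finset.range i, s j := by rw [hLd, Real.sq_sqrt (by positivity)]
  have hL0' : 0 ≤ L := by rw [hLd]; exact Real.sqrt_nonneg _
  have hLL : L ≤ Lb := by
    rw [hLd, Real.sqrt_le_left hLb]
    refine le_trans ?_ hLi
    rw [Finset.sum_range_succ]
    have : 0 ≤ Kv c H * s i := by positivity
    nlinarith
  rw [← hLd] at hL
  obtain ⟨a', ha', v2, z2, r2, hv2, hsol, hv2c, hz2c, hr2c, hVA, hnk, hLN2, k1, k2, k3, k4, k5, k6⟩ :=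
    hstep hGB hs hs1 ha hu' hW.VA (hQ.F1 i) (hQ.Fx i) (hQ.Kx i) hN1 hW.low hL0' hLL hL
  obtain ⟨l1, l2⟩ := late_exp hc hdl hZ hN1 hys.le hys1 k1
  rw [← hKd] at l1 l2
  obtain ⟨w, hw⟩ : ∃ w, w = W0 c q cc η ((s i : ℂ) * γ) (nk η * √(s i)) (N i) := ⟨_, rfl⟩
  obtain ⟨E1, hE1⟩ : ∃ E1, E1 = E0 q cc ((s i : ℂ) * γ) := ⟨_, rfl⟩
  rw [← hw] at hsol hVA hnk
  rw [← hE1] at hsol hVA k6
  rw [← hE1]
  have hNN := hQ.NN i
  have hH0 : 0 < H := by linarith
  have hN2 : (N i : ℝ) / 2 ≤ (N (i + 1) : ℝ) / 2 := by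
    have : (N i : ℝ) ≤ 4 * H * N i := le_mul_of_one_le_left hNp.le (by linarith)
    linarith
  -- a dyadic scale between the supports
  obtain ⟨J, hJ1, hJ2⟩ : ∃ J : ℕ, (N i : ℝ) / 2 < 2 ^ J ∧ (2 : ℝ) ^ J ≤ N i := by
    refine ⟨Nat.log 2 (N i), ?_, ?_⟩
    · have h1 : N i < 2 ^ (Nat.log 2 (N i) + 1) := Nat.lt_pow_succ_log_self (by norm_num) (N i)
      have h2 : (N i : ℝ) < 2 ^ (Nat.log 2 (N i) + 1) := by exact_mod_cast h1
      rw [pow_succ] at h2
      linarith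
    · have h1 : 2 ^ Nat.log 2 (N i) ≤ N i := Nat.pow_log_le_self 2 (by omega)
      exact_mod_cast h1
  have hJW : ∀ k, (4 : ℝ) ^ J ≤ sq k → W k = 0 := by
    intro k hk
    by_contra hne
    have h1 := hW.nks k hne
    have h2 : (2 : ℝ) ^ J ≤ nk k := by
      unfold nk
      apply Real.le_sqrt_of_sq_le
      calc ((2 : ℝ) ^ J) ^ 2 = 4 ^ J := by rw [← pow_mul, mul_comm, pow_mul]; norm_num
        _ ≤ _ := hk
    linarith
  have hNJ : (4 : ℝ) ^ J ≤ (N i : ℝ) ^ 2 := by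
    calc (4 : ℝ) ^ J = (2 ^ J) ^ 2 := by rw [← pow_mul, mul_comm, pow_mul]; norm_num
      _ ≤ _ := pow_le_pow_left₀ (by positivity) hJ2 2
  have hwsupp : ∀ k, w k ≠ 0 → nk k < (N (i + 1) : ℝ) / 2 := by
    intro k hk
    have h1 := hnk k hk
    have h2 : (N i : ℝ) * (2 * H) = 4 * H * N i / 2 := by ring
    linarith
  have hE1supp : ∀ k, (N (i + 1) : ℝ) / 2 ≤ nk k → E1 k = 0 := by
    intro k hk
    have hkq : nk q < nk k := by
      have := hGB.kq
      have := hQ.NH (i + 1)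
      linarith
    have n1 : k ≠ q := fun h => by rw [h] at hkq; exact lt_irrefl _ hkq
    have n2 : k ≠ -q := fun h => by
      rw [h] at hkq
      have : nk (-q) = nk q := by unfold nk sq; simp
      rw [this] at hkq
      exact lt_irrefl _ hkq
    rw [hE1]
    simp [E0, Sg, n1, n2]
  have eV : V + (X + W) + (E1 + w) = V + (X + E1 + (W + w)) := by abel
  rw [eV] at hsol hVA
  have eu : u' + v2 + (z2 + r2) = u + (v + v2) + (r1 + (z2 + r2)) := by rw [huv]; abel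
  have hu2 : ∃ u2, u2 = u' + v2 + (z2 + r2) := ⟨_, rfl⟩
  obtain ⟨u2, hu2⟩ := hu2
  rw [← hu2] at hsol hLN2 k6
  have hzrc : CF (z2 + r2) := fun k => (hz2c k).add (hr2c k)
  have hSx0 : 0 ≤ ∑ j ∈ Finset.range i, √(s j) * x j :=
    Finset.sum_nonneg fun j _ => mul_nonneg (Real.sqrt_nonneg _) (hx0 j).le
  have hyx0 : 0 ≤ √(s i) * x i := mul_nonneg hys.le (hx0 i).le
  have hKd0 : 0 ≤ Kd := by rw [hKd]; positivity
  have hSd0 : 0 ≤ ∑ j ∈ Finset.range i, Kd / N j := Finset.sum_nonneg fun j _ => div_nonneg hKd0 (hNj j).le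
  have hd0 : 0 ≤ Kd / N i := by positivity
  have hK20 : 0 < K2 := by linarith
  have eSx : K2 * ∑ j ∈ Finset.range (i + 1), √(s j) * x j
      = K2 * (∑ j ∈ Finset.range i, √(s j) * x j) + K2 * (√(s i) * x i) := by
    rw [Finset.sum_range_succ, mul_add]
  have hA0 : 0 ≤ K2 * ∑ j ∈ Finset.range i, √(s j) * x j := mul_nonneg hK20.le hSx0
  have hB0 : 0 ≤ K2 * (√(s i) * x i) := mul_nonneg hK20.le hyx0
  have hLb2 : LN (fun t => NW (Wa 0) (at' u2 t)) ≤ ENNReal.ofReal Lb := by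
    refine hLN2.trans (ENNReal.ofReal_le_ofReal ?_)
    rw [Real.sqrt_le_left hLb]
    refine le_trans (le_of_eq ?_) hLi
    rw [hLsq, Finset.sum_range_succ]
    ring
  have hFnew : F i + C5 c H * √(s i) * N i ≤ F (i + 1) := hQ.FF i
  have hVA' := hVA.trans (ENNReal.ofReal_le_ofReal hFnew)
  refine ⟨W + w, supp_add hW.fin (by rw [hw]; exact W0_fin c _ _ (N i)), ?_, fun k hk => ?_, fun k hk => ?_, ?_,
    fun k => ?_, hW.sym.add (by rw [hw]; exact W0_sym c q cc η _ _ (N i)), hVA', a', ha', u2, hsol, ?_,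
    fun k => ?_, ⟨v + v2, r1 + (z2 + r2), E + IF c q cc η ((s i : ℂ) * γ) (N i), fun k => (hvc k).add (hv2c k),
    fun k => (hrc k).add (hzrc k), by rw [hu2, eu], ?_, fun k t => ?_, ?_, fun t ht => ?_, fun t => ?_, ?_⟩,
    fun k hk => ?_⟩
  · rw [Pi.add_apply, hW.z, zero_add, hw]
    apply W0_cut' hG
    have : sq (0 : K) = 0 := by simp [sq]
    rw [this]
    positivity
  · rw [Pi.add_apply] at hk
    by_cases h1 : W k = 0
    · rw [h1, zero_add] at hk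
      exact hwsupp k hk
    · exact (hW.nks k h1).trans_le hN2
  · rw [← eV, Pi.add_apply, hW.low k (hN2.trans hk), zero_add, Pi.add_apply, hE1supp k hk, zero_add]
    by_contra h1
    exact absurd (hwsupp k h1) (not_lt.2 hk)
  · have h5 := W0_critE hc hys hG ((s i : ℂ) * γ) hr hN1
    rw [← hw] at h5
    have h6 := piece_leR hc hH hGB hs
    have hp0 : ∀ j, 0 ≤ (C5 c H * √(s j)) ^ r := fun j =>
      Real.rpow_nonneg (mul_nonneg hZ.le (Real.sqrt_nonneg _)) _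
    rw [crit_add (by linarith) hJW fun k hk => by rw [hw]; exact W0_cut' hG c _ _ (hk.trans_le hNJ),
      Finset.sum_range_succ, ENNReal.ofReal_add (Finset.sum_nonneg fun j _ => hp0 j) (hp0 i)]
    refine add_le_add hW.small (h5.trans (ENNReal.ofReal_le_ofReal ?_))
    have hpi := Real.pi_pos
    have := sq_pos hG.hq
    exact Real.rpow_le_rpow (by positivity) h6 (by linarith)
  · rw [Pi.add_apply, dt_add, hW.div, hw, W0_div hG, add_zero]
  · refine hLN2.trans (ENNReal.ofReal_le_ofReal (le_of_eq ?_))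
    rw [hLsq, Finset.sum_range_succ]
    congr 1
    ring
  · -- the nonlinear term
    have e0 : Bx χ u2 - Bx χ u = (Bx χ u2 - Bx χ u') + (Bx χ u' - Bx χ u) := by abel
    have hβ0 : 0 ≤ β k := (norm_nonneg _).trans (hE k 0)
    have hnk0 := nk_nonneg k
    have c1 : CF (Bx χ u2 - Bx χ u') :=
      CF.sub' (Bx_cont hχ.toCutT hsol.cf (SolX.dom' ha' hsol)) (Bx_cont hχ.toCutT hu'.cf (SolX.dom' ha hu'))
    calc ∫⁻ t in Ioi 0, ‖(Bx χ u2 - Bx χ u) k t‖ₑ
        ≤ ∫⁻ t in Ioi 0, (‖(Bx χ u2 - Bx χ u') k t‖ₑ + ‖(Bx χ u' - Bx χ u) k t‖ₑ) := by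
          refine lintegral_mono fun t => ?_
          rw [e0]
          exact enorm_add_le _ _
      _ = (∫⁻ t in Ioi 0, ‖(Bx χ u2 - Bx χ u') k t‖ₑ) + ∫⁻ t in Ioi 0, ‖(Bx χ u' - Bx χ u) k t‖ₑ :=
          lintegral_add_left (c1 k).measurable.enorm _
      _ ≤ (‖E1 k‖ₑ + ENNReal.ofReal (nk k * (K2 * (√(s i) * x i))))
            + ENNReal.ofReal (β k + nk k * (K2 * ∑ j ∈ Finset.range i, √(s j) * x j)) :=
          add_le_add (k6 k) (hnl k)
      _ = _ := by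
          rw [← ofReal_norm, ← ENNReal.ofReal_add (norm_nonneg _) (mul_nonneg hnk0 hB0),
            ← ENNReal.ofReal_add (add_nonneg (norm_nonneg _) (mul_nonneg hnk0 hB0))
              (add_nonneg hβ0 (mul_nonneg hnk0 hA0)), eSx]
          congr 1
          ring
  · -- the splitting
    rw [hvW, hv2, hw]
    funext k t
    show (Ht c W k t + E k t) + (wF c q cc η ((s i : ℂ) * γ) (nk η * √(s i)) (N i) k t
        + IF c q cc η ((s i : ℂ) * γ) (N i) k t)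
      = Real.exp (-(c * sq k * max t 0)) • (W k + W0 c q cc η ((s i : ℂ) * γ) (nk η * √(s i)) (N i) k)
        + (E k t + IF c q cc η ((s i : ℂ) * γ) (N i) k t)
    rw [w_init, smul_add]
    show (Real.exp (-(c * sq k * max t 0)) • W k + E k t) + _ = _
    abel
  · refine (norm_add_le _ _).trans (add_le_add (hE k t) ?_)
    have hmu : 0 ≤ muF c q η (N i) := by
      have h5 : 0 ≤ c * sq ((N i : ℤ) • η) := mul_nonneg hc.le (sq_nonneg' _)
      have h6 : 0 ≤ c * sq ((N i : ℤ) • η + q) := mul_nonneg hc.le (sq_nonneg' _)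
      unfold muF
      linarith
    rw [IF_eq, norm_smul, Real.norm_of_nonneg (Real.exp_pos _).le, hE1]
    apply mul_le_of_le_one_left (norm_nonneg _)
    rw [Real.exp_le_one_iff]
    have := mul_nonneg hmu (le_max_right t 0)
    linarith
  · rw [Finset.sum_range_succ, ENNReal.ofReal_add hSd0 hd0]
    exact (LNd_add hvc hv2c).trans (add_le_add g1 l1)
  · rw [Finset.sum_range_succ, ENNReal.ofReal_add hSd0 hd0]
    exact (NW_add_le _ _ _).trans (add_le_add (g3 t ht) (l2 t ht))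
  · rw [eSx, ENNReal.ofReal_add hA0 hB0]
    exact (NW_add_le _ _ _).trans (add_le_add (g4 t) (k3 t))
  · rw [eSx, ENNReal.ofReal_add hA0 hB0]
    refine (LN_mono fun t _ => NW_add_le _ _ _).trans ((LN_add_le (NW_meas _ hrc) (NW_meas _ hzrc)).trans
      (add_le_add g5 k4))
  · rcases Nat.lt_or_ge i k with hik | hik
    · -- the new state
      have hki : k = i + 1 := by omega
      subst hki
      have hL00 : LN (fun t => NW (Wa 0) (at' (0 : Fam) t)) = 0 := by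
        have h0 : ∀ W : K → ℝ≥0∞, ∀ t, NW W (at' (0 : Fam) t) = 0 := fun W t => NW_zero _
        unfold LN
        simp [h0]
      refine ⟨u2, 0, hsol.cf, CF_zero, fun t => ?_, ?_, fun t _ => ?_⟩
      · rw [ENNReal.ofReal_mul (by linarith)]
        exact (hsup a' ha' _ _ hsol hLb2 t).trans (mul_le_mul' le_rfl hVA')
      · rw [hL00]; exact zero_le
      · have : u2 - u2 - 0 = (0 : Fam) := by rw [sub_self, sub_zero]
        have h0 : NW (Wa 0) (at' (0 : Fam) t) = 0 := NW_zero _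
        rw [this, h0]; exact zero_le
    · obtain ⟨uk, ρ, b1, b2, b3, b4, b5⟩ := hist k hik
      have hIx0 : 0 ≤ ∑ j ∈ Finset.Ico k i, s j * x j :=
        Finset.sum_nonneg fun j _ => mul_nonneg (hQ.s0 j).le (hx0 j).le
      refine ⟨uk, ρ + r2, b1, fun k => (b2 k).add (hr2c k), b3, ?_, fun t ht => ?_⟩
      · rw [Finset.sum_Ico_succ_top hik, mul_add, ENNReal.ofReal_add (mul_nonneg hK20.le hIx0)
          (mul_nonneg hK20.le (mul_nonneg hs.le (hx0 i).le))]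
        exact (LN_mono fun t _ => NW_add_le _ _ _).trans ((LN_add_le (NW_meas _ b2) (NW_meas _ hr2c)).trans
          (add_le_add b4 k5))
      · have e1 : u2 - uk - (ρ + r2) = (u' - uk - ρ) + (v2 + z2) := by rw [hu2]; abel
        have hterm : ∀ j, 0 ≤ (C5 c H + 1) * √(s j) * (N j * Real.exp (-(c / 16 * N j ^ 2 * t))) := fun j => by
          have := hNj j
          have := Real.exp_pos (-(c / 16 * (N j : ℝ) ^ 2 * t))
          have := Real.sqrt_nonneg (s j)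
          positivity
        rw [e1, Finset.sum_Ico_succ_top hik, ENNReal.ofReal_add (Finset.sum_nonneg fun j _ => hterm j) (hterm i)]
        refine (NW_add_le _ _ _).trans (add_le_add (b5 t ht) ?_)
        refine (NW_add_le _ _ _).trans ((add_le_add (k1 t) (k2 t)).trans ?_)
        rw [max_eq_left ht.le]
        obtain ⟨e2, he2⟩ : ∃ e2, e2 = Real.exp (-(c / 16 * (N i : ℝ) ^ 2 * t)) := ⟨_, rfl⟩
        have he2p : 0 < e2 := by rw [he2]; exact Real.exp_pos _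
        have he1 : Real.exp (-(c * (N i : ℝ) ^ 2 * t)) ≤ e2 := by
          rw [he2]
          apply Real.exp_le_exp.2
          have : 0 ≤ c * (N i : ℝ) ^ 2 * t := by positivity
          have e3 : c / 16 * (N i : ℝ) ^ 2 * t = (c * (N i : ℝ) ^ 2 * t) / 16 := by ring
          rw [e3]
          linarith
        rw [← he2, ← ENNReal.ofReal_add
          (mul_nonneg (mul_nonneg hZ.le hys.le) (mul_nonneg hNp.le (Real.exp_pos _).le))
          (mul_nonneg hys.le (mul_nonneg hNp.le he2p.le))]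
        apply ENNReal.ofReal_le_ofReal
        have h7 : C5 c H * √(s i) * (N i * Real.exp (-(c * (N i : ℝ) ^ 2 * t)))
            ≤ C5 c H * √(s i) * (N i * e2) :=
          mul_le_mul_of_nonneg_left (mul_le_mul_of_nonneg_left he1 hNp.le) (mul_nonneg hZ.le hys.le)
        have h8 : (C5 c H + 1) * √(s i) * (N i * e2) = C5 c H * √(s i) * (N i * e2) + √(s i) * (N i * e2) := by
          ring
        linarith

end Pool.Agent.H356R3.NS.X
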