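import Pool.Agent.H3NY.R.Dens4
import Pool.Agent.H3NY.X.GenR

namespace Pool.Agent.H356R3.NS
end Pool.Agent.H356R3.NS
namespace Pool.Agent.H356R3.NS.H3
end Pool.Agent.H356R3.NS.H3
namespace Pool.Agent.H356R3.NS.X
end Pool.Agent.H356R3.NS.X
namespace Pool.Agent.H3NS
end Pool.Agent.H3NS
namespace H459R3.NS
end H459R3.NS

set_option autoImplicit false
set_option maxHeartbeats 8000000
set_option synthInstance.maxHeartbeats 400000

open MeasureTheory Set Filter Topology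
open scoped ENNReal NNReal

namespace Pool.Agent.H356R3.NS.X

open Pool.Agent.H356R3.NS.H3

lemma GR.mono {χ : ℝ → ℝ} {c r dl H L0 C2 K2 Kd : ℝ} {s x F : ℕ → ℝ} {N : ℕ → ℕ} {i : ℕ} {V : K → C3} {u : Fam}
    {β β' : K → ℝ} {X W : K → C3} (hβ : ∀ k, β k ≤ β' k) (h : GR χ c r dl H L0 C2 K2 Kd s x F N i V u β X W) :
    GR χ c r dl H L0 C2 K2 Kd s x F N i V u β' X W := by
  refine ⟨h.fin, h.z, h.nks, h.low, h.small, h.div, h.sym, h.VA, ?_⟩
  obtain ⟨a, ha, u', hu', hL, hnl, ⟨v, r1, E, hvc, hrc, huv, hvW, hE, g⟩, hist⟩ := h.good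
  exact ⟨a, ha, u', hu', hL, fun k => (hnl k).trans (ENNReal.ofReal_le_ofReal (add_le_add (hβ k) le_rfl)),
    ⟨v, r1, E, hvc, hrc, huv, hvW, fun k t => (hE k t).trans (hβ k), g⟩, hist⟩

/-- The property that a piece can be added. -/
def AddR (χ : ℝ → ℝ) (c r dl H Lb C2 K2 Kd : ℝ) (s x F : ℕ → ℝ) (N : ℕ → ℕ) : Prop :=
  ∀ (q cc η : K) (γ : ℂ) (V X : K → C3) (u : Fam) (β : K → ℝ) (L0 : ℝ) (i : ℕ), CF u → GB H q cc η γ →
      L0 ^ 2 + Kv c H * ∑ j ∈ Finset.range (i + 1), s j ≤ Lb ^ 2 →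
      (∃ W, GR χ c r dl H L0 C2 K2 Kd s x F N i V u β X W) →
      ∃ W, GR χ c r dl H L0 C2 K2 Kd s x F N (i + 1) V u
        (fun k => β k + ‖E0 q cc ((s i : ℂ) * γ) k‖) (X + E0 q cc ((s i : ℂ) * γ)) W

lemma gr_iter {χ : ℝ → ℝ} {c r dl H Lb C2 K2 Kd : ℝ} {s x F : ℕ → ℝ} {N : ℕ → ℕ}
    (hA : AddR χ c r dl H Lb C2 K2 Kd s x F N) (hKv : 0 < Kv c H) (hs : ∀ j, 0 < s j)
    {q cc η : K} {γ : ℂ} {V X : K → C3} {u : Fam} {β : K → ℝ} {L0 : ℝ} {i0 i : ℕ} (hi : i0 ≤ i)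
    (hu : CF u) (hGB : GB H q cc η γ) (hLi : L0 ^ 2 + Kv c H * ∑ j ∈ Finset.range i, s j ≤ Lb ^ 2)
    (hW : ∃ W, GR χ c r dl H L0 C2 K2 Kd s x F N i0 V u β X W) :
    ∃ W, GR χ c r dl H L0 C2 K2 Kd s x F N i V u
      (fun k => β k + (∑ j ∈ Finset.Ico i0 i, s j) * ‖E0 q cc γ k‖)
      (X + E0 q cc (((∑ j ∈ Finset.Ico i0 i, s j : ℝ) : ℂ) * γ)) W := by
  induction i, hi using Nat.le_induction with
  | base =>
    simpa [E0_zero] using hW
  | succ i hi ih =>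
    have hLj : L0 ^ 2 + Kv c H * ∑ j ∈ Finset.range i, s j ≤ Lb ^ 2 := by
      refine le_trans ?_ hLi
      rw [Finset.sum_range_succ]
      have := hs i
      nlinarith
    have h2 := hA q cc η γ V _ u _ L0 i hu hGB hLi (ih hLj)
    have e1 : X + E0 q cc (((∑ j ∈ Finset.Ico i0 i, s j : ℝ) : ℂ) * γ) + E0 q cc ((s i : ℂ) * γ)
        = X + E0 q cc (((∑ j ∈ Finset.Ico i0 (i + 1), s j : ℝ) : ℂ) * γ) := by
      rw [add_assoc, ← E0_add, Finset.sum_Ico_succ_top hi]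
      congr 2
      push_cast
      ring
    have e3 : (fun k => β k + (∑ j ∈ Finset.Ico i0 i, s j) * ‖E0 q cc γ k‖ + ‖E0 q cc ((s i : ℂ) * γ) k‖)
        = fun k => β k + (∑ j ∈ Finset.Ico i0 (i + 1), s j) * ‖E0 q cc γ k‖ := by
      funext k
      rw [norm_E0_real γ (hs i).le, Finset.sum_Ico_succ_top hi]
      ring
    rw [e1, e3] at h2
    exact h2

lemma gr_piece {χ : ℝ → ℝ} {c r dl H Lb C2 K2 Kd : ℝ} {s x F : ℕ → ℝ} {N : ℕ → ℕ}
    (hA : AddR χ c r dl H Lb C2 K2 Kd s x F N) (hKv : 0 < Kv c H) (hs : ∀ j, 0 < s j)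
    {q cc η : K} {γ : ℂ} {V X : K → C3} {u : Fam} {β : K → ℝ} {L0 : ℝ} {mm : ℕ → ℕ} (h0 : mm 0 = 0)
    (h1 : ∀ p, mm p ≤ mm (p + 1)) (h2 : ∀ p, ∑ j ∈ Finset.Ico (mm p) (mm (p + 1)), s j = 1) {p : ℕ}
    (hu : CF u) (hGB : GB H q cc η γ) (hLi : L0 ^ 2 + (p + 1) * Kv c H ≤ Lb ^ 2)
    (hW : ∃ W, GR χ c r dl H L0 C2 K2 Kd s x F N (mm p) V u β X W) :
    ∃ W, GR χ c r dl H L0 C2 K2 Kd s x F N (mm (p + 1)) V u
      (fun k => β k + ‖E0 q cc γ k‖) (X + E0 q cc γ) W := by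
  have h3 := gr_iter hA hKv hs (h1 p) hu hGB (by
    rw [sum_blocks h0 h1 h2 (p + 1)]
    push_cast
    linarith) hW
  rw [h2 p] at h3
  simpa using h3

theorem gr_target {χ : ℝ → ℝ} {h : ℝ} (hχ : CutH χ h) {c r a0 : ℝ} (hc : 0 < c) (hr : 1 ≤ r)
    {V : K → C3} {u : Fam} (ha0 : 0 < a0) (hS : SolX χ c a0 V u) (hVfin : (Function.support V).Finite)
    {V0 : K → C3} (hfin : (Function.support V0).Finite) (h0 : V0 0 = 0) (hdiv : ∀ k, dt k (V0 k) = 0)
    (hsym : Sym V0) {L0 : ℝ} (hL0 : 0 ≤ L0) (hL : LN (fun t => NW (Wa 0) (at' u t)) ≤ ENNReal.ofReal L0)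
    :
    ∃ (H : ℝ) (m : ℕ) (Lb : ℝ), 1 ≤ H ∧ 0 ≤ Lb ∧ L0 ^ 2 + m * Kv c H ≤ Lb ^ 2 ∧ ∀ C2 : ℝ, 1 ≤ C2 →
      (∀ a : ℝ, 0 < a → ∀ (V : K → C3) (u : Fam), SolX χ c a V u →
      LN (fun t => NW (Wa 0) (at' u t)) ≤ ENNReal.ofReal Lb →
      ∀ t, NW (Wa 0) (at' u t) ≤ ENNReal.ofReal C2 * NW (Wa 0) V) →
      ∃ K2 K3 : ℝ, 1 ≤ K2 ∧ 1 ≤ K3 ∧ ∀ dl, 0 < dl → ∀ (s x F : ℕ → ℝ) (N mm : ℕ → ℕ),
        SeqC H K3 (C5 c H) s x F N → mm 0 = 0 → (∀ p, mm p ≤ mm (p + 1)) →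
        (∀ p, ∑ j ∈ Finset.Ico (mm p) (mm (p + 1)), s j = 1) → NW (Wa 0) V ≤ ENNReal.ofReal (F 0) →
        ∃ W, GR χ c r dl H L0 C2 K2 (2 * (C5 c H / √c * (2 / (c * dl))) + C5 c H / (c * dl)) s x F N (mm m) V u
          (fun k => 4 * ‖V0 k‖) V0 W := by
  classical
  have hu := hS.cf
  have hP' : ∀ q : K, ∃ (d : K) (γ1 γ2 : ℂ), q ≠ 0 → d ≠ 0 ∧ ip q d = 0 ∧
      (1 / 2 : ℂ) • V0 q = γ1 • cK d + γ2 • cK (crs q d) := by
    intro q
    by_cases hq : q = 0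
    · exact ⟨0, 0, 0, fun h => absurd hq h⟩
    · obtain ⟨d, hd, hqd⟩ := exists_perp hq
      have hv : dt q ((1 / 2 : ℂ) • V0 q) = 0 := by rw [dt_smul', hdiv, mul_zero]
      obtain ⟨γ1, γ2, h⟩ := decomp hq hd hqd hv
      exact ⟨d, γ1, γ2, fun _ => ⟨hd, hqd, h⟩⟩
  choose d γ1 γ2 hP' using hP'
  set PP : K → K → C3 := fun q => E0 q (d q) (γ1 q) + E0 q (crs q (d q)) (γ2 q)
  set Q : K → K → ℝ := fun q k => ‖E0 q (d q) (γ1 q) k‖ + ‖E0 q (crs q (d q)) (γ2 q) k‖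
  set S := hfin.toFinset
  have hS0 : ∀ q ∈ S, q ≠ 0 := by
    intro q hq h
    rw [Set.Finite.mem_toFinset, Function.mem_support, h] at hq
    exact hq h0
  -- the size of the data
  set hs : K → ℝ := fun q => ‖cK q‖ + ‖cK (d q)‖ + ‖cK (crs q (d q))‖ + ‖γ1 q‖ + ‖γ2 q‖ + sq (crs q (d q))
    + sq (crs q (crs q (d q))) + nk (crs q (d q)) + nk (crs q (crs q (d q))) + nk q
  have hs0 : ∀ q, 0 ≤ hs q := fun q => by
    have a1 := sq_nonneg' (crs q (d q))
    have a2 := sq_nonneg' (crs q (crs q (d q)))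
    have a3 := nk_nonneg (crs q (d q))
    have a4 := nk_nonneg (crs q (crs q (d q)))
    have a5 := nk_nonneg q
    simp only [hs]
    positivity
  obtain ⟨H, hHd⟩ : ∃ H, H = 1 + ∑ q ∈ S, hs q + ∑ q ∈ hVfin.toFinset, nk q := ⟨_, rfl⟩
  have hVs0 : 0 ≤ ∑ q ∈ hVfin.toFinset, nk q := Finset.sum_nonneg fun q _ => nk_nonneg q
  have hSs0 : 0 ≤ ∑ q ∈ S, hs q := Finset.sum_nonneg fun q _ => hs0 q
  have hH : 1 ≤ H := by
    rw [hHd]
    linarith
  have hsH : ∀ q ∈ S, hs q ≤ H := by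
    intro q hq
    have := Finset.single_le_sum (fun q _ => hs0 q) hq
    rw [hHd]
    linarith
  have hVH : ∀ k, V k ≠ 0 → nk k ≤ H := by
    intro k hk
    have h1 : k ∈ hVfin.toFinset := by rw [Set.Finite.mem_toFinset]; exact hk
    have := Finset.single_le_sum (fun q _ => nk_nonneg q) h1
    rw [hHd]
    linarith
  have hKv : 0 < Kv c H := Kv_pos hc
  obtain ⟨m, hm⟩ : ∃ m, m = 2 * S.card := ⟨_, rfl⟩
  obtain ⟨Lb, hLb⟩ : ∃ Lb, Lb = √(L0 ^ 2 + m * Kv c H) := ⟨_, rfl⟩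
  have hLb0 : 0 ≤ Lb := by rw [hLb]; exact Real.sqrt_nonneg _
  have hLb2 : Lb ^ 2 = L0 ^ 2 + m * Kv c H := by rw [hLb, Real.sq_sqrt (by positivity)]
  refine ⟨H, m, Lb, hH, hLb0, hLb2.ge, fun C2 hC2 hsup => ?_⟩
  obtain ⟨K2, K3, hK2, hK3, hA'⟩ := gr_add hχ hc hH hLb0 hC2 hsup
  refine ⟨K2, K3, hK2, hK3, fun dl hdl s x F N mm hQ hm0 hm1 hm2 hVF => ?_⟩
  obtain ⟨Kd, hKd⟩ : ∃ Kd, Kd = 2 * (C5 c H / √c * (2 / (c * dl))) + C5 c H / (c * dl) := ⟨_, rfl⟩
  have hA : AddR χ c r dl H Lb C2 K2 Kd s x F N := by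
    intro q cc η γ V X u β L0 i hu hGB hLi hW
    rw [hKd] at hW ⊢
    exact hA' hr hdl hQ hu hGB hLi hW
  rw [← hKd]
  clear hA' hKd
  have hL0b : L0 ≤ Lb := by
    have : L0 ^ 2 ≤ Lb ^ 2 := by
      rw [hLb2]
      have : 0 ≤ (m : ℝ) * Kv c H := by positivity
      linarith
    exact (pow_le_pow_iff_left₀ hL0 hLb0 (by norm_num)).1 this
  have hnear : ∀ T : Finset K, T ⊆ S →
      ∃ W, GR χ c r dl H L0 C2 K2 Kd s x F N (mm (2 * T.card)) V u
        (fun k => ∑ q ∈ T, Q q k) (∑ q ∈ T, PP q) W := by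
    intro T
    induction T using Finset.induction_on with
    | empty =>
      intro _
      simp only [Finset.sum_empty, Finset.card_empty, mul_zero, hm0]
      refine ⟨0, gr_zero (by linarith) (by linarith) ha0 hS hVF
        (hsup a0 ha0 V u hS (hL.trans (ENNReal.ofReal_le_ofReal hL0b))) (fun k hk => ?_) hL0 hL⟩
      by_contra hne
      have h1 := hVH k hne
      have h2 := hQ.NH 0
      linarith
    | insert q T hqT ih =>
      intro hT
      have hqS : q ∈ S := hT (Finset.mem_insert_self _ _)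
      have hq := hS0 q hqS
      have ih' := ih (fun q' h' => hT (Finset.mem_insert_of_mem h'))
      have hcard : (insert q T).card = T.card + 1 := Finset.card_insert_of_notMem hqT
      have hle : T.card + 1 ≤ S.card := by
        rw [← hcard]
        exact Finset.card_le_card hT
      have hler : (T.card : ℝ) + 1 ≤ S.card := by exact_mod_cast hle
      have hmr : (m : ℝ) = 2 * S.card := by rw [hm]; push_cast; ring
      obtain ⟨hd, hqd, hdec⟩ := hP' q hq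
      have g1 := geo_crs hq hd hqd
      have hqc : ip q (crs q (d q)) = 0 := by rw [ip_comm]; exact g1.ηq
      have g2 := geo_crs hq g1.hη hqc
      have hh := hsH q hqS
      have a0' := norm_nonneg (cK q)
      have a1 := sq_nonneg' (crs q (d q))
      have a2 := sq_nonneg' (crs q (crs q (d q)))
      have a3 := nk_nonneg (crs q (d q))
      have a4 := nk_nonneg (crs q (crs q (d q)))
      have a5 := nk_nonneg q
      have a6 := norm_nonneg (cK (d q))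
      have a7 := norm_nonneg (cK (crs q (d q)))
      have a8 := norm_nonneg (γ1 q)
      have a9 := norm_nonneg (γ2 q)
      simp only [hs] at hh
      have G1 : GB H q (d q) (crs q (d q)) (γ1 q) :=
        ⟨g1, by linarith, by linarith, by linarith, by linarith, by linarith, by linarith⟩
      have G2 : GB H q (crs q (d q)) (crs q (crs q (d q))) (γ2 q) :=
        ⟨g2, by linarith, by linarith, by linarith, by linarith, by linarith, by linarith⟩
      have h1 := gr_piece hA hKv hQ.s0 hm0 hm1 hm2 hu G1 (by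
        rw [hLb2, hmr]
        push_cast
        nlinarith) ih'
      have h2 := gr_piece hA hKv hQ.s0 hm0 hm1 hm2 hu G2 (by
        rw [hLb2, hmr]
        push_cast
        nlinarith) h1
      obtain ⟨W, hW⟩ := h2
      have e1 : 2 * T.card + 1 + 1 = 2 * (insert q T).card := by rw [hcard]; ring
      have e3 : (∑ x ∈ T, PP x) + E0 q (d q) (γ1 q) + E0 q (crs q (d q)) (γ2 q) = ∑ x ∈ insert q T, PP x := by
        rw [Finset.sum_insert hqT]
        simp only [PP]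
        abel
      rw [e1, e3] at hW
      refine ⟨W, hW.mono fun k => ?_⟩
      rw [Finset.sum_insert hqT]
      simp only [Q]
      linarith
  have hPq : ∀ q, q ≠ 0 → PP q = Sg q ((1 / 2 : ℂ) • V0 q) + Sg (-q) ((1 / 2 : ℂ) • V0 (-q)) := by
    intro q hq
    obtain ⟨-, -, h⟩ := hP' q hq
    have h' : (1 / 2 : ℂ) • V0 (-q) = star (γ1 q) • cK (d q) + star (γ2 q) • cK (crs q (d q)) := by
      funext i
      have h1 := congrFun h i
      simp only [Pi.smul_apply, Pi.add_apply, smul_eq_mul] at h1 ⊢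
      rw [hsym q i]
      have h2 := congrArg star h1
      simp only [star_mul', star_add] at h2
      have h3 : star (1 / 2 : ℂ) = 1 / 2 := by simp
      have h4 : ∀ l : K, star (cK l i) = cK l i := by intro l; simp [cK]
      rw [h3, h4, h4] at h2
      exact h2
    simp only [PP]
    rw [h, h', Sg_add, Sg_add]
    unfold E0
    abel
  have mem : ∀ k, k ∉ S → V0 k = 0 := by
    intro k hk
    by_contra h
    exact hk (by rw [Set.Finite.mem_toFinset]; exact h)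
  have hneg : ∀ k, ‖V0 (-k)‖ = ‖V0 k‖ := by
    intro k
    have e : V0 (-k) = star (V0 k) := by
      funext i
      exact hsym k i
    rw [e, norm_star]
  have hsum : ∑ q ∈ S, PP q = V0 := by
    rw [Finset.sum_congr rfl fun q hq => hPq q (hS0 q hq), Finset.sum_add_distrib]
    funext k
    rw [Pi.add_apply, Finset.sum_apply, Finset.sum_apply]
    have h1 : ∑ q ∈ S, Sg q ((1 / 2 : ℂ) • V0 q) k = (1 / 2 : ℂ) • V0 k := by
      unfold Sg
      rw [Finset.sum_ite_eq]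
      split_ifs with h
      · rfl
      · rw [mem k h, smul_zero]
    have h2 : ∑ q ∈ S, Sg (-q) ((1 / 2 : ℂ) • V0 (-q)) k = (1 / 2 : ℂ) • V0 k := by
      unfold Sg
      have e : ∀ q, (if k = -q then (1 / 2 : ℂ) • V0 (-q) else 0)
          = if -k = q then (1 / 2 : ℂ) • V0 k else 0 := by
        intro q
        by_cases h : k = -q
        · rw [if_pos h, if_pos (by rw [h, neg_neg]), h]
        · rw [if_neg h, if_neg (fun h' => h (by rw [← h', neg_neg]))]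
      simp only [e]
      rw [Finset.sum_ite_eq]
      split_ifs with h
      · rfl
      · have h3 := mem _ h
        have h4 : V0 k = 0 := by
          rw [← norm_eq_zero, ← hneg, h3, norm_zero]
        rw [h4, smul_zero]
    rw [h1, h2, ← add_smul]
    norm_num
  -- the bound for the low modes
  have hE0 : ∀ (q' d' : K) (γ' : ℂ) (k : K), ‖E0 q' d' γ' k‖ ≤
      (if k = q' then ‖γ'‖ * ‖cK d'‖ else 0) + (if k = -q' then ‖γ'‖ * ‖cK d'‖ else 0) := by
    intro q' d' γ' k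
    unfold E0 Sg
    simp only [Pi.add_apply]
    refine (norm_add_le _ _).trans (add_le_add ?_ ?_)
    · split_ifs
      · rw [norm_smul]
      · simp
    · split_ifs
      · rw [norm_smul, norm_star]
      · simp
  have hQ : ∀ k, ∑ q ∈ S, Q q k ≤ 4 * ‖V0 k‖ := by
    intro k
    have h1 : ∀ q ∈ S, Q q k ≤ (if k = q then 2 * ‖V0 k‖ else 0) + (if -k = q then 2 * ‖V0 k‖ else 0) := by
      intro q hqS
      have hq := hS0 q hqS
      obtain ⟨hd, hqd, hdec⟩ := hP' q hq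
      have g1 := geo_crs hq hd hqd
      have hn : ‖(1 / 2 : ℂ) • V0 q‖ = ‖V0 q‖ / 2 := by
        rw [norm_smul]; norm_num; ring
      have c1 : ‖γ1 q‖ * ‖cK (d q)‖ ≤ ‖V0 q‖ := by
        have : ‖γ1 q‖ * ‖cK (d q)‖ ≤ 2 * (‖V0 q‖ / 2) := by
          rw [← hn]
          apply coef_le hd
          rw [hdec, dt_add, dt_smul, dt_smul, ip_comm (d q) (crs q (d q)), g1.ηc]
          simp
        linarith
      have c2 : ‖γ2 q‖ * ‖cK (crs q (d q))‖ ≤ ‖V0 q‖ := by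
        have : ‖γ2 q‖ * ‖cK (crs q (d q))‖ ≤ 2 * (‖V0 q‖ / 2) := by
          rw [← hn]
          apply coef_le g1.hη
          rw [hdec, dt_add, dt_smul, dt_smul, g1.ηc]
          simp
        linarith
      have hk1 : k = q → ‖V0 q‖ = ‖V0 k‖ := fun h => by rw [h]
      have hk2 : k = -q → ‖V0 q‖ = ‖V0 k‖ := fun h => by rw [h, hneg]
      have e : (if -k = q then 2 * ‖V0 k‖ else 0) = (if k = -q then 2 * ‖V0 k‖ else 0) := by
        by_cases h : k = -q
        · rw [if_pos h, if_pos (by rw [h, neg_neg])]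
        · rw [if_neg h, if_neg (fun h' => h (by rw [← h', neg_neg]))]
      simp only [Q]
      refine (add_le_add (hE0 q (d q) (γ1 q) k) (hE0 q (crs q (d q)) (γ2 q) k)).trans ?_
      rw [e]
      have b0 := norm_nonneg (V0 k)
      split_ifs with ha hb hb
      · have := hk1 ha; linarith
      · have := hk1 ha; linarith
      · have := hk2 hb; linarith
      · linarith
    refine (Finset.sum_le_sum h1).trans ?_
    rw [Finset.sum_add_distrib, Finset.sum_ite_eq, Finset.sum_ite_eq]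
    have b0 := norm_nonneg (V0 k)
    split_ifs <;> linarith
  obtain ⟨W, hW⟩ := hnear S le_rfl
  rw [hsum, ← hm] at hW
  exact ⟨W, hW.mono hQ⟩

end Pool.Agent.H356R3.NS.X
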