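import Pool.Agent.H3NY.R.Step2

namespace Pool.Agent.H356R3.NS
end Pool.Agent.H356R3.NS
namespace Pool.Agent.H356R3.NS.H3
end Pool.Agent.H356R3.NS.H3
namespace Pool.Agent.H356R3.NS.X
end Pool.Agent.H356R3.NS.X
namespace Pool.Agent.H3NS
end Pool.Agent.H3NS
namespace H459R3.NS
end H459R3.NS

set_option autoImplicit false
set_option maxHeartbeats 4000000
set_option synthInstance.maxHeartbeats 400000

open MeasureTheory Set Filter Topology
open scoped ENNReal NNReal

namespace Pool.Agent.H356R3.NS.X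

open Pool.Agent.H356R3.NS.H3

variable {q cc η : K}

lemma LNd_anti {δ δ' : ℝ} (h : δ ≤ δ') (x : Fam) : LNd δ' x ≤ LNd δ x := by
  unfold LNd
  refine LN_mono fun t _ => ?_
  by_cases ht : t ∈ Ioi δ'
  · rw [indicator_of_mem ht, indicator_of_mem (show t ∈ Ioi δ from lt_of_le_of_lt h ht)]
  · rw [indicator_of_notMem ht]; exact zero_le

end Pool.Agent.H356R3.NS.X
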