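import Pool.Agent.H3NY.X.GenR2
import Pool.Agent.H3NY.X.LPK
import Pool.Agent.H3NY.X.NearX2
import Pool.Agent.H3NY.X.StX

namespace Pool.Agent.H356R3.NS
end Pool.Agent.H356R3.NS
namespace Pool.Agent.H356R3.NS.H3
end Pool.Agent.H356R3.NS.H3
namespace Pool.Agent.H356R3.NS.X
end Pool.Agent.H356R3.NS.X
namespace Pool.Agent.H3NS
end Pool.Agent.H3NS
namespace H459R3.NS
end H459R3.NS

set_option autoImplicit false
set_option maxHeartbeats 8000000
set_option synthInstance.maxHeartbeats 400000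

open MeasureTheory Set Filter Topology
open scoped ENNReal NNReal

namespace Pool.Agent.H356R3.NS.X

open Pool.Agent.H3NS

/-- One step of the construction, with a bound by a gauge for small times. -/
lemma genX {χ : ℝ → ℝ} {h : ℝ} (hχ : CutH χ h) {c : ℝ} (hc : 0 < c) (S : StX χ c) {D : K → C3}
    (hfin : (Function.support D).Finite) (hD0 : D 0 = 0) (hdiv : ∀ k, dt k (D k) = 0) (hsym : Sym D)
    {r p dl ε : ℝ} (hr : 2 < r) (hp1 : 1 ≤ p) (hp2 : p < 2) (hdl : 0 < dl) (hε : 0 < ε) {g : ℝ → ℝ} (hg : Gau g) :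
    ∃ θ : ℝ, 0 < θ ∧ θ ≤ dl ∧ ∀ ε' : ℝ, 0 < ε' → ε' ≤ ε →
    ∃ (S' : StX χ c) (W : K → C3), S'.V = D + W ∧ critNorm r W ≤ ENNReal.ofReal ε' ∧
      LNd θ (S'.u - S.u) ≤ ENNReal.ofReal ε' ∧ LP p (S'.u - S.u) ≤ ENNReal.ofReal ε' ∧
      (∀ t, θ ≤ t → NW (Wm 0) (at' (S'.u - S.u) t) ≤ ENNReal.ofReal ε') ∧
      (∃ R : Fam, (∀ k t, ‖(S'.u - S.u) k t‖ ≤ ‖W k‖ + 4 * ‖(D - S.V) k‖ + ‖R k t‖) ∧
        ∀ t, NW (Wm 0) (at' R t) ≤ ENNReal.ofReal ε') ∧
      (∀ k, ∫⁻ t in Ioi 0, ‖(Bx χ S'.u - Bx χ S.u) k t‖ₑ ≤ ENNReal.ofReal (4 * ‖(D - S.V) k‖ + nk k * ε')) ∧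
      (∀ t, 0 < t → KA (S'.u - S.u) t ≤ ENNReal.ofReal (2 * ε)) ∧
      (∀ t, θ ≤ t → KA (S'.u - S.u) t ≤ ENNReal.ofReal ε') ∧
      ∀ t, 0 < t → t ≤ θ → KA S'.u t ≤ ENNReal.ofReal (g t / 2) := by
  obtain ⟨V, u, a, ha, sol, fin, z, div, sym⟩ := S
  simp only
  obtain ⟨V0, hV0⟩ : ∃ V0, V0 = D - V := ⟨_, rfl⟩
  have f0 : (Function.support V0).Finite := by
    rw [hV0, sub_eq_add_neg]
    refine supp_add hfin ?_
    rwa [Function.support_neg]
  have z0 : V0 0 = 0 := by rw [hV0, Pi.sub_apply, hD0, z, sub_self]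
  have d0 : ∀ k, dt k (V0 k) = 0 := by
    intro k
    have e : V0 k = D k + (-1 : ℂ) • V k := by rw [hV0, Pi.sub_apply]; simp [sub_eq_add_neg]
    rw [e, dt_add, dt_smul', hdiv, div]
    simp
  have s0 : Sym V0 := by rw [hV0]; exact hsym.sub sym
  obtain ⟨L0, hL0⟩ : ∃ L0, L0 = (LN fun t => NW (Wa 0) (at' u t)).toReal := ⟨_, rfl⟩
  have hL0fin : (LN fun t => NW (Wa 0) (at' u t)) ≠ ⊤ :=
    ne_top_of_le_ne_top sol.l2 (LN_mono fun t _ => NW_mono (fun k => Wa_mono ha.le k) _)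
  have hL0' : (LN fun t => NW (Wa 0) (at' u t)) ≤ ENNReal.ofReal L0 := by
    rw [hL0, ENNReal.ofReal_toReal hL0fin]
  have hL00 : 0 ≤ L0 := by rw [hL0]; exact ENNReal.toReal_nonneg
  obtain ⟨H, m, Lb, hH, hLb, hLL, htgt⟩ := gr_target hχ hc (by linarith : (1 : ℝ) ≤ r) ha sol fin f0 z0 d0 s0
    hL00 hL0'
  obtain ⟨C2, hC2, hsup⟩ := solX_sup hc hLb
  obtain ⟨K2, K3, hK2, hK3, hgen⟩ := htgt C2 hC2 fun a ha V u hS hL => (hsup χ hχ.toCutT a ha V u hS hL).1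
  obtain ⟨Mu, hMu, hub⟩ := solX_bdd ha.le sol
  have hKv : 0 < Kv c H := Kv_pos hc
  obtain ⟨Z, hZd⟩ : ∃ Z, Z = C5 c H := ⟨_, rfl⟩
  have hZ : 0 < Z := by rw [hZd]; exact C5_pos hc hH
  rw [← hZd] at hgen
  obtain ⟨t0, ht0, hpos, hreg, hdv⟩ := id hg
  have hG0 := hpos t0 ht0 le_rfl
  obtain ⟨G0, hG0d⟩ : ∃ G0, G0 = g t0 := ⟨_, rfl⟩
  rw [← hG0d] at hG0
  have hgG : ∀ t, 0 < t → t ≤ t0 → g t ≤ G0 := fun t h1 h2 => by
    rw [hG0d]; exact (hreg t t0 h1 h2 le_rfl).1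
  obtain ⟨K6, hK6⟩ : ∃ K6, K6 = C2 * (2 * C2 + (Z + 1) + 2 * √2 * K2) := ⟨_, rfl⟩
  have hK6p : 1 ≤ K6 := by
    rw [hK6]
    have j1 : 0 ≤ 2 * √2 * K2 := by positivity
    calc (1 : ℝ) ≤ C2 * 1 := by linarith
      _ ≤ C2 * (2 * C2 + (Z + 1) + 2 * √2 * K2) := mul_le_mul_of_nonneg_left (by linarith) (by linarith)
  obtain ⟨δ, hδd⟩ : ∃ δ, δ = min (1 / (2 * K6)) (ε / (K6 * G0)) := ⟨_, rfl⟩
  have hδ : 0 < δ := by rw [hδd]; positivity
  have hδ1 : K6 * δ ≤ 1 / 2 := by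
    have h1 : δ ≤ 1 / (2 * K6) := by rw [hδd]; exact min_le_left _ _
    calc K6 * δ ≤ K6 * (1 / (2 * K6)) := mul_le_mul_of_nonneg_left h1 (by linarith)
      _ = 1 / 2 := by field_simp
  have hδ2 : K6 * δ * G0 ≤ ε := by
    have h1 : δ ≤ ε / (K6 * G0) := by rw [hδd]; exact min_le_right _ _
    rw [le_div_iff₀ (by positivity)] at h1
    linarith
  obtain ⟨Fb, hFb⟩ : ∃ Fb, Fb = Mu + 1 := ⟨_, rfl⟩
  have hFb1 : 1 ≤ Fb := by rw [hFb]; linarith
  -- the time scale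
  obtain ⟨δ', hδ'0, hδ'⟩ := mem_nhdsGT_iff_exists_Ioo_subset.1 (hg.sqrt_le (Fb / δ))
  have hδ'p : (0 : ℝ) < δ' := hδ'0
  obtain ⟨θ, hθ⟩ : ∃ θ, θ = min (min dl (δ' / 2)) (min t0 1) := ⟨_, rfl⟩
  have hθp : 0 < θ := by
    rw [hθ]
    exact lt_min (lt_min hdl (by linarith)) (lt_min ht0 one_pos)
  have hθdl : θ ≤ dl := by rw [hθ]; exact (min_le_left _ _).trans (min_le_left _ _)
  have hθδ : θ < δ' := by
    have : θ ≤ δ' / 2 := by rw [hθ]; exact (min_le_left _ _).trans (min_le_right _ _)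
    linarith
  have hθt0 : θ ≤ t0 := by rw [hθ]; exact (min_le_right _ _).trans (min_le_left _ _)
  have hθ1 : θ ≤ 1 := by rw [hθ]; exact (min_le_right _ _).trans (min_le_right _ _)
  have hθF : ∀ t, 0 < t → t ≤ θ → √t * Fb ≤ δ * g t := fun t h1 h2 => by
    have h3 : √t * (Fb / δ) ≤ g t := hδ' ⟨h1, h2.trans_lt hθδ⟩
    rw [← mul_div_assoc, div_le_iff₀ hδ] at h3
    linarith
  refine ⟨θ, hθp, hθdl, fun ε' hε' hεε => ?_⟩
  obtain ⟨η0, hη0, hLP⟩ := LP_of_KA hp1 hp2 (show 0 < 2 * ε by positivity) hε'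
  obtain ⟨η, hηd⟩ : ∃ η, η = min θ η0 := ⟨_, rfl⟩
  have hη : 0 < η := by rw [hηd]; exact lt_min hθp hη0
  have hηθ : η ≤ θ := by rw [hηd]; exact min_le_left _ _
  have hηη : η ≤ η0 := by rw [hηd]; exact min_le_right _ _
  obtain ⟨Bs, hBs, hsm⟩ := smoothing hc hLb 1 (η / 2) η (by positivity) (by linarith)
  obtain ⟨Kd, hKd⟩ : ∃ Kd, Kd = 2 * (Z / √c * (2 / (c * η))) + Z / (c * η) := ⟨_, rfl⟩
  have hKd0 : 0 ≤ Kd := by rw [hKd]; positivity
  obtain ⟨ε1, hε1d⟩ : ∃ ε1, ε1 = min (min (ε' / (2 * (1 + K2))) ((ε' / 2) ^ 2 / ((1 + K2) * (2 * Bs) + 1)))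
    (ε' ^ r) := ⟨_, rfl⟩
  have hε1 : 0 < ε1 := by rw [hε1d]; positivity
  have hε1a : (1 + K2) * ε1 ≤ ε' / 2 := by
    have h1 : ε1 ≤ ε' / (2 * (1 + K2)) := by rw [hε1d]; exact (min_le_left _ _).trans (min_le_left _ _)
    rw [le_div_iff₀ (by positivity)] at h1
    linarith
  have hε1b : (1 + K2) * ε1 * (2 * Bs) ≤ (ε' / 2) ^ 2 := by
    have h1 : ε1 ≤ (ε' / 2) ^ 2 / ((1 + K2) * (2 * Bs) + 1) := by
      rw [hε1d]; exact (min_le_left _ _).trans (min_le_right _ _)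
    rw [le_div_iff₀ (by positivity), mul_add, mul_one] at h1
    have j1 : (1 + K2) * ε1 * (2 * Bs) = ε1 * ((1 + K2) * (2 * Bs)) := by ring
    rw [j1]
    linarith
  have hε1c : ε1 ≤ ε' ^ r := by rw [hε1d]; exact min_le_right _ _
  have hVM : NW (Wa 0) V ≤ ENNReal.ofReal Mu := by
    have := hub 0
    rwa [solX_init sol le_rfl] at this
  obtain ⟨s, x, F, N, mm, hQ, hF0, hm0, hm1, hm2, i1, i2, i3, hsmall⟩ := seq_exists ht0 hpos hreg hdv
    hg.sqrt_le (H := H) (K3 := K3) (Z := Z) (c1 := c / 32) (Kd := Kd) (Fb := Fb) (δ := δ) (ε1 := ε1) (r := r)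
    (θ := θ) hH (by linarith) hZ (by positivity) hKd0 hFb1 hδ hε1 hr hθp hθt0 hθF m
  obtain ⟨W, hW⟩ := hgen η hη s x F N mm hQ hm0 hm1 hm2 (by
    rw [hF0]
    exact hVM.trans (ENNReal.ofReal_le_ofReal (by linarith)))
  rw [← hKd] at hW
  obtain ⟨a', ha', u', hu', hL', hnl, ⟨v, r1, E, hvc, hrc, huv, hvW, hE, g1, g3, g4, g5⟩, hist⟩ := hW.good
  rw [← hZd] at hist
  obtain ⟨A1, hA1⟩ : ∃ A1, A1 = ∑ j ∈ Finset.range (mm m), √(s j) * x j := ⟨_, rfl⟩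
  obtain ⟨A2, hA2⟩ : ∃ A2, A2 = ∑ j ∈ Finset.range (mm m), Kd / (N j : ℝ) := ⟨_, rfl⟩
  rw [← hA1] at hnl g4 g5 i1
  rw [← hA2] at g1 g3 i2
  have hK20 : 0 < K2 := by linarith
  have hKA1 : K2 * A1 ≤ K2 * ε1 := mul_le_mul_of_nonneg_left i1 hK20.le
  have hKe : 0 ≤ K2 * ε1 := by positivity
  have eV : V + (V0 + W) = D + W := by rw [hV0]; abel
  have hVA := hW.VA
  rw [eV] at hu' hVA
  have hLb' : LN (fun t => NW (Wa 0) (at' u' t)) ≤ ENNReal.ofReal Lb := by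
    refine hL'.trans (ENNReal.ofReal_le_ofReal ?_)
    rw [Real.sqrt_le_left hLb, sum_blocks hm0 hm1 hm2 m]
    linarith
  have hLbu : LN (fun t => NW (Wa 0) (at' u t)) ≤ ENNReal.ofReal Lb := by
    refine hL0'.trans (ENNReal.ofReal_le_ofReal ?_)
    have h1 : L0 ^ 2 ≤ Lb ^ 2 := by
      have : 0 ≤ (m : ℝ) * Kv c H := by positivity
      linarith
    exact (pow_le_pow_iff_left₀ hL00 hLb (by norm_num)).1 h1
  have hd : u' - u = v + r1 := by rw [huv]; abel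
  -- sizes
  have g6η : LNd η (u' - u) ≤ ENNReal.ofReal ε' := by
    rw [hd]
    refine (LNd_add hvc hrc).trans ((add_le_add (g1.trans (ENNReal.ofReal_le_ofReal i2))
      (((LNd_le_LN η r1).trans g5).trans (ENNReal.ofReal_le_ofReal hKA1))).trans ?_)
    rw [← ENNReal.ofReal_add hε1.le hKe]
    exact ENNReal.ofReal_le_ofReal (by linarith)
  have g6 : LNd θ (u' - u) ≤ ENNReal.ofReal ε' := (LNd_anti hηθ _).trans g6η
  have g8 : ∀ t, η ≤ t → NW (Wm 0) (at' (u' - u) t) ≤ ENNReal.ofReal ((1 + K2) * ε1) := by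
    intro t ht
    rw [hd, show (1 + K2) * ε1 = ε1 + K2 * ε1 by ring, ENNReal.ofReal_add hε1.le hKe]
    exact (NW_add_le _ _ _).trans (add_le_add ((g3 t ht).trans (ENNReal.ofReal_le_ofReal i2))
      ((g4 t).trans (ENNReal.ofReal_le_ofReal hKA1)))
  have hW0 : W 0 = 0 := hW.z
  -- closeness for late times
  have hd0 : ∀ t, at' (u' - u) t 0 = 0 := fun t => by
    show u' 0 t - u 0 t = 0
    rw [hu'.z, sol.z, sub_zero]
  have g9 : ∀ t, η ≤ t → NW (Wa 0) (at' (u' - u) t) ≤ ENNReal.ofReal (ε' / 2) := by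
    intro t ht
    have w1 : NW (ws 1) (at' u t) ≤ ENNReal.ofReal Bs :=
      hsm χ hχ.toCutT a ha V u sol ((LNd_le_LN _ _).trans hLbu) t ht
    have w2 : NW (ws 1) (at' u' t) ≤ ENNReal.ofReal Bs :=
      hsm χ hχ.toCutT a' ha' _ u' hu' ((LNd_le_LN _ _).trans hLb') t ht
    have w3 : NW (ws 1) (at' (u' - u) t) ≤ ENNReal.ofReal (2 * Bs) := by
      rw [two_mul, ENNReal.ofReal_add hBs hBs]
      exact (NW_sub_le _ _ _).trans (add_le_add w2 w1)
    exact A_of_Wm (hd0 t) (by positivity) (by positivity) (g8 t ht) w3 hε1b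
  have hεh : ENNReal.ofReal (ε' / 2) ≤ ENNReal.ofReal ε' := ENNReal.ofReal_le_ofReal (by linarith)
  -- the bound for small times
  have hKy : ∀ t, 0 < t → t ≤ θ → KA u' t ≤ ENNReal.ofReal (K6 * δ * g t) := by
    intro t ht htθ
    have ht1 : t ≤ 1 := htθ.trans hθ1
    have hst : 0 < √t := Real.sqrt_pos.2 ht
    have hgt : 0 < g t := hpos t ht (htθ.trans hθt0)
    obtain ⟨k, hk, j1, j2, j3⟩ := hsmall t ht htθ
    obtain ⟨uk, ρ, b1, b2, b3, b4, b5⟩ := hist k hk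
    obtain ⟨M, hM⟩ : ∃ M : ℝ, M = K2 * (δ * g t) := ⟨_, rfl⟩
    have hMp : 0 < M := by rw [hM]; positivity
    have hpk : (∫⁻ s in Ioi (t / 2), NW (Wa 0) (at' ρ s) ^ (2 : ℝ)) ^ (1 / 2 : ℝ) ≤ ENNReal.ofReal M := by
      refine le_trans ?_ (b4.trans (ENNReal.ofReal_le_ofReal (by
        rw [hM]
        exact mul_le_mul_of_nonneg_left j3 hK20.le)))
      unfold LN
      apply ENNReal.rpow_le_rpow _ (by norm_num)
      exact lintegral_mono_set fun s hs => lt_trans (half_pos ht) hs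
    obtain ⟨τ, ⟨hs1, hs2⟩, hs3⟩ := pick' (half_lt_self ht) hMp hpk
    have hsp : 0 < τ := by linarith
    have e2 : t - t / 2 = t / 2 := by ring
    rw [e2] at hs3
    obtain ⟨Sg', hSg⟩ : ∃ Sg', Sg' = ∑ j ∈ Finset.Ico k (mm m), √(s j) *
      ((N j : ℝ) * Real.exp (-(c / 32 * (N j : ℝ) ^ 2 * t))) := ⟨_, rfl⟩
    rw [← hSg] at j2
    have hSg0 : 0 ≤ Sg' := by
      rw [hSg]
      refine Finset.sum_nonneg fun j _ => ?_
      have := Real.exp_pos (-(c / 32 * (N j : ℝ) ^ 2 * t))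
      have := Real.sqrt_nonneg (s j)
      positivity
    have b6 : NW (Wa 0) (at' (u' - uk - ρ) τ) ≤ ENNReal.ofReal ((Z + 1) * Sg') := by
      refine (b5 τ hsp).trans (ENNReal.ofReal_le_ofReal ?_)
      rw [hSg, Finset.mul_sum]
      refine Finset.sum_le_sum fun j _ => ?_
      have e3 : Real.exp (-(c / 16 * (N j : ℝ) ^ 2 * τ)) ≤ Real.exp (-(c / 32 * (N j : ℝ) ^ 2 * t)) := by
        apply Real.exp_le_exp.2
        have j1 : 0 ≤ c / 32 * (N j : ℝ) ^ 2 := by positivity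
        have j2 : c / 32 * (N j : ℝ) ^ 2 * t ≤ c / 32 * (N j : ℝ) ^ 2 * (2 * τ) :=
          mul_le_mul_of_nonneg_left (by linarith) j1
        have j3 : c / 16 * (N j : ℝ) ^ 2 * τ = c / 32 * (N j : ℝ) ^ 2 * (2 * τ) := by ring
        rw [j3]
        linarith
      have := Real.sqrt_nonneg (s j)
      calc (Z + 1) * √(s j) * (N j * Real.exp (-(c / 16 * (N j : ℝ) ^ 2 * τ)))
          ≤ (Z + 1) * √(s j) * (N j * Real.exp (-(c / 32 * (N j : ℝ) ^ 2 * t))) := by gcongr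
        _ = _ := by ring
    have hFk : 1 ≤ F k := hQ.F1 k
    have eu : at' u' τ = at' uk τ + at' (u' - uk - ρ) τ + at' ρ τ := by
      funext l
      simp only [at', Pi.sub_apply, Pi.add_apply]
      abel
    have hst2 : 0 < √(t / 2) := Real.sqrt_pos.2 (by linarith)
    have hC20 : 0 ≤ C2 := by linarith
    have c1 : 0 ≤ C2 * F k := by positivity
    have c2 : 0 ≤ (Z + 1) * Sg' := by positivity
    have c3 : 0 ≤ 2 * M / √(t / 2) := by positivity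
    have b7 : NW (Wa 0) (at' u' τ) ≤ ENNReal.ofReal (C2 * F k + (Z + 1) * Sg' + 2 * M / √(t / 2)) := by
      rw [ENNReal.ofReal_add (add_nonneg c1 c2) c3, ENNReal.ofReal_add c1 c2, eu]
      exact (NW_add_le _ _ _).trans (add_le_add ((NW_add_le _ _ _).trans (add_le_add (b3 τ) b6)) hs3)
    have b8 := ((hsup χ hχ.toCutT a' ha' _ u' hu' hLb').2 τ t hsp.le hs2.le).trans (mul_le_mul' le_rfl b7)
    unfold KA
    rw [min_eq_left ht1]
    refine (mul_le_mul' le_rfl b8).trans ?_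
    rw [← ENNReal.ofReal_mul hC20, ← ENNReal.ofReal_mul hst.le]
    apply ENNReal.ofReal_le_ofReal
    have ht2 : √t = √2 * √(t / 2) := by
      rw [← Real.sqrt_mul (by norm_num)]
      congr 1
      ring
    have f2 : √t * (2 * M / √(t / 2)) = 2 * √2 * K2 * (δ * g t) := by
      rw [ht2, hM]; field_simp
    calc √t * (C2 * (C2 * F k + (Z + 1) * Sg' + 2 * M / √(t / 2)))
        = C2 * (C2 * (√t * F k) + (Z + 1) * (√t * Sg') + √t * (2 * M / √(t / 2))) := by ring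
      _ ≤ C2 * (C2 * (2 * δ * g t) + (Z + 1) * (δ * g t) + 2 * √2 * K2 * (δ * g t)) := by
          rw [f2]
          apply mul_le_mul_of_nonneg_left _ hC20
          have f3 : C2 * (√t * F k) ≤ C2 * (2 * δ * g t) := mul_le_mul_of_nonneg_left j1 hC20
          have f4 : (Z + 1) * (√t * Sg') ≤ (Z + 1) * (δ * g t) := mul_le_mul_of_nonneg_left j2 (by linarith)
          linarith
      _ = _ := by rw [hK6]; ring
  have hKg : ∀ t, 0 < t → t ≤ θ → KA u' t ≤ ENNReal.ofReal (g t / 2) := by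
    intro t ht ht1
    refine (hKy t ht ht1).trans (ENNReal.ofReal_le_ofReal ?_)
    have hgt : 0 < g t := hpos t ht (ht1.trans hθt0)
    calc K6 * δ * g t ≤ 1 / 2 * g t := mul_le_mul_of_nonneg_right hδ1 hgt.le
      _ = _ := by ring
  have hεε2 : ENNReal.ofReal ε' ≤ ENNReal.ofReal (2 * ε) := ENNReal.ofReal_le_ofReal (by linarith)
  have hK2e : ∀ t, 0 < t → KA (u' - u) t ≤ ENNReal.ofReal (2 * ε) := by
    intro t ht
    rcases le_or_gt θ t with h8 | h8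
    · exact (KA_le _ _).trans (((g9 t (hηθ.trans h8)).trans hεh).trans hεε2)
    · have hgt : g t ≤ G0 := hgG t ht (h8.le.trans hθt0)
      have hgt0 : 0 < g t := hpos t ht (h8.le.trans hθt0)
      have h9 : K6 * δ * g t ≤ ε := le_trans (mul_le_mul_of_nonneg_left hgt (by positivity)) hδ2
      have h10 : √t * Mu ≤ ε := by
        have h11 := hθF t ht h8.le
        have h12 : √t * Mu ≤ √t * Fb := mul_le_mul_of_nonneg_left (by linarith) (Real.sqrt_nonneg _)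
        have h13 : δ * g t ≤ K6 * δ * g t := by
          rw [mul_assoc]
          exact le_mul_of_one_le_left (by positivity) hK6p
        linarith
      refine (KA_sub_le u' u t).trans ((add_le_add ((hKy t ht h8.le).trans (ENNReal.ofReal_le_ofReal h9))
        (KA_small hMu (hub t) h10)).trans ?_)
      rw [← ENNReal.ofReal_add hε.le hε.le]
      exact ENNReal.ofReal_le_ofReal (by linarith)
  have g7 : LP p (u' - u) ≤ ENNReal.ofReal ε' := hLP η hη hηη (u' - u) hK2e g9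
  have hcr : critNorm r W ≤ ENNReal.ofReal ε' := by
    refine critNorm_of_crit (by linarith) hε'.le (hW.small.trans (ENNReal.ofReal_le_ofReal ?_))
    rw [← hZd]
    exact i3.trans hε1c
  have hKA1' : K2 * A1 ≤ ε' := by linarith
  refine ⟨⟨D + W, u', a', ha', hu', supp_add hfin hW.fin, by rw [Pi.add_apply, hD0, hW0, add_zero],
    fun k => by rw [Pi.add_apply, dt_add, hdiv, hW.div, add_zero], hsym.add hW.sym⟩, W, rfl, hcr,
    g6, g7, fun t ht => (g8 t (hηθ.trans ht)).trans (ENNReal.ofReal_le_ofReal (by linarith)),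
    ⟨r1, fun k t => ?_, fun t => (g4 t).trans (ENNReal.ofReal_le_ofReal hKA1')⟩,
    fun k => ?_, hK2e, fun t ht => (KA_le _ _).trans ((g9 t (hηθ.trans ht)).trans hεh), hKg⟩
  · have e1 : (u' - u) k t = Ht c W k t + E k t + r1 k t := by
      rw [hd, hvW]
      rfl
    show ‖(u' - u) k t‖ ≤ _
    rw [e1]
    refine (norm_add_le _ _).trans (add_le_add ((norm_add_le _ _).trans (add_le_add ?_ ?_)) le_rfl)
    · unfold Ht
      rw [norm_smul, Real.norm_of_nonneg (Real.exp_pos _).le]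
      refine mul_le_of_le_one_left (norm_nonneg _) (Real.exp_le_one_iff.2 ?_)
      have h1 : 0 ≤ c * sq k * max t 0 := mul_nonneg (mul_nonneg hc.le (sq_nonneg' k)) (le_max_right _ _)
      linarith
    · rw [← hV0]; exact hE k t
  · refine (hnl k).trans (ENNReal.ofReal_le_ofReal ?_)
    rw [hV0]
    exact add_le_add le_rfl (mul_le_mul_of_nonneg_left hKA1' (nk_nonneg k))

end Pool.Agent.H356R3.NS.X
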