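import Pool.Agent.H3NY.X.FixX

namespace Pool.Agent.H356R3.NS
end Pool.Agent.H356R3.NS
namespace Pool.Agent.H356R3.NS.H3
end Pool.Agent.H356R3.NS.H3
namespace Pool.Agent.H356R3.NS.X
end Pool.Agent.H356R3.NS.X
namespace Pool.Agent.H3NS
end Pool.Agent.H3NS
namespace H459R3.NS
end H459R3.NS

set_option autoImplicit false
set_option maxHeartbeats 4000000
set_option synthInstance.maxHeartbeats 400000

/-!
Bounds of the form `√t ‖u(t)‖ ≤ C` in the Wiener algebra.
-/

open MeasureTheory Set Filter Topology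
open scoped ENNReal NNReal

namespace Pool.Agent.H356R3.NS.X

open Pool.Agent.H356R3.NS.H3

lemma lint_sqrt0 {c θ : ℝ} (hc : 0 < c) (hθ : 0 ≤ θ) :
    ∫⁻ s in Ioo 0 θ, ENNReal.ofReal (1 / √(c * s)) ≤ ENNReal.ofReal (2 * √θ / √c) := by
  have hsc : 0 < √c := Real.sqrt_pos.2 hc
  have h0 : ∀ s ∈ Ioo 0 θ, ENNReal.ofReal (1 / √(c * s)) = ENNReal.ofReal ((1 / √c) * s ^ (-(1 / 2) : ℝ)) := by
    intro s hs
    rw [Real.sqrt_mul hc.le, Real.rpow_neg hs.1.le, ← Real.sqrt_eq_rpow]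
    congr 1
    field_simp
  rw [setLIntegral_congr_fun measurableSet_Ioo h0]
  have hI : IntervalIntegrable (fun s : ℝ => s ^ (-(1 / 2) : ℝ)) volume 0 θ :=
    intervalIntegral.intervalIntegrable_rpow' (by norm_num)
  have hI2 : IntegrableOn (fun s : ℝ => (1 / √c) * s ^ (-(1 / 2) : ℝ)) (Ioo 0 θ) :=
    (((intervalIntegrable_iff_integrableOn_Ioc_of_le hθ).1 hI).mono_set Ioo_subset_Ioc_self).const_mul _
  rw [← ofReal_integral_eq_lintegral_ofReal hI2]
  · apply ENNReal.ofReal_le_ofReal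
    rw [integral_const_mul, ← integral_Ioc_eq_integral_Ioo, ← intervalIntegral.integral_of_le hθ,
      integral_rpow (Or.inl (by norm_num))]
    have e1 : (-(1 / 2) : ℝ) + 1 = 1 / 2 := by norm_num
    rw [e1, Real.zero_rpow (by norm_num), sub_zero, ← Real.sqrt_eq_rpow]
    apply le_of_eq
    field_simp
  · filter_upwards [ae_restrict_mem measurableSet_Ioo] with s hs
    have := Real.rpow_nonneg hs.1.le (-(1 / 2) : ℝ)
    positivity

lemma lint_sqrt {c t θ : ℝ} (hc : 0 < c) (hθ : 0 ≤ θ) :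
    ∫⁻ s in Ioo (t - θ) t, ENNReal.ofReal (1 / √(c * (t - s))) ≤ ENNReal.ofReal (2 * √θ / √c) := by
  refine le_trans (le_of_eq ?_) (lint_sqrt0 hc hθ)
  rw [← lintegral_indicator measurableSet_Ioo, ← lintegral_indicator measurableSet_Ioo]
  refine Eq.trans ?_ (lintegral_sub_left_eq_self (μ := volume)
    (fun s => (Ioo 0 θ).indicator (fun s => ENNReal.ofReal (1 / √(c * s))) s) t)
  refine lintegral_congr fun s => ?_
  by_cases h : s ∈ Ioo (t - θ) t
  · rw [indicator_of_mem h, indicator_of_mem (show t - s ∈ Ioo 0 θ from ⟨by linarith [h.2], by linarith [h.1]⟩)]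
  · rw [indicator_of_notMem h, indicator_of_notMem fun h' => h ⟨by linarith [h'.2], by linarith [h'.1]⟩]

/-- smoothing by the heat semigroup -/
lemma A_Duh_le {c : ℝ} (hc : 0 < c) {F : Fam} (hF : CF F) (hF0 : ∀ t, F 0 t = 0) {t : ℝ} (ht : 0 < t) :
    NW (Wa 0) (at' (Duh c F) t) ≤ ∫⁻ s in Ioo 0 t, ENNReal.ofReal (1 / √(c * (t - s))) * NW (Wm 0) (at' F s) := by
  have hm : ∀ k, Measurable fun s => ENNReal.ofReal (1 / √(c * (t - s))) * (Wm 0 k * ‖F k s‖ₑ) := fun k =>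
    (by fun_prop : Measurable fun s : ℝ => ENNReal.ofReal (1 / √(c * (t - s)))).mul
      (((hF k).enorm.measurable).const_mul _)
  have hk : ∀ k, Wa 0 k * ‖Duh c F k t‖ₑ ≤
      ∫⁻ s in Ioo 0 t, ENNReal.ofReal (1 / √(c * (t - s))) * (Wm 0 k * ‖F k s‖ₑ) := by
    intro k
    by_cases hk0 : k = 0
    · subst hk0
      have h1 : ‖Duh c F 0 t‖ₑ = 0 := by
        refine le_antisymm ((enorm_Duh_le c F 0 ht.le).trans ?_) zero_le
        simp [hF0]
      rw [h1, mul_zero]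
      exact zero_le
    · have hn := nk_pos hk0
      have o : om 0 k = 1 := by simp [om]
      have h1 : Wa 0 k = 1 := by unfold Wa; rw [o, ENNReal.ofReal_one]
      rw [h1, one_mul]
      refine (enorm_Duh_le c F k ht.le).trans ?_
      rw [← setLIntegral_congr (Ioo_ae_eq_Ioc (μ := volume) (a := (0 : ℝ)) (b := t))]
      refine setLIntegral_mono' measurableSet_Ioo fun s hs => ?_
      rw [← mul_assoc]
      apply mul_le_mul' _ le_rfl
      unfold Wm
      have hts : 0 < t - s := sub_pos.2 hs.2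
      rw [o, ← ENNReal.ofReal_mul (by positivity)]
      apply ENNReal.ofReal_le_ofReal
      have hy : 0 < √(c * (t - s)) * nk k := mul_pos (Real.sqrt_pos.2 (by positivity)) hn
      have e1 : c * sq k * (t - s) = (√(c * (t - s)) * nk k) ^ 2 := by
        rw [mul_pow, Real.sq_sqrt (by positivity), pow_two (nk k), nk_mul_self]
        ring
      rw [e1, Real.exp_neg, one_div_mul_one_div, ← one_div]
      apply one_div_le_one_div_of_le hy
      have h2 := Real.add_one_le_exp ((√(c * (t - s)) * nk k) ^ 2)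
      nlinarith [sq_nonneg (√(c * (t - s)) * nk k - 1)]
  calc NW (Wa 0) (at' (Duh c F) t)
      ≤ ∑' k, ∫⁻ s in Ioo 0 t, ENNReal.ofReal (1 / √(c * (t - s))) * (Wm 0 k * ‖F k s‖ₑ) :=
        ENNReal.tsum_le_tsum hk
    _ = ∫⁻ s in Ioo 0 t, ∑' k, ENNReal.ofReal (1 / √(c * (t - s))) * (Wm 0 k * ‖F k s‖ₑ) :=
        (lintegral_tsum fun k => (hm k).aemeasurable).symm
    _ = _ := by
        refine lintegral_congr fun s => ?_
        rw [ENNReal.tsum_mul_left]
        rfl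

lemma NW_eq_An' {x : K → C3} (h : SN x) : NW (Wa 0) x = ENNReal.ofReal (∑' k, ‖x k‖) := by
  unfold NW Wa
  rw [ENNReal.ofReal_tsum_of_nonneg (fun _ => norm_nonneg _) h]
  refine tsum_congr fun k => ?_
  have o : om 0 k = 1 := by simp [om]
  rw [o, ENNReal.ofReal_one, one_mul, ofReal_norm]

/-- the nonlinear difference -/
lemma NW_Bx_diff {χ : ℝ → ℝ} (hχ : CutT χ) {U r : Fam} (hUs : ∀ t, SN (at' U t)) (hrs : ∀ t, SN (at' r t)) (t : ℝ) :
    NW (Wm 0) (at' (Bx χ (U + r) - Bx χ U) t) ≤ ENNReal.ofReal C0 *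
      (2 * (NW (Wa 0) (at' U t) * NW (Wa 0) (at' r t)) + NW (Wa 0) (at' r t) * NW (Wa 0) (at' r t)) := by
  have nx := hUs t
  have ny := hrs t
  have e1 : at' (Bx χ (U + r) - Bx χ U) t = χ t • (Bf (at' U t) (at' r t) + Bf (at' r t) (at' U t)
      + Bf (at' r t) (at' r t)) := by
    have e0 : at' (Bx χ (U + r) - Bx χ U) t
        = χ t • Bf (at' U t + at' r t) (at' U t + at' r t) - χ t • Bf (at' U t) (at' U t) := rfl
    rw [e0, Bf_add_left nx ny (nx.add ny), Bf_add_right nx nx ny, Bf_add_right ny nx ny, ← smul_sub]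
    congr 1
    abel
  rw [e1]
  refine (NW_smul_le _ (hχ.nn t) (hχ.le t) _).trans ((NW_add_le _ _ _).trans ((add_le_add ((NW_add_le _ _ _).trans
    (add_le_add (NW_Bf_le le_rfl _ _) (NW_Bf_le le_rfl _ _))) (NW_Bf_le le_rfl _ _)).trans (le_of_eq ?_)))
  rw [mul_add, two_mul, mul_add, mul_comm (NW (Wa 0) (at' r t)) (NW (Wa 0) (at' U t))]

/-- A bound of the form `√t ‖r(t)‖ ≤ C` for solutions of an integral equation. -/
theorem kbound {χ : ℝ → ℝ} (hχ : CutT χ) {c : ℝ} (hc : 0 < c) {U r FE : Fam} {r0 : K → C3} (hFEc : CF FE) (hBc : CF (Bx χ (U + r) - Bx χ U)) (hUs : ∀ t, SN (at' U t)) (hrs : ∀ t, SN (at' r t))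
    (hFE0 : ∀ t, FE 0 t = 0)
    (hfix : ∀ k t, r k t = Real.exp (-(c * sq k * max t 0)) • r0 k + Duh c (FE + (Bx χ (U + r) - Bx χ U)) k t)
    {T : ℝ} (hcont : ContinuousOn (fun t => ∑' k, ‖r k t‖) (Icc 0 T))
    {η0 m P G H s0 : ℝ} (hη0 : 0 < η0) (hm0 : 0 ≤ m) (hP0 : 0 ≤ P) (hG0 : 0 ≤ G) (hH0 : 0 ≤ H) (hs0 : 0 < s0)
    (hH : ∀ t, 0 < t → t ≤ T → ENNReal.ofReal (√(min t η0)) *
      NW (Wa 0) (fun k => Real.exp (-(c * sq k * max t 0)) • r0 k) ≤ ENNReal.ofReal H)
    (hm : ∀ t, 0 < t → t ≤ T → ENNReal.ofReal (√(min t η0)) * NW (Wa 0) (at' U t) ≤ ENNReal.ofReal m)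
    (hP : ∫⁻ t in Ioi 0, (2 * (NW (Wa 0) (at' U t) * NW (Wa 0) (at' r t)) + NW (Wa 0) (at' r t) * NW (Wa 0) (at' r t))
      ≤ ENNReal.ofReal P)
    (hG1 : ∫⁻ t in Ioi 0, NW (Wm 0) (at' FE t) ≤ ENNReal.ofReal G)
    (hG2 : ∀ t s, 0 < t → t ≤ T → t / 2 ≤ s → s ≤ t →
      ENNReal.ofReal (min t η0) * NW (Wm 0) (at' FE s) ≤ ENNReal.ofReal G)
    (c1 : H + √2 / √c * (2 * G + C0 * P) ≤ s0) (c2 : √2 / √c * C0 * (4 * m) ≤ 1 / 4)
    (c3 : √2 / √c * C0 * (2 * (2 * s0)) ≤ 1 / 8) :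
    ∀ t, 0 < t → t ≤ T → ENNReal.ofReal (√(min t η0)) * NW (Wa 0) (at' r t) ≤ ENNReal.ofReal (2 * s0) := by
  have hC := C0_pos
  have hsc : 0 < √c := Real.sqrt_pos.2 hc
  obtain ⟨f, hf⟩ : ∃ f : ℝ → ℝ, f = fun t => ∑' k, ‖r k t‖ := ⟨_, rfl⟩
  have hf0 : ∀ t, 0 ≤ f t := fun t => by rw [hf]; exact tsum_nonneg fun _ => norm_nonneg _
  have hAr : ∀ t, NW (Wa 0) (at' r t) = ENNReal.ofReal (f t) := fun t => by rw [hf]; exact NW_eq_An' (hrs t)
  obtain ⟨g, hg⟩ : ∃ g : ℝ → ℝ, g = fun t => √(min t η0) * f t := ⟨_, rfl⟩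
  have hgc : ContinuousOn g (Icc 0 T) := by
    rw [hg, hf]
    exact (by fun_prop : Continuous fun t : ℝ => √(min t η0)).continuousOn.mul hcont
  obtain ⟨Q, hQ⟩ : ∃ Q, Q = √2 / √c := ⟨_, rfl⟩
  have hQ0 : 0 < Q := by rw [hQ]; positivity
  rw [← hQ] at c1 c2 c3
  have key : ∀ t, 0 < t → t ≤ T → (∀ s, 0 < s → s < t → g s ≤ 2 * s0) → g t ≤ 7 / 4 * s0 := by
    intro t ht htT hsm
    obtain ⟨w, hw⟩ : ∃ w, w = √(min t η0) := ⟨_, rfl⟩
    have hmin : 0 < min t η0 := lt_min ht hη0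
    have hw0 : 0 < w := by rw [hw]; exact Real.sqrt_pos.2 hmin
    have hw2 : w ^ 2 = min t η0 := by rw [hw]; exact Real.sq_sqrt hmin.le
    obtain ⟨θ, hθ⟩ : ∃ θ, θ = w ^ 2 / 2 := ⟨_, rfl⟩
    have hθ0 : 0 < θ := by rw [hθ]; positivity
    have hθt : θ ≤ t / 2 := by
      rw [hθ, hw2]
      have := min_le_left t η0
      linarith
    have hθη : θ ≤ η0 / 2 := by
      rw [hθ, hw2]
      have := min_le_right t η0
      linarith
    have hsθ : √θ = w / √2 := by
      rw [hθ, Real.sqrt_div (by positivity), Real.sqrt_sq hw0.le]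
    obtain ⟨Φ, hΦ⟩ : ∃ Φ : ℝ → ℝ≥0∞, Φ = fun s => NW (Wm 0) (at' FE s) + ENNReal.ofReal C0 *
      (2 * (NW (Wa 0) (at' U s) * NW (Wa 0) (at' r s)) + NW (Wa 0) (at' r s) * NW (Wa 0) (at' r s)) := ⟨_, rfl⟩
    have hΦ1 : ∀ s, NW (Wm 0) (at' (FE + (Bx χ (U + r) - Bx χ U)) s) ≤ Φ s := fun s => by
      rw [hΦ]
      exact (NW_add_le _ _ _).trans (add_le_add le_rfl (NW_Bx_diff hχ hUs hrs s))
    have hΦi : ∫⁻ s in Ioi 0, Φ s ≤ ENNReal.ofReal (G + C0 * P) := by
      rw [hΦ, ENNReal.ofReal_add hG0 (by positivity), ENNReal.ofReal_mul hC.le]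
      rw [lintegral_add_left (NW_meas _ hFEc), lintegral_const_mul' _ _ ENNReal.ofReal_ne_top]
      exact add_le_add hG1 (mul_le_mul' le_rfl hP)
    have hF0 : ∀ s, (FE + (Bx χ (U + r) - Bx χ U)) 0 s = 0 := fun s => by
      show FE 0 s + (χ s • Bf _ _ 0 - χ s • Bf _ _ 0) = 0
      rw [hFE0, Bf_zero, Bf_zero, sub_self, add_zero]
    have hFc : CF (FE + (Bx χ (U + r) - Bx χ U)) := fun k => (hFEc k).add (hBc k)
    have hnear : ∀ s ∈ Ioo (t - θ) t, ENNReal.ofReal (w ^ 2) * Φ s ≤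
        ENNReal.ofReal (G + C0 * (4 * m * (2 * s0) + 2 * (2 * s0) * (2 * s0))) := by
      intro s hs
      have hs0' : t / 2 ≤ s := by linarith [hs.1]
      have hsp : 0 < s := by linarith
      obtain ⟨z, hz⟩ : ∃ z, z = √(min s η0) := ⟨_, rfl⟩
      have hmin' : 0 < min s η0 := lt_min hsp hη0
      have hz0 : 0 < z := by rw [hz]; exact Real.sqrt_pos.2 hmin'
      have hz2 : z ^ 2 = min s η0 := by rw [hz]; exact Real.sq_sqrt hmin'.le
      have hzw : w ^ 2 ≤ 2 * z ^ 2 := by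
        rw [hw2, hz2]
        rcases le_total s η0 with h1 | h1
        · rw [min_eq_left h1]
          have := min_le_left t η0
          linarith
        · rw [min_eq_right h1]
          have := min_le_right t η0
          linarith
      have a1 : ENNReal.ofReal z * NW (Wa 0) (at' U s) ≤ ENNReal.ofReal m := by
        rw [hz]; exact hm s hsp (hs.2.le.trans htT)
      have a2 : ENNReal.ofReal z * NW (Wa 0) (at' r s) ≤ ENNReal.ofReal (2 * s0) := by
        rw [hAr, ← ENNReal.ofReal_mul hz0.le]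
        apply ENNReal.ofReal_le_ofReal
        have := hsm s hsp hs.2
        rw [hg] at this
        rw [hz]
        exact this
      have e2 : ENNReal.ofReal (w ^ 2) ≤ 2 * (ENNReal.ofReal z * ENNReal.ofReal z) := by
        rw [← ENNReal.ofReal_mul hz0.le, ← ENNReal.ofReal_ofNat, ← ENNReal.ofReal_mul (by norm_num)]
        apply ENNReal.ofReal_le_ofReal
        nlinarith
      rw [hΦ]
      simp only
      rw [mul_add, ENNReal.ofReal_add hG0 (by positivity), ENNReal.ofReal_mul hC.le]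
      refine add_le_add ?_ ?_
      · rw [hw2]
        exact hG2 t s ht htT hs0' hs.2.le
      · rw [mul_left_comm]
        apply mul_le_mul' le_rfl
        calc ENNReal.ofReal (w ^ 2) * (2 * (NW (Wa 0) (at' U s) * NW (Wa 0) (at' r s))
              + NW (Wa 0) (at' r s) * NW (Wa 0) (at' r s))
            ≤ 2 * (ENNReal.ofReal z * ENNReal.ofReal z) * (2 * (NW (Wa 0) (at' U s) * NW (Wa 0) (at' r s))
              + NW (Wa 0) (at' r s) * NW (Wa 0) (at' r s)) := mul_le_mul' e2 le_rfl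
          _ = 4 * ((ENNReal.ofReal z * NW (Wa 0) (at' U s)) * (ENNReal.ofReal z * NW (Wa 0) (at' r s)))
              + 2 * ((ENNReal.ofReal z * NW (Wa 0) (at' r s)) * (ENNReal.ofReal z * NW (Wa 0) (at' r s))) := by ring
          _ ≤ 4 * (ENNReal.ofReal m * ENNReal.ofReal (2 * s0))
              + 2 * (ENNReal.ofReal (2 * s0) * ENNReal.ofReal (2 * s0)) := by gcongr
          _ = ENNReal.ofReal (4 * m * (2 * s0) + 2 * (2 * s0) * (2 * s0)) := by
              rw [ENNReal.ofReal_add (by positivity) (by positivity), mul_assoc (4 : ℝ), mul_assoc (2 : ℝ) (2 * s0),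
                ENNReal.ofReal_mul (p := 4) (by norm_num), ENNReal.ofReal_mul (p := m) hm0,
                ENNReal.ofReal_mul (p := 2) (q := 2 * s0 * (2 * s0)) (by norm_num),
                ENNReal.ofReal_mul (p := 2 * s0) (by positivity)]
              simp only [ENNReal.ofReal_ofNat]
    obtain ⟨N1, hN1⟩ : ∃ N1, N1 = G + C0 * (4 * m * (2 * s0) + 2 * (2 * s0) * (2 * s0)) := ⟨_, rfl⟩
    have hN10 : 0 ≤ N1 := by rw [hN1]; positivity
    rw [← hN1] at hnear
    have hw2' : ENNReal.ofReal (w ^ 2) ≠ 0 := by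
      rw [Ne, ENNReal.ofReal_eq_zero, not_le]; positivity
    have hnear' : ∀ s ∈ Ioo (t - θ) t, Φ s ≤ ENNReal.ofReal (N1 / w ^ 2) := by
      intro s hs
      rw [ENNReal.ofReal_div_of_pos (by positivity), ENNReal.le_div_iff_mul_le (Or.inl hw2') (Or.inl ENNReal.ofReal_ne_top),
        mul_comm]
      exact hnear s hs
    have hD : NW (Wa 0) (at' (Duh c (FE + (Bx χ (U + r) - Bx χ U))) t) ≤
        ENNReal.ofReal (1 / √(c * θ) * (G + C0 * P)) + ENNReal.ofReal (2 * √θ / √c * (N1 / w ^ 2)) := by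
      refine (A_Duh_le hc hFc hF0 ht).trans ?_
      have hsub : Ioo 0 t ⊆ Ioc 0 (t - θ) ∪ Ioo (t - θ) t := by
        intro s hs
        rcases le_or_gt s (t - θ) with h1 | h1
        · exact Or.inl ⟨hs.1, h1⟩
        · exact Or.inr ⟨h1, hs.2⟩
      refine ((lintegral_mono_set hsub).trans (lintegral_union_le _ _ _)).trans (add_le_add ?_ ?_)
      · rw [ENNReal.ofReal_mul (by positivity)]
        refine le_trans ?_ (mul_le_mul' le_rfl hΦi)
        rw [← lintegral_const_mul' _ _ ENNReal.ofReal_ne_top]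
        refine le_trans ?_ (lintegral_mono_set (show Ioc (0 : ℝ) (t - θ) ⊆ Ioi 0 from Ioc_subset_Ioi_self))
        refine setLIntegral_mono' measurableSet_Ioc fun s hs => mul_le_mul' ?_ (hΦ1 s)
        apply ENNReal.ofReal_le_ofReal
        apply one_div_le_one_div_of_le (Real.sqrt_pos.2 (by positivity))
        apply Real.sqrt_le_sqrt
        have : θ ≤ t - s := by linarith [hs.2]
        exact mul_le_mul_of_nonneg_left this hc.le
      · rw [ENNReal.ofReal_mul (by positivity)]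
        refine le_trans ?_ (mul_le_mul' (lint_sqrt hc hθ0.le (t := t)) le_rfl)
        rw [← lintegral_mul_const' _ _ ENNReal.ofReal_ne_top]
        exact setLIntegral_mono' measurableSet_Ioo fun s hs => mul_le_mul' le_rfl ((hΦ1 s).trans (hnear' s hs))
    have hdec : at' r t = (fun k => Real.exp (-(c * sq k * max t 0)) • r0 k)
        + at' (Duh c (FE + (Bx χ (U + r) - Bx χ U))) t := by
      funext k
      exact hfix k t
    have hfin : ENNReal.ofReal (w * f t) ≤ ENNReal.ofReal (H + (w * (1 / √(c * θ) * (G + C0 * P))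
        + w * (2 * √θ / √c * (N1 / w ^ 2)))) := by
      rw [ENNReal.ofReal_mul hw0.le, ← hAr, hdec, ENNReal.ofReal_add hH0 (by positivity),
        ENNReal.ofReal_add (by positivity) (by positivity), ENNReal.ofReal_mul (p := w) hw0.le,
        ENNReal.ofReal_mul (p := w) hw0.le, ← mul_add]
      refine (mul_le_mul' le_rfl (NW_add_le _ _ _)).trans ?_
      rw [mul_add]
      refine add_le_add ?_ (mul_le_mul' le_rfl hD)
      rw [hw]
      exact hH t ht htT
    have hfin' := (ENNReal.ofReal_le_ofReal_iff (by positivity)).1 hfin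
    have hs2 : 0 < √2 := Real.sqrt_pos.2 (by norm_num)
    have hs22 : √2 * √2 = 2 := Real.mul_self_sqrt (by norm_num)
    have r1 : w * (1 / √(c * θ) * (G + C0 * P)) = Q * (G + C0 * P) := by
      rw [Real.sqrt_mul hc.le, hsθ, hQ]
      field_simp
    have r2 : w * (2 * √θ / √c * (N1 / w ^ 2)) = Q * N1 := by
      have e0 : w * (2 * (w / √2) / √c * (N1 / w ^ 2)) = 2 / √2 / √c * N1 := by
        field_simp
      have e1 : 2 / √2 = √2 := by
        rw [div_eq_iff hs2.ne', hs22]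
      rw [hsθ, hQ, e0, e1]
    rw [r1, r2] at hfin'
    have hgt : g t = w * f t := by rw [hg, hw]
    rw [hgt]
    refine hfin'.trans ?_
    have r3 : H + (Q * (G + C0 * P) + Q * N1) = (H + Q * (2 * G + C0 * P)) + (Q * C0 * (4 * m)) * (2 * s0)
        + (Q * C0 * (2 * (2 * s0))) * (2 * s0) := by
      rw [hN1]; ring
    rw [r3]
    have r4 : (Q * C0 * (4 * m)) * (2 * s0) ≤ 1 / 4 * (2 * s0) := mul_le_mul_of_nonneg_right c2 (by positivity)
    have r5 : (Q * C0 * (2 * (2 * s0))) * (2 * s0) ≤ 1 / 8 * (2 * s0) := mul_le_mul_of_nonneg_right c3 (by positivity)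
    linarith
  -- continuity argument
  have hall : ∀ t, 0 < t → t ≤ T → g t ≤ 2 * s0 := by
    intro t1 ht1 ht1T
    by_contra hcon
    push Not at hcon
    obtain ⟨Z, hZ⟩ : ∃ Z, Z = Icc 0 t1 ∩ g ⁻¹' (Ici (2 * s0)) := ⟨_, rfl⟩
    have hZc : IsClosed Z := by
      rw [hZ]
      exact ((hgc.mono (Icc_subset_Icc_right ht1T)).preimage_isClosed_of_isClosed isClosed_Icc isClosed_Ici)
    have hZne : Z.Nonempty := ⟨t1, by rw [hZ]; exact ⟨⟨ht1.le, le_rfl⟩, hcon.le⟩⟩
    have hZb : BddBelow Z := ⟨0, fun x hx => by rw [hZ] at hx; exact hx.1.1⟩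
    have hmem := hZc.csInf_mem hZne hZb
    obtain ⟨t, hte⟩ : ∃ t, t = sInf Z := ⟨_, rfl⟩
    rw [← hte] at hmem
    have hmem' := hmem
    rw [hZ] at hmem'
    have h1 : 2 * s0 ≤ g t := hmem'.2
    have h2 : 0 < t := by
      rcases hmem'.1.1.lt_or_eq with h3 | h3
      · exact h3
      · exfalso
        rw [← h3, hg] at h1
        simp only at h1
        rw [min_eq_left hη0.le, Real.sqrt_zero, zero_mul] at h1
        linarith
    have h3 := key t h2 (hmem'.1.2.trans ht1T) fun s hs hst => by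
      by_contra h4
      push Not at h4
      have h5 : s ∈ Z := by
        rw [hZ]
        exact ⟨⟨hs.le, hst.le.trans hmem'.1.2⟩, h4.le⟩
      have h6 : t ≤ s := by rw [hte]; exact csInf_le hZb h5
      linarith
    linarith
  intro t ht htT
  rw [hAr, ← ENNReal.ofReal_mul (Real.sqrt_nonneg _)]
  apply ENNReal.ofReal_le_ofReal
  have := hall t ht htT
  rw [hg] at this
  exact this

end Pool.Agent.H356R3.NS.X
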