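import Pool.Agent.H3NY.X.Run

namespace Pool.Agent.H356R3.NS
end Pool.Agent.H356R3.NS
namespace Pool.Agent.H356R3.NS.H3
end Pool.Agent.H356R3.NS.H3
namespace Pool.Agent.H356R3.NS.X
end Pool.Agent.H356R3.NS.X
namespace Pool.Agent.H3NS
end Pool.Agent.H3NS
namespace H459R3.NS
end H459R3.NS

set_option autoImplicit false
set_option maxHeartbeats 4000000
set_option synthInstance.maxHeartbeats 400000

open MeasureTheory Set Filter Topology
open scoped ENNReal NNReal

namespace Pool.Agent.H356R3.NS.X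

open Pool.Agent.H3NS

lemma exists_shell {k : K} (hk : k ≠ 0) : ∃ j : ℕ, (4 : ℝ) ^ j ≤ sq k ∧ sq k < 4 ^ (j + 1) :=
  exists_nat_pow_near (one_le_sq hk) (by norm_num)

lemma enorm_le_crit {r : ℝ} (hr : 1 ≤ r) (x : K → C3) {k : K} (hk : k ≠ 0) :
    ‖x k‖ₑ ≤ ENNReal.ofReal (nk k) * critNorm r x := by
  have hr0 : 0 < r := by linarith
  obtain ⟨j, h1, h2⟩ := exists_shell hk
  have h3 : ‖x k‖ₑ / 2 ^ j ≤ critNorm r x := by
    unfold critNorm
    calc ‖x k‖ₑ / 2 ^ j ≤ shellSum x j / 2 ^ j := by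
          apply ENNReal.div_le_div_right
          rw [shellSum_eq]
          unfold shell
          refine le_trans (le_of_eq ?_) (ENNReal.le_tsum k)
          rw [if_pos ⟨h1, h2⟩]
      _ = ((shellSum x j / 2 ^ j) ^ r) ^ (1 / r) := by
          rw [← ENNReal.rpow_mul, mul_one_div_cancel hr0.ne', ENNReal.rpow_one]
      _ ≤ _ := ENNReal.rpow_le_rpow (ENNReal.le_tsum j) (by positivity)
  have h4 : (2 : ℝ) ^ j ≤ nk k := by
    unfold nk
    apply Real.le_sqrt_of_sq_le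
    calc ((2 : ℝ) ^ j) ^ 2 = 4 ^ j := by rw [← pow_mul, mul_comm, pow_mul]; norm_num
      _ ≤ _ := h1
  have h5 : (2 : ℝ≥0∞) ^ j ≤ ENNReal.ofReal (nk k) := by
    have : (2 : ℝ≥0∞) ^ j = ENNReal.ofReal (2 ^ j) := by
      rw [ENNReal.ofReal_pow (by norm_num)]; simp
    rw [this]
    exact ENNReal.ofReal_le_ofReal h4
  calc ‖x k‖ₑ = 2 ^ j * (‖x k‖ₑ / 2 ^ j) := by
        rw [ENNReal.mul_div_cancel (by positivity) (by simp)]
    _ ≤ _ := mul_le_mul' h5 h3

/-- lower semicontinuity of the critical norm -/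
lemma critNorm_le_of_tendsto {r : ℝ} (hr : 1 ≤ r) {x : ℕ → K → C3} {y : K → C3}
    (h : ∀ k, Tendsto (fun n => x n k) atTop (𝓝 (y k))) {C : ℝ≥0∞} (hC : ∀ᶠ n in atTop, critNorm r (x n) ≤ C) :
    critNorm r y ≤ C := by
  have hr0 : 0 < r := by linarith
  have hsh : ∀ (z : K → C3) (j : ℕ), shellSum z j =
      NW (fun k => if (4 : ℝ) ^ j ≤ sq k ∧ sq k < 4 ^ (j + 1) then 1 else 0) z := by
    intro z j
    rw [shellSum_eq]
    unfold shell NW
    refine tsum_congr fun k => ?_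
    by_cases hc : (4 : ℝ) ^ j ≤ sq k ∧ sq k < 4 ^ (j + 1)
    · simp only [if_pos hc, one_mul]
    · simp only [if_neg hc, zero_mul]
  have hfat : ∀ φ : ℕ → ℕ → ℝ≥0∞, ∑' j, liminf (fun n => φ n j) atTop ≤ liminf (fun n => ∑' j, φ n j) atTop := by
    intro φ
    have h3 := lintegral_liminf_le (μ := (Measure.count : Measure ℕ)) (f := φ) (u := atTop)
      (fun n => measurable_of_countable _)
    rw [lintegral_count] at h3
    simp only [lintegral_count] at h3
    exact h3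
  have h1 : ∀ j, (shellSum y j / 2 ^ j) ^ r ≤ liminf (fun n => (shellSum (x n) j / 2 ^ j) ^ r) atTop := by
    intro j
    have hmono : Monotone fun z : ℝ≥0∞ => (z / 2 ^ j) ^ r := fun a b hab =>
      ENNReal.rpow_le_rpow (ENNReal.div_le_div_right hab _) hr0.le
    have hcont : Continuous fun z : ℝ≥0∞ => (z / 2 ^ j) ^ r :=
      (ENNReal.continuous_rpow_const).comp (ENNReal.continuous_div_const _ (by positivity))
    have h5 := hmono.map_liminf_of_continuousAt (F := atTop) (fun n => shellSum (x n) j) hcont.continuousAt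
    have h6 : shellSum y j ≤ liminf (fun n => shellSum (x n) j) atTop := by
      simp only [hsh]
      exact NW_le_liminf (fun k => by split_ifs <;> simp) h
    exact (hmono h6).trans (le_of_eq h5)
  have h2 : ∑' j, (shellSum y j / 2 ^ j) ^ r ≤ C ^ r := by
    calc ∑' j, (shellSum y j / 2 ^ j) ^ r
        ≤ ∑' j, liminf (fun n => (shellSum (x n) j / 2 ^ j) ^ r) atTop := ENNReal.tsum_le_tsum h1
      _ ≤ liminf (fun n => ∑' j, (shellSum (x n) j / 2 ^ j) ^ r) atTop :=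
          hfat fun n j => (shellSum (x n) j / 2 ^ j) ^ r
      _ ≤ liminf (fun _ : ℕ => C ^ r) atTop := by
          refine liminf_le_liminf (hC.mono fun n hn => ?_)
          have := ENNReal.rpow_le_rpow hn hr0.le
          unfold critNorm at this
          rw [← ENNReal.rpow_mul, one_div_mul_cancel hr0.ne', ENNReal.rpow_one] at this
          exact this
      _ = _ := liminf_const _
  unfold critNorm
  calc _ ≤ (C ^ r) ^ (1 / r) := ENNReal.rpow_le_rpow h2 (by positivity)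
    _ = C := by rw [← ENNReal.rpow_mul, mul_one_div_cancel hr0.ne', ENNReal.rpow_one]

lemma LP_le_of_tendsto {p : ℝ} (hp : 0 < p) {x : ℕ → Fam} {y : Fam} (hx : ∀ n, CF (x n))
    (h : ∀ k t, Tendsto (fun n => x n k t) atTop (𝓝 (y k t))) {C : ℝ≥0∞}
    (hC : ∀ᶠ n in atTop, LP p (x n) ≤ C) : LP p y ≤ C := by
  have h2 : ∫⁻ t in Ioc 0 1, NW (Wa 0) (at' y t) ^ p ≤ C ^ p := by
    calc ∫⁻ t in Ioc 0 1, NW (Wa 0) (at' y t) ^ p
        ≤ ∫⁻ t in Ioc 0 1, liminf (fun n => NW (Wa 0) (at' (x n) t) ^ p) atTop := by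
          refine lintegral_mono fun t => ?_
          have hmono : Monotone fun z : ℝ≥0∞ => z ^ p := fun a b hab => ENNReal.rpow_le_rpow hab hp.le
          have h5 := hmono.map_liminf_of_continuousAt (F := atTop) (fun n => NW (Wa 0) (at' (x n) t))
            (ENNReal.continuous_rpow_const).continuousAt
          have h6 : NW (Wa 0) (at' y t) ≤ liminf (fun n => NW (Wa 0) (at' (x n) t)) atTop :=
            NW_le_liminf (Wa_ne_top 0) (x := fun n => at' (x n) t) (fun k => h k t)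
          exact (hmono h6).trans (le_of_eq h5)
      _ ≤ liminf (fun n => ∫⁻ t in Ioc 0 1, NW (Wa 0) (at' (x n) t) ^ p) atTop :=
          lintegral_liminf_le fun n => (NW_meas _ (hx n)).pow_const _
      _ ≤ liminf (fun _ : ℕ => C ^ p) atTop := by
          refine liminf_le_liminf (hC.mono fun n hn => ?_)
          have := ENNReal.rpow_le_rpow hn hp.le
          unfold LP at this
          rw [← ENNReal.rpow_mul, one_div_mul_cancel hp.ne', ENNReal.rpow_one] at this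
          exact this
      _ = _ := liminf_const _
  unfold LP
  calc _ ≤ (C ^ p) ^ (1 / p) := ENNReal.rpow_le_rpow h2 (by positivity)
    _ = C := by rw [← ENNReal.rpow_mul, mul_one_div_cancel hp.ne', ENNReal.rpow_one]

lemma norm_le_of_ws {x : K → C3} (h0 : x 0 = 0) {B : ℝ} (hB : 0 ≤ B) {s : ℕ}
    (h : NW (ws s) x ≤ ENNReal.ofReal B) (k : K) : ‖x k‖ ≤ B * (1 / nk k) ^ s := by
  by_cases hk : k = 0
  · subst hk
    rw [h0, norm_zero, nk_zero]
    positivity
  have hn := nk_pos hk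
  have h1 : ws s k * ‖x k‖ₑ ≤ ENNReal.ofReal B := (ENNReal.le_tsum k).trans h
  unfold ws at h1
  rw [← ofReal_norm, ← ENNReal.ofReal_mul (by positivity)] at h1
  have h2 := (ENNReal.ofReal_le_ofReal_iff hB).1 h1
  rw [one_div, inv_pow, ← div_eq_mul_inv, le_div_iff₀ (by positivity)]
  linarith

/-- telescoping -/
lemma tele {u : ℕ → Fam} (hu : ∀ n, CF (u n)) {N : Fam → ℝ≥0∞}
    (hN : ∀ x y, CF x → CF y → N (x + y) ≤ N x + N y) (hN0 : N 0 = 0) {e : ℝ} (he : 0 ≤ e) {j : ℕ}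
    (h : ∀ i, j ≤ i → N (u (i + 1) - u i) ≤ ENNReal.ofReal (e * (1 / 2) ^ i)) (n : ℕ) (hn : j ≤ n) :
    N (u n - u j) ≤ ENNReal.ofReal (2 * e * (1 / 2) ^ j) := by
  have key : N (u n - u j) ≤ ENNReal.ofReal (2 * e * ((1 / 2) ^ j - (1 / 2) ^ n)) := by
    induction n, hn using Nat.le_induction with
    | base => rw [sub_self, hN0]; exact zero_le
    | succ n hn ih =>
      have e1 : u (n + 1) - u j = (u (n + 1) - u n) + (u n - u j) := by abel
      have p1 : (1 / 2 : ℝ) ^ n ≤ (1 / 2) ^ j := pow_le_pow_of_le_one (by norm_num) (by norm_num) hn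
      rw [e1]
      refine (hN _ _ (CF.sub' (hu _) (hu _)) (CF.sub' (hu _) (hu _))).trans ((add_le_add (h n hn) ih).trans ?_)
      rw [← ENNReal.ofReal_add (by positivity) (mul_nonneg (by positivity) (by linarith))]
      apply ENNReal.ofReal_le_ofReal
      rw [pow_succ]
      apply le_of_eq
      ring
  refine key.trans (ENNReal.ofReal_le_ofReal ?_)
  have p1 : (0 : ℝ) ≤ (1 / 2) ^ n := by positivity
  nlinarith

section
variable {χ : ℝ → ℝ} {c : ℝ} {b : K → C3} {S0 : StX χ c} {ρ p dl : ℕ → ℝ} {e : ℝ} {g : ℝ → ℝ}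
    {S : ℕ → StX χ c} {W D : ℕ → K → C3}

/-- the norms of the coefficients -/
noncomputable def ab (x : K → C3) : K → C3 := fun k _ => ((‖x k‖ : ℝ) : ℂ)

lemma norm_ab (x : K → C3) (k : K) : ‖ab x k‖ = ‖x k‖ := by
  unfold ab
  rw [pi_norm_const, Complex.norm_real, norm_norm]

lemma norm_ab_add (x y : K → C3) (k : K) : ‖(ab x + ab y) k‖ = ‖x k‖ + ‖y k‖ := by
  have h1 : (ab x + ab y) k = fun _ => ((‖x k‖ + ‖y k‖ : ℝ) : ℂ) := by
    funext i
    simp [ab]
  rw [h1, pi_norm_const, Complex.norm_real, Real.norm_of_nonneg (by positivity)]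

lemma critNorm_ab {r : ℝ} (hr : 0 ≤ r) (x : K → C3) : critNorm r (ab x) = critNorm r x := by
  apply le_antisymm
  · exact critNorm_mono hr fun k _ => by rw [← ofReal_norm, ← ofReal_norm, norm_ab]
  · exact critNorm_mono hr fun k _ => by rw [← ofReal_norm, ← ofReal_norm, norm_ab]

lemma critNorm_two {r : ℝ} (hr : 1 ≤ r) {x y z : K → C3} (h : ∀ k, ‖x k‖ ≤ ‖y k‖ + ‖z k‖) :
    critNorm r x ≤ critNorm r y + critNorm r z := by
  rw [← critNorm_ab (by linarith) y, ← critNorm_ab (by linarith) z]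
  refine le_trans ?_ (critNorm_add' hr (ab y) (ab z))
  refine critNorm_mono (by linarith) fun k _ => ?_
  rw [← ofReal_norm, ← ofReal_norm, norm_ab_add]
  exact ENNReal.ofReal_le_ofReal (h k)

lemma critNorm_four {r : ℝ} (hr : 1 ≤ r) (x : K → C3) : critNorm r ((4 : ℂ) • x) = 4 * critNorm r x := by
  have h1 := critNorm_smul hr 4 x
  have h2 : ENNReal.ofReal |(4 : ℝ)| = 4 := by norm_num
  rw [h2] at h1
  rw [← h1]
  congr 1

/-- multiplication of the coefficients by a weight -/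
noncomputable def wt (ω : K → ℝ) (x : K → C3) : K → C3 := fun k => ω k • x k

lemma wt_add (ω : K → ℝ) (x y : K → C3) : wt ω (x + y) = wt ω x + wt ω y := by
  funext k
  simp [wt]

lemma wt_sub (ω : K → ℝ) (x y : K → C3) : wt ω (x - y) = wt ω x - wt ω y := by
  funext k
  simp [wt, smul_sub]

lemma norm_wt {ω : K → ℝ} (h : ∀ k, 0 ≤ ω k) (x : K → C3) (k : K) : ‖wt ω x k‖ = ω k * ‖x k‖ := by
  unfold wt
  rw [norm_smul, Real.norm_of_nonneg (h k)]

lemma critNorm_wt {ω : K → ℝ} (h : ∀ k, 0 ≤ ω k ∧ ω k ≤ 1) {r : ℝ} (hr : 0 ≤ r) (x : K → C3) :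
    critNorm r (wt ω x) ≤ critNorm r x := by
  refine critNorm_mono hr fun k _ => ?_
  rw [← ofReal_norm, ← ofReal_norm, norm_wt fun k => (h k).1]
  exact ENNReal.ofReal_le_ofReal (mul_le_of_le_one_left (norm_nonneg _) (h k).2)

/-- the sizes of the differences of truncations -/
lemma Run.dd (h : Run χ c b S0 ρ p dl e g S W D) {i j l : ℕ} (hij : i ≤ j) (hjl : j ≤ l) (k : K) :
    ‖(D l - D j) k‖ + ‖(D j - D i) k‖ = ‖(D l - D i) k‖ := by
  obtain ⟨M, hM, -⟩ := h.dm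
  simp only [hM, Pi.sub_apply, tru]
  by_cases h1 : k ∈ bx (M + i)
  · have h2 : k ∈ bx (M + j) := bx_mono' (by omega) h1
    have h3 : k ∈ bx (M + l) := bx_mono' (by omega) h1
    simp [h1, h2, h3]
  · by_cases h2 : k ∈ bx (M + j)
    · have h3 : k ∈ bx (M + l) := bx_mono' (by omega) h2
      simp [h1, h2, h3]
    · simp [h1, h2]

lemma Run.db (h : Run χ c b S0 ρ p dl e g S W D) {i j : ℕ} (hij : i ≤ j) (k : K) :
    ‖(D j - D i) k‖ ≤ ‖(b - D i) k‖ := by
  obtain ⟨M, hM, -⟩ := h.dm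
  simp only [hM, Pi.sub_apply, tru]
  by_cases h1 : k ∈ bx (M + i)
  · have h2 : k ∈ bx (M + j) := bx_mono' (by omega) h1
    simp [h1, h2]
  · by_cases h2 : k ∈ bx (M + j) <;> simp [h1, h2]

lemma Run.bD (h : Run χ c b S0 ρ p dl e g S W D) (j : ℕ) (k : K) : ‖(b - D j) k‖ ≤ ‖b k‖ := by
  obtain ⟨M, hM, -⟩ := h.dm
  simp only [hM, Pi.sub_apply, tru]
  by_cases h1 : k ∈ bx (M + j) <;> simp [h1]

/-- each coefficient is reached -/
lemma Run.ev (h : Run χ c b S0 ρ p dl e g S W D) (k : K) : ∃ J, ∀ j, J ≤ j → D j k = b k := by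
  obtain ⟨M, hM, -⟩ := h.dm
  refine ⟨∑ i, (k i).natAbs, fun j hj => ?_⟩
  rw [hM]
  unfold tru
  rw [if_pos (bx_mono' (by omega) (mem_bx_self k))]

/-- the truncations converge in the critical norm -/
lemma Run.tail (h : Run χ c b S0 ρ p dl e g S W D) {r : ℝ} (hr : 0 < r) {ω : K → ℝ} (hb : critNorm r (wt ω b) ≠ ⊤) :
    Tendsto (fun j => critNorm r (wt ω (b - D j))) atTop (𝓝 0) := by
  obtain ⟨M, hM, -⟩ := h.dm
  rw [ENNReal.tendsto_nhds_zero]
  intro η hη
  obtain ⟨ε, hε, hεη⟩ : ∃ ε : ℝ, 0 < ε ∧ ENNReal.ofReal ε ≤ η := by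
    by_cases h1 : η = ⊤
    · exact ⟨1, one_pos, by rw [h1]; exact le_top⟩
    · exact ⟨η.toReal, ENNReal.toReal_pos hη.ne' h1, ENNReal.ofReal_toReal_le⟩
  obtain ⟨N, hN⟩ := tru_tail hr hb hε
  filter_upwards [eventually_ge_atTop N] with j hj
  refine le_trans (critNorm_mono hr.le fun k _ => ?_) (hN.trans hεη)
  rw [hM]
  simp only [wt, Pi.sub_apply, tru]
  by_cases h1 : k ∈ bx (M + j)
  · simp [h1]
  · have h2 : k ∉ bx N := fun h2 => h1 (bx_mono' (by omega) h2)
    simp [h1, h2]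

/-- one step, coefficient by coefficient -/
lemma Run.st (h : Run χ c b S0 ρ p dl e g S W D) (he : 0 ≤ e) (hρ2 : ∀ j, 2 < ρ j) (hρ : Antitone ρ) (j : ℕ) (t : ℝ) :
    ∃ P : K → C3, (∀ k, ‖(S (j + 1 + 1)).u k t - (S (j + 1)).u k t‖ ≤ ‖P k‖ + 4 * ‖(D (j + 1) - D j) k‖) ∧
      ∀ r, ρ j ≤ r → critNorm r P ≤ ENNReal.ofReal (11 * e * (1 / 2) ^ (j + 1)) := by
  obtain ⟨R, hR1, hR2⟩ := h.pw (j + 1)
  refine ⟨ab (ab (W (j + 1)) + ab (at' R t)) + ab ((4 : ℂ) • W j), fun k => ?_, fun r hr => ?_⟩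
  · rw [norm_ab_add, norm_ab_add]
    have h1 := hR1 k t
    have h2 : ‖(D (j + 1) - (S (j + 1)).V) k‖ ≤ ‖(D (j + 1) - D j) k‖ + ‖W j k‖ := by
      rw [h.sV j]
      have h3 : (D (j + 1) - (D j + W j)) k = (D (j + 1) - D j) k - W j k := by
        simp only [Pi.sub_apply, Pi.add_apply]; abel
      rw [h3]
      exact norm_sub_le _ _
    have h4 : ‖((4 : ℂ) • W j) k‖ = 4 * ‖W j k‖ := by
      rw [Pi.smul_apply, norm_smul]
      norm_num
    rw [h4]
    simp only [Pi.sub_apply] at h1 ⊢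
    simp only [Pi.sub_apply] at h2
    show _ ≤ ‖W (j + 1) k‖ + ‖R k t‖ + 4 * ‖W j k‖ + _
    linarith
  · have hr1 : 1 ≤ r := by linarith [hρ2 j]
    have hj1 : ρ (j + 1) ≤ r := (hρ (Nat.le_succ j)).trans hr
    have q : ∀ i, 1 ≤ ρ i := fun i => by linarith [hρ2 i]
    have w1 : critNorm r (W (j + 1)) ≤ ENNReal.ofReal (e * (1 / 2) ^ (j + 1)) :=
      (critNorm_anti (q _) hj1 _).trans (h.wn (j + 1))
    have w0 : critNorm r (W j) ≤ ENNReal.ofReal (e * (1 / 2) ^ j) :=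
      (critNorm_anti (q _) hr _).trans (h.wn j)
    have hr0 : 0 ≤ r := by linarith
    refine (critNorm_add' hr1 _ _).trans ?_
    rw [critNorm_ab hr0, critNorm_ab hr0]
    refine (add_le_add (critNorm_add' hr1 _ _) le_rfl).trans ?_
    rw [critNorm_ab hr0, critNorm_ab hr0]
    rw [critNorm_four hr1]
    have p0 : (0 : ℝ) ≤ (1 / 2) ^ j := by positivity
    refine (add_le_add (add_le_add w1 ((critNorm_le_NW hr1 _).trans (mul_le_mul' le_rfl (hR2 t))))
      (mul_le_mul' le_rfl w0)).trans ?_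
    rw [show (4 : ℝ≥0∞) = ENNReal.ofReal 4 by simp, show (2 : ℝ≥0∞) = ENNReal.ofReal 2 by simp,
      ← ENNReal.ofReal_mul (by norm_num), ← ENNReal.ofReal_mul (by norm_num),
      ← ENNReal.ofReal_add (by positivity) (by positivity), ← ENNReal.ofReal_add (by positivity) (by positivity)]
    apply ENNReal.ofReal_le_ofReal
    rw [pow_succ]
    apply le_of_eq
    ring

/-- many steps, coefficient by coefficient -/
lemma Run.sts (h : Run χ c b S0 ρ p dl e g S W D) (he : 0 ≤ e) (hρ2 : ∀ j, 2 < ρ j) (hρ : Antitone ρ) (j m : ℕ)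
    (hm : j ≤ m) (t : ℝ) :
    ∃ P : K → C3, (∀ k, ‖(S (m + 1)).u k t - (S (j + 1)).u k t‖ ≤ ‖P k‖ + 4 * ‖(D m - D j) k‖) ∧
      ∀ r, ρ j ≤ r → critNorm r P ≤ ENNReal.ofReal (22 * e * ((1 / 2) ^ (j + 1) - (1 / 2) ^ (m + 1))) := by
  induction m, hm using Nat.le_induction with
  | base =>
    refine ⟨0, fun k => by simp, fun r hr => ?_⟩
    have h1 : critNorm r (0 : K → C3) = 0 := by
      have h2 := critNorm_le_NW (by linarith [hρ2 j] : 1 ≤ r) (0 : K → C3)
      rw [NW_zero, mul_zero] at h2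
      exact le_antisymm h2 zero_le
    rw [h1]
    exact zero_le
  | succ m hm ih =>
    obtain ⟨P, h1, h2⟩ := ih
    obtain ⟨Q, h3, h4⟩ := h.st he hρ2 hρ m t
    refine ⟨ab Q + ab P, fun k => ?_, fun r hr => ?_⟩
    · rw [norm_ab_add, ← h.dd hm (Nat.le_succ m) k]
      have e1 : (S (m + 1 + 1)).u k t - (S (j + 1)).u k t
          = ((S (m + 1 + 1)).u k t - (S (m + 1)).u k t) + ((S (m + 1)).u k t - (S (j + 1)).u k t) := by abel
      rw [e1]
      refine (norm_add_le _ _).trans ((add_le_add (h3 k) (h1 k)).trans (le_of_eq ?_))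
      rw [Nat.succ_eq_add_one]
      ring
    · have hr1 : 1 ≤ r := by linarith [hρ2 j]
      have hr0 : 0 ≤ r := by linarith
      have p1 : (1 / 2 : ℝ) ^ (m + 1) ≤ (1 / 2) ^ (j + 1) := pow_le_pow_of_le_one (by norm_num) (by norm_num) (by omega)
      refine (critNorm_add' hr1 _ _).trans ?_
      rw [critNorm_ab hr0, critNorm_ab hr0]
      refine (add_le_add (h4 r ((hρ hm).trans hr)) (h2 r hr)).trans ?_
      rw [← ENNReal.ofReal_add (by positivity) (mul_nonneg (by positivity) (by linarith))]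
      apply ENNReal.ofReal_le_ofReal
      apply le_of_eq
      rw [pow_succ _ (m + 1)]
      ring

/-- The limit of a run. -/
noncomputable def lim (S : ℕ → StX χ c) : Fam := fun k t =>
  (S 1).u k t + ∑' j, ((S (j + 1 + 1)).u k t - (S (j + 1)).u k t)

lemma Run.diff (h : Run χ c b S0 ρ p dl e g S W D) (he : 0 ≤ e) (hρ2 : ∀ j, 2 < ρ j) (hρ : Antitone ρ)
    (k : K) (t : ℝ) (j : ℕ) : ‖(S (j + 1 + 1)).u k t - (S (j + 1)).u k t‖
      ≤ nk k * (11 * e * (1 / 2) ^ (j + 1)) + 4 * ‖(D (j + 1) - D j) k‖ := by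
  by_cases hk : k = 0
  · subst hk
    rw [(S (j + 1 + 1)).sol.z, (S (j + 1)).sol.z, sub_self, norm_zero, nk_zero]
    positivity
  obtain ⟨P, h1, h2⟩ := h.st he hρ2 hρ j t
  refine (h1 k).trans (add_le_add ?_ le_rfl)
  have h3 := (enorm_le_crit (by linarith [hρ2 j] : 1 ≤ ρ j) P hk).trans (mul_le_mul' le_rfl (h2 _ le_rfl))
  rw [← ENNReal.ofReal_mul (nk_nonneg k), ← ofReal_norm] at h3
  exact (ENNReal.ofReal_le_ofReal_iff (mul_nonneg (nk_nonneg k) (by positivity))).1 h3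

lemma Run.summ (h : Run χ c b S0 ρ p dl e g S W D) (k : K) :
    Summable fun j : ℕ => nk k * (11 * e * (1 / 2) ^ (j + 1)) + 4 * ‖(D (j + 1) - D j) k‖ := by
  have h1 := (summable_geometric_of_lt_one (by norm_num) (by norm_num : (1 / 2 : ℝ) < 1)).mul_left
    (nk k * (11 * e) * (1 / 2))
  have h2 : Summable fun j : ℕ => nk k * (11 * e * (1 / 2) ^ (j + 1)) := h1.congr fun j => by rw [pow_succ]; ring
  refine h2.add ?_
  obtain ⟨J, hJ⟩ := h.ev k
  refine summable_of_ne_finset_zero (s := Finset.range J) fun j hj => ?_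
  rw [Finset.mem_range, not_lt] at hj
  rw [Pi.sub_apply, hJ j hj, hJ (j + 1) (by omega), sub_self, norm_zero, mul_zero]

lemma Run.tends (h : Run χ c b S0 ρ p dl e g S W D) (he : 0 ≤ e) (hρ2 : ∀ j, 2 < ρ j) (hρ : Antitone ρ)
    (k : K) (t : ℝ) : Tendsto (fun n => (S n).u k t) atTop (𝓝 (lim S k t)) := by
  have hs : Summable fun j => (S (j + 1 + 1)).u k t - (S (j + 1)).u k t :=
    Summable.of_norm_bounded (h.summ k) fun j => h.diff he hρ2 hρ k t j
  have h1 := hs.hasSum.tendsto_sum_nat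
  have h2 : ∀ n, ∑ j ∈ Finset.range n, ((S (j + 1 + 1)).u k t - (S (j + 1)).u k t)
      = (S (n + 1)).u k t - (S 1).u k t := by
    intro n
    rw [Finset.sum_range_sub (fun j => (S (j + 1)).u k t)]
  simp only [h2] at h1
  have h3 := h1.const_add ((S 1).u k t)
  simp only [add_sub_cancel] at h3
  exact (tendsto_add_atTop_iff_nat 1).1 h3

lemma Run.cf (h : Run χ c b S0 ρ p dl e g S W D) (he : 0 ≤ e) (hρ2 : ∀ j, 2 < ρ j) (hρ : Antitone ρ) :
    CF (lim S) := by
  intro k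
  refine ((S 1).sol.cf k).add (continuous_tsum (fun n => ?_) (h.summ k) fun n t => h.diff he hρ2 hρ k t n)
  exact ((S (n + 1 + 1)).sol.cf k).sub ((S (n + 1)).sol.cf k)

lemma lim_z (S : ℕ → StX χ c) (t : ℝ) : lim S 0 t = 0 := by
  unfold lim
  simp only [(S _).sol.z, sub_self, tsum_zero, add_zero]

lemma Run.sym (h : Run χ c b S0 ρ p dl e g S W D) (he : 0 ≤ e) (hρ2 : ∀ j, 2 < ρ j) (hρ : Antitone ρ) :
    SymF (lim S) := by
  intro t k i
  have h1 : Tendsto (fun n => (S n).u (-k) t i) atTop (𝓝 (lim S (-k) t i)) :=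
    ((continuous_apply i).tendsto _).comp (h.tends he hρ2 hρ (-k) t)
  have h2 : Tendsto (fun n => star ((S n).u k t i)) atTop (𝓝 (star (lim S k t i))) :=
    ((continuous_star.comp (continuous_apply i)).tendsto _).comp (h.tends he hρ2 hρ k t)
  have h3 : (fun n => (S n).u (-k) t i) = fun n => star ((S n).u k t i) := by
    funext n
    exact (S n).sol.sym t k i
  rw [h3] at h1
  exact tendsto_nhds_unique h1 h2

/-- critical closeness -/
lemma Run.crlim (h : Run χ c b S0 ρ p dl e g S W D) (he : 0 ≤ e) (hρ2 : ∀ j, 2 < ρ j) (hρ : Antitone ρ) {r : ℝ}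
    {j : ℕ} (hj : ρ j ≤ r) {ω : K → ℝ} (hω : ∀ k, 0 ≤ ω k ∧ ω k ≤ 1) (t : ℝ) :
    critNorm r (wt ω (at' (lim S - (S (j + 1)).u) t)) ≤
      ENNReal.ofReal (22 * e * (1 / 2) ^ (j + 1)) + 4 * critNorm r (wt ω (b - D j)) := by
  have hr : 1 ≤ r := by linarith [hρ2 j]
  have hr0 : 0 ≤ r := by linarith
  have h1 : ∀ m, j ≤ m → critNorm r (wt ω (at' ((S (m + 1)).u - (S (j + 1)).u) t)) ≤
      ENNReal.ofReal (22 * e * (1 / 2) ^ (j + 1)) + 4 * critNorm r (wt ω (b - D j)) := by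
    intro m hm
    obtain ⟨P, h1, h2⟩ := h.sts he hρ2 hρ j m hm t
    refine (critNorm_two hr (y := wt ω P) (z := (4 : ℂ) • wt ω (b - D j)) fun k => ?_).trans (add_le_add
      (((critNorm_wt hω hr0 P).trans (h2 r hj)).trans (ENNReal.ofReal_le_ofReal ?_)) (le_of_eq ?_))
    · rw [Pi.smul_apply, norm_smul, norm_wt fun k => (hω k).1, norm_wt fun k => (hω k).1, norm_wt fun k => (hω k).1]
      have h3 := h1 k
      have h4 := h.db hm k
      have h5 := (hω k).1
      have h6 : ‖(4 : ℂ)‖ = 4 := by norm_num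
      rw [h6]
      have h7 : ω k * ‖at' ((S (m + 1)).u - (S (j + 1)).u) t k‖ ≤ ω k * (‖P k‖ + 4 * ‖(b - D j) k‖) :=
        mul_le_mul_of_nonneg_left (h3.trans (by linarith)) h5
      linarith
    · have p1 : (0 : ℝ) ≤ (1 / 2) ^ (m + 1) := by positivity
      nlinarith
    · exact critNorm_four hr _
  refine critNorm_le_of_tendsto hr (x := fun n => wt ω (at' ((S (n + 1)).u - (S (j + 1)).u) t)) (fun k => ?_)
    ((eventually_ge_atTop j).mono fun n hn => h1 n hn)
  exact (((h.tends he hρ2 hρ k t).comp (tendsto_add_atTop_nat 1)).sub_const _).const_smul (ω k)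

end

end Pool.Agent.H356R3.NS.X
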