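import Pool.Agent.H3NY.S.Bridge
import Pool.Agent.H3NY.X.BlockF
import Pool.Agent.H3NY.X.Gal
import Pool.Agent.H3NY.X.Gal2
import Pool.Agent.H3NY.X.Ode

namespace Pool.Agent.H356R3.NS
end Pool.Agent.H356R3.NS
namespace Pool.Agent.H356R3.NS.H3
end Pool.Agent.H356R3.NS.H3
namespace Pool.Agent.H356R3.NS.X
end Pool.Agent.H356R3.NS.X
namespace Pool.Agent.H3NS
end Pool.Agent.H3NS
namespace H459R3.NS
end H459R3.NS

set_option autoImplicit false
set_option maxHeartbeats 4000000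
set_option synthInstance.maxHeartbeats 400000

/-!
Smooth paths of periodic fields on the Fourier side.
-/

open MeasureTheory Set Filter Topology
open scoped ENNReal NNReal ContDiff

namespace Pool.Agent.H356R3.NS.X

open Pool.Agent.H3NS
open H459R3.NS (fr ee SP IsSol cube)

section
variable {T : ℝ} {w : ℝ → R3 → R3}

lemma SV.sp (h : SV (Ico 0 T) w) {t : ℝ} (ht : t ∈ Ico 0 T) (i : Fin 3) : SP (fun y => w t y i) :=
  ⟨(h.sm i).slice ht, fun j x => h.peri ht i x j⟩

lemma fcS_cont (h : SV (Ico 0 T) w) (k : K) (i : Fin 3) : ContinuousOn (fun s => fc (w s) k i) (Ico 0 T) := by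
  simp only [fc_fr]
  refine continuousOn_intC (F := fun s x => ee (-k) x * (w s x i : ℂ)) ?_
  refine ContinuousOn.mul ?_ ?_
  · exact ((H459R3.NS.ee_continuous (-k)).comp continuous_snd).continuousOn
  · exact Complex.continuous_ofReal.comp_continuousOn (h.sm i).continuousOn

/-- rapid decrease of the Fourier coefficients, locally uniformly in time -/
lemma fcS_bound (h : SV (Ico 0 T) w) {T' : ℝ} (hT : T' < T) (n : ℕ) : ∃ C : ℝ, 0 ≤ C ∧
    ∀ t ∈ Icc 0 T', ∀ k, nk k ^ n * ‖fc (w t) k‖ ≤ C := by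
  have key : ∀ i j : Fin 3, ∃ C : ℝ, 0 ≤ C ∧ ∀ t ∈ Icc 0 T', ∀ k : K, |(k j : ℝ)| ^ n * ‖fc (w t) k i‖ ≤ C := by
    intro i j
    have hc := (pd_iter_smooth (T := T) (f := fun t y => w t y i) (h.sm i) j n).continuousOn
    have hK : IsCompact (Icc 0 T' ×ˢ cube) := isCompact_Icc.prod isCompact_Icc
    have hsub : Icc 0 T' ×ˢ cube ⊆ Ico 0 T ×ˢ (univ : Set R3) :=
      prod_mono (fun s hs => ⟨hs.1, hs.2.trans_lt hT⟩) (subset_univ _)
    obtain ⟨C, hC⟩ := hK.exists_bound_of_continuousOn (hc.mono hsub)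
    refine ⟨max C 0, le_max_right _ _, fun t ht k => ?_⟩
    have hI : t ∈ Ico 0 T := ⟨ht.1, ht.2.trans_lt hT⟩
    have e1 := H459R3.NS.fr_iter (SV.sp h hI i) j n k
    have h2 : ‖fr ((H459R3.NS.pd j)^[n] (fun y => w t y i)) k‖ ≤ max C 0 := by
      unfold H459R3.NS.fr H459R3.NS.fc
      have hv : (volume : Measure R3) cube < ⊤ := isCompact_Icc.measure_lt_top
      have h3 := norm_setIntegral_le_of_norm_le_const (μ := (volume : Measure R3)) (s := cube) (C := max C 0) hv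
        (f := fun x => ee (-k) x * ((((H459R3.NS.pd j)^[n] (fun y => w t y i)) x : ℝ) : ℂ)) fun x hx => by
          rw [norm_mul, H459R3.NS.norm_ee, one_mul, Complex.norm_real]
          exact (hC (t, x) ⟨ht, hx⟩).trans (le_max_left _ _)
      refine h3.trans (le_of_eq ?_)
      rw [Measure.real, H459R3.NS.volume_cube]
      simp
    rw [e1, norm_mul, norm_pow] at h2
    rw [fc_fr]
    refine le_trans ?_ h2
    apply mul_le_mul_of_nonneg_right _ (norm_nonneg _)
    apply pow_le_pow_left₀ (abs_nonneg _)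
    rw [norm_mul, norm_mul, norm_mul, Complex.norm_I, mul_one, Complex.norm_real,
      Real.norm_eq_abs, abs_of_pos Real.pi_pos, Complex.norm_ofNat, Complex.norm_intCast]
    have h0 : 0 ≤ |(k j : ℝ)| := abs_nonneg _
    have := Real.pi_gt_three
    nlinarith
  choose C hC0 hC using key
  refine ⟨2 ^ n * ∑ i, ∑ j, C i j, mul_nonneg (by positivity) (Finset.sum_nonneg fun i _ =>
    Finset.sum_nonneg fun j _ => hC0 i j), fun t ht k => ?_⟩
  have h1 : nk k ^ n ≤ 2 ^ n * ∑ j, |(k j : ℝ)| ^ n := by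
    obtain ⟨j, -, hj⟩ := Finset.exists_max_image Finset.univ (fun j : Fin 3 => |(k j : ℝ)|) Finset.univ_nonempty
    have h2 : nk k ≤ 2 * |(k j : ℝ)| := by
      unfold nk Pool.Agent.H356R3.NS.sq
      rw [Real.sqrt_le_left (by positivity)]
      have h3 : ∀ l : Fin 3, (k l : ℝ) ^ 2 ≤ |(k j : ℝ)| ^ 2 := fun l => by
        rw [← sq_abs (k l : ℝ)]
        exact pow_le_pow_left₀ (abs_nonneg _) (hj l (Finset.mem_univ l)) 2
      rw [Fin.sum_univ_three]
      have := h3 0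
      have := h3 1
      have := h3 2
      nlinarith [sq_nonneg (|(k j : ℝ)|)]
    calc nk k ^ n ≤ (2 * |(k j : ℝ)|) ^ n := pow_le_pow_left₀ (nk_nonneg k) h2 n
      _ = 2 ^ n * |(k j : ℝ)| ^ n := mul_pow _ _ _
      _ ≤ _ := by
          apply mul_le_mul_of_nonneg_left _ (by positivity)
          exact Finset.single_le_sum (f := fun j => |(k j : ℝ)| ^ n) (fun j _ => by positivity) (Finset.mem_univ j)
  have h2 : ‖fc (w t) k‖ ≤ ∑ i, ‖fc (w t) k i‖ := by
    rw [pi_norm_le_iff_of_nonneg (Finset.sum_nonneg fun i _ => norm_nonneg _)]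
    intro i
    exact Finset.single_le_sum (f := fun i => ‖fc (w t) k i‖) (fun i _ => norm_nonneg _) (Finset.mem_univ i)
  calc nk k ^ n * ‖fc (w t) k‖ ≤ (2 ^ n * ∑ j, |(k j : ℝ)| ^ n) * ∑ i, ‖fc (w t) k i‖ :=
        mul_le_mul h1 h2 (norm_nonneg _) (by positivity)
    _ = 2 ^ n * ∑ i, ∑ j, |(k j : ℝ)| ^ n * ‖fc (w t) k i‖ := by
        rw [mul_assoc, Finset.sum_mul_sum, Finset.sum_comm]
    _ ≤ _ := by
        apply mul_le_mul_of_nonneg_left _ (by positivity)
        exact Finset.sum_le_sum fun i _ => Finset.sum_le_sum fun j _ => hC i j t ht k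

/-- the time derivative of a path -/
noncomputable def dwt (w : ℝ → R3 → R3) (t : ℝ) (x : R3) (i : Fin 3) : ℝ := derivWithin (fun s => w s x i) (Ici 0) t

lemma dwt_eq {t : ℝ} (ht : t < T) (x : R3) (i : Fin 3) : dwt w t x i = derivWithin (fun s => w s x i) (Ico 0 T) t := by
  unfold dwt
  apply derivWithin_congr_set
  filter_upwards [gt_mem_nhds ht] with s hs
  apply propext
  exact ⟨fun h => ⟨h, hs⟩, fun h => h.1⟩

lemma dwt_sv (h : SV (Ico 0 T) w) : SV (Ico 0 T) (dwt w) := by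
  refine ⟨fun i => ?_, fun t ht x j => ?_⟩
  · have h1 := (h.sm i).dtw (uniqueDiffOn_Ico 0 T)
    exact h1.congr fun t ht x => dwt_eq ht.2 x i
  · funext i
    rw [dwt_eq ht.2, dwt_eq ht.2]
    refine derivWithin_congr (fun s hs => ?_) ?_
    · exact congrFun (h.per s hs x j) i
    · exact congrFun (h.per t ht x j) i

lemma fcS_deriv (h : SV (Ico 0 T) w) {t : ℝ} (ht : t ∈ Ioo 0 T) (k : K) (i : Fin 3) :
    HasDerivAt (fun s => fc (w s) k i) (fc (dwt w t) k i) t := by
  have h1 := fr_hasDerivAt (f := fun s y => w s y i)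
    (H459R3.NS.mono_Ioo (f := fun s y => w s y i) (h.sm i) (by norm_cast)) ht k
  simp only [fc_fr]
  refine h1.congr_deriv ?_
  congr 1
  funext x
  show deriv (fun s => w s x i) t = derivWithin (fun s => w s x i) (Ici 0) t
  rw [derivWithin_of_mem_nhds (Ici_mem_nhds ht.1)]

/-- clamping of times -/
def clt (H0 t : ℝ) : ℝ := min (max t 0) H0

lemma clt_cont (H0 : ℝ) : Continuous (clt H0) := by unfold clt; fun_prop

lemma clt_nonneg {H0 : ℝ} (hH : 0 ≤ H0) (t : ℝ) : 0 ≤ clt H0 t := le_min (le_max_right _ _) hH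

lemma clt_le (H0 t : ℝ) : clt H0 t ≤ H0 := min_le_right _ _

lemma clt_eq {H0 t : ℝ} (h0 : 0 ≤ t) (h1 : t ≤ H0) : clt H0 t = t := by
  unfold clt
  rw [max_eq_left h0, min_eq_left h1]

/-- the coefficients of the path in the moving frame, from the time `τ` on -/
noncomputable def yb (m : E3) (w : ℝ → R3 → R3) (τ H0 : ℝ) : Fam := fun k t =>
  ph m (-(clt H0 t)) (nz (fc (w (τ + clt H0 t)))) k

/-- the right side of the equation for the coefficients -/
noncomputable def gb (c : ℝ) (m : E3) (w : ℝ → R3 → R3) (τ H0 : ℝ) : Fam := fun k t i =>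
  if k = 0 then 0 else (fc (dwt w (τ + clt H0 t)) k i
    + (2 * Real.pi * Complex.I * (∑ j, (k j : ℂ) * (m j : ℂ)) + ((c * sq k : ℝ) : ℂ)) * fc (w (τ + clt H0 t)) k i)
    * ex k (clt H0 t • m)

lemma yb_apply {m : E3} {τ H0 : ℝ} {k : K} (hk : k ≠ 0) (t : ℝ) (i : Fin 3) :
    yb m w τ H0 k t i = fc (w (τ + clt H0 t)) k i * ex k (clt H0 t • m) := by
  show nz (fc (w (τ + clt H0 t))) k i * ex k (-((-(clt H0 t)) • m)) = _
  unfold nz
  rw [if_neg hk, neg_smul, neg_neg]

lemma yb_zero (m : E3) (τ H0 t : ℝ) : yb m w τ H0 0 t = 0 := by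
  funext i
  simp [yb, ph, nz]

lemma gb_zero (c : ℝ) (m : E3) (τ H0 t : ℝ) : gb c m w τ H0 0 t = 0 := by
  funext i
  simp [gb]

lemma yb_sym (m : E3) (τ H0 : ℝ) : SymF (yb m w τ H0) := by
  intro t k i
  show nz _ (-k) i * ex (-k) _ = star (nz _ k i * ex k _)
  unfold nz
  by_cases hk : k = 0
  · subst hk; simp
  · rw [if_neg hk, if_neg (neg_ne_zero.2 hk), fc_sym, ex_neg, star_mul']

lemma gb_sym (c : ℝ) (m : E3) (τ H0 : ℝ) : SymF (gb c m w τ H0) := by
  intro t k i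
  by_cases hk : k = 0
  · subst hk
    rw [neg_zero]
    show gb c m w τ H0 0 t i = star (gb c m w τ H0 0 t i)
    rw [gb_zero]
    simp
  · show gb c m w τ H0 (-k) t i = star (gb c m w τ H0 k t i)
    unfold gb
    rw [if_neg hk, if_neg (neg_ne_zero.2 hk), fc_sym, fc_sym, ex_neg, sq_neg]
    simp only [star_mul', star_add, Complex.star_def, Complex.conj_ofReal, map_mul, map_sum, Complex.conj_I,
      Pi.neg_apply, Int.cast_neg, map_ofNat, map_intCast]
    congr 2
    congr 2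
    rw [show (fun j => -((k j : ℤ) : ℂ) * (m j : ℂ)) = fun j => -(((k j : ℤ) : ℂ) * (m j : ℂ)) from
      funext fun j => by ring, Finset.sum_neg_distrib]
    ring

lemma yb_cf (h : SV (Ico 0 T) w) {τ H0 : ℝ} (hτ : 0 ≤ τ) (hH : 0 < H0) (hT : τ + H0 < T) (m : E3) :
    CF (yb m w τ H0) := by
  intro k
  refine continuous_pi fun i => ?_
  by_cases hk : k = 0
  · subst hk
    simp only [yb_zero]
    exact continuous_const
  simp only [yb_apply hk]
  have h2 : Continuous fun t : ℝ => ex k (clt H0 t • m) := (ex_cont k).comp ((clt_cont H0).smul continuous_const)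
  refine Continuous.mul ?_ h2
  exact (fcS_cont h k i).comp_continuous (continuous_const.add (clt_cont H0)) fun t =>
    ⟨add_nonneg hτ (clt_nonneg hH.le t), by have := clt_le H0 t; linarith⟩

lemma gb_cf (h : SV (Ico 0 T) w) {τ H0 : ℝ} (hτ : 0 ≤ τ) (hH : 0 < H0) (hT : τ + H0 < T) (c : ℝ) (m : E3) :
    CF (gb c m w τ H0) := by
  intro k
  refine continuous_pi fun i => ?_
  by_cases hk : k = 0
  · subst hk
    simp only [gb_zero]
    exact continuous_const
  simp only [gb, if_neg hk]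
  have h2 : Continuous fun t : ℝ => ex k (clt H0 t • m) := (ex_cont k).comp ((clt_cont H0).smul continuous_const)
  have h3 : ∀ {w' : ℝ → R3 → R3}, SV (Ico 0 T) w' → Continuous fun t => fc (w' (τ + clt H0 t)) k i := fun h' =>
    (fcS_cont h' k i).comp_continuous (continuous_const.add (clt_cont H0)) fun t =>
      ⟨add_nonneg hτ (clt_nonneg hH.le t), by have := clt_le H0 t; linarith⟩
  exact ((h3 (dwt_sv h)).add (continuous_const.mul (h3 h))).mul h2

lemma sum_km (k : K) (m : E3) : ‖∑ j, (k j : ℂ) * (m j : ℂ)‖ ≤ 3 * ‖m‖ * nk k := by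
  calc ‖∑ j, (k j : ℂ) * (m j : ℂ)‖ ≤ ∑ j : Fin 3, ‖(k j : ℂ) * (m j : ℂ)‖ := norm_sum_le _ _
    _ ≤ ∑ _j : Fin 3, ‖m‖ * nk k := by
        refine Finset.sum_le_sum fun j _ => ?_
        rw [norm_mul, Complex.norm_real, Complex.norm_intCast, mul_comm]
        refine mul_le_mul (norm_le_pi_norm m j) ?_ (abs_nonneg _) (norm_nonneg _)
        unfold nk Pool.Agent.H356R3.NS.sq
        rw [← Real.sqrt_sq_eq_abs]
        exact Real.sqrt_le_sqrt (Finset.single_le_sum (f := fun j => (k j : ℝ) ^ 2) (fun j _ => by positivity)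
          (Finset.mem_univ j))
    _ = _ := by simp; ring

/-- uniform bounds for the coefficients -/
lemma path_bounds (h : SV (Ico 0 T) w) {c : ℝ} (hc : 0 ≤ c) (m : E3) {T1 : ℝ} (hT : T1 < T) (n : ℕ) :
    ∃ C : ℝ, 0 ≤ C ∧ ∀ τ H0 : ℝ, 0 ≤ τ → 0 < H0 → τ + H0 ≤ T1 → ∀ k t,
      ‖yb m w τ H0 k t‖ ≤ C * (1 / nk k) ^ n ∧ ‖gb c m w τ H0 k t‖ ≤ C * (1 / nk k) ^ n := by
  obtain ⟨C1, hC1, h1⟩ := fcS_bound h hT n
  obtain ⟨C2, hC2, h2⟩ := fcS_bound h hT (n + 2)
  obtain ⟨C3, hC3, h3⟩ := fcS_bound (dwt_sv h) hT n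
  obtain ⟨A, hA⟩ : ∃ A, A = 2 * Real.pi * (3 * ‖m‖) + c := ⟨_, rfl⟩
  have hA0 : 0 ≤ A := by rw [hA]; positivity
  refine ⟨C1 + (C3 + A * C2), by positivity, fun τ H0 hτ hH hle k t => ?_⟩
  have hI : τ + clt H0 t ∈ Icc 0 T1 := ⟨add_nonneg hτ (clt_nonneg hH.le t), by have := clt_le H0 t; linarith⟩
  by_cases hk : k = 0
  · subst hk
    rw [yb_zero, gb_zero, norm_zero, nk_zero]
    constructor <;> positivity
  have hn := nk_pos hk
  have hn1 := one_le_nk hk
  have e1 : ∀ {X Y : ℝ}, nk k ^ n * X ≤ Y → X ≤ Y * (1 / nk k) ^ n := fun {X Y} hX => by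
    rw [one_div, inv_pow, ← div_eq_mul_inv, le_div_iff₀ (by positivity)]
    linarith
  constructor
  · apply e1
    have : ‖yb m w τ H0 k t‖ = ‖fc (w (τ + clt H0 t)) k‖ := by
      show ‖ph m _ _ k‖ = _
      rw [norm_ph]
      unfold nz
      rw [if_neg hk]
    rw [this]
    have h4 := h1 _ hI k
    have : 0 ≤ C3 + A * C2 := by positivity
    linarith
  · apply e1
    have h4 : ‖gb c m w τ H0 k t‖ ≤ ‖fc (dwt w (τ + clt H0 t)) k‖ + A * nk k ^ 2 * ‖fc (w (τ + clt H0 t)) k‖ := by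
      rw [pi_norm_le_iff_of_nonneg (by positivity)]
      intro i
      unfold gb
      rw [if_neg hk, norm_mul, norm_ex, mul_one]
      refine (norm_add_le _ _).trans (add_le_add (norm_le_pi_norm _ i) ?_)
      rw [norm_mul]
      refine mul_le_mul ?_ (norm_le_pi_norm _ i) (norm_nonneg _) (by positivity)
      refine (norm_add_le _ _).trans ?_
      rw [norm_mul, norm_mul, norm_mul, Complex.norm_I, mul_one, Complex.norm_real, Complex.norm_real,
        Real.norm_eq_abs, abs_of_pos Real.pi_pos, Complex.norm_ofNat, Real.norm_of_nonneg (by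
          have := sq_nonneg' k; positivity), ← nk_sq, hA]
      have h5 := sum_km k m
      have h6 : nk k ≤ nk k ^ 2 := by nlinarith
      have h7 : 2 * Real.pi * ‖∑ j, (k j : ℂ) * (m j : ℂ)‖ ≤ 2 * Real.pi * (3 * ‖m‖ * nk k ^ 2) := by
        apply mul_le_mul_of_nonneg_left _ (by positivity)
        exact h5.trans (mul_le_mul_of_nonneg_left h6 (by positivity))
      nlinarith
    have h5 := h2 _ hI k
    have h6 := h3 _ hI k
    calc nk k ^ n * ‖gb c m w τ H0 k t‖
        ≤ nk k ^ n * (‖fc (dwt w (τ + clt H0 t)) k‖ + A * nk k ^ 2 * ‖fc (w (τ + clt H0 t)) k‖) :=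
          mul_le_mul_of_nonneg_left h4 (by positivity)
      _ = nk k ^ n * ‖fc (dwt w (τ + clt H0 t)) k‖ + A * (nk k ^ (n + 2) * ‖fc (w (τ + clt H0 t)) k‖) := by ring
      _ ≤ C3 + A * C2 := add_le_add h6 (mul_le_mul_of_nonneg_left h5 hA0)
      _ ≤ _ := by linarith

/-- Duhamel's formula from the differential equation, locally in time. -/
lemma eqn_of_deriv_loc {c H0 : ℝ} {y G : Fam} (hy : CF y) (hG : CF G)
    (hd : ∀ k t, 0 < t → t < H0 → HasDerivAt (y k) (-(c * sq k) • y k t + G k t) t)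
    (h0 : ∀ k t, t ≤ 0 → y k t = y k 0) (k : K) (t : ℝ) (htH : t ≤ H0) :
    y k t = Real.exp (-(c * sq k * max t 0)) • y k 0 + Duh c G k t := by
  rcases le_total t 0 with ht | ht
  · rw [h0 k t ht, max_eq_right ht, Duh_eq, max_eq_right ht]
    simp
  rw [max_eq_left ht]
  have h1 : ∫ s in (0 : ℝ)..t, Real.exp (c * sq k * s) • G k s
      = Real.exp (c * sq k * t) • y k t - Real.exp (c * sq k * 0) • y k 0 := by
    refine intervalIntegral.integral_eq_sub_of_hasDerivAt_of_le (f := fun s => Real.exp (c * sq k * s) • y k s)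
      ht ?_ (fun s hs => ?_) ?_
    · have := hy k
      exact (by fun_prop : Continuous fun s => Real.exp (c * sq k * s) • y k s).continuousOn
    · have h2 : HasDerivAt (fun s => Real.exp (c * sq k * s)) (Real.exp (c * sq k * s) * (c * sq k)) s := by
        have : HasDerivAt (fun s : ℝ => c * sq k * s) (c * sq k) s := by
          simpa using (hasDerivAt_id' s).const_mul (c * sq k)
        exact this.exp
      have h3 := h2.smul (hd k s hs.1 (hs.2.trans_le htH))
      refine h3.congr_deriv ?_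
      rw [smul_add, smul_smul]
      have e : Real.exp (c * sq k * s) * -(c * sq k) = -(Real.exp (c * sq k * s) * (c * sq k)) := by ring
      rw [e, neg_smul]
      abel
    · exact (cont_inner hG c k).intervalIntegrable _ _
  rw [Duh_eq, max_eq_left ht, h1, smul_sub, smul_smul, smul_smul, ← Real.exp_add, ← Real.exp_add]
  simp

lemma yb_deriv (h : SV (Ico 0 T) w) {τ H0 : ℝ} (hτ : 0 ≤ τ) (hT : τ + H0 < T) (c : ℝ) (m : E3) (k : K) {t : ℝ}
    (ht : 0 < t) (htH : t < H0) :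
    HasDerivAt (yb m w τ H0 k) (-(c * sq k) • yb m w τ H0 k t + gb c m w τ H0 k t) t := by
  rw [hasDerivAt_pi]
  intro i
  by_cases hk : k = 0
  · subst hk
    have e1 : (fun s => yb m w τ H0 0 s i) = fun _ => 0 := by funext s; rw [yb_zero]; rfl
    rw [e1, yb_zero, gb_zero, smul_zero, add_zero]
    exact hasDerivAt_const _ _
  have h1 : HasDerivAt (fun s => fc (w (τ + s)) k i) (fc (dwt w (τ + t)) k i) t :=
    HasDerivAt.comp_const_add τ t (fcS_deriv h (t := τ + t) ⟨by linarith, by linarith⟩ k i)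
  have h2 := h1.mul (ex_deriv k m t)
  have e1 : (fun s => yb m w τ H0 k s i) =ᶠ[𝓝 t] (fun s => fc (w (τ + s)) k i) * fun s : ℝ => ex k (s • m) := by
    filter_upwards [lt_mem_nhds ht, gt_mem_nhds htH] with s hs hs'
    rw [yb_apply hk, clt_eq hs.le hs'.le]
    rfl
  refine (h2.congr_of_eventuallyEq e1).congr_deriv ?_
  rw [Pi.add_apply, Pi.smul_apply, yb_apply hk, clt_eq ht.le htH.le, Complex.real_smul]
  unfold gb
  rw [if_neg hk, clt_eq ht.le htH.le]
  push_cast
  ring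

lemma yb_div (h : SV (Ico 0 T) w) (hd : ∀ t ∈ Ico 0 T, ∀ x, ∑ i, pd i (fun y => w t y i) x = 0) {τ H0 : ℝ}
    (hτ : 0 ≤ τ) (hH : 0 < H0) (hT : τ + H0 < T) (m : E3) (k : K) (t : ℝ) : dt k (yb m w τ H0 k t) = 0 := by
  have hI : τ + clt H0 t ∈ Ico 0 T := ⟨add_nonneg hτ (clt_nonneg hH.le t), by have := clt_le H0 t; linarith⟩
  have hdv : ∑ j, (k j : ℂ) * fc (w (τ + clt H0 t)) k j = 0 := by
    simp only [fc_fr]
    exact H459R3.NS.fr_div (v := fun i y => w (τ + clt H0 t) y i) (fun i => SV.sp h hI i) (hd _ hI) k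
  unfold dt
  by_cases hk : k = 0
  · subst hk; simp
  · simp only [yb_apply hk]
    have : ∀ z : ℂ, ∑ j, (k j : ℂ) * (fc (w (τ + clt H0 t)) k j * z)
        = (∑ j, (k j : ℂ) * fc (w (τ + clt H0 t)) k j) * z := by
      intro z
      rw [Finset.sum_mul]
      exact Finset.sum_congr rfl fun j _ => by ring
    rw [this, hdv, zero_mul]

/-- Blocks of a smooth path. -/
theorem path_BF (h : SV (Ico 0 T) w) (hd : ∀ t ∈ Ico 0 T, ∀ x, ∑ i, pd i (fun y => w t y i) x = 0)
    {c : ℝ} (hc : 0 ≤ c) (m : E3) {T1 : ℝ} (hT : T1 < T) (n : ℕ) :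
    ∃ C : ℝ, 0 ≤ C ∧ ∀ τ H0 : ℝ, 0 ≤ τ → 0 < H0 → τ + H0 ≤ T1 →
      BF c C n H0 (yb m w τ H0) (gb c m w τ H0) := by
  obtain ⟨C, hC, hb⟩ := path_bounds h hc m hT n
  refine ⟨C, hC, fun τ H0 hτ hH hle => ?_⟩
  have hlt : τ + H0 < T := by linarith
  exact ⟨yb_cf h hτ hH hlt m, gb_cf h hτ hH hlt c m, yb_zero m τ H0, gb_zero c m τ H0, yb_sym m τ H0,
    gb_sym c m τ H0, fun k => yb_div h hd hτ hH hlt m k 0, fun k t => (hb τ H0 hτ hH hle k t).1,
    fun k t => (hb τ H0 hτ hH hle k t).2,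
    fun k t ht => eqn_of_deriv_loc (yb_cf h hτ hH hlt m) (gb_cf h hτ hH hlt c m)
      (fun k t h1 h2 => yb_deriv h hτ hlt c m k h1 h2) (fun k t h1 => by
        have : clt H0 t = clt H0 0 := by unfold clt; rw [max_eq_right h1, max_self]
        simp only [yb, this]) k t ht⟩

end

end Pool.Agent.H356R3.NS.X
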