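import Pool.Agent.H3NY.X.GenX

namespace Pool.Agent.H356R3.NS
end Pool.Agent.H356R3.NS
namespace Pool.Agent.H356R3.NS.H3
end Pool.Agent.H356R3.NS.H3
namespace Pool.Agent.H356R3.NS.X
end Pool.Agent.H356R3.NS.X
namespace Pool.Agent.H3NS
end Pool.Agent.H3NS
namespace H459R3.NS
end H459R3.NS

set_option autoImplicit false
set_option maxHeartbeats 4000000
set_option synthInstance.maxHeartbeats 400000

open MeasureTheory Set Filter Topology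
open scoped ENNReal NNReal

namespace Pool.Agent.H356R3.NS.X

open Pool.Agent.H3NS

lemma bx_mono' {M N : ℕ} (h : M ≤ N) : bx M ⊆ bx N := by
  intro k hk
  rw [mem_bx] at hk ⊢
  exact fun i => (hk i).trans (by exact_mod_cast h)

lemma mem_bx_self (k : K) : k ∈ bx (∑ i, (k i).natAbs) := by
  rw [mem_bx]
  intro i
  rw [Int.abs_eq_natAbs]
  exact_mod_cast Finset.single_le_sum (f := fun i => (k i).natAbs) (fun _ _ => Nat.zero_le _) (Finset.mem_univ i)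

lemma fin_bx {V : K → C3} (h : (Function.support V).Finite) : ∃ M : ℕ, ∀ k, k ∉ bx M → V k = 0 := by
  refine ⟨∑ k ∈ h.toFinset, ∑ i, (k i).natAbs, fun k hk => ?_⟩
  by_contra h1
  refine hk (bx_mono' ?_ (mem_bx_self k))
  exact Finset.single_le_sum (f := fun k : K => ∑ i, (k i).natAbs) (fun _ _ => Nat.zero_le _)
    (h.mem_toFinset.2 h1)

/-- A run of the construction. -/
structure Run (χ : ℝ → ℝ) (c : ℝ) (b : K → C3) (S0 : StX χ c) (ρ p dl : ℕ → ℝ) (e : ℝ) (g : ℝ → ℝ)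
    (S : ℕ → StX χ c) (W D : ℕ → K → C3) : Prop where
  s0 : S 0 = S0
  sV : ∀ j, (S (j + 1)).V = D j + W j
  wn : ∀ j, critNorm (ρ j) (W j) ≤ ENNReal.ofReal (e * (1 / 2) ^ j)
  dm : ∃ M : ℕ, (∀ j, D j = tru (M + j) b) ∧ ∀ k, k ∉ bx M → S0.V k = 0
  ln : ∀ j, LNd (dl j) ((S (j + 1)).u - (S j).u) ≤ ENNReal.ofReal (e * (1 / 2) ^ j)
  lp : ∀ j, LP (p j) ((S (j + 1)).u - (S j).u) ≤ ENNReal.ofReal (e * (1 / 2) ^ j)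
  nm : ∀ j t, dl j ≤ t → NW (Wm 0) (at' ((S (j + 1)).u - (S j).u) t) ≤ ENNReal.ofReal (e * (1 / 2) ^ j)
  pw : ∀ j, ∃ R : Fam, (∀ k t, ‖((S (j + 1)).u - (S j).u) k t‖ ≤ ‖W j k‖ + 4 * ‖(D j - (S j).V) k‖ + ‖R k t‖) ∧
    ∀ t, NW (Wm 0) (at' R t) ≤ ENNReal.ofReal (e * (1 / 2) ^ j)
  nl : ∀ j k, ∫⁻ t in Ioi 0, ‖(Bx χ (S (j + 1)).u - Bx χ (S j).u) k t‖ₑ ≤
    ENNReal.ofReal (4 * ‖(D j - (S j).V) k‖ + nk k * (e * (1 / 2) ^ j))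
  kk : ∀ j t, 0 < t → KA ((S (j + 1)).u - (S j).u) t ≤ ENNReal.ofReal (2 * (e * (1 / 2) ^ j))
  gg : ∃ th : ℕ → ℝ, (∀ j, 0 < th j ∧ th j ≤ dl j) ∧
    (∀ s t, 0 < s → s ≤ t → t ≤ th 0 → 0 < g s ∧ g s ≤ g t) ∧ (∀ j, th (j + 1) ≤ th j) ∧
    (∀ j t, 0 < t → t ≤ th j → KA (S (j + 1)).u t ≤ ENNReal.ofReal (g t / 2)) ∧
    ∀ j t, th j ≤ t → KA ((S (j + 1)).u - (S j).u) t ≤ ENNReal.ofReal ((1 / 2) ^ (j + 2) * g (th j))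

lemma exists_run {χ : ℝ → ℝ} {h : ℝ} (hχ : CutH χ h) {c : ℝ} (hc : 0 < c) (S0 : StX χ c) {b : K → C3}
    (hb0 : b 0 = 0) (hbd : ∀ k, dt k (b k) = 0) (hbs : Sym b) {ρ p dl : ℕ → ℝ} (hρ : ∀ j, 2 < ρ j)
    (hp1 : ∀ j, 1 ≤ p j) (hp2 : ∀ j, p j < 2) (hdl : ∀ j, 0 < dl j)
    {e : ℝ} (he : 0 < e) {g : ℝ → ℝ} (hg : Gau g) : ∃ S W D, Run χ c b S0 ρ p dl e g S W D := by
  obtain ⟨M0, hM0⟩ := fin_bx S0.fin
  obtain ⟨M, hM⟩ : ∃ M : ℕ → ℕ, M = fun j => M0 + j := ⟨_, rfl⟩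
  obtain ⟨t0, ht0, hgpos, hreg, hdv⟩ := id hg
  have hst : ∀ (j : ℕ) (s : StX χ c × {τ : ℝ // 0 < τ ∧ τ ≤ t0}), ∃ s' : StX χ c × {τ : ℝ // 0 < τ ∧ τ ≤ t0},
      ∃ W : K → C3,
      (s'.1.V = tru (M j) b + W ∧
      critNorm (ρ j) W ≤ ENNReal.ofReal (e * (1 / 2) ^ j) ∧
      LNd (dl j) (s'.1.u - s.1.u) ≤ ENNReal.ofReal (e * (1 / 2) ^ j) ∧
      LP (p j) (s'.1.u - s.1.u) ≤ ENNReal.ofReal (e * (1 / 2) ^ j) ∧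
      (∀ t, dl j ≤ t → NW (Wm 0) (at' (s'.1.u - s.1.u) t) ≤ ENNReal.ofReal (e * (1 / 2) ^ j)) ∧
      (∃ R : Fam, (∀ k t, ‖(s'.1.u - s.1.u) k t‖ ≤ ‖W k‖ + 4 * ‖(tru (M j) b - s.1.V) k‖ + ‖R k t‖) ∧
        ∀ t, NW (Wm 0) (at' R t) ≤ ENNReal.ofReal (e * (1 / 2) ^ j)) ∧
      (∀ k, ∫⁻ t in Ioi 0, ‖(Bx χ s'.1.u - Bx χ s.1.u) k t‖ₑ ≤
        ENNReal.ofReal (4 * ‖(tru (M j) b - s.1.V) k‖ + nk k * (e * (1 / 2) ^ j))) ∧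
      ∀ t, 0 < t → KA (s'.1.u - s.1.u) t ≤ ENNReal.ofReal (2 * (e * (1 / 2) ^ j))) ∧
      s'.2.1 ≤ dl j ∧ s'.2.1 ≤ s.2.1 ∧
      (∀ t, 0 < t → t ≤ s'.2.1 → KA s'.1.u t ≤ ENNReal.ofReal (g t / 2)) ∧
      ∀ t, s'.2.1 ≤ t → KA (s'.1.u - s.1.u) t ≤ ENNReal.ofReal ((1 / 2) ^ (j + 2) * g s'.2.1) := by
    intro j s
    obtain ⟨S, τ, hτ, hττ⟩ := s
    have hej : 0 < e * (1 / 2) ^ j := by positivity
    obtain ⟨θ, hθ, hθ1, hgen⟩ := genX hχ hc S (tru_fin (M j) b) (tru_zero _ hb0) (tru_div _ hbd)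
      (tru_sym _ hbs) (hρ j) (hp1 j) (hp2 j) (lt_min (hdl j) hτ) hej hg
    have hθt : θ ≤ t0 := (hθ1.trans (min_le_right _ _)).trans hττ
    have hlg := hgpos θ hθ hθt
    obtain ⟨S', W, h1, h2, h3, h4, h5, h6, h7, h8, h9, h10⟩ := hgen
      (min (e * (1 / 2) ^ j) ((1 / 2) ^ (j + 2) * g θ)) (lt_min hej (by positivity)) (min_le_left _ _)
    have le1 : ENNReal.ofReal (min (e * (1 / 2) ^ j) ((1 / 2) ^ (j + 2) * g θ)) ≤ ENNReal.ofReal (e * (1 / 2) ^ j) :=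
      ENNReal.ofReal_le_ofReal (min_le_left _ _)
    have hθd : θ ≤ dl j := hθ1.trans (min_le_left _ _)
    refine ⟨⟨S', ⟨θ, hθ, hθt⟩⟩, W, ⟨h1, h2.trans le1, (LNd_anti hθd _).trans (h3.trans le1), h4.trans le1,
      fun t ht => (h5 t (hθd.trans ht)).trans le1,
      h6.imp fun R hR => ⟨hR.1, fun t => (hR.2 t).trans le1⟩, fun k => (h7 k).trans
        (ENNReal.ofReal_le_ofReal (add_le_add le_rfl (mul_le_mul_of_nonneg_left (min_le_left _ _) (nk_nonneg k)))),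
      h8⟩, hθd, hθ1.trans (min_le_right _ _), h10,
      fun t ht => (h9 t ht).trans (ENNReal.ofReal_le_ofReal (min_le_right _ _))⟩
  choose nx Wx hnx using hst
  let s : ℕ → StX χ c × {τ : ℝ // 0 < τ ∧ τ ≤ t0} := fun j => Nat.rec ⟨S0, ⟨t0, ht0, le_rfl⟩⟩ (fun j T => nx j T) j
  exact ⟨fun j => (s j).1, fun j => Wx j (s j), fun j => tru (M j) b, rfl, fun j => (hnx j (s j)).1.1,
    fun j => (hnx j (s j)).1.2.1, ⟨M0, fun j => by rw [hM], hM0⟩, fun j => (hnx j (s j)).1.2.2.1, fun j => (hnx j (s j)).1.2.2.2.1,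
    fun j t ht => (hnx j (s j)).1.2.2.2.2.1 t ht, fun j => (hnx j (s j)).1.2.2.2.2.2.1,
    fun j k => (hnx j (s j)).1.2.2.2.2.2.2.1 k, fun j t ht => (hnx j (s j)).1.2.2.2.2.2.2.2 t ht,
    fun j => (s (j + 1)).2.1, fun j => ⟨(s (j + 1)).2.2.1, (hnx j (s j)).2.1⟩,
    fun s' t h1 h2 h3 => ⟨hgpos s' h1 (h2.trans (h3.trans (s 1).2.2.2)), (hreg s' t h1 h2 (h3.trans (s 1).2.2.2)).1⟩,
    fun j => (hnx (j + 1) (s (j + 1))).2.2.1, fun j t h1 h2 => (hnx j (s j)).2.2.2.1 t h1 h2,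
    fun j t ht => (hnx j (s j)).2.2.2.2 t ht⟩

end Pool.Agent.H356R3.NS.X
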