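import Mathlib

namespace Pool.Agent.H356R3.NS
end Pool.Agent.H356R3.NS
namespace Pool.Agent.H356R3.NS.H3
end Pool.Agent.H356R3.NS.H3
namespace Pool.Agent.H356R3.NS.X
end Pool.Agent.H356R3.NS.X
namespace Pool.Agent.H3NS
end Pool.Agent.H3NS
namespace H459R3.NS
end H459R3.NS

set_option autoImplicit false
set_option maxHeartbeats 4000000
set_option synthInstance.maxHeartbeats 400000

/-!
Sequences: greedy blocks, lacunary sums.
-/

open MeasureTheory Set Filter Topology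
open scoped ENNReal NNReal

namespace Pool.Agent.H356R3.NS.X

/-- Greedy division of a divergent series into blocks. -/
lemma alloc {t : ℕ → ℝ} (h0 : ∀ j, 0 < t j) (h1 : ∀ j, t j ≤ 1) (hs : ¬ Summable t) :
    ∃ (s : ℕ → ℝ) (mm : ℕ → ℕ), mm 0 = 0 ∧ (∀ p, mm p ≤ mm (p + 1)) ∧ (∀ j, t j / 2 ≤ s j ∧ s j ≤ t j) ∧
      ∀ p, ∑ j ∈ Finset.Ico (mm p) (mm (p + 1)), s j = 1 := by
  have hex : ∀ a : ℕ, ∃ b : ℕ, a ≤ b ∧ 1 ≤ ∑ j ∈ Finset.Ico a b, t j := by
    intro a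
    have h2 := (not_summable_iff_tendsto_nat_atTop_of_nonneg (fun j => (h0 j).le)).1 hs
    obtain ⟨b, hb1, hb2⟩ := ((h2.eventually_ge_atTop (1 + ∑ j ∈ Finset.range a, t j)).and
      (eventually_ge_atTop a)).exists
    refine ⟨b, hb2, ?_⟩
    rw [Finset.sum_Ico_eq_sub _ hb2]
    linarith
  classical
  obtain ⟨nx, hnx⟩ : ∃ nx : ℕ → ℕ, ∀ a, nx a = Nat.find (hex a) := ⟨fun a => Nat.find (hex a), fun _ => rfl⟩
  have n1 : ∀ a, a ≤ nx a := fun a => by rw [hnx]; exact (Nat.find_spec (hex a)).1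
  have n2 : ∀ a, 1 ≤ ∑ j ∈ Finset.Ico a (nx a), t j := fun a => by rw [hnx]; exact (Nat.find_spec (hex a)).2
  have n3 : ∀ a, a < nx a := by
    intro a
    refine lt_of_le_of_ne (n1 a) fun h => ?_
    have := n2 a
    rw [← h, Finset.Ico_self, Finset.sum_empty] at this
    linarith
  have n4 : ∀ a, ∑ j ∈ Finset.Ico a (nx a), t j ≤ 2 := by
    intro a
    obtain ⟨b, hb⟩ : ∃ b, nx a = b + 1 := ⟨nx a - 1, by have := n3 a; omega⟩
    have hab : a ≤ b := by have := n3 a; omega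
    have h2 : ¬ (a ≤ b ∧ 1 ≤ ∑ j ∈ Finset.Ico a b, t j) := by
      apply Nat.find_min (hex a)
      rw [← hnx, hb]
      omega
    rw [hb, Finset.sum_Ico_succ_top hab]
    have h3 : ∑ j ∈ Finset.Ico a b, t j < 1 := by
      by_contra h
      exact h2 ⟨hab, not_lt.1 h⟩
    have := h1 b
    linarith
  obtain ⟨mm, hm0, hm1⟩ : ∃ mm : ℕ → ℕ, mm 0 = 0 ∧ ∀ p, mm (p + 1) = nx (mm p) :=
    ⟨fun p => Nat.rec 0 (fun _ a => nx a) p, rfl, fun _ => rfl⟩
  have hmlt : ∀ p, mm p < mm (p + 1) := fun p => by rw [hm1]; exact n3 _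
  have hmono : StrictMono mm := strictMono_nat_of_lt_succ hmlt
  have hge : ∀ p, p ≤ mm p := fun p => hmono.le_apply
  obtain ⟨bi, hbi⟩ : ∃ bi : ℕ → ℕ, ∀ j, bi j = Nat.findGreatest (fun p => mm p ≤ j) j :=
    ⟨fun j => Nat.findGreatest (fun p => mm p ≤ j) j, fun _ => rfl⟩
  have hbe : ∀ p j, mm p ≤ j → j < mm (p + 1) → bi j = p := by
    intro p j h2 h3
    rw [hbi, Nat.findGreatest_eq_iff]
    refine ⟨(hge p).trans h2, fun _ => h2, fun n hn _ h4 => ?_⟩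
    have : mm (p + 1) ≤ mm n := hmono.monotone hn
    omega
  obtain ⟨T, hT⟩ : ∃ T : ℕ → ℝ, ∀ p, T p = ∑ j ∈ Finset.Ico (mm p) (mm (p + 1)), t j := ⟨_, fun _ => rfl⟩
  have hT1 : ∀ p, 1 ≤ T p := fun p => by rw [hT, hm1]; exact n2 _
  have hT2 : ∀ p, T p ≤ 2 := fun p => by rw [hT, hm1]; exact n4 _
  refine ⟨fun j => t j / T (bi j), mm, hm0, fun p => (hmlt p).le, fun j => ⟨?_, ?_⟩, fun p => ?_⟩
  · have e1 := hT1 (bi j)
    exact div_le_div_of_nonneg_left (h0 j).le (by linarith) (hT2 _)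
  · exact div_le_self (h0 j).le (hT1 _)
  · have e1 : ∀ j ∈ Finset.Ico (mm p) (mm (p + 1)), t j / T (bi j) = t j / T p := by
      intro j hj
      rw [Finset.mem_Ico] at hj
      rw [hbe p j hj.1 hj.2]
    rw [Finset.sum_congr rfl e1, ← Finset.sum_div, ← hT]
    exact div_self (by have := hT1 p; linarith)

lemma inv_sum {N : ℕ → ℝ} (h0 : ∀ j, 0 < N j) (h2 : ∀ j, 2 * N j ≤ N (j + 1)) {k n : ℕ} (hkn : k ≤ n) :
    ∑ j ∈ Finset.Ico k n, 1 / N j ≤ 2 / N k := by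
  have key : ∑ j ∈ Finset.Ico k n, 1 / N j + 2 / N n ≤ 2 / N k := by
    induction n, hkn using Nat.le_induction with
    | base => simp
    | succ n hn ih =>
      rw [Finset.sum_Ico_succ_top hn]
      have h3 : 2 / N (n + 1) ≤ 1 / N n := by
        rw [div_le_div_iff₀ (h0 _) (h0 _)]
        linarith [h2 n]
      have h4 : 2 / N n = 1 / N n + 1 / N n := by ring
      linarith
  have : 0 < 2 / N n := by have := h0 n; positivity
  linarith

lemma geo_sum {a : ℕ → ℝ} {R : ℝ} (hR : 1 ≤ R) (h : ∀ j, R * a j ≤ a (j + 1)) (h0 : 0 ≤ a 0) (n : ℕ) :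
    (R - 1) * ∑ j ∈ Finset.range n, a j ≤ a n := by
  induction n with
  | zero => simpa using h0
  | succ n ih =>
    rw [Finset.sum_range_succ, mul_add]
    have := h n
    linarith

end Pool.Agent.H356R3.NS.X
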