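import Pool.Agent.H3NY.X.Poly

namespace Pool.Agent.H356R3.NS
end Pool.Agent.H356R3.NS
namespace Pool.Agent.H356R3.NS.H3
end Pool.Agent.H356R3.NS.H3
namespace Pool.Agent.H356R3.NS.X
end Pool.Agent.H356R3.NS.X
namespace Pool.Agent.H3NS
end Pool.Agent.H3NS
namespace H459R3.NS
end H459R3.NS

set_option autoImplicit false
set_option maxHeartbeats 4000000
set_option synthInstance.maxHeartbeats 400000

/-!
One step of the construction, with bounds of the form `√t ‖u(t)‖ ≤ κ`.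
-/

open MeasureTheory Set Filter Topology
open scoped ENNReal NNReal

namespace Pool.Agent.H356R3.NS.X

open Pool.Agent.H356R3.NS.H3

lemma NW_ws_ge {s : ℕ} {x : K → C3} (h0 : x 0 = 0) : NW (Wa 0) x ≤ NW (ws s) x := by
  unfold NW
  refine ENNReal.tsum_le_tsum fun k => ?_
  by_cases hk : k = 0
  · subst hk
    rw [h0]; simp
  · apply mul_le_mul' _ le_rfl
    unfold Wa ws
    apply ENNReal.ofReal_le_ofReal
    have o : om 0 k = 1 := by simp [om]
    rw [o]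
    exact one_le_pow₀ (one_le_nk hk)

/-- interpolation between the Lei-Lin norm and a high norm -/
lemma interp_s (s : ℕ) {x : K → C3} (h0 : x 0 = 0) :
    NW (ws s) x * NW (ws s) x ≤ NW (Wm 0) x * NW (ws (2 * s + 1)) x := by
  have key : ∀ k l, (ws s k * ‖x k‖ₑ) * (ws s l * ‖x l‖ₑ) + (ws s k * ‖x k‖ₑ) * (ws s l * ‖x l‖ₑ)
      ≤ (Wm 0 k * ‖x k‖ₑ) * (ws (2 * s + 1) l * ‖x l‖ₑ) + (ws (2 * s + 1) k * ‖x k‖ₑ) * (Wm 0 l * ‖x l‖ₑ) := by
    intro k l
    by_cases hk : k = 0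
    · subst hk; simp [h0]
    by_cases hl : l = 0
    · subst hl; simp [h0]
    have p1 := nk_pos hk
    have p2 := nk_pos hl
    have o : ∀ k, om 0 k = 1 := fun k => by simp [om]
    have e1 : (ws s k * ‖x k‖ₑ) * (ws s l * ‖x l‖ₑ) + (ws s k * ‖x k‖ₑ) * (ws s l * ‖x l‖ₑ)
        = ENNReal.ofReal (nk k ^ s * nk l ^ s + nk k ^ s * nk l ^ s) * (‖x k‖ₑ * ‖x l‖ₑ) := by
      unfold ws
      rw [ENNReal.ofReal_add (by positivity) (by positivity), ENNReal.ofReal_mul (by positivity)]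
      ring
    have e2 : (Wm 0 k * ‖x k‖ₑ) * (ws (2 * s + 1) l * ‖x l‖ₑ) + (ws (2 * s + 1) k * ‖x k‖ₑ) * (Wm 0 l * ‖x l‖ₑ)
        = ENNReal.ofReal (1 / nk k * nk l ^ (2 * s + 1) + nk k ^ (2 * s + 1) * (1 / nk l)) * (‖x k‖ₑ * ‖x l‖ₑ) := by
      unfold ws Wm
      rw [o, o, ENNReal.ofReal_add (by positivity) (by positivity), ENNReal.ofReal_mul (by positivity),
        ENNReal.ofReal_mul (by positivity)]
      ring
    rw [e1, e2]
    apply mul_le_mul' _ le_rfl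
    apply ENNReal.ofReal_le_ofReal
    have h1 : 1 / nk k * nk l ^ (2 * s + 1) + nk k ^ (2 * s + 1) * (1 / nk l)
        = ((nk l ^ (s + 1)) ^ 2 + (nk k ^ (s + 1)) ^ 2) / (nk k * nk l) := by
      field_simp
      ring
    have h2 : nk k ^ s * nk l ^ s + nk k ^ s * nk l ^ s
        = (2 * (nk k ^ (s + 1) * nk l ^ (s + 1))) / (nk k * nk l) := by
      field_simp
      ring
    rw [h1, h2]
    apply div_le_div_of_nonneg_right _ (by positivity)
    nlinarith [sq_nonneg (nk l ^ (s + 1) - nk k ^ (s + 1))]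
  have h1 : NW (ws s) x * NW (ws s) x + NW (ws s) x * NW (ws s) x
      ≤ NW (Wm 0) x * NW (ws (2 * s + 1)) x + NW (Wm 0) x * NW (ws (2 * s + 1)) x := by
    calc NW (ws s) x * NW (ws s) x + NW (ws s) x * NW (ws s) x
        = ∑' k, ∑' l, ((ws s k * ‖x k‖ₑ) * (ws s l * ‖x l‖ₑ) + (ws s k * ‖x k‖ₑ) * (ws s l * ‖x l‖ₑ)) := by
          unfold NW
          simp only [ENNReal.tsum_add, ENNReal.tsum_mul_left, ENNReal.tsum_mul_right]
      _ ≤ ∑' k, ∑' l, ((Wm 0 k * ‖x k‖ₑ) * (ws (2 * s + 1) l * ‖x l‖ₑ)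
            + (ws (2 * s + 1) k * ‖x k‖ₑ) * (Wm 0 l * ‖x l‖ₑ)) :=
          ENNReal.tsum_le_tsum fun k => ENNReal.tsum_le_tsum fun l => key k l
      _ = _ := by
          unfold NW
          simp only [ENNReal.tsum_add, ENNReal.tsum_mul_left, ENNReal.tsum_mul_right]
          rw [mul_comm (∑' k, ws (2 * s + 1) k * ‖x k‖ₑ)]
  by_cases ht : NW (Wm 0) x * NW (ws (2 * s + 1)) x = ⊤
  · rw [ht]; exact le_top
  rw [← two_mul, ← two_mul] at h1
  exact (ENNReal.mul_le_mul_iff_right (by norm_num) (by norm_num)).1 h1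

lemma solX_bdd {χ : ℝ → ℝ} {c a : ℝ} (ha : 0 ≤ a) {V : K → C3} {u : Fam} (h : SolX χ c a V u) :
    ∃ Mu : ℝ, 0 ≤ Mu ∧ ∀ t, NW (Wa 0) (at' u t) ≤ ENNReal.ofReal Mu := by
  obtain ⟨b, hb, hb'⟩ := h.dom
  have hb0 : ∀ k, 0 ≤ b k := fun k => (norm_nonneg _).trans (hb' k 0)
  refine ⟨∑' k, om a k * b k, tsum_nonneg fun k => mul_nonneg (om_pos _ _).le (hb0 k), fun t => ?_⟩
  rw [ENNReal.ofReal_tsum_of_nonneg (fun k => mul_nonneg (om_pos _ _).le (hb0 k)) hb]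
  unfold NW Wa at'
  refine ENNReal.tsum_le_tsum fun k => ?_
  rw [ENNReal.ofReal_mul (om_pos _ _).le, ← ofReal_norm]
  exact mul_le_mul' (ENNReal.ofReal_le_ofReal (om_mono ha k)) (ENNReal.ofReal_le_ofReal (hb' k t))

/-- `√(min t 1) ‖x(t)‖` in the Wiener algebra -/
noncomputable def KA (x : Fam) (t : ℝ) : ℝ≥0∞ := ENNReal.ofReal (√(min t 1)) * NW (Wa 0) (at' x t)

lemma KA_add_le (x y : Fam) (t : ℝ) : KA (x + y) t ≤ KA x t + KA y t := by
  unfold KA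
  rw [← mul_add]
  exact mul_le_mul' le_rfl (NW_add_le _ _ _)

lemma KA_zero (t : ℝ) : KA (0 : Fam) t = 0 := by
  unfold KA
  have h : NW (Wa 0) (at' (0 : Fam) t) = 0 := NW_zero _
  rw [h, mul_zero]

lemma KA_neg (x : Fam) (t : ℝ) : KA (-x) t = KA x t := by
  unfold KA
  congr 1
  exact NW_neg _ _

lemma KA_sub_le (x y : Fam) (t : ℝ) : KA (x - y) t ≤ KA x t + KA y t := by
  rw [sub_eq_add_neg, ← KA_neg y]
  exact KA_add_le _ _ _

lemma KA_le (x : Fam) (t : ℝ) : KA x t ≤ NW (Wa 0) (at' x t) := by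
  unfold KA
  calc _ ≤ 1 * NW (Wa 0) (at' x t) := by
        apply mul_le_mul' _ le_rfl
        rw [ENNReal.ofReal_le_one]
        exact Real.sqrt_le_one.2 (min_le_right _ _)
    _ = _ := one_mul _

lemma KA_small {x : Fam} {M : ℝ} (hM : 0 ≤ M) {t ε : ℝ} (h : NW (Wa 0) (at' x t) ≤ ENNReal.ofReal M)
    (ht : √t * M ≤ ε) : KA x t ≤ ENNReal.ofReal ε := by
  unfold KA
  refine (mul_le_mul' le_rfl h).trans ?_
  rw [← ENNReal.ofReal_mul (Real.sqrt_nonneg _)]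
  refine ENNReal.ofReal_le_ofReal (le_trans ?_ ht)
  exact mul_le_mul_of_nonneg_right (Real.sqrt_le_sqrt (min_le_left _ _)) hM

/-- closeness in the Wiener algebra by interpolation -/
lemma A_of_Wm {x : K → C3} (h0 : x 0 = 0) {e B ε : ℝ} (he : 0 ≤ e) (hε : 0 ≤ ε)
    (h1 : NW (Wm 0) x ≤ ENNReal.ofReal e) (h2 : NW (ws 1) x ≤ ENNReal.ofReal B) (h : e * B ≤ ε ^ 2) :
    NW (Wa 0) x ≤ ENNReal.ofReal ε := by
  refine (NW_ws_ge (s := 0) h0).trans ?_
  have h3 := (interp_s 0 h0).trans (mul_le_mul' h1 h2)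
  rw [← ENNReal.ofReal_mul he] at h3
  have h4 : ENNReal.ofReal (e * B) ≤ ENNReal.ofReal ε * ENNReal.ofReal ε := by
    rw [← ENNReal.ofReal_mul hε]
    apply ENNReal.ofReal_le_ofReal
    rw [← pow_two]
    exact h
  have h5 := h3.trans h4
  by_contra h6
  push Not at h6
  exact absurd h5 (not_le.2 (ENNReal.mul_lt_mul h6 h6))

variable {q cc η : K}

lemma NW_expE (f : K → ℝ) (hf : ∀ k, 0 ≤ f k) (x : K → C3) :
    NW (Wa 0) (fun k => Real.exp (-(f k)) • x k) ≤ NW (Wa 0) x := by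
  unfold NW
  refine ENNReal.tsum_le_tsum fun k => mul_le_mul' le_rfl ?_
  rw [enorm_smul, Real.enorm_of_nonneg (Real.exp_pos _).le]
  calc ENNReal.ofReal (Real.exp (-(f k))) * ‖x k‖ₑ ≤ 1 * ‖x k‖ₑ := by
        apply mul_le_mul' _ le_rfl
        rw [ENNReal.ofReal_le_one, Real.exp_le_one_iff]
        linarith [hf k]
    _ = _ := one_mul _

end Pool.Agent.H356R3.NS.X
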