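import Pool.Agent.H3NY.X.AdvX
import Pool.Agent.H3NY.E.Main

set_option autoImplicit false
set_option maxHeartbeats 4000000
set_option synthInstance.maxHeartbeats 400000

/-!
The difference of two solutions: the pairing with the nonlinear term.
-/

open MeasureTheory Set Filter Topology
open scoped ENNReal NNReal ContDiff ComplexConjugate

namespace Pool.Agent.H356R3.NS.X

open Pool.Agent.H3NS
open H459R3.NS (fr ee SP IsSol cube fr_sum fr_pd fr_div n2 n2_fr n2_sq)

section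
variable {u v : R3 → R3} {P Q : R3 → ℝ}

lemma SP.sub' {f g : R3 → ℝ} (hf : SP f) (hg : SP g) : SP (fun x => f x - g x) :=
  ⟨hf.smooth.sub hg.smooth, fun i x => by simp only [hf.per i x, hg.per i x]⟩

/-- the nonlinear term in divergence form -/
lemma adv_div (hu : ∀ i, SP fun y => u y i) (hd : ∀ x, ∑ i, pd i (fun y => u y i) x = 0) (hP : SP P) (k : K)
    (i : Fin 3) : fc (adv u P) k i = ∑ j, (2 * Real.pi * Complex.I * (k j : ℂ)) * fr (fun y => u y i * u y j) k
      + (2 * Real.pi * Complex.I * (k i : ℂ)) * fr P k := by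
  rw [fc_fr]
  have e1 : (fun x => adv u P x i) = fun x => ∑ j, H459R3.NS.pd j (fun y => u y i * u y j) x + H459R3.NS.pd i P x := by
    funext x
    have h1 : ∀ j, H459R3.NS.pd j (fun y => u y i * u y j) x
        = u x i * H459R3.NS.pd j (fun y => u y j) x + H459R3.NS.pd j (fun y => u y i) x * u x j := fun j =>
      H459R3.NS.pd_mul (hu i) (hu j) j x
    simp only [h1, Finset.sum_add_distrib, ← Finset.mul_sum]
    have h2 : ∑ j, H459R3.NS.pd j (fun y => u y j) x = 0 := hd x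
    rw [h2, mul_zero, zero_add]
    show ∑ j, u x j * pd j (fun y => u y i) x + pd i P x = _
    congr 1
    exact Finset.sum_congr rfl fun j _ => mul_comm _ _
  rw [e1]
  have s1 : ∀ j, SP (fun y => u y i * u y j) := fun j => (hu i).mul (hu j)
  have s2 : SP (fun x => ∑ j, H459R3.NS.pd j (fun y => u y i * u y j) x) := H459R3.NS.SP.sum fun j _ => (s1 j).pd j
  have h3 : fr (fun x => ∑ j, H459R3.NS.pd j (fun y => u y i * u y j) x + H459R3.NS.pd i P x) k
      = fr (fun x => ∑ j, H459R3.NS.pd j (fun y => u y i * u y j) x) k + fr (H459R3.NS.pd i P) k := by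
    have h4 := fr_sum (s := (Finset.univ : Finset (Fin 2)))
      (f := fun n x => if n = 0 then ∑ j, H459R3.NS.pd j (fun y => u y i * u y j) x else H459R3.NS.pd i P x)
      (fun n _ => by
        by_cases hn : n = 0
        · simp only [hn, if_true]; exact s2
        · simp only [hn, if_false]; exact hP.pd i) k
    simp only [Fin.sum_univ_two, if_true, one_ne_zero, if_false] at h4
    exact h4
  rw [h3, fr_sum (fun j _ => (s1 j).pd j)]
  simp only [fr_pd (s1 _), fr_pd hP, H459R3.NS.D]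

lemma pair_id (hu : ∀ i, SP fun y => u y i) (hv : ∀ i, SP fun y => v y i)
    (du : ∀ x, ∑ i, pd i (fun y => u y i) x = 0) (dv : ∀ x, ∑ i, pd i (fun y => v y i) x = 0)
    (hP : SP P) (hQ : SP Q) (k : K) :
    ∑ i, conj (fc u k i - fc v k i) * (fc (adv u P) k i - fc (adv v Q) k i)
      = ∑ i, ∑ j, (2 * Real.pi * Complex.I * (k j : ℂ)) * fr (fun y => u y i * u y j - v y i * v y j) k
        * conj (fc u k i - fc v k i) := by
  have h1 : ∀ i j, fr (fun y => u y i * u y j - v y i * v y j) k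
      = fr (fun y => u y i * u y j) k - fr (fun y => v y i * v y j) k := fun i j =>
    fr_sub ((hu i).mul (hu j)) ((hv i).mul (hv j)) k
  have d1 : ∑ i, (k i : ℂ) * fc u k i = 0 := by
    simp only [fc_fr]; exact fr_div hu du k
  have d2 : ∑ i, (k i : ℂ) * fc v k i = 0 := by
    simp only [fc_fr]; exact fr_div hv dv k
  have d3 : ∑ i, (k i : ℂ) * conj (fc u k i - fc v k i) = 0 := by
    have h2 : conj (∑ i, (k i : ℂ) * (fc u k i - fc v k i)) = ∑ i, (k i : ℂ) * conj (fc u k i - fc v k i) := by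
      rw [map_sum]
      refine Finset.sum_congr rfl fun i _ => ?_
      rw [map_mul, map_intCast]
    rw [← h2]
    have h3 : ∑ i, (k i : ℂ) * (fc u k i - fc v k i) = 0 := by
      simp only [mul_sub, Finset.sum_sub_distrib, d1, d2, sub_self]
    rw [h3, map_zero]
  have e1 : ∀ i, conj (fc u k i - fc v k i) * (fc (adv u P) k i - fc (adv v Q) k i)
      = ∑ j, (2 * Real.pi * Complex.I * (k j : ℂ)) * fr (fun y => u y i * u y j - v y i * v y j) k
        * conj (fc u k i - fc v k i)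
        + (2 * Real.pi * Complex.I * (fr P k - fr Q k)) * ((k i : ℂ) * conj (fc u k i - fc v k i)) := by
    intro i
    rw [adv_div hu du hP, adv_div hv dv hQ]
    simp only [h1]
    have e2 : ∀ j, (2 * Real.pi * Complex.I * (k j : ℂ)) * (fr (fun y => u y i * u y j) k - fr (fun y => v y i * v y j) k)
        * conj (fc u k i - fc v k i) = conj (fc u k i - fc v k i) *
          ((2 * Real.pi * Complex.I * (k j : ℂ)) * fr (fun y => u y i * u y j) k)
          - conj (fc u k i - fc v k i) * ((2 * Real.pi * Complex.I * (k j : ℂ)) * fr (fun y => v y i * v y j) k) :=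
      fun j => by ring
    simp only [e2, Finset.sum_sub_distrib, ← Finset.mul_sum]
    ring
  simp only [e1, Finset.sum_add_distrib, ← Finset.mul_sum, d3, mul_zero, add_zero]

/-- the bound of the pairing -/
lemma pair_bound (hu : ∀ i, SP fun y => u y i) (hv : ∀ i, SP fun y => v y i)
    (du : ∀ x, ∑ i, pd i (fun y => u y i) x = 0) (dv : ∀ x, ∑ i, pd i (fun y => v y i) x = 0)
    (hP : SP P) (hQ : SP Q) {A : ℝ} (hA : 0 ≤ A) (hAu : ∀ x i, |u x i| ≤ A) (hAv : ∀ x i, |v x i| ≤ A)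
    (F : Finset K) :
    |∑ k ∈ F, 1 / sq k * (∑ i, conj (fc u k i - fc v k i) * (fc (adv u P) k i - fc (adv v Q) k i)).re|
      ≤ 12 * Real.pi * A * √(∑ i, ∑' k, ‖fc u k i - fc v k i‖ ^ 2)
        * √(∑ k ∈ F, 1 / sq k * ∑ i, ‖fc u k i - fc v k i‖ ^ 2) := by
  have hpi := Real.pi_pos
  obtain ⟨W, hW⟩ : ∃ W : Fin 3 → R3 → ℝ, ∀ i, W i = fun y => u y i - v y i := ⟨_, fun _ => rfl⟩
  have sW : ∀ i, SP (W i) := fun i => by rw [hW]; exact SP.sub' (hu i) (hv i)
  have fW : ∀ i k, fr (W i) k = fc u k i - fc v k i := fun i k => by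
    rw [hW, fc_fr, fc_fr]; exact fr_sub (hu i) (hv i) k
  obtain ⟨V, hV⟩ : ∃ V, V = ∑ i, ∑' k, ‖fc u k i - fc v k i‖ ^ 2 := ⟨_, rfl⟩
  have hVi : V = ∑ i, ∫ x in cube, W i x ^ 2 := by
    rw [hV]
    refine Finset.sum_congr rfl fun i _ => ?_
    rw [← n2_fr (sW i), n2_sq]
    simp only [fW]
  obtain ⟨F2, hF2⟩ : ∃ F2 : Fin 3 → Fin 3 → R3 → ℝ, ∀ i j, F2 i j = fun y => u y i * u y j - v y i * v y j :=
    ⟨_, fun _ _ => rfl⟩
  have sF : ∀ i j, SP (F2 i j) := fun i j => by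
    rw [hF2]; exact SP.sub' ((hu i).mul (hu j)) ((hv i).mul (hv j))
  -- the quadratic term
  have hFle : ∀ i j x, F2 i j x ^ 2 ≤ 2 * A ^ 2 * (W i x ^ 2 + W j x ^ 2) := by
    intro i j x
    have e1 : F2 i j x = u x i * W j x + W i x * v x j := by rw [hF2, hW, hW]; ring
    have h1 : (u x i * W j x) ^ 2 ≤ A ^ 2 * W j x ^ 2 := by
      rw [mul_pow]
      exact mul_le_mul_of_nonneg_right (sq_le_sq' (abs_le.1 (hAu x i)).1 (abs_le.1 (hAu x i)).2) (sq_nonneg _)
    have h2 : (W i x * v x j) ^ 2 ≤ A ^ 2 * W i x ^ 2 := by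
      rw [mul_pow, mul_comm]
      exact mul_le_mul_of_nonneg_right (sq_le_sq' (abs_le.1 (hAv x j)).1 (abs_le.1 (hAv x j)).2) (sq_nonneg _)
    rw [e1]
    nlinarith [sq_nonneg (u x i * W j x - W i x * v x j)]
  have hWi : ∀ i, IntegrableOn (fun x => W i x ^ 2) cube := fun i =>
    H459R3.NS.integrableOn_cube ((sW i).cont.pow 2)
  have hFi : ∀ i j, ∫ x in cube, F2 i j x ^ 2 ≤ 2 * A ^ 2 * ((∫ x in cube, W i x ^ 2) + ∫ x in cube, W j x ^ 2) := by
    intro i j
    rw [← integral_add (hWi i) (hWi j), ← integral_const_mul]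
    exact setIntegral_mono_on (H459R3.NS.integrableOn_cube ((sF i j).cont.pow 2)) (((hWi i).add (hWi j)).const_mul _)
      measurableSet_Icc fun x _ => hFle i j x
  have hF1 : ∑ k ∈ F, ∑ i, ∑ j, ‖fr (F2 i j) k‖ ^ 2 ≤ 12 * A ^ 2 * V := by
    have h1 : ∀ i j, ∑ k ∈ F, ‖fr (F2 i j) k‖ ^ 2 ≤ ∫ x in cube, F2 i j x ^ 2 := by
      intro i j
      rw [← n2_fr (sF i j), n2_sq]
      exact (H459R3.NS.summable_sq (H459R3.NS.rap_fr (sF i j)).summable).sum_le_tsum F fun k _ => sq_nonneg _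
    calc ∑ k ∈ F, ∑ i, ∑ j, ‖fr (F2 i j) k‖ ^ 2 = ∑ i, ∑ j, ∑ k ∈ F, ‖fr (F2 i j) k‖ ^ 2 := by
          rw [Finset.sum_comm]
          exact Finset.sum_congr rfl fun i _ => Finset.sum_comm
      _ ≤ ∑ i, ∑ j, 2 * A ^ 2 * ((∫ x in cube, W i x ^ 2) + ∫ x in cube, W j x ^ 2) :=
          Finset.sum_le_sum fun i _ => Finset.sum_le_sum fun j _ => (h1 i j).trans (hFi i j)
      _ = 12 * A ^ 2 * V := by
          rw [hVi]
          simp only [Fin.sum_univ_three]
          ring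
  -- Cauchy-Schwarz
  have hterm : ∀ k ∈ F, |1 / sq k * (∑ i, conj (fc u k i - fc v k i) * (fc (adv u P) k i - fc (adv v Q) k i)).re|
      ≤ ∑ i, ∑ j, 2 * Real.pi * (‖fr (F2 i j) k‖ * (‖fc u k i - fc v k i‖ / nk k)) := by
    intro k _
    have hs := sq_nonneg' k
    have hn := nk_nonneg k
    rw [pair_id hu hv du dv hP hQ, abs_mul, abs_of_nonneg (by positivity : 0 ≤ 1 / sq k)]
    have h1 : |(∑ i, ∑ j, (2 * Real.pi * Complex.I * (k j : ℂ)) * fr (fun y => u y i * u y j - v y i * v y j) k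
        * conj (fc u k i - fc v k i)).re| ≤ ∑ i, ∑ j, 2 * Real.pi * nk k * (‖fr (F2 i j) k‖ * ‖fc u k i - fc v k i‖) := by
      refine (Complex.abs_re_le_norm _).trans ((norm_sum_le _ _).trans (Finset.sum_le_sum fun i _ =>
        (norm_sum_le _ _).trans (Finset.sum_le_sum fun j _ => ?_)))
      rw [norm_mul, norm_mul, RCLike.norm_conj]
      have h2 : ‖2 * (Real.pi : ℂ) * Complex.I * (k j : ℂ)‖ ≤ 2 * Real.pi * nk k := by
        rw [norm_mul, norm_mul, norm_mul, Complex.norm_I, mul_one, Complex.norm_real, Real.norm_eq_abs,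
          abs_of_pos hpi, Complex.norm_ofNat, Complex.norm_intCast]
        exact mul_le_mul_of_nonneg_left (abs_le_nk k j) (by positivity)
      rw [hF2]
      calc _ ≤ 2 * Real.pi * nk k * ‖fr (fun y => u y i * u y j - v y i * v y j) k‖ * ‖fc u k i - fc v k i‖ := by
            gcongr
        _ = _ := by ring
    refine (mul_le_mul_of_nonneg_left h1 (by positivity)).trans (le_of_eq ?_)
    rw [Finset.mul_sum]
    refine Finset.sum_congr rfl fun i _ => ?_
    rw [Finset.mul_sum]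
    refine Finset.sum_congr rfl fun j _ => ?_
    by_cases h0 : nk k = 0
    · rw [h0]; simp
    · rw [← nk_sq]
      field_simp
  refine (Finset.abs_sum_le_sum_abs _ _).trans ((Finset.sum_le_sum hterm).trans ?_)
  have e1 : ∑ k ∈ F, ∑ i, ∑ j, 2 * Real.pi * (‖fr (F2 i j) k‖ * (‖fc u k i - fc v k i‖ / nk k))
      = 2 * Real.pi * ∑ p ∈ F ×ˢ (Finset.univ : Finset (Fin 3 × Fin 3)),
        ‖fr (F2 p.2.1 p.2.2) p.1‖ * (‖fc u p.1 p.2.1 - fc v p.1 p.2.1‖ / nk p.1) := by
    rw [Finset.mul_sum, Finset.sum_product]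
    refine Finset.sum_congr rfl fun k _ => ?_
    rw [← Finset.univ_product_univ, Finset.sum_product]
  have cs := Real.sum_mul_le_sqrt_mul_sqrt (F ×ˢ (Finset.univ : Finset (Fin 3 × Fin 3)))
    (fun p => ‖fr (F2 p.2.1 p.2.2) p.1‖) (fun p => ‖fc u p.1 p.2.1 - fc v p.1 p.2.1‖ / nk p.1)
  have e2 : ∑ p ∈ F ×ˢ (Finset.univ : Finset (Fin 3 × Fin 3)), ‖fr (F2 p.2.1 p.2.2) p.1‖ ^ 2
      = ∑ k ∈ F, ∑ i, ∑ j, ‖fr (F2 i j) k‖ ^ 2 := by
    rw [Finset.sum_product]
    refine Finset.sum_congr rfl fun k _ => ?_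
    rw [← Finset.univ_product_univ, Finset.sum_product]
  have e3 : ∑ p ∈ F ×ˢ (Finset.univ : Finset (Fin 3 × Fin 3)), (‖fc u p.1 p.2.1 - fc v p.1 p.2.1‖ / nk p.1) ^ 2
      = 3 * ∑ k ∈ F, 1 / sq k * ∑ i, ‖fc u k i - fc v k i‖ ^ 2 := by
    rw [Finset.sum_product, Finset.mul_sum]
    refine Finset.sum_congr rfl fun k _ => ?_
    rw [← Finset.univ_product_univ, Finset.sum_product]
    simp only [Finset.sum_const, Finset.card_univ, Fintype.card_fin, nsmul_eq_mul, div_pow, nk_sq]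
    rw [← Finset.mul_sum, ← Finset.sum_div]
    push_cast
    ring
  rw [e1]
  rw [e2, e3] at cs
  have hE0 : 0 ≤ ∑ k ∈ F, 1 / sq k * ∑ i, ‖fc u k i - fc v k i‖ ^ 2 := Finset.sum_nonneg fun k _ => by
    have := sq_nonneg' k
    positivity
  have hV0 : 0 ≤ V := by
    rw [hV]
    exact Finset.sum_nonneg fun i _ => tsum_nonneg fun k => sq_nonneg _
  calc 2 * Real.pi * ∑ p ∈ F ×ˢ (Finset.univ : Finset (Fin 3 × Fin 3)),
        ‖fr (F2 p.2.1 p.2.2) p.1‖ * (‖fc u p.1 p.2.1 - fc v p.1 p.2.1‖ / nk p.1)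
      ≤ 2 * Real.pi * (√(12 * A ^ 2 * V) * √(3 * ∑ k ∈ F, 1 / sq k * ∑ i, ‖fc u k i - fc v k i‖ ^ 2)) := by
        refine mul_le_mul_of_nonneg_left (cs.trans ?_) (by positivity)
        exact mul_le_mul_of_nonneg_right (Real.sqrt_le_sqrt hF1) (Real.sqrt_nonneg _)
    _ = _ := by
        rw [← hV, ← Real.sqrt_mul (by positivity), show 12 * A ^ 2 * V *
          (3 * ∑ k ∈ F, 1 / sq k * ∑ i, ‖fc u k i - fc v k i‖ ^ 2)
          = (6 * A) ^ 2 * (V * ∑ k ∈ F, 1 / sq k * ∑ i, ‖fc u k i - fc v k i‖ ^ 2) by ring,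
          Real.sqrt_mul (by positivity), Real.sqrt_sq (by positivity), Real.sqrt_mul hV0]
        ring

/-- the bound of the difference in `L²` -/
lemma diff_l2 (hu : ∀ i, SP fun y => u y i) (hv : ∀ i, SP fun y => v y i) {A : ℝ}
    (hAu : ∀ x i, |u x i| ≤ A) (hAv : ∀ x i, |v x i| ≤ A) :
    (∀ i, Summable fun k => ‖fc u k i - fc v k i‖ ^ 2) ∧ ∑ i, ∑' k, ‖fc u k i - fc v k i‖ ^ 2 ≤ 12 * A ^ 2 := by
  obtain ⟨W, hW⟩ : ∃ W : Fin 3 → R3 → ℝ, ∀ i, W i = fun y => u y i - v y i := ⟨_, fun _ => rfl⟩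
  have sW : ∀ i, SP (W i) := fun i => by rw [hW]; exact SP.sub' (hu i) (hv i)
  have fW : ∀ i k, fr (W i) k = fc u k i - fc v k i := fun i k => by
    rw [hW, fc_fr, fc_fr]; exact fr_sub (hu i) (hv i) k
  refine ⟨fun i => ?_, ?_⟩
  · have h1 := H459R3.NS.summable_sq (H459R3.NS.rap_fr (sW i)).summable
    simpa only [fW] using h1
  · have h1 : ∀ i, ∑' k, ‖fc u k i - fc v k i‖ ^ 2 ≤ 4 * A ^ 2 := by
      intro i
      have h2 : ∑' k, ‖fc u k i - fc v k i‖ ^ 2 = ∫ x in cube, W i x ^ 2 := by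
        rw [← n2_fr (sW i), n2_sq]
        simp only [fW]
      rw [h2]
      calc ∫ x in cube, W i x ^ 2 ≤ ∫ _x in cube, 4 * A ^ 2 := by
            refine setIntegral_mono_on (H459R3.NS.integrableOn_cube ((sW i).cont.pow 2))
              (H459R3.NS.integrableOn_cube continuous_const) measurableSet_Icc fun x _ => ?_
            have h3 := abs_le.1 (hAu x i)
            have h4 := abs_le.1 (hAv x i)
            rw [hW]
            dsimp only
            nlinarith
        _ = 4 * A ^ 2 := by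
            rw [setIntegral_const, Measure.real, H459R3.NS.volume_cube]
            simp
    calc ∑ i, ∑' k, ‖fc u k i - fc v k i‖ ^ 2 ≤ ∑ _i : Fin 3, 4 * A ^ 2 := Finset.sum_le_sum fun i _ => h1 i
      _ = _ := by simp; ring

end

end Pool.Agent.H356R3.NS.X
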