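import Mathlib

set_option autoImplicit false
set_option maxHeartbeats 4000000
set_option synthInstance.maxHeartbeats 400000

/-!
The abstract uniqueness argument.
-/

open MeasureTheory Set Filter Topology

namespace Pool.Agent.H356R3.NS.X

lemma loc_zero {α β : ℝ} (hαβ : α ≤ β) {E E' Dn : ℕ → ℝ → ℝ} {H : ℝ → ℝ} {s : Set ℝ} (hs : s.Countable)
    (hEc : ∀ n, ContinuousOn (E n) (Icc α β)) (hE0 : ∀ n, ∀ t ∈ Icc α β, 0 ≤ E n t) (hEα : ∀ n, E n α = 0)
    (hEm : ∀ t ∈ Icc α β, Monotone fun n => E n t)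
    (hd : ∀ n, ∀ t ∈ Ioo α β \ s, HasDerivAt (E n) (E' n t) t)
    (hi : ∀ n, IntervalIntegrable (E' n) volume α β)
    (hb : ∀ n, ∀ t ∈ Ioo α β \ s, E' n t ≤ H t * E n t + Dn n t * √(E n t))
    (hH0 : ∀ t ∈ Ioo α β \ s, 0 ≤ H t) (hD0 : ∀ n, ∀ t ∈ Ioo α β \ s, 0 ≤ Dn n t)
    (hHi : IntervalIntegrable H volume α β) (hDi : ∀ n, IntervalIntegrable (Dn n) volume α β)
    (hH : ∫ t in α..β, H t ≤ 1 / 4)
    (hD : Tendsto (fun n => ∫ t in α..β, Dn n t) atTop (𝓝 0)) :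
    ∀ n, ∀ t ∈ Icc α β, E n t = 0 := by
  have hae : ∀ a b : ℝ, a ∈ Icc α β → b ∈ Icc α β → ∀ᵐ t ∂(volume.restrict (Ioc a b)), t ∈ Ioo α β \ s := by
    intro a b ha hb'
    have h1 : ∀ᵐ t ∂(volume.restrict (Ioc a b)), t ∈ Ioc a b := ae_restrict_mem measurableSet_Ioc
    have h2 : ∀ᵐ t ∂(volume : Measure ℝ), t ∉ s ∪ {β} := by
      have h3 : (volume : Measure ℝ) (s ∪ {β}) = 0 := (hs.union (countable_singleton β)).measure_zero _
      exact measure_eq_zero_iff_ae_notMem.1 h3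
    filter_upwards [h1, ae_restrict_of_ae h2] with t h3 h4
    refine ⟨⟨lt_of_le_of_lt ha.1 h3.1, lt_of_le_of_ne (h3.2.trans hb'.2) fun h5 => h4 (Or.inr h5)⟩, fun h5 => h4 (Or.inl h5)⟩
  -- the maximum
  have hM : ∀ n, ∀ t ∈ Icc α β, √(E n t) ≤ (4 / 3) * ∫ t in α..β, Dn n t := by
    intro n
    obtain ⟨tm, htm, hmax⟩ := isCompact_Icc.exists_isMaxOn (nonempty_Icc.2 hαβ) (hEc n)
    obtain ⟨M, hMd⟩ : ∃ M, M = E n tm := ⟨_, rfl⟩
    have hM0 : 0 ≤ M := by rw [hMd]; exact hE0 n tm htm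
    have hle : ∀ t ∈ Icc α β, E n t ≤ M := fun t ht => by rw [hMd]; exact hmax ht
    have hα : α ∈ Icc α β := ⟨le_rfl, hαβ⟩
    have hβ : β ∈ Icc α β := ⟨hαβ, le_rfl⟩
    have hδ0 : 0 ≤ ∫ t in α..β, Dn n t := by
      refine intervalIntegral.integral_nonneg_of_ae_restrict hαβ ?_
      filter_upwards [(restrict_Ioc_eq_restrict_Icc (μ := (volume : Measure ℝ)) (a := α) (b := β)) ▸ hae α β hα hβ] with t ht
      exact hD0 n t ht
    have h1 : M = ∫ t in α..tm, E' n t := by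
      have h2 := integral_eq_of_hasDerivAt_off_countable_of_le (E n) (E' n) (a := α) (b := tm) htm.1 hs
        ((hEc n).mono (Icc_subset_Icc_right htm.2))
        (fun t ht => hd n t ⟨⟨ht.1.1, ht.1.2.trans_le htm.2⟩, ht.2⟩)
        ((hi n).mono_set (by rw [uIcc_of_le htm.1, uIcc_of_le hαβ]; exact Icc_subset_Icc_right htm.2))
      rw [h2, hEα, sub_zero, hMd]
    have hint : IntervalIntegrable (fun t => M * H t + √M * Dn n t) volume α β := (hHi.const_mul M).add ((hDi n).const_mul _)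
    have h3 : M ≤ ∫ t in α..β, (M * H t + √M * Dn n t) := by
      have hsub : uIcc α tm ⊆ uIcc α β := by rw [uIcc_of_le htm.1, uIcc_of_le hαβ]; exact Icc_subset_Icc_right htm.2
      have h4 : ∫ t in α..tm, E' n t ≤ ∫ t in α..tm, (M * H t + √M * Dn n t) := by
        refine intervalIntegral.integral_mono_ae_restrict htm.1 ((hi n).mono_set hsub) (hint.mono_set hsub) ?_
        rw [← restrict_Ioc_eq_restrict_Icc]
        filter_upwards [hae α tm hα htm] with t ht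
        have ht' : t ∈ Icc α β := Ioo_subset_Icc_self ht.1
        refine (hb n t ht).trans (add_le_add ?_ ?_)
        · rw [mul_comm]; exact mul_le_mul_of_nonneg_right (hle t ht') (hH0 t ht)
        · rw [mul_comm]; exact mul_le_mul_of_nonneg_right (Real.sqrt_le_sqrt (hle t ht')) (hD0 n t ht)
      have h5 : ∫ t in α..β, (M * H t + √M * Dn n t) = (∫ t in α..tm, (M * H t + √M * Dn n t))
          + ∫ t in tm..β, (M * H t + √M * Dn n t) := by
        rw [intervalIntegral.integral_add_adjacent_intervals (hint.mono_set hsub)]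
        refine hint.mono_set ?_
        rw [uIcc_of_le htm.2, uIcc_of_le hαβ]; exact Icc_subset_Icc_left htm.1
      have h6 : 0 ≤ ∫ t in tm..β, (M * H t + √M * Dn n t) := by
        refine intervalIntegral.integral_nonneg_of_ae_restrict htm.2 ?_
        rw [← restrict_Ioc_eq_restrict_Icc]
        filter_upwards [hae tm β htm hβ] with t ht
        have := hH0 t ht
        have := hD0 n t ht
        have := Real.sqrt_nonneg M
        simp only [Pi.zero_apply]
        positivity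
      linarith
    rw [intervalIntegral.integral_add (hHi.const_mul M) ((hDi n).const_mul _), intervalIntegral.integral_const_mul,
      intervalIntegral.integral_const_mul] at h3
    have h7 : M * ∫ t in α..β, H t ≤ M * (1 / 4) := mul_le_mul_of_nonneg_left hH hM0
    have h8 : √M ≤ (4 / 3) * ∫ t in α..β, Dn n t := by
      by_cases h0 : √M = 0
      · rw [h0]; positivity
      · have h9 : 0 < √M := lt_of_le_of_ne (Real.sqrt_nonneg _) (Ne.symm h0)
        have h10 : √M * √M = M := Real.mul_self_sqrt hM0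
        by_contra hcon
        push Not at hcon
        nlinarith
    intro t ht
    exact (Real.sqrt_le_sqrt (hle t ht)).trans h8
  intro n t ht
  have h1 : ∀ m, n ≤ m → √(E n t) ≤ (4 / 3) * ∫ t in α..β, Dn m t := fun m hm =>
    (Real.sqrt_le_sqrt (hEm t ht hm)).trans (hM m t ht)
  have h2 : √(E n t) ≤ 4 / 3 * 0 :=
    ge_of_tendsto (hD.const_mul (4 / 3)) (eventually_atTop.2 ⟨n, fun m hm => h1 m hm⟩)
  have h3 : √(E n t) = 0 := le_antisymm (by linarith) (Real.sqrt_nonneg _)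
  exact (Real.sqrt_eq_zero (hE0 n t ht)).1 h3

lemma glob_zero {T : ℝ} (hT : 0 ≤ T) {E E' Dn : ℕ → ℝ → ℝ} {H : ℝ → ℝ} {s : Set ℝ} (hs : s.Countable)
    (hEc : ∀ n, ContinuousOn (E n) (Icc 0 T)) (hE0 : ∀ n, ∀ t ∈ Icc 0 T, 0 ≤ E n t) (hEα : ∀ n, E n 0 = 0)
    (hEm : ∀ t ∈ Icc 0 T, Monotone fun n => E n t)
    (hd : ∀ n, ∀ t ∈ Ioo 0 T \ s, HasDerivAt (E n) (E' n t) t)
    (hi : ∀ n, IntervalIntegrable (E' n) volume 0 T)
    (hb : ∀ n, ∀ t ∈ Ioo 0 T \ s, E' n t ≤ H t * E n t + Dn n t * √(E n t))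
    (hH0 : ∀ t ∈ Ioo 0 T \ s, 0 ≤ H t) (hD0 : ∀ n, ∀ t ∈ Ioo 0 T \ s, 0 ≤ Dn n t)
    (hHi : IntervalIntegrable H volume 0 T) (hDi : ∀ n, IntervalIntegrable (Dn n) volume 0 T)
    (hD : Tendsto (fun n => ∫ t in (0 : ℝ)..T, Dn n t) atTop (𝓝 0)) :
    ∀ n, ∀ t ∈ Icc 0 T, E n t = 0 := by
  have hae : ∀ a b : ℝ, a ∈ Icc 0 T → b ∈ Icc 0 T → ∀ᵐ t ∂(volume.restrict (Ioc a b)), t ∈ Ioo 0 T \ s := by
    intro a b ha hb'
    have h1 : ∀ᵐ t ∂(volume.restrict (Ioc a b)), t ∈ Ioc a b := ae_restrict_mem measurableSet_Ioc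
    have h2 : ∀ᵐ t ∂(volume : Measure ℝ), t ∉ s ∪ {T} := by
      have h3 : (volume : Measure ℝ) (s ∪ {T}) = 0 := (hs.union (countable_singleton T)).measure_zero _
      exact measure_eq_zero_iff_ae_notMem.1 h3
    filter_upwards [h1, ae_restrict_of_ae h2] with t h3 h4
    refine ⟨⟨lt_of_le_of_lt ha.1 h3.1, lt_of_le_of_ne (h3.2.trans hb'.2) fun h5 => h4 (Or.inr h5)⟩, fun h5 => h4 (Or.inl h5)⟩
  have hsub : ∀ {a b : ℝ}, a ∈ Icc 0 T → b ∈ Icc 0 T → uIcc a b ⊆ uIcc 0 T := by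
    intro a b ha hb'
    rw [uIcc_of_le hT]
    exact (convex_Icc 0 T).ordConnected.uIcc_subset ha hb'
  have hnn : ∀ n, ∀ a b : ℝ, a ∈ Icc 0 T → b ∈ Icc 0 T → a ≤ b → 0 ≤ ∫ t in a..b, Dn n t := by
    intro n a b ha hb' hab
    refine intervalIntegral.integral_nonneg_of_ae_restrict hab ?_
    rw [← restrict_Ioc_eq_restrict_Icc]
    filter_upwards [hae a b ha hb'] with t ht
    exact hD0 n t ht
  have h0m : (0 : ℝ) ∈ Icc 0 T := ⟨le_rfl, hT⟩
  have hTm : T ∈ Icc 0 T := ⟨hT, le_rfl⟩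
  -- the primitive of `H`
  have hcont : ContinuousOn (fun t => ∫ x in (0 : ℝ)..t, H x) (Icc 0 T) := by
    have := intervalIntegral.continuousOn_primitive_interval (μ := volume) (f := H) (a := 0) (b := T)
      (by rw [uIcc_of_le hT]; exact (intervalIntegrable_iff_integrableOn_Icc_of_le hT).1 hHi)
    rwa [uIcc_of_le hT] at this
  have hcl : IsClosed ({t | ∀ n, E n t = 0} ∩ Icc 0 T) := by
    have : ({t | ∀ n, E n t = 0} ∩ Icc 0 T) = ⋂ n, (Icc 0 T ∩ E n ⁻¹' {0}) := by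
      ext t
      simp only [mem_inter_iff, mem_setOf_eq, mem_iInter, mem_preimage, mem_singleton_iff]
      exact ⟨fun h n => ⟨h.2, h.1 n⟩, fun h => ⟨fun n => (h n).2, (h 0).1⟩⟩
    rw [this]
    exact isClosed_iInter fun n => (hEc n).preimage_isClosed_of_isClosed isClosed_Icc isClosed_singleton
  have hsubset : Icc 0 T ⊆ {t | ∀ n, E n t = 0} := by
    refine hcl.Icc_subset_of_forall_exists_gt (fun n => hEα n) fun x hx y hy => ?_
    have hx0 : x ∈ Icc 0 T := ⟨hx.2.1, hx.2.2.le⟩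
    -- a small interval
    have h1 : ∀ᶠ z in 𝓝[Icc 0 T] x, ∫ t in (0 : ℝ)..z, H t < (∫ t in (0 : ℝ)..x, H t) + 1 / 4 :=
      (hcont x hx0).eventually (gt_mem_nhds (by linarith))
    rw [eventually_nhdsWithin_iff] at h1
    obtain ⟨e, he, h2⟩ := Metric.eventually_nhds_iff.1 h1
    obtain ⟨z, hz⟩ : ∃ z, z = min (x + e / 2) (min y T) := ⟨_, rfl⟩
    have hxy : x < y := hy
    have hxz : x < z := by rw [hz]; exact lt_min (by linarith) (lt_min hxy hx.2.2)
    have hzy : z ≤ y := by rw [hz]; exact (min_le_right _ _).trans (min_le_left _ _)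
    have hzT : z ≤ T := by rw [hz]; exact (min_le_right _ _).trans (min_le_right _ _)
    have hze : z ≤ x + e / 2 := by rw [hz]; exact min_le_left _ _
    have hz0 : z ∈ Icc 0 T := ⟨hx0.1.trans hxz.le, hzT⟩
    have h3 : ∫ t in x..z, H t ≤ 1 / 4 := by
      have h4 := h2 (y := z) (by rw [Real.dist_eq, abs_of_pos (sub_pos.2 hxz)]; linarith) hz0
      have h5 := intervalIntegral.integral_add_adjacent_intervals (hHi.mono_set (hsub h0m hx0)) (hHi.mono_set (hsub hx0 hz0))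
      linarith
    have hIcc : Icc x z ⊆ Icc 0 T := Icc_subset_Icc hx0.1 hzT
    have hIoo : Ioo x z \ s ⊆ Ioo 0 T \ s := diff_subset_diff_left (Ioo_subset_Ioo hx0.1 hzT)
    have h6 := loc_zero hxz.le hs (fun n => (hEc n).mono hIcc) (fun n t ht => hE0 n t (hIcc ht)) hx.1
      (fun t ht => hEm t (hIcc ht)) (fun n t ht => hd n t (hIoo ht)) (fun n => (hi n).mono_set (hsub hx0 hz0))
      (fun n t ht => hb n t (hIoo ht)) (fun t ht => hH0 t (hIoo ht)) (fun n t ht => hD0 n t (hIoo ht))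
      (hHi.mono_set (hsub hx0 hz0)) (fun n => (hDi n).mono_set (hsub hx0 hz0)) h3 (by
        refine squeeze_zero (fun n => hnn n x z hx0 hz0 hxz.le) (fun n => ?_) hD
        have h7 := intervalIntegral.integral_add_adjacent_intervals ((hDi n).mono_set (hsub h0m hx0)) ((hDi n).mono_set (hsub hx0 hz0))
        have h8 := intervalIntegral.integral_add_adjacent_intervals ((hDi n).mono_set (hsub h0m hz0)) ((hDi n).mono_set (hsub hz0 hTm))
        have h9 := hnn n 0 x h0m hx0 hx0.1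
        have h10 := hnn n z T hz0 hTm hzT
        linarith)
    exact ⟨z, fun n => h6 n z ⟨hxz.le, le_rfl⟩, hxz, hzy⟩
  exact fun n t ht => hsubset ht n

end Pool.Agent.H356R3.NS.X
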