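import Pool.Agent.H3NY.X.Uniq1
import Pool.Agent.H3NY.X.Uniq2

set_option autoImplicit false
set_option maxHeartbeats 4000000
set_option synthInstance.maxHeartbeats 400000

/-!
Uniqueness of solutions with discrete singular times in `L²` of time with values in the bounded fields.
-/

open MeasureTheory Set Filter Topology
open scoped ENNReal NNReal ContDiff ComplexConjugate

namespace Pool.Agent.H356R3.NS.X

open Pool.Agent.H3NS
open H459R3.NS (fr ee SP IsSol cube S_fr)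

lemma SP.bdd {f : R3 → ℝ} (hf : SP f) : ∃ B, ∀ x, |f x| ≤ B := by
  refine ⟨∑' k, ‖fr f k‖, fun x => ?_⟩
  have h1 := S_fr hf x
  rw [← Real.norm_eq_abs, ← Complex.norm_real, ← h1]
  have h2 : Summable fun k => ‖fr f k * ee k x‖ := by
    simp only [H459R3.NS.norm_term]
    exact (H459R3.NS.rap_fr hf).summable.norm
  calc ‖H459R3.NS.S (fr f) x‖ ≤ ∑' k, ‖fr f k * ee k x‖ := norm_tsum_le_tsum_norm h2
    _ = _ := by simp only [H459R3.NS.norm_term]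

/-- the hypotheses for the uniqueness -/
structure UH (ν : ℝ) (D S : Set ℝ) (a : K → C3) (u : ℝ → R3 → R3) (P : ℝ → R3 → ℝ) : Prop where
  zero : 0 ∈ S
  fin : ∀ t ∈ D, (S ∩ Iic t).Finite
  smu : ContDiffOn ℝ ∞ (fun z : ℝ × R3 => u z.1 z.2) ((D \ S) ×ˢ univ)
  smp : ContDiffOn ℝ ∞ (fun z : ℝ × R3 => P z.1 z.2) ((D \ S) ×ˢ univ)
  peu : ∀ t ∈ D, 0 < t → ∀ x j, u t (x + Pi.single j 1) = u t x
  pep : ∀ t ∈ D \ S, ∀ x j, P t (x + Pi.single j 1) = P t x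
  div : ∀ t ∈ D, 0 < t → ∀ x, ∑ i, pd i (fun y => u t y i) x = 0
  mom : ∀ t ∈ D \ S, ∀ x i, deriv (fun s => u s x i) t + ∑ j, u t x j * pd j (fun y => u t y i) x
    = ν * ∑ j, pd j (pd j fun y => u t y i) x - pd i (P t) x
  left : ∀ t ∈ D, 0 < t → ∃ α < t, ContDiffOn ℝ ∞ (fun z : ℝ × R3 => u z.1 z.2) (Ioc α t ×ˢ univ)
  intu : ∀ t ∈ D, 0 < t → ∀ k i, IntervalIntegrable (fun x => fc (u x) k i) volume 0 t
  int : ∀ t ∈ D, 0 < t → ∀ k i, IntervalIntegrable (fun x => fc (adv (u x) (P x)) k i) volume 0 t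
  eqn : ∀ t ∈ D, 0 < t → ∀ k i, fc (u t) k i = a k i - ∫ x in (0 : ℝ)..t,
    (((4 * Real.pi ^ 2 * ν * Pool.Agent.H356R3.NS.sq k : ℝ) : ℂ) * fc (u x) k i + fc (adv (u x) (P x)) k i)
  sup : ∀ t ∈ D, ∫⁻ x in Ioc 0 t, (⨆ y, ‖u x y‖ₑ) ^ 2 < ⊤

namespace UH

variable {ν : ℝ} {D S : Set ℝ} {a : K → C3} {u : ℝ → R3 → R3} {P : ℝ → R3 → ℝ}

lemma slice {u : ℝ → R3 → R3} {A : Set ℝ} (h : ContDiffOn ℝ ∞ (fun z : ℝ × R3 => u z.1 z.2) (A ×ˢ univ)) {t : ℝ}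
    (ht : t ∈ A) : ContDiff ℝ ∞ (u t) := by
  have h1 : ContDiffOn ℝ ∞ (fun x : R3 => ((t, x) : ℝ × R3)) univ := by fun_prop
  have h2 := ContDiffOn.comp (g := fun z : ℝ × R3 => u z.1 z.2) h h1 (fun x _ => ⟨ht, mem_univ _⟩)
  exact contDiffOn_univ.1 h2

lemma slicep {P : ℝ → R3 → ℝ} {A : Set ℝ} (h : ContDiffOn ℝ ∞ (fun z : ℝ × R3 => P z.1 z.2) (A ×ˢ univ)) {t : ℝ}
    (ht : t ∈ A) : ContDiff ℝ ∞ (P t) := by
  have h1 : ContDiffOn ℝ ∞ (fun x : R3 => ((t, x) : ℝ × R3)) univ := by fun_prop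
  have h2 := ContDiffOn.comp (g := fun z : ℝ × R3 => P z.1 z.2) h h1 (fun x _ => ⟨ht, mem_univ _⟩)
  exact contDiffOn_univ.1 h2

lemma spu (h : UH ν D S a u P) {t : ℝ} (ht : t ∈ D) (ht0 : 0 < t) (i : Fin 3) : SP fun y => u t y i := by
  obtain ⟨α, hα, h1⟩ := h.left t ht ht0
  exact sp_of (slice h1 ⟨hα, le_rfl⟩) (h.peu t ht ht0) i

lemma spp (h : UH ν D S a u P) {t : ℝ} (ht : t ∈ D \ S) : SP (P t) :=
  ⟨slicep h.smp ht, fun i x => h.pep t ht x i⟩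

lemma sup_lt (h : UH ν D S a u P) {t : ℝ} (ht : t ∈ D) (ht0 : 0 < t) : ⨆ y, ‖u t y‖ₑ < ⊤ := by
  choose B hB using fun i => SP.bdd (h.spu ht ht0 i)
  refine lt_of_le_of_lt (b := ENNReal.ofReal (∑ i, |B i|)) (iSup_le fun y => ?_) ENNReal.ofReal_lt_top
  rw [← ofReal_norm]
  refine ENNReal.ofReal_le_ofReal ((pi_norm_le_iff_of_nonneg (Finset.sum_nonneg fun i _ => abs_nonneg _)).2 fun i => ?_)
  calc ‖u t y i‖ ≤ |B i| := (hB i y).trans (le_abs_self _)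
    _ ≤ ∑ i, |B i| := Finset.single_le_sum (f := fun i => |B i|) (fun i _ => abs_nonneg _) (Finset.mem_univ i)

lemma le_sup (h : UH ν D S a u P) {t : ℝ} (ht : t ∈ D) (ht0 : 0 < t) (x : R3) (i : Fin 3) :
    |u t x i| ≤ (⨆ y, ‖u t y‖ₑ).toReal := by
  have h1 : ‖u t x‖ₑ ≤ ⨆ y, ‖u t y‖ₑ := le_iSup (fun y => ‖u t y‖ₑ) x
  have h2 := ENNReal.toReal_mono (h.sup_lt ht ht0).ne h1
  rw [toReal_enorm] at h2
  exact (norm_le_pi_norm (u t x) i).trans h2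

lemma ae_mem (h : UH ν D S a u P) {T : ℝ} (hD : Ioc 0 T ⊆ D) (hT : T ∈ D) :
    ∀ᵐ t ∂(volume.restrict (Ioc 0 T)), t ∈ Ioc 0 T ∧ t ∈ D \ S := by
  have h1 : ∀ᵐ t ∂(volume.restrict (Ioc 0 T)), t ∈ Ioc 0 T := ae_restrict_mem measurableSet_Ioc
  have h2 : ∀ᵐ t ∂(volume : Measure ℝ), t ∉ S ∩ Iic T := by
    have h3 : (volume : Measure ℝ) (S ∩ Iic T) = 0 := (h.fin T hT).measure_zero _
    exact measure_eq_zero_iff_ae_notMem.1 h3
  filter_upwards [h1, ae_restrict_of_ae h2] with t h3 h4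
  exact ⟨h3, hD h3, fun h5 => h4 ⟨h5, h3.2⟩⟩

lemma aem (h : UH ν D S a u P) {T : ℝ} (hD : Ioc 0 T ⊆ D) (hT : T ∈ D) :
    AEMeasurable (fun t => ⨆ y, ‖u t y‖ₑ) (volume.restrict (Ioc 0 T)) := by
  have hm : MeasurableSet (Ioc 0 T \ (S ∩ Iic T)) := measurableSet_Ioc.diff (h.fin T hT).measurableSet
  have e1 : (volume : Measure ℝ).restrict (Ioc 0 T) = volume.restrict (Ioc 0 T \ (S ∩ Iic T)) := by
    refine (Measure.restrict_congr_set ?_)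
    have h3 : (volume : Measure ℝ) (S ∩ Iic T) = 0 := (h.fin T hT).measure_zero _
    exact (sdiff_null_ae_eq_self h3).symm
  have hsub : Ioc 0 T \ (S ∩ Iic T) ⊆ D \ S := fun t ht => ⟨hD ht.1, fun h1 => ht.2 ⟨h1, ht.1.2⟩⟩
  have h1 : ∀ y, AEMeasurable (fun t => ‖u t y‖ₑ) (volume.restrict (Ioc 0 T)) := by
    intro y
    rw [e1]
    have h2 : ContinuousOn (fun t => u t y) (Ioc 0 T \ (S ∩ Iic T)) := by
      have h3 : ContinuousOn (fun t : ℝ => ((t, y) : ℝ × R3)) (Ioc 0 T \ (S ∩ Iic T)) := by fun_prop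
      exact h.smu.continuousOn.comp h3 fun t ht => ⟨hsub ht, mem_univ _⟩
    exact (h2.enorm).aemeasurable hm
  have h2 : AEMeasurable (fun t => ⨆ n : ℕ, ‖u t (TopologicalSpace.denseSeq R3 n)‖ₑ) (volume.restrict (Ioc 0 T)) :=
    AEMeasurable.iSup fun n => h1 _
  refine h2.congr ?_
  filter_upwards [h.ae_mem hD hT] with t ht
  have hc : Continuous (u t) := (slice h.smu ht.2).continuous
  refine le_antisymm (iSup_le fun n => le_iSup (fun y => ‖u t y‖ₑ) _) (iSup_le fun y => ?_)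
  have h3 : IsClosed {y | ‖u t y‖ₑ ≤ ⨆ n : ℕ, ‖u t (TopologicalSpace.denseSeq R3 n)‖ₑ} :=
    isClosed_le hc.enorm continuous_const
  have h4 : closure (range (TopologicalSpace.denseSeq R3)) ⊆ {y | ‖u t y‖ₑ ≤ ⨆ n : ℕ, ‖u t (TopologicalSpace.denseSeq R3 n)‖ₑ} := by
    refine h3.closure_subset_iff.2 ?_
    rintro _ ⟨n, rfl⟩
    exact le_iSup (fun n => ‖u t (TopologicalSpace.denseSeq R3 n)‖ₑ) n
  rw [(TopologicalSpace.denseRange_denseSeq R3).closure_range] at h4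
  exact h4 (mem_univ y)

lemma int_sup (h : UH ν D S a u P) {T : ℝ} (hD : Ioc 0 T ⊆ D) (hT : T ∈ D) :
    IntegrableOn (fun t => (⨆ y, ‖u t y‖ₑ).toReal ^ 2) (Ioc 0 T) := by
  have h1 := integrable_toReal_of_lintegral_ne_top ((h.aem hD hT).pow_const 2) (h.sup T hT).ne
  simp only [ENNReal.toReal_pow] at h1
  exact h1

end UH

end Pool.Agent.H356R3.NS.X
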