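import Pool.Agent.H3NY.X.Uniq3

set_option autoImplicit false
set_option maxHeartbeats 4000000
set_option synthInstance.maxHeartbeats 400000

/-!
Uniqueness of solutions with discrete singular times in `L²` of time with values in the bounded fields: the
energy of the difference in `H^{-1}`.
-/

open MeasureTheory Set Filter Topology
open scoped ENNReal NNReal ContDiff ComplexConjugate

namespace Pool.Agent.H356R3.NS.X

open Pool.Agent.H3NS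
open H459R3.NS (fr ee SP IsSol cube S_fr)

section two
variable {ν : ℝ} {D S S' : Set ℝ} {a : K → C3} {u v : ℝ → R3 → R3} {P Q : ℝ → R3 → ℝ}

/-- the coefficients of the difference of the nonlinear terms -/
noncomputable def nn (u v : ℝ → R3 → R3) (P Q : ℝ → R3 → ℝ) (k : K) (i : Fin 3) (t : ℝ) : ℂ :=
  fc (adv (u t) (P t)) k i - fc (adv (v t) (Q t)) k i

/-- the coefficients of the difference, by the equation -/
noncomputable def XX (ν : ℝ) (u v : ℝ → R3 → R3) (P Q : ℝ → R3 → ℝ) (k : K) (i : Fin 3) (t : ℝ) : ℂ :=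
  -∫ s in (0 : ℝ)..t, (((4 * Real.pi ^ 2 * ν * Pool.Agent.H356R3.NS.sq k : ℝ) : ℂ) * (fc (u s) k i - fc (v s) k i)
    + nn u v P Q k i s)

lemma XX_int (h₁ : UH ν D S a u P) (h₂ : UH ν D S' a v Q) {t : ℝ} (ht : t ∈ D) (ht0 : 0 < t) (k : K) (i : Fin 3) :
    IntervalIntegrable (fun s => ((4 * Real.pi ^ 2 * ν * Pool.Agent.H356R3.NS.sq k : ℝ) : ℂ) *
      (fc (u s) k i - fc (v s) k i) + nn u v P Q k i s) volume 0 t :=
  (((h₁.intu t ht ht0 k i).sub (h₂.intu t ht ht0 k i)).const_mul _).add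
    ((h₁.int t ht ht0 k i).sub (h₂.int t ht ht0 k i))

lemma XX_eq (h₁ : UH ν D S a u P) (h₂ : UH ν D S' a v Q) {t : ℝ} (ht : t ∈ D) (ht0 : 0 < t) (k : K) (i : Fin 3) :
    fc (u t) k i - fc (v t) k i = XX ν u v P Q k i t := by
  obtain ⟨c, hc⟩ : ∃ c : ℂ, c = ((4 * Real.pi ^ 2 * ν * Pool.Agent.H356R3.NS.sq k : ℝ) : ℂ) := ⟨_, rfl⟩
  unfold XX
  rw [h₁.eqn t ht ht0, h₂.eqn t ht ht0, ← hc]
  have e1 : (∫ s in (0 : ℝ)..t, (c * fc (u s) k i + fc (adv (u s) (P s)) k i))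
      - ∫ s in (0 : ℝ)..t, (c * fc (v s) k i + fc (adv (v s) (Q s)) k i)
      = ∫ s in (0 : ℝ)..t, (c * (fc (u s) k i - fc (v s) k i) + nn u v P Q k i s) := by
    rw [← intervalIntegral.integral_sub (((h₁.intu t ht ht0 k i).const_mul c).add (h₁.int t ht ht0 k i))
      (((h₂.intu t ht ht0 k i).const_mul c).add (h₂.int t ht ht0 k i))]
    congr 1
    funext s
    unfold nn
    ring
  rw [← e1]
  ring

lemma XX_cont (h₁ : UH ν D S a u P) (h₂ : UH ν D S' a v Q) {T : ℝ} (hT : T ∈ D) (hT0 : 0 < T) (k : K) (i : Fin 3) :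
    ContinuousOn (XX ν u v P Q k i) (Icc 0 T) := by
  have h3 := intervalIntegral.continuousOn_primitive_interval (μ := volume) (a := 0) (b := T)
      (by rw [uIcc_of_le hT0.le]; exact (intervalIntegrable_iff_integrableOn_Icc_of_le hT0.le).1 (XX_int h₁ h₂ hT hT0 k i))
  rw [uIcc_of_le hT0.le] at h3
  exact h3.neg

lemma XX_zero (k : K) (i : Fin 3) : XX ν u v P Q k i 0 = 0 := by
  unfold XX
  rw [intervalIntegral.integral_same, neg_zero]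

lemma nn_zero (h₁ : UH ν D S a u P) (h₂ : UH ν D S' a v Q) {t : ℝ} (ht0 : 0 < t) (ht1 : t ∈ D \ S) (ht2 : t ∈ D \ S')
    (i : Fin 3) : nn u v P Q 0 i t = 0 := by
  unfold nn
  rw [adv_div (h₁.spu ht1.1 ht0) (h₁.div t ht1.1 ht0) (h₁.spp ht1), adv_div (h₂.spu ht2.1 ht0) (h₂.div t ht2.1 ht0) (h₂.spp ht2)]
  simp

lemma XX_mean (h₁ : UH ν D S a u P) (h₂ : UH ν D S' a v Q) {T : ℝ} (hT0 : 0 < T) (hD : Ioc 0 T ⊆ D) (i : Fin 3) :
    ∀ t ∈ Icc 0 T, XX ν u v P Q 0 i t = 0 := by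
  intro t ht
  have hT : T ∈ D := hD ⟨hT0, le_rfl⟩
  have h0 : Pool.Agent.H356R3.NS.sq (0 : K) = 0 := by simp [Pool.Agent.H356R3.NS.sq]
  unfold XX
  rw [h0]
  have h3 : ∫ s in (0 : ℝ)..t, (((4 * Real.pi ^ 2 * ν * 0 : ℝ) : ℂ) * (fc (u s) 0 i - fc (v s) 0 i)
      + nn u v P Q 0 i s) = ∫ s in (0 : ℝ)..t, (0 : ℂ) := by
    refine intervalIntegral.integral_congr_ae_restrict ?_
    rw [uIoc_of_le ht.1]
    have h4 := ae_restrict_of_ae_restrict_of_subset (Ioc_subset_Ioc_right ht.2) (h₁.ae_mem hD hT)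
    have h5 := ae_restrict_of_ae_restrict_of_subset (Ioc_subset_Ioc_right ht.2) (h₂.ae_mem hD hT)
    filter_upwards [h4, h5] with s h6 h7
    rw [nn_zero h₁ h₂ h6.1.1 h6.2 h7.2]
    simp
  rw [h3]
  simp

lemma XX_deriv (h₁ : UH ν D S a u P) (h₂ : UH ν D S' a v Q) {T : ℝ} (hT0 : 0 < T) (hD : Ioc 0 T ⊆ D) (k : K) (i : Fin 3)
    {t : ℝ} (ht : t ∈ Ioo 0 T) (hS : t ∉ S ∩ Iic T) (hS' : t ∉ S' ∩ Iic T) :
    HasDerivAt (XX ν u v P Q k i) (-(((4 * Real.pi ^ 2 * ν * Pool.Agent.H356R3.NS.sq k : ℝ) : ℂ) * XX ν u v P Q k i t)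
      - nn u v P Q k i t) t := by
  have hT : T ∈ D := hD ⟨hT0, le_rfl⟩
  have hopen : IsOpen (Ioo 0 T ∩ ((S ∩ Iic T)ᶜ ∩ (S' ∩ Iic T)ᶜ)) :=
    isOpen_Ioo.inter ((h₁.fin T hT).isClosed.isOpen_compl.inter (h₂.fin T hT).isClosed.isOpen_compl)
  obtain ⟨η, hη, hball⟩ := Metric.isOpen_iff.1 hopen t ⟨ht, hS, hS'⟩
  rw [Real.ball_eq_Ioo] at hball
  have hsub1 : Ioo (t - η) (t + η) ⊆ D \ S := fun s hs =>
    ⟨hD ⟨(hball hs).1.1, (hball hs).1.2.le⟩, fun h1 => (hball hs).2.1 ⟨h1, (hball hs).1.2.le⟩⟩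
  have hsub2 : Ioo (t - η) (t + η) ⊆ D \ S' := fun s hs =>
    ⟨hD ⟨(hball hs).1.1, (hball hs).1.2.le⟩, fun h1 => (hball hs).2.2 ⟨h1, (hball hs).1.2.le⟩⟩
  have htI : t ∈ Ioo (t - η) (t + η) := ⟨by linarith, by linarith⟩
  have htD : t ∈ D := (hsub1 htI).1
  have d1 := adv_deriv hη (h₁.smu.mono (prod_mono hsub1 subset_rfl)) (h₁.peu t htD ht.1) (UH.slicep h₁.smp (hsub1 htI))
    (h₁.pep t (hsub1 htI)) (h₁.mom t (hsub1 htI)) k i
  have d2 := adv_deriv hη (h₂.smu.mono (prod_mono hsub2 subset_rfl)) (h₂.peu t htD ht.1) (UH.slicep h₂.smp (hsub2 htI))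
    (h₂.pep t (hsub2 htI)) (h₂.mom t (hsub2 htI)) k i
  have d3 := d1.sub d2
  refine (d3.congr_of_eventuallyEq ?_).congr_deriv ?_
  · filter_upwards [isOpen_Ioo.mem_nhds ht] with s hs
    rw [← XX_eq h₁ h₂ (hD ⟨hs.1, hs.2.le⟩) hs.1]
    rfl
  · rw [← XX_eq h₁ h₂ htD ht.1]
    unfold nn
    ring

end two

end Pool.Agent.H356R3.NS.X
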