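import Pool.Agent.H3NY.X.Uniq4

set_option autoImplicit false
set_option maxHeartbeats 4000000
set_option synthInstance.maxHeartbeats 400000

/-!
Uniqueness of solutions with discrete singular times in `L²` of time with values in the bounded fields.
-/

open MeasureTheory Set Filter Topology
open scoped ENNReal NNReal ContDiff ComplexConjugate

namespace Pool.Agent.H356R3.NS.X

open Pool.Agent.H3NS
open H459R3.NS (fr ee SP IsSol cube S_fr)

section two
variable {ν : ℝ} {D S S' : Set ℝ} {a : K → C3} {u v : ℝ → R3 → R3} {P Q : ℝ → R3 → ℝ}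

/-- the energy inequality at one time, as an inequality between real numbers -/
lemma amgm {ν V W E A : ℝ} (hν : 0 < ν) (hW : 0 ≤ W) (hWV : W ≤ V) (hE : 0 ≤ E) (hA : 0 ≤ A) :
    -(8 * Real.pi ^ 2 * ν * W) + 2 * (12 * Real.pi * A * √V * √E)
      ≤ 18 / ν * A ^ 2 * E + 24 * Real.pi * A * √(V - W) * √E := by
  have hpi := Real.pi_pos
  have h1 : √V ≤ √W + √(V - W) := by
    rw [Real.sqrt_le_left (by positivity)]
    have h2 := Real.sq_sqrt hW
    have h3 := Real.sq_sqrt (sub_nonneg.2 hWV)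
    have h4 := Real.sqrt_nonneg W
    have h5 := Real.sqrt_nonneg (V - W)
    nlinarith
  have h2 : 24 * Real.pi * A * √V * √E ≤ 24 * Real.pi * A * (√W + √(V - W)) * √E := by gcongr
  have h3 : 24 * Real.pi * √W * (A * √E) ≤ 8 * Real.pi ^ 2 * ν * √W ^ 2 + 18 / ν * (A * √E) ^ 2 := by
    have h4 : 0 ≤ 2 / ν * (2 * Real.pi * ν * √W - 3 * (A * √E)) ^ 2 := by positivity
    have h5 : 2 / ν * (2 * Real.pi * ν * √W - 3 * (A * √E)) ^ 2 = 8 * Real.pi ^ 2 * ν * √W ^ 2
        + 18 / ν * (A * √E) ^ 2 - 24 * Real.pi * √W * (A * √E) := by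
      field_simp
      ring
    linarith
  rw [mul_pow, Real.sq_sqrt hE, Real.sq_sqrt hW] at h3
  nlinarith

lemma ii_sum {ι : Type*} {s : Finset ι} {f : ι → ℝ → ℝ} {a b : ℝ} (h : ∀ i ∈ s, IntervalIntegrable (f i) volume a b) :
    IntervalIntegrable (fun t => ∑ i ∈ s, f i t) volume a b := by
  have h1 := IntervalIntegrable.sum s h
  have e1 : (∑ i ∈ s, f i) = fun t => ∑ i ∈ s, f i t := by
    funext t
    rw [Finset.sum_apply]
  rwa [e1] at h1

theorem uniq (hν : 0 < ν) (h₁ : UH ν D S a u P) (h₂ : UH ν D S' a v Q) {T : ℝ} (hT0 : 0 < T) (hD : Ioc 0 T ⊆ D) :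
    u T = v T := by
  have hpi := Real.pi_pos
  have hT : T ∈ D := hD ⟨hT0, le_rfl⟩
  have hTI : T ∈ Icc 0 T := ⟨hT0.le, le_rfl⟩
  obtain ⟨X, hX⟩ : ∃ X, X = XX ν u v P Q := ⟨_, rfl⟩
  obtain ⟨c, hc⟩ : ∃ c : K → ℝ, ∀ k, c k = 4 * Real.pi ^ 2 * ν * Pool.Agent.H356R3.NS.sq k := ⟨_, fun _ => rfl⟩
  have hXc : ∀ k i, ContinuousOn (X k i) (Icc 0 T) := fun k i => by rw [hX]; exact XX_cont h₁ h₂ hT hT0 k i
  have hX0 : ∀ k i, X k i 0 = 0 := fun k i => by rw [hX]; exact XX_zero k i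
  have hXm : ∀ i, ∀ t ∈ Icc 0 T, X 0 i t = 0 := fun i => by rw [hX]; exact XX_mean h₁ h₂ hT0 hD i
  have hXe : ∀ t ∈ Ioc 0 T, ∀ k i, fc (u t) k i - fc (v t) k i = X k i t := fun t ht k i => by
    rw [hX]; exact XX_eq h₁ h₂ (hD ht) ht.1 k i
  obtain ⟨s, hs⟩ : ∃ s, s = (S ∩ Iic T) ∪ (S' ∩ Iic T) := ⟨_, rfl⟩
  have hscount : s.Countable := by rw [hs]; exact ((h₁.fin T hT).union (h₂.fin T hT)).countable
  have hmem : ∀ t ∈ Ioo 0 T \ s, t ∈ Ioc 0 T ∧ t ∈ D \ S ∧ t ∈ D \ S' ∧ t ∉ S ∩ Iic T ∧ t ∉ S' ∩ Iic T := by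
    intro t ht
    rw [hs] at ht
    have h1 : t ∈ Ioc 0 T := ⟨ht.1.1, ht.1.2.le⟩
    exact ⟨h1, ⟨hD h1, fun h3 => ht.2 (Or.inl ⟨h3, h1.2⟩)⟩, ⟨hD h1, fun h3 => ht.2 (Or.inr ⟨h3, h1.2⟩)⟩,
      fun h3 => ht.2 (Or.inl h3), fun h3 => ht.2 (Or.inr h3)⟩
  have hXd : ∀ t ∈ Ioo 0 T \ s, ∀ k i, HasDerivAt (X k i) (-((c k : ℂ) * X k i t) - nn u v P Q k i t) t := by
    intro t ht k i
    rw [hX, hc]
    exact XX_deriv h₁ h₂ hT0 hD k i ht.1 (hmem t ht).2.2.2.1 (hmem t ht).2.2.2.2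
  -- the bound of the velocities
  obtain ⟨g₁, hg₁⟩ : ∃ g₁ : ℝ → ℝ, ∀ t, g₁ t = (⨆ y, ‖u t y‖ₑ).toReal := ⟨_, fun _ => rfl⟩
  obtain ⟨g₂, hg₂⟩ : ∃ g₂ : ℝ → ℝ, ∀ t, g₂ t = (⨆ y, ‖v t y‖ₑ).toReal := ⟨_, fun _ => rfl⟩
  have hg₁0 : ∀ t, 0 ≤ g₁ t := fun t => by rw [hg₁]; exact ENNReal.toReal_nonneg
  have hg₂0 : ∀ t, 0 ≤ g₂ t := fun t => by rw [hg₂]; exact ENNReal.toReal_nonneg
  obtain ⟨B, hB⟩ : ∃ B : ℝ → ℝ, ∀ t, B t = g₁ t ^ 2 + g₂ t ^ 2 := ⟨_, fun _ => rfl⟩
  have hB0 : ∀ t, 0 ≤ B t := fun t => by rw [hB]; positivity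
  have hBi : IntegrableOn B (Ioc 0 T) := by
    have h1 : IntegrableOn (fun t => g₁ t ^ 2 + g₂ t ^ 2) (Ioc 0 T) := by
      simp only [hg₁, hg₂]
      exact (h₁.int_sup hD hT).add (h₂.int_sup hD hT)
    exact h1.congr_fun (fun t _ => (hB t).symm) measurableSet_Ioc
  have hAu : ∀ t ∈ Ioc 0 T, ∀ x i, |u t x i| ≤ √(B t) := by
    intro t ht x i
    refine ((h₁.le_sup (hD ht) ht.1 x i).trans_eq (hg₁ t).symm).trans (Real.le_sqrt_of_sq_le ?_)
    rw [hB]; nlinarith [sq_nonneg (g₂ t)]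
  have hAv : ∀ t ∈ Ioc 0 T, ∀ x i, |v t x i| ≤ √(B t) := by
    intro t ht x i
    refine ((h₂.le_sup (hD ht) ht.1 x i).trans_eq (hg₂ t).symm).trans (Real.le_sqrt_of_sq_le ?_)
    rw [hB]; nlinarith [sq_nonneg (g₁ t)]
  -- the `L²` norm
  obtain ⟨V, hV⟩ : ∃ V : ℝ → ℝ, ∀ t, V t = ∑ i, ∑' k, ‖X k i t‖ ^ 2 := ⟨_, fun _ => rfl⟩
  obtain ⟨W, hW⟩ : ∃ W : ℕ → ℝ → ℝ, ∀ n t, W n t = ∑ k ∈ bx n, ∑ i, ‖X k i t‖ ^ 2 := ⟨_, fun _ _ => rfl⟩
  have hsum : ∀ t ∈ Ioc 0 T, (∀ i, Summable fun k => ‖X k i t‖ ^ 2) ∧ V t ≤ 12 * B t := by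
    intro t ht
    have h1 := diff_l2 (h₁.spu (hD ht) ht.1) (h₂.spu (hD ht) ht.1) (hAu t ht) (hAv t ht)
    simp only [hXe t ht, Real.sq_sqrt (hB0 t), ← hV] at h1
    exact h1
  have hW0 : ∀ n t, 0 ≤ W n t := fun n t => by
    rw [hW]; exact Finset.sum_nonneg fun k _ => Finset.sum_nonneg fun i _ => sq_nonneg _
  have hWs : ∀ n t, W n t = ∑ i, ∑ k ∈ bx n, ‖X k i t‖ ^ 2 := fun n t => by rw [hW, Finset.sum_comm]
  have hWV : ∀ n, ∀ t ∈ Ioc 0 T, W n t ≤ V t := by
    intro n t ht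
    rw [hWs, hV]
    exact Finset.sum_le_sum fun i _ => ((hsum t ht).1 i).sum_le_tsum _ fun k _ => sq_nonneg _
  have hWl : ∀ t ∈ Ioc 0 T, Tendsto (fun n => W n t) atTop (𝓝 (V t)) := by
    intro t ht
    simp only [hWs, hV]
    exact tendsto_finsetSum _ fun i _ => ((hsum t ht).1 i).hasSum.comp bx_tendsto
  have hWc : ∀ n, ContinuousOn (W n) (Icc 0 T) := by
    intro n
    have h1 : ContinuousOn (fun t => ∑ k ∈ bx n, ∑ i, ‖X k i t‖ ^ 2) (Icc 0 T) :=
      continuousOn_finsetSum _ fun k _ => continuousOn_finsetSum _ fun i _ => ((hXc k i).norm.pow 2)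
    exact h1.congr fun t _ => hW n t
  -- the energy
  obtain ⟨E, hE⟩ : ∃ E : ℕ → ℝ → ℝ, ∀ n, E n = fun t => ∑ k ∈ bx n, 1 / Pool.Agent.H356R3.NS.sq k * ∑ i, ‖X k i t‖ ^ 2 :=
    ⟨_, fun _ => rfl⟩
  obtain ⟨E', hE'⟩ : ∃ E' : ℕ → ℝ → ℝ, ∀ n, E' n = fun t => ∑ k ∈ bx n, 1 / Pool.Agent.H356R3.NS.sq k *
      ∑ i, 2 * (conj (X k i t) * (-((c k : ℂ) * X k i t) - nn u v P Q k i t)).re := ⟨_, fun _ => rfl⟩
  obtain ⟨Dn, hDn⟩ : ∃ Dn : ℕ → ℝ → ℝ, ∀ n t, Dn n t = 24 * Real.pi * √(B t) * √(V t - W n t) := ⟨_, fun _ _ => rfl⟩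
  have hE0 : ∀ n t, 0 ≤ E n t := fun n t => by
    rw [hE]
    exact Finset.sum_nonneg fun k _ => mul_nonneg (by have := sq_nonneg' k; positivity)
      (Finset.sum_nonneg fun i _ => sq_nonneg _)
  have hEc : ∀ n, ContinuousOn (E n) (Icc 0 T) := by
    intro n
    rw [hE]
    exact continuousOn_finsetSum _ fun k _ => continuousOn_const.mul
      (continuousOn_finsetSum _ fun i _ => ((hXc k i).norm.pow 2))
  have hBm : AEMeasurable B (volume.restrict (Ioc 0 T)) := hBi.aemeasurable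
  have hVm : AEMeasurable V (volume.restrict (Ioc 0 T)) := by
    refine aemeasurable_of_tendsto_metrizable_ae (u := atTop) (f := W) (fun n => ?_) ?_
    · exact (((hWc n).mono Ioc_subset_Icc_self).aestronglyMeasurable measurableSet_Ioc).aemeasurable
    · filter_upwards [ae_restrict_mem measurableSet_Ioc] with t ht
      exact hWl t ht
  have hWm : ∀ n, AEMeasurable (W n) (volume.restrict (Ioc 0 T)) := fun n =>
    (((hWc n).mono Ioc_subset_Icc_self).aestronglyMeasurable measurableSet_Ioc).aemeasurable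
  have hDm : ∀ n, AEStronglyMeasurable (Dn n) (volume.restrict (Ioc 0 T)) := by
    intro n
    have h1 : AEMeasurable (fun t => 24 * Real.pi * √(B t) * √(V t - W n t)) (volume.restrict (Ioc 0 T)) :=
      ((hBm.sqrt).const_mul _).mul ((hVm.sub (hWm n)).sqrt)
    exact (h1.congr (ae_of_all _ fun t => (hDn n t).symm)).aestronglyMeasurable
  have hD0 : ∀ n t, 0 ≤ Dn n t := fun n t => by rw [hDn]; positivity
  have hDb : ∀ n, ∀ t ∈ Ioc 0 T, ‖Dn n t‖ ≤ 96 * Real.pi * B t := by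
    intro n t ht
    rw [Real.norm_of_nonneg (hD0 n t), hDn]
    have h1 : √(V t - W n t) ≤ 4 * √(B t) := by
      rw [show (4 : ℝ) = √(4 ^ 2) by rw [Real.sqrt_sq (by norm_num)], ← Real.sqrt_mul (by norm_num)]
      apply Real.sqrt_le_sqrt
      have := (hsum t ht).2
      have := hW0 n t
      have := hB0 t
      linarith
    calc 24 * Real.pi * √(B t) * √(V t - W n t) ≤ 24 * Real.pi * √(B t) * (4 * √(B t)) := by gcongr
      _ = 96 * Real.pi * (√(B t) * √(B t)) := by ring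
      _ = _ := by rw [Real.mul_self_sqrt (hB0 t)]
  have hBI : IntervalIntegrable B volume 0 T := (intervalIntegrable_iff_integrableOn_Ioc_of_le hT0.le).2 hBi
  have hDi : ∀ n, IntervalIntegrable (Dn n) volume 0 T := by
    intro n
    refine (intervalIntegrable_iff_integrableOn_Ioc_of_le hT0.le).2 ?_
    refine Integrable.mono' (hBi.const_mul (96 * Real.pi)) (hDm n) ?_
    filter_upwards [ae_restrict_mem measurableSet_Ioc] with t ht
    exact hDb n t ht
  have hDl : Tendsto (fun n => ∫ t in (0 : ℝ)..T, Dn n t) atTop (𝓝 0) := by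
    have h1 := intervalIntegral.tendsto_integral_filter_of_dominated_convergence (l := atTop) (μ := volume) (a := 0) (b := T)
      (F := Dn) (f := fun _ => (0 : ℝ)) (fun t => 96 * Real.pi * B t)
      (Filter.Eventually.of_forall fun n => by rw [uIoc_of_le hT0.le]; exact hDm n)
      (Filter.Eventually.of_forall fun n => ae_of_all _ fun t ht => by
        rw [uIoc_of_le hT0.le] at ht; exact hDb n t ht)
      (hBI.const_mul _)
      (ae_of_all _ fun t ht => by
        rw [uIoc_of_le hT0.le] at ht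
        simp only [hDn]
        have h2 : Tendsto (fun n => √(V t - W n t)) atTop (𝓝 0) := by
          have h3 := ((hWl t ht).const_sub (V t)).sqrt
          rwa [sub_self, Real.sqrt_zero] at h3
        have h4 := h2.const_mul (24 * Real.pi * √(B t))
        rwa [mul_zero] at h4)
    simpa using h1
  have hres := glob_zero (T := T) hT0.le (E := E) (E' := E') (Dn := Dn) (H := fun t => 18 / ν * B t) (s := s) hscount hEc
    (fun n t _ => hE0 n t) (fun n => by rw [hE]; simp [hX0])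
    (fun t _ => by
      intro n m hnm
      simp only [hE]
      exact Finset.sum_le_sum_of_subset_of_nonneg (bx_mono hnm) fun k _ _ => mul_nonneg
        (by have := sq_nonneg' k; positivity) (Finset.sum_nonneg fun i _ => sq_nonneg _))
    (fun n t ht => by
      rw [hE, hE']
      refine HasDerivAt.fun_sum fun k _ => HasDerivAt.const_mul _ (HasDerivAt.fun_sum fun i _ => ?_)
      have h1 := (hXd t ht k i).norm_sq
      rw [Complex.inner, mul_comm (_ - _)] at h1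
      exact h1)
    (fun n => by
      rw [hE']
      refine ii_sum fun k _ => IntervalIntegrable.const_mul (ii_sum fun i _ =>
        IntervalIntegrable.const_mul ?_ _) _
      have h1 : IntervalIntegrable (fun t => -((c k : ℂ) * X k i t) - nn u v P Q k i t) volume 0 T := by
        have h2 : IntervalIntegrable (fun t => -((c k : ℂ) * X k i t)) volume 0 T := by
          refine ContinuousOn.intervalIntegrable ?_
          rw [uIcc_of_le hT0.le]
          exact (continuousOn_const.mul (hXc k i)).neg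
        exact h2.sub ((h₁.int T hT hT0 k i).sub (h₂.int T hT hT0 k i))
      have h3 : ContinuousOn (fun t => conj (X k i t)) (uIcc 0 T) := by
        rw [uIcc_of_le hT0.le]
        exact Complex.continuous_conj.comp_continuousOn (hXc k i)
      have h4 := h1.continuousOn_mul h3
      exact ⟨h4.1.re, h4.2.re⟩)
    (fun n t ht => by
      obtain ⟨hm1, hm2, hm3, -, -⟩ := hmem t ht
      have hpb := pair_bound (P := P t) (Q := Q t) (h₁.spu (hD hm1) hm1.1) (h₂.spu (hD hm1) hm1.1) (h₁.div t (hD hm1) hm1.1)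
        (h₂.div t (hD hm1) hm1.1) (h₁.spp hm2) (h₂.spp hm3) (Real.sqrt_nonneg (B t)) (hAu t hm1) (hAv t hm1) (bx n)
      simp only [hXe t hm1] at hpb
      rw [← hV] at hpb
      have e1 : E' n t = -(8 * Real.pi ^ 2 * ν * W n t) - 2 * ∑ k ∈ bx n, 1 / Pool.Agent.H356R3.NS.sq k *
          (∑ i, conj (X k i t) * (fc (adv (u t) (P t)) k i - fc (adv (v t) (Q t)) k i)).re := by
        rw [hE', hW, Finset.mul_sum, Finset.mul_sum, ← Finset.sum_neg_distrib, ← Finset.sum_sub_distrib]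
        refine Finset.sum_congr rfl fun k _ => ?_
        have e2 : ∀ i, (conj (X k i t) * (-((c k : ℂ) * X k i t) - nn u v P Q k i t)).re
            = -(c k * ‖X k i t‖ ^ 2) - (conj (X k i t) * (fc (adv (u t) (P t)) k i - fc (adv (v t) (Q t)) k i)).re := by
          intro i
          have e3 : conj (X k i t) * (-((c k : ℂ) * X k i t) - nn u v P Q k i t)
              = -((c k : ℂ) * (conj (X k i t) * X k i t)) - conj (X k i t) * (fc (adv (u t) (P t)) k i - fc (adv (v t) (Q t)) k i) := by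
            unfold nn; ring
          rw [e3, Complex.conj_mul', Complex.sub_re, Complex.neg_re, ← Complex.ofReal_pow, ← Complex.ofReal_mul,
            Complex.ofReal_re]
        have e4 : ∑ i, 2 * (conj (X k i t) * (-((c k : ℂ) * X k i t) - nn u v P Q k i t)).re
            = -(2 * c k * ∑ i, ‖X k i t‖ ^ 2)
              - 2 * (∑ i, conj (X k i t) * (fc (adv (u t) (P t)) k i - fc (adv (v t) (Q t)) k i)).re := by
          rw [Complex.re_sum, Finset.mul_sum, Finset.mul_sum, ← Finset.sum_neg_distrib, ← Finset.sum_sub_distrib]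
          refine Finset.sum_congr rfl fun i _ => ?_
          rw [e2]
          ring
        rw [e4, hc]
        by_cases hk : k = 0
        · subst hk
          have h3 : Pool.Agent.H356R3.NS.sq (0 : K) = 0 := by simp [Pool.Agent.H356R3.NS.sq]
          have h4 : ∀ i, X 0 i t = 0 := fun i => hXm i t ⟨hm1.1.le, hm1.2⟩
          simp [h3, h4]
        · have h3 : Pool.Agent.H356R3.NS.sq k ≠ 0 := (Pool.Agent.H356R3.NS.sq_pos hk).ne'
          field_simp
          ring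
      have h5 := abs_le.1 hpb
      have h6 : E n t = ∑ k ∈ bx n, 1 / Pool.Agent.H356R3.NS.sq k * ∑ i, ‖X k i t‖ ^ 2 := by rw [hE]
      rw [← h6] at h5
      have h7 := amgm hν (hW0 n t) (hWV n t hm1) (hE0 n t) (Real.sqrt_nonneg (B t))
      rw [Real.sq_sqrt (hB0 t)] at h7
      rw [e1, hDn]
      linarith [h5.1])
    (fun t _ => by have := hB0 t; positivity) (fun n t _ => hD0 n t) (hBI.const_mul _) hDi hDl
  -- the end
  have hz : ∀ k i, fc (u T) k i = fc (v T) k i := by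
    intro k i
    have h1 : X k i T = 0 := by
      by_cases hk : k = 0
      · rw [hk]; exact hXm i T hTI
      · have h2 := hres (∑ i, (k i).natAbs) T hTI
        rw [hE] at h2
        have h3 := (Finset.sum_eq_zero_iff_of_nonneg fun k _ => mul_nonneg
          (by have := sq_nonneg' k; positivity) (Finset.sum_nonneg fun i _ => sq_nonneg _)).1 h2 k (mem_bx_self k)
        have h4 : 1 / Pool.Agent.H356R3.NS.sq k ≠ 0 := by have := Pool.Agent.H356R3.NS.sq_pos hk; positivity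
        have h5 := (mul_eq_zero.1 h3).resolve_left h4
        have h6 := (Finset.sum_eq_zero_iff_of_nonneg fun i _ => sq_nonneg _).1 h5 i (Finset.mem_univ i)
        simpa using h6
    rw [← hXe T ⟨hT0, le_rfl⟩] at h1
    exact sub_eq_zero.1 h1
  funext x i
  have h1 := S_fr (h₁.spu hT hT0 i) x
  have h2 := S_fr (h₂.spu hT hT0 i) x
  have h3 : fr (fun y => u T y i) = fr (fun y => v T y i) := by
    funext k
    rw [← fc_fr, ← fc_fr]; exact hz k i
  rw [h3, h2] at h1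
  exact_mod_cast h1.symm

end two

end Pool.Agent.H356R3.NS.X
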