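import Pool.Agent.H3NY.X.Uniq5

set_option autoImplicit false
set_option maxHeartbeats 4000000
set_option synthInstance.maxHeartbeats 400000

/-!
A rate of growth after the singular times which is in `L²` gives `sup |u| ∈ L²`.
-/

open MeasureTheory Set Filter Topology
open scoped ENNReal NNReal ContDiff ComplexConjugate

namespace Pool.Agent.H356R3.NS.X

open Pool.Agent.H3NS

lemma bdd_of {u : ℝ → R3 → R3} {a b : ℝ} (h : ContinuousOn (fun z : ℝ × R3 => u z.1 z.2) (Icc a b ×ˢ univ))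
    (hp : ∀ t ∈ Icc a b, ∀ x j, u t (x + Pi.single j 1) = u t x) :
    ∃ C : ℝ, ∀ t ∈ Icc a b, ∀ y, ‖u t y‖ ≤ C := by
  obtain ⟨C, hC⟩ := (isCompact_Icc.prod (isCompact_Icc (a := (0 : R3)) (b := 1))).exists_bound_of_continuousOn
    (h.mono (prod_mono subset_rfl (subset_univ _)))
  refine ⟨C, fun t ht y => ?_⟩
  have h1 := H459R3.NS.Per.int (f := u t) (fun i x => hp t ht x i) (fun i => ⌊y i⌋) (fun i => Int.fract (y i))
  have h2 : ((fun i => Int.fract (y i)) + fun i => ((⌊y i⌋ : ℤ) : ℝ)) = y := by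
    funext i
    exact Int.fract_add_floor (y i)
  rw [h2] at h1
  rw [h1]
  exact hC (t, fun i => Int.fract (y i)) ⟨ht, fun i => Int.fract_nonneg _, fun i => (Int.fract_lt_one _).le⟩

lemma rate_sup {D S : Set ℝ} {u : ℝ → R3 → R3} (hz : 0 ∈ S) (hfin : ∀ t ∈ D, (S ∩ Iic t).Finite)
    (smu : ContDiffOn ℝ ∞ (fun z : ℝ × R3 => u z.1 z.2) ((D \ S) ×ˢ univ))
    (peu : ∀ t ∈ D, 0 < t → ∀ x j, u t (x + Pi.single j 1) = u t x)
    (left : ∀ t ∈ D, 0 < t → ∃ α < t, ContDiffOn ℝ ∞ (fun z : ℝ × R3 => u z.1 z.2) (Ioc α t ×ˢ univ))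
    {g : ℝ → ℝ} {t0 : ℝ} (ht0 : 0 < t0) (hgi : ∫⁻ t in Ioc 0 t0, ENNReal.ofReal (g t ^ 2) < ⊤)
    (hr : ∀ τ ∈ S, ∀ᶠ t in 𝓝[>] τ, ∀ y, ‖u t y‖ ≤ g (t - τ)) {T : ℝ} (hT0 : 0 ≤ T) (hD : Icc 0 T ⊆ D) :
    ∫⁻ x in Ioc 0 T, (⨆ y, ‖u x y‖ₑ) ^ 2 < ⊤ := by
  have hT : T ∈ D := hD ⟨hT0, le_rfl⟩
  obtain ⟨F, hF⟩ : ∃ F : ℝ → ℝ≥0∞, ∀ x, F x = (⨆ y, ‖u x y‖ₑ) ^ 2 := ⟨_, fun _ => rfl⟩
  simp only [← hF]
  have hbd : ∀ (A : Set ℝ) (C : ℝ), MeasurableSet A → A ⊆ Ioc 0 T → (∀ t ∈ A, ∀ y, ‖u t y‖ ≤ C) →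
      ∫⁻ x in A, F x < ⊤ := by
    intro A C hA hAT hC
    calc ∫⁻ x in A, F x ≤ ∫⁻ _x in A, ENNReal.ofReal C ^ 2 := by
          refine setLIntegral_mono' hA fun x hx => ?_
          rw [hF]
          have h1 : ⨆ y, ‖u x y‖ₑ ≤ ENNReal.ofReal C :=
            iSup_le fun y => by rw [← ofReal_norm]; exact ENNReal.ofReal_le_ofReal (hC x hx y)
          gcongr
      _ = ENNReal.ofReal C ^ 2 * volume A := by rw [setLIntegral_const]
      _ < ⊤ := ENNReal.mul_lt_top (ENNReal.pow_lt_top ENNReal.ofReal_lt_top)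
        (lt_of_le_of_lt (measure_mono hAT) (by simp))
  have hright : ∀ t ∈ Icc 0 T, ∃ η > 0, ∫⁻ x in Ioo t (t + η) ∩ Ioc 0 T, F x < ⊤ := by
    intro t ht
    by_cases hS : t ∈ S
    · have h1 := hr t hS
      rw [eventually_nhdsWithin_iff, Metric.eventually_nhds_iff] at h1
      obtain ⟨e, he, h2⟩ := h1
      obtain ⟨η, hη⟩ : ∃ η, η = min e t0 := ⟨_, rfl⟩
      have hη0 : 0 < η := by rw [hη]; exact lt_min he ht0
      have hηe : η ≤ e := by rw [hη]; exact min_le_left _ _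
      have hηt : η ≤ t0 := by rw [hη]; exact min_le_right _ _
      refine ⟨η, hη0, ?_⟩
      have h3 : ∀ x ∈ Ioo t (t + η), F x ≤ ENNReal.ofReal (g (x - t) ^ 2) := by
        intro x hx
        have h4 : ∀ y, ‖u x y‖ ≤ g (x - t) := h2
          (by rw [Real.dist_eq, abs_of_pos (sub_pos.2 hx.1)]; linarith [hx.2]) hx.1
        rw [hF, ENNReal.ofReal_pow ((norm_nonneg _).trans (h4 0))]
        have h5 : ⨆ y, ‖u x y‖ₑ ≤ ENNReal.ofReal (g (x - t)) :=
          iSup_le fun y => by rw [← ofReal_norm]; exact ENNReal.ofReal_le_ofReal (h4 y)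
        gcongr
      calc ∫⁻ x in Ioo t (t + η) ∩ Ioc 0 T, F x ≤ ∫⁻ x in Ioo t (t + η), F x := lintegral_mono_set inter_subset_left
        _ ≤ ∫⁻ x in Ioo t (t + η), ENNReal.ofReal (g (x - t) ^ 2) := setLIntegral_mono' measurableSet_Ioo h3
        _ = ∫⁻ x in Ioo 0 η, ENNReal.ofReal (g x ^ 2) := by
            rw [← lintegral_indicator measurableSet_Ioo, ← lintegral_indicator measurableSet_Ioo,
              ← lintegral_sub_right_eq_self ((Ioo 0 η).indicator fun x => ENNReal.ofReal (g x ^ 2)) t]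
            congr 1
            funext x
            have h6 : x ∈ Ioo t (t + η) ↔ x - t ∈ Ioo 0 η := by
              constructor <;> rintro ⟨h7, h8⟩ <;> constructor <;> linarith
            by_cases h7 : x ∈ Ioo t (t + η)
            · rw [indicator_of_mem h7, indicator_of_mem (h6.1 h7)]
            · rw [indicator_of_notMem h7, indicator_of_notMem fun h8 => h7 (h6.2 h8)]
        _ ≤ ∫⁻ x in Ioc 0 t0, ENNReal.ofReal (g x ^ 2) := lintegral_mono_set fun x hx => ⟨hx.1, hx.2.le.trans hηt⟩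
        _ < ⊤ := hgi
    · have ht0' : 0 < t := lt_of_le_of_ne ht.1 fun h => hS (h ▸ hz)
      by_cases htT : t = T
      · refine ⟨1, one_pos, ?_⟩
        have h1 : Ioo t (t + 1) ∩ Ioc 0 T = ∅ := by
          ext x
          simp only [mem_inter_iff, mem_Ioo, mem_Ioc, mem_empty_iff_false, iff_false, not_and, not_le]
          intro h2 _
          rw [← htT]; exact h2.1
        rw [h1]; simp
      · have htT' : t < T := lt_of_le_of_ne ht.2 htT
        have hopen : IsOpen (Ioo 0 T ∩ (S ∩ Iic T)ᶜ) := isOpen_Ioo.inter (hfin T hT).isClosed.isOpen_compl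
        obtain ⟨η, hη, hball⟩ := Metric.isOpen_iff.1 hopen t ⟨⟨ht0', htT'⟩, fun h => hS h.1⟩
        rw [Real.ball_eq_Ioo] at hball
        have hsub : Icc t (t + η / 2) ⊆ D \ S := by
          intro s hs
          have h1 := hball (⟨by linarith [hs.1], by linarith [hs.2]⟩ : s ∈ Ioo (t - η) (t + η))
          exact ⟨hD (Ioo_subset_Icc_self h1.1), fun h2 => h1.2 ⟨h2, h1.1.2.le⟩⟩
        obtain ⟨C, hC⟩ := bdd_of (u := u) (a := t) (b := t + η / 2) (smu.continuousOn.mono (prod_mono hsub subset_rfl))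
          (fun s hs => peu s (hsub hs).1 (by linarith [hs.1]))
        exact ⟨η / 2, by positivity, hbd _ C (measurableSet_Ioo.inter measurableSet_Ioc) inter_subset_right
          fun s hs => hC s (Ioo_subset_Icc_self hs.1)⟩
  have hleft : ∀ t ∈ Icc 0 T, ∃ η > 0, ∫⁻ x in Ioc (t - η) t ∩ Ioc 0 T, F x < ⊤ := by
    intro t ht
    by_cases h0 : t = 0
    · refine ⟨1, one_pos, ?_⟩
      have h1 : Ioc (t - 1) t ∩ Ioc 0 T = ∅ := by
        ext x
        simp only [mem_inter_iff, mem_Ioc, mem_empty_iff_false, iff_false, not_and, not_le]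
        intro h2 h3
        linarith [h2.2]
      rw [h1]; simp
    · have ht0' : 0 < t := lt_of_le_of_ne ht.1 (Ne.symm h0)
      obtain ⟨α, hα, hl⟩ := left t (hD ht) ht0'
      obtain ⟨β, hβ⟩ : ∃ β, β = max ((α + t) / 2) (t / 2) := ⟨_, rfl⟩
      have h1 : (α + t) / 2 ≤ β := by rw [hβ]; exact le_max_left _ _
      have h2 : t / 2 ≤ β := by rw [hβ]; exact le_max_right _ _
      have h3 : β < t := by rw [hβ]; exact max_lt (by linarith) (by linarith)
      have hsub : Icc β t ⊆ Ioc α t := fun s hs => ⟨by linarith [hs.1], hs.2⟩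
      obtain ⟨C, hC⟩ := bdd_of (u := u) (a := β) (b := t) (hl.continuousOn.mono (prod_mono hsub subset_rfl))
        (fun s hs => peu s (hD ⟨by linarith [hs.1], hs.2.trans ht.2⟩) (by linarith [hs.1]))
      refine ⟨t - β, by linarith, hbd _ C (measurableSet_Ioc.inter measurableSet_Ioc) inter_subset_right
        fun s hs => hC s ⟨by have := hs.1.1; linarith, hs.1.2⟩⟩
  have key : ∫⁻ x in Icc 0 T ∩ Ioc 0 T, F x < ⊤ := by
    refine IsCompact.induction_on (p := fun A => ∫⁻ x in A ∩ Ioc 0 T, F x < ⊤) (isCompact_Icc (a := (0 : ℝ)) (b := T))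
      (by simp) (fun A B hAB hB => lt_of_le_of_lt (lintegral_mono_set (inter_subset_inter_left _ hAB)) hB)
      (fun A B hA hB => ?_) (fun t ht => ?_)
    · rw [union_inter_distrib_right]
      exact lt_of_le_of_lt (lintegral_union_le _ _ _) (ENNReal.add_lt_top.2 ⟨hA, hB⟩)
    · obtain ⟨η1, h1, h2⟩ := hright t ht
      obtain ⟨η2, h3, h4⟩ := hleft t ht
      refine ⟨Ioo (t - η2) (t + η1), mem_nhdsWithin_of_mem_nhds (Ioo_mem_nhds (by linarith) (by linarith)), ?_⟩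
      have h5 : Ioo (t - η2) (t + η1) ∩ Ioc 0 T ⊆ (Ioc (t - η2) t ∩ Ioc 0 T) ∪ (Ioo t (t + η1) ∩ Ioc 0 T) := by
        rintro x ⟨h6, h7⟩
        rcases le_or_gt x t with h8 | h8
        · exact Or.inl ⟨⟨h6.1, h8⟩, h7⟩
        · exact Or.inr ⟨⟨h8, h6.2⟩, h7⟩
      exact lt_of_le_of_lt (lintegral_mono_set h5) (lt_of_le_of_lt (lintegral_union_le _ _ _)
        (ENNReal.add_lt_top.2 ⟨h4, h2⟩))
  rwa [inter_eq_self_of_subset_right Ioc_subset_Icc_self] at key

end Pool.Agent.H356R3.NS.X
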